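import Pool.Agent.ATY.Defs

/-!
# Row A: dimensions of closed invariant subspaces of `ℓ²(X)`
-/

set_option autoImplicit false
set_option linter.unusedSectionVars false
set_option linter.unusedVariables false

open scoped ComplexConjugate InnerProductSpace
open Filter Topology

namespace ATY
open Singer Pool.WeakAtiyah

namespace AA

/-! ### basis vectors, push and pull -/

section basis
variable {X Y : Type*}

lemma inner_dl (x : X) (f : L2 X) : ⟪dl x, f⟫_ℂ = f x := by
  classical
  unfold dl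
  rw [lp.inner_single_left]
  simp

open Classical in
lemma dl_apply (x y : X) : (dl x : L2 X) y = if y = x then 1 else 0 := by
  unfold dl
  rw [lp.single_apply, Pi.single_apply]

lemma dl_self (x : X) : (dl x : L2 X) x = 1 := by
  rw [dl_apply, if_pos rfl]

lemma dl_ne {x y : X} (h : y ≠ x) : (dl x : L2 X) y = 0 := by
  rw [dl_apply, if_neg h]

lemma inner_push (p : X → Y) (hp : Function.Injective p) (u : L2 X) (f : L2 Y) :
    ⟪push p hp u, f⟫_ℂ = ⟪u, pull p hp f⟫_ℂ := by
  rw [inner_eq, inner_eq]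
  rw [← hp.tsum_eq]
  · congr 1
    funext x
    rw [push_apply, pull_apply]
  · intro y hy
    by_contra h
    apply hy
    show conj (push p hp u y) * f y = 0
    rw [push_apply_of_notMem p hp u h]
    simp

lemma inner_pull (p : X → Y) (hp : Function.Injective p) (f : L2 Y) (u : L2 X) :
    ⟪pull p hp f, u⟫_ℂ = ⟪f, push p hp u⟫_ℂ := by
  rw [← inner_conj_symm, ← inner_push, inner_conj_symm]

lemma push_dl (p : X → Y) (hp : Function.Injective p) (x : X) : push p hp (dl x) = dl (p x) := by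
  refine ext_inner_right ℂ fun f => ?_
  rw [inner_push, inner_dl, inner_dl, pull_apply]

lemma push_pull_apply_mem (p : X → Y) (hp : Function.Injective p) (f : L2 Y) {y : Y} (hy : y ∈ Set.range p) :
    push p hp (pull p hp f) y = f y := by
  obtain ⟨x, rfl⟩ := hy
  rw [push_apply, pull_apply]

lemma push_equiv_pull (e : X ≃ Y) (f : L2 Y) : push e e.injective (pull e e.injective f) = f := by
  ext y
  exact push_pull_apply_mem _ _ f (e.surjective y)

lemma push_equiv_apply (e : X ≃ Y) (f : L2 X) (y : Y) : push e e.injective f y = f (e.symm y) := by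
  obtain ⟨x, rfl⟩ := e.surjective y
  rw [push_apply, Equiv.symm_apply_apply]

lemma push_equiv (e : X ≃ Y) : push e e.injective = pull e.symm e.symm.injective := by
  ext f y
  rw [push_equiv_apply, pull_apply]

lemma push_injective (p : X → Y) (hp : Function.Injective p) : Function.Injective (push p hp) := by
  intro f g h
  rw [← pull_push p hp f, h, pull_push]

end basis

section lam
variable {H X Y : Type*} [Group H] [MulAction H X] [MulAction H Y]

lemma la_la (g h : H) (f : L2 X) : la g (la h f) = la (g * h) f := by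
  ext x
  rw [la_apply, la_apply, la_apply, mul_inv_rev, mul_smul]

lemma la_one (f : L2 X) : la (1 : H) f = f := by
  ext x
  rw [la_apply, inv_one, one_smul]

lemma la_inv_la (h : H) (f : L2 X) : la h⁻¹ (la h f) = f := by
  rw [la_la, inv_mul_cancel, la_one]

lemma la_la_inv (h : H) (f : L2 X) : la h (la h⁻¹ f) = f := by
  rw [la_la, mul_inv_cancel, la_one]

lemma inner_la (h : H) (f g : L2 X) : ⟪la h f, g⟫_ℂ = ⟪f, la h⁻¹ g⟫_ℂ := by
  rw [inner_eq, inner_eq, ← (MulAction.toPerm h : X ≃ X).tsum_eq]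
  congr 1
  funext x
  rw [MulAction.toPerm_apply, la_apply, la_apply, inv_smul_smul, inv_inv]

lemma la_dl (h : H) (x : X) : la h (dl x) = dl (h • x) := by
  refine ext_inner_right ℂ fun f => ?_
  rw [inner_la, inner_dl, inner_dl, la_apply, inv_inv]

lemma norm_la (h : H) (f : L2 X) : ‖la h f‖ = ‖f‖ :=
  norm_pull_equiv (MulAction.toPerm h⁻¹ : X ≃ X) f

lemma push_la {p : X → Y} (hp : Function.Injective p) (he : ∀ (h : H) x, p (h • x) = h • p x) (h : H) (f : L2 X) :
    push p hp (la h f) = la h (push p hp f) := by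
  refine ext_inner_right ℂ fun g => ?_
  rw [inner_push, inner_la, inner_la, inner_push]
  congr 1
  ext x
  rw [la_apply, pull_apply, pull_apply, la_apply, he]

lemma pull_la {p : X → Y} (hp : Function.Injective p) (he : ∀ (h : H) x, p (h • x) = h • p x) (h : H) (f : L2 Y) :
    pull p hp (la h f) = la h (pull p hp f) := by
  ext x
  rw [la_apply, pull_apply, pull_apply, la_apply, he]

end lam

/-! ### closed invariant subspaces -/

section md
variable {H X : Type*} [Group H] [MulAction H X]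

lemma md_closure {V : Submodule ℂ (L2 X)} (hV : ∀ (h : H), ∀ f ∈ V, la h f ∈ V) : Md H V.topologicalClosure where
  inv h f hf := by
    have h1 : la h f ∈ _root_.closure ((la h : L2 X →L[ℂ] L2 X) '' (V : Set (L2 X))) :=
      image_closure_subset_closure_image (la h).continuous ⟨f, hf, rfl⟩
    refine closure_mono ?_ h1
    rintro _ ⟨x, hx, rfl⟩
    exact hV h x hx
  cl := Submodule.isClosed_topologicalClosure V

end md

end AA

open AA

section md
variable {H X Y Z : Type*} [Group H] [MulAction H X] [MulAction H Y] [MulAction H Z]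

lemma Md.cleq {V : Submodule ℂ (L2 X)} (hV : Md H V) : V.topologicalClosure = V :=
  IsClosed.submodule_topologicalClosure_eq hV.cl

lemma Md.inf {V W : Submodule ℂ (L2 X)} (hV : Md H V) (hW : Md H W) : Md H (V ⊓ W) where
  inv h f hf := ⟨hV.inv h f hf.1, hW.inv h f hf.2⟩
  cl := hV.cl.inter hW.cl

lemma Md.sup {V W : Submodule ℂ (L2 X)} (hV : Md H V) (hW : Md H W) : Md H (V ⊔ W).topologicalClosure := by
  refine md_closure fun h f hf => ?_
  obtain ⟨v, hv, w, hw, rfl⟩ := Submodule.mem_sup.1 hf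
  rw [map_add]
  exact Submodule.add_mem_sup (hV.inv h v hv) (hW.inv h w hw)

lemma md_top : Md H (⊤ : Submodule ℂ (L2 X)) where
  inv _ _ _ := trivial
  cl := isClosed_univ

lemma md_bot : Md H (⊥ : Submodule ℂ (L2 X)) where
  inv h f hf := by
    rw [Submodule.mem_bot] at hf ⊢
    rw [hf, map_zero]
  cl := by
    rw [Submodule.bot_coe]
    exact isClosed_singleton

lemma Md.comap {T : L2 X →L[ℂ] L2 Y} (hT : ∀ (h : H) (f : L2 X), T (la h f) = la h (T f)) {W : Submodule ℂ (L2 Y)}
    (hW : Md H W) : Md H (W.comap (T : L2 X →ₗ[ℂ] L2 Y)) where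
  inv h f hf := by
    show T (la h f) ∈ W
    rw [hT]
    exact hW.inv h _ hf
  cl := hW.cl.preimage T.continuous

lemma md_kr {T : L2 X →L[ℂ] L2 Y} (hT : ∀ (h : H) (f : L2 X), T (la h f) = la h (T f)) : Md H (kr T) := by
  have h := Md.comap hT (md_bot (H := H) (X := Y))
  exact h

lemma Md.im {T : L2 X →L[ℂ] L2 Y} (hT : ∀ (h : H) (f : L2 X), T (la h f) = la h (T f)) {W : Submodule ℂ (L2 X)}
    (hW : Md H W) : Md H (im T W) := by
  refine md_closure ?_
  rintro h _ ⟨f, hf, rfl⟩
  exact ⟨la h f, hW.inv h f hf, hT h f⟩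

end md

namespace AA

/-! ### transport to `ℓ²(H × Fin r)` -/

section tr
variable {H X Y Z : Type*} [Group H] [MulAction H X] [MulAction H Y] [MulAction H Z] [FC H X] [FC H Y] [FC H Z]

/-- the inverse of `tE` -/
noncomputable def tI (H X : Type*) [Group H] [MulAction H X] [FC H X] : E H (Fin (rk H X)) →L[ℂ] L2 X :=
  pull (co H X) (co H X).injective

lemma tE_apply (f : L2 X) (z : H × Fin (rk H X)) : tE H f z = f ((co H X).symm z) := rfl

lemma tI_apply (f : E H (Fin (rk H X))) (x : X) : tI H X f x = f (co H X x) := rfl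

lemma tI_tE (f : L2 X) : tI H X (tE H f) = f := by
  ext x
  rw [tI_apply, tE_apply, Equiv.symm_apply_apply]

lemma tE_tI (f : E H (Fin (rk H X))) : tE H (tI H X f) = f := by
  ext z
  rw [tE_apply, tI_apply, Equiv.apply_symm_apply]

lemma co_symm (h : H) (z : H × Fin (rk H X)) : (co H X).symm (h * z.1, z.2) = h • (co H X).symm z := by
  rw [Equiv.symm_apply_eq, co_smul, Equiv.apply_symm_apply]

lemma tE_la (h : H) (f : L2 X) : tE H (la h f) = lam h (tE H f) := by
  ext z
  rw [tE_apply, la_apply, lam_apply, tE_apply, co_symm]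

lemma tI_lam (h : H) (f : E H (Fin (rk H X))) : tI H X (lam h f) = la h (tI H X f) := by
  have h1 := tE_la h (tI H X f)
  rw [tE_tI] at h1
  rw [← h1, tI_tE]

lemma norm_tE (f : L2 X) : ‖tE H f‖ = ‖f‖ := norm_pull_equiv (co H X).symm f

lemma tE_dl (x : X) : tE H (dl x) = del (co H X x).1 (co H X x).2 := by
  refine ext_inner_right ℂ fun f => ?_
  have h1 : ⟪tE H (dl x), f⟫_ℂ = ⟪dl x, push _ (co H X).symm.injective f⟫_ℂ := inner_pull _ _ _ _
  rw [h1, inner_dl, inner_del_left, push_equiv_apply, Equiv.symm_symm]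

/-- transport of subspaces -/
noncomputable def mE (H : Type*) {X : Type*} [Group H] [MulAction H X] [FC H X] (W : Submodule ℂ (L2 X)) :
    Submodule ℂ (E H (Fin (rk H X))) :=
  W.map ((tE H : L2 X →L[ℂ] E H (Fin (rk H X))) : L2 X →ₗ[ℂ] E H (Fin (rk H X)))

lemma vd_def (W : Submodule ℂ (L2 X)) : vd H W = vdim (mE H W) := rfl

lemma mem_mE {W : Submodule ℂ (L2 X)} {f : E H (Fin (rk H X))} : f ∈ mE H W ↔ tI H X f ∈ W := by
  constructor
  · rintro ⟨u, hu, rfl⟩
    show tI H X (tE H u) ∈ W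
    rw [tI_tE]
    exact hu
  · intro h
    exact ⟨tI H X f, h, tE_tI f⟩

lemma tE_mem_mE {W : Submodule ℂ (L2 X)} {f : L2 X} : tE H f ∈ mE H W ↔ f ∈ W := by
  rw [mem_mE, tI_tE]

lemma mE_mono {V W : Submodule ℂ (L2 X)} (h : V ≤ W) : mE H V ≤ mE H W := Submodule.map_mono h

lemma mE_closure (W : Submodule ℂ (L2 X)) : mE H W.topologicalClosure = (mE H W).topologicalClosure := by
  refine le_antisymm ?_ ?_
  · rintro _ ⟨u, hu, rfl⟩
    have h1 : tE H u ∈ _root_.closure ((tE H : L2 X →L[ℂ] E H (Fin (rk H X))) '' (W : Set (L2 X))) :=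
      image_closure_subset_closure_image (tE H).continuous ⟨u, hu, rfl⟩
    exact h1
  · refine Submodule.topologicalClosure_minimal _ (mE_mono W.le_topologicalClosure) ?_
    have h2 : ((mE H W.topologicalClosure : Submodule ℂ (E H (Fin (rk H X)))) : Set (E H (Fin (rk H X)))) =
        (tI H X) ⁻¹' (W.topologicalClosure : Set (L2 X)) := by
      ext f
      exact mem_mE
    rw [h2]
    exact (Submodule.isClosed_topologicalClosure W).preimage (tI H X).continuous

lemma mE_inf (V W : Submodule ℂ (L2 X)) : mE H (V ⊓ W) = mE H V ⊓ mE H W := by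
  ext f
  rw [Submodule.mem_inf, mem_mE, mem_mE, mem_mE, Submodule.mem_inf]

lemma mE_sup (V W : Submodule ℂ (L2 X)) : mE H (V ⊔ W) = mE H V ⊔ mE H W := Submodule.map_sup _ _ _

lemma mE_bot : mE H (⊥ : Submodule ℂ (L2 X)) = ⊥ := Submodule.map_bot _

lemma mE_top : mE H (⊤ : Submodule ℂ (L2 X)) = ⊤ := by
  ext f
  rw [mem_mE]
  exact iff_of_true trivial trivial

lemma inv_mE {W : Submodule ℂ (L2 X)} (hW : Md H W) : Singer.Inv (mE H W) := by
  intro g f hf
  rw [mem_mE] at hf ⊢
  rw [tI_lam]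
  exact hW.inv g _ hf

lemma cl_mE {W : Submodule ℂ (L2 X)} (hW : Md H W) : IsClosed (mE H W : Set (E H (Fin (rk H X)))) := by
  have h2 : ((mE H W : Submodule ℂ (E H (Fin (rk H X)))) : Set (E H (Fin (rk H X)))) =
      (tI H X) ⁻¹' (W : Set (L2 X)) := by
    ext f
    exact mem_mE
  rw [h2]
  exact hW.cl.preimage (tI H X).continuous

lemma mE_injective {V W : Submodule ℂ (L2 X)} (h : mE H V = mE H W) : V = W := by
  ext f
  rw [← tE_mem_mE (H := H), h, tE_mem_mE]

/-- transport of operators -/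
noncomputable def tT (H : Type*) {X Y : Type*} [Group H] [MulAction H X] [MulAction H Y] [FC H X] [FC H Y]
    (T : L2 X →L[ℂ] L2 Y) : E H (Fin (rk H X)) →L[ℂ] E H (Fin (rk H Y)) :=
  ((tE H).comp T).comp (tI H X)

lemma tT_apply (T : L2 X →L[ℂ] L2 Y) (f : E H (Fin (rk H X))) : tT H T f = tE H (T (tI H X f)) := rfl

lemma equi_tT {T : L2 X →L[ℂ] L2 Y} (hT : ∀ (h : H) (f : L2 X), T (la h f) = la h (T f)) : Equi (tT H T) := by
  intro g f
  rw [tT_apply, tT_apply, tI_lam, hT, tE_la]

lemma mE_map (T : L2 X →L[ℂ] L2 Y) (W : Submodule ℂ (L2 X)) :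
    mE H (W.map (T : L2 X →ₗ[ℂ] L2 Y)) =
      (mE H W).map (tT H T : E H (Fin (rk H X)) →ₗ[ℂ] E H (Fin (rk H Y))) := by
  ext f
  constructor
  · rintro ⟨_, ⟨u, hu, rfl⟩, rfl⟩
    refine ⟨tE H u, ⟨u, hu, rfl⟩, ?_⟩
    show tT H T (tE H u) = tE H (T u)
    rw [tT_apply, tI_tE]
  · rintro ⟨_, ⟨u, hu, rfl⟩, rfl⟩
    refine ⟨T u, ⟨u, hu, rfl⟩, ?_⟩
    show tE H (T u) = tT H T (tE H u)
    rw [tT_apply, tI_tE]

lemma mE_kr (T : L2 X →L[ℂ] L2 Y) :
    mE H (kr T) = LinearMap.ker (tT H T : E H (Fin (rk H X)) →ₗ[ℂ] E H (Fin (rk H Y))) := by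
  ext f
  rw [mem_mE]
  constructor
  · intro h
    have h1 : T (tI H X f) = 0 := h
    show tT H T f = 0
    rw [tT_apply, h1, map_zero]
  · intro h
    have h1 : tT H T f = 0 := h
    rw [tT_apply] at h1
    show T (tI H X f) = 0
    rw [← tI_tE (H := H) (T (tI H X f)), h1, map_zero]

end tr

end AA

/-! ### dimensions -/

section dims
variable {H X Y Z : Type*} [Group H] [MulAction H X] [MulAction H Y] [MulAction H Z] [FC H X] [FC H Y] [FC H Z]

lemma vd_nonneg (W : Submodule ℂ (L2 X)) : 0 ≤ vd H W := vdim_nonneg _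

lemma vd_mono {V W : Submodule ℂ (L2 X)} (h : V ≤ W) : vd H V ≤ vd H W := vdim_mono (mE_mono h)

lemma vd_closure (W : Submodule ℂ (L2 X)) : vd H W.topologicalClosure = vd H W := by
  rw [vd_def, mE_closure, vdim_closure, vd_def]

lemma vd_bot : vd H (⊥ : Submodule ℂ (L2 X)) = 0 := by
  rw [vd_def, mE_bot, vdim_bot]

lemma vd_top : vd H (⊤ : Submodule ℂ (L2 X)) = rk H X := by
  rw [vd_def, mE_top, vdim_top, Fintype.card_fin]

lemma eq_of_vd_le {V W : Submodule ℂ (L2 X)} (hV : Md H V) (hW : Md H W) (h : V ≤ W) (hd : vd H W ≤ vd H V) :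
    V = W :=
  mE_injective (eq_of_vdim_le (inv_mE hV) (inv_mE hW) (cl_mE hV) (mE_mono h) hd)

/-- rank-nullity -/
theorem vd_im_add {T : L2 X →L[ℂ] L2 Y} (hT : ∀ (h : H) (f : L2 X), T (la h f) = la h (T f))
    {W : Submodule ℂ (L2 X)} (hW : Md H W) : vd H (im T W) + vd H (W ⊓ kr T) = vd H W := by
  unfold im
  rw [vd_closure, vd_def, vd_def, vd_def, mE_map, mE_inf, mE_kr]
  exact vdim_map_add (equi_tT hT) (inv_mE hW) (cl_mE hW)

theorem vd_sup_add_inf {V W : Submodule ℂ (L2 X)} (hV : Md H V) (hW : Md H W) :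
    vd H (V ⊔ W).topologicalClosure + vd H (V ⊓ W) = vd H V + vd H W := by
  rw [vd_closure, vd_def, vd_def, vd_def, vd_def, mE_sup, mE_inf]
  exact vdim_sup_add_inf (inv_mE hV) (inv_mE hW) (cl_mE hV) (cl_mE hW)

end dims

namespace AA

/-! ### direct sums -/

section dsum
variable {H X Y : Type*} [Group H] [MulAction H X] [MulAction H Y]

instance fc_sum [FC H X] [FC H Y] : FC H (X ⊕ Y) where
  free h x hx := by
    rcases x with x | y
    · exact FC.free h x (Sum.inl_injective hx)
    · exact FC.free h y (Sum.inr_injective hx)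
  fin := by
    have h1 : Finite (MulAction.orbitRel.Quotient H X) := FC.fin
    have h2 : Finite (MulAction.orbitRel.Quotient H Y) := FC.fin
    refine Finite.of_surjective (fun q : MulAction.orbitRel.Quotient H X ⊕ MulAction.orbitRel.Quotient H Y =>
      (Sum.elim (fun q => Quotient.mk _ (Sum.inl q.out)) (fun q => Quotient.mk _ (Sum.inr q.out)) q :
        MulAction.orbitRel.Quotient H (X ⊕ Y))) ?_
    intro q
    induction q using Quotient.inductionOn with
    | h x =>
      rcases x with x | y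
      · refine ⟨Sum.inl (Quotient.mk _ x), Quotient.sound ?_⟩
        have h3 : (MulAction.orbitRel H X) (Quotient.mk (MulAction.orbitRel H X) x).out x :=
          @Quotient.exact X (MulAction.orbitRel H X) _ _ (Quotient.out_eq _)
        obtain ⟨h, hh⟩ := h3
        exact ⟨h, congrArg Sum.inl hh⟩
      · refine ⟨Sum.inr (Quotient.mk _ y), Quotient.sound ?_⟩
        have h3 : (MulAction.orbitRel H Y) (Quotient.mk (MulAction.orbitRel H Y) y).out y :=
          @Quotient.exact Y (MulAction.orbitRel H Y) _ _ (Quotient.out_eq _)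
        obtain ⟨h, hh⟩ := h3
        exact ⟨h, congrArg Sum.inr hh⟩

/-- the two projections of `ℓ²(X ⊕ Y)` -/
noncomputable def pl (X Y : Type*) : L2 (X ⊕ Y) →L[ℂ] L2 X := pull Sum.inl Sum.inl_injective

noncomputable def pr (X Y : Type*) : L2 (X ⊕ Y) →L[ℂ] L2 Y := pull Sum.inr Sum.inr_injective

lemma pl_apply (f : L2 (X ⊕ Y)) (x : X) : pl X Y f x = f (Sum.inl x) := rfl

lemma pr_apply (f : L2 (X ⊕ Y)) (y : Y) : pr X Y f y = f (Sum.inr y) := rfl

lemma pl_la (h : H) (f : L2 (X ⊕ Y)) : pl X Y (la h f) = la h (pl X Y f) :=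
  pull_la Sum.inl_injective (fun _ _ => rfl) h f

lemma pr_la (h : H) (f : L2 (X ⊕ Y)) : pr X Y (la h f) = la h (pr X Y f) :=
  pull_la Sum.inr_injective (fun _ _ => rfl) h f

/-- pairs -/
noncomputable def pp (f : L2 X) (g : L2 Y) : L2 (X ⊕ Y) :=
  push Sum.inl Sum.inl_injective f + push Sum.inr Sum.inr_injective g

lemma pl_pp (f : L2 X) (g : L2 Y) : pl X Y (pp f g) = f := by
  ext x
  rw [pl_apply]
  unfold pp
  rw [lp.coeFn_add, Pi.add_apply, push_apply, push_apply_of_notMem, add_zero]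
  rintro ⟨y, hy⟩
  exact Sum.inr_ne_inl hy

lemma pr_pp (f : L2 X) (g : L2 Y) : pr X Y (pp f g) = g := by
  ext y
  rw [pr_apply]
  unfold pp
  rw [lp.coeFn_add, Pi.add_apply, push_apply_of_notMem, push_apply, zero_add]
  rintro ⟨x, hx⟩
  exact Sum.inl_ne_inr hx

lemma eq_of_pl_pr {f g : L2 (X ⊕ Y)} (h1 : pl X Y f = pl X Y g) (h2 : pr X Y f = pr X Y g) : f = g := by
  ext x
  rcases x with x | y
  · rw [← pl_apply, h1, pl_apply]
  · rw [← pr_apply, h2, pr_apply]

variable [FC H X] [FC H Y]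

/-- the dimension of a subspace of the second summand -/
lemma vd_im_pr {A : Submodule ℂ (L2 (X ⊕ Y))} (hA : Md H A) (h : A ≤ kr (pl X Y)) :
    vd H (im (pr X Y) A) = vd H A := by
  have h1 := vd_im_add (H := H) (T := pr X Y) pr_la hA
  have h2 : A ⊓ kr (pr X Y) = ⊥ := by
    rw [eq_bot_iff]
    rintro f ⟨hf, hf2⟩
    rw [Submodule.mem_bot]
    refine eq_of_pl_pr ?_ ?_
    · rw [map_zero]
      exact h hf
    · rw [map_zero]
      exact hf2
  rw [h2, vd_bot, add_zero] at h1
  exact h1

end dsum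

end AA

section dsum
variable {H X Y Z : Type*} [Group H] [MulAction H X] [MulAction H Y] [MulAction H Z] [FC H X] [FC H Y] [FC H Z]

/-- density of pullbacks -/
theorem dense_pullback {S : L2 X →L[ℂ] L2 Z} {T : L2 Y →L[ℂ] L2 Z}
    (hS : ∀ (h : H) (f : L2 X), S (la h f) = la h (S f)) (hT : ∀ (h : H) (f : L2 Y), T (la h f) = la h (T f))
    {V : Submodule ℂ (L2 X)} (hV : Md H V) {W : Submodule ℂ (L2 Y)} (hW : Md H W)
    (h : V.map (S : L2 X →ₗ[ℂ] L2 Z) ≤ im T W) :
    (V ⊓ (W.map (T : L2 Y →ₗ[ℂ] L2 Z)).comap (S : L2 X →ₗ[ℂ] L2 Z)).topologicalClosure = V := by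
  set U : L2 (X ⊕ Y) →L[ℂ] L2 Z := S.comp (pl X Y) - T.comp (pr X Y) with hUdef
  have hUa : ∀ f, U f = S (pl X Y f) - T (pr X Y f) := fun f => rfl
  have hU : ∀ (h : H) (f : L2 (X ⊕ Y)), U (la h f) = la h (U f) := by
    intro g f
    rw [hUa, hUa, pl_la, pr_la, hS, hT, map_sub]
  set VW : Submodule ℂ (L2 (X ⊕ Y)) := V.comap (pl X Y : L2 (X ⊕ Y) →ₗ[ℂ] L2 X) ⊓
    W.comap (pr X Y : L2 (X ⊕ Y) →ₗ[ℂ] L2 Y) with hVW
  have hVWm : Md H VW := (Md.comap pl_la hV).inf (Md.comap pr_la hW)
  have hmem : ∀ {f : L2 X} {g : L2 Y}, f ∈ V → g ∈ W → pp f g ∈ VW := by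
    intro f g hf hg
    refine ⟨?_, ?_⟩
    · show pl X Y (pp f g) ∈ V
      rw [pl_pp]
      exact hf
    · show pr X Y (pp f g) ∈ W
      rw [pr_pp]
      exact hg
  -- the image of VW
  have e1 : im U VW = im T W := by
    refine le_antisymm ?_ ?_
    · refine Submodule.topologicalClosure_minimal _ ?_ (Submodule.isClosed_topologicalClosure _)
      rintro _ ⟨f, hf, rfl⟩
      show S (pl X Y f) - T (pr X Y f) ∈ im T W
      refine Submodule.sub_mem _ (h ⟨_, hf.1, rfl⟩) ?_
      exact Submodule.le_topologicalClosure _ ⟨_, hf.2, rfl⟩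
    · refine Submodule.topologicalClosure_mono ?_
      rintro _ ⟨g, hg, rfl⟩
      refine ⟨pp 0 (-g), hmem (Submodule.zero_mem V) (Submodule.neg_mem W hg), ?_⟩
      show S (pl X Y (pp 0 (-g))) - T (pr X Y (pp 0 (-g))) = T g
      rw [pl_pp, pr_pp, map_zero, map_neg, sub_neg_eq_add, zero_add]
  -- the dimension of VW
  have e2 : vd H VW = vd H V + vd H W := by
    have a1 := vd_im_add (H := H) (T := pl X Y) pl_la hVWm
    have a2 : im (pl X Y) VW = V := by
      unfold im
      have a3 : VW.map (pl X Y : L2 (X ⊕ Y) →ₗ[ℂ] L2 X) = V := by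
        refine le_antisymm ?_ fun f hf => ⟨pp f 0, hmem hf (Submodule.zero_mem W), pl_pp f 0⟩
        rintro _ ⟨f, hf, rfl⟩
        exact hf.1
      rw [a3, hV.cleq]
    have a4 := vd_im_pr (hVWm.inf (md_kr (H := H) (T := pl X Y) pl_la)) inf_le_right
    have a5 : im (pr X Y) (VW ⊓ kr (pl X Y)) = W := by
      unfold im
      have a3 : (VW ⊓ kr (pl X Y)).map (pr X Y : L2 (X ⊕ Y) →ₗ[ℂ] L2 Y) = W := by
        refine le_antisymm ?_ fun f hf => ⟨pp 0 f, ⟨hmem (Submodule.zero_mem V) hf, pl_pp 0 f⟩, pr_pp 0 f⟩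
        rintro _ ⟨f, hf, rfl⟩
        exact hf.1.2
      rw [a3, hW.cleq]
    rw [a2] at a1
    rw [a5] at a4
    linarith
  set D : Submodule ℂ (L2 (X ⊕ Y)) := VW ⊓ kr U with hD
  have hDm : Md H D := hVWm.inf (md_kr hU)
  have e3 := vd_im_add hU hVWm
  have e4 := vd_im_add (H := H) (T := pl X Y) pl_la hDm
  have e5 : vd H (D ⊓ kr (pl X Y)) = vd H (W ⊓ kr T) := by
    rw [← vd_im_pr (hDm.inf (md_kr (H := H) (T := pl X Y) pl_la)) inf_le_right]
    congr 1
    unfold im
    have a3 : (D ⊓ kr (pl X Y)).map (pr X Y : L2 (X ⊕ Y) →ₗ[ℂ] L2 Y) = W ⊓ kr T := by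
      refine le_antisymm ?_ ?_
      · rintro _ ⟨f, ⟨⟨hf1, hf2⟩, hf3⟩, rfl⟩
        refine ⟨hf1.2, ?_⟩
        have b1 : S (pl X Y f) - T (pr X Y f) = 0 := hf2
        have b2 : pl X Y f = 0 := hf3
        rw [b2, map_zero, zero_sub, neg_eq_zero] at b1
        exact b1
      · rintro g ⟨hg1, hg2⟩
        refine ⟨pp 0 g, ⟨⟨hmem (Submodule.zero_mem V) hg1, ?_⟩, pl_pp 0 g⟩, pr_pp 0 g⟩
        show S (pl X Y (pp 0 g)) - T (pr X Y (pp 0 g)) = 0
        rw [pl_pp, pr_pp, map_zero, zero_sub, neg_eq_zero]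
        exact hg2
    rw [a3, (hW.inf (md_kr hT)).cleq]
  have e6 := vd_im_add hT hW
  have e7 : im (pl X Y) D ≤ V := by
    refine Submodule.topologicalClosure_minimal _ ?_ hV.cl
    rintro _ ⟨f, hf, rfl⟩
    exact hf.1.1
  rw [e1, e2] at e3
  have e8 : im (pl X Y) D = V := eq_of_vd_le (Md.im pl_la hDm) hV e7 (by linarith)
  refine le_antisymm (Submodule.topologicalClosure_minimal _ inf_le_left hV.cl) ?_
  refine e8.ge.trans (Submodule.topologicalClosure_mono ?_)
  rintro _ ⟨f, hf, rfl⟩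
  refine ⟨e7 (Submodule.le_topologicalClosure _ ⟨f, hf, rfl⟩), ?_⟩
  refine ⟨pr X Y f, hf.1.2, ?_⟩
  have b1 : S (pl X Y f) - T (pr X Y f) = 0 := hf.2
  exact (sub_eq_zero.1 b1).symm

end dsum

namespace AA

/-! ### the dimension as a sum over a transversal -/

section dens
variable {X Y : Type*}

/-- orthogonal projection onto the closure -/
noncomputable def pj (V : Submodule ℂ (L2 X)) : L2 X →L[ℂ] L2 X := V.topologicalClosure.starProjection

lemma pj_mem (V : Submodule ℂ (L2 X)) (f : L2 X) : pj V f ∈ V.topologicalClosure :=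
  Submodule.starProjection_apply_mem _ _

lemma sub_pj_mem (V : Submodule ℂ (L2 X)) (f : L2 X) : f - pj V f ∈ Vᗮ := by
  rw [← Submodule.orthogonal_closure V]
  exact Submodule.sub_starProjection_mem_orthogonal f

lemma pj_unique {V : Submodule ℂ (L2 X)} {f v : L2 X} (hv : v ∈ V.topologicalClosure) (h : f - v ∈ Vᗮ) :
    pj V f = v := by
  refine Submodule.eq_starProjection_of_mem_orthogonal (K := V.topologicalClosure) hv ?_
  rwa [Submodule.orthogonal_closure]

/-- the density of the dimension -/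
noncomputable def dn (V : Submodule ℂ (L2 X)) (x : X) : ℝ := ‖pj V (dl x)‖ ^ 2

/-- transport of the density along an equivalence -/
lemma dn_map_equiv (e : X ≃ Y) (W : Submodule ℂ (L2 X)) (x : X) :
    dn (W.map (push e e.injective : L2 X →ₗ[ℂ] L2 Y)) (e x) = dn W x := by
  unfold dn
  have h1 : pj (W.map (push e e.injective : L2 X →ₗ[ℂ] L2 Y)) (dl (e x)) = push e e.injective (pj W (dl x)) := by
    refine pj_unique ?_ ?_
    · have h2 : push e e.injective (pj W (dl x)) ∈ _root_.closure ((push e e.injective) '' (W : Set (L2 X))) :=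
        image_closure_subset_closure_image (push e e.injective).continuous ⟨_, pj_mem W _, rfl⟩
      exact h2
    · rw [← push_dl e e.injective x, ← map_sub, Submodule.mem_orthogonal]
      rintro _ ⟨w, hw, rfl⟩
      show ⟪push e e.injective w, push e e.injective (dl x - pj W (dl x))⟫_ℂ = 0
      rw [inner_push, pull_push]
      exact (Submodule.mem_orthogonal _ _).1 (sub_pj_mem W (dl x)) w hw
  rw [h1, norm_push]

variable {H : Type*} [Group H] [MulAction H X]

/-- the density is invariant -/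
lemma dn_smul {W : Submodule ℂ (L2 X)} (hW : Md H W) (h : H) (x : X) : dn W (h • x) = dn W x := by
  unfold dn
  have h1 : pj W (dl (h • x)) = la h (pj W (dl x)) := by
    refine pj_unique ?_ ?_
    · rw [hW.cleq]
      have h2 := pj_mem W (dl x)
      rw [hW.cleq] at h2
      exact hW.inv h _ h2
    · rw [← la_dl, ← map_sub, Submodule.mem_orthogonal]
      intro w hw
      have h3 := (Submodule.mem_orthogonal _ _).1 (sub_pj_mem W (dl x)) (la h⁻¹ w) (hW.inv _ _ hw)
      rw [inner_la, inv_inv] at h3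
      exact h3
  rw [h1, norm_la]

variable [FC H X]

lemma vd_eq_dn {W : Submodule ℂ (L2 X)} : vd H W = ∑ i : Fin (rk H X), dn W ((co H X).symm (1, i)) := by
  rw [vd_def]
  unfold vdim
  refine Finset.sum_congr rfl fun i _ => ?_
  unfold dn
  have h1 : prj (mE H W) (del 1 i) = tE H (pj W (dl ((co H X).symm (1, i)))) := by
    refine prj_unique ?_ ?_
    · rw [← mE_closure]
      exact ⟨_, pj_mem W _, rfl⟩
    · have h2 : (del (1 : H) i : E H (Fin (rk H X))) = tE H (dl ((co H X).symm (1, i))) := by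
        rw [tE_dl, Equiv.apply_symm_apply]
      rw [h2, ← map_sub, Submodule.mem_orthogonal]
      rintro _ ⟨w, hw, rfl⟩
      show ⟪tE H w, tE H (dl ((co H X).symm (1, i)) - pj W (dl ((co H X).symm (1, i))))⟫_ℂ = 0
      have h3 : ∀ u v : L2 X, ⟪tE H u, tE H v⟫_ℂ = ⟪u, v⟫_ℂ := by
        intro u v
        have h4 : ⟪tE H u, tE H v⟫_ℂ = ⟪u, push _ (co H X).symm.injective (tE H v)⟫_ℂ := inner_pull _ _ _ _
        rw [h4]
        congr 1
        exact push_equiv_pull (co H X).symm v
      rw [h3]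
      exact (Submodule.mem_orthogonal _ _).1 (sub_pj_mem W _) w hw
  rw [h1, norm_tE]

/-- the dimension as a sum over a transversal of the orbits -/
theorem vd_eq_sum {ι : Type*} [Fintype ι] (s : ι → X) (hs : Function.Bijective fun p : H × ι => p.1 • s p.2)
    {W : Submodule ℂ (L2 X)} (hW : Md H W) : vd H W = ∑ i, dn W (s i) := by
  rw [vd_eq_dn]
  have key : ∀ i, s i = (co H X (s i)).1 • (co H X).symm (1, (co H X (s i)).2) := by
    intro i
    rw [← co_symm, mul_one]
    show _ = (co H X).symm (co H X (s i))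
    rw [Equiv.symm_apply_apply]
  have hb : Function.Bijective fun i => (co H X (s i)).2 := by
    constructor
    · intro i j hij
      have hij' : (co H X (s i)).2 = (co H X (s j)).2 := hij
      have h0 : (co H X (s i)).1⁻¹ • s i = (co H X).symm (1, (co H X (s i)).2) := by
        rw [inv_smul_eq_iff]
        exact key i
      have h1 : s j = ((co H X (s j)).1 * (co H X (s i)).1⁻¹) • s i := by
        rw [mul_smul, h0, hij']
        exact key j
      have h2 : (fun p : H × ι => p.1 • s p.2) (1, j) =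
          (fun p : H × ι => p.1 • s p.2) ((co H X (s j)).1 * (co H X (s i)).1⁻¹, i) := by
        show (1 : H) • s j = _
        rw [one_smul]
        exact h1
      exact (congrArg Prod.snd (hs.1 h2)).symm
    · intro k
      obtain ⟨⟨h, i⟩, hi⟩ := hs.2 ((co H X).symm (1, k))
      have hi' : h • s i = (co H X).symm (1, k) := hi
      refine ⟨i, ?_⟩
      have h2 := congrArg (co H X) hi'
      rw [co_smul, Equiv.apply_symm_apply] at h2
      exact congrArg Prod.snd h2
  rw [← (Equiv.ofBijective _ hb).sum_comp]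
  refine Finset.sum_congr rfl fun i _ => ?_
  conv_rhs => rw [key i]
  rw [dn_smul hW]
  rfl

end dens

lemma co_bijective (H X : Type*) [Group H] [MulAction H X] [FC H X] :
    Function.Bijective fun p : H × Fin (rk H X) => p.1 • (co H X).symm (1, p.2) := by
  have h1 : (fun p : H × Fin (rk H X) => p.1 • (co H X).symm (1, p.2)) = (co H X).symm := by
    funext p
    rw [← co_symm, mul_one]
  rw [h1]
  exact (co H X).symm.bijective

end AA

section A
variable {H X : Type*} [Group H] [MulAction H X]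

/-- transport along an isomorphism -/
theorem vd_equiv [FC H X] {H' X' : Type*} [Group H'] [MulAction H' X'] [FC H' X'] (α : H ≃* H') (e : X ≃ X')
    (he : ∀ (h : H) (x : X), e (h • x) = α h • e x) {W : Submodule ℂ (L2 X)} (hW : Md H W) :
    vd H' (W.map (push e e.injective : L2 X →ₗ[ℂ] L2 X')) = vd H W := by
  have hW' : Md H' (W.map (push e e.injective : L2 X →ₗ[ℂ] L2 X')) := by
    constructor
    · rintro h _ ⟨f, hf, rfl⟩
      refine ⟨la (α.symm h) f, hW.inv _ _ hf, ?_⟩
      show push e e.injective (la (α.symm h) f) = la h (push e e.injective f)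
      ext y
      obtain ⟨x, rfl⟩ := e.surjective y
      rw [push_apply, la_apply, la_apply]
      have h1 : h⁻¹ • e x = e ((α.symm h)⁻¹ • x) := by
        rw [he, map_inv, MulEquiv.apply_symm_apply]
      rw [h1, push_apply]
    · have h2 : ((W.map (push e e.injective : L2 X →ₗ[ℂ] L2 X') : Submodule ℂ (L2 X')) : Set (L2 X')) =
          (pull e e.injective) ⁻¹' (W : Set (L2 X)) := by
        ext f
        constructor
        · rintro ⟨u, hu, rfl⟩
          show pull e e.injective (push e e.injective u) ∈ W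
          rw [pull_push]
          exact hu
        · intro hf
          exact ⟨pull e e.injective f, hf, push_equiv_pull e f⟩
      rw [h2]
      exact hW.cl.preimage (pull e e.injective).continuous
  rw [vd_eq_sum (H := H') (fun i : Fin (rk H X) => e ((co H X).symm (1, i))) ?_ hW', vd_eq_dn]
  · refine Finset.sum_congr rfl fun i _ => ?_
    exact dn_map_equiv e W _
  · have h1 : (fun p : H' × Fin (rk H X) => p.1 • e ((co H X).symm (1, p.2))) =
        e ∘ (fun p : H × Fin (rk H X) => p.1 • (co H X).symm (1, p.2)) ∘ (Prod.map α.symm _root_.id) := by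
      funext p
      show p.1 • e ((co H X).symm (1, p.2)) = e (α.symm p.1 • (co H X).symm (1, p.2))
      rw [he, MulEquiv.apply_symm_apply]
    rw [h1]
    exact e.bijective.comp ((co_bijective H X).comp (α.symm.bijective.prodMap Function.bijective_id))

instance fc_subgroup [FC H X] (N : Subgroup H) [N.FiniteIndex] : FC N X where
  free n x hx := by
    have h1 := FC.free (n : H) x hx
    exact Subtype.ext h1
  fin := by
    have h1 : Finite (MulAction.orbitRel.Quotient H X) := FC.fin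
    have h2 : Finite (H ⧸ N) := Subgroup.finite_quotient_of_finiteIndex
    refine Finite.of_surjective (fun q : MulAction.orbitRel.Quotient H X × (H ⧸ N) =>
      (Quotient.mk _ ((q.2.out)⁻¹ • q.1.out) : MulAction.orbitRel.Quotient N X)) ?_
    intro q
    induction q using Quotient.inductionOn with
    | h x =>
      have h3 : (MulAction.orbitRel H X) x (Quotient.mk (MulAction.orbitRel H X) x).out :=
        @Quotient.exact X (MulAction.orbitRel H X) _ _ (Quotient.out_eq _).symm
      obtain ⟨h, hh⟩ := h3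
      have hh' : h • (Quotient.mk (MulAction.orbitRel H X) x).out = x := hh
      obtain ⟨n, hn⟩ := QuotientGroup.mk_out_eq_mul N h⁻¹
      refine ⟨(Quotient.mk _ x, (QuotientGroup.mk h⁻¹ : H ⧸ N)), Quotient.sound ?_⟩
      show ((QuotientGroup.mk h⁻¹ : H ⧸ N).out)⁻¹ • (Quotient.mk (MulAction.orbitRel H X) x).out ∈ MulAction.orbit N x
      refine ⟨n⁻¹, ?_⟩
      show ((n⁻¹ : N) : H) • x = _
      rw [hn, mul_inv_rev, inv_inv, mul_smul, hh']
      rfl

theorem vd_index [FC H X] (N : Subgroup H) [N.FiniteIndex] {W : Submodule ℂ (L2 X)} (hW : Md H W) :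
    vd N W = N.index * vd H W := by
  have h2 : Finite (H ⧸ N) := Subgroup.finite_quotient_of_finiteIndex
  have := Fintype.ofFinite (H ⧸ N)
  have hW' : Md N W := ⟨fun h f hf => hW.inv (h : H) f hf, hW.cl⟩
  rw [vd_eq_sum (H := N) (fun p : (H ⧸ N) × Fin (rk H X) => (p.1.out)⁻¹ • (co H X).symm (1, p.2)) ?_ hW']
  · rw [Fintype.sum_prod_type]
    have h3 : ∀ q : H ⧸ N, ∑ i : Fin (rk H X), dn W ((q.out)⁻¹ • (co H X).symm (1, i)) = vd H W := by
      intro q
      rw [vd_eq_dn]
      exact Finset.sum_congr rfl fun i _ => dn_smul hW _ _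
    simp only [h3]
    rw [Finset.sum_const, Finset.card_univ, nsmul_eq_mul, Subgroup.index, Nat.card_eq_fintype_card]
  · have h4 : Function.Bijective fun p : N × (H ⧸ N) => (p.1 : H) * (p.2.out)⁻¹ := by
      constructor
      · rintro ⟨n, q⟩ ⟨n', q'⟩ hq
        have hq1 : (n : H) * (q.out)⁻¹ = n' * (q'.out)⁻¹ := hq
        have hq2 : q.out * (n : H)⁻¹ = q'.out * (n' : H)⁻¹ := by
          have := congrArg (fun x => x⁻¹) hq1
          simpa [mul_inv_rev] using this
        have hq3 : q = q' := by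
          have a1 : (QuotientGroup.mk (q.out * (n : H)⁻¹) : H ⧸ N) = q := by
            rw [QuotientGroup.mk_mul_of_mem _ (N.inv_mem n.2)]
            exact Quotient.out_eq q
          have a2 : (QuotientGroup.mk (q'.out * (n' : H)⁻¹) : H ⧸ N) = q' := by
            rw [QuotientGroup.mk_mul_of_mem _ (N.inv_mem n'.2)]
            exact Quotient.out_eq q'
          rw [← a1, ← a2, hq2]
        subst hq3
        have hq4 : n = n' := Subtype.ext (mul_right_cancel hq1)
        rw [hq4]
      · intro h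
        obtain ⟨n, hn⟩ := QuotientGroup.mk_out_eq_mul N h⁻¹
        refine ⟨(n, (QuotientGroup.mk h⁻¹ : H ⧸ N)), ?_⟩
        show (n : H) * ((QuotientGroup.mk h⁻¹ : H ⧸ N).out)⁻¹ = h
        rw [hn, mul_inv_rev, inv_inv, mul_inv_cancel_left]
    have h5 : (fun p : N × ((H ⧸ N) × Fin (rk H X)) => p.1 • ((p.2.1.out)⁻¹ • (co H X).symm (1, p.2.2))) =
        (fun p : H × Fin (rk H X) => p.1 • (co H X).symm (1, p.2)) ∘
          (Prod.map (fun p : N × (H ⧸ N) => (p.1 : H) * (p.2.out)⁻¹) _root_.id) ∘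
            (Equiv.prodAssoc N (H ⧸ N) (Fin (rk H X))).symm := by
      funext p
      show (p.1 : H) • ((p.2.1.out)⁻¹ • (co H X).symm (1, p.2.2)) = ((p.1 : H) * (p.2.1.out)⁻¹) • _
      rw [mul_smul]
      rfl
    rw [h5]
    exact (co_bijective H X).comp ((h4.prodMap Function.bijective_id).comp (Equiv.bijective _))

end A

end ATY
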