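import Pool.Agent.ATY.A

/-!
# Row A2: fibres, and the dimension as a sum over the orbits of the base
-/

set_option autoImplicit false
set_option linter.unusedSectionVars false
set_option linter.unusedVariables false

open scoped ComplexConjugate InnerProductSpace
open Filter Topology

namespace ATY
open Singer Pool.WeakAtiyah AA

section A2
variable {G X Q : Type*} [Group G] [MulAction G X] [FC G X] [MulAction G Q]

lemma AA.rel_out {G X : Type*} [Group G] [MulAction G X] (x : X) :
    ∃ g : G, g • (Quotient.mk (MulAction.orbitRel G X) x).out = x := by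
  have h1 : (MulAction.orbitRel G X) x (Quotient.mk (MulAction.orbitRel G X) x).out :=
    @Quotient.exact X (MulAction.orbitRel G X) _ _ (Quotient.out_eq (Quotient.mk (MulAction.orbitRel G X) x)).symm
  exact h1

lemma AA.mk_eq {G X : Type*} [Group G] [MulAction G X] {x y : X} (g : G) (h : g • y = x) :
    Quotient.mk (MulAction.orbitRel G X) x = Quotient.mk (MulAction.orbitRel G X) y :=
  Quotient.sound ⟨g, h⟩

instance fibFC (a : X →[G] Q) (q : Q) : FC (MulAction.stabilizer G q) (Fib a q) where
  free h x hx := by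
    have h1 : (h : G) • x.1 = x.1 := congrArg Subtype.val hx
    exact Subtype.ext (FC.free (h : G) x.1 h1)
  fin := by
    have h1 : Finite (MulAction.orbitRel.Quotient G X) := FC.fin
    refine Finite.of_injective (fun o : MulAction.orbitRel.Quotient (MulAction.stabilizer G q) (Fib a q) =>
      (Quotient.mk _ o.out.1 : MulAction.orbitRel.Quotient G X)) ?_
    intro o o' ho
    have h2 : (MulAction.orbitRel G X) o.out.1 o'.out.1 := @Quotient.exact X (MulAction.orbitRel G X) _ _ ho
    obtain ⟨g, hg⟩ := h2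
    have hg' : g • o'.out.1 = o.out.1 := hg
    have hgq : g • q = q := by
      have h3 := congrArg a hg'
      rw [map_smul] at h3
      rwa [o'.out.2, o.out.2] at h3
    have h4 : (MulAction.orbitRel (MulAction.stabilizer G q) (Fib a q)) o.out o'.out :=
      ⟨⟨g, hgq⟩, Subtype.ext hg'⟩
    have h5 : (Quotient.mk _ o.out : MulAction.orbitRel.Quotient (MulAction.stabilizer G q) (Fib a q)) =
        Quotient.mk _ o'.out := Quotient.sound h4
    rwa [Quotient.out_eq, Quotient.out_eq] at h5

lemma Md.loc {a : X →[G] Q} {W : Submodule ℂ (L2 X)} (hW : Md G W) (q : Q) :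
    Md (MulAction.stabilizer G q) (loc a q W) := by
  have h1 : Md (MulAction.stabilizer G q) W := ⟨fun h f hf => hW.inv (h : G) f hf, hW.cl⟩
  have h2 : ∀ (h : MulAction.stabilizer G q) (f : L2 (Fib a q)),
      push (fi a q) (fi_inj a q) (la h f) = la h (push (fi a q) (fi_inj a q) f) :=
    push_la (fi_inj a q) fun _ _ => rfl
  exact Md.comap h2 h1

lemma AA.push_pull_fi (a : X →[G] Q) (q : Q) (f : L2 X) :
    push (fi a q) (fi_inj a q) (pull (fi a q) (fi_inj a q) f) = cu {x | a x = q} f := by
  ext x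
  rw [cu_apply]
  by_cases h : a x = q
  · rw [if_pos (show x ∈ {x | a x = q} from h)]
    exact push_pull_apply_mem _ _ f ⟨⟨x, h⟩, rfl⟩
  · rw [if_neg (show x ∉ {x | a x = q} from h)]
    refine push_apply_of_notMem _ _ _ ?_
    rintro ⟨y, hy⟩
    apply h
    rw [← hy]
    exact y.2

/-- the density of the part over `q` -/
lemma AA.dn_loc {a : X →[G] Q} {W : Submodule ℂ (L2 X)} (hW : Md G W) (hl : Loc a W) (q : Q) (y : Fib a q) :
    dn (loc a q W) y = dn W y.1 := by
  unfold dn
  have h1 : pj W (dl y.1) = push (fi a q) (fi_inj a q) (pj (loc a q W) (dl y)) := by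
    refine pj_unique ?_ ?_
    · refine Submodule.le_topologicalClosure _ ?_
      have h2 := pj_mem (loc a q W) (dl y)
      rw [(hW.loc q).cleq] at h2
      exact h2
    · have h3 : (dl y.1 : L2 X) = push (fi a q) (fi_inj a q) (dl y) := (push_dl _ _ y).symm
      rw [h3, ← map_sub, Submodule.mem_orthogonal]
      intro w hw
      rw [← inner_pull]
      refine (Submodule.mem_orthogonal _ _).1 (sub_pj_mem (loc a q W) (dl y)) _ ?_
      show push (fi a q) (fi_inj a q) (pull (fi a q) (fi_inj a q) w) ∈ W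
      rw [push_pull_fi]
      exact hl q w hw
  rw [h1, norm_push]

/-- the dimension is a sum over the orbits of `Q` -/
theorem exists_reps (a : X →[G] Q) : ∃ s : Finset Q, ∀ W : Submodule ℂ (L2 X), Md G W → Loc a W →
    vd G W = ∑ q ∈ s, vd (MulAction.stabilizer G q) (loc a q W) := by
  classical
  have hfin : Finite (MulAction.orbitRel.Quotient G X) := FC.fin
  set S : Set Q := Set.range fun o : MulAction.orbitRel.Quotient G X =>
    (Quotient.mk (MulAction.orbitRel G Q) (a o.out)).out with hS
  have hSf : S.Finite := Set.finite_range _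
  have hout : ∀ q ∈ S, (Quotient.mk (MulAction.orbitRel G Q) q).out = q := by
    rintro _ ⟨o, rfl⟩
    show (Quotient.mk (MulAction.orbitRel G Q) (Quotient.mk (MulAction.orbitRel G Q) (a o.out)).out).out = _
    rw [Quotient.out_eq]
  have hmem : ∀ x : X, (Quotient.mk (MulAction.orbitRel G Q) (a x)).out ∈ S := by
    intro x
    refine ⟨Quotient.mk _ x, ?_⟩
    show (Quotient.mk (MulAction.orbitRel G Q) (a (Quotient.mk (MulAction.orbitRel G X) x).out)).out = _
    obtain ⟨g, hg⟩ := rel_out (G := G) x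
    congr 1
    refine (mk_eq g ?_).symm
    rw [← map_smul, hg]
  refine ⟨hSf.toFinset, fun W hW hl => ?_⟩
  set ι : Type _ := Σ q : hSf.toFinset, Fin (rk (MulAction.stabilizer G q.1) (Fib a q.1)) with hι
  set s : ι → X := fun p => ((co (MulAction.stabilizer G p.1.1) (Fib a p.1.1)).symm (1, p.2)).1 with hs
  have has : ∀ p : ι, a (s p) = p.1.1 := fun p =>
    ((co (MulAction.stabilizer G p.1.1) (Fib a p.1.1)).symm (1, p.2)).2
  have hb : Function.Bijective fun p : G × ι => p.1 • s p.2 := by
    constructor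
    · rintro ⟨g, ⟨q, i⟩⟩ ⟨g', ⟨q', i'⟩⟩ h
      have h1 : g • s ⟨q, i⟩ = g' • s ⟨q', i'⟩ := h
      have h2 : g • q.1 = g' • q'.1 := by
        have h3 := congrArg a h1
        rw [map_smul, map_smul, has, has] at h3
        exact h3
      have h4 : q = q' := by
        apply Subtype.ext
        rw [← hout q.1 (hSf.mem_toFinset.1 q.2), ← hout q'.1 (hSf.mem_toFinset.1 q'.2)]
        congr 1
        refine mk_eq (g⁻¹ * g') ?_
        rw [mul_smul, ← h2, inv_smul_smul]
      subst h4
      have h5 : (g'⁻¹ * g) • q.1 = q.1 := by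
        rw [mul_smul, h2, inv_smul_smul]
      have h6 : (⟨g'⁻¹ * g, h5⟩ : MulAction.stabilizer G q.1) •
          (co (MulAction.stabilizer G q.1) (Fib a q.1)).symm (1, i) =
          (1 : MulAction.stabilizer G q.1) • (co (MulAction.stabilizer G q.1) (Fib a q.1)).symm (1, i') := by
        rw [one_smul]
        apply Subtype.ext
        show (g'⁻¹ * g) • s ⟨q, i⟩ = s ⟨q, i'⟩
        rw [mul_smul, h1, inv_smul_smul]
      have h7 := (co_bijective (MulAction.stabilizer G q.1) (Fib a q.1)).1
        (a₁ := (⟨g'⁻¹ * g, h5⟩, i)) (a₂ := (1, i')) h6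
      have h8 : (⟨g'⁻¹ * g, h5⟩ : MulAction.stabilizer G q.1) = 1 := congrArg Prod.fst h7
      have h9 : i = i' := congrArg Prod.snd h7
      have h10 : g'⁻¹ * g = 1 := congrArg Subtype.val h8
      subst h9
      have h11 : g = g' := (inv_mul_eq_one.1 h10).symm
      rw [h11]
    · intro x
      set q := (Quotient.mk (MulAction.orbitRel G Q) (a x)).out with hq
      obtain ⟨g, hg⟩ := rel_out (G := G) (a x)
      have hx : a (g⁻¹ • x) = q := by
        rw [map_smul, inv_smul_eq_iff]
        exact hg.symm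
      obtain ⟨⟨h, i⟩, hi⟩ := (co_bijective (MulAction.stabilizer G q) (Fib a q)).2 ⟨g⁻¹ • x, hx⟩
      refine ⟨(g * h, ⟨⟨q, hSf.mem_toFinset.2 (hmem x)⟩, i⟩), ?_⟩
      have hi' : (h : G) • s ⟨⟨q, hSf.mem_toFinset.2 (hmem x)⟩, i⟩ = g⁻¹ • x := congrArg Subtype.val hi
      show (g * (h : G)) • s ⟨⟨q, hSf.mem_toFinset.2 (hmem x)⟩, i⟩ = x
      rw [mul_smul, hi', smul_inv_smul]
  have e1 : vd G W = ∑ p : ι, dn W (s p) := vd_eq_sum s hb hW
  have e2 : ∀ q : hSf.toFinset, ∑ i : Fin (rk (MulAction.stabilizer G q.1) (Fib a q.1)), dn W (s ⟨q, i⟩) =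
      vd (MulAction.stabilizer G q.1) (loc a q.1 W) := by
    intro q
    rw [vd_eq_dn]
    exact Finset.sum_congr rfl fun i _ => (dn_loc hW hl q.1 _).symm
  have e3 : ∑ p : ι, dn W (s p) = ∑ q : hSf.toFinset, ∑ i : Fin (rk (MulAction.stabilizer G q.1) (Fib a q.1)),
      dn W (s ⟨q, i⟩) := Fintype.sum_sigma _
  rw [e1, e3, Finset.sum_congr rfl fun q _ => e2 q]
  exact Finset.sum_coe_sort hSf.toFinset fun q => vd (MulAction.stabilizer G q) (loc a q W)

end A2

end ATY
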