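import Pool.Agent.ATY.A

/-!
# MP_585e9a_TREE, row C: the cut formula
-/

set_option autoImplicit false

open scoped ComplexConjugate InnerProductSpace
open Filter Topology

namespace ATY
open Singer

section C0
variable {X Q : Type*}

/-- a closed subspace which contains the pieces of `f` over `S` contains the restriction of `f` to `S` -/
theorem mem_of_pieces (a : X → Q) {W : Submodule ℂ (L2 X)} (hW : IsClosed (W : Set (L2 X))) {f : L2 X}
    (S : Set Q) (h : ∀ q ∈ S, cu {x | a x = q} f ∈ W) : cu {x | a x ∈ S} f ∈ W := by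
  classical
  have : CompleteSpace W := hW.completeSpace_coe
  rw [← Submodule.orthogonal_orthogonal W, Submodule.mem_orthogonal]
  intro v hv
  have h1 := (lp.hasSum_inner (𝕜 := ℂ) v (cu {x | a x ∈ S} f)).tsum_fiberwise a
  rw [← h1.tsum_eq]
  have h2 : ∀ q : Q, ∑' x : a ⁻¹' {q}, inner ℂ (v x) (cu {x | a x ∈ S} f x) = 0 := by
    intro q
    by_cases hq : q ∈ S
    · have h3 : inner ℂ v (cu {x | a x = q} f) = 0 :=
        Submodule.inner_left_of_mem_orthogonal (h q hq) hv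
      rw [lp.inner_eq_tsum] at h3
      rw [← h3, tsum_subtype (a ⁻¹' {q}) fun x => inner ℂ (v x) (cu {x | a x ∈ S} f x)]
      refine tsum_congr fun x => ?_
      by_cases hx : a x = q
      · have hx' : x ∈ a ⁻¹' {q} := hx
        rw [Set.indicator_of_mem hx', cu_apply, cu_apply,
          if_pos (show x ∈ {x | a x ∈ S} by show a x ∈ S; rw [hx]; exact hq), if_pos (show x ∈ {x | a x = q} from hx)]
      · have hx' : x ∉ a ⁻¹' {q} := hx
        rw [Set.indicator_of_notMem hx', cu_apply, if_neg (show x ∉ {x | a x = q} from hx),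
          inner_zero_right]
    · have : ∀ x : a ⁻¹' {q}, inner ℂ (v x) (cu {x | a x ∈ S} f x) = 0 := by
        rintro ⟨x, hx⟩
        have hx' : a x = q := hx
        rw [cu_apply, if_neg, inner_zero_right]
        intro h4
        exact hq (hx' ▸ h4)
      rw [tsum_congr this, tsum_zero]
  rw [tsum_congr h2, tsum_zero]

end C0

section C
variable {G X D P₀ P₁ : Type} [Group G] [MulAction G X] [FC G X] [MulAction G D] [MulAction G P₀] [MulAction G P₁]

omit [FC G X] in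
lemma la_cu (δ : X →[G] D) (g : G) (d : D) (f : L2 X) :
    la g (cu {x | δ x = d} f) = cu {x | δ x = g • d} (la g f) := by
  classical
  ext x
  rw [la_apply, cu_apply, cu_apply, la_apply]
  have : g⁻¹ • x ∈ {x | δ x = d} ↔ x ∈ {x | δ x = g • d} := by
    show δ (g⁻¹ • x) = d ↔ δ x = g • d
    rw [map_smul, inv_smul_eq_iff]
  simp only [this]

theorem cut_formula {δ : X →[G] D} {p₀ : D →[G] P₀} {p₁ : D →[G] P₁} (hB : Bit δ p₀ p₁)
    {M₀ M₁ : Submodule ℂ (L2 X)} (h₀ : Md G M₀) (h₁ : Md G M₁) (l₀ : Loc (p₀.comp δ) M₀) (l₁ : Loc (p₁.comp δ) M₁) :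
    ∃ Z : Submodule ℂ (L2 X), Md G Z ∧ Loc δ Z ∧
      vd G (M₀ ⊓ M₁) ≤ vd G (M₀ ⊓ Z) + vd G (M₁ ⊓ Z) - vd G Z := by
  classical
  set V := M₀ ⊓ M₁ with hV
  set B : Set (L2 X) := {u | ∃ d : D, ∃ f ∈ V, u = cu {x | δ x = d} f} with hB'
  set Z := (Submodule.span ℂ B).topologicalClosure with hZd
  have hZcl : IsClosed (Z : Set (L2 X)) := Submodule.isClosed_topologicalClosure _
  have hBZ : ∀ u ∈ B, u ∈ Z := fun u hu => Submodule.le_topologicalClosure _ (Submodule.subset_span hu)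
  have hmapZ : ∀ (T : L2 X →L[ℂ] L2 X), (∀ u ∈ B, T u ∈ Z) → ∀ f ∈ Z, T f ∈ Z := by
    intro T hT f hf
    have h1 : (Submodule.span ℂ B) ≤ Z.comap (T : L2 X →ₗ[ℂ] L2 X) :=
      Submodule.span_le.2 fun u hu => hT u hu
    have h2 : Z ≤ Z.comap (T : L2 X →ₗ[ℂ] L2 X) :=
      Submodule.topologicalClosure_minimal _ h1 (hZcl.preimage T.continuous)
    exact h2 hf
  have hZ : Md G Z := by
    refine ⟨fun g f hf => hmapZ (la g) ?_ f hf, hZcl⟩
    rintro u ⟨d, f, hf, rfl⟩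
    rw [la_cu]
    exact hBZ _ ⟨_, _, ⟨h₀.inv g f hf.1, h₁.inv g f hf.2⟩, rfl⟩
  have hZl : Loc δ Z := by
    intro d f hf
    refine hmapZ (cu {x | δ x = d}) ?_ f hf
    rintro u ⟨d', f, hf, rfl⟩
    by_cases hd : d = d'
    · subst hd
      have : cu {x | δ x = d} (cu {x | δ x = d} f) = cu {x | δ x = d} f := by
        ext x
        rw [cu_apply, cu_apply]
        split_ifs <;> rfl
      rw [this]
      exact hBZ _ ⟨_, _, hf, rfl⟩
    · have : cu {x | δ x = d} (cu {x | δ x = d'} f) = 0 := by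
        ext x
        rw [cu_apply, cu_apply]
        split_ifs with h3 h4
        · exact absurd (h3.symm.trans h4) hd
        · rfl
        · rfl
      rw [this]
      exact Z.zero_mem
  have hpieces : ∀ f ∈ V, ∀ S : Set D, cu {x | δ x ∈ S} f ∈ Z := fun f hf S =>
    mem_of_pieces δ hZcl S fun d _ => hBZ _ ⟨_, _, hf, rfl⟩
  have hVZ : V ≤ Z := by
    intro f hf
    have h1 := hpieces f hf Set.univ
    have h2 : cu {x | δ x ∈ Set.univ} f = f := by
      ext x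
      rw [cu_apply]
      simp
    rwa [h2] at h1
  have hZle : Z ≤ (M₀ ⊓ Z ⊔ M₁ ⊓ Z).topologicalClosure := by
    refine Submodule.topologicalClosure_minimal _ (Submodule.span_le.2 ?_)
      (Submodule.isClosed_topologicalClosure _)
    rintro u ⟨d, f, hf, rfl⟩
    refine Submodule.le_topologicalClosure _ ?_
    by_cases hx : ∃ x₀ : X, δ x₀ = d
    · obtain ⟨x₀, rfl⟩ := hx
      obtain ⟨S₀, S₁, hS₀, hS₁, hS⟩ := hB x₀
      have e1 : cu {x | δ x = δ x₀} f = cu {x | p₀ (δ x) ∈ S₀} f - cu {x | p₁ (δ x) ∈ S₁} f := by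
        ext x
        rw [show (cu {x | p₀ (δ x) ∈ S₀} f - cu {x | p₁ (δ x) ∈ S₁} f : L2 X) x =
          cu {x | p₀ (δ x) ∈ S₀} f x - cu {x | p₁ (δ x) ∈ S₁} f x from rfl, cu_apply, cu_apply, cu_apply]
        by_cases hd : δ x = δ x₀
        · have m0 : x ∈ {x | p₀ (δ x) ∈ S₀} := by
            show p₀ (δ x) ∈ S₀
            rw [hd]; exact hS₀
          have m1 : x ∉ {x | p₁ (δ x) ∈ S₁} := by
            show ¬ p₁ (δ x) ∈ S₁
            rw [hd]; exact hS₁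
          rw [if_pos (show x ∈ {x | δ x = δ x₀} from hd), if_pos m0, if_neg m1, sub_zero]
        · have m : x ∈ {x | p₀ (δ x) ∈ S₀} ↔ x ∈ {x | p₁ (δ x) ∈ S₁} := hS x hd
          rw [if_neg (show x ∉ {x | δ x = δ x₀} from hd)]
          simp only [m, sub_self]
      have z0 : cu {x | p₀ (δ x) ∈ S₀} f ∈ M₀ ⊓ Z :=
        ⟨mem_of_pieces (fun x => p₀ (δ x)) h₀.cl S₀ fun q _ => l₀ q f hf.1,
          hpieces f hf {d | p₀ d ∈ S₀}⟩
      have z1 : cu {x | p₁ (δ x) ∈ S₁} f ∈ M₁ ⊓ Z :=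
        ⟨mem_of_pieces (fun x => p₁ (δ x)) h₁.cl S₁ fun q _ => l₁ q f hf.2,
          hpieces f hf {d | p₁ d ∈ S₁}⟩
      show cu {x | δ x = δ x₀} f ∈ _
      rw [e1]
      exact Submodule.sub_mem _ (Submodule.mem_sup_left z0) (Submodule.mem_sup_right z1)
    · have : cu {x | δ x = d} f = 0 := by
        ext x
        have hx' : x ∉ {x | δ x = d} := fun h => hx ⟨x, h⟩
        rw [cu_apply, if_neg hx']
        rfl
      show cu {x | δ x = d} f ∈ _
      rw [this]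
      exact Submodule.zero_mem _
  refine ⟨Z, hZ, hZl, ?_⟩
  have h1 := vd_sup_add_inf (h₀.inf hZ) (h₁.inf hZ)
  have h2 : M₀ ⊓ Z ⊓ (M₁ ⊓ Z) = V := by
    rw [hV]
    refine le_antisymm (fun f hf => ⟨hf.1.1, hf.2.1⟩) fun f hf => ⟨⟨hf.1, hVZ hf⟩, hf.2, hVZ hf⟩
  rw [h2] at h1
  have h3 : vd G Z ≤ vd G (M₀ ⊓ Z ⊔ M₁ ⊓ Z).topologicalClosure := vd_mono hZle
  linarith

theorem cut_le {M₀ M₁ Z : Submodule ℂ (L2 X)} (h₀ : Md G M₀) (h₁ : Md G M₁) (hZ : Md G Z) :
    vd G (M₀ ⊓ Z) + vd G (M₁ ⊓ Z) - vd G Z ≤ vd G (M₀ ⊓ M₁) := by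
  have h1 := vd_sup_add_inf (h₀.inf hZ) (h₁.inf hZ)
  have h2 : vd G (M₀ ⊓ Z ⊓ (M₁ ⊓ Z)) ≤ vd G (M₀ ⊓ M₁) := vd_mono fun f hf => ⟨hf.1.1, hf.2.1⟩
  have h3 : vd G (M₀ ⊓ Z ⊔ M₁ ⊓ Z).topologicalClosure ≤ vd G Z :=
    vd_mono (Submodule.topologicalClosure_minimal _ (sup_le inf_le_right inf_le_right) hZ.cl)
  linarith

end C

end ATY
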