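import Pool.Agent.ATY.M
import Pool.Agent.ATY.A2


/-!
# Row N: families of maxima over the darts, and the direct sum over the darts at a node
-/

set_option autoImplicit false

open scoped ComplexConjugate InnerProductSpace
open Filter Topology

namespace ATY
open Singer Pool.WeakAtiyah

section basicN
variable {X Y Z : Type*}

lemma push_pull_equiv (e : X ≃ Y) (f : L2 Y) : push e e.injective (pull e e.injective f) = f := by
  ext y
  obtain ⟨x, rfl⟩ := e.surjective y
  rw [push_apply, pull_apply]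

lemma mem_map_push (e : X ≃ Y) {W : Submodule ℂ (L2 X)} {f : L2 Y} :
    f ∈ W.map (push e e.injective : L2 X →ₗ[ℂ] L2 Y) ↔ pull e e.injective f ∈ W := by
  constructor
  · rintro ⟨g, hg, rfl⟩
    have h1 : pull e e.injective (push e e.injective g) = g := pull_push _ _ _
    exact h1.symm ▸ hg
  · intro h
    exact ⟨_, h, push_pull_equiv e f⟩

lemma push_push {p : X → Y} (hp : Function.Injective p) {q : Y → Z} (hq : Function.Injective q) (f : L2 X) :
    push q hq (push p hp f) = push (q ∘ p) (hq.comp hp) f := by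
  ext z
  by_cases h : z ∈ Set.range q
  · obtain ⟨y, rfl⟩ := h
    rw [push_apply]
    by_cases h1 : y ∈ Set.range p
    · obtain ⟨x, rfl⟩ := h1
      rw [push_apply]
      exact (push_apply (q ∘ p) (hq.comp hp) f x).symm
    · rw [push_apply_of_notMem p hp f h1, push_apply_of_notMem (q ∘ p) (hq.comp hp) f]
      rintro ⟨x, hx⟩
      exact h1 ⟨x, hq hx⟩
  · rw [push_apply_of_notMem q hq _ h, push_apply_of_notMem (q ∘ p) (hq.comp hp) f]
    rintro ⟨x, hx⟩
    exact h ⟨p x, hx⟩

lemma push_congr {p p' : X → Y} (hp : Function.Injective p) (hp' : Function.Injective p') (h : ∀ x, p x = p' x)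
    (f : L2 X) : push p hp f = push p' hp' f := by
  have h1 : p = p' := funext h
  subst h1
  rfl

end basicN

section family
variable {K : Subfield ℂ} {G : Type} [Group G] {X D : Type} [MulAction G X] [FC G X] [MulAction G D] {n : ℕ}

/-- translation of the fibres -/
def fibE (δ : X →[G] D) {d d' : D} (g : G) (h : d = g • d') : Fib δ d' ≃ Fib δ d where
  toFun x := ⟨g • x.1, by rw [map_smul, x.2, h]⟩
  invFun x := ⟨g⁻¹ • x.1, by rw [map_smul, x.2, h, inv_smul_smul]⟩
  left_inv x := Subtype.ext (inv_smul_smul g x.1)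
  right_inv x := Subtype.ext (smul_inv_smul g x.1)

lemma fibE_smul (δ : X →[G] D) {d d' : D} (g : G) (h : d = g • d') (a : MulAction.stabilizer G d') (x : Fib δ d') :
    fibE δ g h (a • x) = MulAction.stabilizerEquivStabilizer h a • fibE δ g h x := by
  refine Subtype.ext ?_
  show g • ((a : G) • x.1) = ((MulAction.stabilizerEquivStabilizer h a : MulAction.stabilizer G d) : G) • (g • x.1)
  rw [MulAction.stabilizerEquivStabilizer_apply, MulAut.conj_apply, smul_smul, smul_smul, inv_mul_cancel_right]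

lemma map_fibE (δ : X →[G] D) {d d' : D} (g : G) (h : d = g • d') {W : Submodule ℂ (L2 X)} (hW : Md G W) :
    (loc δ d' W).map (push (fibE δ g h) (fibE δ g h).injective : L2 (Fib δ d') →ₗ[ℂ] L2 (Fib δ d)) = loc δ d W := by
  ext f
  rw [mem_map_push]
  have h1 : ∀ f : L2 (Fib δ d), la g (push (fi δ d') (fi_inj δ d') (pull (fibE δ g h) (fibE δ g h).injective f)) =
      push (fi δ d) (fi_inj δ d) f := by
    intro f
    ext x
    rw [la_apply]
    by_cases hx : δ x = d
    · have h2 : g⁻¹ • x = fi δ d' ((fibE δ g h).symm ⟨x, hx⟩) := rfl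
      rw [h2, push_apply, pull_apply, Equiv.apply_symm_apply]
      exact (push_apply (fi δ d) (fi_inj δ d) f ⟨x, hx⟩).symm
    · rw [push_apply_of_notMem, push_apply_of_notMem]
      · rintro ⟨y, rfl⟩
        exact hx y.2
      · rintro ⟨y, hy⟩
        apply hx
        have h3 : δ (g⁻¹ • x) = d' := by rw [← hy]; exact y.2
        rw [map_smul] at h3
        rw [h, ← h3, smul_inv_smul]
  constructor
  · intro hf
    have h2 := hW.inv g _ hf
    show push (fi δ d) (fi_inj δ d) f ∈ W
    rw [← h1]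
    exact h2
  · intro hf
    have hf' : push (fi δ d) (fi_inj δ d) f ∈ W := hf
    rw [← h1] at hf'
    have h2 := hW.inv g⁻¹ _ hf'
    show push (fi δ d') (fi_inj δ d') (pull (fibE δ g h) (fibE δ g h).injective f) ∈ W
    have h3 : ∀ u : L2 X, la g⁻¹ (la g u) = u := by
      intro u
      ext x
      rw [la_apply, la_apply, inv_inv, inv_smul_smul]
    rwa [h3] at h2

theorem exists_family (hn : 0 < n) (δ : X →[G] D) (hR : ∀ x : X, RanksIn K (MulAction.stabilizer G (δ x)) n) (t : ℝ)
    {Z : Submodule ℂ (L2 X)} (hZ : Md G Z) : ∃ Y : Submodule ℂ (L2 X), Md G Y ∧ Loc δ Y ∧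
      ∀ x : X, IsTop (MulAction.stabilizer G (δ x)) (Rat K (MulAction.stabilizer G (δ x))) t (loc δ (δ x) Z)
        (loc δ (δ x) Y) := by
  classical
  have hR' : ∀ d, (∃ x, δ x = d) → RanksIn K (MulAction.stabilizer G d) n := by
    rintro _ ⟨x, rfl⟩
    exact hR x
  have hex : ∀ d, ∃ Y : Submodule ℂ (L2 (Fib δ d)), (∃ x, δ x = d) →
      IsTop (MulAction.stabilizer G d) (Rat K (MulAction.stabilizer G d)) t (loc δ d Z) Y := by
    intro d
    by_cases hd : ∃ x, δ x = d
    · obtain ⟨Y, hY⟩ := exists_isTop hn (hR' d hd) t (hZ.loc (a := δ) d)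
      exact ⟨Y, fun _ => hY⟩
    · exact ⟨⊥, fun h => absurd h hd⟩
  choose Yd hYd using hex
  have htr : ∀ (g : G) (d d' : D) (h : d = g • d'), (∃ x, δ x = d') → (Yd d').map
      (push (fibE δ g h) (fibE δ g h).injective : L2 (Fib δ d') →ₗ[ℂ] L2 (Fib δ d)) = Yd d := by
    intro g d d' h hd'
    have h1 := (hYd d' hd').equiv (MulAction.stabilizerEquivStabilizer h) (fibE δ g h) (fibE_smul δ g h)
      (hZ.loc (a := δ) d')
    rw [map_fibE δ g h hZ] at h1
    obtain ⟨x, hx⟩ := hd'
    exact h1.unique (hYd d ⟨g • x, by rw [map_smul, hx, h]⟩)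
  let Y : Submodule ℂ (L2 X) := ⨅ x : X, (Yd (δ x)).comap (pull (fi δ (δ x)) (fi_inj δ (δ x)) : L2 X →ₗ[ℂ] L2 (Fib δ (δ x)))
  have hY : ∀ f : L2 X, f ∈ Y ↔ ∀ x, pull (fi δ (δ x)) (fi_inj δ (δ x)) f ∈ Yd (δ x) := by
    intro f
    simp only [Y, Submodule.mem_iInf]
    exact Iff.rfl
  have hY' : ∀ f : L2 X, f ∈ Y → ∀ d, (∃ x, δ x = d) → pull (fi δ d) (fi_inj δ d) f ∈ Yd d := by
    rintro f hf _ ⟨x, rfl⟩
    exact (hY f).1 hf x
  refine ⟨Y, ⟨fun g f hf => (hY _).2 fun x => ?_, ?_⟩, fun q f hf => (hY _).2 fun x => ?_, fun x => ?_⟩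
  · have h1 : δ x = g • δ (g⁻¹ • x) := by rw [map_smul, smul_inv_smul]
    rw [← htr g (δ x) (δ (g⁻¹ • x)) h1 ⟨_, rfl⟩, mem_map_push]
    have h2 := hY' f hf (δ (g⁻¹ • x)) ⟨_, rfl⟩
    have h3 : pull (fibE δ g h1) (fibE δ g h1).injective (pull (fi δ (δ x)) (fi_inj δ (δ x)) (la g f)) =
        pull (fi δ (δ (g⁻¹ • x))) (fi_inj δ (δ (g⁻¹ • x))) f := by
      ext y
      show f (g⁻¹ • (g • y.1)) = f y.1
      rw [inv_smul_smul]
    rw [h3]
    exact h2
  · have h1 : (Y : Set (L2 X)) = ⋂ x : X, (pull (fi δ (δ x)) (fi_inj δ (δ x))) ⁻¹' (Yd (δ x) : Set (L2 (Fib δ (δ x)))) := by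
      ext f
      rw [SetLike.mem_coe, hY, Set.mem_iInter]
      exact Iff.rfl
    rw [h1]
    exact isClosed_iInter fun x => ((hYd (δ x) ⟨x, rfl⟩).mem.md.cl).preimage (ContinuousLinearMap.continuous _)
  · by_cases hx : δ x = q
    · have h1 : pull (fi δ (δ x)) (fi_inj δ (δ x)) (cu {x | δ x = q} f) = pull (fi δ (δ x)) (fi_inj δ (δ x)) f := by
        ext y
        rw [pull_apply, pull_apply, cu_apply, if_pos]
        show δ y.1 = q
        rw [y.2, hx]
      rw [h1]
      exact (hY f).1 hf x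
    · have h1 : pull (fi δ (δ x)) (fi_inj δ (δ x)) (cu {x | δ x = q} f) = 0 := by
        ext y
        rw [pull_apply, cu_apply, if_neg]
        · rfl
        · show ¬ δ y.1 = q
          rw [y.2]
          exact hx
      rw [h1]
      exact Submodule.zero_mem _
  · have h1 : loc δ (δ x) Y = Yd (δ x) := by
      ext f
      have h2 : f ∈ loc δ (δ x) Y ↔ push (fi δ (δ x)) (fi_inj δ (δ x)) f ∈ Y := Iff.rfl
      rw [h2, hY]
      constructor
      · intro h
        have h3 := h x
        rwa [pull_push] at h3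
      · intro h x'
        by_cases hx : δ x' = δ x
        · have h4 : ∀ d, d = δ x → pull (fi δ d) (fi_inj δ d) (push (fi δ (δ x)) (fi_inj δ (δ x)) f) ∈ Yd d := by
            rintro _ rfl
            rw [pull_push]
            exact h
          exact h4 _ hx
        · have h3 : pull (fi δ (δ x')) (fi_inj δ (δ x')) (push (fi δ (δ x)) (fi_inj δ (δ x)) f) = 0 := by
            ext y
            rw [pull_apply, push_apply_of_notMem]
            · rfl
            · rintro ⟨z, hz⟩
              apply hx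
              have h4 : δ (fi δ (δ x) z) = δ x := z.2
              rw [hz] at h4
              exact y.2.symm.trans h4
          rw [h3]
          exact Submodule.zero_mem _
    rw [h1]
    exact hYd (δ x) ⟨x, rfl⟩

end family

section trivialAction

/-- a type with the trivial action -/
def Tv (I : Type) : Type := I

instance instTv (H I : Type) [Group H] : MulAction H (Tv I) where
  smul _ i := i
  one_smul _ := rfl
  mul_smul _ _ _ := rfl

variable {H : Type} [Group H] {X I : Type} [MulAction H X]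

/-- the action on the fibres of an invariant map -/
instance tvAct (c : X →[H] Tv I) (i : Tv I) : MulAction H (Fib c i) where
  smul h x := ⟨h • x.1, (map_smul c h x.1).trans x.2⟩
  one_smul x := Subtype.ext (one_smul H x.1)
  mul_smul g h x := Subtype.ext (mul_smul g h x.1)

lemma tv_smul (c : X →[H] Tv I) (i : Tv I) (h : H) (x : Fib c i) : (h • x).1 = h • x.1 := rfl

instance tvFC [hX : FC H X] (c : X →[H] Tv I) (i : Tv I) : FC H (Fib c i) where
  free h x hx := hX.free h x.1 (congrArg Subtype.val hx)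
  fin := by
    have := hX.fin
    refine Finite.of_injective (fun q : MulAction.orbitRel.Quotient H (Fib c i) =>
      Quotient.liftOn q (fun x => (Quotient.mk _ x.1 : MulAction.orbitRel.Quotient H X)) ?_) ?_
    · rintro x y ⟨h, rfl⟩
      exact Quotient.sound ⟨h, rfl⟩
    · intro q q' hq
      induction q using Quotient.inductionOn with
      | h x =>
        induction q' using Quotient.inductionOn with
        | h y =>
          obtain ⟨h, hh⟩ := Quotient.exact hq
          exact Quotient.sound ⟨h, Subtype.ext hh⟩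

/-- all elements stabilise -/
def tvE (H : Type) [Group H] {I : Type} (i : Tv I) : MulAction.stabilizer H i ≃* H where
  toFun h := h.1
  invFun h := ⟨h, rfl⟩
  left_inv _ := rfl
  right_inv _ := rfl
  map_mul' _ _ := rfl

lemma md_tv {c : X →[H] Tv I} {W : Submodule ℂ (L2 X)} (hW : Md H W) (i : Tv I) : Md H (loc c i W) where
  inv h f hf := by
    have h1 := hW.inv h _ hf
    have h2 : la h (push (fi c i) (fi_inj c i) f) = push (fi c i) (fi_inj c i) (la h f) := by
      ext x
      rw [la_apply]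
      by_cases hx : c x = i
      · have h3 : h⁻¹ • x = fi c i (h⁻¹ • ⟨x, hx⟩) := rfl
        rw [h3, push_apply]
        exact (push_apply (fi c i) (fi_inj c i) (la h f) ⟨x, hx⟩).symm
      · rw [push_apply_of_notMem, push_apply_of_notMem]
        · rintro ⟨y, rfl⟩
          exact hx y.2
        · rintro ⟨y, hy⟩
          apply hx
          have h3 : c (h⁻¹ • x) = i := by rw [← hy]; exact y.2
          exact (map_smul c h⁻¹ x).symm.trans h3
    show push (fi c i) (fi_inj c i) (la h f) ∈ W
    rw [← h2]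
    exact h1
  cl := hW.cl.preimage (ContinuousLinearMap.continuous (push (fi c i) (fi_inj c i)))

variable [FC H X]

theorem exists_tv (c : X →[H] Tv I) : ∃ s : Finset (Tv I), ∀ W : Submodule ℂ (L2 X), Md H W → Loc c W →
    vd H W = ∑ i ∈ s, vd H (loc c i W) := by
  obtain ⟨s, hs⟩ := exists_reps c
  refine ⟨s, fun W hW hl => (hs W hW hl).trans (Finset.sum_congr rfl fun i _ => ?_)⟩
  have h1 := vd_equiv (tvE H i) (Equiv.refl (Fib c i)) (fun h x => rfl) (hW.loc (a := c) i)
  rw [← h1]
  congr 1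
  ext f
  rw [mem_map_push]
  exact Iff.rfl

lemma loc_inf (c : X →[H] Tv I) (i : Tv I) (V W : Submodule ℂ (L2 X)) : loc c i (V ⊓ W) = loc c i V ⊓ loc c i W := rfl

lemma loc_mono (c : X →[H] Tv I) (i : Tv I) {V W : Submodule ℂ (L2 X)} (h : V ≤ W) : loc c i V ≤ loc c i W :=
  fun _ hf => h hf

variable {K : Subfield ℂ}

lemma Loc.sup {c : X →[H] Tv I} {V W : Submodule ℂ (L2 X)} (hV : Loc c V) (hW : Loc c W) :
    Loc c (V ⊔ W).topologicalClosure := by
  intro q f hf
  refine map_mem_closure (ContinuousLinearMap.continuous (cu {x | c x = q})) hf fun g hg => ?_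
  obtain ⟨u, hu, v, hv, rfl⟩ := Submodule.mem_sup.1 hg
  rw [map_add]
  exact Submodule.add_mem_sup (hV q u hu) (hW q v hv)

lemma loc_im (c : X →[H] Tv I) (i : Tv I) (W : Submodule ℂ (L2 (Fib c i))) :
    Loc c (im (push (fi c i) (fi_inj c i)) W) := by
  intro q f hf
  refine map_mem_closure (ContinuousLinearMap.continuous (cu {x | c x = q})) hf fun g hg => ?_
  obtain ⟨u, hu, rfl⟩ := hg
  by_cases hq : i = q
  · refine ⟨u, hu, ?_⟩
    show push (fi c i) (fi_inj c i) u = cu {x | c x = q} (push (fi c i) (fi_inj c i) u)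
    ext x
    rw [cu_apply]
    by_cases hx : c x = q
    · rw [if_pos (by exact hx)]
    · rw [if_neg (by exact hx), push_apply_of_notMem]
      rintro ⟨y, rfl⟩
      exact hx (y.2.trans hq)
  · have h1 : cu {x | c x = q} (push (fi c i) (fi_inj c i) u) = 0 := by
      ext x
      rw [cu_apply]
      by_cases hx : c x = q
      · rw [if_pos (by exact hx), push_apply_of_notMem]
        · rfl
        · rintro ⟨y, rfl⟩
          exact hq (y.2.symm.trans hx)
      · rw [if_neg (by exact hx)]
        rfl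
    show cu {x | c x = q} (push (fi c i) (fi_inj c i) u) ∈ W.map (push (fi c i) (fi_inj c i) : L2 (Fib c i) →ₗ[ℂ] L2 X)
    rw [h1]
    exact Submodule.zero_mem _

theorem rat_of_parts {c : X →[H] Tv I} {s : Finset (Tv I)}
    (hs : ∀ W : Submodule ℂ (L2 X), Md H W → Loc c W → vd H W = ∑ i ∈ s, vd H (loc c i W))
    {Y : Submodule ℂ (L2 X)} (hY : Md H Y) (hl : Loc c Y) (h : ∀ i ∈ s, Rat K H (loc c i Y)) : Rat K H Y := by
  classical
  have key : ∀ s' : Finset (Tv I), (∀ i ∈ s', Rat K H (loc c i Y)) → ∃ V : Submodule ℂ (L2 X), Rat K H V ∧ Loc c V ∧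
      V ≤ Y ∧ ∀ i ∈ s', loc c i Y ≤ loc c i V := by
    intro s'
    induction s' using Finset.induction_on with
    | empty =>
      intro _
      refine ⟨⊥, rat_bot, fun q f hf => ?_, bot_le, fun i hi => absurd hi (Finset.notMem_empty i)⟩
      rw [(Submodule.mem_bot ℂ).1 hf, map_zero]
      exact Submodule.zero_mem _
    | insert i s' hi ih =>
      intro h'
      obtain ⟨V, h1, h2, h3, h4⟩ := ih fun j hj => h' j (Finset.mem_insert_of_mem hj)
      have h5 : Rat K H (im (push (fi c i) (fi_inj c i)) (loc c i Y)) :=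
        (h' i (Finset.mem_insert_self i s')).im (kop_push (fi_inj c i) fun _ _ => rfl)
      have h6 : im (push (fi c i) (fi_inj c i)) (loc c i Y) ≤ Y := by
        refine Submodule.topologicalClosure_minimal _ ?_ hY.cl
        rintro _ ⟨u, hu, rfl⟩
        exact hu
      refine ⟨_, h1.sup h5, h2.sup (loc_im c i _), Submodule.topologicalClosure_minimal _ (sup_le h3 h6) hY.cl, ?_⟩
      intro j hj
      rcases Finset.mem_insert.1 hj with rfl | hj
      · intro f hf
        have h7 : push (fi c j) (fi_inj c j) f ∈ im (push (fi c j) (fi_inj c j)) (loc c j Y) :=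
          Submodule.le_topologicalClosure _ ⟨f, hf, rfl⟩
        exact Submodule.le_topologicalClosure _ (Submodule.mem_sup_right h7)
      · exact (h4 j hj).trans (loc_mono c j (le_sup_left.trans (Submodule.le_topologicalClosure _)))
  obtain ⟨V, h1, h2, h3, h4⟩ := key s h
  have h5 : vd H Y ≤ vd H V := by
    rw [hs Y hY hl, hs V h1.md h2]
    exact Finset.sum_le_sum fun i hi => vd_mono (h4 i hi)
  rw [← eq_of_vd_le h1.md hY h3 h5]
  exact h1

/-- the sum of the largest maxima of the parts is the largest maximum -/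
theorem isTop_glue {n : ℕ} (hn : 0 < n) (hR : RanksIn K H n) (c : X →[H] Tv I) {t : ℝ} {Z Y : Submodule ℂ (L2 X)}
    (hZ : Md H Z) (hZl : Loc c Z) (hY : Md H Y) (hYl : Loc c Y)
    (h : ∀ x, IsTop H (Rat K H) t (loc c (c x) Z) (loc c (c x) Y)) : IsTop H (Rat K H) t Z Y := by
  have h' : ∀ i, IsTop H (Rat K H) t (loc c i Z) (loc c i Y) := by
    intro i
    by_cases hi : ∃ x, c x = i
    · obtain ⟨x, rfl⟩ := hi
      exact h x
    · have hE : IsEmpty (Fib c i) := ⟨fun x => hi ⟨x.1, x.2⟩⟩
      have h0 : ∀ V W : Submodule ℂ (L2 (Fib c i)), V = W := by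
        intro V W
        ext f
        have hf : f = 0 := by
          ext x
          exact hE.elim x
        rw [hf]
        exact ⟨fun _ => W.zero_mem, fun _ => V.zero_mem⟩
      exact ⟨h0 ⊥ (loc c i Y) ▸ rat_bot, fun Y' _ => (h0 Y' (loc c i Y)).symm ▸ le_refl _,
        fun Y' _ _ => (h0 Y' (loc c i Y)).le⟩
  obtain ⟨s, hs⟩ := exists_tv c
  obtain ⟨Y', hY'⟩ := exists_isTop hn hR t hZ
  have hm' := hY'.mem.md
  have hl' : Loc c Y' := by
    intro i f hf
    refine hY'.cu hZ (S := {x | c x = i}) (fun h x hx => ?_) (fun f hf => hZl i f hf) f hf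
    exact (map_smul c h x).trans hx
  have hadd : ∀ W : Submodule ℂ (L2 X), Md H W → Loc c W →
      hf H t Z W = ∑ i ∈ s, hf H t (loc c i Z) (loc c i W) := by
    intro W hW hl
    have h1 := hs (Z ⊓ W) (hZ.inf hW) fun q f hf => ⟨hZl q f hf.1, hl q f hf.2⟩
    unfold hf
    rw [h1, hs W hW hl, Finset.mul_sum, ← Finset.sum_sub_distrib]
    rfl
  have hrat : ∀ i, Rat K H (loc c i Y') := fun i => hY'.mem.comap (kop_push (fi_inj c i) fun _ _ => rfl)
  have hle : ∀ i ∈ s, hf H t (loc c i Z) (loc c i Y') ≤ hf H t (loc c i Z) (loc c i Y) := fun i _ => (h' i).le _ (hrat i)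
  have h1 : hf H t Z Y' ≤ hf H t Z Y := by
    rw [hadd Y' hm' hl', hadd Y hY hYl]
    exact Finset.sum_le_sum hle
  have h2 : Rat K H Y := rat_of_parts hs hY hYl fun i _ => (h' i).mem
  have h3 : Y ≤ Y' := hY'.top Y h2 h1
  have h4 : ∑ i ∈ s, hf H t (loc c i Z) (loc c i Y') = ∑ i ∈ s, hf H t (loc c i Z) (loc c i Y) := by
    rw [← hadd Y' hm' hl', ← hadd Y hY hYl]
    exact le_antisymm h1 (hY'.le Y h2)
  have h5 := (Finset.sum_eq_sum_iff_of_le hle).1 h4
  have h6 : vd H Y' ≤ vd H Y := by
    rw [hs Y' hm' hl', hs Y hY hYl]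
    exact Finset.sum_le_sum fun i hi => vd_mono ((h' i).top _ (hrat i) (h5 i hi).ge)
  rw [eq_of_vd_le hY hm' h3 h6]
  exact hY'

end trivialAction

section cuMem
variable {G X Q : Type*} [Group G] [MulAction G X] [MulAction G Q]

/-- local closed subspaces are closed under the restriction to unions of fibres -/
lemma cu_mem_of_loc {a : X →[G] Q} {W : Submodule ℂ (L2 X)} (hcl : IsClosed (W : Set (L2 X))) (hl : Loc a W) (T : Set Q)
    {f : L2 X} (hf : f ∈ W) : cu {x | a x ∈ T} f ∈ W := by
  classical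
  have : CompleteSpace W := hcl.completeSpace_coe
  rw [← Submodule.orthogonal_orthogonal W, Submodule.mem_orthogonal]
  intro g hg
  have h0 : ∀ q, ∑' x : {x : X // a x = q}, conj (g x.1) * f x.1 = 0 := by
    intro q
    have h1 : ⟪g, cu {x | a x = q} f⟫_ℂ = 0 := by
      rw [← inner_conj_symm]
      rw [(Submodule.mem_orthogonal W g).1 hg _ (hl q f hf), map_zero]
    rw [inner_eq] at h1
    have h2 : ∑' x : {x : X // a x = q}, conj (g x.1) * f x.1 = ∑' x, conj (g x) * (cu {x | a x = q} f) x := by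
      have h3 := tsum_subtype {x : X | a x = q} fun x => conj (g x) * f x
      refine h3.trans (tsum_congr fun x => ?_)
      rw [cu_apply]
      by_cases hx : a x = q
      · rw [Set.indicator_of_mem (by exact hx), if_pos (by exact hx)]
      · rw [Set.indicator_of_notMem (by exact hx), if_neg (by exact hx), mul_zero]
    rw [h2, h1]
  have hs := summable_inner' g (cu {x | a x ∈ T} f)
  rw [inner_eq, ← (Equiv.sigmaFiberEquiv a).tsum_eq]
  have hs' : Summable fun y : (Σ q, {x : X // a x = q}) => conj (g (Equiv.sigmaFiberEquiv a y)) *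
      (cu {x | a x ∈ T} f) (Equiv.sigmaFiberEquiv a y) := (Equiv.sigmaFiberEquiv a).summable_iff.2 hs
  rw [hs'.tsum_sigma]
  refine (tsum_congr fun q => ?_).trans tsum_zero
  by_cases hq : q ∈ T
  · rw [← h0 q]
    refine tsum_congr fun x => ?_
    show conj (g x.1) * (cu {x | a x ∈ T} f) x.1 = conj (g x.1) * f x.1
    rw [cu_apply, if_pos]
    show a x.1 ∈ T
    rw [x.2]
    exact hq
  · refine (tsum_congr fun x => ?_).trans tsum_zero
    show conj (g x.1) * (cu {x | a x ∈ T} f) x.1 = 0
    rw [cu_apply, if_neg, mul_zero]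
    show ¬ a x.1 ∈ T
    rw [x.2]
    exact hq

end cuMem

section node
variable {K : Subfield ℂ} {G : Type} [Group G] {X D P : Type} [MulAction G X] [FC G X] [MulAction G D] [MulAction G P]
  {n : ℕ}

lemma push_cu {X Y : Type*} {p : X → Y} (hp : Function.Injective p) (S : Set Y) (f : L2 X) :
    push p hp (cu (p ⁻¹' S) f) = cu S (push p hp f) := by
  ext y
  rw [cu_apply]
  by_cases hy : y ∈ Set.range p
  · obtain ⟨x, rfl⟩ := hy
    rw [push_apply, push_apply, cu_apply]
    rfl
  · rw [push_apply_of_notMem p hp _ hy, push_apply_of_notMem p hp _ hy, ite_self]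

/-- the orbit of a dart under the stabiliser of a node -/
def orbC (δ : X →[G] D) (p : D →[G] P) (q : P) : Fib (p.comp δ) q →[MulAction.stabilizer G q]
    Tv (MulAction.orbitRel.Quotient (MulAction.stabilizer G q) D) where
  toFun y := Quotient.mk (MulAction.orbitRel (MulAction.stabilizer G q) D) (δ y.1)
  map_smul' h y := by
    have h1 : δ (h • y).1 = h • δ y.1 := map_smul δ (h : G) y.1
    show Quotient.mk (MulAction.orbitRel (MulAction.stabilizer G q) D) (δ (h • y).1) = _
    rw [h1]
    exact Quotient.sound ⟨h, rfl⟩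

/-- the dart map on the part of an orbit -/
def orbA (δ : X →[G] D) (p : D →[G] P) (q : P) (i : Tv (MulAction.orbitRel.Quotient (MulAction.stabilizer G q) D)) :
    Fib (orbC δ p q) i →[MulAction.stabilizer G q] D where
  toFun z := δ z.1.1
  map_smul' h z := map_smul δ (h : G) z.1.1

theorem node (hn : 0 < n) (δ : X →[G] D) (p : D →[G] P)
    (hR : ∀ x : X, RanksIn K (MulAction.stabilizer G (p (δ x))) n) (hS : ∀ x : X, SSP K _ (dst p (δ x))) (t : ℝ)
    {Z Y : Submodule ℂ (L2 X)} (hZ : Md G Z) (hZl : Loc δ Z) (hY : Md G Y) (hYl : Loc δ Y)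
    (h : ∀ x : X, IsTop (MulAction.stabilizer G (δ x)) (Rat K (MulAction.stabilizer G (δ x))) t (loc δ (δ x) Z)
        (loc δ (δ x) Y)) (x : X) :
    IsTop (MulAction.stabilizer G (p (δ x))) (Rat K (MulAction.stabilizer G (p (δ x)))) t
      (loc (p.comp δ) (p (δ x)) Z) (loc (p.comp δ) (p (δ x)) Y) := by
  have hS' : ∀ (q : P) (y : X), p (δ y) = q → SSP K (MulAction.stabilizer G q)
      ((MulAction.stabilizer G (δ y)).subgroupOf (MulAction.stabilizer G q)) := by
    rintro _ y rfl
    exact hS y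
  have hR' := hR x
  generalize p (δ x) = q at hR' ⊢
  have hl1 : ∀ W : Submodule ℂ (L2 X), Md G W → Loc δ W → Loc (orbC δ p q) (loc (p.comp δ) q W) := by
    intro W hW hl i f hf
    have h1 : cu {x | δ x ∈ {d | Quotient.mk (MulAction.orbitRel (MulAction.stabilizer G q) D) d = i}}
        (push (fi (p.comp δ) q) (fi_inj (p.comp δ) q) f) ∈ W := cu_mem_of_loc hW.cl hl _ hf
    rw [← push_cu] at h1
    exact h1
  refine isTop_glue hn hR' (orbC δ p q) (hZ.loc (a := p.comp δ) q) (hl1 Z hZ hZl) (hY.loc (a := p.comp δ) q)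
    (hl1 Y hY hYl) fun y => ?_
  have hl2 : ∀ W : Submodule ℂ (L2 X), Md G W → Loc δ W →
      Loc (orbA δ p q (orbC δ p q y)) (loc (orbC δ p q) (orbC δ p q y) (loc (p.comp δ) q W)) := by
    intro W hW hl d f hf
    have h1 : cu {x | δ x = d} (push (fi (p.comp δ) q) (fi_inj (p.comp δ) q)
        (push (fi (orbC δ p q) (orbC δ p q y)) (fi_inj _ _) f)) ∈ W := hl d _ hf
    rw [← push_cu, ← push_cu] at h1
    exact h1
  have hpy : p (δ y.1) = q := y.2
  have hAd : ∀ h : G, h ∈ MulAction.stabilizer G (δ y.1) → h ∈ MulAction.stabilizer G q := by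
    intro h hh
    have h1 : h • δ y.1 = δ y.1 := hh
    show h • q = q
    rw [← hpy, ← map_smul, h1]
  refine hS' q y.1 hpy (Fib (orbC δ p q) (orbC δ p q y)) D (orbA δ p q (orbC δ p q y)) (δ y.1) rfl ?_ t _ _
    (md_tv (hZ.loc (a := p.comp δ) q) _) (hl2 Z hZ hZl) (md_tv (hY.loc (a := p.comp δ) q) _) (hl2 Y hY hYl) ?_
  · intro z
    have h1 : orbC δ p q z.1 = orbC δ p q y := z.2
    exact Quotient.exact h1
  · let α : MulAction.stabilizer G (δ y.1) ≃* MulAction.stabilizer (MulAction.stabilizer G q) (δ y.1) :=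
      { toFun := fun h => ⟨⟨h.1, hAd h.1 h.2⟩, h.2⟩
        invFun := fun h => ⟨h.1.1, h.2⟩
        left_inv := fun _ => rfl
        right_inv := fun _ => rfl
        map_mul' := fun _ _ => rfl }
    let e : Fib δ (δ y.1) ≃ Fib (orbA δ p q (orbC δ p q y)) (δ y.1) :=
      { toFun := fun z => ⟨⟨⟨z.1, (congrArg p z.2).trans hpy⟩,
          congrArg (Quotient.mk (MulAction.orbitRel (MulAction.stabilizer G q) D)) z.2⟩, z.2⟩
        invFun := fun z => ⟨z.1.1.1, z.2⟩
        left_inv := fun _ => rfl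
        right_inv := fun _ => rfl }
    have he : ∀ (h : MulAction.stabilizer G (δ y.1)) (z : Fib δ (δ y.1)), e (h • z) = α h • e z := fun _ _ => rfl
    have hm : ∀ W : Submodule ℂ (L2 X), (loc δ (δ y.1) W).map
        (push e e.injective : L2 (Fib δ (δ y.1)) →ₗ[ℂ] L2 (Fib (orbA δ p q (orbC δ p q y)) (δ y.1))) =
        loc (orbA δ p q (orbC δ p q y)) (δ y.1) (loc (orbC δ p q) (orbC δ p q y) (loc (p.comp δ) q W)) := by
      intro W
      ext f
      rw [mem_map_push]
      have h1 : push (fi δ (δ y.1)) (fi_inj δ (δ y.1)) (pull e e.injective f) =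
          push (fi (p.comp δ) q) (fi_inj (p.comp δ) q) (push (fi (orbC δ p q) (orbC δ p q y)) (fi_inj _ _)
            (push (fi (orbA δ p q (orbC δ p q y)) (δ y.1)) (fi_inj _ _) f)) := by
        conv_rhs => rw [← push_pull_equiv e f]
        rw [push_push, push_push, push_push]
        exact push_congr _ _ (fun _ => rfl) _
      show push (fi δ (δ y.1)) (fi_inj δ (δ y.1)) (pull e e.injective f) ∈ W ↔ _
      rw [h1]
      exact Iff.rfl
    have h2 := (h y.1).equiv α e he (hZ.loc (a := δ) (δ y.1))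
    rw [hm, hm] at h2
    exact h2

end node

end ATY
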