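import Pool.Agent.ATY.S
import Pool.Agent.ATY.N
import Pool.Agent.ATY.C

/-!
# Finite subgroups, and transitivity (rows E1, E2)

* `ssp_finite`: induction from a finite subgroup preserves the largest maxima, over the field of complex numbers;
* `ssp_trans`: the property is transitive.
-/

set_option autoImplicit false

open scoped ComplexConjugate InnerProductSpace
open Filter Topology

namespace ATY
open Singer Pool.WeakAtiyah

section finiteColumns
variable {X Q : Type}

lemma inner_cu (S : Set X) (f g : L2 X) : ⟪f, cu S g⟫_ℂ = ⟪cu S f, g⟫_ℂ := by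
  rw [inner_eq, inner_eq]
  refine tsum_congr fun x => ?_
  rw [cu_apply, cu_apply]
  split_ifs
  · rfl
  · rw [map_zero, zero_mul, mul_zero]

lemma cu_cu_self (S : Set X) (f : L2 X) : cu S (cu S f) = cu S f := by
  ext x
  rw [cu_apply, cu_apply]
  split_ifs <;> rfl

variable {A : Type} [Group A] [MulAction A X] [MulAction A Q]

/-- closed invariant subspaces with finite columns are rational over `ℂ` -/
lemma rat_of_fs [FC A X] {W : Submodule ℂ (L2 X)} (hW : Md A W)
    (hfs : ∀ x, {y | pj W (dl x) y ≠ 0}.Finite) : Rat ⊤ A W := by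
  have h1 : KOp ⊤ A (pj W) := ⟨fun h f => pj_la hW.inv h f, hfs, fun _ _ => Subfield.mem_top _⟩
  have h2 : kr ((1 : L2 X →L[ℂ] L2 X) - pj W) = W := by
    ext f
    rw [mem_kr]
    have h3 : ((1 : L2 X →L[ℂ] L2 X) - pj W) f = f - pj W f := rfl
    have hc : W.topologicalClosure = W := hW.cl.submodule_topologicalClosure_eq
    rw [h3, sub_eq_zero]
    constructor
    · intro h4
      have h5 := pj_mem W f
      rw [hc, ← h4] at h5
      exact h5
    · intro h4
      refine (pj_unique ?_ ?_).symm
      · rw [hc]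
        exact h4
      · rw [sub_self]
        exact Submodule.zero_mem _
  rw [← h2]
  exact rat_kr (KOp.sub kop_id h1)

/-- the columns of the projection to a local subspace are supported in the fibres -/
lemma pj_supp {a : X →[A] Q} {W : Submodule ℂ (L2 X)} (hW : IsClosed (W : Set (L2 X))) (hl : Loc a W) (x y : X)
    (h : pj W (dl x) y ≠ 0) : a y = a x := by
  have hc : W.topologicalClosure = W := hW.submodule_topologicalClosure_eq
  have h1 : pj W (dl x) = cu {z | a z = a x} (pj W (dl x)) := by
    refine pj_unique ?_ ?_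
    · have h2 := pj_mem W (dl x)
      rw [hc] at h2 ⊢
      exact hl _ _ h2
    · rw [Submodule.mem_orthogonal]
      intro u hu
      have h2 : dl x = cu {z | a z = a x} (dl x) := by
        ext z
        rw [cu_apply]
        by_cases hz : z ∈ {z | a z = a x}
        · rw [if_pos hz]
        · rw [if_neg hz, dl_apply_ne]
          rintro rfl
          exact hz rfl
      have h3 : dl x - cu {z | a z = a x} (pj W (dl x)) = cu {z | a z = a x} (dl x - pj W (dl x)) := by
        rw [map_sub, ← h2]
      rw [h3, inner_cu]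
      exact (Submodule.mem_orthogonal _ _).1 (sub_pj_mem W _) _ (hl _ u hu)
  by_contra h2
  apply h
  rw [h1, cu_apply, if_neg (show y ∉ {z | a z = a x} from h2)]

/-- local closed invariant subspaces with finite fibres are rational over `ℂ` -/
lemma rat_of_fib [FC A X] {a : X →[A] Q} {W : Submodule ℂ (L2 X)} (hW : Md A W) (hl : Loc a W)
    (hf : ∀ x, {y | a y = a x}.Finite) : Rat ⊤ A W :=
  rat_of_fs hW fun x => (hf x).subset fun y hy => pj_supp hW.cl hl x y hy

lemma le_of_loc_le' {a : X →[A] Q} {q : Q} (horb : ∀ x, a x ∈ MulAction.orbit A q) {V W : Submodule ℂ (L2 X)}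
    (hV : Md A V) (lV : Loc a V) (hW : Md A W) (h : loc a q V ≤ loc a q W) : V ≤ W := by
  intro f hf
  have h1 : ∀ q', cu {x | a x = q'} f ∈ W := by
    intro q'
    by_cases hq : q' ∈ MulAction.orbit A q
    · obtain ⟨g, rfl⟩ := hq
      show cu {x | a x = g • q} f ∈ W
      rw [cu_la]
      refine hW.inv g _ ?_
      have h2 : la g⁻¹ f ∈ V := hV.inv _ _ hf
      have h3 : cu {x | a x = q} (la g⁻¹ f) = push (fi a q) (fi_inj a q) (pull (fi a q) (fi_inj a q) (la g⁻¹ f)) := by
        rw [push_pull_eq_cu, range_fi]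
      rw [h3]
      refine h ?_
      show push (fi a q) (fi_inj a q) (pull (fi a q) (fi_inj a q) (la g⁻¹ f)) ∈ V
      rw [← h3]
      exact lV q _ h2
    · have h2 : cu {x | a x = q'} f = 0 := by
        ext x
        rw [cu_apply, if_neg]
        · rfl
        · intro hx
          have hx' : a x = q' := hx
          exact hq (hx' ▸ horb x)
      rw [h2]
      exact Submodule.zero_mem _
  have h2 := mem_of_pieces a hW.cl (f := f) Set.univ fun q' _ => h1 q'
  have h3 : cu {x | a x ∈ Set.univ} f = f := by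
    ext x
    rw [cu_apply, if_pos]
    exact Set.mem_univ _
  rwa [h3] at h2

end finiteColumns

section top
variable {K : Subfield ℂ} {H X : Type} [Group H] [MulAction H X] [FC H X]

open Classical in
/-- the largest maxima if `Z` itself is in the class -/
noncomputable def tp (t : ℝ) (Z : Submodule ℂ (L2 X)) : Submodule ℂ (L2 X) :=
  if t ≤ 0 then ⊤ else if t ≤ 1 then Z else ⊥

lemma isTop_tp (t : ℝ) {Z : Submodule ℂ (L2 X)} (hZ : Rat K H Z) : IsTop H (Rat K H) t Z (tp t Z) := by
  have hZm := hZ.md
  unfold tp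
  by_cases h0 : t ≤ 0
  · rw [if_pos h0]
    refine ⟨rat_top, fun Y' _ => ?_, fun Y' _ _ => le_top⟩
    unfold hf
    have h1 : vd H (Z ⊓ Y') ≤ vd H (Z ⊓ ⊤) := vd_mono (inf_le_inf_left _ le_top)
    have h2 : vd H Y' ≤ vd H (⊤ : Submodule ℂ (L2 X)) := vd_mono le_top
    nlinarith
  · rw [if_neg h0]
    push Not at h0
    by_cases h1 : t ≤ 1
    · rw [if_pos h1]
      refine ⟨hZ, fun Y' _ => ?_, fun Y' hY' hle => ?_⟩
      · unfold hf
        rw [inf_idem]
        have h2 : vd H (Z ⊓ Y') ≤ vd H Y' := vd_mono inf_le_right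
        have h3 : vd H (Z ⊓ Y') ≤ vd H Z := vd_mono inf_le_left
        nlinarith
      · unfold hf at hle
        rw [inf_idem] at hle
        have h2 : vd H (Z ⊓ Y') ≤ vd H Y' := vd_mono inf_le_right
        have h3 : vd H (Z ⊓ Y') ≤ vd H Z := vd_mono inf_le_left
        have h4 : t * vd H Y' ≤ t * vd H (Z ⊓ Y') := by nlinarith
        have h5 : vd H Y' ≤ vd H (Z ⊓ Y') := le_of_mul_le_mul_left h4 h0
        have h6 := eq_of_vd_le (H := H) (hZm.inf hY'.md) hY'.md inf_le_right h5
        rw [← h6]
        exact inf_le_left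
    · rw [if_neg h1]
      push Not at h1
      have hb : vd H (⊥ : Submodule ℂ (L2 X)) = 0 := vd_bot
      refine ⟨rat_bot, fun Y' _ => ?_, fun Y' hY' hle => ?_⟩
      · unfold hf
        rw [inf_bot_eq, hb, mul_zero, sub_zero]
        have h2 : vd H (Z ⊓ Y') ≤ vd H Y' := vd_mono inf_le_right
        have h3 : 0 ≤ vd H Y' := vd_nonneg _
        nlinarith
      · unfold hf at hle
        rw [inf_bot_eq, hb, mul_zero, sub_zero] at hle
        have h2 : vd H (Z ⊓ Y') ≤ vd H Y' := vd_mono inf_le_right
        have h3 : vd H Y' ≤ vd H (⊥ : Submodule ℂ (L2 X)) := by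
          rw [hb]
          by_contra h4
          push Not at h4
          nlinarith
        rw [← eq_of_vd_le (H := H) md_bot hY'.md bot_le h3]

end top

section finite
variable {A X Q : Type} [Group A] [MulAction A X] [MulAction A Q]

lemma loc_tp (a : X →[A] Q) (q : Q) (t : ℝ) (Z : Submodule ℂ (L2 X)) : loc a q (tp t Z) = tp t (loc a q Z) := by
  unfold tp
  by_cases h0 : t ≤ 0
  · rw [if_pos h0, if_pos h0]
    exact Submodule.comap_top _
  · rw [if_neg h0, if_neg h0]
    by_cases h1 : t ≤ 1
    · rw [if_pos h1, if_pos h1]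
    · rw [if_neg h1, if_neg h1]
      exact kr_push (fi_inj a q)

lemma finite_of_fc {H X : Type} [Group H] [MulAction H X] [FC H X] [Finite H] : Finite X :=
  Finite.of_equiv _ (co H X).symm

theorem ssp_of_finite (C : Subgroup A) [Finite C] : SSP ⊤ A C := by
  intro X Q _ _ _ a q _ hC horb t Z Y hZ lZ hY lY hT
  subst hC
  have hfin : Finite (Fib a q) := finite_of_fc (H := MulAction.stabilizer A q)
  have hfib : ∀ x, {y | a y = a x}.Finite := by
    intro x
    obtain ⟨g, hg⟩ := horb x
    have hg' : a x = g • q := hg.symm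
    have h1 : Finite (Fib a (a x)) := Finite.of_equiv _ (fibE a g hg')
    exact Set.finite_coe_iff.1 h1
  have hZr : Rat ⊤ A Z := rat_of_fib hZ lZ hfib
  have hZq : Rat ⊤ (MulAction.stabilizer A q) (loc a q Z) :=
    rat_of_fs (hZ.loc q) fun x => Set.toFinite _
  have h1 : loc a q Y = loc a q (tp t Z) := by
    rw [loc_tp]
    exact hT.unique (isTop_tp t hZq)
  have hT2 := isTop_tp (K := ⊤) (H := A) t hZr
  have lT : Loc a (tp t Z) := by
    unfold tp
    by_cases h0 : t ≤ 0
    · rw [if_pos h0]
      exact fun _ _ _ => Submodule.mem_top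
    · rw [if_neg h0]
      by_cases h1 : t ≤ 1
      · rw [if_pos h1]
        exact lZ
      · rw [if_neg h1]
        intro q' f hf
        rw [(Submodule.mem_bot ℂ).1 hf, map_zero]
        exact Submodule.zero_mem _
  have h2 : Y = tp t Z :=
    le_antisymm (le_of_loc_le' horb hY lY hT2.mem.md h1.le) (le_of_loc_le' horb hT2.mem.md lT hY h1.ge)
  rw [h2]
  exact hT2

/-- finite subgroups, over the field of complex numbers -/
theorem ssp_finite {A : Type} [Group A] {n : ℕ} (_hn : 0 < n) (_hR : RanksIn ⊤ A n) (C : Subgroup A) [Finite C] :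
    SSP ⊤ A C := ssp_of_finite C

end finite

section trans
variable {K : Subfield ℂ} {A : Type} [Group A]

/-- the property is transitive -/
theorem ssp_trans (B C : Subgroup A) (hCB : C ≤ B) : SSP K A B → SSP K B (C.subgroupOf B) → SSP K A C := by
  classical
  intro h1 h2 X Q _ _ _ a q _ hC horb t Z Y hZ lZ hY lY hT
  subst hC
  obtain ⟨Q', _, q', hq'⟩ : ∃ (Q' : Type) (_ : MulAction A Q') (q' : Q'), MulAction.stabilizer A q' = B :=
    ⟨A ⧸ B, inferInstance, ((1 : A) : A ⧸ B), MulAction.stabilizer_quotient B⟩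
  subst hq'
  -- the map to the cosets of `B`
  let β : Q → Q' := fun r => if h : ∃ g : A, g • q = r then h.choose • q' else q'
  have hβ : ∀ g : A, β (g • q) = g • q' := by
    intro g
    have h3 : ∃ g' : A, g' • q = g • q := ⟨g, rfl⟩
    have h4 : β (g • q) = h3.choose • q' := dif_pos h3
    rw [h4]
    have h5 : h3.choose • q = g • q := h3.choose_spec
    have h6 : (g⁻¹ * h3.choose) • q = q := by
      rw [mul_smul, h5, inv_smul_smul]
    have h7 : (g⁻¹ * h3.choose) • q' = q' := hCB h6
    rw [mul_smul, inv_smul_eq_iff] at h7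
    exact h7
  have hβe : ∀ (g : A) (x : X), β (a (g • x)) = g • β (a x) := by
    intro g x
    obtain ⟨k, hk⟩ := horb x
    have hk' : a x = k • q := hk.symm
    rw [map_smul, hk', ← mul_smul, hβ, hβ, mul_smul]
  let b : X →[A] Q' := ⟨fun x => β (a x), hβe⟩
  have hb : ∀ x, b x = β (a x) := fun x => rfl
  have lb : ∀ W : Submodule ℂ (L2 X), Md A W → Loc a W → Loc b W := by
    intro W hW hl p f hf
    exact cu_mem_of_loc hW.cl hl {r | β r = p} hf
  have hob : ∀ x, b x ∈ MulAction.orbit A q' := by
    intro x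
    obtain ⟨k, hk⟩ := horb x
    have hk' : a x = k • q := hk.symm
    rw [hb, hk', hβ]
    exact ⟨k, rfl⟩
  refine h1 X Q' b q' rfl hob t Z Y hZ (lb Z hZ lZ) hY (lb Y hY lY) ?_
  -- the map on the fibre
  let aB : Fib b q' →[MulAction.stabilizer A q'] Q := ⟨fun x => a x.1, fun g x => map_smul a (g : A) x.1⟩
  have haB : ∀ x : Fib b q', aB x = a x.1 := fun x => rfl
  have hst : MulAction.stabilizer (MulAction.stabilizer A q') q =
      (MulAction.stabilizer A q).subgroupOf (MulAction.stabilizer A q') := by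
    ext g
    exact Iff.rfl
  have hoB : ∀ x, aB x ∈ MulAction.orbit (MulAction.stabilizer A q') q := by
    intro x
    obtain ⟨k, hk⟩ := horb x.1
    have hk' : a x.1 = k • q := hk.symm
    have h3 : b x.1 = q' := x.2
    rw [hb, hk', hβ] at h3
    exact ⟨⟨k, h3⟩, hk⟩
  have laB : ∀ W : Submodule ℂ (L2 X), Md A W → Loc a W → Loc aB (loc b q' W) := by
    intro W hW hl r f hf
    have h3 : cu {x | a x = r} (push (fi b q') (fi_inj b q') f) ∈ W := hl r _ hf
    rw [← push_cu] at h3
    exact h3
  refine h2 (Fib b q') Q aB q hst hoB t (loc b q' Z) (loc b q' Y) (hZ.loc q') (laB Z hZ lZ) (hY.loc q') (laB Y hY lY) ?_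
  -- transport
  have hAd : ∀ h : A, h ∈ MulAction.stabilizer A q → h ∈ MulAction.stabilizer A q' := fun h hh => hCB hh
  let α : MulAction.stabilizer A q ≃* MulAction.stabilizer (MulAction.stabilizer A q') q :=
    { toFun := fun h => ⟨⟨h.1, hAd h.1 h.2⟩, h.2⟩
      invFun := fun h => ⟨h.1.1, h.2⟩
      left_inv := fun _ => rfl
      right_inv := fun _ => rfl
      map_mul' := fun _ _ => rfl }
  have hqq : β q = q' := by
    have h3 := hβ 1
    rwa [one_smul, one_smul] at h3
  let e : Fib a q ≃ Fib aB q :=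
    { toFun := fun z => ⟨⟨z.1, (congrArg β z.2).trans hqq⟩, z.2⟩
      invFun := fun z => ⟨z.1.1, z.2⟩
      left_inv := fun _ => rfl
      right_inv := fun _ => rfl }
  have he : ∀ (h : MulAction.stabilizer A q) (z : Fib a q), e (h • z) = α h • e z := fun _ _ => rfl
  have hm : ∀ W : Submodule ℂ (L2 X), (loc a q W).map
      (push e e.injective : L2 (Fib a q) →ₗ[ℂ] L2 (Fib aB q)) = loc aB q (loc b q' W) := by
    intro W
    ext f
    rw [mem_map_push]
    have h3 : push (fi a q) (fi_inj a q) (pull e e.injective f) =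
        push (fi b q') (fi_inj b q') (push (fi aB q) (fi_inj aB q) f) := by
      conv_rhs => rw [← push_pull_equiv e f]
      rw [push_push, push_push]
      exact push_congr _ _ (fun _ => rfl) _
    show push (fi a q) (fi_inj a q) (pull e e.injective f) ∈ W ↔ _
    rw [h3]
    exact Iff.rfl
  have h3 := hT.equiv α e he (hZ.loc (a := a) q)
  rw [hm, hm] at h3
  exact h3

end trans

end ATY
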