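import Pool.Agent.ATY.E3e
import Pool.Agent.Singer.Gen.HalfTree

/-!
# Induction from the stabiliser of a vertex of a tree preserves the largest maxima
-/

set_option autoImplicit false

open scoped ComplexConjugate InnerProductSpace
open Filter Topology

namespace ATY
open Singer Pool.WeakAtiyah

section treeFacts
variable {G V : Type} [Group G] [MulAction G V] {T : SimpleGraph V}

/-- darts of a tree are the edges of a forest -/
lemma bit_of_tree (hT : T.IsTree) {X : Type} [MulAction G X] {δ : X →[G] V × V}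
    (hadj : ∀ x, T.Adj (δ x).1 (δ x).2) : Bit δ (tailHom G V) (edgeHom G V) := by
  intro x₀
  have h0 := hadj x₀
  refine ⟨HT.half T (δ x₀).1 (δ x₀).2, {e | e ≠ ue (δ x₀).1 (δ x₀).2 ∧ ∃ u ∈ (show Sym2 V from e),
    u ∈ HT.half T (δ x₀).1 (δ x₀).2}, HT.mem_half_self _ _, fun h => h.1 rfl, fun x hx => ?_⟩
  have h1 := hadj x
  show (δ x).1 ∈ _ ↔ ue (δ x).1 (δ x).2 ∈ _
  by_cases hc : ue (δ x).1 (δ x).2 = ue (δ x₀).1 (δ x₀).2
  · have h2 : (δ x).1 ∉ HT.half T (δ x₀).1 (δ x₀).2 := by
      have hc' : s((δ x).1, (δ x).2) = s((δ x₀).1, (δ x₀).2) := hc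
      rw [Sym2.eq_iff] at hc'
      rcases hc' with h3 | h3
      · exact absurd (Prod.ext h3.1 h3.2) hx
      · rw [h3.1]
        exact HT.notMem_half hT h0
    exact ⟨fun h => absurd h h2, fun h => absurd hc h.1⟩
  · have h2 : (δ x).1 ∈ HT.half T (δ x₀).1 (δ x₀).2 ↔ (δ x).2 ∈ HT.half T (δ x₀).1 (δ x₀).2 :=
      HT.half_step h1 hc
    constructor
    · intro h
      exact ⟨hc, (δ x).1, Sym2.mem_mk_left _ _, h⟩
    · rintro ⟨_, u, hu, h3⟩
      rcases Sym2.mem_iff.1 hu with h4 | h4
      · rwa [← h4]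
      · rw [h4] at h3
        exact h2.2 h3

lemma stab_edge (hI : ∀ (g : G) (v w : V), T.Adj v w → g • v = w → g • w ≠ v) {d : V × V} (hd : T.Adj d.1 d.2) :
    MulAction.stabilizer G (edgeHom G V d) = MulAction.stabilizer G d := by
  ext g
  rw [MulAction.mem_stabilizer_iff, MulAction.mem_stabilizer_iff]
  constructor
  · intro h
    have h1 : s(g • d.1, g • d.2) = s(d.1, d.2) := h
    rw [Sym2.eq_iff] at h1
    rcases h1 with h2 | h2
    · exact Prod.ext h2.1 h2.2
    · exact absurd h2.2 (hI g d.1 d.2 hd h2.1)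
  · intro h
    rw [← map_smul, h]

lemma dst_tail (d : V × V) : dst (tailHom G V) d =
    (MulAction.stabilizer G d.2).subgroupOf (MulAction.stabilizer G d.1) := by
  ext g
  show (g : G) ∈ MulAction.stabilizer G d ↔ (g : G) ∈ MulAction.stabilizer G d.2
  rw [MulAction.mem_stabilizer_iff, MulAction.mem_stabilizer_iff]
  constructor
  · intro h
    exact congrArg Prod.snd h
  · intro h
    exact Prod.ext g.2 h

lemma dst_edge (hI : ∀ (g : G) (v w : V), T.Adj v w → g • v = w → g • w ≠ v) {d : V × V} (hd : T.Adj d.1 d.2) :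
    dst (edgeHom G V) d = ⊤ := by
  ext g
  show (g : G) ∈ MulAction.stabilizer G d ↔ g ∈ (⊤ : Subgroup _)
  rw [← stab_edge hI hd]
  exact ⟨fun _ => trivial, fun _ => g.2⟩

lemma ranks_edge {K : Subfield ℂ} {n : ℕ} (hI : ∀ (g : G) (v w : V), T.Adj v w → g • v = w → g • w ≠ v)
    (hR : ∀ v : V, RanksIn K (MulAction.stabilizer G v) n) {d : V × V} (hd : T.Adj d.1 d.2) :
    RanksIn K (MulAction.stabilizer G (edgeHom G V d)) n := by
  have hle : MulAction.stabilizer G (edgeHom G V d) ≤ MulAction.stabilizer G d.1 := by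
    rw [stab_edge hI hd]
    intro g hg
    exact congrArg Prod.fst hg
  exact ranksIn_of_injective (Subgroup.inclusion hle) (Subgroup.inclusion_injective hle) (hR d.1)

end treeFacts

section main
variable {K : Subfield ℂ} {n : ℕ} {G V : Type} [Group G] [MulAction G V] {T : SimpleGraph V}

/-- **induction from the stabiliser of a vertex of a tree preserves the largest maxima** -/
theorem ssp_vertex (hn : 0 < n) (hT : T.IsTree) (hA : ∀ (g : G) (v w : V), T.Adj v w → T.Adj (g • v) (g • w))
    (hI : ∀ (g : G) (v w : V), T.Adj v w → g • v = w → g • w ≠ v)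
    (hS : ∀ v w : V, T.Adj v w → SSP K (MulAction.stabilizer G v)
      ((MulAction.stabilizer G w).subgroupOf (MulAction.stabilizer G v)))
    (hR : ∀ v : V, RanksIn K (MulAction.stabilizer G v) n) (v : V) : SSP K G (MulAction.stabilizer G v) := by
  classical
  by_cases hw : ∃ w, T.Adj v w
  swap
  · have h1 : ∀ u : V, u = v := by
      intro u
      obtain ⟨p⟩ := hT.connected.preconnected v u
      cases p with
      | nil => rfl
      | cons h _ => exact absurd ⟨_, h⟩ hw
    have h2 : MulAction.stabilizer G v = ⊤ := by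
      ext g
      exact ⟨fun _ => trivial, fun _ => h1 _⟩
    have hRG : RanksIn K G n := by
      have h3 : ∀ g : G, g ∈ MulAction.stabilizer G v := fun g => h1 _
      let f : G →* MulAction.stabilizer G v :=
        { toFun := fun g => ⟨g, h3 g⟩
          map_one' := rfl
          map_mul' := fun _ _ => rfl }
      exact ranksIn_of_injective f (fun g g' h => congrArg Subtype.val h) (hR v)
    rw [h2]
    exact ssp_of_finiteIndex hn hRG ⊤
  obtain ⟨w, h0⟩ := hw
  intro X Q _ _ _ a q _ hC ho t Z Y hZ lZ hY lY h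
  choose c hc using ho
  have hc' : ∀ x, c x • q = a x := hc
  have hkey : ∀ g g' : G, g • q = g' • q → g • v = g' • v := by
    intro g g' h1
    have h2 : g'⁻¹ * g ∈ MulAction.stabilizer G q := by
      rw [MulAction.mem_stabilizer_iff, mul_smul, h1, inv_smul_smul]
    rw [hC, MulAction.mem_stabilizer_iff, mul_smul] at h2
    exact inv_smul_eq_iff.1 h2
  have hkey' : ∀ g g' : G, g • v = g' • v → g • q = g' • q := by
    intro g g' h1
    have h2 : g'⁻¹ * g ∈ MulAction.stabilizer G v := by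
      rw [MulAction.mem_stabilizer_iff, mul_smul, h1, inv_smul_smul]
    rw [← hC, MulAction.mem_stabilizer_iff, mul_smul] at h2
    exact inv_smul_eq_iff.1 h2
  let a' : X →[G] V := ⟨fun x => c x • v, fun g x => by
    show c (g • x) • v = g • c x • v
    rw [smul_smul]
    refine hkey _ _ ?_
    rw [hc', map_smul, mul_smul, hc']⟩
  have ha' : ∀ x, a' x = c x • v := fun _ => rfl
  have hiff : ∀ (x : X) (g : G), a x = g • q ↔ a' x = g • v := by
    intro x g
    rw [← hc', ha']
    exact ⟨hkey _ _, hkey' _ _⟩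
  have hiff1 : ∀ x : X, a x = q ↔ a' x = v := by
    intro x
    have h1 := hiff x 1
    rwa [one_smul, one_smul] at h1
  have ho' : ∀ x, a' x ∈ MulAction.orbit G v := fun x => ⟨c x, rfl⟩
  have hloc' : ∀ W : Submodule ℂ (L2 X), Loc a W → Loc a' W := by
    intro W lW u f hf
    by_cases hu : ∃ x, a' x = u
    · obtain ⟨x, rfl⟩ := hu
      have h1 : {y | a' y = a' x} = {y | a y = a x} := by
        ext y
        show a' y = a' x ↔ a y = a x
        rw [ha' x, ← hiff y (c x), hc']
      rw [h1]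
      exact lW _ f hf
    · have h1 : cu {y | a' y = u} f = 0 := by
        ext y
        rw [cu_apply, if_neg]
        · rfl
        · exact fun h => hu ⟨y, h⟩
      rw [h1]
      exact W.zero_mem
  -- transport of the maxima
  let α : MulAction.stabilizer G q ≃* MulAction.stabilizer G v := MulEquiv.subgroupCongr hC
  let e : Fib a q ≃ Fib a' v :=
    { toFun := fun x => ⟨x.1, (hiff1 x.1).1 x.2⟩
      invFun := fun x => ⟨x.1, (hiff1 x.1).2 x.2⟩
      left_inv := fun _ => rfl
      right_inv := fun _ => rfl }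
  have he : ∀ (g : MulAction.stabilizer G q) (x : Fib a q), e (g • x) = α g • e x := fun _ _ => rfl
  have hm : ∀ W : Submodule ℂ (L2 X), (loc a q W).map (push e e.injective : L2 (Fib a q) →ₗ[ℂ] L2 (Fib a' v)) =
      loc a' v W := by
    intro W
    ext f
    rw [mem_map_push]
    have h1 : push (fi a q) (fi_inj a q) (pull e e.injective f) = push (fi a' v) (fi_inj a' v) f := by
      conv_rhs => rw [← push_pull_equiv e f]
      rw [push_push]
      exact push_congr _ _ (fun _ => rfl) _
    show push (fi a q) (fi_inj a q) (pull e e.injective f) ∈ W ↔ _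
    rw [h1]
    exact Iff.rfl
  have htop : ∀ (s : ℝ) (W : Submodule ℂ (L2 X)), Md G W →
      IsTop (MulAction.stabilizer G q) (Rat K (MulAction.stabilizer G q)) s (loc a q Z) (loc a q W) →
      ∀ x : X, IsTop (MulAction.stabilizer G (a' x)) (Rat K (MulAction.stabilizer G (a' x))) s
        (loc a' (a' x) Z) (loc a' (a' x) W) := by
    intro s W hW h1 x
    have h2 := h1.equiv α e he (hZ.loc (a := a) q)
    rw [hm, hm] at h2
    have h3 := h2.equiv (MulAction.stabilizerEquivStabilizer (ha' x)) (fibE a' (c x) (ha' x))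
      (fibE_smul a' (c x) (ha' x)) (hZ.loc (a := a') v)
    rw [map_fibE a' (c x) (ha' x) hZ, map_fibE a' (c x) (ha' x) hW] at h3
    exact h3
  have hRq : RanksIn K (MulAction.stabilizer G q) n := hC.symm ▸ hR v
  refine isTop_of_avg hn (fun x => ⟨c x, hc x⟩) hRq hZ lZ (fun W hW => ?_) hY lY h
  obtain ⟨k, b, S, hSo, rfl⟩ := hW
  obtain ⟨m, δ, L, M₁, hadj, hL, hM₁, lL, lM₁, qL, qM₁, hcmp⟩ := exists_system hT hA h0 ho' hSo
  refine ⟨rk G (Fr G (Fin m)), fun N hN Yf hYf => ?_⟩
  have hN' : (0 : ℝ) < N := by exact_mod_cast hN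
  have hmain := bit_avg hn (bit_of_tree hT hadj) (fun x => hR _) (fun x => ranks_edge hI hR (hadj x))
    (fun x => by rw [dst_tail]; exact hS _ _ (hadj x))
    (fun x => by rw [dst_edge hI (hadj x)]; exact ssp_of_finiteIndex hn (ranks_edge hI hR (hadj x)) ⊤)
    a' (fun x => hR _) hL hM₁ lL lM₁ (fun x => qL _) (fun x => qM₁ _) hZ (hloc' Z lZ) hN
    (Y := Yf) (fun i hi => (hYf i hi).1) (fun i hi => hloc' _ (hYf i hi).2.1)
    (fun i hi => htop _ _ (hYf i hi).1 (hYf i hi).2.2)
  have hvd : ∀ Z' : Submodule ℂ (L2 X), Md G Z' → vd G (im (pull Sum.inl Sum.inl_injective) (kr S) ⊓ Z') =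
      vd G (L ⊓ sm M₁ Z') - vd G (kr S ⊓ kr (pl X (Fr G (Fin k)))) := by
    intro Z' hZ'
    rw [hcmp Z' hZ']
    exact vd_rat_inf hSo hZ'
  rw [hvd Z hZ]
  have hsum : ∑ i ∈ Finset.range N, vd G (im (pull Sum.inl Sum.inl_injective) (kr S) ⊓ Yf i) =
      ∑ i ∈ Finset.range N, vd G (L ⊓ sm M₁ (Yf i)) - N * vd G (kr S ⊓ kr (pl X (Fr G (Fin k)))) := by
    rw [Finset.sum_congr rfl fun i hi => hvd (Yf i) (hYf i (Finset.mem_range.1 hi).le).1, Finset.sum_sub_distrib,
      Finset.sum_const, Finset.card_range, nsmul_eq_mul]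
  rw [hsum, sub_div, mul_div_cancel_left₀ _ hN'.ne']
  linarith

end main

end ATY
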