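import Mathlib

/-!
# Finitely generated subgroups of free groups and subtrees of the Cayley tree

* `lerf`: finitely generated subgroups of free groups are separable (M. Hall);
* `wordGraph_isTree`: the tree of reduced words;
* `exists_cayley`: a free group acts freely and without inversions on a tree;
* `exists_choice`: for a finitely generated subgroup `C` of a free group `A` there are a subgroup `L` of finite index
  containing `C` and an `L`-invariant partition of the Cayley tree of `A` into connected classes such that `C` is the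
  stabiliser in `L` of one class, and the classes which are not in its orbit have trivial stabilisers.
-/

set_option autoImplicit false

namespace ATY

/-! ### Separability -/

section lerf
variable {X : Type*}

/-- Marshall Hall's theorem -/
theorem lerf (C : Subgroup (FreeGroup X)) (hC : C.FG) (S : Set (FreeGroup X)) (hS : S.Finite) :
    ∃ L : Subgroup (FreeGroup X), L.FiniteIndex ∧ C ≤ L ∧ ∀ g ∈ S, g ∈ L → g ∈ C := by
  classical
  obtain ⟨G, hG⟩ := hC
  -- the words
  let W : Set (List (X × Bool)) := FreeGroup.toWord '' ((G : Set (FreeGroup X)) ∪ S)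
  have hW : W.Finite := ((G.finite_toSet).union hS).image _
  let o : FreeGroup X ⧸ C := ((1 : FreeGroup X) : FreeGroup X ⧸ C)
  let Y : Set (FreeGroup X ⧸ C) := {o} ∪ ⋃ w ∈ W, (fun u => FreeGroup.mk u • o) '' {u | u <:+ w}
  have hY : Y.Finite := by
    refine (Set.finite_singleton o).union (hW.biUnion ?_)
    intro w _
    refine Set.Finite.image _ ?_
    have : {u | u <:+ w} = {u | u ∈ w.tails} := by
      ext u
      simp [List.mem_tails]
    rw [this]
    exact List.finite_toSet _
  have hoY : o ∈ Y := Or.inl rfl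
  let hYf : Fintype Y := hY.fintype
  let y₀ : Y := ⟨o, hoY⟩
  -- extension of the partial permutations
  have hσ : ∀ x : X, ∃ σ : Equiv.Perm Y, ∀ y : Y, ∀ h : FreeGroup.of x • (y : FreeGroup X ⧸ C) ∈ Y,
      σ y = ⟨FreeGroup.of x • (y : FreeGroup X ⧸ C), h⟩ := by
    intro x
    let e : {y : Y // FreeGroup.of x • (y : FreeGroup X ⧸ C) ∈ Y} ≃ {y : Y // (FreeGroup.of x)⁻¹ • (y : FreeGroup X ⧸ C) ∈ Y} :=
      { toFun := fun y => ⟨⟨FreeGroup.of x • (y.1 : FreeGroup X ⧸ C), y.2⟩, by
          show (FreeGroup.of x)⁻¹ • FreeGroup.of x • (y.1 : FreeGroup X ⧸ C) ∈ Y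
          rw [inv_smul_smul]
          exact y.1.2⟩
        invFun := fun y => ⟨⟨(FreeGroup.of x)⁻¹ • (y.1 : FreeGroup X ⧸ C), y.2⟩, by
          show FreeGroup.of x • (FreeGroup.of x)⁻¹ • (y.1 : FreeGroup X ⧸ C) ∈ Y
          rw [smul_inv_smul]
          exact y.1.2⟩
        left_inv := fun y => by
          apply Subtype.ext
          apply Subtype.ext
          exact inv_smul_smul _ _
        right_inv := fun y => by
          apply Subtype.ext
          apply Subtype.ext
          exact smul_inv_smul _ _ }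
    refine ⟨e.extendSubtype, fun y h => ?_⟩
    rw [Equiv.extendSubtype_apply_of_mem e y h]
    rfl
  choose σ hσ using hσ
  have hσ' : ∀ (x : X) (y : Y) (h : (FreeGroup.of x)⁻¹ • (y : FreeGroup X ⧸ C) ∈ Y),
      (σ x)⁻¹ y = ⟨(FreeGroup.of x)⁻¹ • (y : FreeGroup X ⧸ C), h⟩ := by
    intro x y h
    rw [Equiv.Perm.inv_eq_iff_eq]
    have h1 : FreeGroup.of x • ((FreeGroup.of x)⁻¹ • (y : FreeGroup X ⧸ C)) ∈ Y := by
      rw [smul_inv_smul]
      exact y.2
    rw [hσ x ⟨(FreeGroup.of x)⁻¹ • (y : FreeGroup X ⧸ C), h⟩ h1]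
    apply Subtype.ext
    exact (smul_inv_smul _ _).symm
  let φ : FreeGroup X →* Equiv.Perm Y := FreeGroup.lift σ
  -- the words act as they should
  have hkey : ∀ w ∈ W, ∀ u : List (X × Bool), u <:+ w → ((φ (FreeGroup.mk u) y₀ : Y) : FreeGroup X ⧸ C) = FreeGroup.mk u • o := by
    intro w hw u
    induction u with
    | nil =>
      intro _
      have h1 : (FreeGroup.mk ([] : List (X × Bool))) = 1 := FreeGroup.one_eq_mk.symm
      rw [h1, map_one, one_smul]
      rfl
    | cons p u ih =>
      intro hu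
      have hu' : u <:+ w := (List.suffix_cons p u).trans hu
      have ih' := ih hu'
      have hmem : ∀ v : List (X × Bool), v <:+ w → FreeGroup.mk v • o ∈ Y := by
        intro v hv
        right
        exact Set.mem_biUnion hw ⟨v, hv, rfl⟩
      have hm : FreeGroup.mk (p :: u) = FreeGroup.mk [p] * FreeGroup.mk u := by
        rw [FreeGroup.mul_mk]
        rfl
      have h2 := hmem _ hu
      rw [hm, mul_smul] at h2
      rw [hm, map_mul, mul_smul]
      show ((φ (FreeGroup.mk [p]) (φ (FreeGroup.mk u) y₀) : Y) : FreeGroup X ⧸ C) = _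
      obtain ⟨x, b⟩ := p
      cases b with
      | true =>
        have h3 : FreeGroup.mk [(x, true)] = FreeGroup.of x := rfl
        rw [h3] at h2 ⊢
        have h4 : φ (FreeGroup.of x) = σ x := FreeGroup.lift_apply_of
        rw [h4]
        rw [← ih'] at h2 ⊢
        rw [hσ x _ h2]
      | false =>
        have h3 : FreeGroup.mk [(x, false)] = (FreeGroup.of x)⁻¹ := rfl
        rw [h3] at h2 ⊢
        have h4 : φ (FreeGroup.of x)⁻¹ = (σ x)⁻¹ := by
          rw [map_inv]
          exact congrArg _ FreeGroup.lift_apply_of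
        rw [h4]
        rw [← ih'] at h2 ⊢
        rw [hσ' x _ h2]
  have hkey' : ∀ g ∈ (G : Set (FreeGroup X)) ∪ S, ((φ g y₀ : Y) : FreeGroup X ⧸ C) = g • o := by
    intro g hg
    have h1 := hkey g.toWord ⟨g, hg, rfl⟩ g.toWord List.suffix_rfl
    rwa [FreeGroup.mk_toWord] at h1
  have hst : ∀ g : FreeGroup X, g • o = o ↔ g ∈ C := by
    intro g
    show ((g * 1 : FreeGroup X) : FreeGroup X ⧸ C) = ((1 : FreeGroup X) : FreeGroup X ⧸ C) ↔ g ∈ C
    rw [mul_one, eq_comm, QuotientGroup.eq, inv_one, one_mul]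
  refine ⟨(MulAction.stabilizer (Equiv.Perm Y) y₀).comap φ, ⟨?_⟩, ?_, ?_⟩
  · rw [Subgroup.index_comap]
    have h1 : (MulAction.stabilizer (Equiv.Perm Y) y₀).IsFiniteRelIndex φ.range :=
      Subgroup.isFiniteRelIndex_of_finiteIndex
    exact Subgroup.relIndex_ne_zero
  · refine hG.symm.le.trans ((Subgroup.closure_le _).2 ?_)
    intro g hg
    show φ g • y₀ = y₀
    apply Subtype.ext
    show ((φ g y₀ : Y) : FreeGroup X ⧸ C) = o
    rw [hkey' g (Or.inl hg), hst, ← hG]
    exact Subgroup.subset_closure hg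
  · intro g hg hL
    have h1 : φ g y₀ = y₀ := hL
    have h2 := hkey' g (Or.inr hg)
    rw [h1] at h2
    rw [← hst, ← h2]

end lerf

/-! ### Trees of words -/

section words
variable {V α : Type*}

/-- the graph of a set of words: add or remove the first letter -/
def wordGraph (wd : V → List α) : SimpleGraph V where
  Adj v w := (∃ a, wd w = a :: wd v) ∨ ∃ a, wd v = a :: wd w
  symm := ⟨fun _ _ h => h.symm⟩
  loopless := ⟨fun v h => by
    have : ∀ a, wd v ≠ a :: wd v := by
      intro a h
      have := congrArg List.length h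
      simp at this
    rcases h with ⟨a, h⟩ | ⟨a, h⟩
    · exact this a h
    · exact this a h⟩

theorem wordGraph_isTree (wd : V → List α) (hinj : Function.Injective wd) (o : V) (ho : wd o = [])
    (htail : ∀ (v : V) (a : α) (l : List α), wd v = a :: l → ∃ w, wd w = l) : (wordGraph wd).IsTree := by
  classical
  have : Nonempty V := ⟨o⟩
  refine ⟨⟨?_⟩, ?_⟩
  · have h1 : ∀ (l : List α) (v : V), wd v = l → (wordGraph wd).Reachable v o := by
      intro l
      induction l with
      | nil =>
        intro v hv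
        have : v = o := hinj (hv.trans ho.symm)
        rw [this]
      | cons a l ih =>
        intro v hv
        obtain ⟨w, hw⟩ := htail v a l hv
        have h2 : (wordGraph wd).Adj v w := Or.inr ⟨a, by rw [hv, hw]⟩
        exact h2.reachable.trans (ih w hw)
    intro v w
    exact (h1 _ v rfl).trans (h1 _ w rfl).symm
  · rw [SimpleGraph.isAcyclic_iff_forall_adj_isBridge]
    -- the oriented case
    have h1 : ∀ v w : V, (∃ a, wd w = a :: wd v) → (wordGraph wd).IsBridge s(v, w) := by
      rintro v w ⟨a, ha⟩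
      rw [SimpleGraph.isBridge_iff]
      intro hr
      have h2 : ∀ x y : V, ((wordGraph wd).deleteEdges {s(v, w)}).Reachable x y →
          (wd w <:+ wd x ↔ wd w <:+ wd y) := by
        rintro x y ⟨p⟩
        induction p with
        | nil => exact Iff.rfl
        | @cons x y z hxy p ih =>
          refine Iff.trans ?_ ih
          rw [SimpleGraph.deleteEdges_adj] at hxy
          obtain ⟨hadj, hne⟩ := hxy
          have h3 : ∀ x y : V, (∃ b, wd y = b :: wd x) → s(x, y) ≠ s(v, w) → (wd w <:+ wd x ↔ wd w <:+ wd y) := by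
            rintro x y ⟨b, hb⟩ hne
            constructor
            · intro h
              rw [hb]
              exact h.trans (List.suffix_cons b _)
            · intro h
              rw [hb, List.suffix_cons_iff] at h
              rcases h with h | h
              · exfalso
                apply hne
                have h4 : w = y := hinj (by rw [h, hb])
                subst h4
                rw [ha] at hb
                have h5 : v = x := hinj (List.cons_injective.eq_iff.1 (by
                  have := (List.cons.inj hb).2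
                  rw [this] : a :: wd v = a :: wd x))
                rw [h5]
              · exact h
          have hne' : s(x, y) ≠ s(v, w) := hne
          rcases hadj with h | h
          · exact h3 x y h hne'
          · rw [Sym2.eq_swap] at hne'
            exact (h3 y x h hne').symm
      have h3 := (h2 v w hr).2 List.suffix_rfl
      have h4 := h3.length_le
      rw [ha] at h4
      simp at h4
    intro v w hvw
    rcases hvw with h | h
    · exact h1 v w h
    · rw [Sym2.eq_swap]
      exact h1 w v h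

end words

section cayley
variable {X : Type*} [DecidableEq X]

theorem cayley_adj (v w : FreeGroup X) :
    (wordGraph (FreeGroup.toWord : FreeGroup X → List (X × Bool))).Adj v w ↔ ∃ p : X × Bool, w = FreeGroup.mk [p] * v := by
  constructor
  · rintro (⟨a, ha⟩ | ⟨a, ha⟩)
    · refine ⟨a, ?_⟩
      rw [← FreeGroup.mk_toWord (x := w), ha]
      conv_rhs => rw [← FreeGroup.mk_toWord (x := v), FreeGroup.mul_mk]
      rfl
    · refine ⟨(a.1, !a.2), ?_⟩
      have h1 : v = FreeGroup.mk [a] * w := by
        rw [← FreeGroup.mk_toWord (x := v), ha]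
        conv_rhs => rw [← FreeGroup.mk_toWord (x := w), FreeGroup.mul_mk]
        rfl
      rw [h1, ← mul_assoc]
      have h2 : FreeGroup.mk [(a.1, !a.2)] = (FreeGroup.mk [a])⁻¹ := by
        rw [FreeGroup.inv_mk]
        rfl
      rw [h2, inv_mul_cancel, one_mul]
  · rintro ⟨p, rfl⟩
    have h1 : (FreeGroup.mk [p] * v).toWord = FreeGroup.reduce (p :: v.toWord) := by
      rw [← FreeGroup.mk_toWord (x := v), FreeGroup.mul_mk, FreeGroup.toWord_mk, FreeGroup.mk_toWord]
      rfl
    show (∃ a, (FreeGroup.mk [p] * v).toWord = a :: v.toWord) ∨ ∃ a, v.toWord = a :: (FreeGroup.mk [p] * v).toWord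
    rw [h1, FreeGroup.reduce.cons, FreeGroup.reduce_toWord]
    cases hv : v.toWord with
    | nil => left; exact ⟨p, rfl⟩
    | cons hd tl =>
      by_cases hc : p.1 = hd.1 ∧ p.2 = !hd.2
      · right
        refine ⟨hd, ?_⟩
        simp only [hc, and_self, if_true]
      · left
        refine ⟨p, ?_⟩
        simp only [hc, if_false]

theorem cayley_isTree : (wordGraph (FreeGroup.toWord : FreeGroup X → List (X × Bool))).IsTree := by
  refine wordGraph_isTree _ FreeGroup.toWord_injective 1 FreeGroup.toWord_one ?_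
  intro v a l hv
  refine ⟨FreeGroup.mk l, ?_⟩
  rw [FreeGroup.toWord_mk]
  have h1 := FreeGroup.reduce_toWord v
  rw [hv, FreeGroup.reduce.cons] at h1
  cases hl : FreeGroup.reduce l with
  | nil =>
    rw [hl] at h1
    have h2 : [a] = a :: l := h1
    exact (List.cons.inj h2).2
  | cons hd tl =>
    rw [hl] at h1
    by_cases hc : a.1 = hd.1 ∧ a.2 = !hd.2
    · exfalso
      simp only [hc, and_self, if_true] at h1
      have h3 : (FreeGroup.reduce l).length ≤ l.length := by
        have := (FreeGroup.reduce.red (L := l)).length_le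
        exact this
      rw [hl, h1] at h3
      simp at h3
    · simp only [hc, if_false] at h1
      exact (List.cons.inj h1).2

end cayley

/-! ### Invariant partitions of trees -/

section choice
variable {A V : Type*} [Group A] [MulAction A V] {T : SimpleGraph V}

/-- there is a walk inside the set `S` -/
def WIn (T : SimpleGraph V) (S : Set V) (v w : V) : Prop := ∃ p : T.Walk v w, ∀ z ∈ p.support, z ∈ S

theorem WIn.refl {S : Set V} {v : V} (hv : v ∈ S) : WIn T S v v :=
  ⟨SimpleGraph.Walk.nil, by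
    intro z hz
    rw [SimpleGraph.Walk.support_nil, List.mem_singleton] at hz
    rw [hz]
    exact hv⟩

theorem WIn.symm {S : Set V} {v w : V} (h : WIn T S v w) : WIn T S w v := by
  obtain ⟨p, hp⟩ := h
  refine ⟨p.reverse, ?_⟩
  intro z hz
  rw [SimpleGraph.Walk.support_reverse, List.mem_reverse] at hz
  exact hp z hz

theorem WIn.trans {S : Set V} {u v w : V} (h : WIn T S u v) (h' : WIn T S v w) : WIn T S u w := by
  obtain ⟨p, hp⟩ := h
  obtain ⟨q, hq⟩ := h'
  refine ⟨p.append q, ?_⟩
  intro z hz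
  rw [SimpleGraph.Walk.mem_support_append_iff] at hz
  rcases hz with hz | hz
  · exact hp z hz
  · exact hq z hz

theorem WIn.mono {S S' : Set V} (hS : S ⊆ S') {v w : V} (h : WIn T S v w) : WIn T S' v w := by
  obtain ⟨p, hp⟩ := h
  exact ⟨p, fun z hz => hS (hp z hz)⟩

theorem WIn.smul (hA : ∀ (g : A) (v w : V), T.Adj v w → T.Adj (g • v) (g • w)) {S : Set V} {v w : V} (h : WIn T S v w)
    (g : A) : WIn T {z | g⁻¹ • z ∈ S} (g • v) (g • w) := by
  obtain ⟨p, hp⟩ := h
  let f : T →g T := ⟨fun v => g • v, fun {v w} h => hA g v w h⟩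
  refine ⟨p.map f, ?_⟩
  intro z hz
  rw [SimpleGraph.Walk.support_map, List.mem_map] at hz
  obtain ⟨y, hy, rfl⟩ := hz
  show g⁻¹ • g • y ∈ S
  rw [inv_smul_smul]
  exact hp y hy

theorem choice_abs (hT : T.Connected) (hA : ∀ (g : A) (v w : V), T.Adj v w → T.Adj (g • v) (g • w))
    (hfree : ∀ (g : A) (v : V), g • v = v → g = 1) (o : V) (C : Subgroup A) (hC : C.FG)
    (hL : ∀ F : Set A, F.Finite → ∃ L : Subgroup A, L.FiniteIndex ∧ C ≤ L ∧ ∀ g ∈ F, g ∈ L → g ∈ C) :
    ∃ (L : Subgroup A) (s : Setoid V), L.FiniteIndex ∧ C ≤ L ∧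
      (∀ g ∈ L, ∀ v w : V, s v w → s (g • v) (g • w)) ∧
      (∀ v w : V, s v w → ∃ p : T.Walk v w, ∀ z ∈ p.support, s v z) ∧
      (∀ g ∈ L, s (g • o) o ↔ g ∈ C) ∧
      (∀ v : V, (∀ g ∈ L, s (g • v) v → g = 1) ∨ ∃ h ∈ L, s (h • o) v) := by
  classical
  obtain ⟨G, hG⟩ := hC
  have hw : ∀ c : A, ∃ p : T.Walk o (c • o), True := fun c => by
    obtain ⟨p⟩ := hT.preconnected o (c • o)
    exact ⟨p, trivial⟩
  choose p _ using hw
  -- the finite connected set
  let S : Set V := {o} ∪ ⋃ c ∈ (G : Set A), {z | z ∈ (p c).support}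
  have hSf : S.Finite := (Set.finite_singleton o).union (G.finite_toSet.biUnion (fun c _ => List.finite_toSet _))
  have hoS : o ∈ S := Or.inl rfl
  have hSc : ∀ s ∈ S, WIn T S o s := by
    intro s hs
    rcases hs with hs | hs
    · rw [Set.mem_singleton_iff] at hs
      rw [hs]
      exact WIn.refl hoS
    · simp only [Set.mem_iUnion] at hs
      obtain ⟨c, hc, hs⟩ := hs
      refine ⟨(p c).takeUntil s hs, ?_⟩
      intro z hz
      right
      exact Set.mem_biUnion hc ((p c).support_takeUntil_subset_support hs hz)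
  have hSG : ∀ c ∈ (G : Set A), c • o ∈ S := by
    intro c hc
    right
    exact Set.mem_biUnion hc (p c).end_mem_support
  -- the invariant subtree
  let U : Set V := {v | ∃ c ∈ C, ∃ s ∈ S, v = c • s}
  have hSU : S ⊆ U := fun s hs => ⟨1, C.one_mem, s, hs, (one_smul A s).symm⟩
  have hoU : o ∈ U := hSU hoS
  have hCU : ∀ c ∈ C, ∀ v ∈ U, c • v ∈ U := by
    rintro c hc v ⟨c', hc', s, hs, rfl⟩
    exact ⟨c * c', C.mul_mem hc hc', s, hs, (mul_smul c c' s).symm⟩
  have hWU : ∀ c ∈ C, ∀ v w : V, WIn T U v w → WIn T U (c • v) (c • w) := by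
    intro c hc v w h
    refine (h.smul hA c).mono ?_
    intro z hz
    have h1 := hCU c hc _ hz
    rwa [smul_inv_smul] at h1
  have hUc0 : ∀ c ∈ C, WIn T U o (c • o) := by
    intro c hc
    rw [← hG] at hc
    induction hc using Subgroup.closure_induction with
    | mem c hc => exact (hSc _ (hSG c hc)).mono hSU
    | one =>
      rw [one_smul]
      exact WIn.refl hoU
    | mul a b ha hb iha ihb =>
      rw [hG] at ha
      rw [mul_smul]
      exact iha.trans (hWU a ha _ _ ihb)
    | inv a ha iha =>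
      rw [hG] at ha
      have h1 := hWU a⁻¹ (C.inv_mem ha) _ _ iha
      rw [inv_smul_smul] at h1
      exact h1.symm
  have hUc : ∀ v ∈ U, WIn T U o v := by
    rintro v ⟨c, hc, s, hs, rfl⟩
    exact (hUc0 c hc).trans (hWU c hc _ _ ((hSc s hs).mono hSU))
  -- the subgroup
  let F : Set A := {g | ∃ s ∈ S, ∃ s' ∈ S, g • s = s'}
  have hF : F.Finite := by
    have h1 : F ⊆ ⋃ s ∈ S, ⋃ s' ∈ S, {g : A | g • s = s'} := by
      rintro g ⟨s, hs, s', hs', h⟩
      exact Set.mem_biUnion hs (Set.mem_biUnion hs' h)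
    refine Set.Finite.subset (hSf.biUnion fun s _ => hSf.biUnion fun s' _ => ?_) h1
    apply Set.Subsingleton.finite
    intro g hg g' hg'
    have h2 : (g'⁻¹ * g) • s = s := by
      rw [mul_smul, show g • s = s' from hg, ← show g' • s = s' from hg', inv_smul_smul]
    exact (inv_mul_eq_one.1 (hfree _ _ h2)).symm
  obtain ⟨L, hLf, hCL, hLF⟩ := hL F hF
  have key : ∀ l ∈ L, ∀ v ∈ U, l • v ∈ U → l ∈ C := by
    rintro l hl v ⟨c, hc, s, hs, rfl⟩ ⟨c', hc', s', hs', h⟩
    have h1 : (c'⁻¹ * l * c) • s = s' := by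
      rw [mul_smul, mul_smul, h, inv_smul_smul]
    have h2 : c'⁻¹ * l * c ∈ C :=
      hLF _ ⟨s, hs, s', hs', h1⟩ (L.mul_mem (L.mul_mem (L.inv_mem (hCL hc')) hl) (hCL hc))
    have h3 : l = c' * (c'⁻¹ * l * c) * c⁻¹ := by group
    rw [h3]
    exact C.mul_mem (C.mul_mem hc' h2) (C.inv_mem hc)
  -- the partition
  let r : V → V → Prop := fun x y => x = y ∨ ∃ l ∈ L, l • x ∈ U ∧ l • y ∈ U
  have hr : Equivalence r := by
    refine ⟨fun x => Or.inl rfl, ?_, ?_⟩
    · rintro x y (h | ⟨l, hl, hx, hy⟩)
      · exact Or.inl h.symm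
      · exact Or.inr ⟨l, hl, hy, hx⟩
    · rintro x y z (rfl | ⟨l, hl, hx, hy⟩) h
      · exact h
      · rcases h with rfl | ⟨l', hl', hy', hz⟩
        · exact Or.inr ⟨l, hl, hx, hy⟩
        · right
          refine ⟨l, hl, hx, ?_⟩
          have h1 : l * l'⁻¹ ∈ C := by
            refine key (l * l'⁻¹) (L.mul_mem hl (L.inv_mem hl')) (l' • y) hy' ?_
            rw [mul_smul, inv_smul_smul]
            exact hy
          have h2 := hCU _ h1 _ hz
          rwa [mul_smul, inv_smul_smul] at h2
  refine ⟨L, ⟨r, hr⟩, hLf, hCL, ?_, ?_, ?_, ?_⟩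
  · rintro g hg v w (rfl | ⟨l, hl, hv, hw⟩)
    · exact Or.inl rfl
    · right
      refine ⟨l * g⁻¹, L.mul_mem hl (L.inv_mem hg), ?_, ?_⟩
      · rw [mul_smul, inv_smul_smul]
        exact hv
      · rw [mul_smul, inv_smul_smul]
        exact hw
  · rintro v w (rfl | ⟨l, hl, hv, hw⟩)
    · refine ⟨SimpleGraph.Walk.nil, ?_⟩
      intro z hz
      rw [SimpleGraph.Walk.support_nil, List.mem_singleton] at hz
      exact Or.inl hz.symm
    · obtain ⟨q, hq⟩ := ((hUc _ hv).symm.trans (hUc _ hw)).smul hA l⁻¹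
      rw [inv_inv] at hq
      refine ⟨q.copy (inv_smul_smul l v) (inv_smul_smul l w), ?_⟩
      intro z hz
      rw [SimpleGraph.Walk.support_copy] at hz
      exact Or.inr ⟨l, hl, hv, hq z hz⟩
  · intro g hg
    constructor
    · rintro (h | ⟨l, hl, h1, h2⟩)
      · rw [hfree g o h]
        exact C.one_mem
      · have h3 : l ∈ C := key l hl o hoU h2
        have h4 : l * g ∈ C := by
          refine key (l * g) (L.mul_mem hl hg) o hoU ?_
          rw [mul_smul]
          exact h1
        have h5 : g = l⁻¹ * (l * g) := by group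
        rw [h5]
        exact C.mul_mem (C.inv_mem h3) h4
    · intro h
      right
      refine ⟨1, L.one_mem, ?_, ?_⟩
      · rw [one_smul]
        exact hCU g h o hoU
      · rw [one_smul]
        exact hoU
  · intro v
    by_cases hv : ∃ l ∈ L, l • v ∈ U
    · obtain ⟨l, hl, hv⟩ := hv
      right
      refine ⟨l⁻¹, L.inv_mem hl, Or.inr ⟨l, hl, ?_, hv⟩⟩
      rw [smul_inv_smul]
      exact hoU
    · left
      rintro g hg (h | ⟨l, hl, h1, h2⟩)
      · exact hfree g v h
      · exact absurd ⟨l, hl, h2⟩ hv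

end choice

/-- the action on the Cayley tree from the right -/
def Cay (A : Type*) [Group A] (X : Type*) (_ : A ≃* FreeGroup X) : Type _ := FreeGroup X

instance instCay (A X : Type*) [Group A] (e : A ≃* FreeGroup X) : MulAction A (Cay A X e) where
  smul g v := (show FreeGroup X from v) * (e g)⁻¹
  one_smul v := by
    show (show FreeGroup X from v) * (e 1)⁻¹ = v
    rw [map_one, inv_one, mul_one]
  mul_smul g h v := by
    show (show FreeGroup X from v) * (e (g * h))⁻¹ = (show FreeGroup X from v) * (e h)⁻¹ * (e g)⁻¹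
    rw [map_mul, mul_inv_rev, mul_assoc]

/-- a free group acts freely and without inversions on a tree -/
theorem exists_cayley (A : Type) [Group A] [IsFreeGroup A] :
    ∃ (V : Type) (_ : MulAction A V) (T : SimpleGraph V) (_ : V), T.IsTree ∧
      (∀ (g : A) (v w : V), T.Adj v w → T.Adj (g • v) (g • w)) ∧
      (∀ (g : A) (v w : V), T.Adj v w → g • v = w → g • w ≠ v) ∧
      (∀ (g : A) (v : V), g • v = v → g = 1) := by
  classical
  let X := IsFreeGroup.Generators A
  let e : A ≃* FreeGroup X := (IsFreeGroup.toFreeGroup A)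
  let T : SimpleGraph (Cay A X e) := wordGraph (FreeGroup.toWord : FreeGroup X → List (X × Bool))
  have hT : T.IsTree := cayley_isTree
  have hA : ∀ (g : A) (v w : Cay A X e), T.Adj v w → T.Adj (g • v) (g • w) := by
    intro g v w h
    obtain ⟨p, hp⟩ := (cayley_adj _ _).1 h
    refine (cayley_adj _ _).2 ⟨p, ?_⟩
    show (show FreeGroup X from w) * (e g)⁻¹ = FreeGroup.mk [p] * ((show FreeGroup X from v) * (e g)⁻¹)
    rw [← mul_assoc]
    exact congrArg (fun z => z * (e g)⁻¹) hp
  have hfree : ∀ (g : A) (v : Cay A X e), g • v = v → g = 1 := by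
    intro g v h
    have h1 : (show FreeGroup X from v) * (e g)⁻¹ = v := h
    have h2 := mul_eq_left.1 h1
    rw [inv_eq_one] at h2
    exact (map_eq_one_iff e e.injective).1 h2
  have hI : ∀ (g : A) (v w : Cay A X e), T.Adj v w → g • v = w → g • w ≠ v := by
    intro g v w h hg hg'
    have h1 : (g * g) • v = v := by rw [mul_smul, hg, hg']
    have h2 : e g ^ 2 = 1 := by
      rw [pow_two, ← map_mul, hfree _ _ h1, map_one]
    have h3 : e g = 1 := (pow_eq_one_iff_left two_ne_zero).1 h2
    have h4 : g = 1 := (map_eq_one_iff e e.injective).1 h3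
    rw [h4, one_smul] at hg
    exact h.ne hg
  exact ⟨Cay A X e, inferInstance, T, (1 : FreeGroup X), hT, hA, hI, hfree⟩

/-- separability for free groups -/
theorem lerf_free {A : Type} [Group A] [IsFreeGroup A] (C : Subgroup A) (hC : C.FG) (F : Set A) (hF : F.Finite) :
    ∃ L : Subgroup A, L.FiniteIndex ∧ C ≤ L ∧ ∀ g ∈ F, g ∈ L → g ∈ C := by
  classical
  let X := IsFreeGroup.Generators A
  let e : A ≃* FreeGroup X := (IsFreeGroup.toFreeGroup A)
  have hC' : (C.map e.toMonoidHom).FG := by
    obtain ⟨G, hG⟩ := hC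
    refine ⟨G.image e.toMonoidHom, ?_⟩
    rw [Finset.coe_image, ← MonoidHom.map_closure, hG]
  obtain ⟨L, h1, h2, h3⟩ := lerf (C.map e.toMonoidHom) hC' (e '' F) (hF.image _)
  refine ⟨L.comap e.toMonoidHom, ?_, ?_, ?_⟩
  · constructor
    rw [Subgroup.index_comap]
    have h1 : L.IsFiniteRelIndex e.toMonoidHom.range := Subgroup.isFiniteRelIndex_of_finiteIndex
    exact Subgroup.relIndex_ne_zero
  · rw [← Subgroup.map_le_iff_le_comap]
    exact h2
  · intro g hg hgL
    have h4 := h3 (e g) ⟨g, hg, rfl⟩ hgL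
    obtain ⟨c, hc, hce⟩ := h4
    have : c = g := e.injective hce
    rw [← this]
    exact hc

theorem exists_choice {A : Type} [Group A] [IsFreeGroup A] (C : Subgroup A) (hC : C.FG) :
    ∃ (L : Subgroup A) (V : Type) (_ : MulAction A V) (T : SimpleGraph V) (s : Setoid V) (o : V),
      L.FiniteIndex ∧ C ≤ L ∧ T.IsTree ∧
      (∀ (g : A) (v w : V), T.Adj v w → T.Adj (g • v) (g • w)) ∧
      (∀ (g : A) (v w : V), T.Adj v w → g • v = w → g • w ≠ v) ∧
      (∀ (g : A) (v : V), g • v = v → g = 1) ∧
      (∀ g ∈ L, ∀ v w : V, s v w → s (g • v) (g • w)) ∧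
      (∀ v w : V, s v w → ∃ p : T.Walk v w, ∀ z ∈ p.support, s v z) ∧
      (∀ g ∈ L, s (g • o) o ↔ g ∈ C) ∧
      (∀ v : V, (∀ g ∈ L, s (g • v) v → g = 1) ∨ ∃ h ∈ L, s (h • o) v) := by
  obtain ⟨V, act, T, o, hT, hA, hI, hfree⟩ := exists_cayley A
  obtain ⟨L, s, h⟩ := choice_abs hT.connected hA hfree o C hC (lerf_free C hC)
  obtain ⟨h1, h2, h3, h4, h5, h6⟩ := h
  exact ⟨L, V, act, T, s, o, h1, h2, hT, hA, hI, hfree, h3, h4, h5, h6⟩

end ATY
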