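import Pool.Agent.ATY.M
import Pool.Agent.ATY.A2

/-!
# Induction from a subgroup of finite index preserves the largest maxima (row S)
-/

set_option autoImplicit false

open scoped ComplexConjugate InnerProductSpace
open Filter Topology

namespace ATY
open Singer Pool.WeakAtiyah

section piece
variable {H X X' : Type} [Group H] [MulAction H X] [MulAction H X']

lemma push_pull_eq_cu {j : X' → X} (hj : Function.Injective j) (f : L2 X) :
    push j hj (pull j hj f) = cu (Set.range j) f := by
  ext x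
  rw [cu_apply]
  by_cases hx : x ∈ Set.range j
  · obtain ⟨y, rfl⟩ := hx
    rw [push_apply, pull_apply, if_pos ⟨y, rfl⟩]
  · rw [push_apply_of_notMem _ _ _ hx, if_neg hx]

lemma pull_la {j : X' → X} (hj : Function.Injective j) (he : ∀ (h : H) x, j (h • x) = h • j x) (h : H) (f : L2 X) :
    pull j hj (la h f) = la h (pull j hj f) := by
  ext x
  rw [pull_apply, la_apply, la_apply, pull_apply, he]

lemma push_la {j : X' → X} (hj : Function.Injective j) (he : ∀ (h : H) x, j (h • x) = h • j x) (h : H) (f : L2 X') :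
    push j hj (la h f) = la h (push j hj f) := by
  ext x
  by_cases hx : x ∈ Set.range j
  · obtain ⟨y, rfl⟩ := hx
    rw [push_apply, la_apply, la_apply, ← he, push_apply]
  · rw [push_apply_of_notMem _ _ _ hx, la_apply, push_apply_of_notMem]
    rintro ⟨y, hy⟩
    refine hx ⟨h • y, ?_⟩
    rw [he, hy, smul_inv_smul]

lemma kr_push {j : X' → X} (hj : Function.Injective j) : kr (push j hj) = ⊥ := by
  rw [eq_bot_iff]
  intro f hf
  have h1 : push j hj f = 0 := hf
  have h2 := pull_push j hj f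
  rw [h1, map_zero] at h2
  exact h2.symm

/-- the part of a stable module on the range of `j` -/
lemma im_pull {j : X' → X} (hj : Function.Injective j) {W : Submodule ℂ (L2 X)} (hW : IsClosed (W : Set (L2 X)))
    (hs : ∀ f ∈ W, cu (Set.range j) f ∈ W) : im (pull j hj) W = W.comap (push j hj : L2 X' →ₗ[ℂ] L2 X) := by
  have h1 : W.map (pull j hj : L2 X →ₗ[ℂ] L2 X') = W.comap (push j hj : L2 X' →ₗ[ℂ] L2 X) := by
    refine le_antisymm ?_ ?_
    · rintro _ ⟨f, hf, rfl⟩
      show push j hj (pull j hj f) ∈ W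
      rw [push_pull_eq_cu]
      exact hs f hf
    · intro g hg
      exact ⟨push j hj g, hg, pull_push j hj g⟩
  rw [im, h1]
  refine IsClosed.submodule_topologicalClosure_eq ?_
  exact hW.preimage (push j hj).continuous

variable [FC H X] [FC H X']

lemma vd_piece {j : X' → X} (hj : Function.Injective j) (he : ∀ (h : H) x, j (h • x) = h • j x)
    {W : Submodule ℂ (L2 X)} (hW : Md H W) (hs : ∀ f ∈ W, cu (Set.range j) f ∈ W) :
    vd H W = vd H (W.comap (push j hj : L2 X' →ₗ[ℂ] L2 X)) + vd H (W ⊓ kr (pull j hj)) := by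
  have h1 := vd_im_add (H := H) (T := pull j hj) (pull_la hj he) hW
  rw [im_pull hj hW.cl hs] at h1
  exact h1.symm

lemma vd_glue {j : X' → X} (hj : Function.Injective j) (he : ∀ (h : H) x, j (h • x) = h • j x)
    {V : Submodule ℂ (L2 X')} (hV : Md H V) {W : Submodule ℂ (L2 X)} (hW : Md H W) (hk : W ≤ kr (pull j hj)) :
    vd H (im (push j hj) V ⊔ W).topologicalClosure = vd H V + vd H W := by
  have h1 := vd_im_add (H := H) (T := push j hj) (push_la hj he) hV
  rw [kr_push, inf_bot_eq, vd_bot, add_zero] at h1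
  have h2 := vd_sup_add_inf (H := H) (Md.im (H := H) (push_la hj he) hV) hW
  have h3 : im (push j hj) V ⊓ W = ⊥ := by
    rw [eq_bot_iff]
    rintro f ⟨hf1, hf2⟩
    have h4 : pull j hj f = 0 := hk hf2
    have h5 : cu (Set.range j) f = f := by
      have h6 : im (push j hj) V ≤ LinearMap.ker ((cu (Set.range j) - 1 : L2 X →L[ℂ] L2 X) : L2 X →ₗ[ℂ] L2 X) := by
        refine Submodule.topologicalClosure_minimal _ ?_ ?_
        · rintro _ ⟨g, hg, rfl⟩
          show cu (Set.range j) (push j hj g) - push j hj g = 0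
          rw [← push_pull_eq_cu hj, pull_push, sub_self]
        · exact (cu (Set.range j) - 1 : L2 X →L[ℂ] L2 X).isClosed_ker
      have h7 : cu (Set.range j) f - f = 0 := h6 hf1
      exact sub_eq_zero.1 h7
    rw [Submodule.mem_bot, ← h5, ← push_pull_eq_cu hj, h4, map_zero]
  rw [h3, vd_bot, add_zero, h1] at h2
  exact h2

variable {K : Subfield ℂ}

/-- the largest maximum on a stable piece -/
theorem isTop_piece {j : X' → X} (hj : Function.Injective j) (he : ∀ (h : H) x, j (h • x) = h • j x) {t : ℝ}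
    {Z Y : Submodule ℂ (L2 X)} (hZ : Md H Z) (sZ : ∀ f ∈ Z, cu (Set.range j) f ∈ Z)
    (sY : ∀ f ∈ Y, cu (Set.range j) f ∈ Y) (h : IsTop H (Rat K H) t Z Y) :
    IsTop H (Rat K H) t (Z.comap (push j hj : L2 X' →ₗ[ℂ] L2 X)) (Y.comap (push j hj : L2 X' →ₗ[ℂ] L2 X)) := by
  have hY : Md H Y := h.mem.md
  have hZY : Md H (Z ⊓ Y) := hZ.inf hY
  have hkr : Md H (kr (pull j hj)) := md_kr (H := H) (pull_la hj he)
  have hrk : Rat K H (kr (pull j hj)) := rat_kr (kop_pull hj he)
  have e1 := vd_piece hj he hY sY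
  have e2 := vd_piece hj he hZY (fun f hf => ⟨sZ f hf.1, sY f hf.2⟩)
  rw [Submodule.comap_inf] at e2
  -- the glued module
  have key : ∀ Y' : Submodule ℂ (L2 X'), Rat K H Y' →
      ∃ Y'' : Submodule ℂ (L2 X), Rat K H Y'' ∧ Y'.map (push j hj : L2 X' →ₗ[ℂ] L2 X) ≤ Y'' ∧
        hf H t (Z.comap (push j hj : L2 X' →ₗ[ℂ] L2 X)) Y' - hf H t (Z.comap (push j hj : L2 X' →ₗ[ℂ] L2 X))
          (Y.comap (push j hj : L2 X' →ₗ[ℂ] L2 X)) ≤ hf H t Z Y'' - hf H t Z Y := by
    intro Y' hY'
    refine ⟨(im (push j hj) Y' ⊔ (Y ⊓ kr (pull j hj))).topologicalClosure, ?_, ?_, ?_⟩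
    · exact (hY'.im (kop_push hj he)).sup (h.mem.inf hrk)
    · exact (Submodule.le_topologicalClosure _).trans (le_sup_left.trans (Submodule.le_topologicalClosure _))
    · have g1 := vd_glue (H := H) hj he hY'.md (hY.inf hkr) inf_le_right
      have hZ' : Md H (Z.comap (push j hj : L2 X' →ₗ[ℂ] L2 X)) := Md.comap (H := H) (push_la hj he) hZ
      have g2 := vd_glue (H := H) hj he (hZ'.inf hY'.md) (hZY.inf hkr) inf_le_right
      have g3 : (im (push j hj) (Z.comap (push j hj : L2 X' →ₗ[ℂ] L2 X) ⊓ Y') ⊔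
          ((Z ⊓ Y) ⊓ kr (pull j hj))).topologicalClosure ≤
          Z ⊓ (im (push j hj) Y' ⊔ (Y ⊓ kr (pull j hj))).topologicalClosure := by
        refine Submodule.topologicalClosure_minimal _ (sup_le ?_ ?_) ?_
        · refine Submodule.topologicalClosure_minimal _ ?_ ?_
          · rintro _ ⟨g, hg, rfl⟩
            refine ⟨hg.1, ?_⟩
            exact (Submodule.le_topologicalClosure _) (Submodule.mem_sup_left
              ((Submodule.le_topologicalClosure _) ⟨g, hg.2, rfl⟩))
          · exact hZ.cl.inter (Submodule.isClosed_topologicalClosure _)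
        · rintro f ⟨⟨hf1, hf2⟩, hf3⟩
          exact ⟨hf1, (Submodule.le_topologicalClosure _) (Submodule.mem_sup_right ⟨hf2, hf3⟩)⟩
        · exact hZ.cl.inter (Submodule.isClosed_topologicalClosure _)
      have g4 := vd_mono (H := H) g3
      rw [g2] at g4
      unfold hf
      rw [g1, e1, e2]
      have : t * (vd H Y' + vd H (Y ⊓ kr (pull j hj))) -
          t * (vd H (Y.comap (push j hj : L2 X' →ₗ[ℂ] L2 X)) + vd H (Y ⊓ kr (pull j hj))) =
          t * vd H Y' - t * vd H (Y.comap (push j hj : L2 X' →ₗ[ℂ] L2 X)) := by ring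
      linarith
  refine ⟨h.mem.comap (kop_push hj he), fun Y' hY' => ?_, fun Y' hY' hle => ?_⟩
  · obtain ⟨Y'', h1, -, h3⟩ := key Y' hY'
    have h4 := h.le Y'' h1
    linarith
  · obtain ⟨Y'', h1, h2, h3⟩ := key Y' hY'
    have h4 : Y'' ≤ Y := h.top Y'' h1 (by linarith)
    intro f hf
    exact h4 (h2 ⟨f, hf, rfl⟩)

end piece

section loc
variable {A X Q : Type} [Group A] [MulAction A X] [MulAction A Q]

lemma range_fi (a : X →[A] Q) (q : Q) : Set.range (fi a q) = {x | a x = q} := by
  ext x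
  constructor
  · rintro ⟨y, rfl⟩
    exact y.2
  · intro hx
    exact ⟨⟨x, hx⟩, rfl⟩

lemma cu_la (a : X →[A] Q) (g : A) (q : Q) (f : L2 X) :
    cu {x | a x = g • q} f = la g (cu {x | a x = q} (la g⁻¹ f)) := by
  ext x
  have h1 : la g (cu {x | a x = q} (la g⁻¹ f)) x = cu {x | a x = q} (la g⁻¹ f) (g⁻¹ • x) := rfl
  rw [h1, cu_apply, cu_apply, la_apply, inv_inv, smul_inv_smul]
  have h2 : x ∈ {x | a x = g • q} ↔ g⁻¹ • x ∈ {x | a x = q} := by
    show a x = g • q ↔ a (g⁻¹ • x) = q
    rw [map_smul, inv_smul_eq_iff]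
  by_cases hx : x ∈ {x | a x = g • q}
  · rw [if_pos hx, if_pos (h2.1 hx)]
  · rw [if_neg hx, if_neg (fun h => hx (h2.2 h))]

lemma le_of_loc_le {a : X →[A] Q} {q : Q} [(MulAction.stabilizer A q).FiniteIndex]
    (horb : ∀ x, a x ∈ MulAction.orbit A q) {V W : Submodule ℂ (L2 X)} (hV : Md A V) (lV : Loc a V) (hW : Md A W)
    (h : loc a q V ≤ loc a q W) : V ≤ W := by
  classical
  have hfin : (MulAction.orbit A q).Finite := by
    have h1 : Finite (A ⧸ MulAction.stabilizer A q) := Subgroup.finite_quotient_of_finiteIndex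
    exact Set.finite_coe_iff.1 (Finite.of_equiv _ (MulAction.orbitEquivQuotientStabilizer A q).symm)
  intro f hf
  have h1 : ∀ q' ∈ MulAction.orbit A q, cu {x | a x = q'} f ∈ W := by
    rintro _ ⟨g, rfl⟩
    show cu {x | a x = g • q} f ∈ W
    rw [cu_la]
    refine hW.inv g _ ?_
    have h2 : la g⁻¹ f ∈ V := hV.inv _ _ hf
    have h3 : cu {x | a x = q} (la g⁻¹ f) = push (fi a q) (fi_inj a q) (pull (fi a q) (fi_inj a q) (la g⁻¹ f)) := by
      rw [push_pull_eq_cu, range_fi]
    rw [h3]
    refine h ?_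
    show push (fi a q) (fi_inj a q) (pull (fi a q) (fi_inj a q) (la g⁻¹ f)) ∈ V
    rw [← h3]
    exact lV q _ h2
  have h2 : f = ∑ q' ∈ hfin.toFinset, cu {x | a x = q'} f := by
    ext x
    rw [lp.coeFn_sum, Finset.sum_apply]
    have h3 : ∀ q' ∈ hfin.toFinset, cu {x | a x = q'} f x = if a x = q' then f x else 0 := by
      intro q' _
      rw [cu_apply]
      rfl
    rw [Finset.sum_congr rfl h3, Finset.sum_ite_eq, if_pos (hfin.mem_toFinset.2 (horb x))]
  rw [h2]
  exact Submodule.sum_mem _ fun q' hq' => h1 q' (hfin.mem_toFinset.1 hq')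

end loc

lemma fc_comp {H H' X : Type} [Group H] [Group H'] [MulAction H X] [MulAction H' X] [hF : FC H X] (α : H ≃* H')
    (h : ∀ (g : H) (x : X), α g • x = g • x) : FC H' X where
  free g x hx := by
    have h1 : α.symm g • x = x := by
      rw [← h, MulEquiv.apply_symm_apply]
      exact hx
    have h2 := hF.free _ _ h1
    have h3 := congrArg α h2
    rwa [MulEquiv.apply_symm_apply, map_one] at h3
  fin := by
    have hf := hF.fin
    refine Finite.of_surjective (fun o : MulAction.orbitRel.Quotient H X =>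
      (Quotient.map' (s₁ := MulAction.orbitRel H X) (s₂ := MulAction.orbitRel H' X) id ?_ o :
        MulAction.orbitRel.Quotient H' X)) ?_
    · rintro x y ⟨g, hg⟩
      refine ⟨α g, ?_⟩
      show α g • y = x
      rw [h]
      exact hg
    · intro o
      induction o using Quotient.inductionOn with
      | h x => exact ⟨Quotient.mk (MulAction.orbitRel H X) x, rfl⟩

lemma map_push_refl {X : Type} (W : Submodule ℂ (L2 X)) :
    W.map (push (Equiv.refl X) (Equiv.refl X).injective : L2 X →ₗ[ℂ] L2 X) = W := by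
  have h1 : ∀ f : L2 X, push (Equiv.refl X) (Equiv.refl X).injective f = f := by
    intro f
    ext x
    exact push_apply (Equiv.refl X) (Equiv.refl X).injective f x
  ext f
  constructor
  · rintro ⟨g, hg, rfl⟩
    have h2 := h1 g
    exact h2.symm ▸ hg
  · intro hf
    exact ⟨f, hf, h1 f⟩

theorem ssp_of_finiteIndex {K : Subfield ℂ} {A : Type} [Group A] {n : ℕ} (hn : 0 < n) (hR : RanksIn K A n)
    (C : Subgroup A) [C.FiniteIndex] : SSP K A C := by
  intro X Q _ _ _ a q _ hC horb t Z Y hZ lZ hY lY hT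
  subst hC
  obtain ⟨YA, hYA⟩ := exists_isTop (H := A) hn hR t hZ
  have hYAm : Md A YA := hYA.mem.md
  -- the normal core
  set N : Subgroup A := (MulAction.stabilizer A q).normalCore with hN
  have hNS : N ≤ MulAction.stabilizer A q := Subgroup.normalCore_le _
  have hNfin : N.FiniteIndex := Subgroup.finiteIndex_normalCore _
  have hNT : IsTop N (Rat K N) t Z YA := IsTop.res hn hR hZ hYA N
  have hNfix : ∀ (h : N) (q' : Q), q' ∈ MulAction.orbit A q → (h : A) • q' = q' := by
    rintro h _ ⟨g, rfl⟩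
    show (h : A) • g • q = g • q
    have h1 : g⁻¹ * (h : A) * g ∈ N := by
      have h2 := (inferInstance : N.Normal).conj_mem (h : A) h.2 g⁻¹
      rwa [inv_inv] at h2
    have h2 : (g⁻¹ * (h : A) * g) • q = q := hNS h1
    rw [mul_smul, mul_smul, inv_smul_eq_iff] at h2
    exact h2
  have hZN : Md N Z := ⟨fun h f hf => hZ.inv (h : A) f hf, hZ.cl⟩
  have lYA : Loc a YA := by
    intro q' f hf
    refine hNT.cu hZN (S := {x | a x = q'}) ?_ (lZ q') f hf
    intro h x hx
    show a ((h : A) • x) = q'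
    rw [map_smul]
    have hx' : a x = q' := hx
    rw [hNfix h (a x) (horb x), hx']
  -- the action of `N` on the fibre
  let β : N.subgroupOf (MulAction.stabilizer A q) ≃* N := Subgroup.subgroupOfEquivOfLe hNS
  let actN : MulAction N (Fib a q) := MulAction.compHom (Fib a q) β.symm.toMonoidHom
  have hact : ∀ (h : N) (x : Fib a q), (h • x).1 = (h : A) • x.1 := fun h x => rfl
  have hFCN : FC N (Fib a q) := by
    refine fc_comp β ?_
    intro g x
    apply Subtype.ext
    rw [hact]
    rfl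
  have hpt := isTop_piece (H := N) (K := K) (j := fi a q) (fi_inj a q) hact hZN
    (by rw [range_fi]; exact lZ q) (by rw [range_fi]; exact lYA q) hNT
  have hZf : Md N (Z.comap (push (fi a q) (fi_inj a q) : L2 (Fib a q) →ₗ[ℂ] L2 X)) :=
    Md.comap (H := N) (push_la (fi_inj a q) hact) hZN
  have hpt2 := IsTop.equiv (β.symm) (Equiv.refl (Fib a q)) (fun _ _ => rfl) hZf hpt
  rw [map_push_refl, map_push_refl] at hpt2
  -- the given maximum
  have hRS : RanksIn K (MulAction.stabilizer A q) n :=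
    ranksIn_of_injective (MulAction.stabilizer A q).subtype (Subgroup.subtype_injective _) hR
  have hT2 := IsTop.res hn hRS (hZ.loc (a := a) q) hT (N.subgroupOf (MulAction.stabilizer A q))
  have heq : loc a q YA = loc a q Y := hpt2.unique hT2
  have hfin : YA = Y := le_antisymm (le_of_loc_le horb hYAm lYA hY heq.le) (le_of_loc_le horb hY lY hYAm heq.ge)
  rw [← hfin]
  exact hYA

end ATY
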