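import Pool.Agent.ATY.N

/-!
# Induction of the largest maxima: from a normal subgroup of finite index to the group (row VF)
-/

set_option autoImplicit false

open scoped ComplexConjugate InnerProductSpace
open Filter Topology

namespace ATY
open Singer Pool.WeakAtiyah

section trans
variable {X X₁ X₂ : Type}

lemma push_pull_trans {p : X₁ → X} (hp : Function.Injective p) {p' : X₂ → X} (hp' : Function.Injective p') (e : X₁ ≃ X₂)
    (h : ∀ x, p' (e x) = p x) (f : L2 X₂) : push p hp (pull e e.injective f) = push p' hp' f := by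
  have h1 : push p' hp' f = push p' hp' (push e e.injective (pull e e.injective f)) := by
    rw [push_pull_equiv]
  rw [h1, push_push]
  exact push_congr _ _ (fun x => (h x).symm) _

lemma map_comap_trans {p : X₁ → X} (hp : Function.Injective p) {p' : X₂ → X} (hp' : Function.Injective p') (e : X₁ ≃ X₂)
    (h : ∀ x, p' (e x) = p x) (W : Submodule ℂ (L2 X)) :
    (W.comap (push p hp : L2 X₁ →ₗ[ℂ] L2 X)).map (push e e.injective : L2 X₁ →ₗ[ℂ] L2 X₂) =
      W.comap (push p' hp' : L2 X₂ →ₗ[ℂ] L2 X) := by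
  ext f
  rw [mem_map_push]
  show push p hp (pull e e.injective f) ∈ W ↔ push p' hp' f ∈ W
  rw [push_pull_trans hp hp' e h]

lemma comap_push_id (W : Submodule ℂ (L2 X)) :
    W.comap (push (id : X → X) Function.injective_id : L2 X →ₗ[ℂ] L2 X) = W := by
  ext f
  have h1 : push (id : X → X) Function.injective_id f = f := by
    ext x
    exact push_apply (id : X → X) Function.injective_id f x
  show push (id : X → X) Function.injective_id f ∈ W ↔ f ∈ W
  rw [h1]

end trans

/-- if the maxima are induced for all pairs of subgroups of a normal subgroup `F` of finite index, they are induced for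
all subgroups of the group -/
theorem ssp_of_normal {K : Subfield ℂ} {A : Type} [Group A] {n : ℕ} (hn : 0 < n) (hR : RanksIn K A n)
    (F : Subgroup A) [F.Normal] [F.FiniteIndex] (hF : ∀ (H : Subgroup F) (B : Subgroup H), SSP K H B)
    (C : Subgroup A) : SSP K A C := by
  intro X Q _ _ _ a q _ hC horb t Z Y hZ lZ hY lY hT
  subst hC
  obtain ⟨YA, hYA⟩ := exists_isTop (H := A) hn hR t hZ
  rcases isEmpty_or_nonempty X with hX | ⟨⟨x₀⟩⟩
  · have hs : Subsingleton (L2 X) := ⟨fun f g => by
      ext x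
      exact (hX.false x).elim⟩
    have h1 : Y = YA := by
      ext f
      rw [Subsingleton.elim f 0]
      simp only [Submodule.zero_mem]
    rw [h1]
    exact hYA
  have hRB : ∀ B : Subgroup A, RanksIn K B n := fun B =>
    ranksIn_of_injective B.subtype (Subgroup.subtype_injective _) hR
  have hRF : ∀ B : Subgroup F, RanksIn K B n := fun B =>
    ranksIn_of_injective B.subtype (Subgroup.subtype_injective _) (hRB F)
  have hFT : IsTop F (Rat K F) t Z YA := IsTop.res hn hR hZ hYA F
  have hZF : Md F Z := ⟨fun h f hf => hZ.inv (h : A) f hf, hZ.cl⟩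
  have hYF : Md F Y := ⟨fun h f hf => hY.inv (h : A) f hf, hY.cl⟩
  let δ : X →[F] Q := ⟨a, fun h x => map_smul a (h : A) x⟩
  let p : Q →[F] Tv Unit := ⟨fun _ => (), fun _ _ => rfl⟩
  have key : ∀ x : X, IsTop (MulAction.stabilizer F (δ x)) (Rat K (MulAction.stabilizer F (δ x))) t
      (loc δ (δ x) Z) (loc δ (δ x) Y) := by
    intro x
    obtain ⟨g, hg⟩ := horb x
    have hg' : a x = g • q := hg.symm
    have h1 := IsTop.equiv (MulAction.stabilizerEquivStabilizer hg') (fibE a g hg') (fibE_smul a g hg')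
      (hZ.loc (a := a) q) hT
    rw [map_fibE a g hg' hZ, map_fibE a g hg' hY] at h1
    have h2 := IsTop.res hn (hRB _) (hZ.loc (a := a) (a x)) h1 (F.subgroupOf (MulAction.stabilizer A (a x)))
    let α : F.subgroupOf (MulAction.stabilizer A (a x)) ≃* MulAction.stabilizer F (δ x) :=
      { toFun := fun h => ⟨⟨h.1.1, h.2⟩, h.1.2⟩
        invFun := fun h => ⟨⟨h.1.1, h.2⟩, h.1.2⟩
        left_inv := fun _ => rfl
        right_inv := fun _ => rfl
        map_mul' := fun _ _ => rfl }
    let e : Fib a (a x) ≃ Fib δ (δ x) :=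
      { toFun := fun y => ⟨y.1, y.2⟩
        invFun := fun y => ⟨y.1, y.2⟩
        left_inv := fun _ => rfl
        right_inv := fun _ => rfl }
    have hZN : Md (F.subgroupOf (MulAction.stabilizer A (a x))) (loc a (a x) Z) :=
      ⟨fun h f hf => (hZ.loc (a := a) (a x)).inv (h : MulAction.stabilizer A (a x)) f hf, (hZ.loc (a := a) (a x)).cl⟩
    have h3 := IsTop.equiv α e (fun _ _ => rfl) hZN h2
    have hm : ∀ W : Submodule ℂ (L2 X), (loc a (a x) W).map
        (push e e.injective : L2 (Fib a (a x)) →ₗ[ℂ] L2 (Fib δ (δ x))) = loc δ (δ x) W := fun W =>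
      map_comap_trans (fi_inj a (a x)) (fi_inj δ (δ x)) e (fun _ => rfl) W
    rw [hm, hm] at h3
    exact h3
  have h1 := node hn δ p (fun x => hRF _) (fun x => hF _ _) t hZF lZ hYF lY key x₀
  let e : Fib (p.comp δ) (p (δ x₀)) ≃ X :=
    { toFun := fun y => y.1
      invFun := fun y => ⟨y, rfl⟩
      left_inv := fun _ => rfl
      right_inv := fun _ => rfl }
  have h2 := IsTop.equiv (tvE F (p (δ x₀))) e (fun _ _ => rfl) (hZF.loc (a := p.comp δ) (p (δ x₀))) h1
  have hm : ∀ W : Submodule ℂ (L2 X), (loc (p.comp δ) (p (δ x₀)) W).map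
      (push e e.injective : L2 (Fib (p.comp δ) (p (δ x₀))) →ₗ[ℂ] L2 X) = W := fun W =>
    (map_comap_trans (fi_inj (p.comp δ) (p (δ x₀))) Function.injective_id e (fun _ => rfl) W).trans (comap_push_id W)
  rw [hm, hm] at h2
  have h3 : YA = Y := hFT.unique h2
  rw [← h3]
  exact hYA

/-- ranks and subgroups of finite index -/
theorem ranksIn_of_finiteIndex {K : Subfield ℂ} {A : Type} [Group A] {m : ℕ} (hm : 0 < m) (N : Subgroup A)
    [N.FiniteIndex] (h : RanksIn K N m) : RanksIn K A (m * N.index) := by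
  intro ι κ _ _ M
  have h1 := vdim_ker_add (equi_hatK M)
  have hk : KOp K A (X := Fr A ι) (Y := Fr A κ) (hatK M) := kop_hatK M
  have hW : Rat K A (kr (X := Fr A ι) (Y := Fr A κ) (hatK M)) := rat_kr hk
  obtain ⟨z, hz⟩ := (hW.res N).vd_eq hm h
  rw [vd_index N hW.md, vd_fr hW.md] at hz
  have h2 : vdim (LinearMap.ker (hatK M : E A ι →ₗ[ℂ] E A κ)) = z / (m * N.index : ℕ) := by
    have h3 : (N.index : ℝ) * vdim (LinearMap.ker (hatK M : E A ι →ₗ[ℂ] E A κ)) = z / m := hz
    have h4 : (N.index : ℝ) ≠ 0 := Nat.cast_ne_zero.2 (Subgroup.FiniteIndex.index_ne_zero)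
    have h5 : (m : ℝ) ≠ 0 := Nat.cast_ne_zero.2 hm.ne'
    push_cast
    field_simp
    field_simp at h3
    linarith
  have h6 : rank M = vdim (LinearMap.range (hatK M : E A ι →ₗ[ℂ] E A κ)) := rank_eq M
  refine ⟨(Fintype.card ι : ℤ) * (m * N.index : ℕ) - z, ?_⟩
  have h7 : ((m * N.index : ℕ) : ℝ) ≠ 0 :=
    Nat.cast_ne_zero.2 (Nat.mul_ne_zero hm.ne' Subgroup.FiniteIndex.index_ne_zero)
  have h8 : rank M = Fintype.card ι - z / (m * N.index : ℕ) := by
    rw [h6]
    rw [h2] at h1
    linarith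
  rw [h8]
  field_simp
  push_cast
  ring

end ATY
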