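import Pool.Agent.ATY.SSPF
import Pool.Agent.ATY.VF
import Pool.Agent.ATY.S
import Pool.Agent.ATY.E
import Pool.Agent.ATY.E3f
import Pool.Agent.ATY.E4b

/-!
# The semidirect product with the free group on the letters acts on the Cayley tree (rows SSPQ, CPHI)

* `ssp_equiv`: the property `SSP` and isomorphisms;
* `ssp_of_psi`: it is enough that modules whose induced module is rational over `Psi A Q` are rational;
* `ssp_hat`: `SSP` for the stabiliser of a point in `Psi A Q`;
* `rat_of_hat`: a module whose induced module is rational over `Psi A Q` is rational.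
-/

set_option autoImplicit false

open scoped ComplexConjugate InnerProductSpace
open Filter Topology

namespace ATY
open Singer Singer.HT Pool.WeakAtiyah

/-- `SSP` and isomorphisms -/
theorem ssp_equiv {K : Subfield ℂ} {A A' : Type} [Group A] [Group A'] (α : A ≃* A') {C : Subgroup A} {C' : Subgroup A'}
    (hCC : ∀ g : A, g ∈ C ↔ α g ∈ C') (h : SSP K A C) : SSP K A' C' := by
  intro X Q _ _ _ a q hFC hst ho t Z Y hZ lZ hY lY hT
  let actX : MulAction A X := MulAction.compHom X α.toMonoidHom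
  let actQ : MulAction A Q := MulAction.compHom Q α.toMonoidHom
  have hsX : ∀ (g : A) (x : X), g • x = α g • x := fun _ _ => rfl
  have hsQ : ∀ (g : A) (x : Q), g • x = α g • x := fun _ _ => rfl
  have : FC A X := by
    refine fc_comp (H := A') (H' := A) α.symm ?_
    intro g x
    rw [hsX, MulEquiv.apply_symm_apply]
  let a' : X →[A] Q := ⟨a, fun g x => map_smul a (α g) x⟩
  have hst' : MulAction.stabilizer A q = C := by
    ext g
    rw [hCC, ← hst]
    rfl
  have ho' : ∀ x, a' x ∈ MulAction.orbit A q := by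
    intro x
    obtain ⟨g, hg⟩ := ho x
    refine ⟨α.symm g, ?_⟩
    show α (α.symm g) • q = a x
    rw [MulEquiv.apply_symm_apply]
    exact hg
  have hla : ∀ (g : A) (f : L2 X), la g f = la (α g) f := by
    intro g f
    ext x
    rw [la_apply, la_apply, hsX, map_inv]
  have hMd : ∀ W : Submodule ℂ (L2 X), Md A' W → Md A W := fun W hW => ⟨fun g f hf => by
    rw [hla]
    exact hW.inv _ _ hf, hW.cl⟩
  let β : MulAction.stabilizer A' q ≃* MulAction.stabilizer A q :=
    { toFun := fun g => ⟨α.symm g.1, by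
        show α (α.symm g.1) • q = q
        rw [MulEquiv.apply_symm_apply]
        exact g.2⟩
      invFun := fun g => ⟨α g.1, g.2⟩
      left_inv := fun g => Subtype.ext (α.apply_symm_apply g.1)
      right_inv := fun g => Subtype.ext (α.symm_apply_apply g.1)
      map_mul' := fun g g' => Subtype.ext (map_mul α.symm g.1 g'.1) }
  let e : Fib a q ≃ Fib a' q :=
    { toFun := fun x => ⟨x.1, x.2⟩
      invFun := fun x => ⟨x.1, x.2⟩
      left_inv := fun _ => rfl
      right_inv := fun _ => rfl }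
  have he : ∀ (g : MulAction.stabilizer A' q) (x : Fib a q), e (g • x) = β g • e x := by
    intro g x
    apply Subtype.ext
    show (g : A') • x.1 = α (α.symm (g : A')) • x.1
    rw [MulEquiv.apply_symm_apply]
  have h1 := IsTop.equiv β e he (hZ.loc (a := a) q) hT
  have hm : ∀ W : Submodule ℂ (L2 X), (loc a q W).map (push e e.injective : L2 (Fib a q) →ₗ[ℂ] L2 (Fib a' q)) =
      loc a' q W := fun W => map_comap_trans (fi_inj a q) (fi_inj a' q) e (fun _ => rfl) W
  rw [hm, hm] at h1
  have h2 := h X Q a' q hst' ho' t Z Y (hMd Z hZ) lZ (hMd Y hY) lY h1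
  have h3 := IsTop.equiv α (Equiv.refl X) (fun _ _ => rfl) (hMd Z hZ) h2
  rw [map_push_refl, map_push_refl] at h3
  exact h3

/-- it is enough that modules whose induced module is rational over `Psi A Q` are rational -/
theorem ssp_of_psi {n : ℕ} (hn : 0 < n) {A : Type} [Group A] (C : Subgroup A)
    (hR : ∀ (Q : Type) [MulAction A Q], RanksIn ⊤ (Psi A Q) n)
    (H : ∀ (X Q : Type) [MulAction A X] [FC A X] [MulAction A Q] (a : X →[A] Q) (q : Q),
      MulAction.stabilizer A q = C → (∀ x, a x ∈ MulAction.orbit A q) → ∀ Y : Submodule ℂ (L2 X), Md A Y → Loc a Y →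
      Rat ⊤ (Psi A Q) (hat Q Y) → Rat ⊤ (MulAction.stabilizer A q) (loc a q Y)) : SSP ⊤ A C := by
  intro X Q _ _ _ a q hFC hst ho t Z Y hZ lZ hY lY h
  have hR : RanksIn ⊤ (Psi A Q) n := hR Q
  obtain ⟨X', hX'⟩ := exists_isTop hn hR t (Md.hat (Q := Q) hZ)
  obtain ⟨Y₁, hY₁, lY₁, rfl⟩ := top_hat a hZ lZ hX'
  have hr₁ : Rat ⊤ (MulAction.stabilizer A q) (loc a q Y₁) := H X Q a q hst ho Y₁ hY₁ lY₁ hX'.mem
  have hRY : Rat ⊤ A Y := rat_of_loc ho hY lY h.mem
  obtain ⟨m, hm0, hm⟩ := exists_mult (G := A) q ho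
  -- comparison
  have h1 : hf A t Z Y₁ ≤ hf A t Z Y := by
    rw [hf_loc hm t hZ lZ hY₁ lY₁, hf_loc hm t hZ lZ hY lY]
    exact mul_le_mul_of_nonneg_left (h.le _ hr₁) hm0
  have h2 : hf A t Z Y ≤ hf A t Z Y₁ := by
    rw [← hf_hat (Q := Q) hZ hY t, ← hf_hat (Q := Q) hZ hY₁ t]
    exact hX'.le _ hRY.hat
  have h3 : Y ≤ Y₁ := by
    rw [← hat_le_iff (Q := Q)]
    refine hX'.top _ hRY.hat ?_
    rw [hf_hat (Q := Q) hZ hY t, hf_hat (Q := Q) hZ hY₁ t]
    exact h1
  have h4 : Y₁ ≤ Y := by
    by_cases hm1 : m = 0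
    · have e1 : vd A Y₁ ≤ vd A Y := by
        rw [hm _ hY₁ lY₁, hm _ hY lY, hm1, zero_mul, zero_mul]
      rw [eq_of_vd_le hY hY₁ h3 e1]
    · have hm2 : 0 < m := lt_of_le_of_ne hm0 (Ne.symm hm1)
      refine le_of_loc_le_orbit ho hY₁ lY₁ hY lY (h.top _ hr₁ ?_)
      have h5 := h2
      rw [hf_loc hm t hZ lZ hY₁ lY₁, hf_loc hm t hZ lZ hY lY] at h5
      exact le_of_mul_le_mul_left h5 hm2
  have h5 : Y₁ = Y := le_antisymm h4 h3
  subst h5
  refine ⟨hRY, fun W hW => ?_, fun W hW hle => ?_⟩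
  · rw [← hf_hat (Q := Q) hZ hW.md t, ← hf_hat (Q := Q) hZ hY t]
    exact hX'.le _ hW.hat
  · rw [← hat_le_iff (Q := Q)]
    refine hX'.top _ hW.hat ?_
    rw [hf_hat (Q := Q) hZ hW.md t, hf_hat (Q := Q) hZ hY t]
    exact hle

section cay
variable {A Q : Type} [Group A] [MulAction A Q]

/-- the vertices of the Cayley tree -/
def CV (Q : Type) : Type := FreeGroup (Q × ℤ)

/-- the action on the vertices -/
noncomputable def cvs (g : Psi A Q) (v : FreeGroup (Q × ℤ)) : FreeGroup (Q × ℤ) := phiA A Q g.right v * g.left⁻¹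

noncomputable instance cvAct : MulAction (Psi A Q) (CV Q) where
  smul g v := cvs g v
  one_smul v := by
    show phiA A Q (1 : Psi A Q).right (show FreeGroup (Q × ℤ) from v) * (1 : Psi A Q).left⁻¹ = v
    rw [SemidirectProduct.one_left, SemidirectProduct.one_right, map_one, inv_one, mul_one]
    rfl
  mul_smul g h v := by
    show phiA A Q (g * h).right (show FreeGroup (Q × ℤ) from v) * (g * h).left⁻¹ =
      phiA A Q g.right (phiA A Q h.right (show FreeGroup (Q × ℤ) from v) * h.left⁻¹) * g.left⁻¹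
    rw [SemidirectProduct.mul_left, SemidirectProduct.mul_right, map_mul, map_mul, mul_inv_rev, map_inv, mul_assoc]
    rfl

lemma cv_smul (g : Psi A Q) (v : CV Q) : g • v = cvs g v := rfl

/-- the Cayley tree -/
noncomputable def CT (Q : Type) : SimpleGraph (CV Q) := by
  classical exact wordGraph (FreeGroup.toWord : FreeGroup (Q × ℤ) → List ((Q × ℤ) × Bool))

lemma ct_tree : (CT Q).IsTree := by
  classical exact cayley_isTree

lemma ct_adj (v w : CV Q) : (CT Q).Adj v w ↔ ∃ p : (Q × ℤ) × Bool,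
    w = (FreeGroup.mk [p] * (show FreeGroup (Q × ℤ) from v) : FreeGroup (Q × ℤ)) := by
  classical exact cayley_adj _ _

lemma phiA_mk (a : A) (p : (Q × ℤ) × Bool) :
    phiA A Q a (FreeGroup.mk [p]) = FreeGroup.mk [((a • p.1.1, p.1.2), p.2)] := by
  rw [phiA_apply, FreeGroup.map.mk]
  rfl

lemma mk_one_inj {X : Type} {p q : X × Bool} (h : FreeGroup.mk [p] = FreeGroup.mk [q]) : p = q := by
  classical
  have h1 := congrArg FreeGroup.toWord h
  rw [FreeGroup.toWord_mk, FreeGroup.toWord_mk] at h1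
  have h2 : ∀ r : X × Bool, FreeGroup.reduce [r] = [r] := fun r => by simp [FreeGroup.reduce]
  rw [h2, h2] at h1
  exact (List.cons.inj h1).1

lemma ct_smul (g : Psi A Q) (v w : CV Q) (h : (CT Q).Adj v w) : (CT Q).Adj (g • v) (g • w) := by
  obtain ⟨p, hp⟩ := (ct_adj v w).1 h
  refine (ct_adj _ _).2 ⟨((g.right • p.1.1, p.1.2), p.2), ?_⟩
  show phiA A Q g.right (show FreeGroup (Q × ℤ) from w) * g.left⁻¹ =
    FreeGroup.mk [((g.right • p.1.1, p.1.2), p.2)] * (phiA A Q g.right (show FreeGroup (Q × ℤ) from v) * g.left⁻¹)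
  rw [← phiA_mk, ← mul_assoc, ← map_mul, ← hp]

/-- the degree -/
noncomputable def degF (Q : Type) : FreeGroup (Q × ℤ) →* Multiplicative ℤ := FreeGroup.lift fun _ => Multiplicative.ofAdd 1

lemma degF_phi (a : A) (v : FreeGroup (Q × ℤ)) : degF Q (phiA A Q a v) = degF Q v := by
  have h1 : (degF Q).comp (phiA A Q a).toMonoidHom = degF Q := by
    apply FreeGroup.ext_hom
    rintro ⟨q, k⟩
    show degF Q (phiA A Q a (FreeGroup.of (q, k))) = degF Q (FreeGroup.of (q, k))
    rw [phiA_of]
    unfold degF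
    rw [FreeGroup.lift_apply_of, FreeGroup.lift_apply_of]
  exact congrArg (fun f : FreeGroup (Q × ℤ) →* Multiplicative ℤ => f v) h1

lemma degF_mk (p : (Q × ℤ) × Bool) : Multiplicative.toAdd (degF Q (FreeGroup.mk [p])) ≠ 0 := by
  obtain ⟨x, b⟩ := p
  unfold degF
  rw [FreeGroup.lift_mk]
  cases b
  · simp
  · simp

lemma noinv_aux (a : A) (μ v w : FreeGroup (Q × ℤ)) (p : (Q × ℤ) × Bool) (hp : w = FreeGroup.mk [p] * v)
    (e1 : phiA A Q a v * μ⁻¹ = w) (e2 : phiA A Q a w * μ⁻¹ = v) : False := by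
  have d1 := congrArg (fun x => Multiplicative.toAdd (degF Q x)) e1
  have d2 := congrArg (fun x => Multiplicative.toAdd (degF Q x)) e2
  have d3 := congrArg (fun x => Multiplicative.toAdd (degF Q x)) hp
  simp only [map_mul, degF_phi, map_inv, toAdd_mul, toAdd_inv] at d1 d2 d3
  exact degF_mk p (by linarith)

lemma ct_noinv (g : Psi A Q) (v w : CV Q) (h : (CT Q).Adj v w) (h1 : g • v = w) : g • w ≠ v := by
  intro h2
  obtain ⟨p, hp⟩ := (ct_adj v w).1 h
  exact noinv_aux g.right g.left v w p hp h1 h2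

/-- the stabiliser of a vertex -/
noncomputable def cvE (v : CV Q) : A ≃* MulAction.stabilizer (Psi A Q) v where
  toFun b := ⟨⟨(show FreeGroup (Q × ℤ) from v)⁻¹ * phiA A Q b (show FreeGroup (Q × ℤ) from v), b⟩, by
    show phiA A Q b (show FreeGroup (Q × ℤ) from v) *
      ((show FreeGroup (Q × ℤ) from v)⁻¹ * phiA A Q b (show FreeGroup (Q × ℤ) from v))⁻¹ = v
    rw [mul_inv_rev, inv_inv, mul_inv_cancel_left]⟩
  invFun g := g.1.right
  left_inv b := rfl
  right_inv g := by
    apply Subtype.ext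
    have h1 : phiA A Q g.1.right (show FreeGroup (Q × ℤ) from v) * g.1.left⁻¹ = (show FreeGroup (Q × ℤ) from v) := g.2
    refine SemidirectProduct.ext ?_ rfl
    show (show FreeGroup (Q × ℤ) from v)⁻¹ * phiA A Q g.1.right (show FreeGroup (Q × ℤ) from v) = g.1.left
    rw [inv_mul_eq_iff_eq_mul]
    exact mul_inv_eq_iff_eq_mul.1 h1
  map_mul' b c := by
    apply Subtype.ext
    refine SemidirectProduct.ext ?_ rfl
    show (show FreeGroup (Q × ℤ) from v)⁻¹ * phiA A Q (b * c) (show FreeGroup (Q × ℤ) from v) =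
      (show FreeGroup (Q × ℤ) from v)⁻¹ * phiA A Q b (show FreeGroup (Q × ℤ) from v) *
        phiA A Q b ((show FreeGroup (Q × ℤ) from v)⁻¹ * phiA A Q c (show FreeGroup (Q × ℤ) from v))
    rw [map_mul, map_mul, map_inv, mul_assoc, mul_inv_cancel_left]
    rfl

lemma cvE_mem {v w : CV Q} {p : (Q × ℤ) × Bool} (hp : w = (FreeGroup.mk [p] * (show FreeGroup (Q × ℤ) from v) : FreeGroup (Q × ℤ)))
    (b : A) : b ∈ MulAction.stabilizer A p.1.1 ↔ (cvE (A := A) v b : Psi A Q) ∈ MulAction.stabilizer (Psi A Q) w := by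
  have h1 : (cvE (A := A) v b : Psi A Q) • w =
      (FreeGroup.mk [((b • p.1.1, p.1.2), p.2)] * (show FreeGroup (Q × ℤ) from v) : FreeGroup (Q × ℤ)) := by
    rw [hp]
    show phiA A Q b (FreeGroup.mk [p] * (show FreeGroup (Q × ℤ) from v)) *
      ((show FreeGroup (Q × ℤ) from v)⁻¹ * phiA A Q b (show FreeGroup (Q × ℤ) from v))⁻¹ = _
    rw [map_mul, phiA_mk, mul_inv_rev, inv_inv, mul_assoc, mul_inv_cancel_left]
  rw [MulAction.mem_stabilizer_iff, MulAction.mem_stabilizer_iff, h1]
  constructor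
  · intro h
    rw [h]
    exact hp.symm
  · intro h
    have h2 : (FreeGroup.mk [((b • p.1.1, p.1.2), p.2)] * (show FreeGroup (Q × ℤ) from v) : FreeGroup (Q × ℤ)) =
        FreeGroup.mk [p] * (show FreeGroup (Q × ℤ) from v) := h.trans hp
    have h3 := mk_one_inj (mul_right_cancel h2)
    exact congrArg (fun p : (Q × ℤ) × Bool => p.1.1) h3

/-- the group acts on the Cayley tree -/
theorem ssp_cay {K : Subfield ℂ} {n : ℕ} (hn : 0 < n) (hR : RanksIn K A n)
    (hS : ∀ q : Q, SSP K A (MulAction.stabilizer A q)) (v : CV Q) :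
    SSP K (Psi A Q) (MulAction.stabilizer (Psi A Q) v) := by
  refine ssp_vertex hn ct_tree (fun g v w h => ct_smul g v w h) (fun g v w h h1 => ct_noinv g v w h h1) ?_ ?_ v
  · intro v w h
    obtain ⟨p, hp⟩ := (ct_adj v w).1 h
    refine ssp_equiv (cvE v) (fun b => ?_) (hS p.1.1)
    rw [Subgroup.mem_subgroupOf]
    exact cvE_mem hp b
  · intro v
    exact ranksIn_of_injective (cvE v).symm.toMonoidHom (cvE v).symm.injective hR

/-- the stabiliser of a point of the induced set -/
theorem ssp_hat {K : Subfield ℂ} {n : ℕ} (hn : 0 < n) (hR : RanksIn K A n)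
    (hS : ∀ q : Q, SSP K A (MulAction.stabilizer A q)) (q : Q) :
    SSP K (Psi A Q) (MulAction.stabilizer (Psi A Q) (hp 1 q : HX Q Q)) := by
  have h1 : ∀ g : Psi A Q, g ∈ MulAction.stabilizer (Psi A Q) (hp 1 q : HX Q Q) ↔ g.left = 1 ∧ g.right • q = q := by
    intro g
    rw [MulAction.mem_stabilizer_iff, hx_smul]
    constructor
    · intro h
      have h2 : g.left * phiA A Q g.right 1 = 1 := congrArg Prod.fst h
      rw [map_one, mul_one] at h2
      exact ⟨h2, congrArg Prod.snd h⟩
    · rintro ⟨h2, h3⟩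
      refine Prod.ext ?_ h3
      show g.left * phiA A Q g.right 1 = 1
      rw [map_one, mul_one, h2]
  let o : CV Q := (1 : FreeGroup (Q × ℤ))
  have h2 : ∀ g : Psi A Q, g ∈ MulAction.stabilizer (Psi A Q) o ↔ g.left = 1 := by
    intro g
    rw [MulAction.mem_stabilizer_iff]
    have h3 : g • o = (phiA A Q g.right 1 * g.left⁻¹ : FreeGroup (Q × ℤ)) := rfl
    rw [h3, map_one, one_mul]
    exact inv_eq_one (α := FreeGroup (Q × ℤ))
  refine ssp_trans (MulAction.stabilizer (Psi A Q) o) _ (fun g hg => (h2 g).2 ((h1 g).1 hg).1) (ssp_cay hn hR hS o) ?_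
  refine ssp_equiv (cvE o) (fun b => ?_) (hS q)
  rw [Subgroup.mem_subgroupOf, h1]
  constructor
  · intro h
    refine ⟨?_, h⟩
    show (1 : FreeGroup (Q × ℤ))⁻¹ * phiA A Q b 1 = 1
    rw [map_one, inv_one, mul_one]
  · intro h
    exact h.2

end cay

/-- a rational module which is induced from a subgroup with the property `SSP` is induced from a rational module -/
lemma hull_aux {K : Subfield ℂ} {n : ℕ} (hn : 0 < n) {G X Q : Type} [Group G] [MulAction G X] [FC G X] [MulAction G Q]
    (a : X →[G] Q) (q : Q) (ho : ∀ x, a x ∈ MulAction.orbit G q) (hR : RanksIn K (MulAction.stabilizer G q) n)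
    (hS : SSP K G (MulAction.stabilizer G q)) {Z : Submodule ℂ (L2 X)} (hZ : Md G Z) (lZ : Loc a Z)
    (hr : Rat K G Z) : Rat K (MulAction.stabilizer G q) (loc a q Z) := by
  obtain ⟨Y, hY, lY, hT⟩ := exists_ltop hn ho hR (1 / 2) hZ
  have h1 : IsTop G (Rat K G) (1 / 2) Z Y := hS X Q a q rfl ho (1 / 2) Z Y hZ lZ hY lY hT
  have key : ∀ W : Submodule ℂ (L2 X), hf G (1 / 2) Z W = vd G (Z ⊓ W) - 1 / 2 * vd G W := fun _ => rfl
  have h2 : IsTop G (Rat K G) (1 / 2) Z Z := by
    refine ⟨hr, fun W hW => ?_, fun W hW hle => ?_⟩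
    · rw [key, key, inf_idem]
      have e1 : vd G (Z ⊓ W) ≤ vd G W := vd_mono inf_le_right
      have e2 : vd G (Z ⊓ W) ≤ vd G Z := vd_mono inf_le_left
      linarith
    · rw [key, key, inf_idem] at hle
      have e1 : vd G (Z ⊓ W) ≤ vd G W := vd_mono inf_le_right
      have e2 : vd G (Z ⊓ W) ≤ vd G Z := vd_mono inf_le_left
      have e3 : Z ⊓ W = W := eq_of_vd_le (hZ.inf hW.md) hW.md inf_le_right (by linarith)
      exact inf_eq_right.1 e3
  have h3 : Y = Z := h1.unique h2
  rw [h3] at hT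
  exact hT.mem

/-- the map to the induced set -/
def hatMap {A Q X : Type} [Group A] [MulAction A Q] [MulAction A X] (a : X →[A] Q) : HX Q X →[Psi A Q] HX Q Q where
  toFun p := (p.1, a p.2)
  map_smul' g p := by
    show (g.left * phiA A Q g.right p.1, a (g.right • p.2)) = (g.left * phiA A Q g.right p.1, g.right • a p.2)
    rw [map_smul]

/-- **a module whose induced module is rational over `Psi A Q` is rational** -/
theorem rat_of_hat {K : Subfield ℂ} {n : ℕ} (hn : 0 < n) {A Q X : Type} [Group A] [MulAction A Q] [MulAction A X]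
    [FC A X] (a : X →[A] Q) (q : Q) (ho : ∀ x, a x ∈ MulAction.orbit A q) (hR : RanksIn K A n)
    (hS : ∀ q' : Q, SSP K A (MulAction.stabilizer A q')) {Y : Submodule ℂ (L2 X)} (hY : Md A Y) (lY : Loc a Y)
    (h : Rat K (Psi A Q) (hat Q Y)) : Rat K (MulAction.stabilizer A q) (loc a q Y) := by
  have hst : ∀ g : Psi A Q, g ∈ MulAction.stabilizer (Psi A Q) (hp 1 q : HX Q Q) → g.left = 1 ∧ g.right • q = q := by
    intro g h
    rw [MulAction.mem_stabilizer_iff, hx_smul] at h
    have h2 : g.left * phiA A Q g.right 1 = 1 := congrArg Prod.fst h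
    rw [map_one, mul_one] at h2
    exact ⟨h2, congrArg Prod.snd h⟩
  have hst' : ∀ b : A, b • q = q → (SemidirectProduct.inr b : Psi A Q) ∈
      MulAction.stabilizer (Psi A Q) (hp 1 q : HX Q Q) := by
    intro b hb
    rw [MulAction.mem_stabilizer_iff, hx_smul]
    refine Prod.ext ?_ hb
    show (SemidirectProduct.inr b : Psi A Q).left * phiA A Q (SemidirectProduct.inr b : Psi A Q).right 1 = 1
    rw [map_one, mul_one, SemidirectProduct.left_inr]
  -- the orbit
  have ho' : ∀ p, hatMap a p ∈ MulAction.orbit (Psi A Q) (hp 1 q : HX Q Q) := by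
    rintro ⟨ν, x⟩
    obtain ⟨b, hb⟩ := ho x
    refine ⟨⟨ν, b⟩, ?_⟩
    show ((ν * phiA A Q b 1, b • q) : HX Q Q) = (ν, a x)
    have hb' : b • q = a x := hb
    rw [map_one, mul_one, hb']
  -- the stabiliser
  let α : MulAction.stabilizer (Psi A Q) (hp 1 q : HX Q Q) ≃* MulAction.stabilizer A q :=
    { toFun := fun g => ⟨g.1.right, (hst g.1 g.2).2⟩
      invFun := fun b => ⟨SemidirectProduct.inr b.1, hst' b.1 b.2⟩
      left_inv := fun g => Subtype.ext (SemidirectProduct.ext (by
        show (SemidirectProduct.inr g.1.right : Psi A Q).left = g.1.left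
        rw [SemidirectProduct.left_inr, (hst g.1 g.2).1]) rfl)
      right_inv := fun b => rfl
      map_mul' := fun g g' => rfl }
  -- the fibre
  let e : Fib (hatMap a) (hp 1 q : HX Q Q) ≃ Fib a q :=
    { toFun := fun p => ⟨p.1.2, congrArg Prod.snd p.2⟩
      invFun := fun x => ⟨hp 1 x.1, Prod.ext rfl x.2⟩
      left_inv := fun p => Subtype.ext (Prod.ext (congrArg Prod.fst p.2).symm rfl)
      right_inv := fun x => rfl }
  have he : ∀ (g : MulAction.stabilizer (Psi A Q) (hp 1 q : HX Q Q)) (p : Fib (hatMap a) (hp 1 q : HX Q Q)),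
      e (g • p) = α g • e p := fun _ _ => rfl
  have hRs : RanksIn K (MulAction.stabilizer (Psi A Q) (hp 1 q : HX Q Q)) n :=
    ranksIn_of_injective ((MulAction.stabilizer A q).subtype.comp α.toMonoidHom)
      (fun x y hxy => α.injective (Subtype.ext hxy)) hR
  have hl : Loc (hatMap a) (hat Q Y) := by
    intro p f hf
    rw [mem_hat] at hf ⊢
    intro ν
    by_cases hν : ν = p.1
    · have h1 : sl ν (cu {x | hatMap a x = p} f) = cu {x | a x = p.2} (sl ν f) := by
        ext x
        rw [sl_apply, cu_apply, cu_apply]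
        have h2 : (hp ν x : HX Q X) ∈ {x | hatMap a x = p} ↔ x ∈ {x | a x = p.2} := by
          constructor
          · intro h3
            exact congrArg Prod.snd h3
          · intro h3
            exact Prod.ext hν h3
        by_cases h3 : x ∈ {x | a x = p.2}
        · rw [if_pos h3, if_pos (h2.2 h3)]
          rfl
        · rw [if_neg h3, if_neg (fun h4 => h3 (h2.1 h4))]
      rw [h1]
      exact lY _ _ (hf ν)
    · have h1 : sl ν (cu {x | hatMap a x = p} f) = 0 := by
        ext x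
        rw [sl_apply, cu_apply, if_neg]
        · rfl
        · intro h3
          exact hν (congrArg Prod.fst h3)
      rw [h1]
      exact Submodule.zero_mem _
  have h1 := hull_aux hn (hatMap a) (hp 1 q : HX Q Q) ho' hRs (ssp_hat hn hR hS q) hY.hat hl h
  have h2 := h1.equiv α e he
  have h3 : (loc (hatMap a) (hp 1 q : HX Q Q) (hat Q Y)).map (push e e.injective : L2 (Fib (hatMap a) (hp 1 q : HX Q Q)) →ₗ[ℂ] L2 (Fib a q)) =
      loc a q Y := by
    ext f
    rw [mem_map_push, mem_loc, mem_loc, mem_hat]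
    have h4 : sl 1 (push (fi (hatMap a) (hp 1 q : HX Q Q)) (fi_inj _ _) (pull e e.injective f)) =
        push (fi a q) (fi_inj a q) f := by
      ext x
      rw [sl_apply]
      by_cases hx : a x = q
      · have h5 := push_apply (fi (hatMap a) (hp 1 q : HX Q Q)) (fi_inj _ _) (pull e e.injective f)
          (⟨hp 1 x, Prod.ext rfl hx⟩ : Fib (hatMap a) (hp 1 q : HX Q Q))
        have h6 := push_apply (fi a q) (fi_inj a q) f (⟨x, hx⟩ : Fib a q)
        exact h5.trans h6.symm
      · rw [push_apply_of_notMem, push_apply_of_notMem]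
        · rintro ⟨y, hy⟩
          apply hx
          rw [← hy]
          exact y.2
        · rintro ⟨y, hy⟩
          have h5 : y.1 = hp 1 x := hy
          have h6 := congrArg Prod.snd y.2
          rw [h5] at h6
          exact hx h6
    have h5 : ∀ ν, ν ≠ 1 →
        sl ν (push (fi (hatMap a) (hp 1 q : HX Q Q)) (fi_inj _ _) (pull e e.injective f)) = 0 := by
      intro ν hν
      ext x
      rw [sl_apply, push_apply_of_notMem]
      · rfl
      · rintro ⟨y, hy⟩
        have h5 : y.1 = hp ν x := hy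
        have h6 := congrArg Prod.fst y.2
        rw [h5] at h6
        exact hν h6
    constructor
    · intro h6
      have h7 := h6 1
      rwa [h4] at h7
    · intro h6 ν
      by_cases hν : ν = 1
      · rw [hν, h4]
        exact h6
      · rw [h5 ν hν]
        exact Submodule.zero_mem _
  rw [h3] at h2
  exact h2

end ATY
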