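import Pool.Agent.ATY.E3b

/-!
# The comparison property passes to intermediate subgroups

If `C ≤ B ≤ A` and induction from `C` to `A` preserves the largest maxima, so does induction from `C` to `B`.
-/

set_option autoImplicit false

open scoped ComplexConjugate InnerProductSpace
open Filter Topology

namespace ATY
open Singer Pool.WeakAtiyah

section one
variable {A : Type} [Group A] (B : Subgroup A)

/-- the coset of `1` -/
def c1 : A ⧸ B := ((1 : A) : A ⧸ B)

/-- its representative -/
noncomputable def g1 : B := ⟨Quotient.out (c1 B), by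
  have h1 : ((Quotient.out (c1 B) : A) : A ⧸ B) = ((1 : A) : A ⧸ B) := Quotient.out_eq' (c1 B)
  have h2 := QuotientGroup.eq.1 h1.symm
  rwa [inv_one, one_mul] at h2⟩

lemma smul_c1_iff (g : A) : g • c1 B = c1 B ↔ g ∈ B := by
  have h1 : g • c1 B = ((g : A) : A ⧸ B) := by
    show ((g * 1 : A) : A ⧸ B) = _
    rw [mul_one]
  rw [h1]
  show ((g : A) : A ⧸ B) = ((1 : A) : A ⧸ B) ↔ _
  rw [QuotientGroup.eq, mul_one]
  exact inv_mem_iff

lemma cyc_c1 {g : A} (hg : g ∈ B) : cyc B g (c1 B) = (g1 B)⁻¹ * ⟨g, hg⟩ * g1 B := by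
  apply Subtype.ext
  have h1 := out_mul_cyc B g (c1 B)
  rw [(smul_c1_iff B g).2 hg] at h1
  have h2 : (cyc B g (c1 B) : A) = (Quotient.out (c1 B))⁻¹ * (g * Quotient.out (c1 B)) := by
    rw [← h1, inv_mul_cancel_left]
  rw [h2, ← mul_assoc]
  rfl

lemma smul_imk_c1 {X : Type} [MulAction B X] {g : A} (hg : g ∈ B) (x : X) :
    g • imk B (c1 B) ((g1 B)⁻¹ • x) = imk B (c1 B) ((g1 B)⁻¹ • (⟨g, hg⟩ : B) • x) := by
  rw [ind_smul, (smul_c1_iff B g).2 hg, cyc_c1 B hg]
  congr 1
  rw [mul_smul, mul_smul, smul_inv_smul]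

variable {X Q : Type} [MulAction B X] [MulAction B Q]

/-- the projection to the cosets -/
def pr1 : Ind B X →[A] A ⧸ B := ⟨Prod.fst, fun _ _ => rfl⟩

/-- the induced map -/
noncomputable def indMap (a : X →[B] Q) : Ind B X →[A] Ind B Q := ⟨fun x => imk B x.1 (a x.2), fun g x => by
  show imk B (g • x.1) (a (cyc B g x.1 • x.2)) = g • imk B x.1 (a x.2)
  rw [ind_smul, map_smul]⟩

lemma indMap_apply (a : X →[B] Q) (c : A ⧸ B) (x : X) : indMap B a (imk B c x) = imk B c (a x) := rfl

/-- the base point -/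
noncomputable def qh (q : Q) : Ind B Q := imk B (c1 B) ((g1 B)⁻¹ • q)

lemma stab_qh (q : Q) : MulAction.stabilizer A (qh B q) = (MulAction.stabilizer B q).map B.subtype := by
  ext g
  rw [MulAction.mem_stabilizer_iff, Subgroup.mem_map]
  constructor
  · intro h
    have h1 : g • c1 B = c1 B := congrArg Prod.fst h
    have h2 := (smul_c1_iff B g).1 h1
    have h3 := h
    unfold qh at h3
    rw [smul_imk_c1 B h2] at h3
    have h4 := imk_inj B (c1 B) h3
    have h5 : (⟨g, h2⟩ : B) • q = q := by
      have h6 := congrArg (fun r => g1 B • r) h4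
      simpa only [smul_inv_smul] using h6
    exact ⟨⟨g, h2⟩, h5, rfl⟩
  · rintro ⟨b, hb, rfl⟩
    have hb' : b • q = q := hb
    show (b : A) • qh B q = qh B q
    unfold qh
    rw [smul_imk_c1 B b.2]
    have : (⟨(b : A), b.2⟩ : B) = b := rfl
    rw [this, hb']

lemma orbit_qh {a : X →[B] Q} {q : Q} (ho : ∀ x, a x ∈ MulAction.orbit B q) (x : Ind B X) :
    indMap B a x ∈ MulAction.orbit A (qh B q) := by
  obtain ⟨c, x⟩ := x
  obtain ⟨b, hb⟩ := ho x
  have hb' : b • q = a x := hb
  -- the element out c * b * g1⁻¹ ... moves the base point to the point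
  refine ⟨Quotient.out c * (b : A), ?_⟩
  show (Quotient.out c * (b : A)) • qh B q = imk B c (a x)
  rw [mul_smul]
  unfold qh
  rw [smul_imk_c1 B b.2]
  have h1 : (⟨(b : A), b.2⟩ : B) = b := rfl
  rw [h1, hb', ind_smul]
  have h2 : (Quotient.out c : A) • c1 B = c := by
    have h3 : (Quotient.out c : A) • c1 B = ((Quotient.out c : A) : A ⧸ B) := by
      show ((Quotient.out c * 1 : A) : A ⧸ B) = _
      rw [mul_one]
    rw [h3]
    exact Quotient.out_eq' c
  have h4 : cyc B (Quotient.out c) (c1 B) = g1 B := by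
    apply Subtype.ext
    have h5 := out_mul_cyc B (Quotient.out c) (c1 B)
    rw [h2] at h5
    exact mul_left_cancel h5
  rw [h2, h4, smul_inv_smul]

/-- closed invariant subspaces -/
lemma Md.indSub {W : Submodule ℂ (L2 X)} (hW : Md B W) : Md A (indSub B W) where
  inv g f hf c := by
    rw [sh_la]
    exact hW.inv _ _ (hf _)
  cl := by
    have h4 : ((ATY.indSub B W : Submodule ℂ (L2 (Ind B X))) : Set (L2 (Ind B X))) = ⋂ c : A ⧸ B, sh B c ⁻¹' (W : Set (L2 X)) := by
      ext f
      rw [Set.mem_iInter]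
      exact Iff.rfl
    rw [h4]
    exact isClosed_iInter fun c => hW.cl.preimage (sh B c).continuous

lemma sh_cu (c : A ⧸ B) (S : Set (Ind B X)) (f : L2 (Ind B X)) : sh B c (cu S f) = cu {x | imk B c x ∈ S} (sh B c f) := by
  classical
  ext x
  rw [sh_apply, cu_apply, cu_apply]
  rfl

lemma loc_indSub {a : X →[B] Q} {W : Submodule ℂ (L2 X)} (hl : Loc a W) : Loc (indMap B a) (indSub B W) := by
  intro r f hf c
  rw [sh_cu]
  by_cases h : c = r.1
  · have h1 : {x : X | imk B c x ∈ {x | indMap B a x = r}} = {x | a x = r.2} := by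
      ext x
      show imk B c (a x) = r ↔ a x = r.2
      constructor
      · intro h
        exact congrArg Prod.snd h
      · intro h2
        exact Prod.ext h h2
    rw [h1]
    exact hl _ _ (hf c)
  · have h1 : cu {x : X | imk B c x ∈ {x | indMap B a x = r}} (sh B c f) = 0 := by
      ext x
      rw [cu_apply, if_neg]
      · rfl
      · intro h2
        have h3 : imk B c (a x) = r := h2
        exact h (congrArg Prod.fst h3)
    rw [h1]
    exact Submodule.zero_mem _

/-- the part over the base point -/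
lemma loc_qh (a : X →[B] Q) (q : Q) {W : Submodule ℂ (L2 X)} (hW : Md B W) (e : Fib a q ≃ Fib (indMap B a) (qh B q))
    (he : ∀ x : Fib a q, (e x).1 = imk B (c1 B) ((g1 B)⁻¹ • x.1)) :
    (loc a q W).map (push e e.injective : L2 (Fib a q) →ₗ[ℂ] L2 (Fib (indMap B a) (qh B q))) =
      loc (indMap B a) (qh B q) (indSub B W) := by
  classical
  ext f
  rw [mem_map_push]
  have hk : push (fi a q) (fi_inj a q) (pull e e.injective f) =
      la (g1 B) (sh B (c1 B) (push (fi (indMap B a) (qh B q)) (fi_inj _ _) f)) := by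
    ext x
    rw [la_apply, sh_apply]
    by_cases hx : a x = q
    · have h1 : push (fi a q) (fi_inj a q) (pull e e.injective f) (fi a q ⟨x, hx⟩) = pull e e.injective f ⟨x, hx⟩ :=
        push_apply _ _ _ _
      have h2 : imk B (c1 B) ((g1 B)⁻¹ • x) = fi (indMap B a) (qh B q) (e ⟨x, hx⟩) := (he ⟨x, hx⟩).symm
      rw [h2, push_apply]
      exact h1
    · rw [push_apply_of_notMem, push_apply_of_notMem]
      · rintro ⟨z, hz⟩
        apply hx
        have h1 : indMap B a (imk B (c1 B) ((g1 B)⁻¹ • x)) = qh B q := by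
          rw [← show (fi (indMap B a) (qh B q) z) = imk B (c1 B) ((g1 B)⁻¹ • x) from hz]
          exact z.2
        rw [indMap_apply] at h1
        have h2 := imk_inj B (c1 B) h1
        rw [map_smul] at h2
        have h3 := congrArg (fun r => g1 B • r) h2
        simpa only [smul_inv_smul] using h3
      · rintro ⟨z, hz⟩
        exact hx (hz ▸ z.2)
  constructor
  · intro h c
    have h1 : push (fi a q) (fi_inj a q) (pull e e.injective f) ∈ W := h
    rw [hk] at h1
    by_cases hc : c = c1 B
    · subst hc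
      have h2 := hW.inv (g1 B)⁻¹ _ h1
      have h3 : ∀ u : L2 X, la (g1 B)⁻¹ (la (g1 B) u) = u := by
        intro u
        ext x
        rw [la_apply, la_apply, inv_inv, inv_smul_smul]
      rwa [h3] at h2
    · have h2 : sh B c (push (fi (indMap B a) (qh B q)) (fi_inj _ _) f) = 0 := by
        ext x
        rw [sh_apply, push_apply_of_notMem]
        · rfl
        · rintro ⟨z, hz⟩
          apply hc
          have h3 : indMap B a (imk B c x) = qh B q := by
            rw [← show (fi (indMap B a) (qh B q) z) = imk B c x from hz]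
            exact z.2
          exact congrArg Prod.fst h3
      show sh B c (push (fi (indMap B a) (qh B q)) (fi_inj _ _) f) ∈ W
      rw [h2]
      exact Submodule.zero_mem _
  · intro h
    show push (fi a q) (fi_inj a q) (pull e e.injective f) ∈ W
    rw [hk]
    exact hW.inv _ _ (h (c1 B))

end one

/-- the fibre over the base point -/
noncomputable def eqh {A : Type} [Group A] (B : Subgroup A) {X Q : Type} [MulAction B X] [MulAction B Q] (a : X →[B] Q)
    (q : Q) : Fib a q ≃ Fib (indMap B a) (qh B q) where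
  toFun x := ⟨imk B (c1 B) ((g1 B)⁻¹ • x.1), by
    rw [indMap_apply, map_smul, x.2]
    rfl⟩
  invFun x := ⟨g1 B • x.1.2, by
    have h1 : imk B x.1.1 (a x.1.2) = qh B q := x.2
    have h2 : a x.1.2 = (g1 B)⁻¹ • q := congrArg Prod.snd h1
    rw [map_smul, h2, smul_inv_smul]⟩
  left_inv x := Subtype.ext (smul_inv_smul _ _)
  right_inv x := by
    have h1 : imk B x.1.1 (a x.1.2) = qh B q := x.2
    have h2 : x.1.1 = c1 B := congrArg Prod.fst h1
    apply Subtype.ext
    exact Prod.ext h2.symm (inv_smul_smul _ _)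

/-- the stabiliser of the base point -/
noncomputable def aqh {A : Type} [Group A] (B : Subgroup A) {Q : Type} [MulAction B Q] (q : Q) :
    MulAction.stabilizer B q ≃* MulAction.stabilizer A (qh B q) where
  toFun h := ⟨(h.1 : A), by rw [stab_qh]; exact ⟨h.1, h.2, rfl⟩⟩
  invFun h := ⟨⟨h.1, by
    obtain ⟨b, _, hb⟩ := (SetLike.ext_iff.1 (stab_qh B q) h.1).1 h.2
    rw [← hb]
    exact b.2⟩, by
    obtain ⟨b, hb, hb'⟩ := (SetLike.ext_iff.1 (stab_qh B q) h.1).1 h.2
    have h2 : (⟨h.1, by rw [← hb']; exact b.2⟩ : B) = b := Subtype.ext hb'.symm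
    rw [h2]
    exact hb⟩
  left_inv h := rfl
  right_inv h := rfl
  map_mul' g h := rfl

lemma eqh_smul {A : Type} [Group A] (B : Subgroup A) {X Q : Type} [MulAction B X] [MulAction B Q] (a : X →[B] Q)
    (q : Q) (h : MulAction.stabilizer B q) (x : Fib a q) : eqh B a q (h • x) = aqh B q h • eqh B a q x := by
  apply Subtype.ext
  exact (smul_imk_c1 B h.1.2 x.1).symm

section dim
variable {A : Type} [Group A] (B : Subgroup A) {X : Type} [MulAction B X] [FC B X]

/-- the dimension of an induced subspace -/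
lemma exists_vd_indSub [Nonempty X] : ∃ m : ℝ, 0 < m ∧
    ∀ W : Submodule ℂ (L2 X), Md B W → vd A (indSub B W) = m * vd B W := by
  classical
  -- the one point set
  let q : B ⧸ (⊤ : Subgroup B) := ((1 : B) : B ⧸ (⊤ : Subgroup B))
  have : Subsingleton (B ⧸ (⊤ : Subgroup B)) := QuotientGroup.subsingleton_quotient_top
  let a : X →[B] B ⧸ (⊤ : Subgroup B) := ⟨fun _ => q, fun _ _ => Subsingleton.elim _ _⟩
  have ho : ∀ x, a x ∈ MulAction.orbit B q := fun x => ⟨1, Subsingleton.elim _ _⟩
  have hl : ∀ W : Submodule ℂ (L2 X), Loc a W := by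
    intro W r f hf
    have h1 : cu {x | a x = r} f = f := by
      ext x
      rw [cu_apply, if_pos]
      exact Subsingleton.elim _ _
    rwa [h1]
  obtain ⟨m, hm0, hm⟩ := exists_mult (G := A) (a := indMap B a) (qh B q) (orbit_qh B ho)
  obtain ⟨m', hm0', hm'⟩ := exists_mult (G := B) (a := a) q ho
  have hv : ∀ W : Submodule ℂ (L2 X), Md B W → vd A (indSub B W) = m * vd (MulAction.stabilizer B q) (loc a q W) := by
    intro W hW
    rw [hm _ (Md.indSub B hW) (loc_indSub B (hl W)), ← loc_qh B a q hW (eqh B a q) fun x => rfl,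
      vd_equiv (aqh B q) (eqh B a q) (eqh_smul B a q) (hW.loc q)]
  have hne : ∀ W : Submodule ℂ (L2 X), W = ⊥ → W ≠ ⊤ := by
    intro W h1 h2
    obtain ⟨x⟩ := (inferInstance : Nonempty X)
    have h3 : dl x ∈ (⊤ : Submodule ℂ (L2 X)) := trivial
    rw [← h2, h1, Submodule.mem_bot] at h3
    have h4 := congrArg (fun u : L2 X => u x) h3
    have h5 : dl x x = (0 : ℂ) := h4
    rw [AA.dl_self] at h5
    exact one_ne_zero h5
  have hpos : 0 < vd B (⊤ : Submodule ℂ (L2 X)) := by
    rcases (vd_nonneg (H := B) (⊤ : Submodule ℂ (L2 X))).lt_or_eq with h | h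
    · exact h
    · exfalso
      have h1 := eq_of_vd_le (H := B) md_bot (md_top (H := B) (X := X)) bot_le (by rw [vd_bot, ← h])
      exact hne _ rfl h1
  have hm'pos : 0 < m' := by
    rcases hm0'.lt_or_eq with h | h
    · exact h
    · exfalso
      have h1 := hm' ⊤ md_top (hl ⊤)
      rw [← h, zero_mul] at h1
      exact hpos.ne' h1
  have hmpos : 0 < m := by
    rcases hm0.lt_or_eq with h | h
    · exact h
    · exfalso
      have h1 := hv ⊤ md_top
      rw [← h, zero_mul] at h1
      have h2 : indSub B (⊤ : Submodule ℂ (L2 X)) = ⊤ := by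
        rw [eq_top_iff]
        exact fun f _ c => trivial
      rw [h2] at h1
      have h3 := eq_of_vd_le (H := A) md_bot (md_top (H := A) (X := Ind B X)) bot_le (by rw [vd_bot, h1])
      obtain ⟨x⟩ := (inferInstance : Nonempty X)
      have h4 : dl (imk B (c1 B) x) ∈ (⊤ : Submodule ℂ (L2 (Ind B X))) := trivial
      rw [← h3, Submodule.mem_bot] at h4
      have h5 := congrArg (fun u : L2 (Ind B X) => u (imk B (c1 B) x)) h4
      have h6 : dl (imk B (c1 B) x) (imk B (c1 B) x) = (0 : ℂ) := h5
      rw [AA.dl_self] at h6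
      exact one_ne_zero h6
  refine ⟨m / m', div_pos hmpos hm'pos, fun W hW => ?_⟩
  rw [hv W hW, hm' W hW (hl W)]
  field_simp

lemma indSub_inf (V W : Submodule ℂ (L2 X)) : indSub B (V ⊓ W) = indSub B V ⊓ indSub B W := by
  ext f
  constructor
  · intro h
    exact ⟨fun c => (h c).1, fun c => (h c).2⟩
  · intro h c
    exact ⟨h.1 c, h.2 c⟩

lemma le_of_indSub_le {V W : Submodule ℂ (L2 X)} (h : indSub B V ≤ indSub B W) : V ≤ W := by
  classical
  intro f hf
  have h1 : hs B (c1 B) f ∈ indSub B V := by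
    intro c
    by_cases hc : c = c1 B
    · subst hc
      rw [sh_hs]
      exact hf
    · rw [sh_hs_ne B hc]
      exact Submodule.zero_mem _
  have h2 := h h1 (c1 B)
  rwa [sh_hs] at h2

end dim

/-- the property passes to intermediate subgroups -/
theorem ssp_restrict {K : Subfield ℂ} {A : Type} [Group A] (B C : Subgroup A) (hCB : C ≤ B) :
    SSP K A C → SSP K B (C.subgroupOf B) := by
  classical
  intro hS X Q _ _ _ a q _ hC ho t Z Y hZ lZ hY lY hT
  by_cases hX : Nonempty X
  · have hst : MulAction.stabilizer A (qh B q) = C := by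
      rw [stab_qh, hC, Subgroup.subgroupOf_map_subtype, inf_eq_left.2 hCB]
    have hT1 := hT.equiv (aqh B q) (eqh B a q) (eqh_smul B a q) (hZ.loc q)
    rw [loc_qh B a q hZ (eqh B a q) fun x => rfl, loc_qh B a q hY (eqh B a q) fun x => rfl] at hT1
    have hA := hS (Ind B X) (Ind B Q) (indMap B a) (qh B q) hst (orbit_qh B ho) t (indSub B Z) (indSub B Y)
      (Md.indSub B hZ) (loc_indSub B lZ) (Md.indSub B hY) (loc_indSub B lY) hT1
    obtain ⟨m, hm, hv⟩ := exists_vd_indSub (A := A) B (X := X)
    have hhf : ∀ W : Submodule ℂ (L2 X), Md B W → hf A t (indSub B Z) (indSub B W) = m * hf B t Z W := by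
      intro W hW
      unfold hf
      rw [← indSub_inf, hv _ (Md.inf hZ hW), hv _ hW]
      ring
    refine ⟨rat_of_loc ho hY lY hT.mem, fun Y' hY' => ?_, fun Y' hY' hle => ?_⟩
    · have h1 := hA.le _ (rat_indSub B hY')
      rw [hhf _ hY'.md, hhf _ hY] at h1
      exact le_of_mul_le_mul_left h1 hm
    · apply le_of_indSub_le B
      apply hA.top _ (rat_indSub B hY')
      rw [hhf _ hY'.md, hhf _ hY]
      exact mul_le_mul_of_nonneg_left hle hm.le
  · have hsub : ∀ V W : Submodule ℂ (L2 X), V = W := by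
      intro V W
      have hz : ∀ f : L2 X, f = 0 := by
        intro f
        ext x
        exact absurd ⟨x⟩ hX
      ext f
      rw [hz f]
      exact ⟨fun _ => W.zero_mem, fun _ => V.zero_mem⟩
    exact ⟨rat_of_loc ho hY lY hT.mem, fun Y' _ => by rw [hsub Y' Y], fun Y' _ _ => by rw [hsub Y' Y]⟩

end ATY
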