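import Pool.Agent.ATY.G
import Pool.Agent.Singer.Gen.HalfTree

/-! # Groups acting on trees (row F) -/

set_option autoImplicit false
set_option linter.unusedSectionVars false
set_option linter.unusedVariables false

open scoped ComplexConjugate InnerProductSpace
open Filter Topology

namespace ATY
open Singer Pool.WeakAtiyah

section tree
variable {G V : Type} [Group G] [MulAction G V] {T : SimpleGraph V}

/-- every dart of a tree separates -/
lemma bit_tree (hT : T.IsTree) {X : Type} [MulAction G X] (δ : X →[G] V × V) (hδ : ∀ x, T.Adj (δ x).1 (δ x).2) :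
    Bit δ (tailHom G V) (edgeHom G V) := by
  intro x₀
  set v := (δ x₀).1 with hv
  set w := (δ x₀).2 with hw
  have hvw : T.Adj v w := hδ x₀
  refine ⟨HT.half T v w, {e | ∀ a b, e = ue a b → a ∈ HT.half T v w ∧ b ∈ HT.half T v w}, ?_, ?_, ?_⟩
  · exact HT.mem_half_self v w
  · intro h
    exact HT.notMem_half hT hvw (h v w rfl).2
  · intro x hx
    set a := (δ x).1 with ha
    set b := (δ x).2 with hb
    have hab : T.Adj a b := hδ x
    show a ∈ HT.half T v w ↔ ∀ c d, ue a b = ue c d → c ∈ HT.half T v w ∧ d ∈ HT.half T v w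
    have hiff : (∀ c d, ue a b = ue c d → c ∈ HT.half T v w ∧ d ∈ HT.half T v w) ↔
        (a ∈ HT.half T v w ∧ b ∈ HT.half T v w) := by
      constructor
      · intro h
        exact h a b rfl
      · rintro ⟨h1, h2⟩ c d hcd
        have h3 : s(a, b) = s(c, d) := hcd
        rw [Sym2.eq_iff] at h3
        rcases h3 with ⟨rfl, rfl⟩ | ⟨rfl, rfl⟩
        · exact ⟨h1, h2⟩
        · exact ⟨h2, h1⟩
    rw [hiff]
    by_cases h1 : a = v ∧ b = w
    · exfalso
      apply hx
      exact Prod.ext h1.1 h1.2
    · by_cases h2 : a = w ∧ b = v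
      · constructor
        · intro h3
          rw [h2.1] at h3
          exact absurd h3 (HT.notMem_half hT hvw)
        · intro h3
          exact h3.1
      · have h3 := HT.half_step' hab h1 h2
        constructor
        · intro h4
          exact ⟨h4, h3.1 h4⟩
        · intro h4
          exact h4.1

lemma stab_ue_le (hI : ∀ (g : G) (v w : V), T.Adj v w → g • v = w → g • w ≠ v) {v w : V} (h : T.Adj v w) :
    MulAction.stabilizer G (ue v w) ≤ MulAction.stabilizer G v := by
  intro g hg
  rw [MulAction.mem_stabilizer_iff] at hg ⊢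
  rw [smul_ue] at hg
  have h3 : s(g • v, g • w) = s(v, w) := hg
  rw [Sym2.eq_iff] at h3
  rcases h3 with ⟨h4, _⟩ | ⟨h4, h5⟩
  · exact h4
  · exact absurd h5 (hI g v w h h4)

lemma stab_ue_le' (hI : ∀ (g : G) (v w : V), T.Adj v w → g • v = w → g • w ≠ v) {v w : V} (h : T.Adj v w) :
    MulAction.stabilizer G (ue v w) ≤ MulAction.stabilizer G (v, w) := by
  intro g hg
  have h1 := stab_ue_le hI h hg
  have h2 : g • w = w := by
    rw [MulAction.mem_stabilizer_iff] at hg h1
    rw [smul_ue] at hg
    have h3 : s(g • v, g • w) = s(v, w) := hg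
    rw [Sym2.eq_iff] at h3
    rcases h3 with ⟨_, h4⟩ | ⟨h4, h5⟩
    · exact h4
    · exact absurd h5 (hI g v w h h4)
  rw [MulAction.mem_stabilizer_iff] at h1 ⊢
  exact Prod.ext h1 h2

lemma dst_tail_ff (v w : V) : dst (tailHom G V) (v, w) =
    (MulAction.stabilizer G w).subgroupOf (MulAction.stabilizer G ((tailHom G V) (v, w))) := by
  ext g
  unfold dst
  rw [Subgroup.mem_subgroupOf, Subgroup.mem_subgroupOf, MulAction.mem_stabilizer_iff, MulAction.mem_stabilizer_iff]
  have hg : (g : G) • v = v := g.2
  constructor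
  · intro h
    exact congrArg Prod.snd h
  · intro h
    exact Prod.ext hg h

lemma dst_edge_ff (hI : ∀ (g : G) (v w : V), T.Adj v w → g • v = w → g • w ≠ v) {v w : V} (h : T.Adj v w) :
    dst (edgeHom G V) (v, w) = ⊤ := by
  rw [eq_top_iff]
  intro g _
  unfold dst
  rw [Subgroup.mem_subgroupOf]
  exact stab_ue_le' hI h g.2

end tree

theorem tree_main {K : Subfield ℂ} {n : ℕ} (hn : 0 < n) {G V : Type} [Group G] [MulAction G V] {T : SimpleGraph V}
    (hT : T.IsTree) (hA : ∀ (g : G) (v w : V), T.Adj v w → T.Adj (g • v) (g • w))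
    (hI : ∀ (g : G) (v w : V), T.Adj v w → g • v = w → g • w ≠ v)
    (hS : ∀ v w : V, T.Adj v w → SSP K (MulAction.stabilizer G v)
      ((MulAction.stabilizer G w).subgroupOf (MulAction.stabilizer G v)))
    (hR : ∀ v : V, RanksIn K (MulAction.stabilizer G v) n) : RanksIn K G n := by
  by_cases hne : ∃ v w, T.Adj v w
  · intro ι κ _ _ A
    obtain ⟨m, δ, M₀, M₁, hadj, h₀, h₁, l₀, l₁, q₀, q₁, hvd⟩ := linearise (K := K) hT hA hne A
    have hRe : ∀ x, RanksIn K (MulAction.stabilizer G ((edgeHom G V) (δ x))) n := by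
      intro x
      exact ranksIn_of_injective (Subgroup.inclusion (stab_ue_le hI (hadj x)))
        (Subgroup.inclusion_injective _) (hR (δ x).1)
    obtain ⟨z, hz⟩ := bit_main (K := K) hn (bit_tree hT δ hadj) (fun x => hR _) hRe
      (fun x => by
        have h1 := hS (δ x).1 (δ x).2 (hadj x)
        have h2 := dst_tail_ff (G := G) (δ x).1 (δ x).2
        have h3 : SSP K (MulAction.stabilizer G ((tailHom G V) (δ x))) (dst (tailHom G V) ((δ x).1, (δ x).2)) := by
          rw [h2]
          exact h1
        exact h3)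
      (fun x => by
        have h2 := dst_edge_ff (G := G) hI (hadj x)
        have h3 : SSP K (MulAction.stabilizer G ((edgeHom G V) (δ x))) (dst (edgeHom G V) ((δ x).1, (δ x).2)) := by
          rw [h2]
          exact ssp_of_finiteIndex hn (hRe x) ⊤
        exact h3)
      h₀ h₁ l₀ l₁ (fun x => q₀ _) (fun x => q₁ _)
    have h1 := vdim_ker_add (equi_hatK A)
    have h2 : rank A = vdim (rg A) := rank_eq A
    refine ⟨Fintype.card ι * n - z, ?_⟩
    rw [h2]
    have h3 : vdim (rg A) = Fintype.card ι - z / n := by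
      rw [← hz, hvd]
      have h4 : vdim (rg A) + vdim (LinearMap.ker (hatK A : E G ι →ₗ[ℂ] E G κ)) = Fintype.card ι := h1
      linarith
    rw [h3]
    have hn' : (n : ℝ) ≠ 0 := by exact_mod_cast hn.ne'
    push_cast
    field_simp
  · have hsub : ∀ v w : V, v = w := by
      intro v w
      obtain ⟨p⟩ := hT.connected.preconnected v w
      cases p with
      | nil => rfl
      | cons h _ => exact absurd ⟨_, _, h⟩ hne
    obtain ⟨v⟩ := hT.connected.nonempty
    let f : G →* MulAction.stabilizer G v :=
      { toFun := fun g => ⟨g, hsub _ _⟩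
        map_one' := rfl
        map_mul' := fun _ _ => rfl }
    exact ranksIn_of_injective f (fun a b h => congrArg Subtype.val h) (hR v)

end ATY
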