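import Pool.Agent.ATY.A2
import Pool.Agent.Singer.Gen.HalfTree

/-!
# Definitions for the theorem on trees with free vertex stabilisers

`A` acts on `Q`; `FreeGroup (Q × ℤ)`, with `A` permuting the letters; `Psi A Q = FreeGroup (Q × ℤ) ⋊ A`.
* `HX Q X = FreeGroup (Q × ℤ) × X` is the `Psi A Q`-set induced from the `A`-set `X`; `sl ν`: the slice over `ν`;
  `hat Q W`: the module induced from `W`.
* `cut T δ d`: restriction to the half tree of the dart `d = (v, w)` which contains `v`;
* `Wd T δ W d`: the elements of `W` which may be cut at `d`; `St T δ W d`: its orthogonal complement in `W` (the states).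
-/

set_option autoImplicit false

open scoped ComplexConjugate InnerProductSpace

namespace ATY
open Singer Singer.HT

section semi

/-- the permutation of the letters -/
noncomputable def phiA (A Q : Type) [Group A] [MulAction A Q] : A →* MulAut (FreeGroup (Q × ℤ)) where
  toFun a := FreeGroup.freeGroupCongr ((MulAction.toPerm a).prodCongr (Equiv.refl ℤ))
  map_one' := by
    ext x
    change FreeGroup.map (fun p : Q × ℤ => ((1 : A) • p.1, p.2)) x = x
    rw [show (fun p : Q × ℤ => ((1 : A) • p.1, p.2)) = id from funext fun p => Prod.ext (one_smul A p.1) rfl,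
      FreeGroup.map.id]
  map_mul' a b := by
    ext x
    change FreeGroup.map (fun p : Q × ℤ => ((a * b) • p.1, p.2)) x =
      FreeGroup.map (fun p : Q × ℤ => (a • p.1, p.2)) (FreeGroup.map (fun p : Q × ℤ => (b • p.1, p.2)) x)
    rw [FreeGroup.map.comp]
    congr 2
    funext p
    exact Prod.ext (mul_smul a b p.1) rfl

lemma phiA_apply {A Q : Type} [Group A] [MulAction A Q] (a : A) (ν : FreeGroup (Q × ℤ)) :
    phiA A Q a ν = FreeGroup.map (fun p : Q × ℤ => (a • p.1, p.2)) ν := rfl

@[simp] lemma phiA_of {A Q : Type} [Group A] [MulAction A Q] (a : A) (q : Q) (k : ℤ) :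
    phiA A Q a (FreeGroup.of (q, k)) = FreeGroup.of (a • q, k) := by
  rw [phiA_apply, FreeGroup.map.of]

/-- the semidirect product -/
abbrev Psi (A Q : Type) [Group A] [MulAction A Q] : Type := FreeGroup (Q × ℤ) ⋊[phiA A Q] A

/-- the induced set -/
def HX (Q X : Type) : Type := FreeGroup (Q × ℤ) × X

noncomputable instance instHX (A Q X : Type) [Group A] [MulAction A Q] [MulAction A X] : MulAction (Psi A Q) (HX Q X) where
  smul g p := (g.left * phiA A Q g.right p.1, g.right • p.2)
  one_smul p := by
    show ((1 : Psi A Q).left * phiA A Q (1 : Psi A Q).right p.1, (1 : Psi A Q).right • p.2) = p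
    rw [SemidirectProduct.one_left, SemidirectProduct.one_right, map_one, one_mul, one_smul]
    rfl
  mul_smul g h p := by
    show ((g * h).left * phiA A Q (g * h).right p.1, (g * h).right • p.2) =
      (g.left * phiA A Q g.right (h.left * phiA A Q h.right p.1), g.right • h.right • p.2)
    rw [SemidirectProduct.mul_left, SemidirectProduct.mul_right, map_mul, map_mul, mul_smul, mul_assoc]
    rfl

lemma hx_smul {A Q X : Type} [Group A] [MulAction A Q] [MulAction A X] (g : Psi A Q) (p : HX Q X) :
    g • p = ((g.left * phiA A Q g.right p.1, g.right • p.2) : HX Q X) := rfl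

/-- the point `x` over `ν` -/
def hp {Q X : Type} (ν : FreeGroup (Q × ℤ)) (x : X) : HX Q X := (ν, x)

lemma hp_inj {Q X : Type} (ν : FreeGroup (Q × ℤ)) : Function.Injective (hp ν : X → HX Q X) :=
  fun _ _ h => congrArg Prod.snd h

/-- the slice over `ν` -/
noncomputable def sl {Q X : Type} (ν : FreeGroup (Q × ℤ)) : L2 (HX Q X) →L[ℂ] L2 X := pull (hp ν) (hp_inj ν)

@[simp] lemma sl_apply {Q X : Type} (ν : FreeGroup (Q × ℤ)) (f : L2 (HX Q X)) (x : X) : sl ν f x = f (hp ν x) := rfl

/-- the induced module -/
noncomputable def hat (Q : Type) {X : Type} (W : Submodule ℂ (L2 X)) : Submodule ℂ (L2 (HX Q X)) :=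
  ⨅ ν : FreeGroup (Q × ℤ), W.comap ((sl ν : L2 (HX Q X) →L[ℂ] L2 X) : L2 (HX Q X) →ₗ[ℂ] L2 X)

lemma mem_hat {Q X : Type} {W : Submodule ℂ (L2 X)} {f : L2 (HX Q X)} : f ∈ hat Q W ↔ ∀ ν, sl ν f ∈ W := by
  unfold hat
  rw [Submodule.mem_iInf]
  rfl

instance instFCHX (A Q X : Type) [Group A] [MulAction A Q] [MulAction A X] [hFC : FC A X] : FC (Psi A Q) (HX Q X) where
  free g p hp := by
    have h1 : g.right • p.2 = p.2 := congrArg Prod.snd hp
    have h2 : g.left * phiA A Q g.right p.1 = p.1 := congrArg Prod.fst hp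
    have h3 : g.right = 1 := hFC.free _ _ h1
    rw [h3, map_one] at h2
    have h4 : g.left = 1 := mul_eq_right.1 h2
    exact SemidirectProduct.ext h4 h3
  fin := by
    have : Finite (MulAction.orbitRel.Quotient A X) := hFC.fin
    have key : ∀ x y : X, (MulAction.orbitRel A X) x y →
        (Quotient.mk _ (hp 1 x) : MulAction.orbitRel.Quotient (Psi A Q) (HX Q X)) = Quotient.mk _ (hp 1 y) := by
      intro x y (h : x ∈ MulAction.orbit A y)
      obtain ⟨a, rfl⟩ := h
      refine Quotient.sound ?_
      show hp 1 (a • y) ∈ MulAction.orbit (Psi A Q) (hp 1 y)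
      refine ⟨SemidirectProduct.inr a, ?_⟩
      show (SemidirectProduct.inr a : Psi A Q) • hp 1 y = hp 1 (a • y)
      rw [hx_smul]
      refine Prod.ext ?_ rfl
      show (SemidirectProduct.inr a : Psi A Q).left * phiA A Q (SemidirectProduct.inr a : Psi A Q).right 1 = 1
      rw [map_one, mul_one, SemidirectProduct.left_inr]
    refine Finite.of_surjective (fun q : MulAction.orbitRel.Quotient A X => Quotient.lift (fun x : X =>
      (Quotient.mk _ (hp 1 x) : MulAction.orbitRel.Quotient (Psi A Q) (HX Q X))) key q) ?_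
    intro p
    induction p using Quotient.inductionOn with
    | h p =>
      refine ⟨Quotient.mk _ p.2, Quotient.sound ?_⟩
      show hp 1 p.2 ∈ MulAction.orbit (Psi A Q) p
      refine ⟨SemidirectProduct.inl p.1⁻¹, ?_⟩
      show (SemidirectProduct.inl p.1⁻¹ : Psi A Q) • p = hp 1 p.2
      rw [hx_smul]
      refine Prod.ext ?_ ?_
      · show (SemidirectProduct.inl p.1⁻¹ : Psi A Q).left * phiA A Q (SemidirectProduct.inl p.1⁻¹ : Psi A Q).right p.1 = 1
        rw [SemidirectProduct.left_inl, SemidirectProduct.right_inl, map_one]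
        exact inv_mul_cancel _
      · show (SemidirectProduct.inl p.1⁻¹ : Psi A Q).right • p.2 = p.2
        rw [SemidirectProduct.right_inl, one_smul]

end semi

section states
variable {V X : Type} (T : SimpleGraph V) (δ : X → V)

/-- restriction to the half tree of `(v, w)` which contains `v` -/
noncomputable def cut (d : V × V) : L2 X →L[ℂ] L2 X := cu (δ ⁻¹' half T d.1 d.2)

/-- the elements of `W` which may be cut at `d` -/
noncomputable def Wd (W : Submodule ℂ (L2 X)) (d : V × V) : Submodule ℂ (L2 X) :=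
  W ⊓ W.comap (cut T δ d : L2 X →ₗ[ℂ] L2 X)

/-- the states at `d` -/
noncomputable def St (W : Submodule ℂ (L2 X)) (d : V × V) : Submodule ℂ (L2 X) := W ⊓ (Wd T δ W d)ᗮ

/-- finite total number of states -/
structure FinSt (A : Type) [Group A] [MulAction A V] (W : Submodule ℂ (L2 X)) : Prop where
  fd : ∀ v w, T.Adj v w → FiniteDimensional ℂ (St T δ W (v, w))
  fo : ∃ s : Set (V × V), s.Finite ∧ ∀ v w, T.Adj v w → St T δ W (v, w) ≠ ⊥ →
    ∃ a : A, ∃ d ∈ s, v = a • d.1 ∧ w = a • d.2

/-- a free action on a tree without inversions -/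
structure FreeAct (A : Type) {V : Type} [Group A] [MulAction A V] (T : SimpleGraph V) : Prop where
  tree : T.IsTree
  adj : ∀ (g : A) (v w : V), T.Adj v w → T.Adj (g • v) (g • w)
  free : ∀ (g : A) (v : V), g • v = v → g = 1
  noinv : ∀ (g : A) (v w : V), T.Adj v w → g • v = w → g • w ≠ v

end states

end ATY
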