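import Pool.Agent.Helper49.WA.Defs

/-!
# Ranks over the trivial group
-/

set_option autoImplicit false

open scoped ComplexConjugate InnerProductSpace

namespace ATY
open Pool.WeakAtiyah

open Classical in
lemma single_ap {H κ : Type} [Group H] [inst : DecidableEq (H × κ)] (j i : κ) :
    (lp.single 2 ((1 : H), j) (1 : ℂ) : lp (fun _ : H × κ => ℂ) 2) ((1 : H), i) = if i = j then 1 else 0 := by
  rw [lp.single_apply]
  by_cases h : i = j
  · subst h
    simp
  · rw [if_neg h]
    simp [h]

/-- the von Neumann ranks over the group algebra of the trivial group are integers -/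
theorem ranksIn_triv (K : Subfield ℂ) (H : Type) [Group H] [Subsingleton H] : RanksIn K H 1 := by
  classical
  intro ι κ _ _ A
  let e : κ → Row H κ := fun j => lp.single 2 ((1 : H), j) (1 : ℂ)
  have he : ∀ j j', (e j) ((1 : H), j') = if j' = j then 1 else 0 := by
    intro j j'
    exact single_ap j j'
  have hinner : ∀ (f : Row H κ) j, ⟪e j, f⟫_ℂ = f ((1 : H), j) := by
    intro f j
    show ⟪(lp.single 2 ((1 : H), j) (1 : ℂ) : Row H κ), f⟫_ℂ = _
    rw [lp.inner_single_left]
    simp
  have hon : Orthonormal ℂ e := by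
    rw [orthonormal_iff_ite]
    intro i j
    rw [hinner, he]
  have hsp : ⊤ ≤ Submodule.span ℂ (Set.range e) := by
    intro f _
    have h1 : f = ∑ j, f ((1 : H), j) • e j := by
      apply lp.ext
      funext x
      obtain ⟨h, i⟩ := x
      have hh : h = 1 := Subsingleton.elim _ _
      subst hh
      rw [lp.coeFn_sum, Finset.sum_apply]
      simp only [lp.coeFn_smul, Pi.smul_apply, smul_eq_mul]
      rw [Finset.sum_congr rfl fun j _ => by rw [he j i]]
      simp
    rw [h1]
    exact Submodule.sum_mem _ fun j _ => Submodule.smul_mem _ _ (Submodule.subset_span ⟨j, rfl⟩)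
  let b : OrthonormalBasis κ ℂ (Row H κ) := OrthonormalBasis.mk hon hsp
  have hfin : FiniteDimensional ℂ (Row H κ) := b.toBasis.finiteDimensional_of_finite
  let P : Row H κ →L[ℂ] Row H κ := (image A).topologicalClosure.starProjection
  have hP : LinearMap.IsProj (image A).topologicalClosure (P : Row H κ →ₗ[ℂ] Row H κ) := by
    constructor
    · intro f
      exact Submodule.starProjection_apply_mem _ f
    · intro f hf
      exact Submodule.starProjection_eq_self_iff.2 hf
  have h1 := hP.trace
  rw [LinearMap.trace_eq_sum_inner (P : Row H κ →ₗ[ℂ] Row H κ) b] at h1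
  refine ⟨Module.finrank ℂ (image A).topologicalClosure, ?_⟩
  rw [Nat.cast_one, div_one]
  have h2 := congrArg Complex.re h1
  rw [Complex.re_sum] at h2
  unfold rank
  rw [Int.cast_natCast, ← Complex.natCast_re, ← h2]
  refine Finset.sum_congr rfl fun j _ => ?_
  congr 1
  have h3 : b j = e j := by
    show (OrthonormalBasis.mk hon hsp) j = e j
    rw [OrthonormalBasis.coe_mk]
  rw [h3, hinner]
  show (P _) ((1 : H), j) = (P (e j)) ((1 : H), j)
  refine congrArg (fun v : Row H κ => (P v) ((1 : H), j)) ?_
  apply lp.ext
  funext x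
  obtain ⟨h, i⟩ := x
  have hh : h = 1 := Subsingleton.elim _ _
  subst hh
  have key : ∀ D : DecidableEq (H × κ),
      (@lp.single (H × κ) (fun _ => ℂ) (fun _ => inferInstance) D 2 ((1 : H), j) 1 : Row H κ) ((1 : H), i) =
        if i = j then 1 else 0 := fun D => @single_ap H κ _ D j i
  exact (key _).trans (he j i).symm

end ATY
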