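import Pool.Agent.ATY.F
import Pool.Agent.ATY.FRDefs
import Pool.Agent.ATY.Triv
import Pool.Agent.ATY.E4b

/-!
# Ranks over free groups and over free-by-free groups
-/

set_option autoImplicit false

namespace ATY
namespace Lam
open Singer Pool.WeakAtiyah

/-- the ranks over a group which acts freely on a tree are integers -/
theorem ranksIn_free (K : Subfield ℂ) {G V : Type} [Group G] [MulAction G V] {T : SimpleGraph V} (hT : T.IsTree)
    (hA : ∀ (g : G) (v w : V), T.Adj v w → T.Adj (g • v) (g • w))
    (hI : ∀ (g : G) (v w : V), T.Adj v w → g • v = w → g • w ≠ v)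
    (hf : ∀ (g : G) (v : V), g • v = v → g = 1) : RanksIn K G 1 := by
  have h1 : ∀ v : V, Subsingleton (MulAction.stabilizer G v) := fun v =>
    ⟨fun a b => Subtype.ext ((hf a.1 v a.2).trans (hf b.1 v b.2).symm)⟩
  have h2 : ∀ v : V, RanksIn K (MulAction.stabilizer G v) 1 := fun v => by
    have := h1 v
    exact ranksIn_triv K _
  refine tree_main one_pos hT hA hI (fun v w _ => ?_) h2
  have := h1 v
  exact ssp_of_finiteIndex one_pos (h2 v) _

/-- the ranks over a free group are integers -/
theorem ranksIn_freeGroup (K : Subfield ℂ) (A : Type) [Group A] [IsFreeGroup A] : RanksIn K A 1 := by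
  obtain ⟨V, act, T, o, hT, hA, hI, hf⟩ := exists_cayley A
  exact ranksIn_free K hT hA hI hf

/-- extensions of a group which acts freely on a tree by a group with integral ranks -/
theorem ranksIn_ext {K : Subfield ℂ} {n : ℕ} (hn : 0 < n) {L A V : Type} [Group L] [Group A] (r : L →* A) [MulAction A V]
    {T : SimpleGraph V} (hT : T.IsTree) (hA : ∀ (g : A) (v w : V), T.Adj v w → T.Adj (g • v) (g • w))
    (hI : ∀ (g : A) (v w : V), T.Adj v w → g • v = w → g • w ≠ v)
    (hf : ∀ (g : A) (v : V), g • v = v → g = 1) (hK : RanksIn K r.ker n) : RanksIn K L n := by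
  let act : MulAction L V := MulAction.compHom V r
  have hs : ∀ (g : L) (v : V), g • v = r g • v := fun g v => rfl
  have h1 : ∀ v : V, MulAction.stabilizer L v = r.ker := by
    intro v
    ext g
    rw [MulAction.mem_stabilizer_iff, hs, MonoidHom.mem_ker]
    refine ⟨hf _ v, fun h => ?_⟩
    rw [h, one_smul]
  have h2 : ∀ v : V, RanksIn K (MulAction.stabilizer L v) n := by
    intro v
    rw [h1 v]
    exact hK
  refine tree_main (V := V) hn hT (fun g v w => hA (r g) v w) (fun g v w => hI (r g) v w) (fun v w _ => ?_) h2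
  have h3 : (MulAction.stabilizer L w).subgroupOf (MulAction.stabilizer L v) = ⊤ := by
    rw [h1 v, h1 w, Subgroup.subgroupOf_self]
  have h4 : ((MulAction.stabilizer L w).subgroupOf (MulAction.stabilizer L v)).FiniteIndex := by
    rw [h3]
    infer_instance
  exact ssp_of_finiteIndex hn (h2 v) _

/-- the semidirect product of a free group and a group which acts freely on a tree -/
theorem ranksIn_semidirect (K : Subfield ℂ) {N A V : Type} [Group N] [IsFreeGroup N] [Group A] (φ : A →* MulAut N)
    [MulAction A V] {T : SimpleGraph V} (hT : T.IsTree) (hA : ∀ (g : A) (v w : V), T.Adj v w → T.Adj (g • v) (g • w))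
    (hI : ∀ (g : A) (v w : V), T.Adj v w → g • v = w → g • w ≠ v)
    (hf : ∀ (g : A) (v : V), g • v = v → g = 1) : RanksIn K (N ⋊[φ] A) 1 := by
  refine ranksIn_ext one_pos (SemidirectProduct.rightHom : N ⋊[φ] A →* A) hT hA hI hf ?_
  obtain ⟨V', act', T', o', hT', hA', hI', hf'⟩ := exists_cayley N
  -- the kernel acts on the Cayley tree of `N`
  have hker : ∀ x : (SemidirectProduct.rightHom : N ⋊[φ] A →* A).ker, (x : N ⋊[φ] A).right = 1 := fun x => x.2
  let f : (SemidirectProduct.rightHom : N ⋊[φ] A →* A).ker →* N :=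
    { toFun := fun x => (x : N ⋊[φ] A).left
      map_one' := rfl
      map_mul' := fun x y => by
        show (x : N ⋊[φ] A).left * φ (x : N ⋊[φ] A).right (y : N ⋊[φ] A).left = _
        rw [hker x, map_one, MulAut.one_apply] }
  have hfi : Function.Injective f := by
    intro x y hxy
    apply Subtype.ext
    exact SemidirectProduct.ext hxy ((hker x).trans (hker y).symm)
  let act : MulAction (SemidirectProduct.rightHom : N ⋊[φ] A →* A).ker V' := MulAction.compHom V' f
  refine ranksIn_free K (V := V') hT' (fun g v w => hA' (f g) v w) (fun g v w => hI' (f g) v w) ?_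
  intro g v h
  exact (map_eq_one_iff f hfi).1 (hf' (f g) v h)

end Lam

open Pool.WeakAtiyah in
/-- the ranks over the group `Psi A Q` are integers if `A` acts freely on a tree -/
theorem ranks_psi {K : Subfield ℂ} {A V : Type} [Group A] [MulAction A V] {T : SimpleGraph V} (hT : FreeAct A T)
    (Q : Type) [MulAction A Q] : RanksIn K (Psi A Q) 1 :=
  Lam.ranksIn_semidirect K (phiA A Q) hT.tree hT.adj hT.noinv hT.free

end ATY
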