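import Pool.Agent.ATY.FRDefs

/-!
# An equivariant orthonormal basis of the states

`exists_frame`: a free `C`-set `Y` with finitely many orbits over the darts of the tree and vectors `ξ y` of `W` such that
for every dart `d` the vectors over `d` are an orthonormal basis of the states at `d`.
-/

set_option autoImplicit false

open scoped ComplexConjugate InnerProductSpace
open Filter Topology

namespace ATY
open Singer Singer.HT

namespace DRF
open AA

section equi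
variable {C V X : Type} [Group C] [MulAction C V] [MulAction C X] {T : SimpleGraph V}

lemma cut_la (hT : FreeAct C T) (δ : X →[C] V) (c : C) (d : V × V) (f : L2 X) :
    cut T δ (c • d) (la c f) = la c (cut T δ d f) := by
  classical
  ext x
  show cut T δ (c • d) (la c f) x = cut T δ d f (c⁻¹ • x)
  unfold cut
  rw [cu_apply, cu_apply, la_apply]
  have h1 : x ∈ δ ⁻¹' half T (c • d).1 (c • d).2 ↔ c⁻¹ • x ∈ δ ⁻¹' half T d.1 d.2 := by
    have h2 : Acts C T := hT.adj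
    have h3 := h2.half_iff c (v := d.1) (w := d.2) (u := c⁻¹ • δ x)
    rw [smul_inv_smul] at h3
    show δ x ∈ half T (c • d.1) (c • d.2) ↔ δ (c⁻¹ • x) ∈ half T d.1 d.2
    rw [map_smul]
    exact h3
  by_cases h : x ∈ δ ⁻¹' half T (c • d).1 (c • d).2
  · rw [if_pos h, if_pos (h1.1 h)]
  · rw [if_neg h, if_neg (fun h2 => h (h1.2 h2))]

lemma mem_Wd {δ : X → V} {W : Submodule ℂ (L2 X)} {d : V × V} {f : L2 X} :
    f ∈ Wd T δ W d ↔ f ∈ W ∧ cut T δ d f ∈ W := Iff.rfl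

lemma Wd_la (hT : FreeAct C T) (δ : X →[C] V) {W : Submodule ℂ (L2 X)} (hW : Md C W) (c : C) {d : V × V} {f : L2 X}
    (hf : f ∈ Wd T δ W d) : la c f ∈ Wd T δ W (c • d) := by
  rw [mem_Wd] at hf ⊢
  refine ⟨hW.inv c f hf.1, ?_⟩
  rw [cut_la hT]
  exact hW.inv c _ hf.2

lemma mem_St {δ : X → V} {W : Submodule ℂ (L2 X)} {d : V × V} {f : L2 X} :
    f ∈ St T δ W d ↔ f ∈ W ∧ ∀ g ∈ Wd T δ W d, ⟪g, f⟫_ℂ = 0 := by
  unfold St
  rw [Submodule.mem_inf, Submodule.mem_orthogonal]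

lemma St_la (hT : FreeAct C T) (δ : X →[C] V) {W : Submodule ℂ (L2 X)} (hW : Md C W) (c : C) {d : V × V} {f : L2 X}
    (hf : f ∈ St T δ W d) : la c f ∈ St T δ W (c • d) := by
  rw [mem_St] at hf ⊢
  refine ⟨hW.inv c f hf.1, fun g hg => ?_⟩
  have h1 := Wd_la hT δ hW c⁻¹ hg
  rw [inv_smul_smul] at h1
  have h2 := hf.2 _ h1
  rw [inner_la, inv_inv] at h2
  exact h2

lemma isClosed_Wd {δ : X → V} {W : Submodule ℂ (L2 X)} (hW : IsClosed (W : Set (L2 X))) (d : V × V) :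
    IsClosed (Wd T δ W d : Set (L2 X)) := by
  have h1 : (Wd T δ W d : Set (L2 X)) = (W : Set (L2 X)) ∩ (cut T δ d) ⁻¹' (W : Set (L2 X)) := rfl
  rw [h1]
  exact hW.inter (hW.preimage (cut T δ d).continuous)

lemma mem_Wd_of_orth {δ : X → V} {W : Submodule ℂ (L2 X)} (hW : IsClosed (W : Set (L2 X))) {d : V × V} {r : L2 X}
    (hr : r ∈ W) (ho : ∀ u ∈ St T δ W d, ⟪u, r⟫_ℂ = 0) : r ∈ Wd T δ W d := by
  have hcl := isClosed_Wd (T := T) (δ := δ) hW d
  have hp : pj (Wd T δ W d) r ∈ Wd T δ W d := by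
    have := pj_mem (Wd T δ W d) r
    rwa [hcl.submodule_topologicalClosure_eq] at this
  have hq : r - pj (Wd T δ W d) r ∈ (Wd T δ W d)ᗮ := sub_pj_mem _ r
  have hq1 : r - pj (Wd T δ W d) r ∈ St T δ W d := by
    refine ⟨W.sub_mem hr (mem_Wd.1 hp).1, hq⟩
  have h1 := ho _ hq1
  have h2 : ⟪r - pj (Wd T δ W d) r, pj (Wd T δ W d) r⟫_ℂ = 0 := Submodule.inner_left_of_mem_orthogonal hp hq
  have h3 : ⟪r - pj (Wd T δ W d) r, r - pj (Wd T δ W d) r⟫_ℂ = 0 := by
    rw [inner_sub_right, h1, h2, sub_zero]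
  have h4 := inner_self_eq_zero.1 h3
  rw [sub_eq_zero] at h4
  rw [h4]
  exact hp

end equi

section frame
variable {C V X : Type} [Group C] [MulAction C V] [MulAction C X] {T : SimpleGraph V}

/-- **Equivariant orthonormal bases of the states.** -/
theorem exists_frame (hT : FreeAct C T) (δ : X →[C] V) {W : Submodule ℂ (L2 X)} (hW : Md C W) (h : FinSt T δ C W) :
    ∃ (Y : Type) (_ : MulAction C Y) (_ : FC C Y) (e : Y →[C] V × V) (ξ : Y → L2 X),
      (∀ (c : C) (y : Y), ξ (c • y) = la c (ξ y)) ∧ (∀ y, ξ y ∈ W) ∧ (∀ y, T.Adj (e y).1 (e y).2) ∧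
      ∃ hfin : ∀ d, {y | e y = d}.Finite, ∀ v w, T.Adj v w → ∀ f ∈ W,
        f - ∑ y ∈ (hfin (v, w)).toFinset, ⟪ξ y, f⟫_ℂ • ξ y ∈ Wd T δ W (v, w) := by
  classical
  obtain ⟨s, hs, hso⟩ := h.fo
  -- representatives
  set ou : V × V → V × V := fun d => (Quotient.mk (MulAction.orbitRel C (V × V)) d).out with hou
  have hou1 : ∀ d, ∃ c : C, c • ou d = d := by
    intro d
    have h1 : (MulAction.orbitRel C (V × V)) d (ou d) :=
      @Quotient.exact _ (MulAction.orbitRel C (V × V)) _ _ (Quotient.out_eq (Quotient.mk (MulAction.orbitRel C (V × V)) d)).symm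
    exact h1
  have hou2 : ∀ (c : C) d, ou (c • d) = ou d := by
    intro c d
    have h1 : Quotient.mk (MulAction.orbitRel C (V × V)) (c • d) = Quotient.mk (MulAction.orbitRel C (V × V)) d :=
      Quotient.sound ⟨c, rfl⟩
    simp only [hou]
    rw [h1]
  let R : Set (V × V) := {d | ou d = d ∧ T.Adj d.1 d.2 ∧ St T δ W d ≠ ⊥}
  have hR : R.Finite := by
    refine (hs.image ou).subset ?_
    rintro d ⟨h1, h2, h3⟩
    obtain ⟨a, d', hd', h4, h5⟩ := hso d.1 d.2 h2 h3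
    have h6 : d = a • d' := Prod.ext h4 h5
    refine ⟨d', hd', ?_⟩
    rw [← h1, h6, hou2]
  have hRf : Finite R := hR
  have hfd : ∀ d : R, FiniteDimensional ℂ (St T δ W d.1) := fun d => h.fd d.1.1 d.1.2 d.2.2.1
  let bs : ∀ d : R, OrthonormalBasis (Fin (Module.finrank ℂ (St T δ W d.1))) ℂ (St T δ W d.1) := fun d =>
    haveI := hfd d
    stdOrthonormalBasis ℂ (St T δ W d.1)
  let ι : Type := Σ d : R, Fin (Module.finrank ℂ (St T δ W d.1))
  let vec : ι → L2 X := fun i => ((bs i.1 i.2 : St T δ W i.1.1) : L2 X)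
  have hvec : ∀ i, vec i ∈ St T δ W i.1.1 := fun i => (bs i.1 i.2).2
  let ev : Fr C ι → V × V := fun y => y.1 • y.2.1.1
  let ξ : Fr C ι → L2 X := fun y => la y.1 (vec y.2)
  have hfree : ∀ (c c' : C) (d : V × V), c • d = c' • d → c = c' := by
    intro c c' d h1
    have h2 : c • d.1 = c' • d.1 := congrArg Prod.fst h1
    have h3 : (c'⁻¹ * c) • d.1 = d.1 := by rw [mul_smul, h2, inv_smul_smul]
    have h4 := hT.free _ _ h3
    rw [inv_mul_eq_one] at h4
    exact h4.symm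
  have hrep : ∀ y y' : Fr C ι, ev y = ev y' → y.1 = y'.1 ∧ y.2.1 = y'.2.1 := by
    intro y y' h1
    have h2 : y.2.1 = y'.2.1 := by
      apply Subtype.ext
      have h3 : ou (ev y) = y.2.1.1 := by
        show ou (y.1 • y.2.1.1) = _
        rw [hou2, y.2.1.2.1]
      have h4 : ou (ev y') = y'.2.1.1 := by
        show ou (y'.1 • y'.2.1.1) = _
        rw [hou2, y'.2.1.2.1]
      rw [← h3, ← h4, h1]
    refine ⟨?_, h2⟩
    have h3 : y.1 • y.2.1.1 = y'.1 • y.2.1.1 := by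
      have h4 : y.1 • y.2.1.1 = y'.1 • y'.2.1.1 := h1
      rw [h4, h2]
    exact hfree _ _ _ h3
  have hortho : ∀ y y' : Fr C ι, ev y = ev y' → ⟪ξ y, ξ y'⟫_ℂ = if y = y' then 1 else 0 := by
    rintro ⟨c, ⟨d, i⟩⟩ ⟨c', ⟨d', i'⟩⟩ h1
    obtain ⟨h2, h3⟩ := hrep _ _ h1
    dsimp only at h2 h3
    subst h2
    subst h3
    show ⟪la c (vec ⟨d, i⟩), la c (vec ⟨d, i'⟩)⟫_ℂ = _
    rw [inner_la, la_inv_la]
    have h4 : ⟪vec ⟨d, i⟩, vec ⟨d, i'⟩⟫_ℂ = ⟪bs d i, bs d i'⟫_ℂ := (Submodule.coe_inner _ _ _).symm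
    rw [h4, orthonormal_iff_ite.1 (bs d).orthonormal i i']
    by_cases h5 : i = i'
    · subst h5
      rw [if_pos rfl, if_pos rfl]
    · rw [if_neg h5, if_neg]
      intro h6
      apply h5
      have h7 : (⟨d, i⟩ : ι) = ⟨d, i'⟩ := congrArg Prod.snd h6
      exact eq_of_heq (Sigma.mk.inj h7).2
  have hξW : ∀ y, ξ y ∈ W := fun y => hW.inv _ _ (mem_St.1 (hvec y.2)).1
  have hιf : Finite ι := by
    have := hRf
    infer_instance
  have hfin : ∀ d, {y | ev y = d}.Finite := by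
    intro d
    refine Set.Finite.of_injOn (f := fun y : Fr C ι => y.2) (t := Set.univ) (fun _ _ => Set.mem_univ _) ?_ Set.finite_univ
    intro y hy y' hy' h1
    have h2 : ev y = ev y' := (show ev y = d from hy).trans (show ev y' = d from hy').symm
    exact Prod.ext (hrep _ _ h2).1 h1
  refine ⟨Fr C ι, inferInstance, inferInstance, ⟨ev, ?_⟩, ξ, ?_, hξW, ?_, hfin, ?_⟩
  · intro c y
    show (c * y.1) • y.2.1.1 = c • y.1 • y.2.1.1
    rw [mul_smul]
  · intro c y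
    show la (c * y.1) (vec y.2) = la c (la y.1 (vec y.2))
    rw [la_la]
  · intro y
    exact hT.adj y.1 _ _ y.2.1.2.2.1
  · intro v w hvw f hf
    set Φ : Finset (Fr C ι) := (hfin (v, w)).toFinset with hΦ
    have hmem : ∀ y, y ∈ Φ ↔ ev y = (v, w) := fun y => by rw [hΦ, Set.Finite.mem_toFinset]; rfl
    set r : L2 X := f - ∑ y ∈ Φ, ⟪ξ y, f⟫_ℂ • ξ y with hr
    have hrW : r ∈ W := W.sub_mem hf (W.sum_mem fun y _ => W.smul_mem _ (hξW y))
    have hr0 : ∀ y ∈ Φ, ⟪ξ y, r⟫_ℂ = 0 := by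
      intro y hy
      have h2 : ⟪ξ y, ∑ y ∈ Φ, ⟪ξ y, f⟫_ℂ • ξ y⟫_ℂ = ⟪ξ y, f⟫_ℂ := by
        rw [inner_sum, Finset.sum_eq_single y]
        · rw [inner_smul_right, hortho y y rfl, if_pos rfl, mul_one]
        · intro y' hy' hne
          rw [inner_smul_right, hortho y y' (((hmem y).1 hy).trans ((hmem y').1 hy').symm), if_neg (Ne.symm hne), mul_zero]
        · intro hn
          exact absurd hy hn
      rw [hr, inner_sub_right, h2, sub_self]
    refine mem_Wd_of_orth hW.cl hrW fun u hu => ?_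
    by_cases hb : St T δ W (v, w) = ⊥
    · rw [hb, Submodule.mem_bot] at hu
      rw [hu, inner_zero_left]
    · obtain ⟨c, hc⟩ := hou1 (v, w)
      set d₀ : V × V := ou (v, w) with hd₀
      have hcd : c⁻¹ • ((v, w) : V × V) = d₀ := by rw [← hc, inv_smul_smul]
      have hR₀ : d₀ ∈ R := by
        refine ⟨?_, ?_, ?_⟩
        · have h3 := hou2 c d₀
          rw [hc] at h3
          exact h3.symm
        · rw [← hcd]
          exact hT.adj c⁻¹ _ _ hvw
        · intro h3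
          apply hb
          rw [eq_bot_iff]
          intro x hx
          have h4 := St_la hT δ hW c⁻¹ hx
          rw [hcd, h3, Submodule.mem_bot] at h4
          rw [Submodule.mem_bot, ← la_la_inv c x, h4, map_zero]
      have hu0 : la c⁻¹ u ∈ St T δ W d₀ := by
        have h4 := St_la hT δ hW c⁻¹ hu
        rwa [hcd] at h4
      have hsum := (bs ⟨d₀, hR₀⟩).sum_repr ⟨la c⁻¹ u, hu0⟩
      have hsum' : la c⁻¹ u = ∑ i, (bs ⟨d₀, hR₀⟩).repr ⟨la c⁻¹ u, hu0⟩ i • vec ⟨⟨d₀, hR₀⟩, i⟩ := by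
        have h5 := congrArg (Subtype.val) hsum
        rw [Submodule.coe_sum] at h5
        exact h5.symm
      have hu1 : u = ∑ i, (bs ⟨d₀, hR₀⟩).repr ⟨la c⁻¹ u, hu0⟩ i • ξ (c, ⟨⟨d₀, hR₀⟩, i⟩) := by
        have h6 := congrArg (fun z => la c z) hsum'
        dsimp only at h6
        rw [la_la_inv, map_sum] at h6
        simp only [map_smul] at h6
        exact h6
      rw [hu1, sum_inner]
      refine Finset.sum_eq_zero fun i _ => ?_
      rw [inner_smul_left, hr0 (c, ⟨⟨d₀, hR₀⟩, i⟩) ((hmem _).2 hc), mul_zero]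

end frame

end DRF
end ATY
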