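import Pool.Agent.ATY.DR2
import Pool.Agent.ATY.DRFrame

/-!
# Row DR: closed invariant subspaces with finitely many states are rational
-/

set_option autoImplicit false

namespace ATY
open Singer Singer.HT Pool.WeakAtiyah

/-- Duchamp and Reutenauer for closed subspaces -/
theorem rat_of_finSt {C V X : Type} [Group C] [MulAction C V] [MulAction C X] [FC C X]
    {T : SimpleGraph V} (hT : FreeAct C T) (δ : X →[C] V) {W : Submodule ℂ (L2 X)} (hW : Md C W)
    (h : FinSt T δ C W) : Rat ⊤ C W := by
  obtain ⟨Y, _, _, e, ξ, h1, h2, -, h3, h4⟩ := DRF.exists_frame hT δ hW h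
  exact DR.rat_of_frame hT δ hW e ξ h1 h2 h3 h4

end ATY
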