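import Pool.Agent.ATY.R2

/-!
# Local subspaces over one orbit are induced
-/

set_option autoImplicit false

open scoped ComplexConjugate InnerProductSpace
open Filter Topology

namespace ATY
open Singer Pool.WeakAtiyah

section
variable {G X Q : Type} [Group G] [MulAction G X] [MulAction G Q]

/-- the coset of a point over the orbit of `q` -/
noncomputable def cst (a : X →[G] Q) (q : Q) (ho : ∀ x, a x ∈ MulAction.orbit G q) (x : X) :
    G ⧸ MulAction.stabilizer G q := ((ho x).choose : G)

lemma cst_smul_eq (a : X →[G] Q) (q : Q) (ho : ∀ x, a x ∈ MulAction.orbit G q) (x : X) (g : G) :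
    cst a q ho x = (g : G ⧸ MulAction.stabilizer G q) ↔ g • q = a x := by
  unfold cst
  have h1 : (ho x).choose • q = a x := (ho x).choose_spec
  rw [QuotientGroup.eq, MulAction.mem_stabilizer_iff, mul_smul, inv_smul_eq_iff, h1]

lemma out_cst (a : X →[G] Q) (q : Q) (ho : ∀ x, a x ∈ MulAction.orbit G q) (x : X) :
    Quotient.out (cst a q ho x) • q = a x := by
  rw [← cst_smul_eq a q ho]
  exact (Quotient.out_eq' _).symm

/-- `X` is induced from the fibre -/
noncomputable def indEquiv (a : X →[G] Q) (q : Q) (ho : ∀ x, a x ∈ MulAction.orbit G q) :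
    Ind (MulAction.stabilizer G q) (Fib a q) ≃ X where
  toFun y := Quotient.out y.1 • y.2.1
  invFun x := imk _ (cst a q ho x) ⟨(Quotient.out (cst a q ho x))⁻¹ • x, by
    rw [map_smul, ← out_cst a q ho x, inv_smul_smul]⟩
  left_inv y := by
    obtain ⟨c, z, hz⟩ := y
    have h1 : cst a q ho (Quotient.out c • z) = c := by
      have h2 : cst a q ho (Quotient.out c • z) = ((Quotient.out c : G) : G ⧸ MulAction.stabilizer G q) := by
        rw [cst_smul_eq, map_smul, hz]
      rw [h2]
      exact Quotient.out_eq' c
    refine Prod.ext h1 (Subtype.ext ?_)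
    show (Quotient.out (cst a q ho (Quotient.out c • z)))⁻¹ • Quotient.out c • z = z
    rw [h1, inv_smul_smul]
  right_inv x := by
    show Quotient.out (cst a q ho x) • (Quotient.out (cst a q ho x))⁻¹ • x = x
    rw [smul_inv_smul]

lemma indEquiv_smul (a : X →[G] Q) (q : Q) (ho : ∀ x, a x ∈ MulAction.orbit G q) (g : G)
    (y : Ind (MulAction.stabilizer G q) (Fib a q)) : indEquiv a q ho (g • y) = g • indEquiv a q ho y := by
  obtain ⟨c, z⟩ := y
  show Quotient.out (g • c) • (((cyc (MulAction.stabilizer G q) g c : MulAction.stabilizer G q) : G) • z.1) =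
    g • Quotient.out c • z.1
  rw [← mul_smul, out_mul_cyc, mul_smul]

/-- the restriction to a fibre -/
lemma mem_loc {a : X →[G] Q} {q : Q} {W : Submodule ℂ (L2 X)} {f : L2 (Fib a q)} :
    f ∈ loc a q W ↔ push (fi a q) (fi_inj a q) f ∈ W := Iff.rfl

open Classical in
lemma push_pull_fi (a : X →[G] Q) (q : Q) (f : L2 X) :
    push (fi a q) (fi_inj a q) (pull (fi a q) (fi_inj a q) f) = cu {x | a x = q} f := by
  ext x
  rw [cu_apply]
  split_ifs with h
  · exact push_apply (fi a q) (fi_inj a q) _ (⟨x, h⟩ : Fib a q)
  · refine push_apply_of_notMem _ (fi_inj a q) _ ?_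
    rintro ⟨y, hy⟩
    apply h
    rw [← hy]
    exact y.2

/-- local subspaces over one orbit are induced -/
lemma indSub_loc {a : X →[G] Q} {q : Q} (ho : ∀ x, a x ∈ MulAction.orbit G q) {W : Submodule ℂ (L2 X)}
    (hW : Md G W) (hl : Loc a W) :
    (indSub (MulAction.stabilizer G q) (loc a q W)).map
      (push (indEquiv a q ho) (indEquiv a q ho).injective : L2 (Ind (MulAction.stabilizer G q) (Fib a q)) →ₗ[ℂ] L2 X) = W := by
  classical
  let e := indEquiv a q ho
  have hsh : ∀ (c : G ⧸ MulAction.stabilizer G q) (f : L2 X), sh (MulAction.stabilizer G q) c (pull e e.injective f) =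
      pull (fi a q) (fi_inj a q) (la (Quotient.out c)⁻¹ f) := by
    intro c f
    ext z
    rw [pull_apply, la_apply, inv_inv]
    rfl
  have hpp : ∀ f : L2 X, push e e.injective (pull e e.injective f) = f := by
    intro f
    ext x
    obtain ⟨y, rfl⟩ := e.surjective x
    rw [push_apply, pull_apply]
  have hmem : ∀ f : L2 X, pull e e.injective f ∈ indSub (MulAction.stabilizer G q) (loc a q W) ↔ f ∈ W := by
    intro f
    rw [mem_indSub]
    constructor
    · intro h
      have h1 : f = push e e.injective (pull e e.injective f) := (hpp f).symm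
      have hV : IsClosed ((W.comap (push e e.injective : L2 (Ind (MulAction.stabilizer G q) (Fib a q)) →ₗ[ℂ] L2 X) :
          Submodule ℂ (L2 (Ind (MulAction.stabilizer G q) (Fib a q)))) :
            Set (L2 (Ind (MulAction.stabilizer G q) (Fib a q)))) :=
        hW.cl.preimage (push e e.injective).continuous
      have h2 : pull e e.injective f ∈
          W.comap (push e e.injective : L2 (Ind (MulAction.stabilizer G q) (Fib a q)) →ₗ[ℂ] L2 X) := by
        refine mem_of_sheets (MulAction.stabilizer G q) hV fun c => ?_
        show push e e.injective (hs (MulAction.stabilizer G q) c (sh (MulAction.stabilizer G q) c (pull e e.injective f))) ∈ W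
        have h3 := h c
        rw [mem_loc] at h3
        have h4 := hW.inv (Quotient.out c) _ h3
        have h5 : push e e.injective (hs (MulAction.stabilizer G q) c
            (sh (MulAction.stabilizer G q) c (pull e e.injective f))) =
            la (Quotient.out c) (push (fi a q) (fi_inj a q)
              (sh (MulAction.stabilizer G q) c (pull e e.injective f))) := by
          ext x
          obtain ⟨y, rfl⟩ := e.surjective x
          rw [push_apply, la_apply]
          by_cases hy : y.1 = c
          · subst hy
            have h6 : (Quotient.out y.1)⁻¹ • e y = fi a q y.2 := by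
              show (Quotient.out y.1)⁻¹ • Quotient.out y.1 • y.2.1 = y.2.1
              rw [inv_smul_smul]
            rw [h6, push_apply]
            exact hs_apply (MulAction.stabilizer G q) y.1 _ y.2
          · rw [push_apply_of_notMem (fi a q)]
            · refine push_apply_of_notMem (imk (MulAction.stabilizer G q) c) (imk_inj _ c) _ ?_
              rintro ⟨b, hb⟩
              exact hy (congrArg Prod.fst hb).symm
            · rintro ⟨z, hz⟩
              apply hy
              have h7 : a (e y) = Quotient.out c • q := by
                have h8 : e y = Quotient.out c • (z.1 : X) := by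
                  rw [show (z.1 : X) = fi a q z from rfl, hz, smul_inv_smul]
                rw [h8, map_smul, z.2]
              have h9 : a (e y) = Quotient.out y.1 • q := by
                show a (Quotient.out y.1 • y.2.1) = _
                rw [map_smul, y.2.2]
              have h10 : ((Quotient.out y.1 : G) : G ⧸ MulAction.stabilizer G q) =
                  ((Quotient.out c : G) : G ⧸ MulAction.stabilizer G q) := by
                rw [QuotientGroup.eq, MulAction.mem_stabilizer_iff, mul_smul, inv_smul_eq_iff, ← h9, h7]
              have h11 : ((Quotient.out y.1 : G) : G ⧸ MulAction.stabilizer G q) = y.1 := Quotient.out_eq' y.1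
              have h12 : ((Quotient.out c : G) : G ⧸ MulAction.stabilizer G q) = c := Quotient.out_eq' c
              rw [← h11, h10, h12]
        rw [h5]
        exact h4
      rw [h1]
      exact h2
    · intro h c
      rw [hsh, mem_loc, push_pull_fi]
      exact hl q _ (hW.inv _ _ h)
  ext f
  rw [mem_map']
  constructor
  · rintro ⟨g, hg, rfl⟩
    rw [← hmem]
    have h1 : pull e e.injective (push e e.injective g) = g := pull_push _ _ _
    rw [show pull e e.injective (push (indEquiv a q ho) (indEquiv a q ho).injective g) = g from h1]
    exact hg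
  · intro hf
    exact ⟨pull e e.injective f, (hmem f).2 hf, hpp f⟩

/-- a local subspace over one orbit with a rational part is rational -/
theorem rat_of_loc {K : Subfield ℂ} [FC G X] {a : X →[G] Q} {q : Q} [FC (MulAction.stabilizer G q) (Fib a q)]
    (ho : ∀ x, a x ∈ MulAction.orbit G q) {W : Submodule ℂ (L2 X)}
    (hW : Md G W) (hl : Loc a W) (hr : Rat K (MulAction.stabilizer G q) (loc a q W)) : Rat K G W := by
  have h1 := rat_indSub (MulAction.stabilizer G q) hr
  have h2 := Rat.equiv (MulEquiv.refl G) (indEquiv a q ho) (fun g y => indEquiv_smul a q ho g y) h1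
  rwa [indSub_loc ho hW hl] at h2

end

end ATY
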