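import Pool.Agent.ATY.N
import Pool.Agent.ATY.E3a

/-!
# From averages to largest maxima
-/

set_option autoImplicit false

open scoped ComplexConjugate InnerProductSpace
open Filter Topology

namespace ATY
open Singer Pool.WeakAtiyah

section tops
variable {K : Subfield ℂ} {H : Type} [Group H] {X : Type} [MulAction H X] [FC H X]

lemma vd_super {Z V W : Submodule ℂ (L2 X)} (hZ : Md H Z) (hV : Md H V) (hW : Md H W) :
    vd H (Z ⊓ V) + vd H (Z ⊓ W) ≤ vd H (Z ⊓ (V ⊔ W).topologicalClosure) + vd H (Z ⊓ (V ⊓ W)) := by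
  have h1 := vd_sup_add_inf (Md.inf hZ hV) (Md.inf hZ hW)
  have h2 : vd H ((Z ⊓ V) ⊔ (Z ⊓ W)).topologicalClosure ≤ vd H (Z ⊓ (V ⊔ W).topologicalClosure) := vd_mono (by
    refine Submodule.topologicalClosure_minimal _ ?_ (Md.inf hZ (Md.sup hV hW)).cl
    refine sup_le (inf_le_inf_left _ ?_) (inf_le_inf_left _ ?_)
    · exact le_sup_left.trans (Submodule.le_topologicalClosure _)
    · exact le_sup_right.trans (Submodule.le_topologicalClosure _))
  have h3 : (Z ⊓ V) ⊓ (Z ⊓ W) = Z ⊓ (V ⊓ W) := (inf_inf_distrib_left _ _ _).symm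
  rw [h3] at h1
  linarith

lemma hf_super (t : ℝ) {Z V W : Submodule ℂ (L2 X)} (hZ : Md H Z) (hV : Md H V) (hW : Md H W) :
    hf H t Z V + hf H t Z W ≤ hf H t Z (V ⊔ W).topologicalClosure + hf H t Z (V ⊓ W) := by
  have h1 := vd_super hZ hV hW
  have h2 := vd_sup_add_inf hV hW
  have h3 : t * vd H (V ⊔ W).topologicalClosure + t * vd H (V ⊓ W) = t * vd H V + t * vd H W := by
    rw [← mul_add, h2, mul_add]
  unfold hf
  linarith

lemma IsTop.anti_le {s t : ℝ} (hst : s ≤ t) {Z Y Y' : Submodule ℂ (L2 X)} (hZ : Md H Z)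
    (h : IsTop H (Rat K H) s Z Y) (h' : IsTop H (Rat K H) t Z Y') : Y' ≤ Y := by
  have hY := h.mem.md
  have hY' := h'.mem.md
  have h1 := vd_super hZ hY hY'
  have h2 := vd_sup_add_inf hY hY'
  have h3 := h'.le _ (h.mem.inf h'.mem)
  have h4 : hf H s Z Y ≤ hf H s Z (Y ⊔ Y').topologicalClosure := by
    unfold hf at *
    have h5 : 0 ≤ vd H Y' - vd H (Y ⊓ Y') := sub_nonneg.2 (vd_mono inf_le_right)
    have h6 : s * (vd H Y' - vd H (Y ⊓ Y')) ≤ t * (vd H Y' - vd H (Y ⊓ Y')) := mul_le_mul_of_nonneg_right hst h5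
    have h7 : s * vd H (Y ⊔ Y').topologicalClosure = s * vd H Y + s * (vd H Y' - vd H (Y ⊓ Y')) := by
      rw [← mul_add]
      congr 1
      linarith
    linarith
  exact le_sup_right.trans ((Submodule.le_topologicalClosure _).trans (h.top _ (h.mem.sup h'.mem) h4))

lemma hf_step {s t : ℝ} {Z Y Y' : Submodule ℂ (L2 X)} (h : IsTop H (Rat K H) s Z Y)
    (h' : IsTop H (Rat K H) t Z Y') : hf H t Z Y' + (t - s) * vd H Y' ≤ hf H s Z Y := by
  have h1 := h.le _ h'.mem
  unfold hf at *
  linarith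

/-- the largest maximum is constant for a moment before `t` -/
lemma IsTop.left_const {n : ℕ} (hn : 0 < n) (hR : RanksIn K H n) {t : ℝ} (ht : 0 < t) {Z Y : Submodule ℂ (L2 X)}
    (hZ : Md H Z) (h : IsTop H (Rat K H) t Z Y) : ∃ s, 0 < s ∧ s < t ∧ IsTop H (Rat K H) s Z Y := by
  classical
  have hn' : (0 : ℝ) < n := by exact_mod_cast hn
  have hex : ∃ k : ℕ, ∃ (s : ℝ) (Y' : Submodule ℂ (L2 X)), 0 < s ∧ s < t ∧ IsTop H (Rat K H) s Z Y' ∧
      (n : ℝ) * vd H Y' = k := by
    obtain ⟨Y', hY'⟩ := exists_isTop hn hR (t / 2) hZ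
    obtain ⟨z, hz⟩ := hY'.mem.vd_eq hn hR
    have h1 : (n : ℝ) * vd H Y' = z := by
      rw [hz]
      field_simp
    have h2 : (0 : ℝ) ≤ z := by
      rw [← h1]
      exact mul_nonneg hn'.le (vd_nonneg _)
    have h3 : (0 : ℤ) ≤ z := by exact_mod_cast h2
    refine ⟨z.toNat, t / 2, Y', by linarith, by linarith, hY', ?_⟩
    rw [h1]
    have h4 : ((z.toNat : ℤ) : ℝ) = (z : ℝ) := by rw [Int.toNat_of_nonneg h3]
    rw [← h4]
    norm_cast
  obtain ⟨s, Y', hs0, hst, hY', hk⟩ := Nat.find_spec hex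
  have hmin : ∀ (s' : ℝ), s ≤ s' → s' < t → IsTop H (Rat K H) s' Z Y' := by
    intro s' hs' hs't
    obtain ⟨Y'', hY''⟩ := exists_isTop hn hR s' hZ
    have h1 : Y'' ≤ Y' := hY'.anti_le hs' hZ hY''
    obtain ⟨z, hz⟩ := hY''.mem.vd_eq hn hR
    have h2 : (n : ℝ) * vd H Y'' = z := by
      rw [hz]
      field_simp
    have h3 : (0 : ℤ) ≤ z := by
      have : (0 : ℝ) ≤ z := by
        rw [← h2]
        exact mul_nonneg hn'.le (vd_nonneg _)
      exact_mod_cast this
    have h4 : Nat.find hex ≤ z.toNat := by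
      refine Nat.find_min' hex ⟨s', Y'', lt_of_lt_of_le hs0 hs', hs't, hY'', ?_⟩
      rw [h2]
      have h5 : ((z.toNat : ℤ) : ℝ) = (z : ℝ) := by rw [Int.toNat_of_nonneg h3]
      rw [← h5]
      norm_cast
    have h5 : (n : ℝ) * vd H Y' ≤ (n : ℝ) * vd H Y'' := by
      rw [hk, h2]
      have h6 : ((Nat.find hex : ℕ) : ℝ) ≤ ((z.toNat : ℕ) : ℝ) := by exact_mod_cast h4
      have h7 : ((z.toNat : ℤ) : ℝ) = (z : ℝ) := by rw [Int.toNat_of_nonneg h3]
      rw [← h7]
      exact_mod_cast h4
    have h6 : vd H Y' ≤ vd H Y'' := le_of_mul_le_mul_left h5 hn'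
    have h7 : Y'' = Y' := eq_of_vd_le hY''.mem.md hY'.mem.md h1 h6
    rw [← h7]
    exact hY''
  have hle : Y ≤ Y' := hY'.anti_le hst.le hZ h
  have hge : Y' ≤ Y := by
    refine h.top _ hY'.mem ?_
    by_contra hc
    rw [not_le] at hc
    set D := hf H t Z Y - hf H t Z Y' with hD
    have hD0 : 0 < D := sub_pos.2 hc
    set c := vd H Y' - vd H Y with hcd
    have hc0 : 0 ≤ c := sub_nonneg.2 (vd_mono hle)
    have hall : ∀ s', s ≤ s' → s' < t → D ≤ (t - s') * c := by
      intro s' h1 h2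
      have h3 := (hmin s' h1 h2).le _ h.mem
      rw [hD, hcd]
      unfold hf at *
      linarith
    set r := max s (t - D / (2 * (c + 1))) with hr
    have hden : 0 < 2 * (c + 1) := by positivity
    have hr1 : r < t := by
      rw [hr]
      refine max_lt hst ?_
      have : 0 < D / (2 * (c + 1)) := by positivity
      linarith
    have h3 := hall r (le_max_left _ _) hr1
    have h4 : t - r ≤ D / (2 * (c + 1)) := by
      have : t - D / (2 * (c + 1)) ≤ r := le_max_right _ _
      linarith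
    have h5 : (t - r) * c ≤ D / (2 * (c + 1)) * c := mul_le_mul_of_nonneg_right h4 hc0
    have h6 : D / (2 * (c + 1)) * c ≤ D / 2 := by
      rw [div_mul_eq_mul_div, div_le_div_iff₀ hden (by norm_num)]
      nlinarith
    linarith
  have hYY : Y' = Y := le_antisymm hge hle
  exact ⟨s, hs0, hst, hYY ▸ hY'⟩

end tops

section orb
variable {K : Subfield ℂ} {G : Type} [Group G] {X Q : Type} [MulAction G X] [FC G X] [MulAction G Q]

/-- dimensions of local subspaces over one orbit -/
lemma exists_mult {a : X →[G] Q} (q : Q) (ho : ∀ x, a x ∈ MulAction.orbit G q) : ∃ m : ℝ, 0 ≤ m ∧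
    ∀ W : Submodule ℂ (L2 X), Md G W → Loc a W → vd G W = m * vd (MulAction.stabilizer G q) (loc a q W) := by
  classical
  obtain ⟨s, hs⟩ := exists_reps a
  refine ⟨(s.filter (fun q' => q' ∈ MulAction.orbit G q)).card, Nat.cast_nonneg _, fun W hW hl => ?_⟩
  rw [hs W hW hl, ← Finset.sum_filter_add_sum_filter_not s (fun q' => q' ∈ MulAction.orbit G q)]
  have h1 : ∀ q' ∈ s.filter (fun q' => q' ∈ MulAction.orbit G q),
      vd (MulAction.stabilizer G q') (loc a q' W) = vd (MulAction.stabilizer G q) (loc a q W) := by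
    intro q' hq'
    obtain ⟨g, hg⟩ := (Finset.mem_filter.1 hq').2
    have hg' : q' = g • q := hg.symm
    rw [← map_fibE a g hg' hW]
    exact vd_equiv (MulAction.stabilizerEquivStabilizer hg') (fibE a g hg') (fibE_smul a g hg') (hW.loc q)
  have h2 : ∀ q' ∈ s.filter (fun q' => q' ∉ MulAction.orbit G q),
      vd (MulAction.stabilizer G q') (loc a q' W) = 0 := by
    intro q' hq'
    have h3 := (Finset.mem_filter.1 hq').2
    have h4 : loc a q' W = ⊥ := by
      rw [eq_bot_iff]
      intro f _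
      rw [Submodule.mem_bot]
      ext x
      exact absurd (x.2 ▸ ho x.1) h3
    rw [h4, vd_bot]
  rw [Finset.sum_congr rfl h1, Finset.sum_congr rfl h2, Finset.sum_const_zero, add_zero, Finset.sum_const, nsmul_eq_mul]

lemma loc_inf' (a : X →[G] Q) (q : Q) (V W : Submodule ℂ (L2 X)) : loc a q (V ⊓ W) = loc a q V ⊓ loc a q W := rfl

lemma Loc.inf {a : X →[G] Q} {V W : Submodule ℂ (L2 X)} (hV : Loc a V) (hW : Loc a W) : Loc a (V ⊓ W) :=
  fun q f hf => ⟨hV q f hf.1, hW q f hf.2⟩

/-- the comparison function of local subspaces over one orbit -/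
lemma hf_loc {a : X →[G] Q} {q : Q} {m : ℝ}
    (hm : ∀ W : Submodule ℂ (L2 X), Md G W → Loc a W → vd G W = m * vd (MulAction.stabilizer G q) (loc a q W))
    (t : ℝ) {Z Y : Submodule ℂ (L2 X)} (hZ : Md G Z) (lZ : Loc a Z) (hY : Md G Y) (lY : Loc a Y) :
    hf G t Z Y = m * hf (MulAction.stabilizer G q) t (loc a q Z) (loc a q Y) := by
  unfold hf
  rw [hm _ (Md.inf hZ hY) (lZ.inf lY), hm _ hY lY, loc_inf']
  ring

lemma le_of_loc_le_orbit {a : X →[G] Q} {q : Q} (ho : ∀ x, a x ∈ MulAction.orbit G q) {V W : Submodule ℂ (L2 X)}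
    (hV : Md G V) (lV : Loc a V) (hW : Md G W) (lW : Loc a W) (h : loc a q V ≤ loc a q W) : V ≤ W := by
  rw [← indSub_loc ho hV lV, ← indSub_loc ho hW lW]
  exact Submodule.map_mono fun f hf c => h (hf c)

/-- local families of maxima exist -/
lemma exists_ltop {n : ℕ} (hn : 0 < n) {a : X →[G] Q} {q : Q} (ho : ∀ x, a x ∈ MulAction.orbit G q)
    (hR : RanksIn K (MulAction.stabilizer G q) n) (t : ℝ) {Z : Submodule ℂ (L2 X)} (hZ : Md G Z) :
    ∃ Y : Submodule ℂ (L2 X), Md G Y ∧ Loc a Y ∧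
      IsTop (MulAction.stabilizer G q) (Rat K (MulAction.stabilizer G q)) t (loc a q Z) (loc a q Y) := by
  by_cases hx : ∃ x₀, a x₀ = q
  · obtain ⟨x₀, rfl⟩ := hx
    obtain ⟨Y, h1, h2, h3⟩ := exists_family (K := K) hn a (fun x => by
      obtain ⟨g, hg⟩ := ho x
      exact ranksIn_of_injective (MulAction.stabilizerEquivStabilizer (G := G) (a := a x₀) (b := a x) (g := g)
        hg.symm).symm.toMonoidHom (MulEquiv.injective _) hR) t hZ
    exact ⟨Y, h1, h2, h3 x₀⟩
  · have hsub : ∀ V W : Submodule ℂ (L2 (Fib a q)), V = W := by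
      intro V W
      have hz : ∀ f : L2 (Fib a q), f = 0 := by
        intro f
        ext x
        exact absurd ⟨x.1, x.2⟩ hx
      ext f
      rw [hz f]
      exact ⟨fun _ => W.zero_mem, fun _ => V.zero_mem⟩
    refine ⟨⊤, md_top, fun _ _ _ => trivial, ?_⟩
    have h0 : loc a q (⊤ : Submodule ℂ (L2 X)) = ⊤ := rfl
    rw [h0]
    exact ⟨rat_top, fun Y' _ => by rw [hsub Y' ⊤], fun Y' _ _ => le_top⟩

lemma le_zero_of_le_div {A C : ℝ} (h : ∀ N : ℕ, 0 < N → A ≤ C / N) : A ≤ 0 := by
  by_contra hc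
  rw [not_le] at hc
  obtain ⟨N, hN⟩ := exists_nat_gt (C / A)
  have h1 := h (N + 1) (Nat.succ_pos N)
  have h2 : (0 : ℝ) < ((N + 1 : ℕ) : ℝ) := by positivity
  rw [le_div_iff₀ h2] at h1
  rw [div_lt_iff₀ hc] at hN
  push_cast at h1
  nlinarith

/-- the averaged inequality for rational subspaces implies that induced maxima are the largest maxima -/
theorem isTop_of_avg {n : ℕ} (hn : 0 < n) {a : X →[G] Q} {q : Q} (ho : ∀ x, a x ∈ MulAction.orbit G q)
    (hR : RanksIn K (MulAction.stabilizer G q) n) {Z : Submodule ℂ (L2 X)} (hZ : Md G Z) (lZ : Loc a Z)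
    (hav : ∀ W : Submodule ℂ (L2 X), Rat K G W → ∃ c : ℝ, ∀ N : ℕ, 0 < N → ∀ Yf : ℕ → Submodule ℂ (L2 X),
      (∀ i ≤ N, Md G (Yf i) ∧ Loc a (Yf i) ∧ IsTop (MulAction.stabilizer G q) (Rat K (MulAction.stabilizer G q))
        ((i : ℝ) / N) (loc a q Z) (loc a q (Yf i))) →
      vd G (W ⊓ Z) ≤ (∑ i ∈ Finset.range N, vd G (W ⊓ Yf i)) / N + c / N)
    {t : ℝ} {Y : Submodule ℂ (L2 X)} (hY : Md G Y) (lY : Loc a Y)
    (h : IsTop (MulAction.stabilizer G q) (Rat K (MulAction.stabilizer G q)) t (loc a q Z) (loc a q Y)) :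
    IsTop G (Rat K G) t Z Y := by
  classical
  obtain ⟨m, hm0, hm⟩ := exists_mult (G := G) q ho
  have hYr : Rat K G Y := rat_of_loc ho hY lY h.mem
  -- the comparison of two local maxima
  have hstep : ∀ {s s' : ℝ} {V V' : Submodule ℂ (L2 X)}, s ≤ s' → Md G V → Loc a V → Md G V' → Loc a V' →
      IsTop (MulAction.stabilizer G q) (Rat K (MulAction.stabilizer G q)) s (loc a q Z) (loc a q V) →
      IsTop (MulAction.stabilizer G q) (Rat K (MulAction.stabilizer G q)) s' (loc a q Z) (loc a q V') →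
      hf G s' Z V' + (s' - s) * vd G V' ≤ hf G s Z V := by
    intro s s' V V' _ hV lV hV' lV' h1 h2
    rw [hf_loc hm s hZ lZ hV lV, hf_loc hm s' hZ lZ hV' lV', hm V' hV' lV']
    have h3 := mul_le_mul_of_nonneg_left (hf_step h1 h2) hm0
    linarith
  rcases le_or_gt t 0 with ht | ht
  · -- t ≤ 0
    have h1 : (⊤ : Submodule ℂ (L2 (Fib a q))) ≤ loc a q Y := by
      refine h.top _ rat_top ?_
      unfold hf
      have h2 : vd (MulAction.stabilizer G q) (loc a q Z ⊓ loc a q Y) ≤
          vd (MulAction.stabilizer G q) (loc a q Z ⊓ ⊤) := vd_mono (inf_le_inf_left _ le_top)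
      have h3 : vd (MulAction.stabilizer G q) (loc a q Y) ≤
          vd (MulAction.stabilizer G q) (⊤ : Submodule ℂ (L2 (Fib a q))) := vd_mono le_top
      nlinarith
    have h2 : (⊤ : Submodule ℂ (L2 X)) ≤ Y :=
      le_of_loc_le_orbit ho md_top (fun _ _ _ => trivial) hY lY h1
    have h3 : Y = ⊤ := top_le_iff.1 h2
    subst h3
    refine ⟨rat_top, fun Y' _ => ?_, fun Y' _ _ => le_top⟩
    unfold hf
    have h4 : vd G (Z ⊓ Y') ≤ vd G (Z ⊓ ⊤) := vd_mono (inf_le_inf_left _ le_top)
    have h5 : vd G Y' ≤ vd G (⊤ : Submodule ℂ (L2 X)) := vd_mono le_top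
    nlinarith
  rcases lt_or_ge 1 t with ht1 | ht1
  · -- 1 < t
    have h1 : loc a q Y = ⊥ := by
      have h2 := h.le _ rat_bot
      have h3 : hf (MulAction.stabilizer G q) t (loc a q Z) ⊥ = 0 := by
        unfold hf
        rw [inf_bot_eq, vd_bot]
        ring
      rw [h3] at h2
      unfold hf at h2
      have h4 : vd (MulAction.stabilizer G q) (loc a q Z ⊓ loc a q Y) ≤
          vd (MulAction.stabilizer G q) (loc a q Y) := vd_mono inf_le_right
      have h5 := vd_nonneg (H := MulAction.stabilizer G q) (loc a q Y)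
      have h6 : vd (MulAction.stabilizer G q) (loc a q Y) ≤
          vd (MulAction.stabilizer G q) (⊥ : Submodule ℂ (L2 (Fib a q))) := by
        rw [vd_bot]
        nlinarith
      exact (eq_of_vd_le md_bot (hY.loc q) bot_le h6).symm
    have h2 : Y = ⊥ := by
      refine le_bot_iff.1 (le_of_loc_le_orbit ho hY lY md_bot (fun q f hf => ?_) ?_)
      · rw [(Submodule.mem_bot ℂ).1 hf, map_zero]
        exact Submodule.zero_mem _
      · rw [h1]
        exact bot_le
    subst h2
    have h0 : hf G t Z ⊥ = 0 := by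
      unfold hf
      rw [inf_bot_eq, vd_bot]
      ring
    have hle : ∀ Y' : Submodule ℂ (L2 X), hf G t Z Y' ≤ (1 - t) * vd G Y' := by
      intro Y'
      unfold hf
      have h4 : vd G (Z ⊓ Y') ≤ vd G Y' := vd_mono inf_le_right
      linarith
    refine ⟨rat_bot, fun Y' _ => ?_, fun Y' hY' h3 => ?_⟩
    · rw [h0]
      have h4 := hle Y'
      have h5 := vd_nonneg (H := G) Y'
      nlinarith
    · rw [h0] at h3
      have h4 := hle Y'
      have h5 := vd_nonneg (H := G) Y'
      have h6 : vd G Y' ≤ vd G (⊥ : Submodule ℂ (L2 X)) := by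
        rw [vd_bot]
        nlinarith
      exact (eq_of_vd_le md_bot hY'.md bot_le h6).ge
  -- 0 < t ≤ 1
  have hall : ∀ (s : ℝ), 0 < s → s ≤ 1 → ∀ (V : Submodule ℂ (L2 X)), Md G V → Loc a V →
      IsTop (MulAction.stabilizer G q) (Rat K (MulAction.stabilizer G q)) s (loc a q Z) (loc a q V) →
      ∀ W : Submodule ℂ (L2 X), Rat K G W → hf G s Z W ≤ hf G s Z V := by
    intro s hs0 hs1 V hV lV hVt W hW
    obtain ⟨c, hc⟩ := hav W hW
    have key : ∀ N : ℕ, 0 < N → hf G s Z W - hf G s Z V ≤ (2 * vd G W + c) / N := by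
      intro N hN
      have hN' : (0 : ℝ) < N := by exact_mod_cast hN
      choose Yf hYf using fun i : ℕ => exists_ltop (K := K) hn ho hR ((i : ℝ) / N) hZ
      have h1 := hc N hN Yf fun i _ => hYf i
      set j := ⌈s * N⌉₊ with hj
      have hj1 : s * N ≤ j := Nat.le_ceil _
      have hj2 : (j : ℝ) < s * N + 1 := Nat.ceil_lt_add_one (by positivity)
      have hj3 : j ≤ N := by
        refine Nat.ceil_le.2 ?_
        nlinarith
      have hW0 := vd_nonneg (H := G) W
      -- telescoping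
      have h2 : ∀ k, j ≤ k → hf G ((k : ℝ) / N) Z (Yf k) + (∑ i ∈ Finset.Ico j k, vd G (Yf (i + 1))) / N ≤
          hf G ((j : ℝ) / N) Z (Yf j) := by
        intro k hk
        induction k, hk using Nat.le_induction with
        | base => rw [Finset.Ico_self, Finset.sum_empty, zero_div, add_zero]
        | succ k hk ih =>
          rw [Finset.sum_Ico_succ_top hk, add_div]
          have h3 : ((k : ℝ)) / N ≤ ((k + 1 : ℕ) : ℝ) / N := by
            rw [div_le_div_iff_of_pos_right hN']
            push_cast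
            linarith
          have h4 := hstep h3 (hYf k).1 (hYf k).2.1 (hYf (k + 1)).1 (hYf (k + 1)).2.1 (hYf k).2.2 (hYf (k + 1)).2.2
          have h5 : (((k + 1 : ℕ) : ℝ) / N - (k : ℝ) / N) * vd G (Yf (k + 1)) = vd G (Yf (k + 1)) / N := by
            push_cast
            field_simp
            ring
          rw [h5] at h4
          linarith
      have h3 := h2 N hj3
      have h4 : 0 ≤ hf G ((N : ℝ) / N) Z (Yf N) := by
        rw [hf_loc hm _ hZ lZ (hYf N).1 (hYf N).2.1]
        refine mul_nonneg hm0 ?_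
        have h5 := (hYf N).2.2.le _ rat_bot
        have h6 : hf (MulAction.stabilizer G q) ((N : ℝ) / N) (loc a q Z) ⊥ = 0 := by
          unfold hf
          rw [inf_bot_eq, vd_bot]
          ring
        rwa [h6] at h5
      have h5 : hf G ((j : ℝ) / N) Z (Yf j) ≤ hf G s Z V := by
        have h6 : s ≤ (j : ℝ) / N := by
          rw [le_div_iff₀ hN']
          exact hj1
        have h7 := hstep h6 hV lV (hYf j).1 (hYf j).2.1 hVt (hYf j).2.2
        have h8 : 0 ≤ ((j : ℝ) / N - s) * vd G (Yf j) := mul_nonneg (by linarith) (vd_nonneg _)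
        linarith
      have h6 : (∑ i ∈ Finset.Ico j N, vd G (Yf (i + 1))) / N ≤ hf G s Z V := by linarith
      -- splitting of the sum
      have h7 : ∑ i ∈ Finset.range N, vd G (W ⊓ Yf i) ≤ ((j : ℝ) + 1) * vd G W +
          ∑ i ∈ Finset.Ico j N, vd G (Yf (i + 1)) := by
        rw [← Finset.sum_filter_add_sum_filter_not (Finset.range N) (fun i => i ≤ j)]
        refine add_le_add ?_ ?_
        · have h8 : ∑ i ∈ (Finset.range N).filter (fun i => i ≤ j), vd G (W ⊓ Yf i) ≤
              ∑ i ∈ (Finset.range N).filter (fun i => i ≤ j), vd G W :=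
            Finset.sum_le_sum fun i _ => vd_mono inf_le_left
          refine h8.trans ?_
          rw [Finset.sum_const, nsmul_eq_mul]
          refine mul_le_mul_of_nonneg_right ?_ hW0
          have h9 : ((Finset.range N).filter (fun i => i ≤ j)).card ≤ j + 1 := by
            have h10 : (Finset.range N).filter (fun i => i ≤ j) ⊆ Finset.range (j + 1) := by
              intro i hi
              rw [Finset.mem_range]
              have := (Finset.mem_filter.1 hi).2
              omega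
            have h11 := Finset.card_le_card h10
            rwa [Finset.card_range] at h11
          exact_mod_cast h9
        · have h8 : ∑ i ∈ (Finset.range N).filter (fun i => ¬ i ≤ j), vd G (W ⊓ Yf i) ≤
              ∑ i ∈ (Finset.range N).filter (fun i => ¬ i ≤ j), vd G (Yf i) :=
            Finset.sum_le_sum fun i _ => vd_mono inf_le_right
          refine h8.trans ?_
          rw [Finset.sum_Ico_add' (fun i => vd G (Yf i)) j N 1]
          refine Finset.sum_le_sum_of_subset_of_nonneg ?_ fun i _ _ => vd_nonneg _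
          intro i hi
          have h9 := Finset.mem_filter.1 hi
          have h10 := Finset.mem_range.1 h9.1
          have h11 := h9.2
          rw [Finset.mem_Ico]
          omega
      have h8 : (∑ i ∈ Finset.range N, vd G (W ⊓ Yf i)) / N ≤ (((j : ℝ) + 1) * vd G W) / N + hf G s Z V := by
        have h9 := div_le_div_of_nonneg_right h7 hN'.le
        rw [add_div] at h9
        linarith
      have h9 : (((j : ℝ) + 1) * vd G W) / N ≤ s * vd G W + 2 * vd G W / N := by
        have h11 : (s * vd G W + 2 * vd G W / N) * N = (s * N + 2) * vd G W := by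
          field_simp
        rw [div_le_iff₀ hN', h11]
        exact mul_le_mul_of_nonneg_right (by linarith) hW0
      have h10 : hf G s Z W = vd G (W ⊓ Z) - s * vd G W := by
        unfold hf
        rw [inf_comm]
      rw [h10, add_div]
      linarith
    have h1 := le_zero_of_le_div key
    linarith
  refine ⟨hYr, hall t ht ht1 Y hY lY h, fun W hW hWt => ?_⟩
  obtain ⟨s, hs0, hst, hs⟩ := h.left_const hn hR ht (hZ.loc q)
  set W' := (W ⊔ Y).topologicalClosure with hW'
  have hW'r : Rat K G W' := hW.sup hYr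
  have h1 := hf_super t hZ hW.md hY
  have h2 := hall t ht ht1 Y hY lY h (W ⊓ Y) (hW.inf hYr)
  have h3 : hf G t Z Y ≤ hf G t Z W' := by
    rw [hW']
    linarith
  have h4 := hall s hs0 (by linarith) Y hY lY hs W' hW'r
  have h5 : vd G W' ≤ vd G Y := by
    unfold hf at h3 h4
    have h6 : (t - s) * vd G W' ≤ (t - s) * vd G Y := by linarith
    exact le_of_mul_le_mul_left h6 (by linarith)
  have h6 : Y ≤ W' := le_sup_right.trans (Submodule.le_topologicalClosure _)
  have h7 := eq_of_vd_le hY hW'r.md h6 h5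
  have h8 : W ≤ W' := le_sup_left.trans (Submodule.le_topologicalClosure _)
  rwa [← h7] at h8

end orb

end ATY
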