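import Pool.Agent.ATY.E
import Pool.Agent.ATY.FRDefs

/-!
# States of a closed invariant subspace and its parts (row F3)

* `wd S W`: the elements of `W` whose restriction to `S` is in `W`; `sd S W`: its orthogonal complement in `W`;
* `loc_sd`: the states of the part over `q` are the part over `q` of the states;
* `sd_loc_finite`: if all state spaces of `W` are finite dimensional, and zero outside finitely many orbits, then the same is true
  for the parts;
* `FinSt.loc`: the same for the half trees.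
-/

set_option autoImplicit false

open scoped ComplexConjugate InnerProductSpace
open Filter Topology

namespace ATY
open Singer Singer.HT Pool.WeakAtiyah

section states
variable {X Y : Type}

/-- the elements of `W` whose restriction to `S` is in `W` -/
noncomputable def wd (S : Set X) (W : Submodule ℂ (L2 X)) : Submodule ℂ (L2 X) :=
  W ⊓ W.comap (cu S : L2 X →ₗ[ℂ] L2 X)

/-- the states of `W` for `S` -/
noncomputable def sd (S : Set X) (W : Submodule ℂ (L2 X)) : Submodule ℂ (L2 X) := W ⊓ (wd S W)ᗮ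

lemma mem_wd {S : Set X} {W : Submodule ℂ (L2 X)} {f : L2 X} : f ∈ wd S W ↔ f ∈ W ∧ cu S f ∈ W := Iff.rfl

lemma mem_sd {S : Set X} {W : Submodule ℂ (L2 X)} {f : L2 X} :
    f ∈ sd S W ↔ f ∈ W ∧ ∀ g ∈ W, cu S g ∈ W → ⟪g, f⟫_ℂ = 0 := by
  constructor
  · rintro ⟨h1, h2⟩
    exact ⟨h1, fun g hg hg' => (Submodule.mem_orthogonal _ _).1 h2 g ⟨hg, hg'⟩⟩
  · rintro ⟨h1, h2⟩
    exact ⟨h1, (Submodule.mem_orthogonal _ _).2 fun g hg => h2 g hg.1 hg.2⟩

lemma inner_push {p : X → Y} (hp : Function.Injective p) (f : L2 X) (g : L2 Y) :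
    ⟪push p hp f, g⟫_ℂ = ⟪f, pull p hp g⟫_ℂ := by
  rw [inner_eq, inner_eq]
  have h1 : Function.support (fun y => conj (push p hp f y) * g y) ⊆ Set.range p := by
    intro y hy
    by_contra h2
    apply hy
    show conj (push p hp f y) * g y = 0
    rw [push_apply_of_notMem _ _ _ h2, map_zero, zero_mul]
  rw [← hp.tsum_eq h1]
  refine tsum_congr fun x => ?_
  rw [push_apply, pull_apply]

variable {A Q : Type} [Group A] [MulAction A X] [MulAction A Q]

/-- the states of the part over `q` are the part of the states -/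
lemma loc_sd {a : X →[A] Q} {W : Submodule ℂ (L2 X)} (hl : Loc a W) (S : Set X) (q : Q) :
    sd (fi a q ⁻¹' S) (loc a q W) = loc a q (sd S W) := by
  have hc : ∀ f : L2 (Fib a q), push (fi a q) (fi_inj a q) (cu (fi a q ⁻¹' S) f) =
      cu S (push (fi a q) (fi_inj a q) f) := fun f => push_cu _ S f
  ext f
  have h0 : f ∈ loc a q (sd S W) ↔ push (fi a q) (fi_inj a q) f ∈ sd S W := Iff.rfl
  rw [h0, mem_sd, mem_sd]
  constructor
  · rintro ⟨h1, h2⟩
    refine ⟨h1, fun g hg hg' => ?_⟩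
    have h3 : push (fi a q) (fi_inj a q) (pull (fi a q) (fi_inj a q) g) ∈ W := by
      rw [push_pull_eq_cu, range_fi]
      exact hl q g hg
    have h4 : push (fi a q) (fi_inj a q) (cu (fi a q ⁻¹' S) (pull (fi a q) (fi_inj a q) g)) ∈ W := by
      rw [hc, push_pull_eq_cu, range_fi]
      have h5 : cu S (cu {x | a x = q} g) = cu {x | a x = q} (cu S g) := by
        ext x
        rw [cu_apply, cu_apply, cu_apply, cu_apply]
        split_ifs <;> rfl
      rw [h5]
      exact hl q _ hg'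
    have h5 := h2 _ h3 h4
    rw [← inner_conj_symm, inner_push, inner_conj_symm]
    exact h5
  · rintro ⟨h1, h2⟩
    refine ⟨h1, fun g hg hg' => ?_⟩
    have h3 : push (fi a q) (fi_inj a q) g ∈ W := hg
    have h4 : push (fi a q) (fi_inj a q) (cu (fi a q ⁻¹' S) g) ∈ W := hg'
    rw [hc] at h4
    have h5 := h2 _ h3 h4
    rw [inner_push, pull_push] at h5
    exact h5

lemma finiteDimensional_loc {a : X →[A] Q} (q : Q) {W : Submodule ℂ (L2 X)} (h : FiniteDimensional ℂ W) :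
    FiniteDimensional ℂ (loc a q W) := by
  have h1 : ∀ f : loc a q W, push (fi a q) (fi_inj a q) f.1 ∈ W := fun f => f.2
  refine FiniteDimensional.of_injective
    ((((push (fi a q) (fi_inj a q) : L2 (Fib a q) →L[ℂ] L2 X) : L2 (Fib a q) →ₗ[ℂ] L2 X).domRestrict
      (loc a q W)).codRestrict W h1) ?_
  intro f g hfg
  have h2 : push (fi a q) (fi_inj a q) f.1 = push (fi a q) (fi_inj a q) g.1 := congrArg Subtype.val hfg
  have h3 := congrArg (pull (fi a q) (fi_inj a q)) h2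
  rw [pull_push, pull_push] at h3
  exact Subtype.ext h3

/-- a finite dimensional space has only finitely many nonzero parts -/
lemma finite_loc_ne_bot {a : X →[A] Q} {W : Submodule ℂ (L2 X)} (h : FiniteDimensional ℂ W) :
    {q | loc a q W ≠ ⊥}.Finite := by
  have h1 : ∀ q : {q | loc a q W ≠ ⊥}, ∃ f : L2 (Fib a q.1), f ∈ loc a q.1 W ∧ f ≠ 0 := by
    rintro ⟨q, hq⟩
    obtain ⟨f, hf, hf0⟩ := Submodule.exists_mem_ne_zero_of_ne_bot hq
    exact ⟨f, hf, hf0⟩
  choose u hu hu0 using h1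
  let v : {q | loc a q W ≠ ⊥} → W := fun q => ⟨push (fi a q.1) (fi_inj a q.1) (u q), hu q⟩
  have hv : LinearIndependent ℂ v := by
    refine linearIndependent_of_ne_zero_of_inner_eq_zero ?_ ?_
    · intro q hq
      have h2 : push (fi a q.1) (fi_inj a q.1) (u q) = 0 := congrArg Subtype.val hq
      have h3 := congrArg (pull (fi a q.1) (fi_inj a q.1)) h2
      rw [pull_push, map_zero] at h3
      exact hu0 q h3
    · intro q q' hqq
      show ⟪push (fi a q.1) (fi_inj a q.1) (u q), push (fi a q'.1) (fi_inj a q'.1) (u q')⟫_ℂ = 0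
      rw [inner_push]
      have h2 : pull (fi a q.1) (fi_inj a q.1) (push (fi a q'.1) (fi_inj a q'.1) (u q')) = 0 := by
        ext x
        rw [pull_apply, push_apply_of_notMem]
        · rfl
        · rintro ⟨y, hy⟩
          apply hqq
          apply Subtype.ext
          have h3 : a (fi a q.1 x) = q.1 := x.2
          have h4 : a (fi a q'.1 y) = q'.1 := y.2
          rw [hy] at h4
          exact h3.symm.trans h4
      rw [h2, inner_zero_right]
  have h2 : Finite {q | loc a q W ≠ ⊥} := hv.finite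
  exact Set.toFinite _

/-- translates of states -/
lemma la_mem_sd {W : Submodule ℂ (L2 X)} (hW : Md A W) {S S' : Set X} {g : A} (hS : ∀ x, x ∈ S ↔ g • x ∈ S')
    {f : L2 X} (hf : f ∈ sd S' W) : la g⁻¹ f ∈ sd S W := by
  rw [mem_sd] at hf ⊢
  refine ⟨hW.inv _ _ hf.1, fun u hu hu' => ?_⟩
  have h1 : cu S' (la g u) = la g (cu S u) := by
    ext x
    rw [cu_apply, la_apply, la_apply, cu_apply]
    have h2 : g⁻¹ • x ∈ S ↔ x ∈ S' := by
      rw [hS, smul_inv_smul]
    by_cases hx : x ∈ S'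
    · rw [if_pos hx, if_pos (h2.2 hx)]
    · rw [if_neg hx, if_neg fun h => hx (h2.1 h)]
  have h3 := hf.2 (la g u) (hW.inv _ _ hu) (by rw [h1]; exact hW.inv _ _ hu')
  have h4 : f = la g (la g⁻¹ f) := by rw [la_la, mul_inv_cancel, la_one]
  rw [h4, inner_la] at h3
  exact h3

/-- finiteness of the states of the parts -/
theorem sd_loc_finite {D : Type} [MulAction A D] {a : X →[A] Q} {W : Submodule ℂ (L2 X)} (hW : Md A W) (hl : Loc a W)
    {S : D → Set X} (hS : ∀ (g : A) (d : D) (x : X), x ∈ S d ↔ g • x ∈ S (g • d))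
    (hfd : ∀ d, FiniteDimensional ℂ (sd (S d) W))
    (hor : ∃ D₀ : Set D, D₀.Finite ∧ ∀ d, sd (S d) W ≠ ⊥ → ∃ g : A, ∃ d₀ ∈ D₀, d = g • d₀) (q : Q) :
    (∀ d, FiniteDimensional ℂ (sd (fi a q ⁻¹' S d) (loc a q W))) ∧
      ∃ D₁ : Set D, D₁.Finite ∧ ∀ d, sd (fi a q ⁻¹' S d) (loc a q W) ≠ ⊥ →
        ∃ c : MulAction.stabilizer A q, ∃ d₁ ∈ D₁, d = (c : A) • d₁ := by
  classical
  refine ⟨fun d => ?_, ?_⟩
  · rw [loc_sd hl]
    exact finiteDimensional_loc q (hfd d)
  obtain ⟨D₀, hD₀, h0⟩ := hor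
  let γ : Q → A := fun q' => if h : ∃ g : A, g⁻¹ • q = q' then h.choose else 1
  refine ⟨⋃ d₀ ∈ D₀, (fun q' => γ q' • d₀) '' {q' | loc a q' (sd (S d₀) W) ≠ ⊥},
    hD₀.biUnion fun d₀ _ => (finite_loc_ne_bot (hfd d₀)).image _, fun d hd => ?_⟩
  rw [loc_sd hl] at hd
  obtain ⟨f, hf, hf0⟩ := Submodule.exists_mem_ne_zero_of_ne_bot hd
  have hf' : push (fi a q) (fi_inj a q) f ∈ sd (S d) W := hf
  have hp0 : push (fi a q) (fi_inj a q) f ≠ 0 := by
    intro h1
    have h2 := congrArg (pull (fi a q) (fi_inj a q)) h1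
    rw [pull_push, map_zero] at h2
    exact hf0 h2
  have hne : sd (S d) W ≠ ⊥ := by
    intro h1
    rw [h1] at hf'
    exact hp0 hf'
  obtain ⟨g, d₀, hd₀, rfl⟩ := h0 d hne
  have h1 : la g⁻¹ (push (fi a q) (fi_inj a q) f) ∈ sd (S d₀) W := la_mem_sd hW (hS g d₀) hf'
  -- the translate is supported in the fibre over `g⁻¹ • q`
  have h2 : loc a (g⁻¹ • q) (sd (S d₀) W) ≠ ⊥ := by
    intro h3
    have h4 : push (fi a (g⁻¹ • q)) (fi_inj a (g⁻¹ • q)) (pull (fi a (g⁻¹ • q)) (fi_inj a (g⁻¹ • q))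
        (la g⁻¹ (push (fi a q) (fi_inj a q) f))) = la g⁻¹ (push (fi a q) (fi_inj a q) f) := by
      rw [push_pull_eq_cu, range_fi]
      ext x
      rw [cu_apply]
      by_cases hx : x ∈ {x | a x = g⁻¹ • q}
      · rw [if_pos hx]
      · rw [if_neg hx, la_apply, push_apply_of_notMem]
        rintro ⟨y, hy⟩
        apply hx
        have h5 : a (fi a q y) = q := y.2
        rw [hy, inv_inv, map_smul] at h5
        show a x = g⁻¹ • q
        rw [← h5, inv_smul_smul]
    have h5 : pull (fi a (g⁻¹ • q)) (fi_inj a (g⁻¹ • q)) (la g⁻¹ (push (fi a q) (fi_inj a q) f)) ∈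
        loc a (g⁻¹ • q) (sd (S d₀) W) := by
      show push (fi a (g⁻¹ • q)) (fi_inj a (g⁻¹ • q)) (pull (fi a (g⁻¹ • q)) (fi_inj a (g⁻¹ • q))
        (la g⁻¹ (push (fi a q) (fi_inj a q) f))) ∈ sd (S d₀) W
      rw [h4]
      exact h1
    rw [h3, Submodule.mem_bot] at h5
    rw [h5, map_zero] at h4
    apply hp0
    have h6 := congrArg (la g) h4
    rw [la_la, mul_inv_cancel, la_one, map_zero] at h6
    exact h6.symm
  have h3 : ∃ g' : A, g'⁻¹ • q = g⁻¹ • q := ⟨g, rfl⟩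
  have h4 : γ (g⁻¹ • q) = h3.choose := dif_pos h3
  have h5 : (γ (g⁻¹ • q))⁻¹ • q = g⁻¹ • q := by
    rw [h4]
    exact h3.choose_spec
  refine ⟨⟨g * (γ (g⁻¹ • q))⁻¹, ?_⟩, γ (g⁻¹ • q) • d₀, ?_, ?_⟩
  · show (g * (γ (g⁻¹ • q))⁻¹) • q = q
    rw [mul_smul, h5, smul_inv_smul]
  · refine Set.mem_biUnion hd₀ ?_
    exact ⟨g⁻¹ • q, h2, rfl⟩
  · show g • d₀ = (g * (γ (g⁻¹ • q))⁻¹) • γ (g⁻¹ • q) • d₀
    rw [mul_smul, inv_smul_smul]

end states

lemma sd_empty {X : Type} (W : Submodule ℂ (L2 X)) : sd ∅ W = ⊥ := by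
  rw [eq_bot_iff]
  intro f hf
  rw [mem_sd] at hf
  have h1 : cu ∅ f = (0 : L2 X) := by
    ext x
    rw [cu_apply, if_neg (Set.notMem_empty x)]
    rfl
  have h2 := hf.2 f hf.1 (by rw [h1]; exact W.zero_mem)
  rw [inner_self_eq_zero] at h2
  rw [h2]
  exact Submodule.zero_mem _

/-- finitely many states for the parts -/
theorem FinSt.loc {A V Q X : Type} [Group A] [MulAction A V] [MulAction A Q] [MulAction A X] [FC A X]
    {T : SimpleGraph V} (hT : FreeAct A T) (δ : X →[A] V) (a : X →[A] Q) {W : Submodule ℂ (L2 X)} (hW : Md A W)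
    (hl : Loc a W) (h : FinSt T δ A W) (q : Q) :
    FinSt T (fun x => δ (fi a q x)) (MulAction.stabilizer A q) (loc a q W) := by
  classical
  have hact : Acts A T := hT.adj
  let S : V × V → Set X := fun d => {x | T.Adj d.1 d.2 ∧ δ x ∈ half T d.1 d.2}
  have hS1 : ∀ v w, T.Adj v w → sd (S (v, w)) W = St T δ W (v, w) := by
    intro v w hvw
    have h1 : S (v, w) = δ ⁻¹' half T v w := by
      ext x
      exact ⟨fun h => h.2, fun h => ⟨hvw, h⟩⟩
    rw [h1]
    rfl
  have hS2 : ∀ v w, T.Adj v w → sd (fi a q ⁻¹' S (v, w)) (ATY.loc a q W) =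
      St T (fun x => δ (fi a q x)) (ATY.loc a q W) (v, w) := by
    intro v w hvw
    have h1 : fi a q ⁻¹' S (v, w) = (fun x => δ (fi a q x)) ⁻¹' half T v w := by
      ext x
      exact ⟨fun h => h.2, fun h => ⟨hvw, h⟩⟩
    rw [h1]
    rfl
  have hS0 : ∀ d : V × V, ¬ T.Adj d.1 d.2 → S d = ∅ := by
    intro d hd
    ext x
    exact ⟨fun h => absurd h.1 hd, fun h => absurd h (Set.notMem_empty x)⟩
  have hS : ∀ (g : A) (d : V × V) (x : X), x ∈ S d ↔ g • x ∈ S (g • d) := by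
    intro g d x
    have h1 : δ (g • x) = g • δ x := map_smul δ g x
    show (T.Adj d.1 d.2 ∧ δ x ∈ half T d.1 d.2) ↔ (T.Adj (g • d.1) (g • d.2) ∧ δ (g • x) ∈ half T (g • d.1) (g • d.2))
    rw [h1, hact.half_iff, hact.iff]
  have hfd : ∀ d, FiniteDimensional ℂ (sd (S d) W) := by
    intro d
    by_cases hd : T.Adj d.1 d.2
    · rw [hS1 d.1 d.2 hd]
      exact h.fd d.1 d.2 hd
    · rw [hS0 d hd, sd_empty]
      infer_instance
  obtain ⟨s, hs, hso⟩ := h.fo
  obtain ⟨h1, D₁, hD₁, h2⟩ := sd_loc_finite hW hl hS hfd ⟨s, hs, fun d hd => by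
    by_cases hd' : T.Adj d.1 d.2
    · have h3 := hd
      rw [hS1 d.1 d.2 hd'] at h3
      obtain ⟨g, d₀, hd₀, h4, h5⟩ := hso d.1 d.2 hd' h3
      exact ⟨g, d₀, hd₀, Prod.ext h4 h5⟩
    · rw [hS0 d hd', sd_empty] at hd
      exact absurd rfl hd⟩ q
  refine ⟨fun v w hvw => ?_, D₁, hD₁, fun v w hvw hne => ?_⟩
  · rw [← hS2 v w hvw]
    exact h1 (v, w)
  · rw [← hS2 v w hvw] at hne
    obtain ⟨c, d₁, hd₁, h3⟩ := h2 (v, w) hne
    exact ⟨c, d₁, hd₁, congrArg Prod.fst h3, congrArg Prod.snd h3⟩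

end ATY
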