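import Pool.Agent.ATY.Defs

/-!
# Operators over `K` (row K of the project MP_585e9a_TREE)

`KOp K H T`: the operator `T` has an equivariant matrix over `K` with finite columns.
* closure properties (`KOp.comp`, `KOp.add`, `KOp.sub`, `kop_pull`, `kop_push`, `kop_cu`, `KOp.subgroup`, `KOp.conj`);
* `exists_kop`: operators with prescribed columns; `exists_matrix`, `kop_hatK`: matrices over `K[H]`;
* `vd_eq_vdim`, `vd_fr`: the dimension in coordinates.
-/

set_option autoImplicit false

open scoped ComplexConjugate InnerProductSpace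
open Filter Topology

namespace ATY
open Singer Pool.WeakAtiyah

section K
variable {K : Subfield ℂ} {H X Y Z : Type*} [Group H] [MulAction H X] [MulAction H Y] [MulAction H Z]

/-! ### basis vectors -/

section
omit [Group H] [MulAction H X] [MulAction H Y] [MulAction H Z]

lemma dl_apply_self (x : X) : dl x x = 1 := by
  classical
  unfold dl
  rw [lp.single_apply, Pi.single_eq_same]

lemma dl_apply_ne {x y : X} (h : y ≠ x) : dl x y = 0 := by
  classical
  unfold dl
  rw [lp.single_apply, Pi.single_eq_of_ne h]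

lemma inner_dl_left (x : X) (f : L2 X) : ⟪dl x, f⟫_ℂ = f x := by
  classical
  unfold dl
  rw [lp.inner_single_left]
  simp

lemma inner_dl_right (x : X) (f : L2 X) : ⟪f, dl x⟫_ℂ = conj (f x) := by
  rw [← inner_conj_symm, inner_dl_left]

/-- a finitely supported function is a finite sum of basis vectors -/
lemma eq_sum_dl {f : L2 X} (hf : {x | f x ≠ 0}.Finite) : f = ∑ x ∈ hf.toFinset, f x • dl x := by
  classical
  ext y
  rw [lp.coeFn_sum, Finset.sum_apply]
  simp only [lp.coeFn_smul, Pi.smul_apply, smul_eq_mul]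
  by_cases hy : f y = 0
  · rw [hy, Finset.sum_eq_zero]
    intro x hx
    have hxy : y ≠ x := by
      intro h
      have h1 := hf.mem_toFinset.1 hx
      apply h1
      rw [← h]
      exact hy
    rw [dl_apply_ne hxy, mul_zero]
  · rw [Finset.sum_eq_single_of_mem y (hf.mem_toFinset.2 hy)]
    · rw [dl_apply_self, mul_one]
    · intro x _ hx
      rw [dl_apply_ne (fun h => hx h.symm), mul_zero]

/-- equality on basis vectors -/
lemma eq_of_dl {T S : L2 X →L[ℂ] L2 Y} (h : ∀ x, T (dl x) = S (dl x)) : T = S := by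
  have h2 : ContinuousLinearMap.adjoint T = ContinuousLinearMap.adjoint S := by
    ext f x
    rw [← inner_dl_left, ContinuousLinearMap.adjoint_inner_right, h, ← ContinuousLinearMap.adjoint_inner_right,
      inner_dl_left]
  have h3 := congrArg ContinuousLinearMap.adjoint h2
  rwa [ContinuousLinearMap.adjoint_adjoint, ContinuousLinearMap.adjoint_adjoint] at h3

end

omit [MulAction H Y] [MulAction H Z] in
lemma la_dl (h : H) (x : X) : la h (dl x) = dl (h • x) := by
  ext y
  rw [la_apply]
  by_cases hy : y = h • x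
  · subst hy
    rw [inv_smul_smul, dl_apply_self, dl_apply_self]
  · rw [dl_apply_ne hy, dl_apply_ne]
    intro h1
    apply hy
    rw [← h1, smul_inv_smul]

/-! ### closure properties -/

lemma KOp.comp {T : L2 Y →L[ℂ] L2 Z} {S : L2 X →L[ℂ] L2 Y} (hT : KOp K H T) (hS : KOp K H S) :
    KOp K H (T.comp S) := by
  classical
  have key : ∀ x, (T.comp S) (dl x) = ∑ y ∈ (hS.fs x).toFinset, S (dl x) y • T (dl y) := by
    intro x
    rw [ContinuousLinearMap.comp_apply]
    conv_lhs => rw [eq_sum_dl (hS.fs x)]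
    rw [map_sum]
    exact Finset.sum_congr rfl fun y _ => map_smul _ _ _
  have key2 : ∀ x z, (T.comp S) (dl x) z = ∑ y ∈ (hS.fs x).toFinset, S (dl x) y * T (dl y) z := by
    intro x z
    rw [key, lp.coeFn_sum, Finset.sum_apply]
    rfl
  refine ⟨fun h f => ?_, fun x => ?_, fun x z => ?_⟩
  · rw [ContinuousLinearMap.comp_apply, ContinuousLinearMap.comp_apply, hS.equi, hT.equi]
  · refine ((hS.fs x).biUnion fun y _ => hT.fs y).subset fun z hz => ?_
    simp only [Set.mem_iUnion]
    by_contra hne
    apply hz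
    rw [key2]
    refine Finset.sum_eq_zero fun y hy => ?_
    have h1 : T (dl y) z = 0 := by
      by_contra h2
      exact hne ⟨y, (hS.fs x).mem_toFinset.1 hy, h2⟩
    rw [h1, mul_zero]
  · rw [key2]
    exact sum_mem fun y _ => mul_mem (hS.val x y) (hT.val y z)

omit [MulAction H Z] in
lemma KOp.add {S T : L2 X →L[ℂ] L2 Y} (hS : KOp K H S) (hT : KOp K H T) : KOp K H (S + T) := by
  refine ⟨fun h f => ?_, fun x => ?_, fun x y => ?_⟩
  · rw [add_apply, add_apply, hS.equi, hT.equi, map_add]
  · refine ((hS.fs x).union (hT.fs x)).subset fun y hy => ?_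
    by_contra hne
    simp only [Set.mem_union, not_or] at hne
    apply hy
    rw [add_apply, lp.coeFn_add, Pi.add_apply, show S (dl x) y = 0 from not_not.1 hne.1,
      show T (dl x) y = 0 from not_not.1 hne.2, add_zero]
  · rw [add_apply, lp.coeFn_add, Pi.add_apply]
    exact add_mem (hS.val x y) (hT.val x y)

omit [MulAction H Z] in
lemma KOp.sub {S T : L2 X →L[ℂ] L2 Y} (hS : KOp K H S) (hT : KOp K H T) : KOp K H (S - T) := by
  refine ⟨fun h f => ?_, fun x => ?_, fun x y => ?_⟩
  · rw [sub_apply, sub_apply, hS.equi, hT.equi, map_sub]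
  · refine ((hS.fs x).union (hT.fs x)).subset fun y hy => ?_
    by_contra hne
    simp only [Set.mem_union, not_or] at hne
    apply hy
    rw [sub_apply, lp.coeFn_sub, Pi.sub_apply, show S (dl x) y = 0 from not_not.1 hne.1,
      show T (dl x) y = 0 from not_not.1 hne.2, sub_zero]
  · rw [sub_apply, lp.coeFn_sub, Pi.sub_apply]
    exact sub_mem (hS.val x y) (hT.val x y)

omit [MulAction H Z] in
lemma kop_zero : KOp K H (0 : L2 X →L[ℂ] L2 Y) := by
  refine ⟨fun h f => ?_, fun x => ?_, fun x y => ?_⟩
  · simp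
  · refine Set.finite_empty.subset fun y hy => ?_
    exact hy rfl
  · exact K.zero_mem

omit [MulAction H Y] [MulAction H Z] in
lemma dl_mem_fs (x : X) : {y | dl x y ≠ 0}.Finite := by
  refine (Set.finite_singleton x).subset fun y hy => ?_
  by_contra h
  exact hy (dl_apply_ne h)

omit [MulAction H Y] [MulAction H Z] in
lemma dl_val (x y : X) : dl x y ∈ K := by
  by_cases h : y = x
  · subst h
    rw [dl_apply_self]
    exact K.one_mem
  · rw [dl_apply_ne h]
    exact K.zero_mem

omit [MulAction H Y] [MulAction H Z] in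
lemma kop_id : KOp K H (1 : L2 X →L[ℂ] L2 X) :=
  ⟨fun _ _ => rfl, fun x => dl_mem_fs x, fun x y => dl_val x y⟩

omit [MulAction H Z] in
lemma kop_pull {p : X → Y} (hp : Function.Injective p) (he : ∀ (h : H) x, p (h • x) = h • p x) :
    KOp K H (pull p hp) := by
  refine ⟨fun h f => ?_, fun y => ?_, fun y x => ?_⟩
  · ext x
    rw [pull_apply, la_apply, la_apply, pull_apply, he]
  · have h1 : {x | pull p hp (dl y) x ≠ 0} ⊆ p ⁻¹' {y} := by
      intro x hx
      by_contra h
      exact hx (dl_apply_ne h)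
    exact ((Set.finite_singleton y).preimage hp.injOn).subset h1
  · exact dl_val y (p x)

section
omit [Group H] [MulAction H X] [MulAction H Y] [MulAction H Z]

lemma push_dl {p : X → Y} (hp : Function.Injective p) (x : X) : push p hp (dl x) = dl (p x) := by
  ext y
  by_cases hy : y ∈ Set.range p
  · obtain ⟨x', rfl⟩ := hy
    rw [push_apply]
    by_cases h : x' = x
    · subst h
      rw [dl_apply_self, dl_apply_self]
    · rw [dl_apply_ne h, dl_apply_ne fun h1 => h (hp h1)]
  · rw [push_apply_of_notMem p hp _ hy, dl_apply_ne]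
    rintro rfl
    exact hy ⟨x, rfl⟩

lemma pull_dl (e : X ≃ Y) (y : Y) : pull e e.injective (dl y) = dl (e.symm y) := by
  ext x
  rw [pull_apply]
  by_cases h : e x = y
  · subst h
    rw [dl_apply_self, Equiv.symm_apply_apply, dl_apply_self]
  · rw [dl_apply_ne h, dl_apply_ne]
    rintro rfl
    exact h (e.apply_symm_apply y)

lemma push_equiv_apply (e : X ≃ Y) (f : L2 X) (y : Y) : push e e.injective f y = f (e.symm y) := by
  have h := push_apply e e.injective f (e.symm y)
  rwa [Equiv.apply_symm_apply] at h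

lemma push_eq_pull (e : X ≃ Y) : push e e.injective = pull e.symm e.symm.injective := by
  ext f y
  rw [push_equiv_apply, pull_apply]

end

omit [MulAction H Z] in
lemma kop_push {p : X → Y} (hp : Function.Injective p) (he : ∀ (h : H) x, p (h • x) = h • p x) :
    KOp K H (push p hp) := by
  refine ⟨fun h f => ?_, fun x => ?_, fun x y => ?_⟩
  · ext y
    rw [la_apply]
    by_cases hy : y ∈ Set.range p
    · obtain ⟨x, rfl⟩ := hy
      rw [← he, push_apply, push_apply, la_apply]
    · rw [push_apply_of_notMem p hp _ hy, push_apply_of_notMem p hp]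
      rintro ⟨x, hx⟩
      apply hy
      refine ⟨h • x, ?_⟩
      rw [he, hx, smul_inv_smul]
  · rw [push_dl]
    exact dl_mem_fs _
  · rw [push_dl]
    exact dl_val _ _

omit [MulAction H Y] [MulAction H Z] in
/-- multiplication by the indicator function of a stable set -/
lemma kop_cu {S : Set X} (hS : ∀ (h : H), ∀ x ∈ S, h • x ∈ S) : KOp K H (cu S : L2 X →L[ℂ] L2 X) := by
  classical
  have hmem : ∀ (h : H) (x : X), h⁻¹ • x ∈ S ↔ x ∈ S := by
    intro h x
    constructor
    · intro h1
      have h2 := hS h _ h1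
      rwa [smul_inv_smul] at h2
    · exact hS h⁻¹ x
  refine ⟨fun h f => ?_, fun x => ?_, fun x y => ?_⟩
  · ext x
    rw [la_apply, cu_apply, cu_apply, la_apply]
    by_cases hx : x ∈ S
    · rw [if_pos hx, if_pos ((hmem h x).2 hx)]
    · rw [if_neg hx, if_neg fun h1 => hx ((hmem h x).1 h1)]
  · refine (dl_mem_fs x).subset fun y hy => ?_
    intro h
    apply hy
    rw [cu_apply, h]
    split_ifs <;> rfl
  · rw [cu_apply]
    split_ifs
    · exact dl_val x y
    · exact K.zero_mem

omit [MulAction H Z] in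
lemma KOp.subgroup {T : L2 X →L[ℂ] L2 Y} (hT : KOp K H T) (N : Subgroup H) : KOp K N T :=
  ⟨fun h f => hT.equi (h : H) f, hT.fs, hT.val⟩

omit [MulAction H Z] in
/-- transport -/
lemma KOp.conj {H' X' Y' : Type*} [Group H'] [MulAction H' X'] [MulAction H' Y'] (α : H ≃* H') (e : X ≃ X')
    (he : ∀ (h : H) (x : X), e (h • x) = α h • e x) (e' : Y ≃ Y') (he' : ∀ (h : H) (y : Y), e' (h • y) = α h • e' y)
    {T : L2 X →L[ℂ] L2 Y} (hT : KOp K H T) :
    KOp K H' (((push e' e'.injective).comp T).comp (pull e e.injective)) := by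
  have hval : ∀ x', (((push e' e'.injective).comp T).comp (pull e e.injective)) (dl x') =
      push e' e'.injective (T (dl (e.symm x'))) := by
    intro x'
    rw [ContinuousLinearMap.comp_apply, ContinuousLinearMap.comp_apply, pull_dl]
  refine ⟨fun h' f => ?_, fun x' => ?_, fun x' y' => ?_⟩
  · obtain ⟨h, rfl⟩ := α.surjective h'
    have h1 : pull e e.injective (la (α h) f) = la h (pull e e.injective f) := by
      ext x
      rw [pull_apply, la_apply, la_apply, pull_apply, he, map_inv]
    have h2 : ∀ g : L2 Y, push e' e'.injective (la h g) = la (α h) (push e' e'.injective g) := by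
      intro g
      ext y'
      rw [push_equiv_apply, la_apply, la_apply, push_equiv_apply]
      refine congrArg (fun y => g y) ?_
      apply e'.injective
      rw [he', map_inv, Equiv.apply_symm_apply, Equiv.apply_symm_apply]
    rw [ContinuousLinearMap.comp_apply, ContinuousLinearMap.comp_apply, h1, hT.equi, h2]
    rfl
  · have h1 : {y' | (((push e' e'.injective).comp T).comp (pull e e.injective)) (dl x') y' ≠ 0} ⊆
        e'.symm ⁻¹' {y | T (dl (e.symm x')) y ≠ 0} := by
      intro y' hy'
      have hy2 : (((push e' e'.injective).comp T).comp (pull e e.injective)) (dl x') y' ≠ 0 := hy'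
      rw [hval, push_equiv_apply] at hy2
      exact hy2
    exact ((hT.fs (e.symm x')).preimage e'.symm.injective.injOn).subset h1
  · rw [hval, push_equiv_apply]
    exact hT.val _ _

lemma dl_prod {A B : Type*} (x : A × B) [Group A] : dl x = (del x.1 x.2 : E A B) := by
  ext y
  by_cases h : y = x
  · subst h
    rw [dl_apply_self]
    exact (del_apply_self _ _).symm
  · rw [dl_apply_ne h]
    exact (del_apply_ne h).symm

/-! ### existence -/

omit [MulAction H Z] in
/-- existence of operators with given columns -/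
theorem exists_kop [FC H X] [FC H Y] (q : X → L2 Y) (he : ∀ (h : H) x, q (h • x) = la h (q x))
    (hf : ∀ x, {y | q x y ≠ 0}.Finite) (hv : ∀ x y, q x y ∈ K) : ∃ T : L2 X →L[ℂ] L2 Y, KOp K H T ∧ ∀ x, T (dl x) = q x := by
  classical
  have hq : ∀ j, FS (tE H (q ((co H X).symm (1, j))) : E H (Fin (rk H Y))) := by
    intro j
    have h1 : {x | (tE H (q ((co H X).symm (1, j))) : E H (Fin (rk H Y))) x ≠ 0} =
        (co H Y).symm ⁻¹' {y | q ((co H X).symm (1, j)) y ≠ 0} := rfl
    unfold FS
    rw [h1]
    exact (hf _).preimage (co H Y).symm.injective.injOn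
  obtain ⟨T', hT', hT'q⟩ := exists_mat (Γ := H) (fun j : Fin (rk H X) =>
    (tE H (q ((co H X).symm (1, j))) : E H (Fin (rk H Y)))) hq
  have hval : ∀ x, ((pull (co H Y) (co H Y).injective).comp (T'.comp (tE H))) (dl x) = q x := by
    intro x
    have h1 : (tE H (dl x) : E H (Fin (rk H X))) = del (co H X x).1 (co H X x).2 := by
      have h4 := pull_dl (co H X).symm x
      rw [Equiv.symm_symm, dl_prod] at h4
      exact h4
    have h2 : T' (del (co H X x).1 (co H X x).2) = lam (co H X x).1 (tE H (q ((co H X).symm (1, (co H X x).2)))) := by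
      rw [equi_del hT'.equi, hT'q]
    have h3 : (co H X x).1 • (co H X).symm (1, (co H X x).2) = x := by
      apply (co H X).injective
      rw [co_smul, Equiv.apply_symm_apply, mul_one]
    rw [ContinuousLinearMap.comp_apply, ContinuousLinearMap.comp_apply, h1, h2]
    conv_rhs => rw [← h3, he]
    ext y
    rw [pull_apply, lam_apply, la_apply]
    show q ((co H X).symm (1, (co H X x).2)) ((co H Y).symm (((co H X x).1)⁻¹ * (co H Y y).1, (co H Y y).2)) = _
    refine congrArg (fun z => q ((co H X).symm (1, (co H X x).2)) z) ?_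
    apply (co H Y).injective
    rw [Equiv.apply_symm_apply, co_smul]
  refine ⟨(pull (co H Y) (co H Y).injective).comp (T'.comp (tE H)), ⟨fun h f => ?_, fun x => ?_, fun x y => ?_⟩, hval⟩
  · have h1 : (tE H (la h f) : E H (Fin (rk H X))) = lam h (tE H f) := by
      ext x
      show f (h⁻¹ • (co H X).symm x) = f ((co H X).symm (h⁻¹ * x.1, x.2))
      refine congrArg (fun z => f z) ?_
      apply (co H X).injective
      rw [Equiv.apply_symm_apply, co_smul, Equiv.apply_symm_apply]
    rw [ContinuousLinearMap.comp_apply, ContinuousLinearMap.comp_apply, h1, hT'.equi]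
    ext y
    rw [pull_apply, lam_apply, la_apply, ContinuousLinearMap.comp_apply, pull_apply, co_smul]
    rfl
  · rw [hval]
    exact hf x
  · rw [hval]
    exact hv x y

section
variable {H : Type} [Group H]

lemma la_fr {ι : Type*} (h : H) (f : L2 (Fr H ι)) : la h f = (lam h (f : E H ι) : E H ι) := rfl

lemma dl_fr {ι : Type*} (x : Fr H ι) : (dl x : L2 (Fr H ι)) = (del x.1 x.2 : E H ι) := dl_prod (A := H) (B := ι) x

lemma hatK_del {ι κ : Type} [Fintype ι] [Fintype κ] (M : Matrix ι κ (MonoidAlgebra K H)) (i : ι) (g : H) (l : κ) :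
    hatK M (del 1 i) (g, l) = ((M i l).coeff g : ℂ) := by
  classical
  rw [hatK_apply]
  rw [Finset.sum_eq_single i]
  · by_cases hg : g ∈ (M i l).coeff.support
    · rw [Finset.sum_eq_single g]
      · rw [mul_inv_cancel, del_apply_self, mul_one]
      · intro y _ hy
        rw [del_apply_ne, mul_zero]
        intro h'
        apply hy
        have := congrArg Prod.fst h'
        exact (mul_inv_eq_one.1 this).symm
      · exact fun h' => absurd hg h'
    · rw [Finset.sum_eq_zero]
      · rw [Finsupp.notMem_support_iff.1 hg]; simp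
      · intro y hy
        rw [del_apply_ne, mul_zero]
        intro h'
        apply hg
        have := congrArg Prod.fst h'
        rw [mul_inv_eq_one.1 this]
        exact hy
  · intro i' _ hi'
    refine Finset.sum_eq_zero fun x _ => ?_
    rw [del_apply_ne, mul_zero]
    intro h'
    exact hi' (congrArg Prod.snd h')
  · exact fun h' => absurd (Finset.mem_univ i) h'

end

/-- operators over K are matrices over K[H] -/
theorem exists_matrix {H : Type} [Group H] {a b : ℕ} {T : L2 (Fr H (Fin a)) →L[ℂ] L2 (Fr H (Fin b))} (hT : KOp K H T) :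
    ∃ M : Matrix (Fin a) (Fin b) (MonoidAlgebra K H), (T : E H (Fin a) →L[ℂ] E H (Fin b)) = hatK M := by
  classical
  have hfin : ∀ (i : Fin a) (l : Fin b),
      (Function.support fun g : H => (⟨T (dl ((1, i) : Fr H (Fin a))) ((g, l) : Fr H (Fin b)), hT.val _ _⟩ : K)).Finite := by
    intro i l
    have h1 := (hT.fs ((1, i) : Fr H (Fin a))).preimage (f := fun g : H => ((g, l) : Fr H (Fin b)))
      (fun g _ g' _ h => congrArg Prod.fst h)
    refine h1.subset fun g hg => ?_
    intro h2
    apply hg
    exact Subtype.ext h2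
  refine ⟨fun i l => ⟨Finsupp.ofSupportFinite _ (hfin i l)⟩, ?_⟩
  refine equi_ext (fun g f => hT.equi g f) (equi_hatK _) fun i => ?_
  ext x
  obtain ⟨g, l⟩ := x
  refine Eq.trans ?_ (hatK_del _ i g l).symm
  have h1 : (del 1 i : E H (Fin a)) = (dl ((1, i) : Fr H (Fin a)) : L2 (Fr H (Fin a))) :=
    (dl_fr ((1, i) : Fr H (Fin a))).symm
  show T (del 1 i : E H (Fin a)) (g, l) = T (dl ((1, i) : Fr H (Fin a))) (g, l)
  rw [h1]

theorem kop_hatK {H : Type} [Group H] {ι κ : Type} [Fintype ι] [Fintype κ] (M : Matrix ι κ (MonoidAlgebra K H)) :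
    KOp K H (X := Fr H ι) (Y := Fr H κ) (hatK M) := by
  classical
  have key : ∀ (x : Fr H ι) (y : Fr H κ), (hatK M : E H ι →L[ℂ] E H κ) (dl x) y =
      ((M x.2 y.2).coeff (x.1⁻¹ * y.1) : ℂ) := by
    intro x y
    have h1 : (hatK M : E H ι →L[ℂ] E H κ) (dl x) = lam x.1 (hatK M (del 1 x.2)) := by
      rw [← equi_del (equi_hatK M)]
      exact congrArg (hatK M) (dl_fr x)
    have h2 : (hatK M : E H ι →L[ℂ] E H κ) (dl x) y = (lam x.1 (hatK M (del 1 x.2)) : E H κ) y := by rw [h1]
    rw [h2]
    exact hatK_del M x.2 (x.1⁻¹ * y.1) y.2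
  refine ⟨fun h f => equi_hatK M h f, fun x => ?_, fun x y => ?_⟩
  · have h1 : {y : Fr H κ | (hatK M : E H ι →L[ℂ] E H κ) (dl x) y ≠ 0} ⊆
        ⋃ l : κ, (fun g : H => ((x.1 * g, l) : Fr H κ)) '' ((M x.2 l).coeff.support : Set H) := by
      intro y hy
      have hy2 : ((M x.2 y.2).coeff (x.1⁻¹ * y.1) : ℂ) ≠ 0 := by
        rw [← key]
        exact hy
      refine Set.mem_iUnion.2 ⟨y.2, x.1⁻¹ * y.1, ?_, ?_⟩
      · rw [Finset.mem_coe, Finsupp.mem_support_iff]
        intro h2
        apply hy2
        rw [h2]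
        rfl
      · exact Prod.ext (mul_inv_cancel_left _ _) rfl
    exact (Set.finite_iUnion fun l => (Finset.finite_toSet _).image _).subset h1
  · have h1 := key x y
    have h2 : ((M x.2 y.2).coeff (x.1⁻¹ * y.1) : ℂ) ∈ K := ((M x.2 y.2).coeff _).2
    rw [← h1] at h2
    exact h2

/-! ### dimensions in coordinates -/

section
omit [Group H] [MulAction H X] [MulAction H Y] [MulAction H Z]

lemma inner_pull_equiv (e : X ≃ Y) (f g : L2 Y) : ⟪pull e e.injective f, pull e e.injective g⟫_ℂ = ⟪f, g⟫_ℂ := by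
  rw [inner_eq, inner_eq]
  exact e.tsum_eq fun y => conj (f y) * g y

end

/-- the orthogonal projection -/
noncomputable def pj (W : Submodule ℂ (L2 X)) : L2 X →L[ℂ] L2 X := W.topologicalClosure.starProjection

section
omit [Group H] [MulAction H X] [MulAction H Y] [MulAction H Z]

lemma pj_mem (W : Submodule ℂ (L2 X)) (f : L2 X) : pj W f ∈ W.topologicalClosure :=
  Submodule.starProjection_apply_mem _ _

lemma sub_pj_mem (W : Submodule ℂ (L2 X)) (f : L2 X) : f - pj W f ∈ Wᗮ := by
  rw [← Submodule.orthogonal_closure W]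
  exact Submodule.sub_starProjection_mem_orthogonal f

lemma pj_unique {W : Submodule ℂ (L2 X)} {f v : L2 X} (hv : v ∈ W.topologicalClosure) (h : f - v ∈ Wᗮ) :
    pj W f = v := by
  refine Submodule.eq_starProjection_of_mem_orthogonal (K := W.topologicalClosure) hv ?_
  rwa [Submodule.orthogonal_closure]

end

omit [MulAction H Y] [MulAction H Z] in
lemma inner_la (h : H) (f g : L2 X) : ⟪la h f, la h g⟫_ℂ = ⟪f, g⟫_ℂ :=
  inner_pull_equiv (MulAction.toPerm h⁻¹) f g

omit [MulAction H Y] [MulAction H Z] in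
lemma la_la (h k : H) (f : L2 X) : la h (la k f) = la (h * k) f := by
  ext x
  rw [la_apply, la_apply, la_apply, mul_inv_rev, mul_smul]

omit [MulAction H Y] [MulAction H Z] in
lemma la_one (f : L2 X) : la (1 : H) f = f := by
  ext x
  rw [la_apply, inv_one, one_smul]

omit [MulAction H Y] [MulAction H Z] in
lemma norm_la (h : H) (f : L2 X) : ‖la h f‖ = ‖f‖ :=
  norm_pull_equiv (MulAction.toPerm h⁻¹) f

omit [MulAction H Y] [MulAction H Z] in
/-- the projection commutes with the translations -/
lemma pj_la {W : Submodule ℂ (L2 X)} (hW : ∀ (h : H), ∀ f ∈ W, la h f ∈ W) (h : H) (f : L2 X) :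
    pj W (la h f) = la h (pj W f) := by
  refine pj_unique ?_ ?_
  · have h1 : la h (pj W f) ∈ closure ((la h : L2 X →L[ℂ] L2 X) '' (W : Set (L2 X))) :=
      image_closure_subset_closure_image (la h).continuous ⟨pj W f, pj_mem W f, rfl⟩
    refine closure_mono ?_ h1
    rintro _ ⟨x, hx, rfl⟩
    exact hW h x hx
  · rw [← map_sub, Submodule.mem_orthogonal]
    intro u hu
    have h1 : u = la h (la h⁻¹ u) := by rw [la_la, mul_inv_cancel, la_one]
    rw [h1, inner_la]
    exact (Submodule.mem_orthogonal _ _).1 (sub_pj_mem W f) _ (hW h⁻¹ u hu)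

omit [MulAction H Y] [MulAction H Z] in
/-- the density function of the dimension is invariant -/
lemma norm_pj_dl {W : Submodule ℂ (L2 X)} (hW : ∀ (h : H), ∀ f ∈ W, la h f ∈ W) (h : H) (x : X) :
    ‖pj W (dl (h • x))‖ = ‖pj W (dl x)‖ := by
  rw [← la_dl, pj_la hW, norm_la]

section
omit [Group H] [MulAction H X] [MulAction H Y] [MulAction H Z]

/-- the projection in coordinates -/
lemma norm_pj_map (e : X ≃ Y) (W : Submodule ℂ (L2 X)) (y : Y) :
    ‖pj (W.map (pull e.symm e.symm.injective : L2 X →ₗ[ℂ] L2 Y)) (dl y)‖ = ‖pj W (dl (e.symm y))‖ := by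
  have h1 : pj (W.map (pull e.symm e.symm.injective : L2 X →ₗ[ℂ] L2 Y)) (dl y) =
      pull e.symm e.symm.injective (pj W (dl (e.symm y))) := by
    refine pj_unique ?_ ?_
    · have h1 : pull e.symm e.symm.injective (pj W (dl (e.symm y))) ∈
          closure ((pull e.symm e.symm.injective : L2 X →L[ℂ] L2 Y) '' (W : Set (L2 X))) :=
        image_closure_subset_closure_image (pull e.symm e.symm.injective).continuous ⟨_, pj_mem W _, rfl⟩
      refine closure_mono ?_ h1
      rintro _ ⟨x, hx, rfl⟩
      exact ⟨x, hx, rfl⟩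
    · have h2 : dl y = pull e.symm e.symm.injective (dl (e.symm y)) := by
        rw [pull_dl, Equiv.symm_symm, Equiv.apply_symm_apply]
      rw [h2, ← map_sub, Submodule.mem_orthogonal]
      rintro _ ⟨u, hu, rfl⟩
      show ⟪pull e.symm e.symm.injective u, _⟫_ℂ = 0
      rw [inner_pull_equiv]
      exact (Submodule.mem_orthogonal _ _).1 (sub_pj_mem W _) u hu
  rw [h1, norm_pull_equiv]

end

omit [MulAction H Y] [MulAction H Z] in
/-- the dimension is the sum of `‖pj W (dl x)‖²` over representatives of the orbits -/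
theorem vd_eq_sum [FC H X] {W : Submodule ℂ (L2 X)} (hW : ∀ (h : H), ∀ f ∈ W, la h f ∈ W) {J : Type*} [Fintype J]
    (r : J → X) (hr : ∀ x, ∃! j, x ∈ MulAction.orbit H (r j)) : vd H W = ∑ j, ‖pj W (dl (r j))‖ ^ 2 := by
  classical
  have h0 : vd H W = ∑ i : Fin (rk H X), ‖pj W (dl ((co H X).symm (1, i)))‖ ^ 2 := by
    unfold vd vdim
    refine Finset.sum_congr rfl fun i _ => ?_
    have h1 := norm_pj_map (co H X) W (1, i)
    rw [← h1, dl_prod]
    rfl
  rw [h0]
  have hco : ∀ x y : X, x ∈ MulAction.orbit H y ↔ (co H X x).2 = (co H X y).2 := by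
    intro x y
    constructor
    · rintro ⟨h, rfl⟩
      show (co H X (h • y)).2 = _
      rw [co_smul]
    · intro h
      refine ⟨(co H X x).1 * (co H X y).1⁻¹, ?_⟩
      show ((co H X x).1 * (co H X y).1⁻¹) • y = x
      apply (co H X).injective
      rw [co_smul, inv_mul_cancel_right]
      exact Prod.ext rfl h.symm
  have hbij : Function.Bijective fun j : J => (co H X (r j)).2 := by
    constructor
    · intro j j' h
      obtain ⟨k, _, hk⟩ := hr (r j)
      have h1 : j = k := hk j (MulAction.mem_orbit_self _)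
      have h2 : j' = k := hk j' ((hco _ _).2 h)
      rw [h1, h2]
    · intro i
      obtain ⟨j, hj, _⟩ := hr ((co H X).symm (1, i))
      refine ⟨j, ?_⟩
      have h1 := (hco _ _).1 hj
      rw [Equiv.apply_symm_apply] at h1
      exact h1.symm
  rw [← (Equiv.ofBijective _ hbij).sum_comp]
  refine Finset.sum_congr rfl fun j _ => ?_
  congr 1
  have h1 : (co H X (r j)).1 • (co H X).symm (1, (co H X (r j)).2) = r j := by
    apply (co H X).injective
    rw [co_smul, Equiv.apply_symm_apply, mul_one]
  show ‖pj W (dl ((co H X).symm (1, (co H X (r j)).2)))‖ = _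
  rw [← norm_pj_dl hW (co H X (r j)).1, h1]

/-- dimensions in coordinates -/
theorem vd_fr {H : Type} [Group H] {ι : Type} [Fintype ι] {W : Submodule ℂ (L2 (Fr H ι))} (hW : Md H W) :
    vd H W = vdim (W : Submodule ℂ (E H ι)) := by
  rw [vd_eq_sum hW.inv (fun i : ι => ((1, i) : Fr H ι))]
  · unfold vdim
    refine Finset.sum_congr rfl fun i _ => ?_
    have h1 : (dl ((1, i) : Fr H ι) : L2 (Fr H ι)) = (del 1 i : E H ι) := dl_fr _
    rw [h1]
    rfl
  · intro x
    refine ⟨x.2, ⟨x.1, ?_⟩, ?_⟩
    · show ((x.1 * 1, x.2) : Fr H ι) = x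
      rw [mul_one]
      rfl
    · rintro j ⟨h, hj⟩
      have h1 : ((h * 1, j) : Fr H ι) = x := hj
      exact congrArg Prod.snd h1

end K

end ATY
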