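import Pool.Agent.ATY.A
import Pool.Agent.ATY.K

/-!
# Rational subspaces
-/

set_option autoImplicit false

open scoped ComplexConjugate InnerProductSpace
open Filter Topology

namespace ATY
open Singer Pool.WeakAtiyah

section sums
variable {H X Y : Type*} [Group H] [MulAction H X] [MulAction H Y]

instance fcSum [hX : FC H X] [hY : FC H Y] : FC H (X ⊕ Y) where
  free h x hx := by
    rcases x with x | y
    · exact hX.free h x (Sum.inl.inj hx)
    · exact hY.free h y (Sum.inr.inj hx)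
  fin := by
    have h1 : Finite (MulAction.orbitRel.Quotient H X) := hX.fin
    have h2 : Finite (MulAction.orbitRel.Quotient H Y) := hY.fin
    let F : MulAction.orbitRel.Quotient H X ⊕ MulAction.orbitRel.Quotient H Y → MulAction.orbitRel.Quotient H (X ⊕ Y) :=
      fun q => Sum.elim (fun q => Quotient.mk (MulAction.orbitRel H (X ⊕ Y)) (Sum.inl q.out))
        (fun q => Quotient.mk (MulAction.orbitRel H (X ⊕ Y)) (Sum.inr q.out)) q
    refine Finite.of_surjective F ?_
    intro q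
    induction q using Quotient.inductionOn with
    | h x =>
      rcases x with x | y
      · refine ⟨Sum.inl (Quotient.mk (MulAction.orbitRel H X) x), Quotient.sound ?_⟩
        have h3 : (MulAction.orbitRel H X) (Quotient.mk (MulAction.orbitRel H X) x).out x :=
          @Quotient.exact X (MulAction.orbitRel H X) _ _ (Quotient.out_eq (Quotient.mk (MulAction.orbitRel H X) x))
        obtain ⟨g, hg⟩ := h3
        exact ⟨g, congrArg Sum.inl hg⟩
      · refine ⟨Sum.inr (Quotient.mk (MulAction.orbitRel H Y) y), Quotient.sound ?_⟩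
        have h3 : (MulAction.orbitRel H Y) (Quotient.mk (MulAction.orbitRel H Y) y).out y :=
          @Quotient.exact Y (MulAction.orbitRel H Y) _ _ (Quotient.out_eq (Quotient.mk (MulAction.orbitRel H Y) y))
        obtain ⟨g, hg⟩ := h3
        exact ⟨g, congrArg Sum.inr hg⟩

/-- the first component -/
noncomputable def pl (X Y : Type*) : L2 (X ⊕ Y) →L[ℂ] L2 X := pull Sum.inl Sum.inl_injective
/-- the second component -/
noncomputable def pr (X Y : Type*) : L2 (X ⊕ Y) →L[ℂ] L2 Y := pull Sum.inr Sum.inr_injective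
/-- the first inclusion -/
noncomputable def il (X Y : Type*) : L2 X →L[ℂ] L2 (X ⊕ Y) := push Sum.inl Sum.inl_injective
/-- the second inclusion -/
noncomputable def ir (X Y : Type*) : L2 Y →L[ℂ] L2 (X ⊕ Y) := push Sum.inr Sum.inr_injective

@[simp] lemma pl_il (f : L2 X) : pl X Y (il X Y f) = f := pull_push _ _ _
@[simp] lemma pr_ir (f : L2 Y) : pr X Y (ir X Y f) = f := pull_push _ _ _
@[simp] lemma pl_ir (f : L2 Y) : pl X Y (ir X Y f) = 0 := by
  ext x
  exact push_apply_of_notMem (Sum.inr : Y → X ⊕ Y) Sum.inr_injective f (y := Sum.inl x) (by simp)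
@[simp] lemma pr_il (f : L2 X) : pr X Y (il X Y f) = 0 := by
  ext x
  exact push_apply_of_notMem (Sum.inl : X → X ⊕ Y) Sum.inl_injective f (y := Sum.inr x) (by simp)
lemma pl_pr_ext {f g : L2 (X ⊕ Y)} (h1 : pl X Y f = pl X Y g) (h2 : pr X Y f = pr X Y g) : f = g := by
  ext x
  rcases x with x | y
  · exact congrArg (fun u : L2 X => u x) h1
  · exact congrArg (fun u : L2 Y => u y) h2
lemma il_add_ir (f : L2 (X ⊕ Y)) : il X Y (pl X Y f) + ir X Y (pr X Y f) = f := by
  apply pl_pr_ext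
  · rw [map_add, pl_il, pl_ir, add_zero]
  · rw [map_add, pr_il, pr_ir, zero_add]
lemma il_add_ir_eq_zero {f : L2 X} {g : L2 Y} : il X Y f + ir X Y g = 0 ↔ f = 0 ∧ g = 0 := by
  constructor
  · intro h
    have h1 := congrArg (pl X Y) h
    have h2 := congrArg (pr X Y) h
    rw [map_add, pl_il, pl_ir, add_zero, map_zero] at h1
    rw [map_add, pr_il, pr_ir, zero_add, map_zero] at h2
    exact ⟨h1, h2⟩
  · rintro ⟨rfl, rfl⟩
    rw [map_zero, map_zero, add_zero]

variable {K : Subfield ℂ}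

lemma kop_pl : KOp K H (pl X Y) := kop_pull _ fun _ _ => rfl
lemma kop_pr : KOp K H (pr X Y) := kop_pull _ fun _ _ => rfl
lemma kop_il : KOp K H (il X Y) := kop_push _ fun _ _ => rfl
lemma kop_ir : KOp K H (ir X Y) := kop_push _ fun _ _ => rfl

lemma mem_kr {T : L2 X →L[ℂ] L2 Y} {f : L2 X} : f ∈ kr T ↔ T f = 0 := LinearMap.mem_ker

lemma mem_map' {T : L2 X →L[ℂ] L2 Y} {W : Submodule ℂ (L2 X)} {g : L2 Y} :
    g ∈ W.map (T : L2 X →ₗ[ℂ] L2 Y) ↔ ∃ f ∈ W, T f = g := Submodule.mem_map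

lemma mem_comap' {T : L2 X →L[ℂ] L2 Y} {W : Submodule ℂ (L2 Y)} {f : L2 X} :
    f ∈ W.comap (T : L2 X →ₗ[ℂ] L2 Y) ↔ T f ∈ W := Submodule.mem_comap

lemma map_le_im {T : L2 X →L[ℂ] L2 Y} {W : Submodule ℂ (L2 X)} : W.map (T : L2 X →ₗ[ℂ] L2 Y) ≤ im T W :=
  Submodule.le_topologicalClosure _

lemma im_le {T : L2 X →L[ℂ] L2 Y} {W : Submodule ℂ (L2 X)} {V : Submodule ℂ (L2 Y)} (hV : IsClosed (V : Set (L2 Y)))
    (h : ∀ f ∈ W, T f ∈ V) : im T W ≤ V :=
  Submodule.topologicalClosure_minimal _ (by rintro _ ⟨f, hf, rfl⟩; exact h f hf) hV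

lemma isClosed_im {T : L2 X →L[ℂ] L2 Y} {W : Submodule ℂ (L2 X)} : IsClosed (im T W : Set (L2 Y)) :=
  Submodule.isClosed_topologicalClosure _

/-- the image of the closure -/
lemma im_closure {T : L2 X →L[ℂ] L2 Y} {W : Submodule ℂ (L2 X)} : im T W.topologicalClosure = im T W := by
  apply le_antisymm
  · refine im_le isClosed_im fun f hf => ?_
    have h1 : W.topologicalClosure ≤ (im T W).comap (T : L2 X →ₗ[ℂ] L2 Y) :=
      Submodule.topologicalClosure_minimal _ (fun f hf => map_le_im ⟨f, hf, rfl⟩)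
        (isClosed_im.preimage T.continuous)
    exact h1 hf
  · exact Submodule.topologicalClosure_mono (Submodule.map_mono (Submodule.le_topologicalClosure _))

lemma im_mono {T : L2 X →L[ℂ] L2 Y} {W V : Submodule ℂ (L2 X)} (h : W ≤ V) : im T W ≤ im T V :=
  Submodule.topologicalClosure_mono (Submodule.map_mono h)

end sums

section R
variable {K : Subfield ℂ} {H : Type} [Group H] {X Y Z : Type} [MulAction H X] [MulAction H Y] [MulAction H Z]

theorem Rat.md {W : Submodule ℂ (L2 X)} (hW : Rat K H W) : Md H W := by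
  obtain ⟨a, b, T, hT, rfl⟩ := hW
  exact Md.im (kop_pl (K := K)).equi (md_kr hT.equi)

variable [FC H X] [FC H Y] [FC H Z]

/-- arbitrary auxiliary sets -/
theorem rat_gen {T : L2 (X ⊕ Y) →L[ℂ] L2 Z} (hT : KOp K H T) : Rat K H (im (pull Sum.inl Sum.inl_injective) (kr T)) := by
  let eY : Y ≃ Fr H (Fin (rk H Y)) := co H Y
  let eZ : Z ≃ Fr H (Fin (rk H Z)) := co H Z
  let e : X ⊕ Y ≃ X ⊕ Fr H (Fin (rk H Y)) := Equiv.sumCongr (Equiv.refl X) eY
  have he : ∀ (h : H) (x : X ⊕ Y), e (h • x) = (MulEquiv.refl H) h • e x := by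
    rintro h (x | y)
    · rfl
    · exact congrArg Sum.inr (co_smul H h y)
  have heZ : ∀ (h : H) (x : Z), eZ (h • x) = (MulEquiv.refl H) h • eZ x := fun h x => co_smul H h x
  have hK := KOp.conj (MulEquiv.refl H) e he eZ heZ hT
  refine ⟨rk H Y, rk H Z, _, hK, ?_⟩
  have hm : ∀ f : L2 (X ⊕ Y), pull e e.injective (push e e.injective f) = f := fun f => pull_push _ _ _
  have hm' : ∀ f : L2 (X ⊕ Fr H (Fin (rk H Y))), push e e.injective (pull e e.injective f) = f := by
    intro f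
    ext y
    obtain ⟨x, rfl⟩ := e.surjective y
    rw [push_apply, pull_apply]
  unfold im
  congr 1
  ext g
  rw [mem_map', mem_map']
  constructor
  · rintro ⟨f, hf, rfl⟩
    refine ⟨push e e.injective f, ?_, ?_⟩
    · rw [mem_kr]
      show push eZ eZ.injective (T (pull e e.injective (push e e.injective f))) = 0
      rw [hm, mem_kr.1 hf, map_zero]
    · ext x
      rw [pull_apply, pull_apply]
      exact push_apply e e.injective f (Sum.inl x)
  · rintro ⟨f, hf, rfl⟩
    refine ⟨pull e e.injective f, ?_, ?_⟩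
    · have h1 : push eZ eZ.injective (T (pull e e.injective f)) = 0 := hf
      rw [mem_kr]
      have h2 := congrArg (pull eZ eZ.injective) h1
      rwa [pull_push, map_zero] at h2
    · ext x
      rfl

theorem rat_kr {T : L2 X →L[ℂ] L2 Y} (hT : KOp K H T) : Rat K H (kr T) := by
  have h1 : KOp K H (T.comp (pl X (Fr H (Fin 0)))) := hT.comp kop_pl
  have h2 := rat_gen h1
  have h3 : im (pull Sum.inl Sum.inl_injective) (kr (T.comp (pl X (Fr H (Fin 0))))) = kr T := by
    apply le_antisymm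
    · exact im_le T.isClosed_ker fun f hf => hf
    · intro f hf
      refine map_le_im ⟨il X (Fr H (Fin 0)) f, ?_, pl_il f⟩
      show T (pl X (Fr H (Fin 0)) (il X (Fr H (Fin 0)) f)) = 0
      rw [pl_il]
      exact hf
  rwa [h3] at h2

theorem rat_top : Rat K H (⊤ : Submodule ℂ (L2 X)) := by
  have h := rat_kr (K := K) (H := H) (kop_zero : KOp K H (0 : L2 X →L[ℂ] L2 X))
  have h1 : kr (0 : L2 X →L[ℂ] L2 X) = ⊤ := by
    ext f; simp [mem_kr]
  rwa [h1] at h

theorem rat_bot : Rat K H (⊥ : Submodule ℂ (L2 X)) := by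
  have h := rat_kr (K := K) (H := H) (kop_id : KOp K H (1 : L2 X →L[ℂ] L2 X))
  have h1 : kr (1 : L2 X →L[ℂ] L2 X) = ⊥ := by
    ext f
    rw [mem_kr, Submodule.mem_bot]
    exact Iff.rfl
  rwa [h1] at h

/-- the general form -/
lemma Rat.exists_form {W : Submodule ℂ (L2 X)} (hW : Rat K H W) : ∃ (a b : ℕ)
    (T : L2 (X ⊕ Fr H (Fin a)) →L[ℂ] L2 (Fr H (Fin b))), KOp K H T ∧ W = im (pl X (Fr H (Fin a))) (kr T) := hW

theorem Rat.im {W : Submodule ℂ (L2 X)} (hW : Rat K H W) {S : L2 X →L[ℂ] L2 Y} (hS : KOp K H S) :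
    Rat K H (im S W) := by
  obtain ⟨a, b, T, hT, rfl⟩ := hW.exists_form
  let A := Fr H (Fin a)
  let B := Fr H (Fin b)
  let U : L2 (Y ⊕ (X ⊕ A)) →L[ℂ] L2 (B ⊕ Y) := (il B Y).comp (T.comp (pr Y (X ⊕ A))) +
    (ir B Y).comp (pl Y (X ⊕ A) - S.comp ((pl X A).comp (pr Y (X ⊕ A))))
  have hU : KOp K H U := (kop_il.comp (hT.comp kop_pr)).add (kop_ir.comp (kop_pl.sub (hS.comp (kop_pl.comp kop_pr))))
  have h2 := rat_gen hU
  have h3 : ATY.im (pull Sum.inl Sum.inl_injective) (kr U) = ATY.im S (ATY.im (pl X A) (kr T)) := by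
    have h4 : ATY.im S (ATY.im (pl X A) (kr T)) =
        (((kr T).map (pl X A : L2 (X ⊕ A) →ₗ[ℂ] L2 X)).map (S : L2 X →ₗ[ℂ] L2 Y)).topologicalClosure := by
      unfold ATY.im
      exact im_closure
    rw [h4]
    unfold ATY.im
    congr 1
    ext g
    rw [mem_map', mem_map']
    constructor
    · rintro ⟨f, hf, rfl⟩
      have h5 := il_add_ir_eq_zero.1 (show (il B Y) (T (pr Y (X ⊕ A) f)) +
        (ir B Y) (pl Y (X ⊕ A) f - S (pl X A (pr Y (X ⊕ A) f))) = 0 from hf)
      exact ⟨pl X A (pr Y (X ⊕ A) f), ⟨pr Y (X ⊕ A) f, h5.1, rfl⟩, (sub_eq_zero.1 h5.2).symm⟩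
    · rintro ⟨_, ⟨f, hf, rfl⟩, rfl⟩
      refine ⟨il Y (X ⊕ A) (S (pl X A f)) + ir Y (X ⊕ A) f, ?_, ?_⟩
      · show (il B Y) (T (pr Y (X ⊕ A) _)) + (ir B Y) (pl Y (X ⊕ A) _ - S (pl X A (pr Y (X ⊕ A) _))) = 0
        rw [map_add (pr Y (X ⊕ A)), pr_il, pr_ir, zero_add, map_add (pl Y (X ⊕ A)), pl_il, pl_ir, add_zero]
        exact il_add_ir_eq_zero.2 ⟨hf, sub_self _⟩
      · show pl Y (X ⊕ A) _ = _
        rw [map_add (pl Y (X ⊕ A)), pl_il, pl_ir, add_zero]
        rfl
  rwa [h3] at h2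

theorem Rat.comap {W : Submodule ℂ (L2 Y)} (hW : Rat K H W) {S : L2 X →L[ℂ] L2 Y} (hS : KOp K H S) :
    Rat K H (W.comap (S : L2 X →ₗ[ℂ] L2 Y)) := by
  have hM := Md.comap hS.equi hW.md
  obtain ⟨a, b, T, hT, rfl⟩ := hW.exists_form
  let A := Fr H (Fin a)
  let B := Fr H (Fin b)
  let U : L2 (X ⊕ (Y ⊕ A)) →L[ℂ] L2 (B ⊕ Y) := (il B Y).comp (T.comp (pr X (Y ⊕ A))) +
    (ir B Y).comp ((pl Y A).comp (pr X (Y ⊕ A)) - S.comp (pl X (Y ⊕ A)))
  have hU : KOp K H U := (kop_il.comp (hT.comp kop_pr)).add (kop_ir.comp ((kop_pl.comp kop_pr).sub (hS.comp kop_pl)))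
  have h2 := rat_gen hU
  have h3 := dense_pullback hS.equi (kop_pl (K := K)).equi hM (md_kr hT.equi) (Submodule.map_comap_le _ _)
  have h4 : ATY.im (pull Sum.inl Sum.inl_injective) (kr U) =
      (ATY.im (pl Y A) (kr T)).comap (S : L2 X →ₗ[ℂ] L2 Y) := by
    refine Eq.trans ?_ h3
    refine congrArg Submodule.topologicalClosure ?_
    ext g
    rw [mem_map', Submodule.mem_inf, mem_comap' (W := (kr T).map (pl Y A : L2 (Y ⊕ A) →ₗ[ℂ] L2 Y)), mem_map']
    constructor
    · rintro ⟨f, hf, rfl⟩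
      have h5 := il_add_ir_eq_zero.1 (show (il B Y) (T (pr X (Y ⊕ A) f)) +
        (ir B Y) (pl Y A (pr X (Y ⊕ A) f) - S (pl X (Y ⊕ A) f)) = 0 from hf)
      have h6 : ∃ f_1 ∈ kr T, (pl Y A) f_1 = S (pl X (Y ⊕ A) f) := ⟨pr X (Y ⊕ A) f, h5.1, sub_eq_zero.1 h5.2⟩
      refine ⟨?_, h6⟩
      rw [mem_comap']
      exact map_le_im (mem_map'.2 h6)
    · rintro ⟨-, f, hf, hg⟩
      refine ⟨il X (Y ⊕ A) g + ir X (Y ⊕ A) f, ?_, ?_⟩
      · show (il B Y) (T (pr X (Y ⊕ A) _)) + (ir B Y) (pl Y A (pr X (Y ⊕ A) _) - S (pl X (Y ⊕ A) _)) = 0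
        rw [map_add (pr X (Y ⊕ A)), pr_il, pr_ir, zero_add, map_add (pl X (Y ⊕ A)), pl_il, pl_ir, add_zero]
        exact il_add_ir_eq_zero.2 ⟨hf, sub_eq_zero.2 hg⟩
      · show pl X (Y ⊕ A) _ = _
        rw [map_add (pl X (Y ⊕ A)), pl_il, pl_ir, add_zero]
  rwa [h4] at h2

theorem Rat.inf {V W : Submodule ℂ (L2 X)} (hV : Rat K H V) (hW : Rat K H W) : Rat K H (V ⊓ W) := by
  have hC : Md H (V ⊓ W) := Md.inf hV.md hW.md
  obtain ⟨a, b, T, hT, hVe⟩ := hV.exists_form
  obtain ⟨a', b', T', hT', hWe⟩ := hW.exists_form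
  let A := Fr H (Fin a)
  let B := Fr H (Fin b)
  let A' := Fr H (Fin a')
  let B' := Fr H (Fin b')
  -- restriction of a function on X ⊕ (A ⊕ A')
  let R : L2 (X ⊕ (A ⊕ A')) →L[ℂ] L2 (X ⊕ A) := (il X A).comp (pl X (A ⊕ A')) +
    (ir X A).comp ((pl A A').comp (pr X (A ⊕ A')))
  let R' : L2 (X ⊕ (A ⊕ A')) →L[ℂ] L2 (X ⊕ A') := (il X A').comp (pl X (A ⊕ A')) +
    (ir X A').comp ((pr A A').comp (pr X (A ⊕ A')))
  have hR : KOp K H R := (kop_il.comp kop_pl).add (kop_ir.comp (kop_pl.comp kop_pr))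
  have hR' : KOp K H R' := (kop_il.comp kop_pl).add (kop_ir.comp (kop_pr.comp kop_pr))
  let U : L2 (X ⊕ (A ⊕ A')) →L[ℂ] L2 (B ⊕ B') := (il B B').comp (T.comp R) + (ir B B').comp (T'.comp R')
  have hU : KOp K H U := (kop_il.comp (hT.comp hR)).add (kop_ir.comp (hT'.comp hR'))
  have h2 := rat_gen hU
  have h3 : ATY.im (pull Sum.inl Sum.inl_injective) (kr U) = V ⊓ W := by
    -- density
    have hD : Md H (kr T ⊓ (V ⊓ W).comap (pl X A : L2 (X ⊕ A) →ₗ[ℂ] L2 X)) :=
      Md.inf (md_kr hT.equi) (Md.comap (kop_pl (K := K)).equi hC)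
    have hid : ∀ (h : H) (f : L2 X), (1 : L2 X →L[ℂ] L2 X) (la h f) = la h ((1 : L2 X →L[ℂ] L2 X) f) := fun h f => rfl
    have d1 := dense_pullback (Z := X) hid (kop_pl (K := K)).equi hC (md_kr hT.equi) (by
      rintro _ ⟨f, hf, rfl⟩
      have h4 : f ∈ V := hf.1
      rw [hVe] at h4
      exact h4)
    have d2 := dense_pullback (Z := X) (kop_pl (K := K)).equi (kop_pl (K := K)).equi hD (md_kr hT'.equi) (by
      rintro _ ⟨f, hf, rfl⟩
      have h4 : pl X A f ∈ W := hf.2.2
      rw [hWe] at h4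
      exact h4)
    apply le_antisymm
    · refine im_le hC.cl fun f hf => ?_
      have h5 := il_add_ir_eq_zero.1 (show (il B B') (T (R f)) + (ir B B') (T' (R' f)) = 0 from hf)
      have e1 : pl X A (R f) = pl X (A ⊕ A') f := by
        show pl X A (il X A _ + ir X A _) = _
        rw [map_add, pl_il, pl_ir, add_zero]
        rfl
      have e2 : pl X A' (R' f) = pl X (A ⊕ A') f := by
        show pl X A' (il X A' _ + ir X A' _) = _
        rw [map_add, pl_il, pl_ir, add_zero]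
        rfl
      constructor
      · rw [hVe]
        exact map_le_im ⟨R f, h5.1, e1⟩
      · rw [hWe]
        exact map_le_im ⟨R' f, h5.2, e2⟩
    · -- the image of D ∩ pullback is dense
      have h6 : ATY.im (pl X A) (kr T ⊓ (V ⊓ W).comap (pl X A : L2 (X ⊕ A) →ₗ[ℂ] L2 X)) ≤
          ATY.im (pull Sum.inl Sum.inl_injective) (kr U) := by
        rw [← d2, im_closure]
        refine im_le isClosed_im ?_
        rintro f ⟨hf, hf'⟩
        obtain ⟨f', hf1, hf2⟩ := mem_map'.1 hf'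
        refine map_le_im ⟨il X (A ⊕ A') (pl X A f) + ir X (A ⊕ A') (il A A' (pr X A f) + ir A A' (pr X A' f')), ?_, ?_⟩
        · have e1 : R (il X (A ⊕ A') (pl X A f) + ir X (A ⊕ A') (il A A' (pr X A f) + ir A A' (pr X A' f'))) = f := by
            show il X A (pl X (A ⊕ A') _) + ir X A (pl A A' (pr X (A ⊕ A') _)) = f
            rw [map_add (pl X (A ⊕ A')), pl_il, pl_ir, add_zero, map_add (pr X (A ⊕ A')), pr_il, pr_ir, zero_add,
              map_add (pl A A'), pl_il, pl_ir, add_zero]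
            exact il_add_ir f
          have e2 : R' (il X (A ⊕ A') (pl X A f) + ir X (A ⊕ A') (il A A' (pr X A f) + ir A A' (pr X A' f'))) = f' := by
            show il X A' (pl X (A ⊕ A') _) + ir X A' (pr A A' (pr X (A ⊕ A') _)) = f'
            rw [map_add (pl X (A ⊕ A')), pl_il, pl_ir, add_zero, map_add (pr X (A ⊕ A')), pr_il, pr_ir, zero_add,
              map_add (pr A A'), pr_il, pr_ir, zero_add]
            have h7 : pl X A f = pl X A' f' := hf2.symm
            rw [h7]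
            exact il_add_ir f'
          show (il B B') (T (R _)) + (ir B B') (T' (R' _)) = 0
          rw [e1, e2]
          exact il_add_ir_eq_zero.2 ⟨hf.1, hf1⟩
        · show pl X (A ⊕ A') _ = _
          rw [map_add (pl X (A ⊕ A')), pl_il, pl_ir, add_zero]
      refine le_trans ?_ h6
      refine le_trans d1.ge ?_
      refine Submodule.topologicalClosure_mono ?_
      rintro g ⟨hg, hg'⟩
      obtain ⟨f, hf1, hf2⟩ := mem_map'.1 (mem_comap'.1 hg')
      have h8 : pl X A f = g := hf2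
      refine mem_map'.2 ⟨f, ⟨hf1, ?_⟩, h8⟩
      show pl X A f ∈ V ⊓ W
      rw [h8]
      exact hg
  rwa [h3] at h2

theorem Rat.sup {V W : Submodule ℂ (L2 X)} (hV : Rat K H V) (hW : Rat K H W) :
    Rat K H (V ⊔ W).topologicalClosure := by
  have h1 : Rat K H (V.comap (pl X X : L2 (X ⊕ X) →ₗ[ℂ] L2 X) ⊓ W.comap (pr X X : L2 (X ⊕ X) →ₗ[ℂ] L2 X)) :=
    (hV.comap kop_pl).inf (hW.comap kop_pr)
  have h2 : KOp K H (pl X X + pr X X) := kop_pl.add kop_pr
  have h3 := h1.im h2
  have h4 : ATY.im (pl X X + pr X X) (V.comap (pl X X : L2 (X ⊕ X) →ₗ[ℂ] L2 X) ⊓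
      W.comap (pr X X : L2 (X ⊕ X) →ₗ[ℂ] L2 X)) = (V ⊔ W).topologicalClosure := by
    refine congrArg Submodule.topologicalClosure ?_
    ext g
    rw [mem_map', Submodule.mem_sup]
    constructor
    · rintro ⟨f, hf, rfl⟩
      exact ⟨_, hf.1, _, hf.2, rfl⟩
    · rintro ⟨y, hy, z, hz, rfl⟩
      refine ⟨il X X y + ir X X z, ⟨?_, ?_⟩, ?_⟩
      · show pl X X _ ∈ V
        rw [map_add, pl_il, pl_ir, add_zero]
        exact hy
      · show pr X X _ ∈ W
        rw [map_add, pr_il, pr_ir, zero_add]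
        exact hz
      · show pl X X _ + pr X X _ = _
        rw [map_add (pl X X), pl_il, pl_ir, add_zero, map_add (pr X X), pr_il, pr_ir, zero_add]
  rwa [h4] at h3

/-- kernels of operators over `K` have dimensions in `(1/n) ℤ` -/
lemma vd_kr_eq {n : ℕ} (hn : 0 < n) (hR : RanksIn K H n) {T : L2 X →L[ℂ] L2 Y} (hT : KOp K H T) :
    ∃ z : ℤ, vd H (kr T) = z / n := by
  let e : X ≃ Fr H (Fin (rk H X)) := co H X
  let e' : Y ≃ Fr H (Fin (rk H Y)) := co H Y
  have he : ∀ (h : H) (x : X), e (h • x) = (MulEquiv.refl H) h • e x := fun h x => co_smul H h x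
  have he' : ∀ (h : H) (y : Y), e' (h • y) = (MulEquiv.refl H) h • e' y := fun h y => co_smul H h y
  have hK := KOp.conj (MulEquiv.refl H) e he e' he' hT
  obtain ⟨M, hM⟩ := exists_matrix hK
  have h1 := vd_equiv (MulEquiv.refl H) e he (md_kr hT.equi)
  have h2 : (kr T).map (push e e.injective : L2 X →ₗ[ℂ] L2 (Fr H (Fin (rk H X)))) =
      kr (((push e' e'.injective).comp T).comp (pull e e.injective)) := by
    ext g
    rw [mem_map', mem_kr]
    constructor
    · rintro ⟨f, hf, rfl⟩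
      show push e' e'.injective (T (pull e e.injective (push e e.injective f))) = 0
      rw [pull_push, mem_kr.1 hf, map_zero]
    · intro hg
      refine ⟨pull e e.injective g, ?_, ?_⟩
      · have h3 := congrArg (pull e' e'.injective) (show push e' e'.injective (T (pull e e.injective g)) = 0 from hg)
        rwa [pull_push, map_zero] at h3
      · ext y
        obtain ⟨x, rfl⟩ := e.surjective y
        rw [push_apply, pull_apply]
  rw [h2, vd_fr (md_kr hK.equi)] at h1
  have h4 : vdim (kr (((push e' e'.injective).comp T).comp (pull e e.injective)) : Submodule ℂ (E H (Fin (rk H X)))) =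
      vdim (LinearMap.ker (hatK M : E H (Fin (rk H X)) →ₗ[ℂ] E H (Fin (rk H Y)))) := by
    rw [← hM]
    rfl
  have h5 := vdim_ker_add (equi_hatK M)
  obtain ⟨z, hz⟩ := hR (Fin (rk H X)) (Fin (rk H Y)) M
  rw [rank_eq] at hz
  refine ⟨(rk H X : ℤ) * n - z, ?_⟩
  have hn' : (n : ℝ) ≠ 0 := by exact_mod_cast hn.ne'
  have h6 : vd H (kr T) = (rk H X : ℝ) - z / n := by
    have h9 := h1.symm.trans h4
    rw [Fintype.card_fin] at h5
    have h7 : vdim (rg M) = (z : ℝ) / n := hz
    have h8 : vdim (LinearMap.range (hatK M : E H (Fin (rk H X)) →ₗ[ℂ] E H (Fin (rk H Y)))) = vdim (rg M) := rfl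
    linarith
  rw [h6]
  push_cast
  field_simp

/-- integrality -/
theorem Rat.vd_eq {n : ℕ} (hn : 0 < n) (hR : RanksIn K H n) {W : Submodule ℂ (L2 X)} (hW : Rat K H W) :
    ∃ z : ℤ, vd H W = z / n := by
  obtain ⟨a, b, T, hT, rfl⟩ := hW.exists_form
  let A := Fr H (Fin a)
  let B := Fr H (Fin b)
  have h1 := vd_im_add (kop_pl (K := K)).equi (md_kr hT.equi)
  have h2 : KOp K H ((il B X).comp T + (ir B X).comp (pl X A)) := (kop_il.comp hT).add (kop_ir.comp kop_pl)
  have h3 : kr T ⊓ kr (pl X A) = kr ((il B X).comp T + (ir B X).comp (pl X A)) := by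
    ext f
    exact il_add_ir_eq_zero.symm
  obtain ⟨z, hz⟩ := vd_kr_eq hn hR hT
  obtain ⟨w, hw⟩ := vd_kr_eq hn hR h2
  refine ⟨z - w, ?_⟩
  have h4 : vd H (kr T ⊓ kr (pl X (Fr H (Fin a)))) = w / n := by rw [← hw, ← h3]
  push_cast
  rw [sub_div, ← hz, ← h4]
  linarith

/-- transport -/
theorem Rat.equiv {H' X' : Type} [Group H'] [MulAction H' X'] [FC H' X'] (α : H ≃* H') (e : X ≃ X')
    (he : ∀ (h : H) (x : X), e (h • x) = α h • e x) {W : Submodule ℂ (L2 X)} (hW : Rat K H W) :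
    Rat K H' (W.map (push e e.injective : L2 X →ₗ[ℂ] L2 X')) := by
  obtain ⟨a, b, T, hT, rfl⟩ := hW.exists_form
  let β : ∀ c : ℕ, Fr H (Fin c) ≃ Fr H' (Fin c) := fun c => Equiv.prodCongr α.toEquiv (Equiv.refl (Fin c))
  have hβ : ∀ (c : ℕ) (h : H) (x : Fr H (Fin c)), β c (h • x) = α h • β c x := fun c h x =>
    Prod.ext (map_mul α h x.1) rfl
  let ε : X ⊕ Fr H (Fin a) ≃ X' ⊕ Fr H' (Fin a) := Equiv.sumCongr e (β a)
  have hε : ∀ (h : H) (x : X ⊕ Fr H (Fin a)), ε (h • x) = α h • ε x := by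
    rintro h (x | y)
    · exact congrArg Sum.inl (he h x)
    · exact congrArg Sum.inr (hβ a h y)
  have hK := KOp.conj α ε hε (β b) (hβ b) hT
  refine ⟨a, b, _, hK, ?_⟩
  have hc : ∀ (P : Submodule ℂ (L2 X)), P.topologicalClosure.map (push e e.injective : L2 X →ₗ[ℂ] L2 X') =
      (P.map (push e e.injective : L2 X →ₗ[ℂ] L2 X')).topologicalClosure := by
    intro P
    have hpp : ∀ f : L2 X', push e e.injective (pull e e.injective f) = f := by
      intro f
      ext y
      obtain ⟨x, rfl⟩ := e.surjective y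
      rw [push_apply, pull_apply]
    apply le_antisymm
    · rintro _ ⟨f, hf, rfl⟩
      have h1 : P.topologicalClosure ≤ ((P.map (push e e.injective : L2 X →ₗ[ℂ] L2 X')).topologicalClosure).comap
          (push e e.injective : L2 X →ₗ[ℂ] L2 X') :=
        Submodule.topologicalClosure_minimal _ (fun f hf => Submodule.le_topologicalClosure _ ⟨f, hf, rfl⟩)
          ((Submodule.isClosed_topologicalClosure _).preimage (push e e.injective).continuous)
      exact h1 hf
    · have h2 : P.topologicalClosure.map (push e e.injective : L2 X →ₗ[ℂ] L2 X') =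
          P.topologicalClosure.comap (pull e e.injective : L2 X' →ₗ[ℂ] L2 X) := by
        ext g
        rw [mem_map', mem_comap']
        constructor
        · rintro ⟨f, hf, rfl⟩
          rwa [pull_push]
        · intro hg
          exact ⟨_, hg, hpp g⟩
      refine Submodule.topologicalClosure_minimal _ (Submodule.map_mono (Submodule.le_topologicalClosure _)) ?_
      rw [h2]
      exact (Submodule.isClosed_topologicalClosure _).preimage (pull e e.injective).continuous
  unfold ATY.im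
  rw [hc]
  refine congrArg Submodule.topologicalClosure ?_
  ext g
  rw [mem_map', mem_map']
  constructor
  · rintro ⟨_, ⟨f, hf, rfl⟩, rfl⟩
    refine ⟨push ε ε.injective f, ?_, ?_⟩
    · rw [mem_kr]
      show push (β b) (β b).injective (T (pull ε ε.injective (push ε ε.injective f))) = 0
      rw [pull_push, mem_kr.1 hf, map_zero]
    · ext y
      obtain ⟨x, rfl⟩ := e.surjective y
      rw [pull_apply]
      show push ε ε.injective f (ε (Sum.inl x)) = push e e.injective (pl X (Fr H (Fin a)) f) (e x)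
      rw [push_apply, push_apply]
      rfl
  · rintro ⟨f, hf, rfl⟩
    refine ⟨_, ⟨pull ε ε.injective f, ?_, rfl⟩, ?_⟩
    · have h1 := congrArg (pull (β b) (β b).injective)
        (show push (β b) (β b).injective (T (pull ε ε.injective f)) = 0 from hf)
      rwa [pull_push, map_zero] at h1
    · ext y
      obtain ⟨x, rfl⟩ := e.surjective y
      rw [pull_apply]
      show push e e.injective (pl X (Fr H (Fin a)) (pull ε ε.injective f)) (e x) = _
      rw [push_apply]
      rfl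

/-- restriction to a subgroup of finite index -/
theorem Rat.res {W : Submodule ℂ (L2 X)} (hW : Rat K H W) (N : Subgroup H) [N.FiniteIndex] : Rat K N W := by
  obtain ⟨a, b, T, hT, rfl⟩ := hW.exists_form
  have h1 : KOp K N T := hT.subgroup N
  exact rat_gen h1

end R

end ATY
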