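import Pool.Agent.ATY.FRDefs
import Pool.Agent.ATY.R

/-!
# Row HAT: the induced modules `hat Q W`

`hat Q W = {f ∈ ℓ²(HX Q X) : all slices f(ν, ·) are in W}`, `HX Q X = FreeGroup (Q × ℤ) × X`.
-/

set_option autoImplicit false
set_option linter.unusedSectionVars false
set_option linter.unusedVariables false

open scoped ComplexConjugate InnerProductSpace
open Filter Topology

namespace ATY
open Singer Pool.WeakAtiyah

section slices
variable {Q X Y Z : Type}

namespace HA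

/-- inclusion of the slice `ν` -/
noncomputable def isl (ν : FreeGroup (Q × ℤ)) : L2 X →L[ℂ] L2 (HX Q X) := push (hp ν) (hp_inj ν)

lemma sl_isl (ν : FreeGroup (Q × ℤ)) (f : L2 X) : sl ν (isl ν f) = f := pull_push _ _ _

lemma sl_isl_ne {ν ν' : FreeGroup (Q × ℤ)} (h : ν ≠ ν') (f : L2 X) : sl ν (isl ν' f) = 0 := by
  ext x
  refine push_apply_of_notMem (hp ν') (hp_inj ν') f (y := hp ν x) ?_
  rintro ⟨b, hb⟩
  exact h (congrArg Prod.fst hb).symm

lemma sl_ext {f g : L2 (HX Q X)} (h : ∀ ν, sl ν f = sl ν g) : f = g := by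
  ext x
  exact congrArg (fun u : L2 X => u x.2) (h x.1)

lemma hasSum_slices (f : L2 (HX Q X)) : HasSum (fun ν => ‖sl ν f‖ ^ 2) (‖f‖ ^ 2) := by
  have h1 : Summable fun p : HX Q X => ‖f p‖ ^ 2 := summable_sq f
  have h2 : ∀ ν, HasSum (fun x => ‖f (hp ν x)‖ ^ 2) (‖sl ν f‖ ^ 2) := by
    intro ν
    have h3 := (summable_sq (sl ν f)).hasSum
    rw [← norm_sq_eq] at h3
    exact h3
  have h3 : HasSum (fun p : HX Q X => ‖f p‖ ^ 2) (‖f‖ ^ 2) := by
    rw [norm_sq_eq]
    exact h1.hasSum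
  exact h3.prod_fiberwise h2

/-- glueing of slices -/
lemma exists_glue (F : FreeGroup (Q × ℤ) → L2 X) (h : Summable fun ν => ‖F ν‖ ^ 2) : ∃ f : L2 (HX Q X), ∀ ν, sl ν f = F ν := by
  have h1 : Summable fun p : FreeGroup (Q × ℤ) × X => ‖F p.1 p.2‖ ^ 2 := by
    rw [summable_prod_of_nonneg (fun p => by positivity)]
    refine ⟨fun ν => summable_sq (F ν), ?_⟩
    refine h.congr fun ν => ?_
    rw [norm_sq_eq]
  exact ⟨⟨fun p : HX Q X => F p.1 p.2, memL2 (X := HX Q X) h1⟩, fun ν => rfl⟩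

/-- the operator which acts as `T` on each slice -/
lemma exists_hatOp (Q : Type) (T : L2 X →L[ℂ] L2 Y) :
    ∃ T' : L2 (HX Q X) →L[ℂ] L2 (HX Q Y), ∀ (f : L2 (HX Q X)) (ν : FreeGroup (Q × ℤ)), sl ν (T' f) = T (sl ν f) := by
  have h0 : ∀ f : L2 (HX Q X), Summable fun ν => ‖T (sl ν f)‖ ^ 2 := by
    intro f
    refine Summable.of_nonneg_of_le (fun _ => by positivity) (fun ν => ?_) ((hasSum_slices f).summable.mul_left (‖T‖ ^ 2))
    rw [← mul_pow]
    exact pow_le_pow_left₀ (norm_nonneg _) (T.le_opNorm _) 2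
  choose g hg using fun f : L2 (HX Q X) => exists_glue (fun ν => T (sl ν f)) (h0 f)
  refine ⟨LinearMap.mkContinuous
    { toFun := g
      map_add' := fun f f' => sl_ext fun ν => by rw [map_add, hg, hg, hg, map_add, map_add]
      map_smul' := fun c f => sl_ext fun ν => by rw [RingHom.id_apply, map_smul, hg, hg, map_smul, map_smul] } ‖T‖ ?_, ?_⟩
  · intro f
    refine norm_le_of_sq (norm_nonneg _) ?_
    have h1 := hasSum_slices (g f)
    have h2 := (hasSum_slices f).mul_left (‖T‖ ^ 2)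
    refine hasSum_le (fun ν => ?_) h1 h2
    rw [hg, ← mul_pow]
    exact pow_le_pow_left₀ (norm_nonneg _) (T.le_opNorm _) 2
  · intro f ν
    exact hg f ν

/-- the operator which acts as `T` on each slice -/
noncomputable def hatOp (Q : Type) (T : L2 X →L[ℂ] L2 Y) : L2 (HX Q X) →L[ℂ] L2 (HX Q Y) := (exists_hatOp Q T).choose

lemma sl_hatOp {Q : Type} (T : L2 X →L[ℂ] L2 Y) (f : L2 (HX Q X)) (ν : FreeGroup (Q × ℤ)) : sl ν (hatOp Q T f) = T (sl ν f) :=
  (exists_hatOp Q T).choose_spec f ν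

lemma hatOp_isl {Q : Type} (T : L2 X →L[ℂ] L2 Y) (f : L2 X) (ν : FreeGroup (Q × ℤ)) : hatOp Q T (isl ν f) = isl ν (T f) := by
  apply sl_ext
  intro ν'
  rw [sl_hatOp]
  by_cases h : ν' = ν
  · subst h
    rw [sl_isl, sl_isl]
  · rw [sl_isl_ne h, sl_isl_ne h, map_zero]

lemma _root_.ATY.hat_inf (V W : Submodule ℂ (L2 X)) : hat Q (V ⊓ W) = hat Q V ⊓ hat Q W := by
  ext f
  rw [Submodule.mem_inf, mem_hat, mem_hat, mem_hat]
  exact forall_and

lemma hat_mono {V W : Submodule ℂ (L2 X)} (h : V ≤ W) : hat Q V ≤ hat Q W := fun f hf =>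
  mem_hat.2 fun ν => h (mem_hat.1 hf ν)

lemma isl_mem_hat {W : Submodule ℂ (L2 X)} {f : L2 X} (hf : f ∈ W) (ν : FreeGroup (Q × ℤ)) : isl ν f ∈ hat Q W := by
  rw [mem_hat]
  intro ν'
  by_cases h : ν' = ν
  · subst h
    rw [sl_isl]
    exact hf
  · rw [sl_isl_ne h]
    exact W.zero_mem

lemma _root_.ATY.hat_le_iff {V W : Submodule ℂ (L2 X)} : hat Q V ≤ hat Q W ↔ V ≤ W := by
  refine ⟨fun h f hf => ?_, hat_mono⟩
  have h1 := mem_hat.1 (h (isl_mem_hat hf (1 : FreeGroup (Q × ℤ)))) 1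
  rwa [sl_isl] at h1

lemma hat_injective : Function.Injective (hat Q : Submodule ℂ (L2 X) → Submodule ℂ (L2 (HX Q X))) := by
  intro V W h
  exact le_antisymm (hat_le_iff.1 h.le) (hat_le_iff.1 h.ge)

lemma isClosed_hat {W : Submodule ℂ (L2 X)} (hW : IsClosed (W : Set (L2 X))) :
    IsClosed (hat Q W : Set (L2 (HX Q X))) := by
  have h1 : (hat Q W : Set (L2 (HX Q X))) = ⋂ ν, (sl ν : L2 (HX Q X) → L2 X) ⁻¹' (W : Set (L2 X)) := by
    ext f
    rw [Set.mem_iInter]
    exact mem_hat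
  rw [h1]
  exact isClosed_iInter fun ν => hW.preimage (sl ν : L2 (HX Q X) →L[ℂ] L2 X).continuous

lemma kr_hatOp (T : L2 X →L[ℂ] L2 Y) : kr (hatOp Q T) = hat Q (kr T) := by
  ext f
  constructor
  · intro hf
    rw [mem_hat]
    intro ν
    have hf0 : hatOp Q T f = 0 := hf
    show T (sl ν f) = 0
    rw [← sl_hatOp, hf0, map_zero]
  · intro hf
    show hatOp Q T f = 0
    apply sl_ext
    intro ν
    rw [sl_hatOp, map_zero]
    exact mem_hat.1 hf ν

/-- orthogonality on slices -/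
lemma inner_slices (f g : L2 (HX Q X)) : HasSum (fun ν => ⟪sl ν f, sl ν g⟫_ℂ) ⟪f, g⟫_ℂ := by
  have h1 : HasSum (fun p : HX Q X => conj (f p) * g p) ⟪f, g⟫_ℂ := by
    rw [inner_eq]
    exact (summable_inner' f g).hasSum
  refine h1.prod_fiberwise fun ν => ?_
  rw [inner_eq]
  exact (summable_inner' (sl ν f) (sl ν g)).hasSum

lemma inner_isl (ν : FreeGroup (Q × ℤ)) (f : L2 X) (g : L2 (HX Q X)) : ⟪isl ν f, g⟫_ℂ = ⟪f, sl ν g⟫_ℂ := by
  classical
  have h1 := inner_slices (isl ν f) g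
  have h2 : (fun ν' => ⟪sl ν' (isl ν f), sl ν' g⟫_ℂ) = fun ν' => if ν' = ν then ⟪f, sl ν g⟫_ℂ else 0 := by
    funext ν'
    split_ifs with h
    · subst h
      rw [sl_isl]
    · rw [sl_isl_ne h, inner_zero_left]
  rw [h2] at h1
  exact h1.unique (hasSum_ite_eq ν _)

lemma mem_hat_orthogonal {W : Submodule ℂ (L2 X)} {f : L2 (HX Q X)} : f ∈ (hat Q W)ᗮ ↔ ∀ ν, sl ν f ∈ Wᗮ := by
  constructor
  · intro h ν
    rw [Submodule.mem_orthogonal] at h ⊢
    intro g hg
    rw [← inner_isl]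
    exact h _ (isl_mem_hat hg ν)
  · intro h
    rw [Submodule.mem_orthogonal]
    intro g hg
    have h1 := inner_slices g f
    have h2 : (fun ν => ⟪sl ν g, sl ν f⟫_ℂ) = fun _ => 0 := by
      funext ν
      exact (Submodule.mem_orthogonal _ _).1 (h ν) _ (mem_hat.1 hg ν)
    rw [h2] at h1
    exact h1.unique hasSum_zero

lemma hat_closure (W : Submodule ℂ (L2 X)) : (hat Q W).topologicalClosure = hat Q W.topologicalClosure := by
  apply le_antisymm
  · exact Submodule.topologicalClosure_minimal _ (hat_mono W.le_topologicalClosure)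
      (isClosed_hat W.isClosed_topologicalClosure)
  · intro f hf
    rw [← Submodule.orthogonal_orthogonal_eq_closure, Submodule.mem_orthogonal]
    intro g hg
    rw [mem_hat_orthogonal] at hg
    have h1 := inner_slices g f
    have h2 : (fun ν => ⟪sl ν g, sl ν f⟫_ℂ) = fun _ => 0 := by
      funext ν
      have h3 := mem_hat.1 hf ν
      rw [← Submodule.orthogonal_orthogonal_eq_closure] at h3
      exact (Submodule.mem_orthogonal _ _).1 h3 _ (hg ν)
    rw [h2] at h1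
    exact h1.unique hasSum_zero

/-- projection to `hat W` -/
lemma sl_pj (W : Submodule ℂ (L2 X)) (f : L2 (HX Q X)) (ν : FreeGroup (Q × ℤ)) : sl ν (pj (hat Q W) f) = pj W (sl ν f) := by
  symm
  refine pj_unique ?_ ?_
  · have h1 := pj_mem (hat Q W) f
    rw [hat_closure] at h1
    exact mem_hat.1 h1 ν
  · rw [← map_sub]
    exact mem_hat_orthogonal.1 (sub_pj_mem (hat Q W) f) ν

/-- images -/
lemma im_hatOp (T : L2 X →L[ℂ] L2 Y) (W : Submodule ℂ (L2 X)) : im (hatOp Q T) (hat Q W) = hat Q (im T W) := by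
  apply le_antisymm
  · refine Submodule.topologicalClosure_minimal _ ?_ (isClosed_hat (Submodule.isClosed_topologicalClosure _))
    rintro _ ⟨f, hf, rfl⟩
    show hatOp Q T f ∈ hat Q (im T W)
    rw [mem_hat]
    intro ν
    rw [sl_hatOp T f ν]
    exact Submodule.le_topologicalClosure _ ⟨sl ν f, mem_hat.1 hf ν, rfl⟩
  · unfold im
    rw [← hat_closure]
    intro f hf
    rw [← Submodule.orthogonal_orthogonal_eq_closure, Submodule.mem_orthogonal] at hf ⊢
    intro g hg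
    apply hf
    rw [mem_hat_orthogonal]
    intro ν
    rw [Submodule.mem_orthogonal] at hg ⊢
    rintro _ ⟨u, hu, rfl⟩
    show ⟪T u, sl ν g⟫_ℂ = 0
    rw [← inner_isl, ← hatOp_isl]
    exact hg _ ⟨isl ν u, isl_mem_hat hu ν, rfl⟩

lemma pj_isl (W : Submodule ℂ (L2 X)) (f : L2 X) (ν : FreeGroup (Q × ℤ)) :
    pj (hat Q W) (isl ν f) = isl ν (pj W f) := by
  apply sl_ext
  intro ν'
  rw [sl_pj]
  by_cases h : ν' = ν
  · subst h
    rw [sl_isl, sl_isl]
  · rw [sl_isl_ne h, sl_isl_ne h, map_zero]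

lemma isl_dl (ν : FreeGroup (Q × ℤ)) (x : X) : isl ν (dl x) = dl (hp ν x) := push_dl (hp_inj ν) x

lemma dl_hx (p : HX Q X) : dl p = isl p.1 (dl p.2) := (isl_dl p.1 p.2).symm

lemma hatOp_dl (T : L2 X →L[ℂ] L2 Y) (p : HX Q X) : hatOp Q T (dl p) = isl p.1 (T (dl p.2)) := by
  rw [dl_hx, hatOp_isl]

end HA

end slices

/-! ### the group `Psi A Q` -/

section psi
open HA
variable {K : Subfield ℂ} {A Q X Y : Type} [Group A] [MulAction A Q] [MulAction A X] [MulAction A Y]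

/-- the slices of a translate -/
lemma sl_la (g : Psi A Q) (ν : FreeGroup (Q × ℤ)) (f : L2 (HX Q X)) :
    sl ν (la g f) = la g.right (sl (phiA A Q g.right⁻¹ (g.left⁻¹ * ν)) f) := by
  ext x
  have h1 : g⁻¹ • (hp ν x : HX Q X) = hp (phiA A Q g.right⁻¹ (g.left⁻¹ * ν)) (g.right⁻¹ • x) := by
    rw [hx_smul]
    refine Prod.ext ?_ rfl
    show g⁻¹.left * phiA A Q g⁻¹.right ν = phiA A Q g.right⁻¹ (g.left⁻¹ * ν)
    rw [SemidirectProduct.inv_left, SemidirectProduct.inv_right, map_mul]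
  show f (g⁻¹ • hp ν x) = f (hp (phiA A Q g.right⁻¹ (g.left⁻¹ * ν)) (g.right⁻¹ • x))
  rw [h1]

/-- the inclusion of a fibre -/
lemma push_hp_mem_hat {W : Submodule ℂ (L2 X)} {f : L2 X} (ν : FreeGroup (Q × ℤ)) :
    push (hp ν) (hp_inj ν) f ∈ hat Q W ↔ f ∈ W := by
  constructor
  · intro h
    have h1 := mem_hat.1 h ν
    have h2 : sl ν (isl ν f) = f := sl_isl ν f
    rwa [← h2]
  · intro h
    exact isl_mem_hat h ν

/-- induced modules are closed and invariant -/
theorem Md.hat {W : Submodule ℂ (L2 X)} (hW : Md A W) : Md (Psi A Q) (hat Q W) where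
  inv g f hf := by
    rw [mem_hat] at hf ⊢
    intro ν
    rw [sl_la]
    exact hW.inv _ _ (hf _)
  cl := isClosed_hat hW.cl

/-- induced operators -/
theorem kop_hat {T : L2 X →L[ℂ] L2 Y} (hT : KOp K A T) : KOp K (Psi A Q) (hatOp Q T) where
  equi g f := by
    apply sl_ext
    intro ν
    rw [sl_hatOp, sl_la, sl_la, hT.equi, sl_hatOp]
  fs p := by
    refine ((hT.fs p.2).image (hp p.1)).subset ?_
    intro y hy
    have hy' : hatOp Q T (dl p) y ≠ 0 := hy
    rw [hatOp_dl] at hy'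
    by_cases h : y ∈ Set.range (hp p.1 : Y → HX Q Y)
    · obtain ⟨y', rfl⟩ := h
      have h3 : isl p.1 (T (dl p.2)) (hp p.1 y') = T (dl p.2) y' := push_apply _ _ _ _
      rw [h3] at hy'
      exact ⟨y', hy', rfl⟩
    · exact absurd (push_apply_of_notMem _ _ _ h) hy'
  val p y := by
    rw [hatOp_dl]
    by_cases h : y ∈ Set.range (hp p.1 : Y → HX Q Y)
    · obtain ⟨y', rfl⟩ := h
      have h3 : isl p.1 (T (dl p.2)) (hp p.1 y') = T (dl p.2) y' := push_apply _ _ _ _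
      rw [h3]
      exact hT.val _ _
    · have h3 : isl p.1 (T (dl p.2)) y = 0 := push_apply_of_notMem _ _ _ h
      rw [h3]
      exact K.zero_mem

variable [FC A X] [FC A Y]

/-- dimensions of induced modules -/
theorem vd_hat {W : Submodule ℂ (L2 X)} (hW : Md A W) : vd (Psi A Q) (ATY.hat Q W) = vd A W := by
  have hr : ∀ x : X, ∃! j : Fin (rk A X), x ∈ MulAction.orbit A ((co A X).symm (1, j)) := by
    intro x
    refine ⟨(co A X x).2, ⟨(co A X x).1, ?_⟩, ?_⟩
    · apply (co A X).injective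
      show co A X ((co A X x).1 • (co A X).symm (1, (co A X x).2)) = co A X x
      rw [co_smul, Equiv.apply_symm_apply, mul_one]
    · rintro j ⟨a, ha⟩
      have h1 : co A X (a • (co A X).symm (1, j)) = co A X x := congrArg _ ha
      rw [co_smul, Equiv.apply_symm_apply] at h1
      exact congrArg Prod.snd h1
  have horb : ∀ (p : HX Q X) (y : X), p ∈ MulAction.orbit (Psi A Q) (hp 1 y : HX Q X) ↔ p.2 ∈ MulAction.orbit A y := by
    intro p y
    constructor
    · rintro ⟨g, rfl⟩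
      exact ⟨g.right, rfl⟩
    · rintro ⟨a, ha⟩
      refine ⟨⟨p.1, a⟩, ?_⟩
      refine Prod.ext ?_ ha
      show p.1 * phiA A Q a 1 = p.1
      rw [map_one, mul_one]
  rw [vd_eq_sum (Md.hat hW).inv (fun j : Fin (rk A X) => (hp 1 ((co A X).symm (1, j)) : HX Q X)),
    vd_eq_sum hW.inv (fun j : Fin (rk A X) => (co A X).symm (1, j)) hr]
  · refine Finset.sum_congr rfl fun j _ => ?_
    rw [← isl_dl, pj_isl]
    congr 1
    exact norm_push _ _ _
  · intro p
    obtain ⟨j, hj, hj'⟩ := hr p.2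
    exact ⟨j, (horb _ _).2 hj, fun k hk => hj' k ((horb _ _).1 hk)⟩

/-- the function which is maximised -/
theorem hf_hat {Z Y : Submodule ℂ (L2 X)} (hZ : Md A Z) (hY : Md A Y) (t : ℝ) :
    hf (Psi A Q) t (ATY.hat Q Z) (ATY.hat Q Y) = hf A t Z Y := by
  unfold hf
  rw [← hat_inf, vd_hat (hZ.inf hY), vd_hat hY]

/-- induced modules of rational subspaces are rational -/
theorem Rat.hat {W : Submodule ℂ (L2 X)} (hW : Rat K A W) : Rat K (Psi A Q) (ATY.hat Q W) := by
  obtain ⟨a, b, T, hT, rfl⟩ := hW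
  rw [← im_hatOp, ← kr_hatOp]
  exact Rat.im (rat_kr (kop_hat hT)) (kop_hat (kop_pull _ fun _ _ => rfl))

end psi

end ATY
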