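import Pool.Agent.ATY.M
import Pool.Agent.ATY.FRDefs

/-!
# Largest maxima over `FreeGroup (Q × ℤ) ⋊ A` are induced (row U)

`map_eq`: the largest maximum is invariant under semilinear bijections which preserve the module.
`top_hat`: the largest maximum of `hat Q Z` over `Psi A Q` is `hat Q Y` with `Y` decomposed over `Q`.
-/

set_option autoImplicit false

open scoped ComplexConjugate InnerProductSpace
open Filter Topology

namespace ATY
namespace UU
open Singer Pool.WeakAtiyah

/-! ### general lemmas -/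

section gen
variable {X : Type*}

/-- a square summable function vanishes on infinite orbits of its symmetries -/
lemma zero_of_orbit (f : L2 X) (e : Equiv.Perm X) (hf : ∀ y, f (e y) = f y) (y : X)
    (hinj : Function.Injective fun n : ℕ => (e ^ n) y) : f y = 0 := by
  have h1 : Summable fun n : ℕ => ‖f ((e ^ n) y)‖ ^ 2 := (summable_sq f).comp_injective hinj
  have h2 : ∀ n : ℕ, f ((e ^ n) y) = f y := by
    intro n
    induction n with
    | zero => rfl
    | succ n ih =>
      rw [pow_succ', Equiv.Perm.mul_apply, hf, ih]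
  simp only [h2] at h1
  have h3 : ‖f y‖ ^ 2 = 0 := (summable_const_iff _).1 h1
  exact norm_eq_zero.1 ((pow_eq_zero_iff two_ne_zero).1 h3)

/-- the projection commutes with bijections which preserve the subspace -/
lemma pj_push (e : X ≃ X) {Y : Submodule ℂ (L2 X)}
    (hY : Y.map (push e e.injective : L2 X →ₗ[ℂ] L2 X) = Y) (f : L2 X) :
    pj Y (push e e.injective f) = push e e.injective (pj Y f) := by
  have hin : ∀ g h : L2 X, ⟪push e e.injective g, push e e.injective h⟫_ℂ = ⟪g, h⟫_ℂ := by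
    intro g h
    rw [push_eq_pull]
    exact inner_pull_equiv e.symm g h
  have hmem : ∀ g ∈ Y, push e e.injective g ∈ Y := by
    intro g hg
    have h1 : push e e.injective g ∈ Y.map (push e e.injective : L2 X →ₗ[ℂ] L2 X) := ⟨g, hg, rfl⟩
    rwa [hY] at h1
  refine pj_unique ?_ ?_
  · have h1 : push e e.injective (pj Y f) ∈ closure ((push e e.injective : L2 X →L[ℂ] L2 X) '' (Y : Set (L2 X))) :=
      image_closure_subset_closure_image (push e e.injective).continuous ⟨_, pj_mem Y f, rfl⟩
    refine closure_mono ?_ h1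
    rintro _ ⟨x, hx, rfl⟩
    exact hmem x hx
  · rw [← map_sub, Submodule.mem_orthogonal]
    intro u hu
    have hu' : u ∈ Y.map (push e e.injective : L2 X →ₗ[ℂ] L2 X) := by rw [hY]; exact hu
    obtain ⟨u', hu'', rfl⟩ := hu'
    show ⟪push e e.injective u', _⟫_ℂ = 0
    rw [hin]
    exact (Submodule.mem_orthogonal _ _).1 (sub_pj_mem Y f) u' hu''

end gen

section top
variable {K : Subfield ℂ} {H : Type} [Group H] {X : Type} [MulAction H X] [FC H X]

/-- the largest maximum is invariant under semilinear bijections which preserve the module -/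
theorem map_eq (α : H ≃* H) (e : X ≃ X) (he : ∀ (h : H) (x : X), e (h • x) = α h • e x) {t : ℝ}
    {Z Y : Submodule ℂ (L2 X)} (hZ : Md H Z) (h : IsTop H (Rat K H) t Z Y)
    (hZe : Z.map (push e e.injective : L2 X →ₗ[ℂ] L2 X) = Z) :
    Y.map (push e e.injective : L2 X →ₗ[ℂ] L2 X) = Y := by
  have h1 := h.equiv α e he hZ
  rw [hZe] at h1
  exact h1.unique h

end top

/-! ### the shift of the free group -/

section shift
variable {Q : Type}

/-- the shift of the letters -/
def sh (Q : Type) : Equiv.Perm (Q × ℤ) where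
  toFun x := (x.1, x.2 + 1)
  invFun x := (x.1, x.2 - 1)
  left_inv x := by simp
  right_inv x := by simp

lemma sh_pow (n : ℕ) (x : Q × ℤ) : (sh Q ^ n) x = (x.1, x.2 + n) := by
  induction n with
  | zero => simp
  | succ n ih =>
    rw [pow_succ', Equiv.Perm.mul_apply, ih]
    show (x.1, x.2 + n + 1) = _
    push_cast
    rw [add_assoc]

lemma toWord_map {α : Type} [DecidableEq α] (e : α → α) (he : Function.Injective e) (w : FreeGroup α) :
    (FreeGroup.map e w).toWord = w.toWord.map fun p => (e p.1, p.2) := by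
  have h1 : FreeGroup.map e w = FreeGroup.mk (w.toWord.map fun p => (e p.1, p.2)) := by
    conv_lhs => rw [← FreeGroup.mk_toWord (x := w)]
    rfl
  rw [h1, FreeGroup.toWord_mk]
  apply FreeGroup.IsReduced.reduce_eq
  have h2 : FreeGroup.IsReduced w.toWord := FreeGroup.isReduced_toWord
  unfold FreeGroup.IsReduced at h2 ⊢
  rw [List.isChain_map]
  refine h2.imp ?_
  intro a b hab hab'
  exact hab (he hab')

lemma map_pow {α : Type} (e : Equiv.Perm α) (n : ℕ) (w : FreeGroup α) :
    ((FreeGroup.freeGroupCongr e : FreeGroup α ≃* FreeGroup α).toEquiv ^ n : Equiv.Perm (FreeGroup α)) w =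
      FreeGroup.map (e ^ n : Equiv.Perm α) w := by
  induction n with
  | zero =>
    rw [pow_zero, pow_zero]
    exact (FreeGroup.map.id w).symm
  | succ n ih =>
    rw [pow_succ', Equiv.Perm.mul_apply, ih, pow_succ']
    show FreeGroup.map e (FreeGroup.map (e ^ n : Equiv.Perm α) w) = _
    rw [FreeGroup.map.comp]
    rfl

/-- non-trivial words have infinite orbits -/
lemma shift_inj {w : FreeGroup (Q × ℤ)} (hw : w ≠ 1) :
    Function.Injective fun n : ℕ => FreeGroup.map (sh Q ^ n : Equiv.Perm (Q × ℤ)) w := by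
  classical
  intro n m hnm
  have h1 : (FreeGroup.map (sh Q ^ n : Equiv.Perm (Q × ℤ)) w).toWord =
      (FreeGroup.map (sh Q ^ m : Equiv.Perm (Q × ℤ)) w).toWord := congrArg _ hnm
  rw [toWord_map _ (sh Q ^ n : Equiv.Perm (Q × ℤ)).injective, toWord_map _ (sh Q ^ m : Equiv.Perm (Q × ℤ)).injective] at h1
  have h2 : w.toWord ≠ [] := fun h => hw (FreeGroup.toWord_eq_nil_iff.1 h)
  obtain ⟨p, l, hp⟩ := List.exists_cons_of_ne_nil h2
  rw [hp, List.map_cons, List.map_cons] at h1
  have h3 := (List.cons.inj h1).1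
  have h4 : (sh Q ^ n : Equiv.Perm (Q × ℤ)) p.1 = (sh Q ^ m : Equiv.Perm (Q × ℤ)) p.1 := congrArg Prod.fst h3
  rw [sh_pow, sh_pow] at h4
  have h5 : p.1.2 + (n : ℤ) = p.1.2 + (m : ℤ) := congrArg Prod.snd h4
  omega

end shift

/-! ### pieces -/

section pieces
variable {X Q : Type*}

lemma cu_mem_apply {S : Set X} (f : L2 X) {x : X} (h : x ∈ S) : cu S f x = f x := by
  classical
  rw [cu_apply, if_pos h]

lemma cu_notMem_apply {S : Set X} (f : L2 X) {x : X} (h : x ∉ S) : cu S f x = 0 := by
  classical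
  rw [cu_apply, if_neg h]

lemma inner_cu' (S : Set X) (g f : L2 X) : ⟪g, cu S f⟫_ℂ = ∑' x : S, conj (g x) * f x := by
  classical
  rw [inner_eq, tsum_subtype S fun x => conj (g x) * f x]
  congr 1
  funext x
  rw [cu_apply, Set.indicator_apply]
  split_ifs
  · rfl
  · rw [mul_zero]

/-- a function is a limit of sums of its pieces -/
lemma mem_of_fib (a : X → Q) {U : Submodule ℂ (L2 X)} (hU : IsClosed (U : Set (L2 X))) (f : L2 X)
    (h : ∀ q, cu {x | a x = q} f ∈ U) : f ∈ U := by
  classical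
  have hUU : Uᗮᗮ = U := by
    rw [Submodule.orthogonal_orthogonal_eq_closure]
    exact hU.submodule_topologicalClosure_eq
  rw [← hUU, Submodule.mem_orthogonal]
  intro g hg
  have hsum : Summable fun x => conj (g x) * f x := summable_inner' _ _
  rw [inner_eq, ← (Equiv.sigmaFiberEquiv a).tsum_eq]
  have hsum' : Summable fun p : (Σ q : Q, {x // a x = q}) => conj (g ((Equiv.sigmaFiberEquiv a) p)) *
      f ((Equiv.sigmaFiberEquiv a) p) := (Equiv.sigmaFiberEquiv a).summable_iff.2 hsum
  rw [hsum'.tsum_sigma]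
  have hz : ∀ q : Q, ∑' x : {x // a x = q}, conj (g ((Equiv.sigmaFiberEquiv a) ⟨q, x⟩)) *
      f ((Equiv.sigmaFiberEquiv a) ⟨q, x⟩) = 0 := by
    intro q
    have h1 := (Submodule.mem_orthogonal' _ _).1 hg _ (h q)
    rw [inner_cu'] at h1
    exact h1
  rw [tsum_congr hz, tsum_zero]

/-- a subspace whose projection does not connect `S` and its complement is stable under restriction to `S` -/
lemma cu_mem_of_pj {W : Submodule ℂ (L2 X)} (hW : IsClosed (W : Set (L2 X))) (S : Set X)
    (h : ∀ x y, pj W (dl x) y ≠ 0 → (x ∈ S ↔ y ∈ S)) : ∀ f ∈ W, cu S f ∈ W := by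
  classical
  have key : (cu S).comp (pj W) = (pj W).comp (cu S) := by
    refine eq_of_dl fun x => ?_
    rw [ContinuousLinearMap.comp_apply, ContinuousLinearMap.comp_apply]
    by_cases hx : x ∈ S
    · have h1 : cu S (dl x) = dl x := by
        ext y
        by_cases hy : y ∈ S
        · exact cu_mem_apply _ hy
        · rw [cu_notMem_apply _ hy, dl_apply_ne]
          rintro rfl
          exact hy hx
      rw [h1]
      ext y
      by_cases hy : y ∈ S
      · exact cu_mem_apply _ hy
      · rw [cu_notMem_apply _ hy]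
        by_contra h2
        exact hy ((h x y fun h3 => h2 h3.symm).1 hx)
    · have h1 : cu S (dl x) = 0 := by
        ext y
        by_cases hy : y ∈ S
        · rw [cu_mem_apply _ hy, dl_apply_ne]
          · rfl
          · rintro rfl
            exact hx hy
        · exact cu_notMem_apply _ hy
      rw [h1, map_zero]
      ext y
      by_cases hy : y ∈ S
      · rw [cu_mem_apply _ hy]
        by_contra h2
        exact hx ((h x y h2).2 hy)
      · exact cu_notMem_apply _ hy
  intro f hf
  have h1 : pj W f = f := pj_unique (W.le_topologicalClosure hf) (by rw [sub_self]; exact Submodule.zero_mem _)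
  have h2 : cu S f = pj W (cu S f) := by
    have h3 := congrArg (fun T : L2 X →L[ℂ] L2 X => T f) key
    simp only [ContinuousLinearMap.comp_apply] at h3
    rw [h1] at h3
    exact h3
  rw [h2]
  have h3 := pj_mem W (cu S f)
  rwa [hW.submodule_topologicalClosure_eq] at h3

lemma map_push_self (e : X ≃ X) {Z : Submodule ℂ (L2 X)} (h1 : ∀ f ∈ Z, push e e.injective f ∈ Z)
    (h2 : ∀ f ∈ Z, pull e e.injective f ∈ Z) : Z.map (push e e.injective : L2 X →ₗ[ℂ] L2 X) = Z := by
  refine le_antisymm ?_ fun f hf => ⟨pull e e.injective f, h2 f hf, ?_⟩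
  · rintro _ ⟨f, hf, rfl⟩
    exact h1 f hf
  · show push e e.injective (pull e e.injective f) = f
    ext x
    rw [push_equiv_apply, pull_apply, Equiv.apply_symm_apply]

end pieces

/-! ### the two symmetries of `HX Q X` -/

section sym
variable {A Q X : Type} [Group A] [MulAction A Q] [MulAction A X]

/-- the shift of the free group -/
noncomputable def shN (Q : Type) : FreeGroup (Q × ℤ) ≃* FreeGroup (Q × ℤ) := FreeGroup.freeGroupCongr (sh Q)

lemma shN_apply (ν : FreeGroup (Q × ℤ)) : shN Q ν = FreeGroup.map (sh Q) ν := rfl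

lemma shN_phi (a : A) (ν : FreeGroup (Q × ℤ)) : shN Q (phiA A Q a ν) = phiA A Q a (shN Q ν) := by
  rw [phiA_apply, phiA_apply, shN_apply, shN_apply, FreeGroup.map.comp, FreeGroup.map.comp]
  rfl

/-- the shift of the semidirect product -/
noncomputable def shP (A Q : Type) [Group A] [MulAction A Q] : Psi A Q ≃* Psi A Q where
  toFun g := ⟨shN Q g.left, g.right⟩
  invFun g := ⟨(shN Q).symm g.left, g.right⟩
  left_inv g := SemidirectProduct.ext ((shN Q).symm_apply_apply g.left) rfl
  right_inv g := SemidirectProduct.ext ((shN Q).apply_symm_apply g.left) rfl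
  map_mul' g h := by
    refine SemidirectProduct.ext ?_ rfl
    show shN Q (g.left * phiA A Q g.right h.left) = shN Q g.left * phiA A Q g.right (shN Q h.left)
    rw [map_mul, shN_phi]

/-- the shift of the set -/
noncomputable def shX (Q X : Type) : HX Q X ≃ HX Q X where
  toFun p := hp (shN Q p.1) p.2
  invFun p := hp ((shN Q).symm p.1) p.2
  left_inv p := Prod.ext ((shN Q).symm_apply_apply p.1) rfl
  right_inv p := Prod.ext ((shN Q).apply_symm_apply p.1) rfl

lemma shX_smul (g : Psi A Q) (p : HX Q X) : shX Q X (g • p) = shP A Q g • shX Q X p := by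
  refine Prod.ext ?_ rfl
  show shN Q (g.left * phiA A Q g.right p.1) = shN Q g.left * phiA A Q g.right (shN Q p.1)
  rw [map_mul, shN_phi]

lemma shX_pow (n : ℕ) (p : HX Q X) : (shX Q X ^ n : Equiv.Perm (HX Q X)) p =
    hp (FreeGroup.map (sh Q ^ n : Equiv.Perm (Q × ℤ)) p.1) p.2 := by
  induction n with
  | zero =>
    rw [pow_zero, pow_zero]
    exact Prod.ext (FreeGroup.map.id p.1).symm rfl
  | succ n ih =>
    rw [pow_succ', Equiv.Perm.mul_apply, ih, pow_succ']
    refine Prod.ext ?_ rfl
    show FreeGroup.map (sh Q) (FreeGroup.map (sh Q ^ n : Equiv.Perm (Q × ℤ)) p.1) = _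
    rw [FreeGroup.map.comp]
    rfl

/-- right multiplication by the letter of the orbit -/
noncomputable def rr (a : X →[A] Q) : HX Q X ≃ HX Q X where
  toFun p := hp (p.1 * FreeGroup.of (a p.2, 0)) p.2
  invFun p := hp (p.1 * (FreeGroup.of (a p.2, 0))⁻¹) p.2
  left_inv _ := Prod.ext (mul_inv_cancel_right _ _) rfl
  right_inv _ := Prod.ext (inv_mul_cancel_right _ _) rfl

lemma rr_smul (a : X →[A] Q) (g : Psi A Q) (p : HX Q X) : rr a (g • p) = g • rr a p := by
  refine Prod.ext ?_ rfl
  show g.left * phiA A Q g.right p.1 * FreeGroup.of (a (g.right • p.2), 0) =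
    g.left * phiA A Q g.right (p.1 * FreeGroup.of (a p.2, 0))
  rw [map_mul, phiA_of, map_smul, mul_assoc]

lemma sl_la (g : Psi A Q) (ν : FreeGroup (Q × ℤ)) (f : L2 (HX Q X)) :
    sl ν (la g f) = la g.right (sl ((g⁻¹ : Psi A Q).left * phiA A Q (g⁻¹ : Psi A Q).right ν) f) := by
  ext x
  rw [sl_apply, la_apply, la_apply, sl_apply]
  rfl

lemma md_hat' {Z : Submodule ℂ (L2 X)} (hZ : Md A Z) : Md (Psi A Q) (hat Q Z) := by
  constructor
  · intro g f hf
    rw [mem_hat] at hf ⊢
    intro ν
    rw [sl_la]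
    exact hZ.inv _ _ (hf _)
  · have h : (hat Q Z : Set (L2 (HX Q X))) = ⋂ ν, (sl ν : L2 (HX Q X) →L[ℂ] L2 X) ⁻¹' (Z : Set (L2 X)) := by
      ext f
      rw [Set.mem_iInter]
      exact mem_hat
    rw [h]
    exact isClosed_iInter fun ν => hZ.cl.preimage (sl ν).continuous

omit [Group A] [MulAction A Q] [MulAction A X] in
lemma sl_shX (f : L2 (HX Q X)) (ν : FreeGroup (Q × ℤ)) :
    sl ν (push (shX Q X) (shX Q X).injective f) = sl ((shN Q).symm ν) f := by
  ext x
  rw [sl_apply, push_equiv_apply]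
  rfl

omit [Group A] [MulAction A Q] [MulAction A X] in
lemma sl_shX' (f : L2 (HX Q X)) (ν : FreeGroup (Q × ℤ)) :
    sl ν (pull (shX Q X) (shX Q X).injective f) = sl (shN Q ν) f := by
  ext x
  rw [sl_apply, pull_apply]
  rfl

omit [Group A] [MulAction A Q] [MulAction A X] in
lemma hat_shX (Z : Submodule ℂ (L2 X)) :
    (hat Q Z).map (push (shX Q X) (shX Q X).injective : L2 (HX Q X) →ₗ[ℂ] L2 (HX Q X)) = hat Q Z := by
  refine map_push_self _ (fun f hf => ?_) fun f hf => ?_
  · rw [mem_hat] at hf ⊢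
    intro ν
    rw [sl_shX]
    exact hf _
  · rw [mem_hat] at hf ⊢
    intro ν
    rw [sl_shX']
    exact hf _

lemma hat_rr (a : X →[A] Q) {Z : Submodule ℂ (L2 X)} (hc : IsClosed (Z : Set (L2 X))) (lZ : Loc a Z) :
    (hat Q Z).map (push (rr a) (rr a).injective : L2 (HX Q X) →ₗ[ℂ] L2 (HX Q X)) = hat Q Z := by
  refine map_push_self _ (fun f hf => ?_) fun f hf => ?_
  · rw [mem_hat] at hf ⊢
    intro ν
    refine mem_of_fib a hc _ fun q => ?_
    have h1 : cu {x | a x = q} (sl ν (push (rr a) (rr a).injective f)) =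
        cu {x | a x = q} (sl (ν * (FreeGroup.of (q, 0))⁻¹) f) := by
      ext x
      by_cases hx : a x = q
      · rw [cu_mem_apply (S := {x | a x = q}) _ hx, cu_mem_apply (S := {x | a x = q}) _ hx, sl_apply, push_equiv_apply,
          sl_apply]
        show f (hp (ν * (FreeGroup.of (a x, 0))⁻¹) x) = _
        rw [hx]
      · rw [cu_notMem_apply (S := {x | a x = q}) _ hx, cu_notMem_apply (S := {x | a x = q}) _ hx]
    rw [h1]
    exact lZ q _ (hf _)
  · rw [mem_hat] at hf ⊢
    intro ν
    refine mem_of_fib a hc _ fun q => ?_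
    have h1 : cu {x | a x = q} (sl ν (pull (rr a) (rr a).injective f)) =
        cu {x | a x = q} (sl (ν * FreeGroup.of (q, 0)) f) := by
      ext x
      by_cases hx : a x = q
      · rw [cu_mem_apply (S := {x | a x = q}) _ hx, cu_mem_apply (S := {x | a x = q}) _ hx, sl_apply, pull_apply,
          sl_apply]
        show f (hp (ν * FreeGroup.of (a x, 0)) x) = _
        rw [hx]
      · rw [cu_notMem_apply (S := {x | a x = q}) _ hx, cu_notMem_apply (S := {x | a x = q}) _ hx]
    rw [h1]
    exact lZ q _ (hf _)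

lemma inl_smul (μ ν : FreeGroup (Q × ℤ)) (x : X) : (SemidirectProduct.inl μ : Psi A Q) • hp ν x = hp (μ * ν) x := by
  rw [hx_smul]
  refine Prod.ext ?_ ?_
  · show (SemidirectProduct.inl μ : Psi A Q).left * phiA A Q (SemidirectProduct.inl μ : Psi A Q).right ν = μ * ν
    rw [SemidirectProduct.left_inl, SemidirectProduct.right_inl, map_one]
    rfl
  · show (SemidirectProduct.inl μ : Psi A Q).right • x = x
    rw [SemidirectProduct.right_inl, one_smul]

lemma inr_smul (b : A) (x : X) : (SemidirectProduct.inr b : Psi A Q) • (hp 1 x : HX Q X) = hp 1 (b • x) := by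
  rw [hx_smul]
  refine Prod.ext ?_ ?_
  · show (SemidirectProduct.inr b : Psi A Q).left * phiA A Q (SemidirectProduct.inr b : Psi A Q).right 1 = 1
    rw [map_one, mul_one, SemidirectProduct.left_inr]
  · show (SemidirectProduct.inr b : Psi A Q).right • x = b • x
    rw [SemidirectProduct.right_inr]

end sym

/-! ### the theorem -/

section main
variable {A Q X : Type} [Group A] [MulAction A Q] [MulAction A X] [FC A X] {K : Subfield ℂ}

/-- the projection does not connect different blocks -/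
lemma pj_supp (a : X →[A] Q) {t : ℝ} {Z : Submodule ℂ (L2 X)} (hZ : Md A Z) (lZ : Loc a Z)
    {X' : Submodule ℂ (L2 (HX Q X))} (hX : Md (Psi A Q) X') (h : IsTop (Psi A Q) (Rat K (Psi A Q)) t (hat Q Z) X')
    (p q : HX Q X) (hpq : pj X' (dl p) q ≠ 0) : p.1 = q.1 ∧ a p.2 = a q.2 := by
  -- the projection commutes with the translations
  have hla : ∀ (g : Psi A Q) (f : L2 (HX Q X)), pj X' (la g f) = la g (pj X' f) := fun g f => pj_la hX.inv g f
  have hsm : ∀ (g : Psi A Q) (u v : HX Q X), pj X' (dl (g • u)) (g • v) = pj X' (dl u) v := by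
    intro g u v
    rw [← la_dl, hla, la_apply, inv_smul_smul]
  -- the shift
  have hs1 : ∀ x : X, ∀ v : HX Q X, v.1 ≠ 1 → pj X' (dl (hp 1 x)) v = 0 := by
    intro x v hv
    have h1 := pj_push (shX Q X) (map_eq (shP A Q) (shX Q X) shX_smul (md_hat' hZ) h (hat_shX Z)) (dl (hp 1 x))
    have h2 : push (shX Q X) (shX Q X).injective (dl (hp 1 x)) = dl (hp 1 x) := by
      rw [push_dl]
      have h5 : shX Q X (hp 1 x) = hp 1 x := Prod.ext (map_one (shN Q)) rfl
      rw [h5]
    rw [h2] at h1
    refine zero_of_orbit _ (shX Q X) ?_ v ?_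
    · intro y
      conv_lhs => rw [h1]
      rw [push_equiv_apply, Equiv.symm_apply_apply]
    · intro n m hnm
      refine shift_inj hv ?_
      have h3 : (shX Q X ^ n : Equiv.Perm (HX Q X)) v = (shX Q X ^ m : Equiv.Perm (HX Q X)) v := hnm
      rw [shX_pow, shX_pow] at h3
      exact congrArg Prod.fst h3
  -- the letter
  have hs2 : ∀ x x' : X, a x ≠ a x' → pj X' (dl (hp 1 x)) (hp 1 x') = 0 := by
    intro x x' hxx
    have h1 := pj_push (rr a) (map_eq (MulEquiv.refl (Psi A Q)) (rr a) (fun g p => rr_smul a g p) (md_hat' hZ) h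
      (hat_rr a hZ.cl lZ)) (dl (hp 1 x))
    have h2 : push (rr a) (rr a).injective (dl (hp 1 x)) = dl ((SemidirectProduct.inl (FreeGroup.of (a x, 0)) : Psi A Q) •
        (hp 1 x : HX Q X)) := by
      rw [push_dl, inl_smul]
      have h5 : rr a (hp 1 x) = hp (FreeGroup.of (a x, 0) * 1) x := Prod.ext ((one_mul _).trans (mul_one _).symm) rfl
      rw [h5]
    rw [h2, ← la_dl, hla] at h1
    have h3 := congrArg (fun f : L2 (HX Q X) => f (rr a (hp 1 x'))) h1
    have h4 : push (rr a) (rr a).injective (pj X' (dl (hp 1 x))) (rr a (hp 1 x')) = pj X' (dl (hp 1 x)) (hp 1 x') :=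
      push_apply _ _ _ _
    simp only at h3
    rw [h4, la_apply] at h3
    rw [← h3]
    apply hs1
    have h5 : ((SemidirectProduct.inl (FreeGroup.of (a x, 0)) : Psi A Q))⁻¹ • rr a (hp 1 x') =
        hp ((FreeGroup.of (a x, 0))⁻¹ * FreeGroup.of (a x', 0)) x' := by
      rw [← map_inv]
      have h6 : rr a (hp 1 x') = hp (FreeGroup.of (a x', 0)) x' := Prod.ext (one_mul _) rfl
      rw [h6, inl_smul]
    rw [h5]
    intro h7
    have h8 : (FreeGroup.of (a x, (0 : ℤ)))⁻¹ * FreeGroup.of (a x', 0) = 1 := h7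
    rw [inv_mul_eq_one] at h8
    exact hxx (congrArg Prod.fst (FreeGroup.of_injective h8))
  -- general points
  have h0 : pj X' (dl (hp 1 p.2)) (hp (p.1⁻¹ * q.1) q.2) ≠ 0 := by
    have h1 := hsm (SemidirectProduct.inl p.1) (hp 1 p.2) (hp (p.1⁻¹ * q.1) q.2)
    rw [inl_smul, inl_smul, mul_one, mul_inv_cancel_left] at h1
    rw [← h1]
    exact hpq
  have h1 : p.1⁻¹ * q.1 = 1 := by
    by_contra h2
    exact h0 (hs1 _ _ h2)
  refine ⟨inv_mul_eq_one.1 h1, ?_⟩
  by_contra h2
  rw [h1] at h0
  exact h0 (hs2 _ _ h2)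

/-- the largest maximum of an induced module is induced -/
theorem top_hat (a : X →[A] Q) {t : ℝ} {Z : Submodule ℂ (L2 X)} (hZ : Md A Z) (lZ : Loc a Z)
    {X' : Submodule ℂ (L2 (HX Q X))} (h : IsTop (Psi A Q) (Rat K (Psi A Q)) t (hat Q Z) X') :
    ∃ Y : Submodule ℂ (L2 X), Md A Y ∧ Loc a Y ∧ X' = hat Q Y := by
  have hX : Md (Psi A Q) X' := h.mem.md
  have hsupp := pj_supp a hZ lZ hX h
  have hb : ∀ ν : FreeGroup (Q × ℤ), ∀ f ∈ X', cu {p : HX Q X | p.1 = ν} f ∈ X' := by
    intro ν
    refine cu_mem_of_pj hX.cl _ fun p q hpq => ?_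
    have h1 := (hsupp p q hpq).1
    show p.1 = ν ↔ q.1 = ν
    rw [h1]
  have hq : ∀ c : Q, ∀ f ∈ X', cu {p : HX Q X | a p.2 = c} f ∈ X' := by
    intro c
    refine cu_mem_of_pj hX.cl _ fun p q hpq => ?_
    have h1 := (hsupp p q hpq).2
    show a p.2 = c ↔ a q.2 = c
    rw [h1]
  have hpush : ∀ (ν : FreeGroup (Q × ℤ)) (f : L2 (HX Q X)),
      push (hp ν) (hp_inj ν) (sl ν f) = cu {p : HX Q X | p.1 = ν} f := by
    intro ν f
    ext p
    by_cases hν : p.1 = ν
    · rw [cu_mem_apply (S := {p : HX Q X | p.1 = ν}) _ hν]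
      have h1 := push_apply (hp ν) (hp_inj ν) (sl ν f) p.2
      have h2 : hp ν p.2 = p := Prod.ext hν.symm rfl
      rw [h2, sl_apply, h2] at h1
      exact h1
    · rw [cu_notMem_apply (S := {p : HX Q X | p.1 = ν}) _ hν, push_apply_of_notMem]
      rintro ⟨x, rfl⟩
      exact hν rfl
  have htr : ∀ (ν : FreeGroup (Q × ℤ)) (f : L2 X), push (hp ν) (hp_inj ν) f =
      la (SemidirectProduct.inl ν : Psi A Q) (push (hp 1) (hp_inj 1) f) := by
    intro ν f
    ext p
    rw [la_apply, ← map_inv]
    have h2 : (SemidirectProduct.inl ν⁻¹ : Psi A Q) • p = hp (ν⁻¹ * p.1) p.2 := inl_smul ν⁻¹ p.1 p.2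
    rw [h2]
    by_cases hν : p.1 = ν
    · have h1 := push_apply (hp ν) (hp_inj ν) f p.2
      have h3 : hp ν p.2 = p := Prod.ext hν.symm rfl
      rw [h3] at h1
      have h4 := push_apply (hp (1 : FreeGroup (Q × ℤ))) (hp_inj 1) f p.2
      rw [h1, hν, inv_mul_cancel, h4]
    · rw [push_apply_of_notMem, push_apply_of_notMem]
      · rintro ⟨x, hx⟩
        apply hν
        have h3 : (1 : FreeGroup (Q × ℤ)) = ν⁻¹ * p.1 := congrArg Prod.fst hx
        exact (inv_mul_eq_one.1 h3.symm).symm
      · rintro ⟨x, rfl⟩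
        exact hν rfl
  refine ⟨X'.comap ((push (hp (1 : FreeGroup (Q × ℤ))) (hp_inj 1) : L2 X →L[ℂ] L2 (HX Q X)) :
    L2 X →ₗ[ℂ] L2 (HX Q X)), ⟨?_, ?_⟩, ?_, ?_⟩
  · intro b f hf
    have h1 : push (hp 1) (hp_inj 1) (la b f) =
        la (SemidirectProduct.inr b : Psi A Q) (push (hp (1 : FreeGroup (Q × ℤ))) (hp_inj 1) f) := by
      ext p
      rw [la_apply, ← map_inv]
      by_cases hν : p.1 = 1
      · have h3 : hp 1 p.2 = p := Prod.ext hν.symm rfl
        have h1 := push_apply (hp (1 : FreeGroup (Q × ℤ))) (hp_inj 1) (la b f) p.2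
        rw [h3] at h1
        have h4 : (SemidirectProduct.inr b⁻¹ : Psi A Q) • p = hp 1 (b⁻¹ • p.2) := by
          rw [← h3, inr_smul]
          rfl
        have h5 := push_apply (hp (1 : FreeGroup (Q × ℤ))) (hp_inj 1) f (b⁻¹ • p.2)
        rw [h1, h4, h5, la_apply]
      · rw [push_apply_of_notMem, push_apply_of_notMem]
        · rintro ⟨x, hx⟩
          apply hν
          have h3 : (SemidirectProduct.inr b : Psi A Q) • (hp 1 x : HX Q X) = p := by
            rw [hx, ← mul_smul, ← map_mul, mul_inv_cancel, map_one, one_smul]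
          rw [inr_smul] at h3
          rw [← h3]
          rfl
        · rintro ⟨x, rfl⟩
          exact hν rfl
    show push (hp 1) (hp_inj 1) (la b f) ∈ X'
    rw [h1]
    exact hX.inv _ _ hf
  · exact hX.cl.preimage (push (hp (1 : FreeGroup (Q × ℤ))) (hp_inj 1)).continuous
  · intro c f hf
    have h1 : push (hp 1) (hp_inj 1) (cu {x | a x = c} f) =
        cu {p : HX Q X | a p.2 = c} (push (hp (1 : FreeGroup (Q × ℤ))) (hp_inj 1) f) := by
      ext p
      by_cases hν : p.1 = 1
      · have h3 : hp 1 p.2 = p := Prod.ext hν.symm rfl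
        have h1 := push_apply (hp (1 : FreeGroup (Q × ℤ))) (hp_inj 1) (cu {x | a x = c} f) p.2
        have h4 := push_apply (hp (1 : FreeGroup (Q × ℤ))) (hp_inj 1) f p.2
        rw [h3] at h1 h4
        rw [h1]
        by_cases hc : a p.2 = c
        · rw [cu_mem_apply (S := {x | a x = c}) _ hc, cu_mem_apply (S := {p : HX Q X | a p.2 = c}) _ hc, h4]
        · rw [cu_notMem_apply (S := {x | a x = c}) _ hc, cu_notMem_apply (S := {p : HX Q X | a p.2 = c}) _ hc]
      · have h5 : ∀ g : L2 X, push (hp 1) (hp_inj 1) g p = 0 := by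
          intro g
          rw [push_apply_of_notMem]
          rintro ⟨x, rfl⟩
          exact hν rfl
        rw [h5]
        by_cases hc : a p.2 = c
        · rw [cu_mem_apply (S := {p : HX Q X | a p.2 = c}) _ hc, h5]
        · rw [cu_notMem_apply (S := {p : HX Q X | a p.2 = c}) _ hc]
    show push (hp 1) (hp_inj 1) (cu {x | a x = c} f) ∈ X'
    rw [h1]
    exact hq c _ hf
  · refine le_antisymm (fun f hf => ?_) fun f hf => ?_
    · rw [mem_hat]
      intro ν
      show push (hp 1) (hp_inj 1) (sl ν f) ∈ X'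
      have h1 := hb ν f hf
      rw [← hpush, htr] at h1
      have h2 := hX.inv (SemidirectProduct.inl ν : Psi A Q)⁻¹ _ h1
      rw [la_la, inv_mul_cancel, la_one] at h2
      exact h2
    · rw [mem_hat] at hf
      refine mem_of_fib (fun p : HX Q X => p.1) hX.cl f fun ν => ?_
      have h1 : push (hp 1) (hp_inj 1) (sl ν f) ∈ X' := hf ν
      have h2 := hX.inv (SemidirectProduct.inl ν : Psi A Q) _ h1
      rw [← htr, hpush] at h2
      exact h2

end main

end UU

open Singer

/-- the largest maximum over `Psi A Q` of an induced module is induced -/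
theorem top_hat {K : Subfield ℂ} {A Q X : Type} [Group A] [MulAction A Q] [MulAction A X] [FC A X] (a : X →[A] Q)
    {t : ℝ} {Z : Submodule ℂ (L2 X)} (hZ : Md A Z) (hl : Loc a Z) {X' : Submodule ℂ (L2 (HX Q X))}
    (h : IsTop (Psi A Q) (Rat K (Psi A Q)) t (hat Q Z) X') :
    ∃ Y : Submodule ℂ (L2 X), Md A Y ∧ Loc a Y ∧ X' = hat Q Y := UU.top_hat a hZ hl h

end ATY
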