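import Pool.Agent.ATY.FR
import Pool.Agent.ATY.E3b
import Pool.Agent.ATY.FRDefs
import Pool.Agent.ATY.Hat
import Pool.Agent.ATY.U
import Pool.Agent.ATY.Lam
import Pool.Agent.ATY.F3
import Pool.Agent.ATY.DR

/-!
# Every subgroup of a group acting freely on a tree has the property `SSP` over the complex numbers (row SSPF)
-/

set_option autoImplicit false

open scoped ComplexConjugate InnerProductSpace
open Filter Topology

namespace ATY
open Singer Singer.HT Pool.WeakAtiyah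

/-- equivariant maps from free sets -/
lemma exists_equivariant {A X V : Type} [Group A] [MulAction A X] [FC A X] [MulAction A V] (v₀ : V) :
    Nonempty (X →[A] V) := by
  obtain ⟨r, e, he⟩ := FC.exists_equiv A X
  refine ⟨⟨fun x => (e x).1 • v₀, fun g x => ?_⟩⟩
  show (e (g • x)).1 • v₀ = g • (e x).1 • v₀
  rw [he, mul_smul]

lemma FreeAct.sub {A V : Type} [Group A] [MulAction A V] {T : SimpleGraph V} (hT : FreeAct A T) (C : Subgroup A) :
    FreeAct C T where
  tree := hT.tree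
  adj g v w h := hT.adj (g : A) v w h
  free g v h := Subtype.ext (hT.free (g : A) v h)
  noinv g v w h1 h2 := hT.noinv (g : A) v w h1 h2

/-- every subgroup of a group acting freely on a tree -/
theorem ssp_free {A V : Type} [Group A] [MulAction A V] {T : SimpleGraph V} (hT : FreeAct A T) (C : Subgroup A) :
    SSP ⊤ A C := by
  intro X Q _ _ _ a q hFC _ ho t Z Y hZ lZ hY lY h
  obtain ⟨v₀⟩ := hT.tree.connected.nonempty
  obtain ⟨δ⟩ := exists_equivariant (A := A) (X := X) v₀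
  have hR : RanksIn ⊤ (Psi A Q) 1 := ranks_psi hT Q
  obtain ⟨X', hX'⟩ := exists_isTop one_pos hR t (Md.hat (Q := Q) hZ)
  obtain ⟨Y₁, hY₁, lY₁, rfl⟩ := top_hat a hZ lZ hX'
  -- `Y₁` is rational over the stabiliser
  have hF : FinSt T δ A Y₁ := finSt_of_rat hT δ hY₁ hX'.mem
  have hF' := FinSt.loc hT δ a hY₁ lY₁ hF q
  let δ' : Fib a q →[MulAction.stabilizer A q] V :=
    ⟨fun x => δ (fi a q x), fun g x => by
      show δ (fi a q (g • x)) = (g : A) • δ (fi a q x)
      rw [← map_smul]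
      rfl⟩
  have hr₁ : Rat ⊤ (MulAction.stabilizer A q) (loc a q Y₁) :=
    rat_of_finSt (hT.sub _) δ' (hY₁.loc q) hF'
  have hRY : Rat ⊤ A Y := rat_of_loc ho hY lY h.mem
  obtain ⟨m, hm0, hm⟩ := exists_mult (G := A) q ho
  -- comparison
  have h1 : hf A t Z Y₁ ≤ hf A t Z Y := by
    rw [hf_loc hm t hZ lZ hY₁ lY₁, hf_loc hm t hZ lZ hY lY]
    exact mul_le_mul_of_nonneg_left (h.le _ hr₁) hm0
  have h2 : hf A t Z Y ≤ hf A t Z Y₁ := by
    rw [← hf_hat (Q := Q) hZ hY t, ← hf_hat (Q := Q) hZ hY₁ t]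
    exact hX'.le _ hRY.hat
  have h3 : Y ≤ Y₁ := by
    rw [← hat_le_iff (Q := Q)]
    refine hX'.top _ hRY.hat ?_
    rw [hf_hat (Q := Q) hZ hY t, hf_hat (Q := Q) hZ hY₁ t]
    exact h1
  have h4 : Y₁ ≤ Y := by
    by_cases hm1 : m = 0
    · have e1 : vd A Y₁ ≤ vd A Y := by
        rw [hm _ hY₁ lY₁, hm _ hY lY, hm1, zero_mul, zero_mul]
      rw [eq_of_vd_le hY hY₁ h3 e1]
    · have hm2 : 0 < m := lt_of_le_of_ne hm0 (Ne.symm hm1)
      refine le_of_loc_le_orbit ho hY₁ lY₁ hY lY (h.top _ hr₁ ?_)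
      have h5 := h2
      rw [hf_loc hm t hZ lZ hY₁ lY₁, hf_loc hm t hZ lZ hY lY] at h5
      exact le_of_mul_le_mul_left h5 hm2
  have h5 : Y₁ = Y := le_antisymm h4 h3
  subst h5
  refine ⟨hRY, fun W hW => ?_, fun W hW hle => ?_⟩
  · rw [← hf_hat (Q := Q) hZ hW.md t, ← hf_hat (Q := Q) hZ hY t]
    exact hX'.le _ hW.hat
  · rw [← hat_le_iff (Q := Q)]
    refine hX'.top _ hW.hat ?_
    rw [hf_hat (Q := Q) hZ hW.md t, hf_hat (Q := Q) hZ hY t]
    exact hle

end ATY
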