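import Pool.Agent.ATY.VF
import Pool.Agent.ATY.F
import Pool.Agent.ATY.Lam
import Pool.Agent.ATY.SSPF

/-!
# Groups acting on trees with virtually free vertex stabilisers
-/

set_option autoImplicit false

namespace ATY
open Singer Pool.WeakAtiyah

/-- every subgroup of a virtually free group -/
theorem ssp_virt {A V : Type} [Group A] (F : Subgroup A) [F.Normal] [F.FiniteIndex] [MulAction F V]
    {T : SimpleGraph V} (hT : FreeAct F T) {n : ℕ} (hn : 0 < n) (hR : RanksIn ⊤ A n) (C : Subgroup A) : SSP ⊤ A C :=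
  ssp_of_normal hn hR F (fun H B => ssp_free (hT.sub H) B) C

/-- free groups act freely on trees -/
theorem exists_freeAct (A : Type) [Group A] [IsFreeGroup A] :
    ∃ (V : Type) (_ : MulAction A V) (T : SimpleGraph V), FreeAct A T := by
  obtain ⟨V, act, T, _, h1, h2, h3, h4⟩ := exists_cayley A
  exact ⟨V, act, T, h1, h2, h4, h3⟩

lemma ranksIn_of_dvd {K : Subfield ℂ} {A : Type} [Group A] {m n : ℕ} (hn : 0 < n) (hmn : m ∣ n)
    (h : RanksIn K A m) : RanksIn K A n := by
  intro ι κ _ _ M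
  obtain ⟨z, hz⟩ := h ι κ M
  obtain ⟨k, rfl⟩ := hmn
  have hm : (m : ℝ) ≠ 0 := Nat.cast_ne_zero.2 (by rintro rfl; simp at hn)
  have hk : (k : ℝ) ≠ 0 := Nat.cast_ne_zero.2 (by rintro rfl; simp at hn)
  refine ⟨z * k, ?_⟩
  rw [hz]
  push_cast
  field_simp

lemma isFreeGroup_of_le {A : Type} [Group A] {N F : Subgroup A} (hF : IsFreeGroup F) (h : N ≤ F) : IsFreeGroup N :=
  IsFreeGroup.ofMulEquiv (Subgroup.subgroupOfEquivOfLe h)

lemma ranksIn_of_free_finiteIndex {K : Subfield ℂ} {A : Type} [Group A] {n : ℕ} (hn : 0 < n) (F : Subgroup A)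
    (hF : IsFreeGroup F) (hi : F.index ≠ 0) (hd : F.index ∣ n) : RanksIn K A n := by
  have : F.FiniteIndex := ⟨hi⟩
  have h1 := ranksIn_of_finiteIndex one_pos F (Lam.ranksIn_freeGroup K F)
  rw [one_mul] at h1
  exact ranksIn_of_dvd hn hd h1

/-- **Theorem F.** Let `G` act without inversions on a tree. If every vertex stabiliser has a free subgroup of finite
index dividing `n`, then the von Neumann ranks over `ℂ[G]` are in `(1/n) ℤ`. There is no hypothesis on the edge
stabilisers. -/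
theorem free_main {n : ℕ} (hn : 0 < n) {G V : Type} [Group G] [MulAction G V] {T : SimpleGraph V}
    (hT : T.IsTree) (hA : ∀ (g : G) (v w : V), T.Adj v w → T.Adj (g • v) (g • w))
    (hI : ∀ (g : G) (v w : V), T.Adj v w → g • v = w → g • w ≠ v)
    (hF : ∀ v : V, ∃ F : Subgroup (MulAction.stabilizer G v), IsFreeGroup F ∧ F.index ≠ 0 ∧ F.index ∣ n) :
    RanksIn ⊤ G n := by
  have hR : ∀ v : V, RanksIn ⊤ (MulAction.stabilizer G v) n := by
    intro v
    obtain ⟨F, h1, h2, h3⟩ := hF v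
    exact ranksIn_of_free_finiteIndex hn F h1 h2 h3
  refine tree_main hn hT hA hI (fun v w _ => ?_) hR
  obtain ⟨F, h1, h2, -⟩ := hF v
  have hfin : F.FiniteIndex := ⟨h2⟩
  have hfin' : F.normalCore.FiniteIndex := Subgroup.finiteIndex_normalCore F
  have h3 : IsFreeGroup F.normalCore := isFreeGroup_of_le h1 (Subgroup.normalCore_le F)
  obtain ⟨V', act, T', hT'⟩ := exists_freeAct F.normalCore
  exact ssp_virt F.normalCore hT' hn (hR v) _

end ATY
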