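import Pool.Agent.ATY.Gd
import Pool.Agent.ATY.E5
import Pool.Agent.ATY.FT
import Pool.Agent.ATY.CPhi

/-!
# Closure properties of the class `Gd`
-/

set_option autoImplicit false

open scoped ComplexConjugate InnerProductSpace
open Filter Topology

namespace ATY
open Singer Pool.WeakAtiyah

section psi

/-- the homomorphism between the groups `Psi` -/
noncomputable def psiMap {A B Q Q' : Type} [Group A] [Group B] [MulAction A Q] [MulAction B Q'] (f : A →* B) (j : Q → Q')
    (hj : ∀ (a : A) (q : Q), j (a • q) = f a • j q) : Psi A Q →* Psi B Q' :=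
  SemidirectProduct.map (FreeGroup.map fun p : Q × ℤ => (j p.1, p.2)) f (fun a => by
    ext p
    show FreeGroup.map (fun p : Q × ℤ => (j p.1, p.2)) (phiA A Q a (FreeGroup.of p)) =
      phiA B Q' (f a) (FreeGroup.map (fun p : Q × ℤ => (j p.1, p.2)) (FreeGroup.of p))
    obtain ⟨q, k⟩ := p
    rw [phiA_of, FreeGroup.map.of, FreeGroup.map.of, phiA_of, hj])

lemma psiMap_injective {A B Q Q' : Type} [Group A] [Group B] [MulAction A Q] [MulAction B Q'] {f : A →* B} {j : Q → Q'}
    (hj : ∀ (a : A) (q : Q), j (a • q) = f a • j q) (hf : Function.Injective f) (hji : Function.Injective j) :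
    Function.Injective (psiMap f j hj) := by
  intro x y h
  have h1 : FreeGroup.map (fun p : Q × ℤ => (j p.1, p.2)) x.left = FreeGroup.map (fun p : Q × ℤ => (j p.1, p.2)) y.left :=
    congrArg SemidirectProduct.left h
  have h2 : f x.right = f y.right := congrArg SemidirectProduct.right h
  apply SemidirectProduct.ext
  · refine FreeGroup.map_injective ?_ h1
    rintro ⟨q, k⟩ ⟨q', k'⟩ h3
    have h4 := congrArg Prod.fst h3
    have h5 := congrArg Prod.snd h3
    exact Prod.ext (hji h4) h5
  · exact hf h2

end psi

namespace Gd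
variable {n : ℕ} {A : Type} [Group A]

/-- the ranks over the group -/
theorem ranks (h : Gd n A) : RanksIn ⊤ A n :=
  ranksIn_of_injective (SemidirectProduct.inr : A →* Psi A (A ⧸ (⊤ : Subgroup A))) SemidirectProduct.inr_injective (h.rk _)

/-- the ranks over the groups `Psi B Q` of a subgroup -/
theorem rkSub (h : Gd n A) (B : Subgroup A) (Q : Type) [MulAction B Q] : RanksIn ⊤ (Psi B Q) n := by
  have h1 : ∀ (b : B) (q : Q), qh B (b • q) = (B.subtype b) • qh B q := by
    intro b q
    show qh B (b • q) = (b : A) • qh B q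
    unfold qh
    rw [smul_imk_c1 B b.2]
  refine ranksIn_of_injective (psiMap B.subtype (qh B) h1) (psiMap_injective h1 (Subgroup.subtype_injective B) ?_)
    (h.rk (Ind B Q))
  intro q q' h2
  have h3 := imk_inj B (c1 B) h2
  have h4 := congrArg (fun r => g1 B • r) h3
  simpa only [smul_inv_smul] using h4

/-- induction between subgroups -/
theorem sspSub (h : Gd n A) (B : Subgroup A) (C : Subgroup B) : SSP ⊤ B C := by
  have h1 := ssp_restrict B (C.map B.subtype) (Subgroup.map_subtype_le C) (h.ssp _)
  have h2 : (C.map B.subtype).subgroupOf B = C := by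
    rw [Subgroup.subgroupOf, Subgroup.comap_map_eq_self_of_injective (Subgroup.subtype_injective B)]
  rwa [h2] at h1

/-- other denominators -/
theorem dvd {m : ℕ} (h : Gd m A) (hn : 0 < n) (hmn : m ∣ n) : Gd n A where
  rk Q _ := ranksIn_of_dvd hn hmn (h.rk Q)
  ssp C := h.ssp C

/-- subgroups -/
theorem sub (h : Gd n A) (B : Subgroup A) : Gd n B where
  rk Q _ := h.rkSub B Q
  ssp C := h.sspSub B C

/-- groups that act freely on trees -/
theorem free {V : Type} [MulAction A V] {T : SimpleGraph V} (hT : FreeAct A T) : Gd 1 A where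
  rk Q _ := ranks_psi hT Q
  ssp C := ssp_free hT C

/-- free groups -/
theorem of_isFreeGroup [IsFreeGroup A] : Gd 1 A := by
  obtain ⟨V, act, T, hT⟩ := exists_freeAct A
  exact free hT

/-- isomorphic groups -/
theorem equiv {A' : Type} [Group A'] (h : Gd n A) (α : A ≃* A') : Gd n A' where
  rk Q _ := by
    let _ : MulAction A Q := MulAction.compHom Q α.toMonoidHom
    have h1 : ∀ (a : A') (q : Q), (id : Q → Q) (a • q) = α.symm a • (id : Q → Q) q := by
      intro a q
      show a • q = α (α.symm a) • q
      rw [MulEquiv.apply_symm_apply]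
    exact ranksIn_of_injective (psiMap (α.symm : A' →* A) id h1) (psiMap_injective h1 α.symm.injective Function.injective_id)
      (h.rk Q)
  ssp C := ssp_equiv α (C := C.comap α.toMonoidHom) (fun g => Iff.rfl) (h.ssp _)

/-- groups that embed -/
theorem of_injective {A' : Type} [Group A'] (h : Gd n A) (f : A' →* A) (hf : Function.Injective f) : Gd n A' :=
  (h.sub f.range).equiv (MonoidHom.ofInjective hf).symm

/-- overgroups of finite index -/
theorem of_finiteIndex (hn : 0 < n) (F : Subgroup A) [F.FiniteIndex] (h : Gd n F) : Gd (n * F.index) A := by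
  have hrk : ∀ (Q : Type) [MulAction A Q], RanksIn ⊤ (Psi A Q) (n * F.index) := by
    intro Q _
    -- the subgroup `Psi F Q` of `Psi A Q`
    let N : Subgroup (Psi A Q) := F.comap SemidirectProduct.rightHom
    have hN : N.index = F.index := F.index_comap_of_surjective SemidirectProduct.rightHom_surjective
    have hNf : N.FiniteIndex := ⟨by rw [hN]; exact Subgroup.FiniteIndex.index_ne_zero⟩
    have h1 : RanksIn ⊤ N n := by
      let f : N →* Psi F Q :=
        { toFun := fun x => ⟨x.1.left, ⟨x.1.right, x.2⟩⟩
          map_one' := rfl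
          map_mul' := fun x y => SemidirectProduct.ext rfl rfl }
      refine ranksIn_of_injective f ?_ (h.rk Q)
      intro x y hxy
      apply Subtype.ext
      apply SemidirectProduct.ext
      · exact congrArg (fun z : Psi F Q => z.left) hxy
      · exact congrArg (fun z : Psi F Q => (z.right : A)) hxy
    have h2 := ranksIn_of_finiteIndex hn N h1
    rwa [hN] at h2
  have hn' : 0 < n * F.index := Nat.mul_pos hn (Nat.pos_of_ne_zero Subgroup.FiniteIndex.index_ne_zero)
  refine ⟨hrk, fun C => ?_⟩
  have hR : RanksIn ⊤ A (n * F.index) :=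
    ranksIn_of_injective (SemidirectProduct.inr : A →* Psi A (A ⧸ (⊤ : Subgroup A))) SemidirectProduct.inr_injective (hrk _)
  have hfin : F.normalCore.FiniteIndex := Subgroup.finiteIndex_normalCore F
  have h3 : Gd n F.normalCore := h.of_injective (Subgroup.inclusion (Subgroup.normalCore_le F))
    (Subgroup.inclusion_injective _)
  exact ssp_of_normal hn' hR F.normalCore (fun H B => h3.sspSub H B) C

end Gd

end ATY
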