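import Pool.Agent.Singer.Gen.HalfTree

/-!
# Collapsing subtrees

`T` is a tree, `s` an equivalence relation with connected classes; the quotient graph `colG T s` is a tree.
-/

set_option autoImplicit false

namespace ATY
open Singer.HT

namespace Col

variable {V : Type*} (T : SimpleGraph V) (s : Setoid V)

/-- the classes are connected -/
def Conn : Prop := ∀ x y, s x y → Relation.ReflTransGen (fun z z' => T.Adj z z' ∧ s z z') x y

/-- the quotient graph -/
def colG : SimpleGraph (Quotient s) where
  Adj c d := c ≠ d ∧ ∃ v w, T.Adj v w ∧ Quotient.mk s v = c ∧ Quotient.mk s w = d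
  symm := ⟨by
    rintro c d ⟨h, v, w, h1, h2, h3⟩
    exact ⟨h.symm, w, v, h1.symm, h3, h2⟩⟩
  loopless := ⟨fun c h => h.1 rfl⟩

variable {T s}

lemma half_rtg {a b : V} (hab : ¬ s a b) {x y : V} (h : Relation.ReflTransGen (fun z z' => T.Adj z z' ∧ s z z') x y) :
    x ∈ half T a b ↔ y ∈ half T a b := by
  induction h with
  | refl => exact Iff.rfl
  | tail _ h2 ih =>
    refine ih.trans (half_step h2.1 fun h3 => hab ?_)
    rw [Sym2.eq_iff] at h3
    rcases h3 with ⟨rfl, rfl⟩ | ⟨rfl, rfl⟩
    · exact h2.2
    · exact s.symm h2.2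

lemma half_sat (hc : Conn T s) {a b : V} (hab : ¬ s a b) {x y : V} (hxy : s x y) :
    x ∈ half T a b ↔ y ∈ half T a b := half_rtg hab (hc x y hxy)

/-- two adjacent classes are joined by exactly one edge -/
lemma edge_unique (hT : T.IsTree) (hc : Conn T s) {v w v' w' : V} (h : T.Adj v w) (hn : ¬ s v w) (h' : T.Adj v' w')
    (h1 : s v v') (h2 : s w w') : v' = v ∧ w' = w := by
  have a1 : v' ∈ half T v w := (half_sat hc hn h1).1 (mem_half_self v w)
  have a2 : w' ∉ half T v w := fun h3 => notMem_half hT h ((half_sat hc hn h2).2 h3)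
  by_contra h3
  have h4 : s(v', w') ≠ s(v, w) := by
    intro h5
    rw [Sym2.eq_iff] at h5
    rcases h5 with h5 | ⟨rfl, rfl⟩
    · exact h3 h5
    · exact hn h1
  exact a2 ((half_step h' h4).1 a1)

lemma colG_adj_mk {v w : V} (h : T.Adj v w) (hn : ¬ s v w) : (colG T s).Adj (Quotient.mk s v) (Quotient.mk s w) :=
  ⟨fun h1 => hn (Quotient.exact h1), v, w, h, rfl, rfl⟩

theorem isTree (hT : T.IsTree) (hc : Conn T s) : (colG T s).IsTree := by
  constructor
  · have hne := hT.connected.nonempty
    refine { preconnected := ?_, nonempty := ⟨Quotient.mk s hne.some⟩ }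
    intro c d
    induction c using Quotient.inductionOn with
    | h v =>
      induction d using Quotient.inductionOn with
      | h w =>
        obtain ⟨p⟩ := hT.connected.preconnected v w
        induction p with
        | nil => exact SimpleGraph.Reachable.refl _
        | @cons a b c hab p ih =>
          refine SimpleGraph.Reachable.trans ?_ ih
          by_cases hs : s a b
          · rw [Quotient.sound hs]
          · exact (colG_adj_mk hab hs).reachable
  · rw [SimpleGraph.isAcyclic_iff_forall_adj_isBridge]
    rintro c d ⟨hcd, v, w, hvw, rfl, rfl⟩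
    rw [SimpleGraph.isBridge_iff]
    have hn : ¬ s v w := fun h1 => hcd (Quotient.sound h1)
    rintro ⟨p⟩
    suffices h : ∀ (c d : Quotient s) (p : ((colG T s).deleteEdges {s(Quotient.mk s v, Quotient.mk s w)}).Walk c d),
        (∀ x, Quotient.mk s x = c → x ∈ half T v w) → ∀ y, Quotient.mk s y = d → y ∈ half T v w from
      notMem_half hT hvw (h _ _ p (fun x hx => (half_sat hc hn (Quotient.exact hx.symm)).1 (mem_half_self v w)) w rfl)
    intro c d p
    induction p with
    | nil => exact fun h => h
    | @cons a b c hab p ih =>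
      intro h
      apply ih
      intro y hy
      rw [SimpleGraph.deleteEdges_adj] at hab
      obtain ⟨⟨_, x', y', h1, h2, h3⟩, h4⟩ := hab
      have h5 : y' ∈ half T v w := by
        refine (half_step h1 fun h5 => h4 ?_).1 (h x' h2)
        rw [← h2, ← h3]
        show s(Quotient.mk s x', Quotient.mk s y') = s(Quotient.mk s v, Quotient.mk s w)
        rw [Sym2.eq_iff] at h5 ⊢
        rcases h5 with ⟨rfl, rfl⟩ | ⟨rfl, rfl⟩
        · exact Or.inl ⟨rfl, rfl⟩
        · exact Or.inr ⟨rfl, rfl⟩
      exact (half_sat hc hn (Quotient.exact (h3.trans hy.symm))).1 h5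

section action
variable {G : Type*} [Group G] [MulAction G V]

/-- the action on the classes -/
def act (hs : ∀ (g : G) (x y : V), s x y → s (g • x) (g • y)) : MulAction G (Quotient s) where
  smul g := Quotient.map (fun x => g • x) fun x y h => hs g x y h
  one_smul c := by
    induction c using Quotient.inductionOn with
    | h x => exact congrArg (Quotient.mk s) (one_smul G x)
  mul_smul g h c := by
    induction c using Quotient.inductionOn with
    | h x => exact congrArg (Quotient.mk s) (mul_smul g h x)

/-- everything at once: the action on the tree of classes -/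
theorem exists_tree (hT : T.IsTree) (hA : ∀ (g : G) (v w : V), T.Adj v w → T.Adj (g • v) (g • w))
    (hI : ∀ (g : G) (v w : V), T.Adj v w → g • v = w → g • w ≠ v) (hc : Conn T s)
    (hs : ∀ (g : G) (x y : V), s x y → s (g • x) (g • y)) :
    ∃ _ : MulAction G (Quotient s), (colG T s).IsTree ∧
      (∀ (g : G) (x : V), g • Quotient.mk s x = Quotient.mk s (g • x)) ∧
      (∀ (g : G) (c d : Quotient s), (colG T s).Adj c d → (colG T s).Adj (g • c) (g • d)) ∧
      (∀ (g : G) (c d : Quotient s), (colG T s).Adj c d → g • c = d → g • d ≠ c) ∧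
      ∀ c d : Quotient s, (colG T s).Adj c d → ∃ v w, T.Adj v w ∧
        ∀ g : G, g • c = c → g • d = d → g • v = v ∧ g • w = w := by
  refine ⟨act hs, isTree hT hc, fun g x => rfl, ?_, ?_, ?_⟩
  · letI := act hs
    rintro g _ _ ⟨hcd, v, w, hvw, rfl, rfl⟩
    refine ⟨fun h => hcd (MulAction.injective g h), g • v, g • w, hA g v w hvw, rfl, rfl⟩
  · letI := act hs
    rintro g _ _ ⟨hcd, v, w, hvw, rfl, rfl⟩ h1 h2
    have h1' : s w (g • v) := Quotient.exact (Eq.symm h1)
    have h2' : s v (g • w) := Quotient.exact (Eq.symm h2)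
    have h3 := edge_unique hT hc hvw (fun h => hcd (Quotient.sound h)) (hA g v w hvw).symm h2' h1'
    exact hI g v w hvw h3.2 h3.1
  · letI := act hs
    rintro _ _ ⟨hcd, v, w, hvw, rfl, rfl⟩
    refine ⟨v, w, hvw, fun g h1 h2 => ?_⟩
    have h1' : s v (g • v) := Quotient.exact (Eq.symm h1)
    have h2' : s w (g • w) := Quotient.exact (Eq.symm h2)
    exact edge_unique hT hc hvw (fun h => hcd (Quotient.sound h)) (hA g v w hvw) h1' h2'

end action

end Col
end ATY
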