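import Pool.Agent.ATY.E
import Pool.Agent.Singer.Gen.HalfTree

/-!
# Realisation of closed subspaces with finite states, I: the analytic part

`T` is a tree, `δ : X → V`, `W` a closed subspace of `ℓ²(X)`, `ξ y` vectors of `W` over darts `e y`.  If local data which
come from `W` at every vertex are given by `f ∈ ℓ²(X)` and `s ∈ ℓ²(Y)`, then `f` is orthogonal to `W ᗮ`.
-/

set_option autoImplicit false

open scoped ComplexConjugate InnerProductSpace
open Filter Topology

namespace ATY
open Singer Pool.WeakAtiyah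

namespace DR

section dir
variable {V : Type*} {T : SimpleGraph V}

lemma exists_dir (hT : T.IsTree) (v u : V) : u = v ∨ ∃ w, T.Adj v w ∧ u ∈ HT.half T w v := by
  obtain ⟨p⟩ := hT.connected.preconnected v u
  suffices h : ∀ (a u : V) (p : T.Walk a u), (a = v ∨ ∃ w, T.Adj v w ∧ a ∈ HT.half T w v) →
      (u = v ∨ ∃ w, T.Adj v w ∧ u ∈ HT.half T w v) from h v u p (Or.inl rfl)
  intro a u p
  induction p with
  | nil => exact id
  | @cons a b c hab p ih =>
    intro ha
    apply ih
    by_cases hb : b = v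
    · exact Or.inl hb
    · right
      rcases ha with rfl | ⟨w, hw, ha⟩
      · exact ⟨b, hab, HT.mem_half_self _ _⟩
      · by_cases ha' : a = v
        · subst ha'
          exact ⟨b, hab, HT.mem_half_self _ _⟩
        · exact ⟨w, hw, (HT.half_step' hab (fun h => hb h.2) (fun h => ha' h.1)).1 ha⟩

lemma dir_unique (hT : T.IsTree) {v u w w' : V} (h : T.Adj v w) (h' : T.Adj v w') (h1 : u ∈ HT.half T w v)
    (h2 : u ∈ HT.half T w' v) : w = w' := by
  by_contra hne
  have hv : v ∉ HT.half T w v := HT.notMem_half hT h.symm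
  have hv' : v ∉ HT.half T w' v := HT.notMem_half hT h'.symm
  have hw' : w' ∉ HT.half T w v := by
    intro h3
    exact hv ((HT.half_step' h' (fun h4 => h.ne h4.1) (fun h4 => hne h4.2.symm)).2 h3)
  obtain ⟨p⟩ := h2
  suffices hh : ∀ (a u : V) (p : (T.deleteEdges {s(w', v)}).Walk a u),
      (a ∈ HT.half T w' v ∧ a ∉ HT.half T w v) → (u ∈ HT.half T w' v ∧ u ∉ HT.half T w v) from
    (hh w' u p ⟨HT.mem_half_self _ _, hw'⟩).2 h1
  intro a u p
  induction p with
  | nil => exact id
  | @cons a b c hab p ih =>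
    intro ha
    apply ih
    rw [SimpleGraph.deleteEdges_adj] at hab
    have hb : b ∈ HT.half T w' v := (HT.half_step hab.1 (fun h3 => hab.2 h3)).1 ha.1
    have hb1 : b ≠ v := by
      rintro rfl
      exact hv' hb
    have ha1 : a ≠ v := by
      rintro rfl
      exact hv' ha.1
    exact ⟨hb, fun h3 => ha.2 ((HT.half_step' hab.1 (fun h4 => hb1 h4.2) (fun h4 => ha1 h4.1)).2 h3)⟩

open Classical in
/-- the neighbour of `v` in the direction of `u`, and `v` for `u = v` -/
noncomputable def dir (T : SimpleGraph V) (v u : V) : V :=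
  if h : ∃ w, T.Adj v w ∧ u ∈ HT.half T w v then h.choose else v

lemma dir_eq_iff (hT : T.IsTree) {v w : V} (h : T.Adj v w) (u : V) : dir T v u = w ↔ u ∈ HT.half T w v := by
  unfold dir
  by_cases h1 : ∃ w, T.Adj v w ∧ u ∈ HT.half T w v
  · rw [dif_pos h1]
    constructor
    · intro h2
      rw [← h2]
      exact h1.choose_spec.2
    · intro h2
      exact dir_unique hT h1.choose_spec.1 h h1.choose_spec.2 h2
  · rw [dif_neg h1]
    constructor
    · intro h2
      exact absurd h2 h.ne
    · intro h2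
      exact absurd ⟨w, h, h2⟩ h1

lemma dir_eq_self_iff (hT : T.IsTree) (v u : V) : dir T v u = v ↔ u = v := by
  unfold dir
  by_cases h1 : ∃ w, T.Adj v w ∧ u ∈ HT.half T w v
  · rw [dif_pos h1]
    constructor
    · intro h2
      exact absurd h2 h1.choose_spec.1.symm.ne
    · rintro rfl
      exact absurd h1.choose_spec.2 (HT.notMem_half hT h1.choose_spec.1.symm)
  · rw [dif_neg h1]
    exact ⟨fun _ => (exists_dir hT v u).resolve_right h1, fun _ => rfl⟩

lemma dir_adj (hT : T.IsTree) (v u : V) : dir T v u = v ∨ T.Adj v (dir T v u) := by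
  unfold dir
  by_cases h1 : ∃ w, T.Adj v w ∧ u ∈ HT.half T w v
  · rw [dif_pos h1]
    exact Or.inr h1.choose_spec.1
  · rw [dif_neg h1]
    exact Or.inl rfl

end dir

section sums
variable {X I : Type*}

lemma hasSum_inner (f g : L2 X) : HasSum (fun x => conj (g x) * f x) ⟪g, f⟫_ℂ := by
  rw [inner_eq]
  exact (summable_inner' g f).hasSum

lemma inner_cu_tsum (S : Set X) (f g : L2 X) : ⟪g, cu S f⟫_ℂ = ∑' x : S, conj (g x) * f x := by
  classical
  rw [inner_eq, tsum_subtype S (fun x => conj (g x) * f x)]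
  refine tsum_congr fun x => ?_
  rw [cu_apply, Set.indicator_apply]
  split_ifs <;> simp

/-- summation over the fibres of a map -/
lemma hasSum_fib (p : X → I) (f g : L2 X) : HasSum (fun i => ⟪g, cu {x | p x = i} f⟫_ℂ) ⟪g, f⟫_ℂ := by
  have h := (hasSum_inner f g).tsum_fiberwise p
  have h2 : (fun i => ⟪g, cu {x | p x = i} f⟫_ℂ) = fun i => ∑' b : p ⁻¹' {i}, conj (g b) * f b := by
    funext i
    exact inner_cu_tsum _ f g
  rw [h2]
  exact h

end sums

section core
variable {V X Y : Type*} {T : SimpleGraph V}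

/-- the points over the half tree of `w` at the dart `(v, w)` -/
def hq (T : SimpleGraph V) (δ : X → V) (d : V × V) : Set X := {x | δ x ∈ HT.half T d.2 d.1}

lemma norm_mul_le_sq (a b : ℝ) : a * b ≤ a ^ 2 + b ^ 2 := by nlinarith [sq_nonneg (a - b), sq_nonneg a, sq_nonneg b]

lemma summable_sq (s : L2 Y) : Summable fun y => ‖s y‖ ^ 2 := by
  have h := lp.memℓp s
  rw [memℓp_gen_iff (by norm_num)] at h
  simpa using h

open Classical in
/-- a summable family over the darts which is antisymmetric, with given sums over the darts at a vertex -/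
theorem sum_zero {β : V × V → ℂ} (hβ : Summable β) (hanti : ∀ v w, β (w, v) = - β (v, w)) (a : V → ℂ)
    (ha : ∀ v, HasSum (fun w => β (v, w)) (- a v)) (A : ℂ) (hA : HasSum a A) : A = 0 := by
  have h1 : ∑' d, β d = ∑' v, ∑' w, β (v, w) := hβ.tsum_prod
  have h2 : ∑' v, ∑' w, β (v, w) = - A := by
    have h3 : ∀ v, ∑' w, β (v, w) = - a v := fun v => (ha v).tsum_eq
    simp_rw [h3]
    rw [tsum_neg, hA.tsum_eq]
  have h3 : ∑' d, β d = - ∑' d, β d := by
    rw [← tsum_neg, ← (Equiv.prodComm V V).tsum_eq β]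
    refine tsum_congr fun d => ?_
    exact hanti d.1 d.2
  have h4 : ∑' d, β d = 0 := by
    have h5 : 2 * ∑' d, β d = 0 := by
      rw [two_mul]
      nth_rewrite 1 [h3]
      rw [neg_add_cancel]
    exact (mul_eq_zero.1 h5).resolve_left two_ne_zero
  rw [h1, h2] at h4
  exact neg_eq_zero.1 h4

open Classical in
theorem dr_core (hT : T.IsTree) (δ : X → V) (W : Submodule ℂ (L2 X)) (e : Y → V × V) (ξ : Y → L2 X)
    (hfin : ∀ d, {y | e y = d}.Finite)
    (hproj : ∀ v w, T.Adj v w → ∀ f ∈ W,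
      cu (hq T δ (v, w)) (f - ∑ y ∈ (hfin (v, w)).toFinset, ⟪ξ y, f⟫_ℂ • ξ y) ∈ W)
    (hξ : ∀ y, ξ y ∈ W) (f : L2 X) (s : L2 Y) (F : V → L2 X) (hFW : ∀ v, F v ∈ W) (hF : ∀ x, F (δ x) x = f x)
    (hF1 : ∀ y, ⟪ξ y, F (e y).1⟫_ℂ = s y) (hF2 : ∀ y, ⟪ξ y, F (e y).2⟫_ℂ = s y)
    (g : L2 X) (hg : ∀ h ∈ W, ⟪g, h⟫_ℂ = 0)
    (hsum : Summable fun y => ‖⟪g, cu (hq T δ (e y)) (ξ y)⟫_ℂ‖ ^ 2) : ⟪g, f⟫_ℂ = 0 := by
  set β : V × V → ℂ := fun d => if T.Adj d.1 d.2 then ⟪g, cu (hq T δ d) (F d.1)⟫_ℂ else 0 with hβdef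
  set b : Y → ℂ := fun y => if T.Adj (e y).1 (e y).2 then s y * ⟪g, cu (hq T δ (e y)) (ξ y)⟫_ℂ else 0 with hbdef
  -- the terms
  have hβ : ∀ d, β d = ∑ y ∈ (hfin d).toFinset, b y := by
    rintro ⟨v, w⟩
    by_cases h : T.Adj v w
    · have h1 : β (v, w) = ⟪g, cu (hq T δ (v, w)) (F v)⟫_ℂ := if_pos h
      have h2 := hg _ (hproj v w h (F v) (hFW v))
      rw [map_sub, map_sum, inner_sub_right, inner_sum, sub_eq_zero] at h2
      rw [h1, h2]
      refine Finset.sum_congr rfl fun y hy => ?_
      have hy' : e y = (v, w) := (hfin (v, w)).mem_toFinset.1 hy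
      have h3 : b y = s y * ⟪g, cu (hq T δ (e y)) (ξ y)⟫_ℂ := by
        refine if_pos ?_
        rw [hy']
        exact h
      have h4 := hF1 y
      rw [hy'] at h4
      rw [h3, map_smul, inner_smul_right, h4, hy']
    · have h1 : β (v, w) = 0 := if_neg h
      rw [h1]
      refine (Finset.sum_eq_zero fun y hy => ?_).symm
      have hy' : e y = (v, w) := (hfin (v, w)).mem_toFinset.1 hy
      refine if_neg ?_
      rw [hy']
      exact h
  have hb : Summable b := by
    refine Summable.of_norm_bounded ((summable_sq s).add hsum) fun y => ?_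
    by_cases h : T.Adj (e y).1 (e y).2
    · have h3 : b y = s y * ⟪g, cu (hq T δ (e y)) (ξ y)⟫_ℂ := if_pos h
      rw [h3, norm_mul]
      exact norm_mul_le_sq _ _
    · have h3 : b y = 0 := if_neg h
      rw [h3, norm_zero]
      positivity
  have hβs : Summable β := by
    have h1 := (hb.hasSum.tsum_fiberwise e).summable
    refine h1.congr fun d => ?_
    rw [hβ d]
    have h2 : (e ⁻¹' {d} : Set Y) = ((hfin d).toFinset : Set Y) := by
      rw [Set.Finite.coe_toFinset]
      rfl
    rw [h2]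
    exact Finset.tsum_subtype' (hfin d).toFinset b
  have hadj : ∀ v w, T.Adj v w → β (v, w) = ⟪g, cu (hq T δ (v, w)) (F v)⟫_ℂ := fun v w h => if_pos h
  have hcompl : ∀ v w, T.Adj v w → ∀ h : L2 X, cu (hq T δ (w, v)) h = h - cu (hq T δ (v, w)) h := by
    intro v w hvw h
    ext x
    have h1 : x ∈ hq T δ (w, v) ↔ x ∉ hq T δ (v, w) := HT.half_iff hT hvw (δ x)
    show cu (hq T δ (w, v)) h x = h x - cu (hq T δ (v, w)) h x
    rw [cu_apply, cu_apply]
    by_cases h2 : x ∈ hq T δ (v, w)
    · rw [if_pos h2, if_neg (fun h3 => h1.1 h3 h2), sub_self]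
    · rw [if_neg h2, if_pos (h1.2 h2), sub_zero]
  have hanti : ∀ v w, β (w, v) = - β (v, w) := by
    intro v w
    by_cases h : T.Adj v w
    · rw [hadj v w h, hadj w v h.symm, hcompl v w h, inner_sub_right, hg _ (hFW w), zero_sub, neg_inj]
      have h1 := hg _ (hproj v w h (F v - F w) (W.sub_mem (hFW v) (hFW w)))
      have h2 : ∑ y ∈ (hfin (v, w)).toFinset, ⟪ξ y, F v - F w⟫_ℂ • ξ y = 0 := by
        refine Finset.sum_eq_zero fun y hy => ?_
        have hy' : e y = (v, w) := (hfin (v, w)).mem_toFinset.1 hy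
        have h3 := hF1 y
        have h4 := hF2 y
        rw [hy'] at h3 h4
        rw [inner_sub_right, h3, h4, sub_self, zero_smul]
      rw [h2, sub_zero, map_sub, inner_sub_right, sub_eq_zero] at h1
      exact h1.symm
    · have h1 : β (v, w) = 0 := if_neg h
      have h2 : β (w, v) = 0 := if_neg fun h' => h h'.symm
      rw [h1, h2, neg_zero]
  refine sum_zero hβs hanti (fun v => ⟪g, cu {x | δ x = v} f⟫_ℂ) (fun v => ?_) _ (hasSum_fib δ f g)
  -- the sum over the darts at `v`
  have h1 := hasSum_fib (fun x => dir T v (δ x)) (F v) g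
  rw [hg _ (hFW v)] at h1
  have h2 : HasSum (fun w => if w = v then ⟪g, cu {x | δ x = v} f⟫_ℂ else 0) ⟪g, cu {x | δ x = v} f⟫_ℂ :=
    hasSum_ite_eq v _
  have h3 := h1.sub h2
  rw [zero_sub] at h3
  have h4 : (fun w => β (v, w)) = fun w => ⟪g, cu {x | dir T v (δ x) = w} (F v)⟫_ℂ -
      (if w = v then ⟪g, cu {x | δ x = v} f⟫_ℂ else 0) := by
    funext w
    by_cases hwv : w = v
    · subst hwv
      have h5 : β (w, w) = 0 := if_neg fun h => h.ne rfl
      have h6 : {x | dir T w (δ x) = w} = {x | δ x = w} := Set.ext fun x => dir_eq_self_iff hT w (δ x)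
      have h7 : cu {x | δ x = w} (F w) = cu {x | δ x = w} f := by
        ext x
        rw [cu_apply, cu_apply]
        split_ifs with h8
        · have h9 : δ x = w := h8
          rw [← hF x, h9]
        · rfl
      rw [h5, if_pos rfl, h6, h7, sub_self]
    · rw [if_neg hwv, sub_zero]
      by_cases h : T.Adj v w
      · rw [hadj v w h]
        have h6 : {x | dir T v (δ x) = w} = hq T δ (v, w) := Set.ext fun x => dir_eq_iff hT h (δ x)
        rw [h6]
      · have h5 : β (v, w) = 0 := if_neg h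
        have h6 : cu {x | dir T v (δ x) = w} (F v) = 0 := by
          ext x
          rw [cu_apply, if_neg]
          · rfl
          · intro h7
            have h8 : dir T v (δ x) = w := h7
            rcases dir_adj hT v (δ x) with h9 | h9
            · exact hwv (h8.symm.trans h9)
            · rw [h8] at h9
              exact h h9
        rw [h5, h6, inner_zero_right]
  rw [h4]
  exact h3

end core

end DR

end ATY
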