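import Pool.Agent.ATY.DR1
import Pool.Agent.ATY.FRDefs

/-!
# Realisation of closed subspaces with finite states, II

A closed invariant subspace with an equivariant frame of states with finitely many orbits is rational.
-/

set_option autoImplicit false

open scoped ComplexConjugate InnerProductSpace
open Filter Topology

namespace ATY
open Singer Pool.WeakAtiyah

namespace DR

section lspace
variable {V X Z : Type*}

/-- the families of local data which come from `W` at every vertex -/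
def Lsp (ν : Z → V) (η : Z → L2 X) (W : Submodule ℂ (L2 X)) : Submodule ℂ (L2 Z) where
  carrier := {h | ∀ v, ∃ f ∈ W, ∀ z, ν z = v → ⟪η z, f⟫_ℂ = h z}
  zero_mem' := fun v => ⟨0, W.zero_mem, fun z _ => inner_zero_right _⟩
  add_mem' := by
    intro h h' hh hh' v
    obtain ⟨f, hf, hfz⟩ := hh v
    obtain ⟨f', hf', hfz'⟩ := hh' v
    refine ⟨f + f', W.add_mem hf hf', fun z hz => ?_⟩
    rw [inner_add_right, hfz z hz, hfz' z hz]
    rfl
  smul_mem' := by
    intro c h hh v
    obtain ⟨f, hf, hfz⟩ := hh v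
    refine ⟨c • f, W.smul_mem c hf, fun z hz => ?_⟩
    rw [inner_smul_right, hfz z hz]
    rfl

lemma mem_lsp {ν : Z → V} {η : Z → L2 X} {W : Submodule ℂ (L2 X)} {h : L2 Z} :
    h ∈ Lsp ν η W ↔ ∀ v, ∃ f ∈ W, ∀ z, ν z = v → ⟪η z, f⟫_ℂ = h z := Iff.rfl

lemma isClosed_lsp {ν : Z → V} {η : Z → L2 X} {W : Submodule ℂ (L2 X)} (hfin : ∀ v, {z | ν z = v}.Finite) :
    IsClosed (Lsp ν η W : Set (L2 Z)) := by
  have h1 : (Lsp ν η W : Set (L2 Z)) = ⋂ v, {h | ∃ f ∈ W, ∀ z, ν z = v → ⟪η z, f⟫_ℂ = h z} := by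
    ext h
    rw [Set.mem_iInter]
    rfl
  rw [h1]
  refine isClosed_iInter fun v => ?_
  have : Finite {z | ν z = v} := hfin v
  have := Fintype.ofFinite {z | ν z = v}
  let ev : L2 Z → ({z | ν z = v} → ℂ) := fun h z => h z.1
  have hev : Continuous ev := by
    refine continuous_pi fun z => ?_
    have h2 : (fun h : L2 Z => ev h z) = fun h => innerSL ℂ (dl z.1) h := by
      funext h
      exact (inner_dl_left z.1 h).symm
    rw [h2]
    exact (innerSL ℂ (dl z.1)).continuous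
  let a : L2 X →ₗ[ℂ] ({z | ν z = v} → ℂ) := LinearMap.pi fun z => ((innerSL ℂ (η z.1) : L2 X →L[ℂ] ℂ) : L2 X →ₗ[ℂ] ℂ)
  have ha : ∀ f z, a f z = ⟪η z.1, f⟫_ℂ := fun f z => rfl
  have h2 : {h : L2 Z | ∃ f ∈ W, ∀ z, ν z = v → ⟪η z, f⟫_ℂ = h z} = ev ⁻¹' (W.map a : Set ({z | ν z = v} → ℂ)) := by
    ext h
    constructor
    · rintro ⟨f, hf, hfz⟩
      refine ⟨f, hf, ?_⟩
      funext z
      rw [ha]
      exact hfz z.1 z.2
    · rintro ⟨f, hf, hfz⟩
      refine ⟨f, hf, fun z hz => ?_⟩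
      exact congrFun hfz ⟨z, hz⟩
  rw [h2]
  exact (Submodule.closed_of_finiteDimensional (W.map a)).preimage hev

end lspace

section lgroup
variable {C V X Z : Type} [Group C] [MulAction C V] [MulAction C X] [MulAction C Z]

lemma md_lsp {ν : Z →[C] V} {η : Z → L2 X} (hη : ∀ (c : C) z, η (c • z) = la c (η z)) {W : Submodule ℂ (L2 X)}
    (hW : Md C W) (hfin : ∀ v, {z | ν z = v}.Finite) : Md C (Lsp ν η W) where
  inv := by
    intro c h hh v
    obtain ⟨f, hf, hfz⟩ := hh (c⁻¹ • v)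
    refine ⟨la c f, hW.inv c f hf, fun z hz => ?_⟩
    have h1 : ν (c⁻¹ • z) = c⁻¹ • v := by rw [map_smul, hz]
    have h2 := hfz _ h1
    have h3 : η z = la c (η (c⁻¹ • z)) := by rw [← hη, smul_inv_smul]
    rw [h3, inner_la, h2]
    rfl
  cl := isClosed_lsp hfin

lemma loc_lsp {ν : Z →[C] V} {η : Z → L2 X} {W : Submodule ℂ (L2 X)} : Loc ν (Lsp ν η W) := by
  classical
  intro q h hh v
  by_cases hv : v = q
  · subst hv
    obtain ⟨f, hf, hfz⟩ := hh v
    refine ⟨f, hf, fun z hz => ?_⟩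
    rw [cu_apply, if_pos (show z ∈ {z | ν z = v} from hz)]
    exact hfz z hz
  · refine ⟨0, W.zero_mem, fun z hz => ?_⟩
    rw [cu_apply, if_neg, inner_zero_right]
    intro h1
    have h2 : ν z = q := h1
    exact hv (hz.symm.trans h2)

/-- finite fibres over a set with free action -/
lemma finite_fib [hZ : FC C Z] (hfree : ∀ (c : C) (v : V), c • v = v → c = 1) (ν : Z →[C] V) (v : V) :
    {z | ν z = v}.Finite := by
  refine Set.Finite.of_injOn (f := fun z => (co C Z z).2) (t := Set.univ) (fun _ _ => Set.mem_univ _) ?_ Set.finite_univ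
  intro z hz z' hz' h
  have h1 : z' = ((co C Z z').1 * (co C Z z).1⁻¹) • z := by
    apply (co C Z).injective
    rw [co_smul, inv_mul_cancel_right]
    exact Prod.ext rfl h.symm
  have h2 : ν z = v := hz
  have h3 : ν z' = v := hz'
  have h4 := congrArg ν h1
  rw [map_smul, h2, h3] at h4
  have h5 := hfree _ _ h4.symm
  rw [h5, one_smul] at h1
  exact h1.symm

/-- the values of an equivariant family at a point are square summable -/
lemma summable_val {Y : Type} [MulAction C Y] [FC C Y] (hfree : ∀ (c : C) (x : X), c • x = x → c = 1) (η : Y → L2 X)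
    (hη : ∀ (c : C) y, η (c • y) = la c (η y)) (x : X) : Summable fun y => ‖η y x‖ ^ 2 := by
  rw [← (co C Y).symm.summable_iff]
  have h1 : ∀ i : Fin (rk C Y), Summable fun c : C => ‖η ((co C Y).symm (c, i)) x‖ ^ 2 := by
    intro i
    have h2 : ∀ c : C, η ((co C Y).symm (c, i)) x = η ((co C Y).symm (1, i)) (c⁻¹ • x) := by
      intro c
      have h3 : (co C Y).symm (c, i) = c • (co C Y).symm (1, i) := by
        apply (co C Y).injective
        rw [co_smul, Equiv.apply_symm_apply, Equiv.apply_symm_apply, mul_one]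
      rw [h3, hη]
      rfl
    simp_rw [h2]
    refine (Singer.summable_sq (η ((co C Y).symm (1, i)))).comp_injective (i := fun c : C => c⁻¹ • x) ?_
    intro c c' h
    have h4 : (c' * c⁻¹) • x = x := by
      have h5 : c⁻¹ • x = c'⁻¹ • x := h
      rw [mul_smul, h5, smul_inv_smul]
    have h6 := hfree _ _ h4
    rw [mul_inv_eq_one] at h6
    exact h6.symm
  change Summable fun p : C × Fin (rk C Y) => ‖η ((co C Y).symm p) x‖ ^ 2
  rw [summable_prod_of_nonneg (fun p => sq_nonneg ‖η ((co C Y).symm p) x‖)]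
  refine ⟨fun c => Summable.of_finite, ?_⟩
  refine (summable_sum fun (i : Fin (rk C Y)) (_ : i ∈ Finset.univ) => h1 i).congr fun c => ?_
  exact (tsum_fintype _).symm

end lgroup

section final
variable {C V X Y : Type} [Group C] [MulAction C V] [MulAction C X] [FC C X] [MulAction C Y] [FC C Y]
  {T : SimpleGraph V}

/-- the vertices of the local data -/
def nu (δ : X →[C] V) (e : Y →[C] V × V) : X ⊕ (Y ⊕ Y) →[C] V where
  toFun := Sum.elim δ (Sum.elim (fun y => (e y).1) (fun y => (e y).2))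
  map_smul' := by
    rintro c (x | y | y)
    · exact map_smul δ c x
    · show (e (c • y)).1 = c • (e y).1
      rw [map_smul]
      rfl
    · show (e (c • y)).2 = c • (e y).2
      rw [map_smul]
      rfl

/-- the vectors of the local data -/
noncomputable def et (ξ : Y → L2 X) : X ⊕ (Y ⊕ Y) → L2 X := Sum.elim dl (Sum.elim ξ ξ)

lemma et_smul {ξ : Y → L2 X} (hξe : ∀ (c : C) y, ξ (c • y) = la c (ξ y)) (c : C) (z : X ⊕ (Y ⊕ Y)) :
    et ξ (c • z) = la c (et ξ z) := by
  rcases z with x | y | y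
  · exact (la_dl c x).symm
  · exact hξe c y
  · exact hξe c y

/-- `(f, s) ↦ (f, s, s)` -/
noncomputable def dup (X Y : Type) : L2 (X ⊕ Y) →L[ℂ] L2 (X ⊕ (Y ⊕ Y)) :=
  (il X (Y ⊕ Y)).comp (pl X Y) + (ir X (Y ⊕ Y)).comp (((il Y Y) + (ir Y Y)).comp (pr X Y))

lemma dup_inl (h : L2 (X ⊕ Y)) (x : X) : dup X Y h (Sum.inl x) = h (Sum.inl x) := by
  show il X (Y ⊕ Y) (pl X Y h) (Sum.inl x) + ir X (Y ⊕ Y) (((il Y Y) + (ir Y Y)) (pr X Y h)) (Sum.inl x) = _
  have h1 : il X (Y ⊕ Y) (pl X Y h) (Sum.inl x) = h (Sum.inl x) := push_apply _ _ _ _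
  have h2 : ir X (Y ⊕ Y) (((il Y Y) + (ir Y Y)) (pr X Y h)) (Sum.inl x) = 0 := by
    refine push_apply_of_notMem _ _ _ ?_
    rintro ⟨z, hz⟩
    exact Sum.inr_ne_inl hz
  rw [h1, h2, add_zero]

lemma dup_inrl (h : L2 (X ⊕ Y)) (y : Y) : dup X Y h (Sum.inr (Sum.inl y)) = h (Sum.inr y) := by
  show il X (Y ⊕ Y) (pl X Y h) (Sum.inr (Sum.inl y)) +
    ir X (Y ⊕ Y) (((il Y Y) + (ir Y Y)) (pr X Y h)) (Sum.inr (Sum.inl y)) = _
  have h1 : il X (Y ⊕ Y) (pl X Y h) (Sum.inr (Sum.inl y)) = 0 := by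
    refine push_apply_of_notMem _ _ _ ?_
    rintro ⟨z, hz⟩
    exact Sum.inl_ne_inr hz
  have h2 : ir X (Y ⊕ Y) (((il Y Y) + (ir Y Y)) (pr X Y h)) (Sum.inr (Sum.inl y)) =
      il Y Y (pr X Y h) (Sum.inl y) + ir Y Y (pr X Y h) (Sum.inl y) := push_apply _ _ _ _
  have h3 : il Y Y (pr X Y h) (Sum.inl y) = h (Sum.inr y) := push_apply _ _ _ _
  have h4 : ir Y Y (pr X Y h) (Sum.inl y) = 0 := by
    refine push_apply_of_notMem _ _ _ ?_
    rintro ⟨z, hz⟩
    exact Sum.inr_ne_inl hz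
  rw [h1, h2, h3, h4, zero_add, add_zero]

lemma dup_inrr (h : L2 (X ⊕ Y)) (y : Y) : dup X Y h (Sum.inr (Sum.inr y)) = h (Sum.inr y) := by
  show il X (Y ⊕ Y) (pl X Y h) (Sum.inr (Sum.inr y)) +
    ir X (Y ⊕ Y) (((il Y Y) + (ir Y Y)) (pr X Y h)) (Sum.inr (Sum.inr y)) = _
  have h1 : il X (Y ⊕ Y) (pl X Y h) (Sum.inr (Sum.inr y)) = 0 := by
    refine push_apply_of_notMem _ _ _ ?_
    rintro ⟨z, hz⟩
    exact Sum.inl_ne_inr hz
  have h2 : ir X (Y ⊕ Y) (((il Y Y) + (ir Y Y)) (pr X Y h)) (Sum.inr (Sum.inr y)) =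
      il Y Y (pr X Y h) (Sum.inr y) + ir Y Y (pr X Y h) (Sum.inr y) := push_apply _ _ _ _
  have h3 : ir Y Y (pr X Y h) (Sum.inr y) = h (Sum.inr y) := push_apply _ _ _ _
  have h4 : il Y Y (pr X Y h) (Sum.inr y) = 0 := by
    refine push_apply_of_notMem _ _ _ ?_
    rintro ⟨z, hz⟩
    exact Sum.inl_ne_inr hz
  rw [h1, h2, h3, h4, zero_add, zero_add]

lemma kop_dup {K : Subfield ℂ} : KOp K C (dup X Y) :=
  (kop_il.comp kop_pl).add (kop_ir.comp ((kop_il.add kop_ir).comp kop_pr))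

lemma pj_symm (W : Submodule ℂ (L2 X)) (f g : L2 X) : ⟪pj W f, g⟫_ℂ = ⟪f, pj W g⟫_ℂ :=
  Submodule.inner_starProjection_left_eq_right _ _ _

/-- `P_W (dl x)` is dense in `W` -/
lemma mem_of_pj_dl {W U : Submodule ℂ (L2 X)} (hU : IsClosed (U : Set (L2 X))) (h : ∀ x, pj W (dl x) ∈ U) {f : L2 X}
    (hf : pj W f = f) : f ∈ U := by
  have hcl : U.topologicalClosure = U := hU.submodule_topologicalClosure_eq
  have h1 : (pj U).comp (pj W) = pj W := by
    refine eq_of_dl fun x => ?_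
    show pj U (pj W (dl x)) = pj W (dl x)
    refine pj_unique ?_ ?_
    · rw [hcl]
      exact h x
    · rw [sub_self]
      exact Submodule.zero_mem _
  have h2 : pj U (pj W f) = pj W f := congrArg (fun S : L2 X →L[ℂ] L2 X => S f) h1
  have h3 := pj_mem U (pj W f)
  rw [h2, hcl, hf] at h3
  exact h3

theorem rat_of_frame (hFA : FreeAct C T) (δ : X →[C] V) {W : Submodule ℂ (L2 X)} (hW : Md C W) (e : Y →[C] V × V)
    (ξ : Y → L2 X) (hξe : ∀ (c : C) y, ξ (c • y) = la c (ξ y)) (hξW : ∀ y, ξ y ∈ W)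
    (hfin : ∀ d, {y | e y = d}.Finite)
    (hproj : ∀ v w, T.Adj v w → ∀ f ∈ W, f - ∑ y ∈ (hfin (v, w)).toFinset, ⟪ξ y, f⟫_ℂ • ξ y ∈ Wd T δ W (v, w)) :
    Rat ⊤ C W := by
  classical
  have hcX : ∀ (c : C) (x : X), c • x = x → c = 1 := FC.free
  have hfib : ∀ v, {z | nu δ e z = v}.Finite := finite_fib hFA.free (nu δ e)
  have hL : Rat ⊤ C (Lsp (nu δ e) (et ξ) W) := by
    refine rat_of_fib (md_lsp (et_smul hξe) hW hfib) loc_lsp fun z => hfib _
  have hR := (hL.comap (kop_dup (K := ⊤) (C := C) (X := X) (Y := Y))).im (kop_pl (K := ⊤) (H := C) (X := X) (Y := Y))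
  suffices h : W = im (pl X Y) ((Lsp (nu δ e) (et ξ) W).comap (dup X Y : L2 (X ⊕ Y) →ₗ[ℂ] L2 (X ⊕ (Y ⊕ Y)))) by
    rw [h]
    exact hR
  have hcl : W.topologicalClosure = W := hW.cl.submodule_topologicalClosure_eq
  have hpj : ∀ f, pj W f ∈ W := fun f => by
    have h1 := pj_mem W f
    rwa [hcl] at h1
  have hpjW : ∀ f ∈ W, pj W f = f := by
    intro f hf
    refine pj_unique ?_ ?_
    · rw [hcl]
      exact hf
    · rw [sub_self]
      exact Submodule.zero_mem _
  refine le_antisymm ?_ ?_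
  · -- density
    have h1 : ∀ x, pj W (dl x) ∈ im (pl X Y)
        ((Lsp (nu δ e) (et ξ) W).comap (dup X Y : L2 (X ⊕ Y) →ₗ[ℂ] L2 (X ⊕ (Y ⊕ Y)))) := by
      intro x
      have hs : Summable fun y => ‖⟪ξ y, pj W (dl x)⟫_ℂ‖ ^ 2 := by
        refine (summable_val hcX ξ hξe x).congr fun y => ?_
        rw [← pj_symm, hpjW _ (hξW y), inner_dl_right, RCLike.norm_conj]
      let s : L2 Y := ⟨fun y => ⟪ξ y, pj W (dl x)⟫_ℂ, memL2 hs⟩
      have hsy : ∀ y, s y = ⟪ξ y, pj W (dl x)⟫_ℂ := fun y => rfl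
      let h : L2 (X ⊕ Y) := il X Y (pj W (dl x)) + ir X Y s
      have hh1 : ∀ x', h (Sum.inl x') = pj W (dl x) x' := by
        intro x'
        show il X Y (pj W (dl x)) (Sum.inl x') + ir X Y s (Sum.inl x') = _
        have h3 : il X Y (pj W (dl x)) (Sum.inl x') = pj W (dl x) x' := push_apply _ _ _ _
        have h4 : ir X Y s (Sum.inl x') = 0 := by
          refine push_apply_of_notMem _ _ _ ?_
          rintro ⟨z, hz⟩
          exact Sum.inr_ne_inl hz
        rw [h3, h4, add_zero]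
      have hh2 : ∀ y, h (Sum.inr y) = ⟪ξ y, pj W (dl x)⟫_ℂ := by
        intro y
        show il X Y (pj W (dl x)) (Sum.inr y) + ir X Y s (Sum.inr y) = _
        have h3 : ir X Y s (Sum.inr y) = s y := push_apply _ _ _ _
        have h4 : il X Y (pj W (dl x)) (Sum.inr y) = 0 := by
          refine push_apply_of_notMem _ _ _ ?_
          rintro ⟨z, hz⟩
          exact Sum.inl_ne_inr hz
        rw [h3, h4, zero_add, hsy]
      have hpl : pl X Y h = pj W (dl x) := by
        ext x'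
        exact hh1 x'
      rw [← hpl]
      refine map_le_im ?_
      refine ⟨h, ?_, rfl⟩
      show dup X Y h ∈ Lsp (nu δ e) (et ξ) W
      rw [mem_lsp]
      intro v
      refine ⟨pj W (dl x), hpj _, ?_⟩
      rintro (x' | y | y) -
      · rw [dup_inl, hh1]
        exact inner_dl_left x' _
      · rw [dup_inrl, hh2]
        rfl
      · rw [dup_inrr, hh2]
        rfl
    intro f hf
    exact mem_of_pj_dl isClosed_im h1 (hpjW f hf)
  · -- the converse
    refine im_le hW.cl ?_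
    intro h hh
    have hh' : dup X Y h ∈ Lsp (nu δ e) (et ξ) W := hh
    rw [mem_lsp] at hh'
    choose F hFW hFz using hh'
    have hfin' : ∀ d, {y | e y = d}.Finite := hfin
    -- membership in `W`
    have key : ∀ x₀, ⟪dl x₀ - pj W (dl x₀), pl X Y h⟫_ℂ = 0 := by
      intro x₀
      refine dr_core hFA.tree δ W e ξ hfin ?_ hξW (pl X Y h) (pr X Y h) F hFW ?_ ?_ ?_ _ ?_ ?_
      · intro v w hvw f hf
        have h1 := hproj v w hvw f hf
        have h2 : cu (hq T δ (v, w)) (f - ∑ y ∈ (hfin (v, w)).toFinset, ⟪ξ y, f⟫_ℂ • ξ y) =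
            (f - ∑ y ∈ (hfin (v, w)).toFinset, ⟪ξ y, f⟫_ℂ • ξ y) -
              cut T δ (v, w) (f - ∑ y ∈ (hfin (v, w)).toFinset, ⟪ξ y, f⟫_ℂ • ξ y) := by
          ext x
          show cu (hq T δ (v, w)) _ x = (f - ∑ y ∈ (hfin (v, w)).toFinset, ⟪ξ y, f⟫_ℂ • ξ y) x -
            cu (δ ⁻¹' HT.half T v w) _ x
          rw [cu_apply, cu_apply]
          have h3 : x ∈ hq T δ (v, w) ↔ x ∉ (δ ⁻¹' HT.half T v w) := HT.half_iff hFA.tree hvw.symm (δ x)
          by_cases h4 : x ∈ (δ ⁻¹' HT.half T v w)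
          · rw [if_neg (fun h5 => h3.1 h5 h4), if_pos h4, sub_self]
          · rw [if_pos (h3.2 h4), if_neg h4, sub_zero]
        rw [h2]
        exact W.sub_mem h1.1 h1.2
      · intro x
        have h1 := hFz (δ x) (Sum.inl x) rfl
        rw [dup_inl] at h1
        have h2 : ⟪et ξ (Sum.inl x : X ⊕ (Y ⊕ Y)), F (δ x)⟫_ℂ = F (δ x) x := inner_dl_left x _
        rw [← h2, h1]
        rfl
      · intro y
        have h1 := hFz (e y).1 (Sum.inr (Sum.inl y)) rfl
        rw [dup_inrl] at h1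
        exact h1
      · intro y
        have h1 := hFz (e y).2 (Sum.inr (Sum.inr y)) rfl
        rw [dup_inrr] at h1
        exact h1
      · intro g hg
        have h1 := sub_pj_mem W (dl x₀)
        rw [Submodule.mem_orthogonal'] at h1
        exact h1 g hg
      · have h1 := summable_val hcX (fun y => cu (hq T δ (e y)) (ξ y) - pj W (cu (hq T δ (e y)) (ξ y))) ?_ x₀
        · refine h1.congr fun y => ?_
          have h2 : ⟪dl x₀ - pj W (dl x₀), cu (hq T δ (e y)) (ξ y)⟫_ℂ =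
              (cu (hq T δ (e y)) (ξ y) - pj W (cu (hq T δ (e y)) (ξ y))) x₀ := by
            rw [inner_sub_left, pj_symm, inner_dl_left, inner_dl_left]
            rfl
          rw [h2]
        · intro c y
          have h2 : cu (hq T δ (e (c • y))) (ξ (c • y)) = la c (cu (hq T δ (e y)) (ξ y)) := by
            rw [hξe]
            ext x
            rw [cu_apply, la_apply, la_apply, cu_apply]
            have h3 : x ∈ hq T δ (e (c • y)) ↔ c⁻¹ • x ∈ hq T δ (e y) := by
              show δ x ∈ HT.half T (e (c • y)).2 (e (c • y)).1 ↔ δ (c⁻¹ • x) ∈ HT.half T (e y).2 (e y).1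
              have hact : HT.Acts C T := hFA.adj
              have h4 : (e (c • y)).2 = c • (e y).2 := by
                rw [map_smul]
                rfl
              have h5 : (e (c • y)).1 = c • (e y).1 := by
                rw [map_smul]
                rfl
              have h6 : δ x = c • δ (c⁻¹ • x) := by
                rw [map_smul, smul_inv_smul]
              rw [h4, h5, h6]
              exact hact.half_iff c
            by_cases h7 : x ∈ hq T δ (e (c • y))
            · rw [if_pos h7, if_pos (h3.1 h7)]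
            · rw [if_neg h7, if_neg (fun h8 => h7 (h3.2 h8))]
          show cu (hq T δ (e (c • y))) (ξ (c • y)) - pj W (cu (hq T δ (e (c • y))) (ξ (c • y))) = _
          rw [h2, pj_la hW.inv, map_sub]
    have hz : pl X Y h - pj W (pl X Y h) = 0 := by
      ext x₀
      have h1 := key x₀
      rw [inner_sub_left, pj_symm, inner_dl_left, inner_dl_left] at h1
      exact h1
    have h2 : pl X Y h = pj W (pl X Y h) := sub_eq_zero.1 hz
    show pl X Y h ∈ W
    rw [h2]
    exact hpj _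

end final

end DR

end ATY
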