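import Pool.Agent.Singer.Rank
import Pool.Agent.Singer.Compare
import Pool.Agent.Helper49.WA.Main

/-!
# Ranks over group algebras of groups acting on trees: definitions

`H` is a group acting freely and with finitely many orbits on `X` (`FC H X`), `L2 X = ℓ²(X)`.
* `la h`: translation; `Md H W`: closed invariant subspace; `vd H W`: von Neumann dimension;
* `KOp K H T`: `T` is given by an equivariant matrix with entries in `K`, with finite columns;
* `Rat K H W`: `W` is the closure of the projection of the kernel of such an operator (a rational subspace);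
* `hf`, `IsTop`: the largest subspace `Y` of a class which maximises `vd (Z ⊓ Y) - t * vd Y`;
* `Loc a W`: `W` is decomposed over the fibres of the equivariant map `a : X → Q`; `loc a q W`: the part of `W` over `q`;
* `SSP K A C`: induction from `C` to `A` preserves the maxima.
-/

set_option autoImplicit false

open scoped ComplexConjugate InnerProductSpace
open Filter Topology

namespace ATY
open Singer

/-- free action with finitely many orbits -/
class FC (H X : Type*) [Group H] [MulAction H X] : Prop where
  free : ∀ (h : H) (x : X), h • x = x → h = 1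
  fin : Finite (MulAction.orbitRel.Quotient H X)

/-- the free `H`-set `H × ι` -/
def Fr (H ι : Type*) : Type _ := H × ι

instance instFr (H ι : Type*) [Group H] : MulAction H (Fr H ι) where
  smul h x := (h * x.1, x.2)
  one_smul x := Prod.ext (one_mul x.1) rfl
  mul_smul g h x := by
    show ((g * h) * x.1, x.2) = (g * (h * x.1), x.2)
    rw [mul_assoc]

lemma fr_smul {H ι : Type*} [Group H] (h : H) (x : Fr H ι) : h • x = (h * x.1, x.2) := rfl

instance (H ι : Type*) [Group H] [Finite ι] : FC H (Fr H ι) where
  free h x hx := by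
    have h1 : h * x.1 = x.1 := congrArg Prod.fst hx
    exact mul_eq_right.1 h1
  fin := by
    refine Finite.of_surjective (fun i : ι => (Quotient.mk _ ((1 : H), i) : MulAction.orbitRel.Quotient H (Fr H ι))) ?_
    intro q
    induction q using Quotient.inductionOn with
    | h x =>
      refine ⟨x.2, Quotient.sound ?_⟩
      show (((1 : H), x.2) : Fr H ι) ∈ MulAction.orbit H x
      refine ⟨x.1⁻¹, ?_⟩
      show (x.1⁻¹ * x.1, x.2) = _
      rw [inv_mul_cancel]

/-- coordinates -/
theorem FC.exists_equiv (H X : Type*) [Group H] [MulAction H X] [hFC : FC H X] :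
    ∃ (r : ℕ) (e : X ≃ H × Fin r), ∀ (h : H) (x : X), e (h • x) = (h * (e x).1, (e x).2) := by
  classical
  have hf : Finite (MulAction.orbitRel.Quotient H X) := hFC.fin
  obtain ⟨r, ⟨e₀⟩⟩ := Finite.exists_equiv_fin (MulAction.orbitRel.Quotient H X)
  have hex : ∀ x : X, ∃ h : H, h • (Quotient.mk (MulAction.orbitRel H X) x).out = x := by
    intro x
    have h1 : (MulAction.orbitRel H X) x (Quotient.mk (MulAction.orbitRel H X) x).out :=
      @Quotient.exact X (MulAction.orbitRel H X) _ _ (Quotient.out_eq (Quotient.mk (MulAction.orbitRel H X) x)).symm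
    exact h1
  choose c hc using hex
  have huniq : ∀ (x : X) (h h' : H) (y : X), h • y = x → h' • y = x → h = h' := by
    intro x h h' y h1 h2
    have h3 : (h'⁻¹ * h) • y = y := by
      rw [mul_smul, h1, ← h2, inv_smul_smul]
    have h4 := hFC.free _ _ h3
    rw [inv_mul_eq_one] at h4
    exact h4.symm
  have hq : ∀ (h : H) (x : X), (Quotient.mk (MulAction.orbitRel H X) (h • x)) = Quotient.mk (MulAction.orbitRel H X) x := by
    intro h x
    exact Quotient.sound ⟨h, rfl⟩
  refine ⟨r, ⟨fun x => (c x, e₀ (Quotient.mk (MulAction.orbitRel H X) x)), fun p => p.1 • (e₀.symm p.2).out, ?_, ?_⟩, ?_⟩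
  · intro x
    show c x • (e₀.symm (e₀ (Quotient.mk (MulAction.orbitRel H X) x))).out = x
    rw [Equiv.symm_apply_apply]
    exact hc x
  · rintro ⟨h, i⟩
    have h1 : (Quotient.mk (MulAction.orbitRel H X) (h • (e₀.symm i).out)) = e₀.symm i := by
      rw [hq]
      exact Quotient.out_eq _
    show (c (h • (e₀.symm i).out), e₀ (Quotient.mk (MulAction.orbitRel H X) (h • (e₀.symm i).out))) = (h, i)
    have h2 := hc (h • (e₀.symm i).out)
    rw [h1] at h2
    rw [h1, Equiv.apply_symm_apply]
    exact Prod.ext (huniq _ _ _ _ h2 rfl) rfl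
  · intro h x
    show (c (h • x), e₀ (Quotient.mk (MulAction.orbitRel H X) (h • x))) =
      (h * c x, e₀ (Quotient.mk (MulAction.orbitRel H X) x))
    have h2 := hc (h • x)
    rw [hq] at h2 ⊢
    refine Prod.ext (huniq (h • x) _ _ _ h2 ?_) rfl
    show (h * c x) • (Quotient.mk (MulAction.orbitRel H X) x).out = h • x
    rw [mul_smul, hc]

section basic
variable {H X Y : Type*} [Group H] [MulAction H X] [MulAction H Y]

/-- translation -/
noncomputable def la (h : H) : L2 X →L[ℂ] L2 X := pull (fun x => h⁻¹ • x) (MulAction.injective h⁻¹)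

@[simp] lemma la_apply (h : H) (f : L2 X) (x : X) : la h f x = f (h⁻¹ • x) := rfl

open Classical in
/-- basis vector -/
noncomputable def dl (x : X) : L2 X := lp.single 2 x (1 : ℂ)

/-- closed invariant subspaces -/
structure Md (H : Type*) {X : Type*} [Group H] [MulAction H X] (W : Submodule ℂ (L2 X)) : Prop where
  inv : ∀ (h : H), ∀ f ∈ W, la h f ∈ W
  cl : IsClosed (W : Set (L2 X))

/-- operators with an equivariant matrix over `K` with finite columns -/
structure KOp (K : Subfield ℂ) (H : Type*) {X Y : Type*} [Group H] [MulAction H X] [MulAction H Y]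
    (T : L2 X →L[ℂ] L2 Y) : Prop where
  equi : ∀ (h : H) (f : L2 X), T (la h f) = la h (T f)
  fs : ∀ x, {y | T (dl x) y ≠ 0}.Finite
  val : ∀ x y, T (dl x) y ∈ K

/-- the kernel of an operator -/
noncomputable def kr {X Y : Type*} (T : L2 X →L[ℂ] L2 Y) : Submodule ℂ (L2 X) := LinearMap.ker (T : L2 X →ₗ[ℂ] L2 Y)

/-- the closure of the image -/
noncomputable def im {X Y : Type*} (T : L2 X →L[ℂ] L2 Y) (W : Submodule ℂ (L2 X)) : Submodule ℂ (L2 Y) :=
  (W.map (T : L2 X →ₗ[ℂ] L2 Y)).topologicalClosure

/-- rational subspaces: closures of the projections of the kernels of operators over `K` -/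
def Rat (K : Subfield ℂ) (H : Type*) {X : Type*} [Group H] [MulAction H X] (W : Submodule ℂ (L2 X)) : Prop :=
  ∃ (a b : ℕ) (T : L2 (X ⊕ Fr H (Fin a)) →L[ℂ] L2 (Fr H (Fin b))),
    KOp K H T ∧ W = im (pull Sum.inl Sum.inl_injective) (kr T)

end basic

section dim
variable (H : Type*) {X : Type*} [Group H] [MulAction H X] [FC H X]

/-- number of orbits -/
noncomputable def rk (X : Type*) [MulAction H X] [FC H X] : ℕ := (FC.exists_equiv H X).choose

/-- coordinates -/
noncomputable def co (X : Type*) [MulAction H X] [FC H X] : X ≃ H × Fin (rk H X) := (FC.exists_equiv H X).choose_spec.choose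

lemma co_smul (h : H) (x : X) : co H X (h • x) = (h * (co H X x).1, (co H X x).2) :=
  (FC.exists_equiv H X).choose_spec.choose_spec h x

/-- transport to `ℓ²(H × Fin r)` -/
noncomputable def tE : L2 X →L[ℂ] E H (Fin (rk H X)) := pull (co H X).symm (co H X).symm.injective

/-- the von Neumann dimension -/
noncomputable def vd (W : Submodule ℂ (L2 X)) : ℝ :=
  vdim (W.map ((tE H : L2 X →L[ℂ] E H (Fin (rk H X))) : L2 X →ₗ[ℂ] E H (Fin (rk H X))))

/-- the function which is maximised -/
noncomputable def hf (t : ℝ) (Z Y : Submodule ℂ (L2 X)) : ℝ := vd H (Z ⊓ Y) - t * vd H Y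

/-- `Y` is the largest maximum of `hf t Z` on the class `P` -/
structure IsTop (P : Submodule ℂ (L2 X) → Prop) (t : ℝ) (Z Y : Submodule ℂ (L2 X)) : Prop where
  mem : P Y
  le : ∀ Y', P Y' → hf H t Z Y' ≤ hf H t Z Y
  top : ∀ Y', P Y' → hf H t Z Y ≤ hf H t Z Y' → Y' ≤ Y

end dim

section loc
variable {G X Q : Type*} [Group G] [MulAction G X] [MulAction G Q]

open Classical in
/-- multiplication by the indicator function of `S` -/
noncomputable def cu (S : Set X) : L2 X →L[ℂ] L2 X :=
  mul (fun x => if x ∈ S then 1 else 0) (fun x => by split_ifs <;> simp)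

open Classical in
lemma cu_apply (S : Set X) (f : L2 X) (x : X) : cu S f x = if x ∈ S then f x else 0 := by
  unfold cu
  rw [mul_apply]
  split_ifs <;> simp

/-- `W` is decomposed over the fibres of `a` -/
def Loc (a : X →[G] Q) (W : Submodule ℂ (L2 X)) : Prop := ∀ q, ∀ f ∈ W, cu {x | a x = q} f ∈ W

/-- the fibre over `q` -/
def Fib (a : X →[G] Q) (q : Q) : Type _ := {x : X // a x = q}

/-- the action of the stabiliser on the fibre -/
instance fibAct (a : X →[G] Q) (q : Q) : MulAction (MulAction.stabilizer G q) (Fib a q) where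
  smul h x := ⟨(h : G) • x.1, by rw [map_smul, x.2]; exact h.2⟩
  one_smul x := Subtype.ext (one_smul G x.1)
  mul_smul g h x := Subtype.ext (mul_smul (g : G) (h : G) x.1)

lemma fib_smul (a : X →[G] Q) (q : Q) (h : MulAction.stabilizer G q) (x : Fib a q) : (h • x).1 = (h : G) • x.1 := rfl

/-- the inclusion of the fibre -/
def fi (a : X →[G] Q) (q : Q) (x : Fib a q) : X := x.1

lemma fi_inj (a : X →[G] Q) (q : Q) : Function.Injective (fi a q) := Subtype.val_injective

/-- the part of `W` over `q` -/
noncomputable def loc (a : X →[G] Q) (q : Q) (W : Submodule ℂ (L2 X)) : Submodule ℂ (L2 (Fib a q)) :=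
  W.comap (push (fi a q) (fi_inj a q) : L2 (Fib a q) →ₗ[ℂ] L2 X)

end loc

/-- `SSP K A C`: for modules induced from `C` to `A`, the largest maxima are induced -/
def SSP (K : Subfield ℂ) (A : Type) [Group A] (C : Subgroup A) : Prop :=
  ∀ (X Q : Type) [MulAction A X] [FC A X] [MulAction A Q] (a : X →[A] Q) (q : Q)
    [FC (MulAction.stabilizer A q) (Fib a q)], MulAction.stabilizer A q = C → (∀ x, a x ∈ MulAction.orbit A q) →
    ∀ (t : ℝ) (Z Y : Submodule ℂ (L2 X)), Md A Z → Loc a Z → Md A Y → Loc a Y →
    IsTop (MulAction.stabilizer A q) (Rat K (MulAction.stabilizer A q)) t (loc a q Z) (loc a q Y) →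
    IsTop A (Rat K A) t Z Y

section order
variable {α : Type*} [Lattice α]

/-- `y` is the largest maximum of `f - t d` -/
def TopAt (d f : α → ℝ) (t : ℝ) (y : α) : Prop :=
  (∀ a, f a - t * d a ≤ f y - t * d y) ∧ ∀ a, f y - t * d y ≤ f a - t * d a → a ≤ y

end order

section trees

/-- the stabiliser of a dart as a subgroup of the stabiliser of its node -/
def dst {G D P : Type} [Group G] [MulAction G D] [MulAction G P] (p : D →[G] P) (d : D) :
    Subgroup (MulAction.stabilizer G (p d)) :=
  (MulAction.stabilizer G d).subgroupOf (MulAction.stabilizer G (p d))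

/-- the darts are the edges of a forest with the nodes `P₀`, `P₁`: every dart separates -/
def Bit {G X D P₀ P₁ : Type} [Group G] [MulAction G X] [MulAction G D] [MulAction G P₀] [MulAction G P₁]
    (δ : X →[G] D) (p₀ : D →[G] P₀) (p₁ : D →[G] P₁) : Prop :=
  ∀ x₀ : X, ∃ (S₀ : Set P₀) (S₁ : Set P₁), p₀ (δ x₀) ∈ S₀ ∧ p₁ (δ x₀) ∉ S₁ ∧
    ∀ x, δ x ≠ δ x₀ → (p₀ (δ x) ∈ S₀ ↔ p₁ (δ x) ∈ S₁)

/-- unordered pairs with the action of `G` -/
def UE (V : Type) : Type := Sym2 V

/-- the unordered pair -/
def ue {V : Type} (v w : V) : UE V := s(v, w)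

instance instUE (G V : Type) [Group G] [MulAction G V] : MulAction G (UE V) where
  smul g e := Sym2.map (fun v => g • v) e
  one_smul e := by
    induction e using Sym2.inductionOn with
    | hf v w =>
      show s((1 : G) • v, (1 : G) • w) = s(v, w)
      rw [one_smul, one_smul]
  mul_smul g h e := by
    induction e using Sym2.inductionOn with
    | hf v w =>
      show s((g * h) • v, (g * h) • w) = s(g • h • v, g • h • w)
      rw [mul_smul, mul_smul]

lemma smul_ue {G V : Type} [Group G] [MulAction G V] (g : G) (v w : V) : g • ue v w = ue (g • v) (g • w) := rfl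

def tailHom (G V : Type) [Group G] [MulAction G V] : V × V →[G] V := ⟨Prod.fst, fun _ _ => rfl⟩

def edgeHom (G V : Type) [Group G] [MulAction G V] : V × V →[G] UE V := ⟨fun d => ue d.1 d.2, fun _ _ => rfl⟩

end trees

end ATY
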