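import Pool.Agent.ATY.E3b
import Pool.Agent.ATY.C
import Pool.Agent.ATY.S

/-!
# Averages over the maxima with an arbitrary module at the nodes
-/

set_option autoImplicit false

open scoped ComplexConjugate InnerProductSpace
open Filter Topology

namespace ATY
open Singer Pool.WeakAtiyah

section avg
variable {K : Subfield ℂ} {G : Type} [Group G] {X D P : Type} [MulAction G X] [FC G X] [MulAction G D] [MulAction G P]
  {n : ℕ}

/-- upper bound at the nodes -/
theorem avg_node (hn : 0 < n) (δ : X →[G] D) (p : D →[G] P)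
    (hR : ∀ x : X, RanksIn K (MulAction.stabilizer G (p (δ x))) n) (hS : ∀ x : X, SSP K _ (dst p (δ x)))
    {Z : Submodule ℂ (L2 X)} (hZ : Md G Z) (lZ : Loc δ Z) {N : ℕ} (hN : 0 < N) {Y : ℕ → Submodule ℂ (L2 X)}
    (hY : ∀ i ≤ N, Md G (Y i)) (lY : ∀ i ≤ N, Loc δ (Y i))
    (tY : ∀ i ≤ N, ∀ x : X, IsTop (MulAction.stabilizer G (δ x)) (Rat K (MulAction.stabilizer G (δ x))) ((i : ℝ) / N)
      (loc δ (δ x) Z) (loc δ (δ x) (Y i)))
    {M : Submodule ℂ (L2 X)} (hM : Md G M) (lM : Loc (p.comp δ) M)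
    (qM : ∀ x, Rat K (MulAction.stabilizer G (p (δ x))) (loc (p.comp δ) (p (δ x)) M)) :
    vd G (M ⊓ Z) ≤ (∑ i ∈ Finset.range N, vd G (M ⊓ Y i)) / N := by
  classical
  have hlp : ∀ W : Submodule ℂ (L2 X), Md G W → Loc δ W → Loc (p.comp δ) W := by
    intro W hW hl q f hf
    exact cu_mem_of_loc hW.cl hl {d | p d = q} hf
  obtain ⟨s, hs⟩ := exists_reps (p.comp δ)
  rw [hs _ (hM.inf hZ) (lM.inf (hlp Z hZ lZ))]
  have h1 : ∀ i ∈ Finset.range N, vd G (M ⊓ Y i) =
      ∑ q ∈ s, vd (MulAction.stabilizer G q) (loc (p.comp δ) q (M ⊓ Y i)) := by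
    intro i hi
    have hi' : i ≤ N := (Finset.mem_range.1 hi).le
    exact hs _ (hM.inf (hY i hi')) (lM.inf (hlp _ (hY i hi') (lY i hi')))
  rw [Finset.sum_congr rfl h1, Finset.sum_comm, Finset.sum_div]
  refine Finset.sum_le_sum fun q _ => ?_
  by_cases hq : ∃ x, p (δ x) = q
  · obtain ⟨x, rfl⟩ := hq
    have h2 := IsTop.le_avg hn (hR x) (hZ.loc (a := p.comp δ) (p (δ x))) hN
      (Y := fun i => if i ≤ N then loc (p.comp δ) (p (δ x)) (Y i) else ⊤)
      (fun i hi => by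
        rw [if_pos hi]
        exact node hn δ p hR hS ((i : ℝ) / N) hZ lZ (hY i hi) (lY i hi) (tY i hi) x) (qM x)
    refine h2.trans (le_of_eq ?_)
    congr 1
    refine Finset.sum_congr rfl fun i hi => ?_
    rw [if_pos (Finset.mem_range.1 hi).le]
    rfl
  · have h2 : ∀ W : Submodule ℂ (L2 X), vd (MulAction.stabilizer G q) (loc (p.comp δ) q W) = 0 := by
      intro W
      have h4 : loc (p.comp δ) q W = ⊥ := by
        rw [eq_bot_iff]
        intro f _
        rw [Submodule.mem_bot]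
        ext x
        exact absurd ⟨x.1, x.2⟩ hq
      rw [h4, vd_bot]
    rw [h2, Finset.sum_congr rfl fun i _ => h2 (M ⊓ Y i), Finset.sum_const_zero, zero_div]

/-- lower bound at the darts -/
theorem avg_dart (hn : 0 < n) (δ : X →[G] D) (hR : ∀ x : X, RanksIn K (MulAction.stabilizer G (δ x)) n)
    {Z : Submodule ℂ (L2 X)} (hZ : Md G Z) (lZ : Loc δ Z) {N : ℕ} (hN : 0 < N) {Y : ℕ → Submodule ℂ (L2 X)}
    (hY : ∀ i ≤ N, Md G (Y i)) (lY : ∀ i ≤ N, Loc δ (Y i))
    (tY : ∀ i ≤ N, ∀ x : X, IsTop (MulAction.stabilizer G (δ x)) (Rat K (MulAction.stabilizer G (δ x))) ((i : ℝ) / N)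
      (loc δ (δ x) Z) (loc δ (δ x) (Y i))) :
    (∑ i ∈ Finset.range N, vd G (Y (i + 1))) / N ≤ vd G Z := by
  classical
  obtain ⟨s, hs⟩ := exists_reps δ
  rw [hs _ hZ lZ]
  have h1 : ∀ i ∈ Finset.range N, vd G (Y (i + 1)) =
      ∑ q ∈ s, vd (MulAction.stabilizer G q) (loc δ q (Y (i + 1))) := by
    intro i hi
    have hi' : i + 1 ≤ N := Finset.mem_range.1 hi
    exact hs _ (hY _ hi') (lY _ hi')
  rw [Finset.sum_congr rfl h1, Finset.sum_comm, Finset.sum_div]
  refine Finset.sum_le_sum fun q _ => ?_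
  by_cases hq : ∃ x, δ x = q
  · obtain ⟨x, rfl⟩ := hq
    have h2 := IsTop.avg_le hn (hR x) (hZ.loc (a := δ) (δ x)) hN
      (Y := fun i => if i ≤ N then loc δ (δ x) (Y i) else ⊤)
      (fun i hi => by
        rw [if_pos hi]
        exact tY i hi x)
    refine le_trans (le_of_eq ?_) h2
    congr 1
    refine Finset.sum_congr rfl fun i hi => ?_
    rw [if_pos (show i + 1 ≤ N from Finset.mem_range.1 hi)]
  · have h2 : ∀ W : Submodule ℂ (L2 X), vd (MulAction.stabilizer G q) (loc δ q W) = 0 := by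
      intro W
      have h4 : loc δ q W = ⊥ := by
        rw [eq_bot_iff]
        intro f _
        rw [Submodule.mem_bot]
        ext x
        exact absurd ⟨x.1, x.2⟩ hq
      rw [h4, vd_bot]
    rw [h2, Finset.sum_congr rfl fun i _ => h2 (Y (i + 1)), Finset.sum_const_zero, zero_div]

end avg

section sm
variable {K : Subfield ℂ} {H : Type} [Group H] {X Y : Type} [MulAction H X] [MulAction H Y]

/-- direct sums -/
noncomputable def sm (A : Submodule ℂ (L2 X)) (B : Submodule ℂ (L2 Y)) : Submodule ℂ (L2 (X ⊕ Y)) :=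
  A.comap (pl X Y : L2 (X ⊕ Y) →ₗ[ℂ] L2 X) ⊓ B.comap (pr X Y : L2 (X ⊕ Y) →ₗ[ℂ] L2 Y)

lemma mem_sm {A : Submodule ℂ (L2 X)} {B : Submodule ℂ (L2 Y)} {f : L2 (X ⊕ Y)} :
    f ∈ sm A B ↔ pl X Y f ∈ A ∧ pr X Y f ∈ B := Iff.rfl

lemma sm_inf (A A' : Submodule ℂ (L2 X)) (B B' : Submodule ℂ (L2 Y)) : sm A B ⊓ sm A' B' = sm (A ⊓ A') (B ⊓ B') := by
  ext f
  constructor
  · rintro ⟨⟨h1, h2⟩, ⟨h3, h4⟩⟩
    exact ⟨⟨h1, h3⟩, ⟨h2, h4⟩⟩
  · rintro ⟨⟨h1, h3⟩, ⟨h2, h4⟩⟩
    exact ⟨⟨h1, h2⟩, ⟨h3, h4⟩⟩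

lemma sm_mono {A A' : Submodule ℂ (L2 X)} {B B' : Submodule ℂ (L2 Y)} (h : A ≤ A') (h' : B ≤ B') : sm A B ≤ sm A' B' :=
  fun _ hf => ⟨h hf.1, h' hf.2⟩

lemma md_sm {A : Submodule ℂ (L2 X)} {B : Submodule ℂ (L2 Y)} (hA : Md H A) (hB : Md H B) : Md H (sm A B) :=
  Md.inf (Md.comap (kop_pl (K := ⊤)).equi hA) (Md.comap (kop_pr (K := ⊤)).equi hB)

lemma vd_sm [FC H X] [FC H Y] {A : Submodule ℂ (L2 X)} {B : Submodule ℂ (L2 Y)} (hA : Md H A) (hB : Md H B) :
    vd H (sm A B) = vd H A + vd H B := by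
  have h1 := vd_im_add (kop_pl (K := ⊤) (X := X) (Y := Y)).equi (md_sm hA hB)
  have h2 := vd_im_add (kop_pr (K := ⊤) (X := X) (Y := Y)).equi (md_sm (H := H) (X := X) md_bot hB)
  have e1 : im (pl X Y) (sm A B) = A := by
    apply le_antisymm
    · exact im_le hA.cl fun f hf => hf.1
    · intro f hf
      refine map_le_im ⟨il X Y f, ⟨?_, ?_⟩, pl_il f⟩
      · show pl X Y (il X Y f) ∈ A
        rwa [pl_il]
      · show pr X Y (il X Y f) ∈ B
        rw [pr_il]
        exact B.zero_mem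
  have e2 : sm A B ⊓ kr (pl X Y) = sm ⊥ B := by
    ext f
    constructor
    · rintro ⟨⟨_, h3⟩, h4⟩
      exact ⟨(Submodule.mem_bot ℂ).2 h4, h3⟩
    · rintro ⟨h3, h4⟩
      have h3' : pl X Y f = 0 := (Submodule.mem_bot ℂ).1 h3
      refine ⟨⟨?_, h4⟩, h3'⟩
      show pl X Y f ∈ A
      rw [h3']
      exact A.zero_mem
  have e3 : im (pr X Y) (sm ⊥ B) = B := by
    apply le_antisymm
    · exact im_le hB.cl fun f hf => hf.2
    · intro f hf
      refine map_le_im ⟨ir X Y f, ⟨?_, ?_⟩, pr_ir f⟩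
      · show pl X Y (ir X Y f) ∈ (⊥ : Submodule ℂ (L2 X))
        rw [pl_ir]
        exact Submodule.zero_mem _
      · show pr X Y (ir X Y f) ∈ B
        rwa [pr_ir]
  have e4 : sm ⊥ B ⊓ kr (pr X Y) = ⊥ := by
    rw [eq_bot_iff]
    rintro f ⟨⟨h3, _⟩, h4⟩
    have h3' : pl X Y f = 0 := (Submodule.mem_bot ℂ).1 h3
    have h4' : pr X Y f = 0 := h4
    rw [Submodule.mem_bot]
    apply pl_pr_ext
    · rw [h3', map_zero]
    · rw [h4', map_zero]
  rw [e1, e2] at h1
  rw [e3, e4, vd_bot, add_zero] at h2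
  linarith

end sm

section pend
variable {K : Subfield ℂ} {G : Type} [Group G] {X X' D P : Type} [MulAction G X] [FC G X] [MulAction G X'] [FC G X']
  [MulAction G D] [MulAction G P]

/-- darts together with pendant darts -/
def dsum (δ : X →[G] D) (a : X' →[G] P) : X ⊕ X' →[G] D ⊕ P where
  toFun := Sum.map δ a
  map_smul' g x := by
    rcases x with x | x
    · exact congrArg Sum.inl (map_smul δ g x)
    · exact congrArg Sum.inr (map_smul a g x)

/-- nodes of darts and pendant darts -/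
def psum (p : D →[G] P) : D ⊕ P →[G] P where
  toFun := Sum.elim p id
  map_smul' g x := by
    rcases x with x | x
    · exact map_smul p g x
    · rfl

/-- leaves -/
def lsum {P₁ : Type} [MulAction G P₁] (p : D →[G] P₁) : D ⊕ P →[G] P₁ ⊕ P where
  toFun := Sum.map p id
  map_smul' g x := by
    rcases x with x | x
    · exact congrArg Sum.inl (map_smul p g x)
    · rfl

lemma stab_inl (d : D) : MulAction.stabilizer G (Sum.inl d : D ⊕ P) = MulAction.stabilizer G d := by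
  ext g
  rw [MulAction.mem_stabilizer_iff, MulAction.mem_stabilizer_iff]
  exact ⟨fun h => Sum.inl.inj h, fun h => congrArg Sum.inl h⟩

lemma stab_inr (q : P) : MulAction.stabilizer G (Sum.inr q : D ⊕ P) = MulAction.stabilizer G q := by
  ext g
  rw [MulAction.mem_stabilizer_iff, MulAction.mem_stabilizer_iff]
  exact ⟨fun h => Sum.inr.inj h, fun h => congrArg Sum.inr h⟩

/-- the fibre over a dart -/
def fibInl (δ : X →[G] D) (a : X' →[G] P) (d : D) : Fib δ d ≃ Fib (dsum δ a) (Sum.inl d) where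
  toFun x := ⟨Sum.inl x.1, congrArg Sum.inl x.2⟩
  invFun x := match x with
    | ⟨Sum.inl y, h⟩ => ⟨y, Sum.inl.inj h⟩
    | ⟨Sum.inr _, h⟩ => (Sum.inr_ne_inl h).elim
  left_inv x := rfl
  right_inv x := by
    rcases x with ⟨y | y, h⟩
    · rfl
    · exact (Sum.inr_ne_inl h).elim

/-- the fibre over a pendant dart -/
def fibInr (δ : X →[G] D) (a : X' →[G] P) (q : P) : Fib a q ≃ Fib (dsum δ a) (Sum.inr q) where
  toFun x := ⟨Sum.inr x.1, congrArg Sum.inr x.2⟩
  invFun x := match x with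
    | ⟨Sum.inr y, h⟩ => ⟨y, Sum.inr.inj h⟩
    | ⟨Sum.inl _, h⟩ => (Sum.inl_ne_inr h).elim
  left_inv x := rfl
  right_inv x := by
    rcases x with ⟨y | y, h⟩
    · exact (Sum.inl_ne_inr h).elim
    · rfl

lemma loc_inl (δ : X →[G] D) (a : X' →[G] P) (d : D) (A : Submodule ℂ (L2 X)) (B : Submodule ℂ (L2 X')) :
    (loc δ d A).map (push (fibInl δ a d) (fibInl δ a d).injective :
      L2 (Fib δ d) →ₗ[ℂ] L2 (Fib (dsum δ a) (Sum.inl d))) = loc (dsum δ a) (Sum.inl d) (sm A B) := by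
  ext f
  rw [mem_map_push, mem_loc, mem_loc, mem_sm]
  have h1 : pl X X' (push (fi (dsum δ a) (Sum.inl d)) (fi_inj _ _) f) =
      push (fi δ d) (fi_inj δ d) (pull (fibInl δ a d) (fibInl δ a d).injective f) := by
    ext x
    show push (fi (dsum δ a) (Sum.inl d)) (fi_inj _ _) f (Sum.inl x) = _
    by_cases hx : δ x = d
    · have h2 := push_apply (fi (dsum δ a) (Sum.inl d)) (fi_inj _ _) f (fibInl δ a d ⟨x, hx⟩)
      have h3 := push_apply (fi δ d) (fi_inj δ d) (pull (fibInl δ a d) (fibInl δ a d).injective f) ⟨x, hx⟩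
      exact h2.trans h3.symm
    · rw [push_apply_of_notMem, push_apply_of_notMem]
      · rintro ⟨y, rfl⟩
        exact hx y.2
      · rintro ⟨y, hy⟩
        have h2 : dsum δ a (Sum.inl x) = Sum.inl d := by
          rw [← hy]
          exact y.2
        exact hx (Sum.inl.inj h2)
  have h2 : pr X X' (push (fi (dsum δ a) (Sum.inl d)) (fi_inj _ _) f) = 0 := by
    ext x
    show push (fi (dsum δ a) (Sum.inl d)) (fi_inj _ _) f (Sum.inr x) = 0
    rw [push_apply_of_notMem]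
    rintro ⟨y, hy⟩
    have h2 : dsum δ a (Sum.inr x) = Sum.inl d := by
      rw [← hy]
      exact y.2
    exact Sum.inr_ne_inl h2
  rw [h1, h2]
  exact ⟨fun h => ⟨h, B.zero_mem⟩, fun h => h.1⟩

lemma loc_inr (δ : X →[G] D) (a : X' →[G] P) (q : P) (A : Submodule ℂ (L2 X)) (B : Submodule ℂ (L2 X')) :
    (loc a q B).map (push (fibInr δ a q) (fibInr δ a q).injective :
      L2 (Fib a q) →ₗ[ℂ] L2 (Fib (dsum δ a) (Sum.inr q))) = loc (dsum δ a) (Sum.inr q) (sm A B) := by
  ext f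
  rw [mem_map_push, mem_loc, mem_loc, mem_sm]
  have h1 : pr X X' (push (fi (dsum δ a) (Sum.inr q)) (fi_inj _ _) f) =
      push (fi a q) (fi_inj a q) (pull (fibInr δ a q) (fibInr δ a q).injective f) := by
    ext x
    show push (fi (dsum δ a) (Sum.inr q)) (fi_inj _ _) f (Sum.inr x) = _
    by_cases hx : a x = q
    · have h2 := push_apply (fi (dsum δ a) (Sum.inr q)) (fi_inj _ _) f (fibInr δ a q ⟨x, hx⟩)
      have h3 := push_apply (fi a q) (fi_inj a q) (pull (fibInr δ a q) (fibInr δ a q).injective f) ⟨x, hx⟩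
      exact h2.trans h3.symm
    · rw [push_apply_of_notMem, push_apply_of_notMem]
      · rintro ⟨y, rfl⟩
        exact hx y.2
      · rintro ⟨y, hy⟩
        have h2 : dsum δ a (Sum.inr x) = Sum.inr q := by
          rw [← hy]
          exact y.2
        exact hx (Sum.inr.inj h2)
  have h2 : pl X X' (push (fi (dsum δ a) (Sum.inr q)) (fi_inj _ _) f) = 0 := by
    ext x
    show push (fi (dsum δ a) (Sum.inr q)) (fi_inj _ _) f (Sum.inl x) = 0
    rw [push_apply_of_notMem]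
    rintro ⟨y, hy⟩
    have h2 : dsum δ a (Sum.inl x) = Sum.inr q := by
      rw [← hy]
      exact y.2
    exact Sum.inl_ne_inr h2
  rw [h1, h2]
  exact ⟨fun h => ⟨A.zero_mem, h⟩, fun h => h.2⟩

/-- maxima of direct sums over the darts and pendant darts -/
lemma isTop_dsum {δ : X →[G] D} {a : X' →[G] P} {t : ℝ} {A A' : Submodule ℂ (L2 X)} {B B' : Submodule ℂ (L2 X')}
    (hA : Md G A) (hB : Md G B)
    (h : ∀ x, IsTop (MulAction.stabilizer G (δ x)) (Rat K (MulAction.stabilizer G (δ x))) t (loc δ (δ x) A)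
      (loc δ (δ x) A'))
    (h' : ∀ x, IsTop (MulAction.stabilizer G (a x)) (Rat K (MulAction.stabilizer G (a x))) t (loc a (a x) B)
      (loc a (a x) B')) (y : X ⊕ X') :
    IsTop (MulAction.stabilizer G (dsum δ a y)) (Rat K (MulAction.stabilizer G (dsum δ a y))) t
      (loc (dsum δ a) (dsum δ a y) (sm A B)) (loc (dsum δ a) (dsum δ a y) (sm A' B')) := by
  rcases y with x | x
  · have h1 := IsTop.equiv (MulEquiv.subgroupCongr (stab_inl (G := G) (P := P) (δ x)).symm) (fibInl δ a (δ x))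
      (fun _ _ => rfl) (hA.loc (δ x)) (h x)
    rw [loc_inl δ a (δ x) A B, loc_inl δ a (δ x) A' B'] at h1
    exact h1
  · have h1 := IsTop.equiv (MulEquiv.subgroupCongr (stab_inr (G := G) (D := D) (a x)).symm) (fibInr δ a (a x))
      (fun _ _ => rfl) (hB.loc (a x)) (h' x)
    rw [loc_inr δ a (a x) A B, loc_inr δ a (a x) A' B'] at h1
    exact h1

lemma loc_dsum {δ : X →[G] D} {a : X' →[G] P} {A : Submodule ℂ (L2 X)} {B : Submodule ℂ (L2 X')}
    (lA : Loc δ A) (lB : Loc a B) : Loc (dsum δ a) (sm A B) := by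
  classical
  intro q f hf
  rcases q with d | q
  · constructor
    · show pl X X' (cu {x | dsum δ a x = Sum.inl d} f) ∈ A
      have h1 : pl X X' (cu {x | dsum δ a x = Sum.inl d} f) = cu {x | δ x = d} (pl X X' f) := by
        ext x
        show cu {x | dsum δ a x = Sum.inl d} f (Sum.inl x) = _
        rw [cu_apply, cu_apply]
        have h2 : (Sum.inl x ∈ {x | dsum δ a x = Sum.inl d}) ↔ x ∈ {x | δ x = d} :=
          ⟨fun h => Sum.inl.inj h, fun h => congrArg Sum.inl h⟩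
        by_cases h3 : x ∈ {x | δ x = d}
        · rw [if_pos h3, if_pos (h2.2 h3)]
          rfl
        · rw [if_neg h3, if_neg fun h => h3 (h2.1 h)]
      rw [h1]
      exact lA d _ hf.1
    · show pr X X' (cu {x | dsum δ a x = Sum.inl d} f) ∈ B
      have h1 : pr X X' (cu {x | dsum δ a x = Sum.inl d} f) = 0 := by
        ext x
        show cu {x | dsum δ a x = Sum.inl d} f (Sum.inr x) = 0
        rw [cu_apply, if_neg]
        intro h
        exact Sum.inr_ne_inl h
      rw [h1]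
      exact B.zero_mem
  · constructor
    · show pl X X' (cu {x | dsum δ a x = Sum.inr q} f) ∈ A
      have h1 : pl X X' (cu {x | dsum δ a x = Sum.inr q} f) = 0 := by
        ext x
        show cu {x | dsum δ a x = Sum.inr q} f (Sum.inl x) = 0
        rw [cu_apply, if_neg]
        intro h
        exact Sum.inl_ne_inr h
      rw [h1]
      exact A.zero_mem
    · show pr X X' (cu {x | dsum δ a x = Sum.inr q} f) ∈ B
      have h1 : pr X X' (cu {x | dsum δ a x = Sum.inr q} f) = cu {x | a x = q} (pr X X' f) := by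
        ext x
        show cu {x | dsum δ a x = Sum.inr q} f (Sum.inr x) = _
        rw [cu_apply, cu_apply]
        have h2 : (Sum.inr x ∈ {x | dsum δ a x = Sum.inr q}) ↔ x ∈ {x | a x = q} :=
          ⟨fun h => Sum.inr.inj h, fun h => congrArg Sum.inr h⟩
        by_cases h3 : x ∈ {x | a x = q}
        · rw [if_pos h3, if_pos (h2.2 h3)]
          rfl
        · rw [if_neg h3, if_neg fun h => h3 (h2.1 h)]
      rw [h1]
      exact lB q _ hf.2

/-- local subspaces are direct sums -/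
lemma eq_sm_of_loc {δ : X →[G] D} {a : X' →[G] P} {W : Submodule ℂ (L2 (X ⊕ X'))} (hW : Md G W)
    (lW : Loc (dsum δ a) W) : W = sm (W.comap (il X X' : L2 X →ₗ[ℂ] L2 (X ⊕ X')))
      (W.comap (ir X X' : L2 X' →ₗ[ℂ] L2 (X ⊕ X'))) := by
  classical
  have h1 : ∀ f ∈ W, il X X' (pl X X' f) ∈ W := by
    intro f hf
    have h2 := cu_mem_of_loc hW.cl lW {q | ∃ d, q = Sum.inl d} hf
    have h3 : cu {x | dsum δ a x ∈ {q | ∃ d, q = Sum.inl d}} f = il X X' (pl X X' f) := by
      apply pl_pr_ext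
      · rw [pl_il]
        ext x
        show cu {x | dsum δ a x ∈ {q | ∃ d, q = Sum.inl d}} f (Sum.inl x) = f (Sum.inl x)
        rw [cu_apply, if_pos]
        exact ⟨δ x, rfl⟩
      · rw [pr_il]
        ext x
        show cu {x | dsum δ a x ∈ {q | ∃ d, q = Sum.inl d}} f (Sum.inr x) = 0
        rw [cu_apply, if_neg]
        rintro ⟨d, hd⟩
        exact Sum.inr_ne_inl hd
    rwa [h3] at h2
  ext f
  constructor
  · intro hf
    refine ⟨h1 f hf, ?_⟩
    show ir X X' (pr X X' f) ∈ W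
    have h2 : ir X X' (pr X X' f) = f - il X X' (pl X X' f) := by
      rw [eq_sub_iff_add_eq, add_comm]
      exact il_add_ir f
    rw [h2]
    exact W.sub_mem hf (h1 f hf)
  · rintro ⟨h2, h3⟩
    rw [← il_add_ir f]
    exact W.add_mem h2 h3

end pend

end ATY
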