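import Pool.Agent.ATY.E3c

/-!
# Averages over the maxima with an arbitrary module at the nodes: the forest inequality
-/

set_option autoImplicit false

open scoped ComplexConjugate InnerProductSpace
open Filter Topology

namespace ATY
open Singer Pool.WeakAtiyah

section bit
variable {K : Subfield ℂ} {G : Type} [Group G] {X X' D P₀ P₁ : Type} [MulAction G X] [FC G X] [MulAction G X']
  [FC G X'] [MulAction G D] [MulAction G P₀] [MulAction G P₁] {n : ℕ}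

lemma bit_plus {δ : X →[G] D} {p₀ : D →[G] P₀} {p₁ : D →[G] P₁} (hB : Bit δ p₀ p₁) (a : X' →[G] P₀) :
    Bit (dsum δ a) (psum p₀) (lsum (P := P₀) p₁) := by
  intro x₀
  rcases x₀ with x₀ | x₀
  · obtain ⟨S₀, S₁, h1, h2, h3⟩ := hB x₀
    refine ⟨S₀, {y | Sum.elim (fun b => b ∈ S₁) (fun q => q ∈ S₀) y}, h1, h2, fun y hy => ?_⟩
    rcases y with y | y
    · exact h3 y fun h => hy (congrArg Sum.inl h)
    · exact Iff.rfl
  · refine ⟨Set.univ, {y | y ≠ Sum.inr (a x₀)}, trivial, fun h => h rfl, fun y hy => ?_⟩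
    rcases y with y | y
    · exact ⟨fun _ => Sum.inl_ne_inr, fun _ => trivial⟩
    · exact ⟨fun _ h => hy (congrArg Sum.inr (Sum.inr.inj h)), fun _ => trivial⟩

lemma lsum_comp_dsum (δ : X →[G] D) (p₁ : D →[G] P₁) (a : X' →[G] P₀) :
    (lsum (P := P₀) p₁).comp (dsum δ a) = dsum (p₁.comp δ) a := by
  ext x
  rcases x with x | x <;> rfl

/-- **the forest inequality with an arbitrary module at the nodes** -/
theorem bit_avg (hn : 0 < n) {δ : X →[G] D} {p₀ : D →[G] P₀} {p₁ : D →[G] P₁} (hB : Bit δ p₀ p₁)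
    (r₀ : ∀ x, RanksIn K (MulAction.stabilizer G (p₀ (δ x))) n)
    (r₁ : ∀ x, RanksIn K (MulAction.stabilizer G (p₁ (δ x))) n)
    (s₀ : ∀ x, SSP K _ (dst p₀ (δ x))) (s₁ : ∀ x, SSP K _ (dst p₁ (δ x)))
    (a : X' →[G] P₀) (ra : ∀ x, RanksIn K (MulAction.stabilizer G (a x)) n)
    {L : Submodule ℂ (L2 (X ⊕ X'))} {M₁ : Submodule ℂ (L2 X)} (hL : Md G L) (h₁ : Md G M₁)
    (lL : Loc ((psum p₀).comp (dsum δ a)) L) (l₁ : Loc (p₁.comp δ) M₁)
    (qL : ∀ x, Rat K (MulAction.stabilizer G (psum p₀ (dsum δ a x)))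
      (loc ((psum p₀).comp (dsum δ a)) (psum p₀ (dsum δ a x)) L))
    (q₁ : ∀ x, Rat K (MulAction.stabilizer G (p₁ (δ x))) (loc (p₁.comp δ) (p₁ (δ x)) M₁))
    {Z : Submodule ℂ (L2 X')} (hZ : Md G Z) (lZ : Loc a Z) {N : ℕ} (hN : 0 < N) {Y : ℕ → Submodule ℂ (L2 X')}
    (hY : ∀ i ≤ N, Md G (Y i)) (lY : ∀ i ≤ N, Loc a (Y i))
    (tY : ∀ i ≤ N, ∀ x : X', IsTop (MulAction.stabilizer G (a x)) (Rat K (MulAction.stabilizer G (a x))) ((i : ℝ) / N)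
      (loc a (a x) Z) (loc a (a x) (Y i))) :
    vd G (L ⊓ sm M₁ Z) ≤ (∑ i ∈ Finset.range N, vd G (L ⊓ sm M₁ (Y i))) / N + rk G X / N := by
  classical
  have hN' : (0 : ℝ) < N := by exact_mod_cast hN
  -- the cut
  have l₁' : Loc ((lsum (P := P₀) p₁).comp (dsum δ a)) (sm M₁ Z) := by
    rw [lsum_comp_dsum]
    exact loc_dsum l₁ lZ
  obtain ⟨Z', hZ', lZ', hcut⟩ := cut_formula (bit_plus hB a) hL (md_sm h₁ hZ) lL l₁'
  set Z₁ := Z'.comap (il X X' : L2 X →ₗ[ℂ] L2 (X ⊕ X')) with hZ₁d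
  set Z₂ := Z'.comap (ir X X' : L2 X' →ₗ[ℂ] L2 (X ⊕ X')) with hZ₂d
  have hsm : Z' = sm Z₁ Z₂ := eq_sm_of_loc hZ' lZ'
  have hZ₁ : Md G Z₁ := Md.comap (kop_il (K := ⊤)).equi hZ'
  have hZ₂ : Md G Z₂ := Md.comap (kop_ir (K := ⊤)).equi hZ'
  have lZ₁ : Loc δ Z₁ := by
    intro d f hf
    have h1 := lZ' (Sum.inl d) _ (show il X X' f ∈ Z' from hf)
    have h2 : cu {x | dsum δ a x = Sum.inl d} (il X X' f) = il X X' (cu {x | δ x = d} f) := by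
      apply pl_pr_ext
      · rw [pl_il]
        ext x
        show cu {x | dsum δ a x = Sum.inl d} (il X X' f) (Sum.inl x) = _
        rw [cu_apply, cu_apply]
        have h3 : il X X' f (Sum.inl x) = f x := congrArg (fun u : L2 X => u x) (pl_il (Y := X') f)
        have h2 : (Sum.inl x ∈ {x | dsum δ a x = Sum.inl d}) ↔ x ∈ {x | δ x = d} :=
          ⟨fun h => Sum.inl.inj h, fun h => congrArg Sum.inl h⟩
        by_cases h4 : x ∈ {x | δ x = d}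
        · rw [if_pos h4, if_pos (h2.2 h4), h3]
        · rw [if_neg h4, if_neg fun h => h4 (h2.1 h)]
      · rw [pr_il]
        ext x
        show cu {x | dsum δ a x = Sum.inl d} (il X X' f) (Sum.inr x) = 0
        rw [cu_apply, if_neg]
        intro h
        exact Sum.inr_ne_inl h
    rw [h2] at h1
    exact h1
  rw [hsm, sm_inf] at hcut
  rw [vd_sm (h₁.inf hZ₁) (hZ.inf hZ₂), vd_sm hZ₁ hZ₂] at hcut
  -- replace `Z₂` by `Z`
  have hrep : vd G (L ⊓ sm Z₁ Z₂) ≤ vd G (L ⊓ sm Z₁ Z) + vd G Z₂ - vd G (Z ⊓ Z₂) := by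
    have h1 := vd_sup_add_inf (hL.inf (md_sm hZ₁ hZ₂)) (md_sm hZ₁ (hZ.inf hZ₂))
    have h2 : vd G (L ⊓ sm Z₁ Z₂ ⊔ sm Z₁ (Z ⊓ Z₂)).topologicalClosure ≤ vd G (sm Z₁ Z₂) := vd_mono (by
      refine Submodule.topologicalClosure_minimal _ (sup_le inf_le_right ?_) (md_sm (H := G) hZ₁ hZ₂).cl
      exact sm_mono le_rfl inf_le_right)
    have h3 : vd G (L ⊓ sm Z₁ Z₂ ⊓ sm Z₁ (Z ⊓ Z₂)) ≤ vd G (L ⊓ sm Z₁ Z) := vd_mono (by
      rintro f ⟨⟨h4, _⟩, h5⟩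
      exact ⟨h4, h5.1, h5.2.1⟩)
    rw [vd_sm hZ₁ hZ₂] at h2
    rw [vd_sm hZ₁ (hZ.inf hZ₂)] at h1
    linarith
  -- the maxima of `Z₁`
  have rδ : ∀ x, RanksIn K (MulAction.stabilizer G (δ x)) n := by
    intro x
    have hle : MulAction.stabilizer G (δ x) ≤ MulAction.stabilizer G (p₀ (δ x)) := by
      intro g hg
      rw [MulAction.mem_stabilizer_iff] at hg ⊢
      rw [← map_smul, hg]
    exact ranksIn_of_injective (Subgroup.inclusion hle) (Subgroup.inclusion_injective hle) (r₀ x)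
  choose Y₁ hY₁ lY₁ tY₁ using fun i : ℕ => exists_family (K := K) hn δ rδ ((i : ℝ) / N) hZ₁
  -- the node side `p₀`
  have hS₀ : ∀ y : X ⊕ X', SSP K _ (dst (psum p₀) (dsum δ a y)) := by
    intro y
    rcases y with x | x
    · have h1 : dst (psum p₀) (dsum δ a (Sum.inl x)) = dst p₀ (δ x) := by
        ext g
        show (g : G) ∈ MulAction.stabilizer G (Sum.inl (δ x) : D ⊕ P₀) ↔ (g : G) ∈ MulAction.stabilizer G (δ x)
        rw [stab_inl]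
      rw [h1]
      exact s₀ x
    · have h1 : dst (psum p₀) (dsum δ a (Sum.inr x)) = ⊤ := by
        ext g
        show (g : G) ∈ MulAction.stabilizer G (Sum.inr (a x) : D ⊕ P₀) ↔ g ∈ (⊤ : Subgroup _)
        rw [stab_inr]
        exact ⟨fun _ => trivial, fun _ => g.2⟩
      rw [h1]
      exact ssp_of_finiteIndex hn (ra x) ⊤
  have hR₀ : ∀ y : X ⊕ X', RanksIn K (MulAction.stabilizer G (psum p₀ (dsum δ a y))) n := by
    intro y
    rcases y with x | x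
    · exact r₀ x
    · exact ra x
  have key₀ := avg_node hn (dsum δ a) (psum p₀) hR₀ hS₀ (md_sm hZ₁ hZ) (loc_dsum lZ₁ lZ) hN
    (Y := fun i => sm (Y₁ i) (Y i)) (fun i hi => md_sm (hY₁ i) (hY i hi)) (fun i hi => loc_dsum (lY₁ i) (lY i hi))
    (fun i hi => isTop_dsum hZ₁ hZ (tY₁ i) (tY i hi)) hL lL qL
  have key₁ := avg_node hn δ p₁ r₁ s₁ hZ₁ lZ₁ hN (Y := Y₁) (fun i _ => hY₁ i) (fun i _ => lY₁ i) (fun i _ => tY₁ i)
    h₁ l₁ q₁
  have keyd := avg_dart hn δ rδ hZ₁ lZ₁ hN (Y := Y₁) (fun i _ => hY₁ i) (fun i _ => lY₁ i) (fun i _ => tY₁ i)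
  -- the trivial half of the cut formula
  have hlow : ∀ i < N, vd G (L ⊓ sm (Y₁ i) (Y i)) + vd G (M₁ ⊓ Y₁ i) - vd G (Y₁ i) ≤ vd G (L ⊓ sm M₁ (Y i)) := by
    intro i hi
    have h1 := cut_le (G := G) hL (md_sm h₁ (hY i hi.le)) (md_sm (hY₁ i) (hY i hi.le))
    rw [sm_inf, inf_idem, vd_sm (h₁.inf (hY₁ i)) (hY i hi.le), vd_sm (hY₁ i) (hY i hi.le)] at h1
    linarith
  have hsum : ∑ i ∈ Finset.range N, (vd G (L ⊓ sm (Y₁ i) (Y i)) + vd G (M₁ ⊓ Y₁ i) - vd G (Y₁ i)) ≤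
      ∑ i ∈ Finset.range N, vd G (L ⊓ sm M₁ (Y i)) :=
    Finset.sum_le_sum fun i hi => hlow i (Finset.mem_range.1 hi)
  rw [Finset.sum_sub_distrib, Finset.sum_add_distrib] at hsum
  have hshift : ∑ i ∈ Finset.range N, vd G (Y₁ i) ≤ ∑ i ∈ Finset.range N, vd G (Y₁ (i + 1)) + rk G X := by
    have h1 := Finset.sum_range_succ (fun i => vd G (Y₁ i)) N
    have h2 := Finset.sum_range_succ' (fun i => vd G (Y₁ i)) N
    have h3 : vd G (Y₁ 0) ≤ rk G X := by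
      rw [← vd_top (H := G) (X := X)]
      exact vd_mono le_top
    have h4 := vd_nonneg (H := G) (Y₁ N)
    linarith
  have hkey₀ : vd G (L ⊓ sm Z₁ Z) * N ≤ ∑ i ∈ Finset.range N, vd G (L ⊓ sm (Y₁ i) (Y i)) := by
    rwa [le_div_iff₀ hN'] at key₀
  have hkey₁ : vd G (M₁ ⊓ Z₁) * N ≤ ∑ i ∈ Finset.range N, vd G (M₁ ⊓ Y₁ i) := by
    rwa [le_div_iff₀ hN'] at key₁
  have hkeyd : ∑ i ∈ Finset.range N, vd G (Y₁ (i + 1)) ≤ vd G Z₁ * N := by
    rwa [div_le_iff₀ hN'] at keyd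
  have hfin : vd G (L ⊓ sm M₁ Z) ≤ vd G (L ⊓ sm Z₁ Z) + vd G (M₁ ⊓ Z₁) - vd G Z₁ := by linarith
  rw [← add_div, le_div_iff₀ hN']
  have h9 := mul_le_mul_of_nonneg_right hfin hN'.le
  rw [sub_mul, add_mul] at h9
  linarith

end bit

end ATY
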