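import Pool.Agent.ATY.R2
import Pool.Agent.ATY.A2

/-!
# Row L: kernels of local operators; linearisation

* `kr_loc`: the kernel of a local operator over `K` is decomposed, with rational parts;
* `linearise`: the kernel of a matrix over `K[G]` as the intersection of two local kernels, for a group which acts on a tree.
-/

set_option autoImplicit false
set_option linter.unusedSectionVars false
set_option linter.unusedVariables false

open scoped ComplexConjugate InnerProductSpace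
open Filter Topology

namespace ATY
open Singer Pool.WeakAtiyah

/-! ### operators -/

namespace LL

section ops
variable {K : Subfield ℂ} {H X Y : Type*} [Group H] [MulAction H X] [MulAction H Y]

lemma dl_self (x : X) : dl x x = 1 := by
  classical
  unfold dl
  rw [lp.single_apply_self]

lemma dl_ne {x y : X} (h : y ≠ x) : dl x y = 0 := by
  classical
  unfold dl
  exact lp.single_apply_ne _ _ _ h

lemma eq_of_dl_ne {x y : X} (h : dl x y ≠ 0) : x = y := by
  by_contra h1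
  exact h (dl_ne fun h2 => h1 h2.symm)

lemma kop_smul {T : L2 X →L[ℂ] L2 Y} (hT : KOp K H T) {c : ℂ} (hc : c ∈ K) : KOp K H (c • T) where
  equi h f := by
    ext y
    show c * (T (la h f)) y = c * (T f) (h⁻¹ • y)
    rw [hT.equi]
    rfl
  fs x := by
    refine (hT.fs x).subset ?_
    intro y hy h0
    apply hy
    show c * (T (dl x)) y = 0
    rw [h0, mul_zero]
  val x y := K.mul_mem hc (hT.val x y)

lemma kop_sum {α : Type*} (s : Finset α) {T : α → L2 X →L[ℂ] L2 Y} (hT : ∀ j ∈ s, KOp K H (T j)) :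
    KOp K H (∑ j ∈ s, T j) := by
  classical
  induction s using Finset.induction_on with
  | empty =>
    rw [Finset.sum_empty]
    exact kop_zero
  | insert a s ha ih =>
    rw [Finset.sum_insert ha]
    exact (hT a (Finset.mem_insert_self a s)).add (ih fun j hj => hT j (Finset.mem_insert_of_mem hj))

end ops

end LL

open LL

section kl
variable {K : Subfield ℂ} {G : Type} [Group G] {X Y Q : Type} [MulAction G X] [FC G X] [MulAction G Y] [FC G Y]
  [MulAction G Q]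

/-- kernels of local operators are local, with rational parts -/
theorem kr_loc {T : L2 X →L[ℂ] L2 Y} (hT : KOp K G T) (a : X →[G] Q) (b : Y →[G] Q)
    (hl : ∀ x y, T (dl x) y ≠ 0 → a x = b y) : Loc a (kr T) ∧ ∀ q, Rat K (MulAction.stabilizer G q) (loc a q (kr T)) := by
  classical
  have hcomm : ∀ q : Q, T.comp (cu {x | a x = q}) = (cu {y | b y = q}).comp T := by
    intro q
    apply eq_of_dl
    intro x
    ext y
    show T (cu {x | a x = q} (dl x)) y = cu {y | b y = q} (T (dl x)) y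
    rw [cu_apply]
    by_cases hx : a x = q
    · have h1 : cu {x | a x = q} (dl x) = dl x := by
        ext z
        rw [cu_apply]
        split_ifs with hz
        · rfl
        · by_contra h0
          have h2 := eq_of_dl_ne (fun h3 => h0 h3.symm)
          apply hz
          rw [← h2]
          exact hx
      rw [h1]
      split_ifs with hy
      · rfl
      · by_contra h0
        apply hy
        show b y = q
        rw [← hx, hl x y h0]
    · have h1 : cu {x | a x = q} (dl x) = 0 := by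
        ext z
        rw [cu_apply]
        split_ifs with hz
        · by_contra h0
          have h2 := eq_of_dl_ne h0
          apply hx
          rw [h2]
          exact hz
        · rfl
      rw [h1, map_zero]
      split_ifs with hy
      · by_contra h0
        apply hx
        rw [hl x y (fun h3 => h0 h3.symm)]
        exact hy
      · rfl
  have hcomm' : ∀ (q : Q) (f : L2 X), T (cu {x | a x = q} f) = cu {y | b y = q} (T f) := by
    intro q f
    exact congrArg (fun S : L2 X →L[ℂ] L2 Y => S f) (hcomm q)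
  refine ⟨?_, ?_⟩
  · intro q f hf
    have hf0 : T f = 0 := hf
    show T (cu {x | a x = q} f) = 0
    rw [hcomm', hf0, map_zero]
  · intro q
    have h1 : loc a q (kr T) = kr ((pull (fi b q) (fi_inj b q)).comp (T.comp (push (fi a q) (fi_inj a q)))) := by
      ext f
      constructor
      · intro hf
        have hf0 : T (push (fi a q) (fi_inj a q) f) = 0 := hf
        show pull (fi b q) (fi_inj b q) (T (push (fi a q) (fi_inj a q) f)) = 0
        rw [hf0, map_zero]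
      · intro hf
        have hf0 : pull (fi b q) (fi_inj b q) (T (push (fi a q) (fi_inj a q) f)) = 0 := hf
        show T (push (fi a q) (fi_inj a q) f) = 0
        have h2 : cu {x | a x = q} (push (fi a q) (fi_inj a q) f) = push (fi a q) (fi_inj a q) f := by
          ext x
          rw [cu_apply]
          split_ifs with hx
          · rfl
          · rw [push_apply_of_notMem]
            rintro ⟨z, hz⟩
            apply hx
            rw [← hz]
            exact z.2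
        rw [← h2, hcomm']
        ext y
        rw [cu_apply]
        split_ifs with hy
        · exact congrArg (fun g : L2 (Fib b q) => g ⟨y, hy⟩) hf0
        · rfl
    rw [h1]
    apply rat_kr
    refine KOp.comp (kop_pull _ ?_) (KOp.comp (hT.subgroup _) (kop_push _ ?_))
    · intro h x
      rfl
    · intro h x
      rfl

end kl

/-! ### stacks of elementary operators -/

namespace LL

section stack
variable {K : Subfield ℂ} {G : Type} [Group G] {I J : Type}

def evf (s : G) (k : I) (x : Fr G Unit) : Fr G I := (x.1 * s, k)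

lemma evf_inj (s : G) (k : I) : Function.Injective (evf s k) := by
  rintro ⟨x, ⟨⟩⟩ ⟨y, ⟨⟩⟩ h
  have h1 : x * s = y * s := congrArg Prod.fst h
  rw [mul_right_cancel h1]

/-- evaluation in the coordinate `k`, after a right translation -/
noncomputable def ev (s : G) (k : I) : L2 (Fr G I) →L[ℂ] L2 (Fr G Unit) := pull (evf s k) (evf_inj s k)

lemma ev_apply (s : G) (k : I) (u : L2 (Fr G I)) (x : Fr G Unit) : ev s k u x = u (x.1 * s, k) := rfl

lemma kop_ev (s : G) (k : I) : KOp K G (ev s k) := by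
  apply kop_pull
  intro h x
  show ((h * x.1) * s, k) = (h * (x.1 * s), k)
  rw [mul_assoc]

lemma ev_dl {s : G} {k : I} {x : Fr G I} {y : Fr G Unit} (h : ev s k (dl x) y ≠ 0) : x = (y.1 * s, k) :=
  eq_of_dl_ne h

def pcf (j : J) (x : Fr G Unit) : Fr G J := (x.1, j)

lemma pcf_inj (j : J) : Function.Injective (pcf j : Fr G Unit → Fr G J) := by
  rintro ⟨x, ⟨⟩⟩ ⟨y, ⟨⟩⟩ h
  have h1 : x = y := congrArg Prod.fst h
  rw [h1]

/-- stack of a family of operators -/
noncomputable def stk {X : Type*} [Fintype J] (T : J → L2 X →L[ℂ] L2 (Fr G Unit)) : L2 X →L[ℂ] L2 (Fr G J) :=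
  ∑ j, (push (pcf j) (pcf_inj j)).comp (T j)

lemma stk_apply' {X : Type*} [Fintype J] (T : J → L2 X →L[ℂ] L2 (Fr G Unit)) (u : L2 X) (y : Fr G J) :
    stk T u y = T y.2 u ((y.1, ()) : Fr G Unit) := by
  classical
  unfold stk
  rw [sum_apply, lp.coeFn_sum, Finset.sum_apply, Finset.sum_eq_single y.2]
  · exact push_apply (pcf y.2) (pcf_inj y.2) (T y.2 u) ((y.1, ()) : Fr G Unit)
  · intro j' _ hj'
    show push (pcf j') (pcf_inj j') (T j' u) y = 0
    apply push_apply_of_notMem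
    rintro ⟨z, hz⟩
    exact hj' (congrArg Prod.snd hz)
  · intro h
    exact absurd (Finset.mem_univ y.2) h

lemma stk_apply {X : Type*} [Fintype J] (T : J → L2 X →L[ℂ] L2 (Fr G Unit)) (u : L2 X) (g : G) (j : J) :
    stk T u (g, j) = T j u (g, ()) := stk_apply' T u ((g, j) : Fr G J)

lemma mem_kr_stk {X : Type*} [Fintype J] (T : J → L2 X →L[ℂ] L2 (Fr G Unit)) (u : L2 X) :
    u ∈ kr (stk T) ↔ ∀ j, T j u = 0 := by
  constructor
  · intro h j
    have h0 : stk T u = 0 := h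
    ext x
    obtain ⟨g, u'⟩ := x
    cases u'
    have h1 := stk_apply T u g j
    rw [h0] at h1
    exact h1.symm
  · intro h
    show stk T u = 0
    ext x
    obtain ⟨g, j⟩ := x
    rw [stk_apply, h j]
    rfl

theorem stk_good {X Q : Type} [MulAction G X] [FC G X] [MulAction G Q] [Fintype J] (a : X →[G] Q)
    (T : J → L2 X →L[ℂ] L2 (Fr G Unit)) (hT : ∀ j, KOp K G (T j)) (v : J → Q)
    (hv : ∀ j x y, T j (dl x) y ≠ 0 → a x = y.1 • v j) :
    Md G (kr (stk T)) ∧ Loc a (kr (stk T)) ∧ ∀ q, Rat K (MulAction.stabilizer G q) (loc a q (kr (stk T))) := by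
  have h1 : KOp K G (stk T) := by
    apply kop_sum
    intro j _
    refine KOp.comp (kop_push _ ?_) (hT j)
    intro h x
    rfl
  let b : Fr G J →[G] Q :=
    { toFun := fun y => y.1 • v y.2
      map_smul' := by
        intro h y
        show (h * y.1) • v y.2 = h • y.1 • v y.2
        rw [mul_smul] }
  refine ⟨md_kr h1.equi, kr_loc h1 a b ?_⟩
  intro x y hy
  obtain ⟨g, j⟩ := y
  rw [stk_apply] at hy
  exact hv j x _ hy

end stack

/-! ### finite sets of darts -/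

section darts
variable {V : Type} {T : SimpleGraph V}

lemma walk_chain {a b : V} (p : T.Walk a b) : ∀ w ∈ p.support,
    Relation.ReflTransGen (fun x y => T.Adj x y ∧ x ∈ p.support ∧ y ∈ p.support) a w := by
  induction p with
  | nil =>
    intro w hw
    rw [SimpleGraph.Walk.support_nil, List.mem_singleton] at hw
    rw [hw]
  | @cons a c b h p ih =>
    intro w hw
    rw [SimpleGraph.Walk.support_cons, List.mem_cons] at hw
    rcases hw with hw | hw
    · rw [hw]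
    · have h1 := ih w hw
      have h2 : Relation.ReflTransGen (fun x y => T.Adj x y ∧ x ∈ (SimpleGraph.Walk.cons h p).support ∧
          y ∈ (SimpleGraph.Walk.cons h p).support) c w := by
        refine Relation.ReflTransGen.mono ?_ _ _ h1
        rintro x y ⟨h3, h4, h5⟩
        refine ⟨h3, ?_, ?_⟩
        · rw [SimpleGraph.Walk.support_cons]
          exact List.mem_cons_of_mem _ h4
        · rw [SimpleGraph.Walk.support_cons]
          exact List.mem_cons_of_mem _ h5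
      refine Relation.ReflTransGen.head ⟨h, ?_, ?_⟩ h2
      · rw [SimpleGraph.Walk.support_cons]
        exact List.mem_cons_self
      · rw [SimpleGraph.Walk.support_cons]
        exact List.mem_cons_of_mem _ (SimpleGraph.Walk.start_mem_support p)

lemma exists_conn (hT : T.Connected) (v0 : V) (A : Finset V) : ∃ W : Finset V, v0 ∈ W ∧ A ⊆ W ∧
    ∀ v ∈ W, Relation.ReflTransGen (fun x y => T.Adj x y ∧ x ∈ W ∧ y ∈ W) v0 v := by
  classical
  induction A using Finset.induction_on with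
  | empty =>
    refine ⟨{v0}, Finset.mem_singleton_self v0, Finset.empty_subset _, ?_⟩
    intro v hv
    rw [Finset.mem_singleton.1 hv]
  | insert a A ha ih =>
    obtain ⟨W, h1, h2, h3⟩ := ih
    obtain ⟨p⟩ := hT.preconnected v0 a
    refine ⟨W ∪ p.support.toFinset, Finset.mem_union_left _ h1, ?_, ?_⟩
    · intro x hx
      rcases Finset.mem_insert.1 hx with hx | hx
      · apply Finset.mem_union_right
        rw [hx, List.mem_toFinset]
        exact SimpleGraph.Walk.end_mem_support p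
      · exact Finset.mem_union_left _ (h2 hx)
    · intro v hv
      rcases Finset.mem_union.1 hv with hv | hv
      · refine Relation.ReflTransGen.mono ?_ _ _ (h3 v hv)
        rintro x y ⟨h4, h5, h6⟩
        exact ⟨h4, Finset.mem_union_left _ h5, Finset.mem_union_left _ h6⟩
      · refine Relation.ReflTransGen.mono ?_ _ _ (walk_chain p v (List.mem_toFinset.1 hv))
        rintro x y ⟨h4, h5, h6⟩
        exact ⟨h4, Finset.mem_union_right _ (List.mem_toFinset.2 h5), Finset.mem_union_right _ (List.mem_toFinset.2 h6)⟩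

lemma exists_darts (hT : T.Connected) {v0 w0 : V} (h0 : T.Adj v0 w0) (A : Finset V) :
    ∃ F : Finset (V × V), (v0, w0) ∈ F ∧ (∀ d ∈ F, T.Adj d.1 d.2) ∧ (∀ d ∈ F, d.swap ∈ F) ∧
      (∀ v ∈ A, ∃ d ∈ F, d.1 = v) ∧
      ∀ φ : V × V → ℂ, (∀ d ∈ F, ∀ d' ∈ F, d.1 = d'.1 → φ d = φ d') → (∀ d ∈ F, φ d = φ d.swap) →
        ∀ d ∈ F, φ d = φ (v0, w0) := by
  classical
  obtain ⟨W, h1, h2, h3⟩ := exists_conn hT v0 (insert w0 A)
  have hmem : ∀ d : V × V, d ∈ (W ×ˢ W).filter (fun d => T.Adj d.1 d.2) ↔ (d.1 ∈ W ∧ d.2 ∈ W) ∧ T.Adj d.1 d.2 := by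
    intro d
    rw [Finset.mem_filter, Finset.mem_product]
  have hw0 : w0 ∈ W := h2 (Finset.mem_insert_self w0 A)
  refine ⟨(W ×ˢ W).filter (fun d => T.Adj d.1 d.2), ?_, ?_, ?_, ?_, ?_⟩
  · rw [hmem]
    exact ⟨⟨h1, hw0⟩, h0⟩
  · intro d hd
    exact ((hmem d).1 hd).2
  · intro d hd
    rw [hmem] at hd ⊢
    exact ⟨⟨hd.1.2, hd.1.1⟩, hd.2.symm⟩
  · intro v hv
    have h4 := h3 v (h2 (Finset.mem_insert_of_mem hv))
    rcases Relation.ReflTransGen.cases_tail h4 with h5 | ⟨u, _, h6, h7, h8⟩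
    · refine ⟨(v0, w0), ?_, h5.symm⟩
      rw [hmem]
      exact ⟨⟨h1, hw0⟩, h0⟩
    · refine ⟨(v, u), ?_, rfl⟩
      rw [hmem]
      exact ⟨⟨h8, h7⟩, h6.symm⟩
  · intro φ hφ1 hφ2 d hd
    have key : ∀ v, Relation.ReflTransGen (fun x y => T.Adj x y ∧ x ∈ W ∧ y ∈ W) v0 v →
        ∀ d ∈ (W ×ˢ W).filter (fun d => T.Adj d.1 d.2), d.1 = v → φ d = φ (v0, w0) := by
      intro v hv
      induction hv with
      | refl =>
        intro d hd hd1
        apply hφ1 d hd (v0, w0) _ hd1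
        rw [hmem]
        exact ⟨⟨h1, hw0⟩, h0⟩
      | @tail u v huv h5 ih =>
        intro d hd hd1
        obtain ⟨h6, h7, h8⟩ := h5
        have h9 : (u, v) ∈ (W ×ˢ W).filter (fun d => T.Adj d.1 d.2) := by
          rw [hmem]
          exact ⟨⟨h7, h8⟩, h6⟩
        have h10 : (v, u) ∈ (W ×ˢ W).filter (fun d => T.Adj d.1 d.2) := by
          rw [hmem]
          exact ⟨⟨h8, h7⟩, h6.symm⟩
        rw [hφ1 d hd (v, u) h10 hd1, hφ2 (v, u) h10]
        exact ih (u, v) h9 rfl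
    exact key d.1 (h3 d.1 ((hmem d).1 hd).1.1) d hd rfl

end darts

/-! ### the index set -/

section lin
variable {K : Subfield ℂ} {G V : Type} [Group G] [MulAction G V] {ι κ : Type} [Fintype ι] [Fintype κ]

/-- the index set -/
abbrev Ix (F : Finset (V × V)) (S : Finset G) (ι : Type) : Type := {d // d ∈ F} × {h // h ∈ S} × ι

variable {F : Finset (V × V)} {S : Finset G} {m : ℕ} (c : Ix F S ι ≃ Fin m)

/-- the darts -/
def dr : Fr G (Fin m) →[G] V × V where
  toFun x := x.1 • ((c.symm x.2).1 : V × V)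
  map_smul' h x := by
    show (h * x.1) • ((c.symm x.2).1 : V × V) = h • x.1 • ((c.symm x.2).1 : V × V)
    rw [mul_smul]

lemma dr_apply (s : G) (p : Ix F S ι) : dr c ((s, c p) : Fr G (Fin m)) = s • (p.1 : V × V) := by
  show s • ((c.symm (c p)).1 : V × V) = _
  rw [Equiv.symm_apply_apply]

lemma ev_sub {I : Type} (s s' : G) (k k' : I) (u : L2 (Fr G I)) :
    (ev s k - ev s' k') u = 0 ↔ ∀ g : G, u (g * s, k) = u (g * s', k') := by
  constructor
  · intro h g
    have h1 : (ev s k - ev s' k') u ((g, ()) : Fr G Unit) = 0 := by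
      rw [h]
      rfl
    have h2 : u (g * s, k) - u (g * s', k') = 0 := h1
    exact sub_eq_zero.1 h2
  · intro h
    ext x
    show u (x.1 * s, k) - u (x.1 * s', k') = 0
    rw [h, sub_self]

lemma ev_sub_dl {I : Type} {s s' : G} {k k' : I} {x : Fr G I} {y : Fr G Unit}
    (h : (ev s k - ev s' k') (dl x) y ≠ 0) : x = (y.1 * s, k) ∨ x = (y.1 * s', k') := by
  by_contra h1
  rw [not_or] at h1
  apply h
  have h2 : ev s k (dl x) y = 0 := by
    by_contra h3
    exact h1.1 (ev_dl h3)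
  have h4 : ev s' k' (dl x) y = 0 := by
    by_contra h3
    exact h1.2 (ev_dl h3)
  show ev s k (dl x) y - ev s' k' (dl x) y = 0
  rw [h2, h4, sub_self]

/-- the other dart of the edge -/
def R1 (p q : Ix F S ι) : Prop := (q.1 : V × V) = (p.1 : V × V).swap ∧ p.2 = q.2

/-- the same tail -/
def RA (p q : Ix F S ι) : Prop := (p.1 : V × V).1 = (q.1 : V × V).1 ∧ p.2 = q.2

/-- translates of the same coefficient -/
def RB (v0 : V) (p q : Ix F S ι) : Prop :=
  (p.1 : V × V).1 = (p.2.1 : G)⁻¹ • v0 ∧ (q.1 : V × V).1 = (q.2.1 : G)⁻¹ • v0 ∧ p.2.2 = q.2.2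

/-- pairs of indices -/
abbrev Pr (R : Ix F S ι → Ix F S ι → Prop) : Type := {p : Ix F S ι × Ix F S ι // R p.1 p.2}

/-- indices of the third kind of equations -/
abbrev C3 (F : Finset (V × V)) (v0 : V) (κ : Type) : Type := {f : {d // d ∈ F} // (f : V × V).1 = v0} × κ

/-- the edge equations -/
noncomputable def T1 (p : Pr (R1 (F := F) (S := S) (ι := ι))) : L2 (Fr G (Fin m)) →L[ℂ] L2 (Fr G Unit) :=
  ev 1 (c p.1.1) - ev 1 (c p.1.2)

/-- the vertex equations, first kind -/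
noncomputable def TA (p : Pr (RA (F := F) (S := S) (ι := ι))) : L2 (Fr G (Fin m)) →L[ℂ] L2 (Fr G Unit) :=
  ev 1 (c p.1.1) - ev 1 (c p.1.2)

/-- the vertex equations, second kind -/
noncomputable def TB {v0 : V} (p : Pr (RB (F := F) (S := S) (ι := ι) v0)) : L2 (Fr G (Fin m)) →L[ℂ] L2 (Fr G Unit) :=
  ev 1 (c p.1.1) - ev ((p.1.1.2.1 : G)⁻¹ * (p.1.2.2.1 : G)) (c p.1.2)

/-- the vertex equations, third kind -/
noncomputable def TC (M : Matrix ι κ (MonoidAlgebra K G)) {v0 : V} (p : C3 F v0 κ) :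
    L2 (Fr G (Fin m)) →L[ℂ] L2 (Fr G Unit) :=
  ∑ h : {h // h ∈ S}, ∑ i : ι, ((M i p.2).coeff h : ℂ) • ev 1 (c (p.1.1, h, i))

/-- the vertex equations -/
noncomputable def T0 (M : Matrix ι κ (MonoidAlgebra K G)) (v0 : V) :
    Pr (RA (F := F) (S := S) (ι := ι)) ⊕ Pr (RB (F := F) (S := S) (ι := ι) v0) ⊕ C3 F v0 κ →
      L2 (Fr G (Fin m)) →L[ℂ] L2 (Fr G Unit)
  | .inl p => TA c p
  | .inr (.inl p) => TB c p
  | .inr (.inr p) => TC c M p

lemma TC_apply (M : Matrix ι κ (MonoidAlgebra K G)) {v0 : V} (p : C3 F v0 κ) (u : L2 (Fr G (Fin m))) (y : Fr G Unit) :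
    TC c M p u y = ∑ h : {h // h ∈ S}, ∑ i : ι, ((M i p.2).coeff h : ℂ) * u (y.1 * 1, c (p.1.1, h, i)) := by
  unfold TC
  rw [sum_apply, lp.coeFn_sum, Finset.sum_apply]
  refine Finset.sum_congr rfl fun h _ => ?_
  rw [sum_apply, lp.coeFn_sum, Finset.sum_apply]
  rfl

lemma kop_T1 (p : Pr (R1 (F := F) (S := S) (ι := ι))) : KOp K G (T1 c p) := KOp.sub (kop_ev _ _) (kop_ev _ _)

lemma kop_T0 (M : Matrix ι κ (MonoidAlgebra K G)) (v0 : V)
    (j : Pr (RA (F := F) (S := S) (ι := ι)) ⊕ Pr (RB (F := F) (S := S) (ι := ι) v0) ⊕ C3 F v0 κ) :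
    KOp K G (T0 c M v0 j) := by
  rcases j with p | p | p
  · exact KOp.sub (kop_ev _ _) (kop_ev _ _)
  · exact KOp.sub (kop_ev _ _) (kop_ev _ _)
  · refine kop_sum _ fun h _ => kop_sum _ fun i _ => kop_smul (kop_ev _ _) ?_
    exact ((M i p.2).coeff h).2

lemma loc_T1 (p : Pr (R1 (F := F) (S := S) (ι := ι))) (x : Fr G (Fin m)) (y : Fr G Unit) (h : T1 c p (dl x) y ≠ 0) :
    (edgeHom G V).comp (dr c) x = y.1 • ue (p.1.1.1 : V × V).1 (p.1.1.1 : V × V).2 := by
  rcases ev_sub_dl h with h1 | h1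
  · rw [h1]
    show ue (dr c ((y.1 * 1, c p.1.1) : Fr G (Fin m))).1 (dr c ((y.1 * 1, c p.1.1) : Fr G (Fin m))).2 = _
    rw [dr_apply, mul_one]
    rfl
  · rw [h1]
    show ue (dr c ((y.1 * 1, c p.1.2) : Fr G (Fin m))).1 (dr c ((y.1 * 1, c p.1.2) : Fr G (Fin m))).2 = _
    rw [dr_apply, mul_one, p.2.1]
    exact Sym2.eq_swap

/-- the vertices of the equations -/
def vx (F : Finset (V × V)) (S : Finset G) (ι κ : Type) (v0 : V) :
    Pr (RA (F := F) (S := S) (ι := ι)) ⊕ Pr (RB (F := F) (S := S) (ι := ι) v0) ⊕ C3 F v0 κ → V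
  | .inl p => (p.1.1.1 : V × V).1
  | .inr (.inl p) => (p.1.1.1 : V × V).1
  | .inr (.inr p) => v0

lemma loc_T0 (M : Matrix ι κ (MonoidAlgebra K G)) (v0 : V)
    (j : Pr (RA (F := F) (S := S) (ι := ι)) ⊕ Pr (RB (F := F) (S := S) (ι := ι) v0) ⊕ C3 F v0 κ)
    (x : Fr G (Fin m)) (y : Fr G Unit) (h : T0 c M v0 j (dl x) y ≠ 0) :
    (tailHom G V).comp (dr c) x = y.1 • vx F S ι κ v0 j := by
  rcases j with p | p | p
  · rcases ev_sub_dl h with h1 | h1
    · rw [h1]
      show (dr c ((y.1 * 1, c p.1.1) : Fr G (Fin m))).1 = y.1 • (p.1.1.1 : V × V).1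
      rw [dr_apply, mul_one]
      rfl
    · rw [h1]
      show (dr c ((y.1 * 1, c p.1.2) : Fr G (Fin m))).1 = y.1 • (p.1.1.1 : V × V).1
      rw [dr_apply, mul_one, p.2.1]
      rfl
  · rcases ev_sub_dl h with h1 | h1
    · rw [h1]
      show (dr c ((y.1 * 1, c p.1.1) : Fr G (Fin m))).1 = y.1 • (p.1.1.1 : V × V).1
      rw [dr_apply, mul_one]
      rfl
    · rw [h1]
      show (dr c ((y.1 * ((p.1.1.2.1 : G)⁻¹ * (p.1.2.2.1 : G)), c p.1.2) : Fr G (Fin m))).1 = y.1 • (p.1.1.1 : V × V).1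
      rw [dr_apply]
      show (y.1 * ((p.1.1.2.1 : G)⁻¹ * (p.1.2.2.1 : G))) • (p.1.2.1 : V × V).1 = y.1 • (p.1.1.1 : V × V).1
      rw [p.2.1, p.2.2.1, smul_smul, smul_smul]
      congr 1
      group
  · have h2 : ∃ (h : {h // h ∈ S}) (i : ι), ev 1 (c (p.1.1, h, i)) (dl x) y ≠ 0 := by
      by_contra h3
      apply h
      show TC c M p (dl x) y = 0
      rw [TC_apply]
      refine Finset.sum_eq_zero fun h _ => Finset.sum_eq_zero fun i _ => ?_
      have h4 : ev 1 (c (p.1.1, h, i)) (dl x) y = 0 := by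
        by_contra h5
        exact h3 ⟨h, i, h5⟩
      have h6 : (dl x : L2 (Fr G (Fin m))) (y.1 * 1, c (p.1.1, h, i)) = 0 := h4
      rw [h6, mul_zero]
    obtain ⟨h3, i, h4⟩ := h2
    rw [ev_dl h4]
    show (dr c ((y.1 * 1, c (p.1.1, h3, i)) : Fr G (Fin m))).1 = y.1 • v0
    rw [dr_apply, mul_one]
    show y.1 • (p.1.1 : V × V).1 = y.1 • v0
    rw [p.1.2]

end lin

section lin2
variable {K : Subfield ℂ} {G V : Type} [Group G] [MulAction G V] {ι κ : Type} [Fintype ι] [Fintype κ]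
variable {F : Finset (V × V)} {S : Finset G} {m : ℕ} (c : Ix F S ι ≃ Fin m)

lemma mem_M1 [Fintype (Pr (R1 (F := F) (S := S) (ι := ι)))] (u : L2 (Fr G (Fin m))) :
    u ∈ kr (stk (T1 c)) ↔ ∀ p q : Ix F S ι, R1 p q → ∀ g : G, u (g, c p) = u (g, c q) := by
  rw [mem_kr_stk]
  constructor
  · intro h p q hpq g
    have h1 := (ev_sub 1 1 (c p) (c q) u).1 (h ⟨(p, q), hpq⟩) g
    rw [mul_one] at h1
    exact h1
  · intro h p
    refine (ev_sub 1 1 (c p.1.1) (c p.1.2) u).2 ?_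
    intro g
    rw [mul_one]
    exact h _ _ p.2 g

lemma mem_M0 (M : Matrix ι κ (MonoidAlgebra K G)) (v0 : V)
    [Fintype (Pr (RA (F := F) (S := S) (ι := ι)) ⊕ Pr (RB (F := F) (S := S) (ι := ι) v0) ⊕ C3 F v0 κ)]
    (u : L2 (Fr G (Fin m))) :
    u ∈ kr (stk (T0 c M v0)) ↔ (∀ p q : Ix F S ι, RA p q → ∀ g : G, u (g, c p) = u (g, c q)) ∧
      (∀ p q : Ix F S ι, RB v0 p q → ∀ g : G, u (g, c p) = u (g * ((p.2.1 : G)⁻¹ * (q.2.1 : G)), c q)) ∧
      ∀ f : {d // d ∈ F}, (f : V × V).1 = v0 → ∀ (l : κ) (g : G),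
        ∑ h : {h // h ∈ S}, ∑ i : ι, ((M i l).coeff h : ℂ) * u (g, c (f, h, i)) = 0 := by
  rw [mem_kr_stk]
  constructor
  · intro h
    refine ⟨?_, ?_, ?_⟩
    · intro p q hpq g
      have h1 := (ev_sub 1 1 (c p) (c q) u).1 (h (.inl ⟨(p, q), hpq⟩)) g
      rw [mul_one] at h1
      exact h1
    · intro p q hpq g
      have h1 := (ev_sub 1 ((p.2.1 : G)⁻¹ * (q.2.1 : G)) (c p) (c q) u).1 (h (.inr (.inl ⟨(p, q), hpq⟩))) g
      rw [mul_one] at h1
      exact h1
    · intro f hf l g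
      have h1 : TC c M (v0 := v0) ((⟨f, hf⟩, l) : C3 F v0 κ) u = 0 := h (.inr (.inr (⟨f, hf⟩, l)))
      have h2 := TC_apply c M (v0 := v0) ((⟨f, hf⟩, l) : C3 F v0 κ) u ((g, ()) : Fr G Unit)
      rw [h1] at h2
      have h3 : ∑ h : {h // h ∈ S}, ∑ i : ι, ((M i l).coeff h : ℂ) * u (g * 1, c (f, h, i)) = 0 := h2.symm
      rw [mul_one] at h3
      exact h3
  · rintro ⟨h1, h2, h3⟩ j
    rcases j with p | p | p
    · refine (ev_sub 1 1 (c p.1.1) (c p.1.2) u).2 ?_
      intro g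
      rw [mul_one]
      exact h1 _ _ p.2 g
    · refine (ev_sub 1 ((p.1.1.2.1 : G)⁻¹ * (p.1.2.2.1 : G)) (c p.1.1) (c p.1.2) u).2 ?_
      intro g
      rw [mul_one]
      exact h2 _ _ p.2 g
    · show TC c M p u = 0
      ext y
      rw [TC_apply, mul_one]
      exact h3 p.1.1 p.1.2 p.2 y.1

/-- the operator of translates -/
noncomputable def Jx : L2 (Fr G ι) →L[ℂ] L2 (Fr G (Fin m)) :=
  stk (fun k => ev ((c.symm k).2.1 : G)⁻¹ (c.symm k).2.2)

lemma Jx_apply (x : L2 (Fr G ι)) (g : G) (p : Ix F S ι) : Jx c x (g, c p) = x (g * (p.2.1 : G)⁻¹, p.2.2) := by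
  unfold Jx
  rw [stk_apply]
  show x (g * ((c.symm (c p)).2.1 : G)⁻¹, (c.symm (c p)).2.2) = _
  rw [Equiv.symm_apply_apply]

lemma Jx_la (h : G) (x : L2 (Fr G ι)) : Jx c (la h x) = la h (Jx c x) := by
  have h1 : KOp (⊤ : Subfield ℂ) G (Jx c : L2 (Fr G ι) →L[ℂ] L2 (Fr G (Fin m))) := by
    unfold Jx stk
    apply kop_sum
    intro j _
    refine KOp.comp (kop_push _ ?_) (kop_ev _ _)
    intro h x
    rfl
  exact h1.equi h x

lemma hatK_S {M : Matrix ι κ (MonoidAlgebra K G)} (hS : ∀ i l, (M i l).coeff.support ⊆ S) (f : E G ι) (g : G) (l : κ) :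
    hatK M f (g, l) = ∑ h : {h // h ∈ S}, ∑ i, ((M i l).coeff h : ℂ) * f (g * (h : G)⁻¹, i) := by
  rw [hatK_apply, Finset.sum_comm]
  refine Finset.sum_congr rfl fun i _ => ?_
  rw [Finset.sum_coe_sort S (fun h => ((M i l).coeff h : ℂ) * f (g * h⁻¹, i))]
  refine Finset.sum_subset (hS i l) ?_
  intro x _ hx
  rw [Finsupp.notMem_support_iff.1 hx]
  simp

end lin2

end LL

open LL

/-- the kernel of a matrix over `K[G]` as an intersection of local kernels, with the comparison operator `J` -/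
theorem linearise_strong {K : Subfield ℂ} {G : Type} [Group G] {V : Type} [MulAction G V] {T : SimpleGraph V} (hT : T.IsTree)
    (hA : ∀ (g : G) (v w : V), T.Adj v w → T.Adj (g • v) (g • w)) {v0 w0 : V} (h0 : T.Adj v0 w0) {ι κ : Type}
    [Fintype ι] [Fintype κ] (M : Matrix ι κ (MonoidAlgebra K G)) :
    ∃ (m : ℕ) (δ : Fr G (Fin m) →[G] V × V) (M₀ M₁ : Submodule ℂ (L2 (Fr G (Fin m)))) (p : ι → Fin m)
      (J : E G ι →L[ℂ] L2 (Fr G (Fin m))),
      (∀ x, T.Adj (δ x).1 (δ x).2) ∧ Md G M₀ ∧ Md G M₁ ∧ Loc ((tailHom G V).comp δ) M₀ ∧ Loc ((edgeHom G V).comp δ) M₁ ∧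
      (∀ q, Rat K (MulAction.stabilizer G q) (loc ((tailHom G V).comp δ) q M₀)) ∧
      (∀ q, Rat K (MulAction.stabilizer G q) (loc ((edgeHom G V).comp δ) q M₁)) ∧
      (∀ i, (δ ((1, p i) : Fr G (Fin m))).1 = v0) ∧ (∀ (g : G) (f : E G ι), J (lam g f) = la g (J f)) ∧
      (∀ (f : E G ι) (g : G) (i : ι), J f ((g, p i) : Fr G (Fin m)) = f (g, i)) ∧
      (∀ f : E G ι, hatK M f = 0 ↔ J f ∈ M₀ ⊓ M₁) ∧ ∀ u ∈ M₀ ⊓ M₁, ∃ f, J f = u := by
  classical
  obtain ⟨S, hS1, hS⟩ : ∃ S : Finset G, (1 : G) ∈ S ∧ ∀ i l, (M i l).coeff.support ⊆ S := by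
    refine ⟨insert 1 (Finset.univ.biUnion fun p : ι × κ => (M p.1 p.2).coeff.support), Finset.mem_insert_self _ _, ?_⟩
    intro i l x hx
    apply Finset.mem_insert_of_mem
    rw [Finset.mem_biUnion]
    exact ⟨(i, l), Finset.mem_univ _, hx⟩
  obtain ⟨F, hF0, hF1, hF2, hF3, hF4⟩ := exists_darts hT.1 h0 (S.image fun h => h⁻¹ • v0)
  let c : Ix F S ι ≃ Fin (Fintype.card (Ix F S ι)) := Fintype.equivFin _
  let i1 : Fintype (Pr (R1 (F := F) (S := S) (ι := ι))) := Fintype.ofFinite _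
  let i2 : Fintype (Pr (RA (F := F) (S := S) (ι := ι)) ⊕ Pr (RB (F := F) (S := S) (ι := ι) v0) ⊕ C3 F v0 κ) :=
    Fintype.ofFinite _
  obtain ⟨a1, a2, a3⟩ := stk_good (K := K) ((tailHom G V).comp (dr c)) (T0 c M v0) (kop_T0 c M v0) (vx F S ι κ v0)
    (loc_T0 c M v0)
  obtain ⟨b1, b2, b3⟩ := stk_good (K := K) ((edgeHom G V).comp (dr c)) (T1 c) (kop_T1 c)
    (fun p => ue (p.1.1.1 : V × V).1 (p.1.1.1 : V × V).2) (loc_T1 c)
  let f0 : {d // d ∈ F} := ⟨(v0, w0), hF0⟩
  let one : {h // h ∈ S} := ⟨1, hS1⟩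
  -- the projection
  let pf : Fr G ι → Fr G (Fin (Fintype.card (Ix F S ι))) := fun y => (y.1, c (f0, one, y.2))
  have hpf : Function.Injective pf := by
    rintro ⟨g, i⟩ ⟨g', i'⟩ h
    have h1 : g = g' := congrArg Prod.fst h
    have h2 : c (f0, one, i) = c (f0, one, i') := congrArg Prod.snd h
    have h3 : i = i' := congrArg (fun p : Ix F S ι => p.2.2) (c.injective h2)
    rw [h1, h3]
  have hR : ∀ u : L2 (Fr G (Fin (Fintype.card (Ix F S ι)))), u ∈ kr (stk (T0 c M v0)) → u ∈ kr (stk (T1 c)) →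
      ∀ (g : G) (p : Ix F S ι), u (g, c p) = u (g * (p.2.1 : G)⁻¹, c (f0, one, p.2.2)) := by
    intro u hu0 hu1 g p
    rw [mem_M0] at hu0
    rw [mem_M1] at hu1
    obtain ⟨e1, e2, e3⟩ := hu0
    have key : ∀ d : {d // d ∈ F}, u (g, c (d, p.2)) = u (g, c (f0, p.2)) := by
      intro d
      have h1 := hF4 (fun d => if h : d ∈ F then u (g, c (⟨d, h⟩, p.2)) else 0) ?_ ?_ d.1 d.2
      · simp only [d.2, hF0, dif_pos] at h1
        exact h1
      · intro d hd d' hd' hdd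
        simp only [hd, hd', dif_pos]
        exact e1 (⟨d, hd⟩, p.2) (⟨d', hd'⟩, p.2) ⟨hdd, rfl⟩ g
      · intro d hd
        simp only [hd, hF2 d hd, dif_pos]
        exact hu1 (⟨d, hd⟩, p.2) (⟨d.swap, hF2 d hd⟩, p.2) ⟨rfl, rfl⟩ g
    obtain ⟨d, hd, hd1⟩ := hF3 ((p.2.1 : G)⁻¹ • v0) (Finset.mem_image_of_mem _ p.2.1.2)
    have h2 := key p.1
    have h3 := key ⟨d, hd⟩
    have h4 := e2 (⟨d, hd⟩, p.2) (f0, one, p.2.2) ⟨hd1, ?_, rfl⟩ g
    · have h5 : u (g, c p) = u (g, c (⟨d, hd⟩, p.2)) := by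
        rw [h3]
        exact h2
      rw [h5, h4]
      have h6 : (p.2.1 : G)⁻¹ * (one : G) = (p.2.1 : G)⁻¹ := mul_one _
      rw [h6]
    · show v0 = (1 : G)⁻¹ • v0
      rw [inv_one, one_smul]
  have hPJ : ∀ x : L2 (Fr G ι), pull pf hpf (Jx c x) = x := by
    intro x
    ext y
    show Jx c x (y.1, c (f0, one, y.2)) = x y
    rw [Jx_apply]
    have h1 : y.1 * (one : G)⁻¹ = y.1 := by
      show y.1 * (1 : G)⁻¹ = y.1
      rw [inv_one, mul_one]
    rw [h1]
    rfl
  have hJP : ∀ u ∈ kr (stk (T0 c M v0)) ⊓ kr (stk (T1 c)), Jx c (pull pf hpf u) = u := by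
    rintro u ⟨hu0, hu1⟩
    ext x
    obtain ⟨g, k⟩ := x
    have h1 := Jx_apply c (pull pf hpf u) g (c.symm k)
    rw [Equiv.apply_symm_apply] at h1
    have h2 := hR u hu0 hu1 g (c.symm k)
    rw [Equiv.apply_symm_apply] at h2
    rw [h1, h2]
    rfl
  have hker : ∀ u ∈ kr (stk (T0 c M v0)) ⊓ kr (stk (T1 c)), hatK M (pull pf hpf u) = 0 := by
    rintro u ⟨hu0, hu1⟩
    ext y
    obtain ⟨g, l⟩ := y
    have h1 := ((mem_M0 c M v0 u).1 hu0).2.2 f0 rfl l g
    refine (hatK_S hS (pull pf hpf u) g l).trans (Eq.trans ?_ h1)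
    refine Finset.sum_congr rfl fun h _ => Finset.sum_congr rfl fun i _ => ?_
    congr 1
    exact (hR u hu0 hu1 g (f0, h, i)).symm
  have hval : ∀ (f : L2 (Fr G ι)) (g : G) (i : ι), Jx c f (g, c (f0, one, i)) = f (g, i) := by
    intro f g i
    have h1 := Jx_apply c f g (f0, one, i)
    have h2 : g * (one : G)⁻¹ = g := by
      show g * (1 : G)⁻¹ = g
      rw [inv_one, mul_one]
    rw [h1, h2]
  have hiff : ∀ x : L2 (Fr G ι), hatK M x = 0 ↔ Jx c x ∈ kr (stk (T0 c M v0)) ⊓ kr (stk (T1 c)) := by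
    intro x
    constructor
    · intro hx0
      refine ⟨?_, ?_⟩
      · show Jx c x ∈ kr (stk (T0 c M v0))
        rw [mem_M0]
        refine ⟨?_, ?_, ?_⟩
        · intro p q hpq g
          rw [Jx_apply, Jx_apply, hpq.2]
        · intro p q hpq g
          have h1 : g * ((p.2.1 : G)⁻¹ * (q.2.1 : G)) * (q.2.1 : G)⁻¹ = g * (p.2.1 : G)⁻¹ := by
            rw [← mul_assoc, mul_inv_cancel_right]
          rw [Jx_apply, Jx_apply, hpq.2.2, h1]
        · intro f hf l g
          have h1 := hatK_S hS x g l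
          rw [hx0] at h1
          refine Eq.trans ?_ h1.symm
          refine Finset.sum_congr rfl fun h _ => Finset.sum_congr rfl fun i _ => ?_
          rw [Jx_apply]
      · show Jx c x ∈ kr (stk (T1 c))
        rw [mem_M1]
        intro p q hpq g
        rw [Jx_apply, Jx_apply, hpq.2]
    · intro hx
      have h1 := hker _ hx
      rw [hPJ] at h1
      exact h1
  refine ⟨_, dr c, kr (stk (T0 c M v0)), kr (stk (T1 c)), fun i => c (f0, one, i), Jx c, ?_, a1, b1, a2, b2, a3, b3,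
    ?_, fun g f => Jx_la c g f, fun f g i => hval f g i, fun f => hiff f, ?_⟩
  · intro x
    exact hA x.1 _ _ (hF1 _ (c.symm x.2).1.2)
  · intro i
    show (dr c ((1, c (f0, one, i)) : Fr G (Fin (Fintype.card (Ix F S ι))))).1 = v0
    rw [dr_apply, one_smul]
  · intro u hu
    exact ⟨pull pf hpf u, hJP u hu⟩

lemma LL.vd_of_J {K : Subfield ℂ} {G : Type} [Group G] {ι κ : Type} [Fintype ι] [Fintype κ]
    (M : Matrix ι κ (MonoidAlgebra K G)) {m : ℕ} {M₀ M₁ : Submodule ℂ (L2 (Fr G (Fin m)))} (h2 : Md G M₀) (h3 : Md G M₁)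
    (p : ι → Fin m) (J : L2 (Fr G ι) →L[ℂ] L2 (Fr G (Fin m))) (h9 : ∀ (g : G) (f : L2 (Fr G ι)), J (la g f) = la g (J f))
    (h10 : ∀ (f : L2 (Fr G ι)) (g : G) (i : ι), J f ((g, p i) : Fr G (Fin m)) = f ((g, i) : Fr G ι))
    (h11 : ∀ f : L2 (Fr G ι), hatK M f = 0 ↔ J f ∈ M₀ ⊓ M₁) (h12 : ∀ u ∈ M₀ ⊓ M₁, ∃ f, J f = u) :
    vd G (M₀ ⊓ M₁) = vdim (LinearMap.ker (hatK M : E G ι →ₗ[ℂ] E G κ)) := by
  have hM : Md G (kr (X := Fr G ι) (Y := Fr G κ) (hatK M)) := md_kr (kop_hatK M).equi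
  have hinj : ∀ f : L2 (Fr G ι), J f = 0 → f = 0 := by
    intro f hf
    ext x
    obtain ⟨g, i⟩ := x
    rw [← h10 f g i, hf]
    rfl
  have hmap : (kr (X := Fr G ι) (Y := Fr G κ) (hatK M)).map (J : L2 (Fr G ι) →ₗ[ℂ] L2 (Fr G (Fin m))) = M₀ ⊓ M₁ := by
    apply le_antisymm
    · rintro _ ⟨f, hf, rfl⟩
      exact (h11 f).1 hf
    · intro u hu
      obtain ⟨f, rfl⟩ := h12 u hu
      exact ⟨f, (h11 f).2 hu, rfl⟩
  have hK : kr (X := Fr G ι) (Y := Fr G κ) (hatK M) ⊓ kr J = ⊥ := by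
    rw [eq_bot_iff]
    rintro f ⟨_, hf⟩
    exact hinj f hf
  have h13 := vd_im_add h9 hM
  rw [hK, vd_bot, add_zero] at h13
  have h14 : im J (kr (X := Fr G ι) (Y := Fr G κ) (hatK M)) = M₀ ⊓ M₁ := by
    unfold im
    rw [hmap]
    exact IsClosed.submodule_topologicalClosure_eq (h2.inf h3).cl
  rw [h14] at h13
  rw [h13]
  exact vd_fr hM

/-- the kernel of a matrix over `K[G]` as an intersection of local kernels -/
theorem linearise {K : Subfield ℂ} {G : Type} [Group G] {V : Type} [MulAction G V] {T : SimpleGraph V} (hT : T.IsTree)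
    (hA : ∀ (g : G) (v w : V), T.Adj v w → T.Adj (g • v) (g • w)) (hne : ∃ v w, T.Adj v w) {ι κ : Type} [Fintype ι] [Fintype κ]
    (M : Matrix ι κ (MonoidAlgebra K G)) : ∃ (m : ℕ) (δ : Fr G (Fin m) →[G] V × V) (M₀ M₁ : Submodule ℂ (L2 (Fr G (Fin m)))),
      (∀ x, T.Adj (δ x).1 (δ x).2) ∧ Md G M₀ ∧ Md G M₁ ∧ Loc ((tailHom G V).comp δ) M₀ ∧ Loc ((edgeHom G V).comp δ) M₁ ∧
      (∀ q, Rat K (MulAction.stabilizer G q) (loc ((tailHom G V).comp δ) q M₀)) ∧
      (∀ q, Rat K (MulAction.stabilizer G q) (loc ((edgeHom G V).comp δ) q M₁)) ∧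
      vd G (M₀ ⊓ M₁) = vdim (LinearMap.ker (hatK M : E G ι →ₗ[ℂ] E G κ)) := by
  obtain ⟨v0, w0, h0⟩ := hne
  obtain ⟨m, δ, M₀, M₁, p, J, h1, h2, h3, h4, h5, h6, h7, h8, h9, h10, h11, h12⟩ := linearise_strong hT hA h0 M
  exact ⟨m, δ, M₀, M₁, h1, h2, h3, h4, h5, h6, h7, vd_of_J M h2 h3 p J h9 h10 h11 h12⟩

end ATY
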