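import Pool.Agent.ATY.E3d
import Pool.Agent.ATY.L

/-!
# Induction from the stabiliser of a vertex of a tree preserves the largest maxima
-/

set_option autoImplicit false

open scoped ComplexConjugate InnerProductSpace
open Filter Topology

namespace ATY
open Singer Pool.WeakAtiyah

section ratinf
variable {K : Subfield ℂ} {G : Type} [Group G] {X A B : Type} [MulAction G X] [FC G X] [MulAction G A] [FC G A]
  [MulAction G B] [FC G B]

/-- the dimension of the intersection with a rational subspace -/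
lemma vd_rat_inf {S : L2 (X ⊕ A) →L[ℂ] L2 B} (hS : KOp K G S) {Z : Submodule ℂ (L2 X)} (hZ : Md G Z) :
    vd G (im (pl X A) (kr S) ⊓ Z) = vd G (kr S ⊓ Z.comap (pl X A : L2 (X ⊕ A) →ₗ[ℂ] L2 X)) -
      vd G (kr S ⊓ kr (pl X A)) := by
  have hR : Md G (kr S ⊓ Z.comap (pl X A : L2 (X ⊕ A) →ₗ[ℂ] L2 X)) :=
    (md_kr hS.equi).inf (Md.comap (kop_pl (K := K)).equi hZ)
  have hV : Md G (im (pl X A) (kr S) ⊓ Z) := (Md.im (kop_pl (K := K)).equi (md_kr hS.equi)).inf hZ
  have h1 := vd_im_add (kop_pl (K := K) (X := X) (Y := A)).equi hR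
  have h2 : kr S ⊓ Z.comap (pl X A : L2 (X ⊕ A) →ₗ[ℂ] L2 X) ⊓ kr (pl X A) = kr S ⊓ kr (pl X A) := by
    ext f
    constructor
    · rintro ⟨⟨h3, _⟩, h4⟩
      exact ⟨h3, h4⟩
    · rintro ⟨h3, h4⟩
      refine ⟨⟨h3, ?_⟩, h4⟩
      show pl X A f ∈ Z
      have h5 : pl X A f = 0 := h4
      rw [h5]
      exact Z.zero_mem
  have h3 : im (pl X A) (kr S ⊓ Z.comap (pl X A : L2 (X ⊕ A) →ₗ[ℂ] L2 X)) = im (pl X A) (kr S) ⊓ Z := by
    apply le_antisymm
    · refine im_le hV.cl ?_
      rintro f ⟨h4, h5⟩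
      exact ⟨map_le_im ⟨f, h4, rfl⟩, h5⟩
    · have hid : ∀ (h : G) (f : L2 X), (1 : L2 X →L[ℂ] L2 X) (la h f) = la h ((1 : L2 X →L[ℂ] L2 X) f) := fun h f => rfl
      have d1 := dense_pullback (Z := X) hid (kop_pl (K := K) (X := X) (Y := A)).equi hV (md_kr hS.equi) (by
        rintro _ ⟨f, hf, rfl⟩
        exact hf.1)
      refine le_trans d1.ge ?_
      refine Submodule.topologicalClosure_mono ?_
      rintro g ⟨⟨_, hg⟩, hg'⟩
      obtain ⟨f, hf1, hf2⟩ := mem_map'.1 (mem_comap'.1 hg')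
      have h8 : pl X A f = g := hf2
      refine mem_map'.2 ⟨f, ⟨hf1, ?_⟩, h8⟩
      show pl X A f ∈ Z
      rw [h8]
      exact hg
  rw [h2, h3] at h1
  linarith

end ratinf

section coord
variable {G : Type} [Group G] {X Q : Type} [MulAction G X] [MulAction G Q]

/-- coordinates of `X` adapted to a base point of `Q` -/
lemma exists_coord [FC G X] (a : X →[G] Q) (q : Q) (ho : ∀ x, a x ∈ MulAction.orbit G q) :
    ∃ (r : ℕ) (e : X ≃ Fr G (Fin r)), (∀ (g : G) (x : X), e (g • x) = g • e x) ∧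
      ∀ x, a x = (e x).1 • q := by
  let e₀ := co G X
  have h1 : ∀ j : Fin (rk G X), ∃ g : G, g • q = a (e₀.symm (1, j)) := fun j => ho _
  choose c hc using h1
  let e : X ≃ Fr G (Fin (rk G X)) :=
    { toFun := fun x => ((e₀ x).1 * c (e₀ x).2, (e₀ x).2)
      invFun := fun y => e₀.symm (y.1 * (c y.2)⁻¹, y.2)
      left_inv := fun x => by
        show e₀.symm ((e₀ x).1 * c (e₀ x).2 * (c (e₀ x).2)⁻¹, (e₀ x).2) = x
        rw [mul_inv_cancel_right]
        exact e₀.symm_apply_apply x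
      right_inv := fun y => by
        show ((e₀ (e₀.symm (y.1 * (c y.2)⁻¹, y.2))).1 * c (e₀ (e₀.symm (y.1 * (c y.2)⁻¹, y.2))).2,
          (e₀ (e₀.symm (y.1 * (c y.2)⁻¹, y.2))).2) = y
        rw [e₀.apply_symm_apply, inv_mul_cancel_right]
        rfl }
  refine ⟨rk G X, e, fun g x => ?_, fun x => ?_⟩
  · show ((e₀ (g • x)).1 * c (e₀ (g • x)).2, (e₀ (g • x)).2) = (g * ((e₀ x).1 * c (e₀ x).2), (e₀ x).2)
    rw [show e₀ (g • x) = (g * (e₀ x).1, (e₀ x).2) from co_smul G g x, mul_assoc]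
  · have h2 : x = (e₀ x).1 • e₀.symm (1, (e₀ x).2) := by
      apply e₀.injective
      rw [show e₀ ((e₀ x).1 • e₀.symm (1, (e₀ x).2)) = ((e₀ x).1 * (e₀ (e₀.symm (1, (e₀ x).2))).1,
        (e₀ (e₀.symm (1, (e₀ x).2))).2) from co_smul G _ _, e₀.apply_symm_apply, mul_one]
    conv_lhs => rw [h2]
    rw [map_smul, ← hc, ← mul_smul]
    rfl

end coord

section system
variable {K : Subfield ℂ} {G : Type} [Group G] {X : Type} [MulAction G X] [FC G X]

/-- the kernel of an operator over `K` with a distinguished variable at the orbit of a vertex as a local system -/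
theorem exists_system {V : Type} [MulAction G V] {T : SimpleGraph V} (hT : T.IsTree)
    (hA : ∀ (g : G) (v w : V), T.Adj v w → T.Adj (g • v) (g • w)) {v w : V} (h0 : T.Adj v w) {a : X →[G] V}
    (ho : ∀ x, a x ∈ MulAction.orbit G v) {k b : ℕ} {S : L2 (X ⊕ Fr G (Fin k)) →L[ℂ] L2 (Fr G (Fin b))}
    (hS : KOp K G S) :
    ∃ (m : ℕ) (δ : Fr G (Fin m) →[G] V × V) (L : Submodule ℂ (L2 (Fr G (Fin m) ⊕ X)))
      (M₁ : Submodule ℂ (L2 (Fr G (Fin m)))),
      (∀ x, T.Adj (δ x).1 (δ x).2) ∧ Md G L ∧ Md G M₁ ∧ Loc ((psum (tailHom G V)).comp (dsum δ a)) L ∧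
      Loc ((edgeHom G V).comp δ) M₁ ∧
      (∀ q, Rat K (MulAction.stabilizer G q) (loc ((psum (tailHom G V)).comp (dsum δ a)) q L)) ∧
      (∀ q, Rat K (MulAction.stabilizer G q) (loc ((edgeHom G V).comp δ) q M₁)) ∧
      ∀ Z : Submodule ℂ (L2 X), Md G Z →
        vd G (L ⊓ sm M₁ Z) = vd G (kr S ⊓ Z.comap (pl X (Fr G (Fin k)) : L2 (X ⊕ Fr G (Fin k)) →ₗ[ℂ] L2 X)) := by
  classical
  obtain ⟨r, eX, heX, haX⟩ := exists_coord a v ho
  let e : X ⊕ Fr G (Fin k) ≃ Fr G (Fin (r + k)) := (Equiv.sumCongr eX (Equiv.refl (Fr G (Fin k)))).trans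
    ((Equiv.prodSumDistrib G (Fin r) (Fin k)).symm.trans (Equiv.prodCongr (Equiv.refl G) finSumFinEquiv))
  have he1 : ∀ x : X, e (Sum.inl x) = ((eX x).1, Fin.castAdd k (eX x).2) := fun x => rfl
  have he2 : ∀ y : Fr G (Fin k), e (Sum.inr y) = (y.1, Fin.natAdd r y.2) := fun y => rfl
  have he : ∀ (g : G) (x : X ⊕ Fr G (Fin k)), e (g • x) = g • e x := by
    rintro g (x | y)
    · show e (Sum.inl (g • x)) = g • e (Sum.inl x)
      rw [he1, he1, heX]
      rfl
    · rfl
  have hS' : KOp K G (S.comp (pull e e.injective)) := hS.comp (kop_pull e.injective he)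
  obtain ⟨M, hM⟩ := exists_matrix hS'
  obtain ⟨m, δ, M₀, M₁, p, J, hadj, hM₀, hM₁, lM₀, lM₁, qM₀, qM₁, hp, hJe, hJp, hJk, hJs⟩ :=
    linearise_strong hT hA h0 M
  have hpinj : Function.Injective p := by
    intro i j hij
    by_contra hne
    let u : E G (Fin (r + k)) := (dl ((1, i) : Fr G (Fin (r + k))) : L2 (Fr G (Fin (r + k))))
    have h1 := hJp u 1 i
    have h2 := hJp u 1 j
    rw [hij] at h1
    rw [h1] at h2
    have h3 : u (1, i) = 1 := dl_apply_self ((1, i) : Fr G (Fin (r + k)))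
    have h4 : u (1, j) = 0 := dl_apply_ne (x := ((1, i) : Fr G (Fin (r + k)))) (y := ((1, j) : Fr G (Fin (r + k))))
      fun h => hne (congrArg Prod.snd h).symm
    rw [h3, h4] at h2
    exact one_ne_zero h2
  let π : X → Fr G (Fin m) := fun x => ((eX x).1, p (Fin.castAdd k (eX x).2))
  have hπ : Function.Injective π := by
    intro x y hxy
    apply eX.injective
    have hxy' : ((eX x).1, p (Fin.castAdd k (eX x).2)) = ((eX y).1, p (Fin.castAdd k (eX y).2)) := hxy
    rw [Prod.mk.injEq] at hxy'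
    exact Prod.ext hxy'.1 (Fin.castAdd_injective r k (hpinj hxy'.2))
  have hπe : ∀ (g : G) (x : X), π (g • x) = g • π x := by
    intro g x
    show ((eX (g • x)).1, p (Fin.castAdd k (eX (g • x)).2)) = _
    rw [heX]
    rfl
  have hδ : ∀ x : X, (δ (π x)).1 = a x := by
    intro x
    let y : Fr G (Fin m) := (1, p (Fin.castAdd k (eX x).2))
    have h1 : π x = (eX x).1 • y := by
      rw [fr_smul, mul_one]
    rw [h1, map_smul]
    show (eX x).1 • (δ y).1 = a x
    rw [hp, haX]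
  let U := Fr G (Fin m)
  let R : L2 (U ⊕ X) →L[ℂ] L2 X := pr U X - (pull π hπ).comp (pl U X)
  have hR : KOp K G R := kop_pr.sub ((kop_pull hπ hπe).comp kop_pl)
  let L : Submodule ℂ (L2 (U ⊕ X)) := M₀.comap (pl U X : L2 (U ⊕ X) →ₗ[ℂ] L2 U) ⊓ kr R
  have hL : Md G L := (Md.comap (kop_pl (K := K)).equi hM₀).inf (md_kr hR.equi)
  let bb : U ⊕ X →[G] V := (psum (tailHom G V)).comp (dsum δ a)
  -- locality of the graph
  have hloc2 := kr_loc hR bb a (by
    intro y x hxy
    rcases y with u | x'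
    · have h1 : R (dl (Sum.inl u)) x = - (if π x = u then 1 else 0) := by
        show pr U X (dl (Sum.inl u)) x - pull π hπ (pl U X (dl (Sum.inl u))) x = _
        have h2 : pr U X (dl (Sum.inl u)) x = 0 := by
          exact dl_apply_ne Sum.inr_ne_inl
        have h3 : pull π hπ (pl U X (dl (Sum.inl u))) x = if π x = u then 1 else 0 := by
          show (dl (Sum.inl u) : L2 (U ⊕ X)) (Sum.inl (π x)) = _
          by_cases h : π x = u
          · rw [if_pos h, h, dl_apply_self]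
          · rw [if_neg h, dl_apply_ne fun h' => h (Sum.inl.inj h')]
        rw [h2, h3, zero_sub]
      rw [h1] at hxy
      by_cases h : π x = u
      · show (δ u).1 = a x
        rw [← h, hδ]
      · rw [if_neg h] at hxy
        exact absurd neg_zero hxy
    · have h1 : R (dl (Sum.inr x')) x = if x = x' then 1 else 0 := by
        show pr U X (dl (Sum.inr x')) x - pull π hπ (pl U X (dl (Sum.inr x'))) x = _
        have h2 : pr U X (dl (Sum.inr x')) x = if x = x' then 1 else 0 := by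
          show (dl (Sum.inr x') : L2 (U ⊕ X)) (Sum.inr x) = _
          by_cases h : x = x'
          · rw [if_pos h, h, dl_apply_self]
          · rw [if_neg h, dl_apply_ne fun h' => h (Sum.inr.inj h')]
        have h3 : pull π hπ (pl U X (dl (Sum.inr x'))) x = 0 := by
          exact dl_apply_ne Sum.inl_ne_inr
        rw [h2, h3, sub_zero]
      rw [h1] at hxy
      by_cases h : x = x'
      · show a x' = a x
        rw [h]
      · rw [if_neg h] at hxy
        exact absurd rfl hxy)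
  have hloc1 : Loc bb (M₀.comap (pl U X : L2 (U ⊕ X) →ₗ[ℂ] L2 U)) := by
    intro q f hf
    show pl U X (cu {x | bb x = q} f) ∈ M₀
    have h1 : pl U X (cu {x | bb x = q} f) = cu {x | ((tailHom G V).comp δ) x = q} (pl U X f) := by
      ext x
      show cu {x | bb x = q} f (Sum.inl x) = _
      rw [cu_apply, cu_apply]
      rfl
    rw [h1]
    exact lM₀ q _ hf
  have hq1 : ∀ q, Rat K (MulAction.stabilizer G q) (loc bb q (M₀.comap (pl U X : L2 (U ⊕ X) →ₗ[ℂ] L2 U))) := by
    intro q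
    let ι : Fib ((tailHom G V).comp δ) q → Fib bb q := fun x => ⟨Sum.inl x.1, x.2⟩
    have hι : Function.Injective ι := fun x y h => Subtype.ext (Sum.inl.inj (congrArg Subtype.val h))
    have h1 := (qM₀ q).comap (kop_pull (K := K) (H := MulAction.stabilizer G q) hι (fun _ _ => rfl))
    have h2 : (loc ((tailHom G V).comp δ) q M₀).comap (pull ι hι : L2 (Fib bb q) →ₗ[ℂ] L2 (Fib ((tailHom G V).comp δ) q)) =
        loc bb q (M₀.comap (pl U X : L2 (U ⊕ X) →ₗ[ℂ] L2 U)) := by
      ext f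
      rw [mem_comap', mem_loc, mem_loc, mem_comap']
      have h3 : push (fi ((tailHom G V).comp δ) q) (fi_inj _ _) (pull ι hι f) =
          pl U X (push (fi bb q) (fi_inj _ _) f) := by
        ext x
        show _ = push (fi bb q) (fi_inj _ _) f (Sum.inl x)
        by_cases hx : ((tailHom G V).comp δ) x = q
        · have h4 := push_apply (fi ((tailHom G V).comp δ) q) (fi_inj _ _) (pull ι hι f) ⟨x, hx⟩
          have h5 := push_apply (fi bb q) (fi_inj _ _) f (ι ⟨x, hx⟩)
          exact h4.trans h5.symm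
        · rw [push_apply_of_notMem, push_apply_of_notMem]
          · rintro ⟨y, hy⟩
            apply hx
            have h4 : bb (Sum.inl x) = q := by
              rw [← hy]
              exact y.2
            exact h4
          · rintro ⟨y, hy⟩
            apply hx
            rw [← hy]
            exact y.2
      rw [h3]
    rwa [h2] at h1
  refine ⟨m, δ, L, M₁, hadj, hL, hM₁, hloc1.inf hloc2.1, lM₁, fun q => (hq1 q).inf (hloc2.2 q), qM₁, fun Z hZ => ?_⟩
  -- the comparison map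
  let j1 : L2 (X ⊕ Fr G (Fin k)) →L[ℂ] E G (Fin (r + k)) := push e e.injective
  let Θ : L2 (X ⊕ Fr G (Fin k)) →L[ℂ] L2 (U ⊕ X) := (il U X).comp (J.comp j1) + (ir U X).comp (pl X (Fr G (Fin k)))
  have hj1 : ∀ (g : G) (f : L2 (X ⊕ Fr G (Fin k))), j1 (la g f) = lam g (j1 f) := by
    intro g f
    exact (kop_push (K := K) (H := G) e.injective he).equi g f
  have hΘ : ∀ (g : G) (f : L2 (X ⊕ Fr G (Fin k))), Θ (la g f) = la g (Θ f) := by
    intro g f
    show il U X (J (j1 (la g f))) + ir U X (pl X (Fr G (Fin k)) (la g f)) =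
      la g (il U X (J (j1 f)) + ir U X (pl X (Fr G (Fin k)) f))
    rw [hj1, hJe, map_add (la g), (kop_il (K := K) (H := G)).equi, (kop_pl (K := K) (H := G)).equi,
      (kop_ir (K := K) (H := G)).equi]
  have hplΘ : ∀ f, pl U X (Θ f) = J (j1 f) := by
    intro f
    show pl U X (il U X (J (j1 f)) + ir U X (pl X (Fr G (Fin k)) f)) = _
    rw [map_add, pl_il, pl_ir, add_zero]
  have hprΘ : ∀ f, pr U X (Θ f) = pl X (Fr G (Fin k)) f := by
    intro f
    show pr U X (il U X (J (j1 f)) + ir U X (pl X (Fr G (Fin k)) f)) = _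
    rw [map_add, pr_il, pr_ir, zero_add]
  have hpp : ∀ f : E G (Fin (r + k)), j1 (pull e e.injective f) = f := push_pull_equiv e
  have hxJ : ∀ f : L2 (X ⊕ Fr G (Fin k)), pull π hπ (J (j1 f)) = pl X (Fr G (Fin k)) f := by
    intro f
    ext x
    show J (j1 f) ((eX x).1, p (Fin.castAdd k (eX x).2)) = f (Sum.inl x)
    rw [hJp]
    exact push_apply e e.injective f (Sum.inl x)
  have hker : kr Θ = ⊥ := by
    rw [eq_bot_iff]
    intro f hf
    have h1 : Θ f = 0 := hf
    have h2 : J (j1 f) = 0 := by rw [← hplΘ, h1, map_zero]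
    rw [Submodule.mem_bot]
    have h3 : j1 f = 0 := by
      ext y
      have h4 := hJp (j1 f) y.1 y.2
      rw [h2] at h4
      exact h4.symm
    have h4 : pull e e.injective (j1 f) = f := pull_push _ _ _
    have h5 : pull e e.injective (j1 f) = 0 := by
      rw [h3]
      exact map_zero (pull e e.injective)
    rw [← h4, h5]
  have hRm : Md G (kr S ⊓ Z.comap (pl X (Fr G (Fin k)) : L2 (X ⊕ Fr G (Fin k)) →ₗ[ℂ] L2 X)) :=
    (md_kr hS.equi).inf (Md.comap (kop_pl (K := K)).equi hZ)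
  have hkey := vd_im_add hΘ hRm
  rw [hker, inf_bot_eq, vd_bot, add_zero] at hkey
  rw [← hkey]
  have hLs : Md G (L ⊓ sm M₁ Z) := hL.inf (md_sm hM₁ hZ)
  congr 1
  have hMf : ∀ f : L2 (X ⊕ Fr G (Fin k)), hatK M (j1 f) = S f := by
    intro f
    have h1 : (S.comp (pull e e.injective)) (push e e.injective f) = hatK M (j1 f) :=
      congrArg (fun u : E G (Fin (r + k)) →L[ℂ] E G (Fin b) => u (j1 f)) hM
    rw [← h1]
    show S (pull e e.injective (push e e.injective f)) = S f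
    rw [pull_push]
  apply le_antisymm
  · rintro η ⟨⟨h1, h2⟩, ⟨h3, h4⟩⟩
    have h1' : pl U X η ∈ M₀ := h1
    have h2' : pr U X η - pull π hπ (pl U X η) = 0 := h2
    have h3' : pl U X η ∈ M₁ := h3
    obtain ⟨f, hf⟩ := hJs (pl U X η) ⟨h1', h3'⟩
    have h5 : hatK M f = 0 := (hJk f).2 (by rw [hf]; exact ⟨h1', h3'⟩)
    let ξ : L2 (X ⊕ Fr G (Fin k)) := pull e e.injective f
    have h6 : j1 ξ = f := hpp f
    refine map_le_im ⟨ξ, ⟨?_, ?_⟩, ?_⟩
    · show S ξ = 0
      exact (hMf ξ).symm.trans (by rw [h6]; exact h5)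
    · show pl X (Fr G (Fin k)) ξ ∈ Z
      rw [← hxJ, h6, hf, ← sub_eq_zero.1 h2']
      exact h4
    · apply pl_pr_ext
      · show pl U X (Θ ξ) = pl U X η
        rw [hplΘ, h6, hf]
      · show pr U X (Θ ξ) = pr U X η
        rw [hprΘ, ← hxJ, h6, hf, ← sub_eq_zero.1 h2']
  · refine im_le hLs.cl ?_
    rintro f ⟨h1, h2⟩
    have h1' : S f = 0 := h1
    have h2' : pl X (Fr G (Fin k)) f ∈ Z := h2
    have h3 : J (j1 f) ∈ M₀ ⊓ M₁ := (hJk (j1 f)).1 ((hMf f).trans h1')
    refine ⟨⟨?_, ?_⟩, ⟨?_, ?_⟩⟩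
    · show pl U X (Θ f) ∈ M₀
      rw [hplΘ]
      exact h3.1
    · show pr U X (Θ f) - pull π hπ (pl U X (Θ f)) = 0
      rw [hprΘ, hplΘ, hxJ, sub_self]
    · show pl U X (Θ f) ∈ M₁
      rw [hplΘ]
      exact h3.2
    · show pr U X (Θ f) ∈ Z
      rw [hprΘ]
      exact h2'

end system

end ATY
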