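import Pool.Agent.ATY.S
import Pool.Agent.ATY.F

/-!
# Groups acting on products of trees
-/

set_option autoImplicit false

namespace ATY
open Singer Pool.WeakAtiyah

section aux
variable {G : Type} [Group G]

lemma finiteIndex_of_orbit {V W : Type} [MulAction G V] [MulAction G W] (v : V) (w : W)
    (h : (MulAction.orbit (MulAction.stabilizer G v) w).Finite) :
    ((MulAction.stabilizer G w).subgroupOf (MulAction.stabilizer G v)).FiniteIndex := by
  have h1 : (MulAction.stabilizer G w).subgroupOf (MulAction.stabilizer G v) =
      MulAction.stabilizer (MulAction.stabilizer G v) w := rfl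
  rw [h1]
  have h2 : Finite (MulAction.orbit (MulAction.stabilizer G v) w) := h
  have h3 : Finite ((MulAction.stabilizer G v) ⧸ MulAction.stabilizer (MulAction.stabilizer G v) w) :=
    Finite.of_equiv _ (MulAction.orbitEquivQuotientStabilizer (MulAction.stabilizer G v) w)
  exact Subgroup.finiteIndex_of_finite_quotient

lemma orbit_finite_of_subgroup {V : Type} [MulAction G V] (H : Subgroup G) (v w : V)
    (h : (MulAction.orbit (MulAction.stabilizer G v) w).Finite) :
    (MulAction.orbit (MulAction.stabilizer H v) w).Finite := by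
  refine h.subset ?_
  rintro _ ⟨g, rfl⟩
  exact ⟨⟨((g : H) : G), g.2⟩, rfl⟩

end aux

/-- Let `G` act without inversions on the trees `T i`, `i : Fin r`, such that the orbits of the stabiliser of a vertex on the
neighbours are finite. If the ranks over `K[G_v]` are in `(1/n) ℤ` for all the stabilisers `G_v` of the points
`v = (v_1, ..., v_r)` of the product, then the ranks over `K[G]` are in `(1/n) ℤ`. -/
theorem trees_main {K : Subfield ℂ} {n : ℕ} (hn : 0 < n) (r : ℕ) : ∀ {G : Type} [Group G] {V : Fin r → Type}
    [∀ i, MulAction G (V i)] {T : ∀ i, SimpleGraph (V i)}, (∀ i, (T i).IsTree) →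
    (∀ i (g : G) (v w : V i), (T i).Adj v w → (T i).Adj (g • v) (g • w)) →
    (∀ i (g : G) (v w : V i), (T i).Adj v w → g • v = w → g • w ≠ v) →
    (∀ i (v w : V i), (T i).Adj v w → (MulAction.orbit (MulAction.stabilizer G v) w).Finite) →
    (∀ v : ∀ i, V i, RanksIn K (⨅ i, MulAction.stabilizer G (v i) : Subgroup G) n) → RanksIn K G n := by
  induction r with
  | zero =>
    intro G _ V _ T _ _ _ _ hR
    have h1 := hR (fun i => i.elim0)
    have h2 : ∀ g : G, g ∈ (⨅ i : Fin 0, MulAction.stabilizer G ((fun i => i.elim0 : ∀ i, V i) i) : Subgroup G) := by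
      intro g
      rw [Subgroup.mem_iInf]
      intro i
      exact i.elim0
    refine ranksIn_of_injective (⟨⟨fun g => ⟨g, h2 g⟩, rfl⟩, fun _ _ => rfl⟩ :
      G →* (⨅ i : Fin 0, MulAction.stabilizer G ((fun i => i.elim0 : ∀ i, V i) i) : Subgroup G)) ?_ h1
    intro a b hab
    exact congrArg Subtype.val hab
  | succ r ih =>
    intro G _ V _ T hT hA hI hF hR
    have key : ∀ v : V 0, RanksIn K (MulAction.stabilizer G v) n := by
      intro v
      refine ih (G := MulAction.stabilizer G v) (V := fun i => V i.succ) (T := fun i => T i.succ)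
        (fun i => hT i.succ) (fun i g => hA i.succ (g : G)) (fun i g => hI i.succ (g : G))
        (fun i x y hxy => orbit_finite_of_subgroup _ x y (hF i.succ x y hxy)) ?_
      intro u
      refine ranksIn_of_injective (⟨⟨fun g => ⟨((g : MulAction.stabilizer G v) : G), ?_⟩, rfl⟩, fun _ _ => rfl⟩ :
        (⨅ i, MulAction.stabilizer (MulAction.stabilizer G v) (u i) : Subgroup (MulAction.stabilizer G v)) →*
          (⨅ i, MulAction.stabilizer G ((Fin.cons v u : ∀ i, V i) i) : Subgroup G)) ?_ (hR (Fin.cons v u))
      · rw [Subgroup.mem_iInf]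
        intro i
        refine Fin.cases ?_ (fun j => ?_) i
        · exact (g : MulAction.stabilizer G v).2
        · have h1 := (Subgroup.mem_iInf.1 g.2) j
          exact h1
      · intro a b hab
        have h3 : ((a : MulAction.stabilizer G v) : G) = ((b : MulAction.stabilizer G v) : G) :=
          congrArg (fun x : (⨅ i, MulAction.stabilizer G ((Fin.cons v u : ∀ i, V i) i) : Subgroup G) => (x : G)) hab
        exact Subtype.ext (Subtype.ext h3)
    refine tree_main hn (hT 0) (hA 0) (hI 0) ?_ key
    intro v w hvw
    have := finiteIndex_of_orbit v w (hF 0 v w hvw)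
    exact ssp_of_finiteIndex hn (key v) _

end ATY
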