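import Pool.Agent.Singer.Gen.HalfTree

/-!
# MP_585e9a_FREE, row TR: half-trees

`HT.half T v w` is the side of `v` of the edge `v w`.
* `exists_nbr`, `disj`, `half_eq`: the half-trees at a vertex;
* `exists_dart`, `sep_finite`, `sep_finite_set`: finitely many darts separate two vertices;
* `dist_of_mem`, `mem_iff_dist`: description by distances;
* `free_sep_finite`, `free_sep_empty`: the separating elements of a group which acts freely.
-/

set_option autoImplicit false

namespace ATY
namespace TR
open Singer HT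

variable {V : Type*} {T : SimpleGraph V}

lemma mem_of_walk {v w a u : V} (p : T.Walk a u) (ha : a ∈ half T w v) (hv : v ∉ p.support) : u ∈ half T w v := by
  induction p with
  | nil => exact ha
  | @cons a b c hab p ih =>
    rw [SimpleGraph.Walk.support_cons, List.mem_cons, not_or] at hv
    have hb : v ≠ b := fun h => hv.2 (by rw [h]; exact p.start_mem_support)
    refine ih ((half_step' hab (fun h => hb h.2.symm) (fun h => hv.1 h.1.symm)).1 ha) hv.2

/-- a half-tree is reached without passing through the removed vertex -/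
lemma exists_walk (hT : T.IsTree) {v w u : V} (h : T.Adj v w) (hu : u ∈ half T w v) :
    ∃ p : T.Walk w u, v ∉ p.support := by
  obtain ⟨p⟩ := hu
  suffices H : ∀ (a u : V) (p : (T.deleteEdges {s(w, v)}).Walk a u), a ∈ half T w v →
      ∃ q : T.Walk a u, v ∉ q.support from H w u p (mem_half_self w v)
  intro a u p
  induction p with
  | @nil a =>
    intro ha
    refine ⟨SimpleGraph.Walk.nil, ?_⟩
    rw [SimpleGraph.Walk.support_nil, List.mem_singleton]
    rintro rfl
    exact notMem_half hT h.symm ha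
  | @cons a b c hab p ih =>
    intro ha
    have hab' := hab
    rw [SimpleGraph.deleteEdges_adj] at hab
    obtain ⟨q, hq⟩ := ih ((half_step hab.1 fun h2 => hab.2 h2).1 ha)
    refine ⟨SimpleGraph.Walk.cons hab.1 q, ?_⟩
    rw [SimpleGraph.Walk.support_cons, List.mem_cons, not_or]
    refine ⟨?_, hq⟩
    rintro rfl
    exact notMem_half hT h.symm ha

/-- every vertex different from `v` is in the half-tree of a neighbour of `v` -/
theorem exists_nbr (hT : T.IsTree) {v u : V} (h : u ≠ v) : ∃ w, T.Adj v w ∧ u ∈ half T w v := by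
  classical
  obtain ⟨p⟩ := hT.connected.preconnected v u
  have hq := p.bypass_isPath
  revert hq
  generalize p.bypass = q
  intro hq
  cases q with
  | nil => exact absurd rfl h
  | @cons _ w _ hvw q =>
    rw [SimpleGraph.Walk.cons_isPath_iff] at hq
    exact ⟨w, hvw, mem_of_walk q (mem_half_self w v) hq.2⟩

/-- the half-trees of different neighbours are disjoint -/
theorem disj (hT : T.IsTree) {v w w' u : V} (h : T.Adj v w) (h' : T.Adj v w') (hu : u ∈ half T w v)
    (hu' : u ∈ half T w' v) : w = w' := by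
  by_contra hne
  obtain ⟨p, hp⟩ := exists_walk hT h' hu'
  -- `w'` is on the side of `v` of the edge `v w`
  have h1 : w' ∈ half T v w := by
    refine (half_step h' fun h2 => ?_).1 (mem_half_self v w)
    rw [Sym2.eq_iff] at h2
    rcases h2 with h2 | h2
    · exact hne h2.2.symm
    · exact h.ne h2.1
  suffices H : ∀ (a u : V) (p : T.Walk a u), v ∉ p.support → a ∈ half T v w → u ∈ half T v w by
    exact (half_iff hT h u).1 (H w' u p hp h1) hu
  intro a u p
  induction p with
  | nil => exact fun _ ha => ha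
  | @cons a b c hab p ih =>
    intro hv ha
    rw [SimpleGraph.Walk.support_cons, List.mem_cons, not_or] at hv
    have hb : v ≠ b := fun h => hv.2 (by rw [h]; exact p.start_mem_support)
    exact ih hv.2 ((half_step' hab (fun h => hv.1 h.1.symm) (fun h => hb h.2.symm)).1 ha)

lemma half_ne (hT : T.IsTree) {v w : V} (h : T.Adj v w) {u : V} (hu : u ∈ half T w v) : u ≠ v := by
  rintro rfl
  exact notMem_half hT h.symm hu

/-- the half-trees at `v` cover the complement of `v` -/
theorem ne_iff (hT : T.IsTree) {v u : V} : u ≠ v ↔ ∃ w, T.Adj v w ∧ u ∈ half T w v :=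
  ⟨exists_nbr hT, fun ⟨_, h, hu⟩ => half_ne hT h hu⟩

/-- nested half-trees -/
theorem half_sub (hT : T.IsTree) {u w u' : V} (h : T.Adj u w) (h' : T.Adj u u') (hne : u' ≠ w) :
    half T u' u ⊆ half T u w := by
  intro x hx
  rw [half_iff hT h]
  exact fun h2 => hne (disj hT h' h hx h2)

/-- decomposition of a half-tree -/
theorem mem_half_iff (hT : T.IsTree) {u w x : V} (h : T.Adj u w) :
    x ∈ half T u w ↔ x = u ∨ ∃ u', T.Adj u u' ∧ u' ≠ w ∧ x ∈ half T u' u := by
  constructor
  · intro hx
    by_cases hxu : x = u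
    · exact Or.inl hxu
    · obtain ⟨u', h1, h2⟩ := exists_nbr hT hxu
      refine Or.inr ⟨u', h1, ?_, h2⟩
      rintro rfl
      exact (half_iff hT h x).1 hx h2
  · rintro (rfl | ⟨u', h1, h2, h3⟩)
    · exact mem_half_self _ _
    · exact half_sub hT h h1 h2 h3

theorem half_eq (hT : T.IsTree) {u w : V} (h : T.Adj u w) :
    half T u w = {u} ∪ ⋃ u' ∈ {u' | T.Adj u u' ∧ u' ≠ w}, half T u' u := by
  ext x
  rw [mem_half_iff hT h]
  simp only [Set.mem_union, Set.mem_singleton_iff, Set.mem_iUnion, exists_prop]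
  constructor
  · rintro (h1 | ⟨u', h1, h2, h3⟩)
    · exact Or.inl h1
    · exact Or.inr ⟨u', ⟨h1, h2⟩, h3⟩
  · rintro (h1 | ⟨u', h1, h3⟩)
    · exact Or.inl h1
    · exact Or.inr ⟨u', h1.1, h1.2, h3⟩

/-- complementary half-trees -/
theorem half_compl (hT : T.IsTree) {v w : V} (h : T.Adj v w) : (half T v w)ᶜ = half T w v := by
  ext u
  rw [Set.mem_compl_iff, half_iff hT h, not_not]

/-- a walk which leaves a half-tree passes through its dart -/
theorem exists_dart (hT : T.IsTree) {v w : V} (h : T.Adj v w) {a b : V} (q : T.Walk a b) (ha : a ∈ half T v w)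
    (hb : b ∉ half T v w) : (v, w) ∈ q.darts.map SimpleGraph.Dart.toProd := by
  induction q with
  | nil => exact absurd ha hb
  | @cons a c b hac q ih =>
    rw [SimpleGraph.Walk.darts_cons, List.map_cons, List.mem_cons]
    by_cases hc : c ∈ half T v w
    · exact Or.inr (ih hc hb)
    · left
      by_cases h1 : a = v ∧ c = w
      · show (v, w) = (a, c)
        rw [h1.1, h1.2]
      · by_cases h2 : a = w ∧ c = v
        · exact absurd (h2.1 ▸ ha) (notMem_half hT h)
        · exact absurd ((half_step' hac h1 h2).1 ha) hc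

/-- the darts which separate `a` from `b` -/
def sep (T : SimpleGraph V) (a b : V) : Set (V × V) :=
  {p | T.Adj p.1 p.2 ∧ a ∈ half T p.1 p.2 ∧ b ∉ half T p.1 p.2}

theorem sep_finite (hT : T.IsTree) (a b : V) : (sep T a b).Finite := by
  obtain ⟨q⟩ := hT.connected.preconnected a b
  refine (q.darts.map SimpleGraph.Dart.toProd).finite_toSet.subset ?_
  rintro ⟨v, w⟩ ⟨h1, h2, h3⟩
  exact exists_dart hT h1 q h2 h3

theorem sep_finite_set (hT : T.IsTree) {A B : Set V} (hA : A.Finite) (hB : B.Finite) :
    {p : V × V | T.Adj p.1 p.2 ∧ ∃ a ∈ A, ∃ b ∈ B, a ∈ half T p.1 p.2 ∧ b ∉ half T p.1 p.2}.Finite := by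
  refine (hA.biUnion fun a _ => hB.biUnion fun b _ => sep_finite hT a b).subset ?_
  rintro p ⟨h, a, ha, b, hb, h1, h2⟩
  simp only [Set.mem_iUnion]
  exact ⟨a, ha, b, hb, h, h1, h2⟩

/-- a walk which leaves a half-tree can be shortened to start at the far end of the dart -/
lemma exists_shorter (hT : T.IsTree) {v w : V} (h : T.Adj v w) {a b : V} (q : T.Walk a b) (ha : a ∈ half T v w)
    (hb : b ∉ half T v w) : ∃ q' : T.Walk w b, q'.length + 1 ≤ q.length := by
  induction q with
  | nil => exact absurd ha hb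
  | @cons a c b hac q ih =>
    rw [SimpleGraph.Walk.length_cons]
    by_cases hc : c ∈ half T v w
    · obtain ⟨q', hq'⟩ := ih hc hb
      exact ⟨q', by omega⟩
    · by_cases h1 : a = v ∧ c = w
      · obtain ⟨rfl, rfl⟩ := h1
        exact ⟨q, le_refl _⟩
      · by_cases h2 : a = w ∧ c = v
        · exact absurd (h2.1 ▸ ha) (notMem_half hT h)
        · exact absurd ((half_step' hac h1 h2).1 ha) hc

/-- distances -/
theorem dist_of_mem (hT : T.IsTree) {u w v : V} (h : T.Adj u w) (hv : v ∈ half T w u) :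
    T.dist u v = T.dist w v + 1 := by
  have h1 : v ∉ half T u w := fun h2 => (half_iff hT h v).1 h2 hv
  obtain ⟨q, hq⟩ := (hT.connected.preconnected u v).exists_walk_length_eq_dist
  obtain ⟨q', hq'⟩ := exists_shorter hT h q (mem_half_self u w) h1
  have h2 := SimpleGraph.dist_le q'
  have h3 : T.dist u v ≤ T.dist u w + T.dist w v := hT.connected.dist_triangle
  rw [SimpleGraph.dist_eq_one_iff_adj.2 h] at h3
  omega

theorem mem_iff_dist (hT : T.IsTree) {u w v : V} (h : T.Adj u w) :
    v ∈ half T w u ↔ T.dist w v < T.dist u v := by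
  constructor
  · intro hv
    have := dist_of_mem hT h hv
    omega
  · intro hd
    by_contra hv
    have h1 : v ∈ half T u w := (half_iff hT h v).2 hv
    have := dist_of_mem hT h.symm h1
    omega

section action
variable {G : Type*} [Group G] [MulAction G V]

/-- a dart separates `g • x` from `g • y` iff its translate separates `x` from `y` -/
lemma sep_smul (hact : Acts G T) (g : G) {x y v w : V} :
    (v, w) ∈ sep T (g • x) (g • y) ↔ (g⁻¹ • v, g⁻¹ • w) ∈ sep T x y := by
  have h1 : T.Adj v w ↔ T.Adj (g⁻¹ • v) (g⁻¹ • w) := (hact.iff g⁻¹ v w).symm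
  have h2 : ∀ z, g • z ∈ half T v w ↔ z ∈ half T (g⁻¹ • v) (g⁻¹ • w) := by
    intro z
    have := hact.half_iff g (v := g⁻¹ • v) (w := g⁻¹ • w) (u := z)
    rwa [smul_inv_smul, smul_inv_smul] at this
  show (T.Adj v w ∧ g • x ∈ half T v w ∧ g • y ∉ half T v w) ↔
    (T.Adj (g⁻¹ • v) (g⁻¹ • w) ∧ x ∈ half T (g⁻¹ • v) (g⁻¹ • w) ∧ y ∉ half T (g⁻¹ • v) (g⁻¹ • w))
  rw [h1, h2 x, h2 y]

/-- free action: finitely many translates of a pair are separated by a given dart -/
theorem free_sep_finite (hT : T.IsTree) (hact : Acts G T) (hf : ∀ (g : G) (v : V), g • v = v → g = 1) (x y v w : V) :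
    {g : G | (v, w) ∈ sep T (g • x) (g • y)}.Finite := by
  refine Set.Finite.of_finite_image (f := fun g : G => (g⁻¹ • v, g⁻¹ • w)) ((sep_finite hT x y).subset ?_) ?_
  · rintro _ ⟨g, hg, rfl⟩
    exact (sep_smul hact g).1 hg
  · intro g _ g' _ h
    have h1 : g⁻¹ • v = g'⁻¹ • v := congrArg Prod.fst h
    have h2 : (g' * g⁻¹) • v = v := by rw [mul_smul, h1, smul_inv_smul]
    have h3 := hf _ _ h2
    exact (mul_inv_eq_one.1 h3).symm

/-- the darts which separate a translate of `(x, y)` are in finitely many orbits -/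
theorem sep_orbits (hact : Acts G T) {x y v w : V} {g : G} (h : (v, w) ∈ sep T (g • x) (g • y)) :
    ∃ p ∈ sep T x y, v = g • p.1 ∧ w = g • p.2 :=
  ⟨(g⁻¹ • v, g⁻¹ • w), (sep_smul hact g).1 h, (smul_inv_smul g v).symm, (smul_inv_smul g w).symm⟩

end action

end TR

open Singer HT

/-- the complement of `{v}` is the disjoint union of the half trees of the darts `(w, v)` -/
theorem half_exists_unique {V : Type} {T : SimpleGraph V} (hT : T.IsTree) {v u : V} (h : u ≠ v) :
    ∃! w, T.Adj v w ∧ u ∈ half T w v := by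
  obtain ⟨w, hw⟩ := TR.exists_nbr hT h
  exact ⟨w, hw, fun w' hw' => TR.disj hT hw'.1 hw.1 hw'.2 hw.2⟩

/-- two vertices are separated by finitely many darts -/
theorem half_sep_finite {V : Type} {T : SimpleGraph V} (hT : T.IsTree) (u u' : V) :
    {d : V × V | T.Adj d.1 d.2 ∧ u ∈ half T d.1 d.2 ∧ u' ∉ half T d.1 d.2}.Finite :=
  TR.sep_finite hT u u'

end ATY
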