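import Pool.Agent.ATY.FRC
import Pool.Agent.ATY.FRDefs
import Pool.Agent.ATY.TR

/-!
# MP_585e9a_TREE, row FR: a submodule whose induced module is rational has finitely many states
-/

set_option autoImplicit false

open scoped ComplexConjugate InnerProductSpace
open Filter Topology

namespace ATY
open Singer Singer.HT Pool.WeakAtiyah

/-- if at most zero orthonormal vectors fit into `S`, then `S = 0` -/
lemma eq_bot_of_orthonormal {E : Type*} [NormedAddCommGroup E] [InnerProductSpace ℂ E] {S : Submodule ℂ E}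
    (h : ∀ (R : ℕ) (ξ : Fin R → E), Orthonormal ℂ ξ → (∀ i, ξ i ∈ S) → R ≤ 0) : S = ⊥ := by
  rw [eq_bot_iff]
  intro w hw
  rw [Submodule.mem_bot]
  by_contra hne
  have h1 : Orthonormal ℂ (fun _ : Fin 1 => ((‖w‖ : ℂ)⁻¹ • w)) := by
    refine ⟨fun _ => ?_, fun i j hij => absurd (Subsingleton.elim i j) hij⟩
    rw [norm_smul, norm_inv, Complex.norm_real, norm_norm, inv_mul_cancel₀ (norm_ne_zero_iff.2 hne)]
  have h2 := h 1 _ h1 fun _ => S.smul_mem _ hw
  omega

theorem finSt_of_rat {K : Subfield ℂ} {A V Q X : Type} [Group A] [MulAction A V] [MulAction A Q] [MulAction A X] [FC A X]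
    {T : SimpleGraph V} (hT : FreeAct A T) (δ : X →[A] V) {W : Submodule ℂ (L2 X)} (_hW : Md A W)
    (hR : Rat K (Psi A Q) (hat Q W)) : FinSt T δ A W := by
  classical
  obtain ⟨m, b, S, hS, hhat⟩ := hR
  have hV : Nonempty V := hT.tree.connected.nonempty
  obtain ⟨v0⟩ := hV
  -- the groups
  set r : Psi A Q →* A := SemidirectProduct.rightHom with hr
  have hrr : ∀ l : Psi A Q, r l = l.right := fun l => rfl
  set N : Subgroup (Psi A Q) := r.ker with hN
  have hN1 : ∀ n : N, (n : Psi A Q).right = 1 := fun n => n.2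
  -- the slices
  set e : N → X → HX Q X := fun n x => hp (n : Psi A Q).left x with he
  have hinj : ∀ n, Function.Injective (e n) := fun n => hp_inj _
  have hdis : ∀ n n' x x', e n x = e n' x' → n = n' := by
    intro n n' x x' h
    have h1 : (n : Psi A Q).left = (n' : Psi A Q).left := congrArg Prod.fst h
    exact Subtype.ext (SemidirectProduct.ext h1 ((hN1 n).trans (hN1 n').symm))
  have heq : ∀ (n k : N) (x : X), (n : Psi A Q) • e k x = e (n * k) x := by
    intro n k x
    rw [he]
    change (n : Psi A Q) • hp (k : Psi A Q).left x = hp ((n : Psi A Q) * (k : Psi A Q)).left x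
    rw [hx_smul, SemidirectProduct.mul_left]
    refine Prod.ext rfl ?_
    show (n : Psi A Q).right • x = x
    rw [hN1, one_smul]
  -- the vertices
  set δZ : HX Q X ⊕ Fr (Psi A Q) (Fin m) → V := Sum.elim (fun p => δ p.2) (fun p => r p.1 • v0) with hδZ
  set δY : Fr (Psi A Q) (Fin b) → V := fun p => r p.1 • v0 with hδY
  have hZe : ∀ (l : Psi A Q) (z : HX Q X ⊕ Fr (Psi A Q) (Fin m)), δZ (l • z) = r l • δZ z := by
    rintro l (p | p)
    · change δ (l.right • p.2) = r l • δ p.2
      rw [map_smul]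
      rfl
    · change r (l * p.1) • v0 = r l • r p.1 • v0
      rw [map_mul, mul_smul]
  have hYe : ∀ (l : Psi A Q) (y : Fr (Psi A Q) (Fin b)), δY (l • y) = r l • δY y := by
    intro l p
    change r (l * p.1) • v0 = r l • r p.1 • v0
    rw [map_mul, mul_smul]
  have hact : Acts A T := fun g v w h => hT.adj g v w h
  obtain ⟨s, hsf, hs1, hs2⟩ := supp_fin (D := V × V) r hS δZ hZe δY hYe (fun d => half T d.1 d.2)
    (fun g d v => (hact.half_iff g).symm) (fun d => T.Adj d.1 d.2) (fun g d h => hT.adj g _ _ h)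
    (fun v w => TR.sep_finite hT.tree v w) (fun g d h => hT.free g d.1 (congrArg Prod.fst h))
  have key : ∀ d : V × V, T.Adj d.1 d.2 → ∃ B : ℕ, (FF S (δZ ⁻¹' half T d.1 d.2) (δY ⁻¹' half T d.1 d.2) = ∅ → B = 0) ∧
      ∀ (R : ℕ) (ξ : Fin R → L2 X), Orthonormal ℂ ξ → (∀ j, ξ j ∈ St T δ W d) → R ≤ B := by
    intro d hd
    obtain ⟨Y0, hY0, hF⟩ := hs2 d hd
    refine count_states N hS Sum.inl Sum.inl_injective (fun l x => rfl) e hinj hdis heq
      (δZ ⁻¹' half T d.1 d.2) (δY ⁻¹' half T d.1 d.2) (δ ⁻¹' half T d.1 d.2) ?_ ?_ ?_ hY0 ?_ ?_ ?_ hhat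
    · intro n z hz
      change δZ ((n : Psi A Q) • z) ∈ half T d.1 d.2
      rw [hZe, hrr, hN1, one_smul]
      exact hz
    · intro n y hy
      change δY ((n : Psi A Q) • y) ∈ half T d.1 d.2
      rw [hYe, hrr, hN1, one_smul]
      exact hy
    · intro n x
      exact Iff.rfl
    · intro y hy
      obtain ⟨l, hl, y0, hy0, h⟩ := hF y hy
      exact ⟨l, hl, y0, hy0, h⟩
    · intro f hf n
      exact mem_hat.1 hf _
    · intro w hw n
      rw [mem_hat]
      intro ν
      by_cases hν : (n : Psi A Q).left = ν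
      · have h1 : sl ν (push (e n) (hinj n) w) = w := by
          rw [← hν]
          exact pull_push _ _ _
        rw [h1]
        exact hw
      · have h1 : sl ν (push (e n) (hinj n) w) = 0 := by
          ext x
          rw [sl_apply, push_apply_of_notMem]
          · rfl
          · rintro ⟨x', hx'⟩
            exact hν (congrArg Prod.fst hx')
        rw [h1]
        exact W.zero_mem
  refine ⟨fun v w h => ?_, s, hsf, fun v w h hne => ?_⟩
  · obtain ⟨B, _, hB⟩ := key (v, w) h
    exact finiteDimensional_of_orthonormal hB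
  · obtain ⟨B, hB0, hB⟩ := key (v, w) h
    have h1 : FF S (δZ ⁻¹' half T v w) (δY ⁻¹' half T v w) ≠ ∅ := by
      intro h2
      apply hne
      refine eq_bot_of_orthonormal fun R ξ h3 h4 => ?_
      have h5 := hB R ξ h3 h4
      rwa [hB0 h2] at h5
    obtain ⟨y, hy⟩ := Set.nonempty_iff_ne_empty.2 h1
    obtain ⟨g, d, hd, hgd⟩ := hs1 (v, w) h y hy
    exact ⟨g, d, hd, congrArg Prod.fst hgd, congrArg Prod.snd hgd⟩

end ATY
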