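import Pool.Agent.ATY.A
import Pool.Agent.ATY.K

/-!
# MP_585e9a_TREE, row FR: preparations (adjoints, injective equivariant operators, slices)
-/

set_option autoImplicit false

open scoped ComplexConjugate InnerProductSpace
open Filter Topology

namespace ATY
open Singer Pool.WeakAtiyah

section abstract
variable {E F G : Type*} [NormedAddCommGroup E] [InnerProductSpace ℂ E] [CompleteSpace E]
  [NormedAddCommGroup F] [InnerProductSpace ℂ F] [NormedAddCommGroup G] [InnerProductSpace ℂ G] [CompleteSpace G]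

/-- if the kernel of `T₁` is contained in the kernel of `T₂` and `T₂` has a dense range, then `T₁ T₂*` is injective -/
theorem injective_comp_adjoint (T₁ : E →L[ℂ] F) (T₂ : E →L[ℂ] G) (h : ∀ x, T₁ x = 0 → T₂ x = 0)
    (hd : DenseRange T₂) : Function.Injective (T₁.comp (ContinuousLinearMap.adjoint T₂)) := by
  rw [injective_iff_map_eq_zero]
  intro u hu
  have h1 : T₂ (ContinuousLinearMap.adjoint T₂ u) = 0 := h _ hu
  have h2 : ContinuousLinearMap.adjoint T₂ u = 0 := by
    have h3 : ⟪ContinuousLinearMap.adjoint T₂ u, ContinuousLinearMap.adjoint T₂ u⟫_ℂ = 0 := by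
      rw [ContinuousLinearMap.adjoint_inner_left, h1, inner_zero_right]
    exact inner_self_eq_zero.1 h3
  have h4 : ∀ x, ⟪T₂ x, u⟫_ℂ = 0 := fun x => by
    rw [← ContinuousLinearMap.adjoint_inner_right, h2, inner_zero_right]
  have h5 : ∀ y, ⟪y, u⟫_ℂ = 0 := by
    intro y
    have hcl : IsClosed {y : G | ⟪y, u⟫_ℂ = 0} := isClosed_eq (continuous_id.inner continuous_const) continuous_const
    have hsub : Set.range T₂ ⊆ {y : G | ⟪y, u⟫_ℂ = 0} := by
      rintro _ ⟨x, rfl⟩
      exact h4 x
    exact closure_minimal hsub hcl (hd y)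
  exact inner_self_eq_zero.1 (h5 u)

end abstract

section equi
variable {H X Y : Type*} [Group H] [MulAction H X] [MulAction H Y]

/-- the adjoint of an equivariant operator is equivariant -/
theorem adjoint_equi (T : L2 X →L[ℂ] L2 Y) (hT : ∀ (h : H) (f : L2 X), T (la h f) = la h (T f)) (h : H) (f : L2 Y) :
    ContinuousLinearMap.adjoint T (la h f) = la h (ContinuousLinearMap.adjoint T f) := by
  refine ext_inner_left ℂ fun g => ?_
  rw [ContinuousLinearMap.adjoint_inner_right]
  have h1 : ∀ (f g : L2 X), ⟪f, la h g⟫_ℂ = ⟪la h⁻¹ f, g⟫_ℂ := by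
    intro f g
    have h2 := inner_la h (la h⁻¹ f) g
    rw [la_la, mul_inv_cancel, la_one] at h2
    exact h2
  have h1' : ∀ (f g : L2 Y), ⟪f, la h g⟫_ℂ = ⟪la h⁻¹ f, g⟫_ℂ := by
    intro f g
    have h2 := inner_la h (la h⁻¹ f) g
    rw [la_la, mul_inv_cancel, la_one] at h2
    exact h2
  rw [h1', h1, ContinuousLinearMap.adjoint_inner_right, hT]

/-- injective equivariant operators do not decrease the number of orbits -/
theorem rk_le_of_injective [FC H X] [FC H Y] (T : L2 X →L[ℂ] L2 Y)
    (hT : ∀ (h : H) (f : L2 X), T (la h f) = la h (T f)) (hi : Function.Injective T) : rk H X ≤ rk H Y := by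
  have h1 := vd_im_add hT (md_top (H := H) (X := X))
  have h2 : (⊤ : Submodule ℂ (L2 X)) ⊓ kr T = ⊥ := by
    rw [top_inf_eq, eq_bot_iff]
    intro f hf
    have h3 : T f = 0 := hf
    exact (Submodule.mem_bot ℂ).2 (hi (h3.trans (map_zero T).symm))
  rw [h2, vd_bot, add_zero, vd_top] at h1
  have h3 : vd H (im T (⊤ : Submodule ℂ (L2 X))) ≤ vd H (⊤ : Submodule ℂ (L2 Y)) := vd_mono le_top
  rw [h1, vd_top] at h3
  exact_mod_cast h3

end equi

end ATY

namespace ATY
open Singer Pool.WeakAtiyah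

section cnt

/-- the number of orbits of `H × R` -/
lemma rk_fr {H : Type} [Group H] (R : ℕ) : rk H (Fr H (Fin R)) = R := by
  have h1 := vd_top (H := H) (X := Fr H (Fin R))
  have h2 : vd H (⊤ : Submodule ℂ (L2 (Fr H (Fin R)))) = vdim (⊤ : Submodule ℂ (E H (Fin R))) := vd_fr md_top
  rw [h2, vdim_top, Fintype.card_fin] at h1
  exact_mod_cast h1.symm

end cnt

section isom
variable {I X : Type*}

/-- the isometry given by an orthonormal family -/
theorem exists_isometry {v : I → L2 X} (hv : Orthonormal ℂ v) :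
    ∃ Ξ : L2 I →L[ℂ] L2 X, (∀ i, Ξ (dl i) = v i) ∧ ∀ f i, ContinuousLinearMap.adjoint Ξ f i = ⟪v i, f⟫_ℂ := by
  classical
  have hO : OrthogonalFamily ℂ (fun _ : I => ℂ) fun i => LinearIsometry.toSpanSingleton ℂ (L2 X) (hv.1 i) :=
    hv.orthogonalFamily
  have hdl : ∀ i : I, (dl i : L2 I) = lp.single (E := fun _ : I => ℂ) 2 i (1 : ℂ) := by
    intro i
    unfold dl
    congr 1
  have hval : ∀ i, hO.linearIsometry.toContinuousLinearMap (dl i) = v i := by
    intro i
    have h1 := hO.linearIsometry_apply_single (i := i) (1 : ℂ)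
    rw [LinearIsometry.toSpanSingleton_apply, one_smul] at h1
    rw [hdl]
    exact h1
  refine ⟨hO.linearIsometry.toContinuousLinearMap, hval, ?_⟩
  intro f i
  rw [← inner_dl_left, ContinuousLinearMap.adjoint_inner_right, hval]

end isom

section fd
variable {E : Type*} [NormedAddCommGroup E] [InnerProductSpace ℂ E]

/-- a bound for the number of orthonormal vectors bounds the dimension -/
theorem finiteDimensional_of_orthonormal {S : Submodule ℂ E} {B : ℕ}
    (h : ∀ (R : ℕ) (ξ : Fin R → E), Orthonormal ℂ ξ → (∀ i, ξ i ∈ S) → R ≤ B) : FiniteDimensional ℂ S := by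
  by_contra hcon
  have h1 : Cardinal.aleph0 ≤ Module.rank ℂ S := by
    by_contra h2
    exact hcon (Module.rank_lt_aleph0_iff.1 (not_le.1 h2))
  have h2 : ((B + 1 : ℕ) : Cardinal) ≤ Module.rank ℂ S := (Cardinal.natCast_lt_aleph0).le.trans h1
  obtain ⟨f, hf⟩ := exists_linearIndependent_of_le_rank h2
  obtain ⟨g, hg⟩ : ∃ g : Fin (B + 1) → S, Orthonormal ℂ g :=
    ⟨_, InnerProductSpace.gramSchmidtNormed_orthonormal (𝕜 := ℂ) hf⟩
  have h5 : Orthonormal ℂ (fun i => (g i : E)) := hg.comp_linearIsometry S.subtypeₗᵢ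
  have h4 := h (B + 1) (fun i => (g i : E)) h5 (fun i => (g i).2)
  omega

end fd

end ATY
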