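import Pool.Agent.ATY.FRA

/-!
# MP_585e9a_TREE, row FR: finitely many states, general form
-/

set_option autoImplicit false

open scoped ComplexConjugate InnerProductSpace
open Filter Topology

namespace ATY
open Singer Pool.WeakAtiyah

section supp
variable {K : Subfield ℂ} {Λ A Z Y V D : Type} [Group Λ] [Group A] [MulAction Λ Z] [MulAction Λ Y]
  [MulAction A V] [MulAction A D]

/-- the rows of `T` which see both sides of `S` -/
def FF (T : L2 Z →L[ℂ] L2 Y) (SZ : Set Z) (SY : Set Y) : Set Y := {y | ∃ z, T (dl z) y ≠ 0 ∧ ¬(z ∈ SZ ↔ y ∈ SY)}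

theorem supp_fin [FC Λ Z] (r : Λ →* A) {T : L2 Z →L[ℂ] L2 Y} (hT : KOp K Λ T) (δZ : Z → V)
    (hδZ : ∀ (l : Λ) (z : Z), δZ (l • z) = r l • δZ z) (δY : Y → V) (hδY : ∀ (l : Λ) (y : Y), δY (l • y) = r l • δY y)
    (S : D → Set V) (hS : ∀ (g : A) (d : D) (v : V), v ∈ S d ↔ g • v ∈ S (g • d)) (P : D → Prop)
    (hP : ∀ (g : A) (d : D), P d → P (g • d)) (hfin : ∀ v w : V, {d | P d ∧ v ∈ S d ∧ w ∉ S d}.Finite)
    (hfree : ∀ (g : A) (d : D), g • d = d → g = 1) :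
    ∃ s : Set D, s.Finite ∧ (∀ d, P d → ∀ y ∈ FF T (δZ ⁻¹' S d) (δY ⁻¹' S d), ∃ g : A, ∃ d₀ ∈ s, d = g • d₀) ∧
      ∀ d, P d → ∃ Y0 : Set Y, Y0.Finite ∧ ∀ y ∈ FF T (δZ ⁻¹' S d) (δY ⁻¹' S d), ∃ l : Λ, r l = 1 ∧ ∃ y0 ∈ Y0, y = l • y0 := by
  classical
  set z : Fin (rk Λ Z) → Z := fun j => (co Λ Z).symm (1, j) with hz
  have hzr : ∀ x : Z, x = (co Λ Z x).1 • z (co Λ Z x).2 := by
    intro x
    apply (co Λ Z).injective
    rw [co_smul, hz, Equiv.apply_symm_apply, mul_one]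
  set P0 : Set (Fin (rk Λ Z) × Y) := {p | T (dl (z p.1)) p.2 ≠ 0} with hP0
  have hP0f : P0.Finite := by
    have h1 : P0 ⊆ ⋃ j : Fin (rk Λ Z), (fun y => (j, y)) '' {y | T (dl (z j)) y ≠ 0} := by
      rintro ⟨j, y⟩ hy
      exact Set.mem_iUnion.2 ⟨j, y, hy, rfl⟩
    exact (Set.finite_iUnion fun j => (hT.fs (z j)).image _).subset h1
  have hsep : ∀ v w : V, {d | P d ∧ ¬(v ∈ S d ↔ w ∈ S d)}.Finite := by
    intro v w
    refine ((hfin v w).union (hfin w v)).subset ?_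
    rintro d ⟨h1, h2⟩
    by_cases hv : v ∈ S d
    · exact Or.inl ⟨h1, hv, fun hw => h2 ⟨fun _ => hw, fun _ => hv⟩⟩
    · refine Or.inr ⟨h1, ?_, hv⟩
      by_contra hw
      exact h2 ⟨fun h => absurd h hv, fun h => absurd h hw⟩
  set s : Set D := ⋃ p ∈ P0, {d | P d ∧ ¬(δZ (z p.1) ∈ S d ↔ δY p.2 ∈ S d)} with hs
  have hsf : s.Finite := hP0f.biUnion fun p _ => hsep _ _
  -- the main computation
  have key : ∀ d, P d → ∀ y ∈ FF T (δZ ⁻¹' S d) (δY ⁻¹' S d), ∃ (l : Λ) (p : Fin (rk Λ Z) × Y), p ∈ P0 ∧ y = l • p.2 ∧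
      (r l)⁻¹ • d ∈ s := by
    rintro d hd y ⟨x, hx, hxy⟩
    set l := (co Λ Z x).1 with hl
    set j := (co Λ Z x).2 with hj
    have hx' : x = l • z j := hzr x
    have h1 : T (dl (z j)) (l⁻¹ • y) ≠ 0 := by
      have h2 : T (dl x) y = T (dl (z j)) (l⁻¹ • y) := by
        rw [hx', ← la_dl, hT.equi, la_apply]
      rwa [← h2]
    refine ⟨l, (j, l⁻¹ • y), h1, (smul_inv_smul l y).symm, ?_⟩
    rw [hs]
    refine Set.mem_biUnion (show (j, l⁻¹ • y) ∈ P0 from h1) ⟨hP _ _ hd, ?_⟩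
    intro h3
    apply hxy
    have h4 : ∀ v : V, v ∈ S d ↔ (r l)⁻¹ • v ∈ S ((r l)⁻¹ • d) := fun v => hS _ _ _
    have h5 : δZ (z j) = (r l)⁻¹ • δZ x := by
      rw [hx', hδZ, inv_smul_smul]
    have h6 : δY (l⁻¹ • y) = (r l)⁻¹ • δY y := by
      rw [hδY, map_inv]
    change δZ (z j) ∈ S ((r l)⁻¹ • d) ↔ δY (l⁻¹ • y) ∈ S ((r l)⁻¹ • d) at h3
    rw [h5, h6] at h3
    change δZ x ∈ S d ↔ δY y ∈ S d
    rw [h4 (δZ x), h4 (δY y)]
    exact h3
  refine ⟨s, hsf, ?_, ?_⟩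
  · intro d hd y hy
    obtain ⟨l, p, _, _, h3⟩ := key d hd y hy
    exact ⟨r l, _, h3, (smul_inv_smul _ _).symm⟩
  · intro d hd
    let c : D → Λ := fun d' => if h : ∃ l : Λ, d = r l • d' then h.choose else 1
    have hc : ∀ d', (∃ l : Λ, d = r l • d') → d = r (c d') • d' := by
      intro d' h
      have h1 : c d' = h.choose := dif_pos h
      rw [h1]
      exact h.choose_spec
    refine ⟨(fun q : (Fin (rk Λ Z) × Y) × D => c q.2 • q.1.2) '' (P0 ×ˢ s), (hP0f.prod hsf).image _, ?_⟩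
    intro y hy
    obtain ⟨l, p, h1, h2, h3⟩ := key d hd y hy
    have h4 : d = r l • ((r l)⁻¹ • d) := (smul_inv_smul _ _).symm
    have h5 := hc ((r l)⁻¹ • d) ⟨l, h4⟩
    set d' := (r l)⁻¹ • d with hd'
    have h6 : r l = r (c d') := by
      have h7 : ((r (c d'))⁻¹ * r l) • d' = d' := by
        rw [mul_smul, ← h4, inv_smul_eq_iff]
        exact h5
      have h8 := hfree _ _ h7
      rw [inv_mul_eq_one] at h8
      exact h8.symm
    refine ⟨l * (c d')⁻¹, ?_, c d' • p.2, ⟨(p, d'), ⟨h1, h3⟩, rfl⟩, ?_⟩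
    · rw [map_mul, map_inv, ← h6, mul_inv_cancel]
    · rw [h2, mul_smul, inv_smul_smul]

end supp

section comm
variable {Z Y : Type}

lemma cu_dl_mem {S : Set Z} {z : Z} (h : z ∈ S) : cu S (dl z) = dl z := by
  ext x
  rw [cu_apply]
  split_ifs with h1
  · rfl
  · rw [dl_apply_ne]
    rintro rfl
    exact h1 h

lemma cu_dl_notMem {S : Set Z} {z : Z} (h : z ∉ S) : cu S (dl z) = 0 := by
  ext x
  rw [cu_apply]
  split_ifs with h1
  · rw [dl_apply_ne]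
    · rfl
    · rintro rfl
      exact h h1
  · rfl

/-- the commutator with the cut vanishes at the rows which see only one side -/
theorem comm_supp (T : L2 Z →L[ℂ] L2 Y) (SZ : Set Z) (SY : Set Y) {y : Y} (hy : y ∉ FF T SZ SY) (f : L2 Z) :
    cu SY (T f) y = T (cu SZ f) y := by
  have h1 : ∀ z, T (dl z) y ≠ 0 → (z ∈ SZ ↔ y ∈ SY) := by
    intro z hz
    by_contra h
    exact hy ⟨z, hz, h⟩
  have key : ∀ z, cu SY (T (dl z)) y = T (cu SZ (dl z)) y := by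
    intro z
    by_cases h4 : z ∈ SZ
    · rw [cu_dl_mem h4, cu_apply]
      split_ifs with h5
      · rfl
      · by_contra h6
        exact h5 ((h1 z (fun h => h6 h.symm)).1 h4)
    · rw [cu_dl_notMem h4, map_zero, cu_apply]
      split_ifs with h5
      · by_contra h6
        exact h4 ((h1 z (fun h => h6 h)).2 h5)
      · rfl
  have h2 : (cu {y}).comp ((cu SY).comp T) = (cu {y}).comp (T.comp (cu SZ)) := by
    refine eq_of_dl fun z => ?_
    ext x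
    change cu {y} (cu SY (T (dl z))) x = cu {y} (T (cu SZ (dl z))) x
    rw [cu_apply {y}, cu_apply {y}]
    split_ifs with hx
    · rw [Set.mem_singleton_iff.1 hx]
      exact key z
    · rfl
  have h3 := congrArg (fun U : L2 Z →L[ℂ] L2 Y => U f y) h2
  change cu {y} (cu SY (T f)) y = cu {y} (T (cu SZ f)) y at h3
  rwa [cu_apply {y}, cu_apply {y}, if_pos (Set.mem_singleton y), if_pos (Set.mem_singleton y)] at h3

end comm

end ATY
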