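import Pool.Agent.ATY.FRB

/-!
# MP_585e9a_TREE, row FR: the count
-/

set_option autoImplicit false

open scoped ComplexConjugate InnerProductSpace
open Filter Topology

namespace ATY
open Singer Pool.WeakAtiyah

section count
variable {K : Subfield ℂ}

/-- the elements of `W` orthogonal to the elements which may be cut -/
noncomputable def stt {X : Type} (SX : Set X) (W : Submodule ℂ (L2 X)) : Submodule ℂ (L2 X) :=
  W ⊓ (W ⊓ W.comap (cu SX : L2 X →ₗ[ℂ] L2 X))ᗮ

lemma stt_inner {X : Type} {SX : Set X} {W : Submodule ℂ (L2 X)} {ξ w : L2 X} (hξ : ξ ∈ stt SX W) (hw : w ∈ W)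
    (hc : cu SX w ∈ W) : ⟪ξ, w⟫_ℂ = 0 := by
  have h1 := (Submodule.mem_orthogonal _ _).1 hξ.2 w ⟨hw, hc⟩
  rw [← inner_conj_symm, h1, map_zero]

/-- the inner product of a pushed vector -/
lemma inner_push_left {X Y : Type} {p : X → Y} (hp : Function.Injective p) (f : L2 X) (g : L2 Y) :
    ⟪push p hp f, g⟫_ℂ = ⟪f, pull p hp g⟫_ℂ := by
  rw [inner_eq, inner_eq]
  have h1 : Function.support (fun y => conj (push p hp f y) * g y) ⊆ Set.range p := by
    intro y hy
    by_contra h2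
    apply hy
    show conj (push p hp f y) * g y = 0
    rw [push_apply_of_notMem _ _ _ h2, map_zero, zero_mul]
  rw [← hp.tsum_eq h1]
  refine tsum_congr fun x => ?_
  rw [push_apply, pull_apply]

lemma eq_zero_of_inner_dl {X : Type} {u : L2 X} (h : ∀ x, ⟪dl x, u⟫_ℂ = 0) : u = 0 := by
  ext x
  have h1 := h x
  rw [inner_dl_left] at h1
  rw [h1]
  rfl

/-- a range whose closure contains the basis vectors is dense -/
lemma denseRange_of_dl {X Y : Type} (T : L2 X →L[ℂ] L2 Y) (h : ∀ y, dl y ∈ closure (Set.range T)) : DenseRange T := by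
  have h1 : (LinearMap.range (T : L2 X →ₗ[ℂ] L2 Y)).topologicalClosure = ⊤ := by
    rw [Submodule.topologicalClosure_eq_top_iff, eq_bot_iff]
    intro u hu
    rw [Submodule.mem_bot]
    refine eq_zero_of_inner_dl fun y => ?_
    have hcl : IsClosed {v : L2 Y | ⟪v, u⟫_ℂ = 0} := isClosed_eq (continuous_id.inner continuous_const) continuous_const
    have hsub : Set.range T ⊆ {v : L2 Y | ⟪v, u⟫_ℂ = 0} := by
      rintro _ ⟨x, rfl⟩
      exact (Submodule.mem_orthogonal _ _).1 hu _ ⟨x, rfl⟩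
    exact closure_minimal hsub hcl (h y)
  intro y
  have h2 : y ∈ (LinearMap.range (T : L2 X →ₗ[ℂ] L2 Y)).topologicalClosure := by
    rw [h1]
    exact Submodule.mem_top
  exact h2

/-- the number of states is bounded by the number of rows which see both sides -/
theorem count_states {Λ X' X Z Y : Type} [Group Λ] [MulAction Λ X'] [MulAction Λ Z] [MulAction Λ Y] [FC Λ Y]
    (N : Subgroup Λ) {T : L2 Z →L[ℂ] L2 Y} (hT : KOp K Λ T) (i : X' → Z) (hi : Function.Injective i)
    (hie : ∀ (l : Λ) (x : X'), i (l • x) = l • i x)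
    (e : N → X → X') (he : ∀ n, Function.Injective (e n)) (hdis : ∀ n n' x x', e n x = e n' x' → n = n')
    (heq : ∀ (n m : N) (x : X), (n : Λ) • e m x = e (n * m) x)
    (SZ : Set Z) (SY : Set Y) (SX : Set X) (hSZ : ∀ n : N, ∀ z ∈ SZ, n • z ∈ SZ) (hSY : ∀ n : N, ∀ y ∈ SY, n • y ∈ SY)
    (hSX : ∀ n x, i (e n x) ∈ SZ ↔ x ∈ SX)
    {Y0 : Set Y} (hY0 : Y0.Finite) (hF : ∀ y ∈ FF T SZ SY, ∃ l ∈ N, ∃ y0 ∈ Y0, y = l • y0)
    {W : Submodule ℂ (L2 X)} {Ŵ : Submodule ℂ (L2 X')} (h1 : ∀ f ∈ Ŵ, ∀ n, pull (e n) (he n) f ∈ W)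
    (h2 : ∀ w ∈ W, ∀ n, push (e n) (he n) w ∈ Ŵ) (hW : Ŵ = im (pull i hi) (kr T)) :
    ∃ B : ℕ, (FF T SZ SY = ∅ → B = 0) ∧
      ∀ (R : ℕ) (ξ : Fin R → L2 X), Orthonormal ℂ ξ → (∀ j, ξ j ∈ stt SX W) → R ≤ B := by
  classical
  set F := FF T SZ SY with hFdef
  -- `F` is stable
  have hFst : ∀ n : N, ∀ y ∈ F, (n : Λ) • y ∈ F := by
    rintro n y ⟨z, hz, hzy⟩
    refine ⟨(n : Λ) • z, ?_, ?_⟩
    · rw [← la_dl, hT.equi, la_apply, inv_smul_smul]
      exact hz
    · have h3 : ∀ z : Z, (n : Λ) • z ∈ SZ ↔ z ∈ SZ := fun z => ⟨fun h => by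
        have := hSZ n⁻¹ _ h
        rwa [show n⁻¹ • (n : Λ) • z = z from inv_smul_smul (n : Λ) z] at this, hSZ n z⟩
      have h4 : ∀ y : Y, (n : Λ) • y ∈ SY ↔ y ∈ SY := fun y => ⟨fun h => by
        have := hSY n⁻¹ _ h
        rwa [show n⁻¹ • (n : Λ) • y = y from inv_smul_smul (n : Λ) y] at this, hSY n y⟩
      rw [h3, h4]
      exact hzy
  let _ : MulAction N F :=
    { smul := fun n y => ⟨(n : Λ) • y.1, hFst n y.1 y.2⟩
      one_smul := fun y => Subtype.ext (one_smul Λ y.1)
      mul_smul := fun n m y => Subtype.ext (mul_smul (n : Λ) (m : Λ) y.1) }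
  have hsm : ∀ (n : N) (y : F), (n • y).1 = (n : Λ) • y.1 := fun n y => rfl
  have : FC N F := by
    refine ⟨fun n y h => ?_, ?_⟩
    · have h3 : (n : Λ) • y.1 = y.1 := congrArg Subtype.val h
      exact Subtype.ext (FC.free (H := Λ) (n : Λ) y.1 h3)
    · have hfin : Finite {y : F // y.1 ∈ Y0} := by
        have h3 : Finite Y0 := hY0
        refine Finite.of_injective (fun y : {y : F // y.1 ∈ Y0} => (⟨y.1.1, y.2⟩ : Y0)) fun a b h => ?_
        have h3 : (⟨a.1.1, a.2⟩ : Y0) = ⟨b.1.1, b.2⟩ := h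
        have h4 : a.1.1 = b.1.1 := Subtype.mk_eq_mk.1 h3
        exact Subtype.ext (Subtype.ext h4)
      refine Finite.of_surjective (fun y : {y : F // y.1 ∈ Y0} =>
        (Quotient.mk _ y.1 : MulAction.orbitRel.Quotient N F)) ?_
      intro q
      induction q using Quotient.inductionOn with
      | h y =>
        obtain ⟨l, hl, y0, hy0, hy⟩ := hF y.1 y.2
        have h3 : y0 ∈ F := by
          have h4 := hFst (⟨l, hl⟩⁻¹ : N) y.1 y.2
          rw [hy] at h4
          rwa [show (((⟨l, hl⟩⁻¹ : N)) : Λ) • l • y0 = y0 from inv_smul_smul l y0] at h4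
        refine ⟨⟨⟨y0, h3⟩, hy0⟩, Quotient.sound ?_⟩
        show (⟨y0, h3⟩ : F) ∈ MulAction.orbit N y
        refine ⟨⟨l, hl⟩⁻¹, Subtype.ext ?_⟩
        show (((⟨l, hl⟩⁻¹ : N)) : Λ) • y.1 = y0
        rw [hy]
        exact inv_smul_smul l y0
  refine ⟨rk N F, ?_, ?_⟩
  · intro hemp
    by_contra hne
    have h3 : Nonempty (Fin (rk N F)) := ⟨⟨0, Nat.pos_of_ne_zero hne⟩⟩
    obtain ⟨j⟩ := h3
    have h4 := ((co N F).symm (1, j)).2
    exact (Set.eq_empty_iff_forall_notMem.1 hemp) _ h4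
  intro R ξ hξ hξs
  -- the orthonormal family
  have hpp : ∀ (n n' : N) (f : L2 X), pull (e n) (he n) (push (e n') (he n') f) = if n = n' then f else 0 := by
    intro n n' f
    split_ifs with h
    · subst h
      exact pull_push _ _ _
    · ext x
      rw [pull_apply, push_apply_of_notMem]
      · rfl
      · rintro ⟨x', hx'⟩
        exact h (hdis _ _ _ _ hx').symm
  have hv : Orthonormal ℂ (fun p : Fr N (Fin R) => push (e p.1) (he p.1) (ξ p.2)) := by
    refine ⟨fun p => ?_, fun p q hpq => ?_⟩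
    · rw [norm_push]
      exact hξ.1 _
    · show ⟪push (e p.1) (he p.1) (ξ p.2), push (e q.1) (he q.1) (ξ q.2)⟫_ℂ = 0
      rw [inner_push_left, hpp]
      split_ifs with h
      · exact hξ.2 fun h' => hpq (Prod.ext h h')
      · exact inner_zero_right _
  obtain ⟨Ξ, hΞ, hΞa⟩ := exists_isometry hv
  -- the two operators
  set Pr : L2 Z →L[ℂ] L2 Z := pj (kr T) with hPr
  have hkr : IsClosed ((kr T : Submodule ℂ (L2 Z)) : Set (L2 Z)) := by
    have : ((kr T : Submodule ℂ (L2 Z)) : Set (L2 Z)) = T ⁻¹' {0} := by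
      ext f
      rfl
    rw [this]
    exact isClosed_singleton.preimage T.continuous
  have hPrm : ∀ f, Pr f ∈ kr T := by
    intro f
    have h3 := pj_mem (kr T) f
    rwa [IsClosed.submodule_topologicalClosure_eq hkr] at h3
  have hPrf : ∀ f ∈ kr T, Pr f = f := by
    intro f hf
    refine pj_unique (Submodule.le_topologicalClosure _ hf) ?_
    rw [sub_self]
    exact Submodule.zero_mem _
  set T₁ : L2 Z →L[ℂ] L2 F := (pull (Subtype.val : F → Y) Subtype.val_injective).comp
    (((cu SY).comp T - T.comp (cu SZ)).comp Pr) with hT₁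
  set T₂ : L2 Z →L[ℂ] L2 (Fr N (Fin R)) := (ContinuousLinearMap.adjoint Ξ).comp ((pull i hi).comp Pr) with hT₂
  have hT₂a : ∀ f p, T₂ f p = ⟪ξ p.2, pull (e p.1) (he p.1) (pull i hi (Pr f))⟫_ℂ := by
    intro f p
    change ContinuousLinearMap.adjoint Ξ (pull i hi (Pr f)) p = _
    rw [hΞa, inner_push_left]
  have hŴ : ∀ f ∈ kr T, pull i hi f ∈ Ŵ := by
    intro f hf
    rw [hW]
    exact Submodule.le_topologicalClosure _ ⟨f, hf, rfl⟩
  have hcu : ∀ (n : N) (f : L2 Z), cu SX (pull (e n) (he n) (pull i hi f)) = pull (e n) (he n) (pull i hi (cu SZ f)) := by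
    intro n f
    ext x
    rw [cu_apply, pull_apply, pull_apply, pull_apply, pull_apply, cu_apply]
    by_cases hx : x ∈ SX
    · rw [if_pos hx, if_pos ((hSX n x).2 hx)]
    · rw [if_neg hx, if_neg fun h => hx ((hSX n x).1 h)]
  have hker : ∀ f, T₁ f = 0 → T₂ f = 0 := by
    intro f hf
    have h3 : T (Pr f) = 0 := hPrm f
    have h4 : T (cu SZ (Pr f)) = 0 := by
      ext y
      by_cases hy : y ∈ F
      · have h5 : T₁ f ⟨y, hy⟩ = 0 := by
          rw [hf]
          rfl
        change cu SY (T (Pr f)) y - T (cu SZ (Pr f)) y = 0 at h5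
        rw [h3, map_zero] at h5
        have h6 : (0 : L2 Y) y = 0 := rfl
        rw [h6, zero_sub, neg_eq_zero] at h5
        exact h5
      · rw [← comm_supp T SZ SY hy, h3, map_zero]
    ext p
    rw [hT₂a]
    refine stt_inner (hξs p.2) (h1 _ (hŴ _ (hPrm f)) _) ?_
    rw [hcu]
    exact h1 _ (hŴ _ h4) _
  have hdense : DenseRange T₂ := by
    refine denseRange_of_dl T₂ fun p => ?_
    have h3 : push (e p.1) (he p.1) (ξ p.2) ∈ im (pull i hi) (kr T) := by
      rw [← hW]
      exact h2 _ (hξs p.2).1 _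
    have h4 : ContinuousLinearMap.adjoint Ξ (push (e p.1) (he p.1) (ξ p.2)) = dl p := by
      ext q
      rw [hΞa, inner_push_left, hpp]
      by_cases h : q = p
      · subst h
        rw [if_pos rfl, dl_apply_self, inner_self_eq_norm_sq_to_K, hξ.1]
        norm_num
      · rw [dl_apply_ne h]
        split_ifs with h'
        · exact hξ.2 fun h'' => h (Prod.ext h' h'')
        · exact inner_zero_right _
    rw [← h4]
    have h5 : push (e p.1) (he p.1) (ξ p.2) ∈ closure ((pull i hi) '' ((kr T : Submodule ℂ (L2 Z)) : Set (L2 Z))) := h3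
    have h6 := image_closure_subset_closure_image (ContinuousLinearMap.adjoint Ξ).continuous ⟨_, h5, rfl⟩
    refine closure_mono ?_ h6
    rintro _ ⟨_, ⟨f, hf, rfl⟩, rfl⟩
    refine ⟨f, ?_⟩
    change ContinuousLinearMap.adjoint Ξ (pull i hi (Pr f)) = _
    rw [hPrf f hf]
  have hinj := injective_comp_adjoint T₁ T₂ hker hdense
  -- equivariance
  have hTe : ∀ (n : N) (f : L2 Z), T (la n f) = la n (T f) := fun n f => hT.equi (n : Λ) f
  have hcZ : ∀ (n : N) (f : L2 Z), cu SZ (la n f) = la n (cu SZ f) := (kop_cu (K := K) hSZ).equi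
  have hcY : ∀ (n : N) (f : L2 Y), cu SY (la n f) = la n (cu SY f) := (kop_cu (K := K) hSY).equi
  have hPe : ∀ (n : N) (f : L2 Z), Pr (la n f) = la n (Pr f) := by
    intro n f
    refine pj_la (fun m g hg => ?_) n f
    change T (la m g) = 0
    have h3 : T g = 0 := hg
    rw [hTe, h3, map_zero]
  have hie' : ∀ (n : N) (f : L2 Z), pull i hi (la n f) = la n (pull i hi f) := by
    intro n f
    ext x
    rw [pull_apply, la_apply, la_apply, pull_apply]
    refine congrArg (fun z => f z) ?_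
    exact (hie (n⁻¹ : N) x).symm
  have hFe : ∀ (n : N) (f : L2 Y), pull (Subtype.val : F → Y) Subtype.val_injective (la n f) =
      la n (pull (Subtype.val : F → Y) Subtype.val_injective f) := by
    intro n f
    ext y
    rw [pull_apply, la_apply, la_apply, pull_apply]
    rfl
  have hΞe : ∀ (n : N) (f : L2 (Fr N (Fin R))), Ξ (la n f) = la n (Ξ f) := by
    intro n f
    have h3 : Ξ.comp (la n) = (la n).comp Ξ := by
      refine eq_of_dl fun p => ?_
      change Ξ (la n (dl p)) = la n (Ξ (dl p))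
      rw [la_dl, hΞ, hΞ]
      ext x
      rw [la_apply]
      by_cases hx : x ∈ Set.range (e (n * p.1))
      · obtain ⟨x', rfl⟩ := hx
        have h4 : (n⁻¹ : N) • e (n * p.1) x' = e p.1 x' := by
          have h5 := heq n⁻¹ (n * p.1) x'
          rw [inv_mul_cancel_left] at h5
          exact h5
        rw [h4, push_apply]
        exact push_apply _ _ _ _
      · rw [push_apply_of_notMem (e p.1) (he p.1)]
        · exact push_apply_of_notMem _ _ _ hx
        · rintro ⟨x', hx'⟩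
          apply hx
          refine ⟨x', ?_⟩
          rw [← heq, hx']
          exact smul_inv_smul (n : Λ) x
    exact congrArg (fun U : L2 (Fr N (Fin R)) →L[ℂ] L2 X' => U f) h3
  have hT₁e : ∀ (n : N) (f : L2 Z), T₁ (la n f) = la n (T₁ f) := by
    intro n f
    change pull (Subtype.val : F → Y) Subtype.val_injective (cu SY (T (Pr (la n f))) - T (cu SZ (Pr (la n f)))) =
      la n (pull (Subtype.val : F → Y) Subtype.val_injective (cu SY (T (Pr f)) - T (cu SZ (Pr f))))
    rw [hPe, hTe, hcY, hcZ, hTe, ← map_sub, hFe]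
  have hT₂e : ∀ (n : N) (f : L2 Z), T₂ (la n f) = la n (T₂ f) := by
    intro n f
    change ContinuousLinearMap.adjoint Ξ (pull i hi (Pr (la n f))) = la n (ContinuousLinearMap.adjoint Ξ (pull i hi (Pr f)))
    rw [hPe, hie', adjoint_equi Ξ hΞe]
  have h3 := rk_le_of_injective (H := N) (T₁.comp (ContinuousLinearMap.adjoint T₂)) (fun n f => by
    change T₁ (ContinuousLinearMap.adjoint T₂ (la n f)) = la n (T₁ (ContinuousLinearMap.adjoint T₂ f))
    rw [adjoint_equi T₂ hT₂e, hT₁e]) hinj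
  rwa [rk_fr] at h3

end count

end ATY
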