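import Pool.Agent.ATY.S
import Pool.Agent.ATY.N
import Pool.Agent.ATY.C
import Pool.Agent.ATY.L

/-! # The main theorem for bipartite forests (row G) -/

set_option autoImplicit false
set_option linter.unusedSectionVars false
set_option linter.unusedVariables false

open scoped ComplexConjugate InnerProductSpace
open Filter Topology

namespace ATY
open Singer Pool.WeakAtiyah

section pieces
variable {G X D P : Type} [Group G] [MulAction G X] [MulAction G D] [MulAction G P]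

/-- pieces over a set -/
lemma cu_mem_of_pieces {δ : X →[G] D} {W : Submodule ℂ (L2 X)} (hc : IsClosed (W : Set (L2 X))) {f : L2 X}
    (h : ∀ d, cu {x | δ x = d} f ∈ W) (S : Set D) : cu {x | δ x ∈ S} f ∈ W := by
  classical
  have h0 : W.topologicalClosure = W := IsClosed.submodule_topologicalClosure_eq hc
  rw [← h0, ← Submodule.orthogonal_orthogonal_eq_closure, Submodule.mem_orthogonal']
  intro u hu
  have h1 : HasSum (fun x => conj ((cu {x | δ x ∈ S} f) x) * u x) ⟪cu {x | δ x ∈ S} f, u⟫_ℂ := by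
    rw [inner_eq]
    exact (summable_inner' _ u).hasSum
  have h2 := h1.tsum_fiberwise (fun x : X => δ x)
  have h3 : ∀ d : D, (∑' b : ((fun x : X => δ x) ⁻¹' {d}), conj ((cu {x | δ x ∈ S} f) b) * u b) = 0 := by
    intro d
    have h4 : ⟪cu {x | δ x = d} f, u⟫_ℂ = 0 := (Submodule.mem_orthogonal _ _).1 hu _ (h d)
    rw [inner_eq] at h4
    rw [tsum_subtype ((fun x : X => δ x) ⁻¹' {d}) (fun x => conj ((cu {x | δ x ∈ S} f) x) * u x)]
    by_cases hd : d ∈ S
    · rw [← h4]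
      congr 1
      funext x
      by_cases hx : δ x = d
      · rw [Set.indicator_of_mem (show x ∈ (fun x : X => δ x) ⁻¹' {d} from hx), cu_apply, cu_apply,
          if_pos (show x ∈ {x | δ x ∈ S} by show δ x ∈ S; rw [hx]; exact hd), if_pos (show x ∈ {x | δ x = d} from hx)]
      · rw [Set.indicator_of_notMem (show x ∉ (fun x : X => δ x) ⁻¹' {d} from hx), cu_apply _ f x,
          if_neg (show x ∉ {x | δ x = d} from hx), map_zero, zero_mul]
    · have h5 : ((fun x : X => δ x) ⁻¹' {d}).indicator (fun x => conj ((cu {x | δ x ∈ S} f) x) * u x) = 0 := by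
        funext x
        by_cases hx : δ x = d
        · rw [Set.indicator_of_mem (show x ∈ (fun x : X => δ x) ⁻¹' {d} from hx), cu_apply,
            if_neg (show x ∉ {x | δ x ∈ S} by show ¬ δ x ∈ S; rw [hx]; exact hd), map_zero, zero_mul]
          rfl
        · rw [Set.indicator_of_notMem (show x ∉ (fun x : X => δ x) ⁻¹' {d} from hx)]
          rfl
      rw [h5]
      simp
  simp_rw [h3] at h2
  exact h2.unique hasSum_zero

lemma Loc.comp {δ : X →[G] D} {W : Submodule ℂ (L2 X)} (hc : IsClosed (W : Set (L2 X))) (hW : Loc δ W) (p : D →[G] P) :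
    Loc (p.comp δ) W := by
  intro q f hf
  exact cu_mem_of_pieces hc (fun d => hW d f hf) {d | p d = q}

lemma Loc.inf_gg {δ : X →[G] D} {V W : Submodule ℂ (L2 X)} (hV : Loc δ V) (hW : Loc δ W) : Loc δ (V ⊓ W) :=
  fun q f hf => ⟨hV q f hf.1, hW q f hf.2⟩

lemma loc_inf_gg (δ : X →[G] D) (d : D) (V W : Submodule ℂ (L2 X)) : loc δ d (V ⊓ W) = loc δ d V ⊓ loc δ d W := rfl

lemma vd_fib_empty {G X Q : Type} [Group G] [MulAction G X] [FC G X] [MulAction G Q] (a : X →[G] Q) (q : Q)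
    (h : ∀ x, a x ≠ q) (W : Submodule ℂ (L2 (Fib a q))) : vd (MulAction.stabilizer G q) W = 0 := by
  have h1 : W = ⊥ := by
    rw [eq_bot_iff]
    intro f _
    rw [Submodule.mem_bot]
    ext x
    exact absurd x.2 (h x.1)
  rw [h1, vd_bot]

end pieces

/-- the part of the proof at one side -/
structure SideOK (K : Subfield ℂ) (n : ℕ) {G X D P : Type} [Group G] [MulAction G X] [FC G X]
    [MulAction G D] [MulAction G P] (δ : X →[G] D) (p : D →[G] P) (M : Submodule ℂ (L2 X)) : Prop where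
  r : ∀ x, RanksIn K (MulAction.stabilizer G (p (δ x))) n
  s : ∀ x, SSP K _ (dst p (δ x))
  md : Md G M
  l : Loc (p.comp δ) M
  q : ∀ x, Rat K (MulAction.stabilizer G (p (δ x))) (loc (p.comp δ) (p (δ x)) M)

namespace SideOK
variable {K : Subfield ℂ} {n : ℕ} {G X D P : Type} [Group G] [MulAction G X] [FC G X]
    [MulAction G D] [MulAction G P] {δ : X →[G] D} {p : D →[G] P} {M : Submodule ℂ (L2 X)}

lemma top (hn : 0 < n) (h : SideOK K n δ p M) : SideOK K n δ p ⊤ where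
  r := h.r
  s := h.s
  md := md_top
  l := fun _ _ _ => trivial
  q := fun x => by
    have h1 : loc (p.comp δ) (p (δ x)) (⊤ : Submodule ℂ (L2 X)) = ⊤ := rfl
    rw [h1]
    exact rat_top

lemma integral (hn : 0 < n) (h : SideOK K n δ p M) {t : ℝ} {Z Y : Submodule ℂ (L2 X)} (hZ : Md G Z) (hZl : Loc δ Z)
    (hY : Md G Y) (hYl : Loc δ Y)
    (hT : ∀ x : X, IsTop (MulAction.stabilizer G (δ x)) (Rat K (MulAction.stabilizer G (δ x))) t (loc δ (δ x) Z)
        (loc δ (δ x) Y)) : ∃ z : ℤ, vd G (M ⊓ Y) = z / n := by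
  classical
  obtain ⟨s, hs⟩ := exists_reps (p.comp δ)
  rw [hs _ (h.md.inf hY) (h.l.inf_gg (hYl.comp hY.cl p))]
  have key : ∀ q ∈ s, ∃ z : ℤ, vd (MulAction.stabilizer G q) (loc (p.comp δ) q (M ⊓ Y)) = z / n := by
    intro q _
    by_cases hq : ∃ x, (p.comp δ) x = q
    · obtain ⟨x, rfl⟩ := hq
      rw [loc_inf_gg]
      exact Rat.vd_eq hn (h.r x) ((h.q x).inf (node hn δ p h.r h.s t hZ hZl hY hYl hT x).mem)
    · exact ⟨0, by rw [vd_fib_empty _ _ (fun x hx => hq ⟨x, hx⟩)]; simp⟩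
  choose! z hz using key
  refine ⟨∑ q ∈ s, z q, ?_⟩
  rw [Finset.sum_congr rfl hz]
  push_cast
  rw [Finset.sum_div]

lemma le_avg (hn : 0 < n) (h : SideOK K n δ p M) {Z : Submodule ℂ (L2 X)} (hZ : Md G Z) (hZl : Loc δ Z)
    {N : ℕ} (hN : 0 < N) {Y : ℕ → Submodule ℂ (L2 X)} (hY : ∀ i, Md G (Y i)) (hYl : ∀ i, Loc δ (Y i))
    (hT : ∀ i : ℕ, ∀ x : X, IsTop (MulAction.stabilizer G (δ x)) (Rat K (MulAction.stabilizer G (δ x))) ((i : ℝ) / N)
      (loc δ (δ x) Z) (loc δ (δ x) (Y i))) : vd G (M ⊓ Z) ≤ (∑ i ∈ Finset.range N, vd G (M ⊓ Y i)) / N := by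
  classical
  obtain ⟨s, hs⟩ := exists_reps (p.comp δ)
  rw [hs _ (h.md.inf hZ) (h.l.inf_gg (hZl.comp hZ.cl p))]
  have h1 : ∀ i, vd G (M ⊓ Y i) = ∑ q ∈ s, vd (MulAction.stabilizer G q) (loc (p.comp δ) q (M ⊓ Y i)) := fun i =>
    hs _ (h.md.inf (hY i)) (h.l.inf_gg ((hYl i).comp (hY i).cl p))
  simp_rw [h1]
  rw [Finset.sum_comm, Finset.sum_div]
  refine Finset.sum_le_sum fun q _ => ?_
  by_cases hq : ∃ x, (p.comp δ) x = q
  · obtain ⟨x, hx⟩ := hq
    have hx' : p (δ x) = q := hx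
    subst hx'
    have h3 := IsTop.le_avg (Y := fun i => loc (p.comp δ) (p (δ x)) (Y i)) (Z := loc (p.comp δ) (p (δ x)) Z)
      (M := loc (p.comp δ) (p (δ x)) M) hn (h.r x) (Md.loc hZ _) hN
      (fun i _ => node hn δ p h.r h.s _ hZ hZl (hY i) (hYl i) (hT i) x) (h.q x)
    exact h3
  · rw [vd_fib_empty _ _ (fun x hx => hq ⟨x, hx⟩)]
    exact div_nonneg (Finset.sum_nonneg fun i _ => vd_nonneg _) (Nat.cast_nonneg _)

lemma avg_le (hn : 0 < n) (h : SideOK K n δ p M) {Z : Submodule ℂ (L2 X)} (hZ : Md G Z) (hZl : Loc δ Z)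
    {N : ℕ} (hN : 0 < N) {Y : ℕ → Submodule ℂ (L2 X)} (hY : ∀ i, Md G (Y i)) (hYl : ∀ i, Loc δ (Y i))
    (hT : ∀ i : ℕ, ∀ x : X, IsTop (MulAction.stabilizer G (δ x)) (Rat K (MulAction.stabilizer G (δ x))) ((i : ℝ) / N)
      (loc δ (δ x) Z) (loc δ (δ x) (Y i))) : (∑ i ∈ Finset.range N, vd G (Y (i + 1))) / N ≤ vd G Z := by
  classical
  obtain ⟨s, hs⟩ := exists_reps (p.comp δ)
  rw [hs _ hZ (hZl.comp hZ.cl p)]
  have h1 : ∀ i, vd G (Y i) = ∑ q ∈ s, vd (MulAction.stabilizer G q) (loc (p.comp δ) q (Y i)) := fun i =>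
    hs _ (hY i) ((hYl i).comp (hY i).cl p)
  simp_rw [h1]
  rw [Finset.sum_comm, Finset.sum_div]
  refine Finset.sum_le_sum fun q _ => ?_
  by_cases hq : ∃ x, (p.comp δ) x = q
  · obtain ⟨x, hx⟩ := hq
    have hx' : p (δ x) = q := hx
    subst hx'
    have h3 := IsTop.avg_le (Y := fun i => loc (p.comp δ) (p (δ x)) (Y i)) (Z := loc (p.comp δ) (p (δ x)) Z)
      hn (h.r x) (Md.loc hZ _) hN
      (fun i _ => node hn δ p h.r h.s _ hZ hZl (hY i) (hYl i) (hT i) x)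
    exact h3
  · have h2 : ∀ i, vd (MulAction.stabilizer G q) (loc (p.comp δ) q (Y i)) = 0 := fun i =>
      vd_fib_empty _ _ (fun x hx => hq ⟨x, hx⟩) _
    simp_rw [h2]
    simp only [Finset.sum_const_zero, zero_div]
    exact vd_nonneg _

end SideOK

theorem bit_main {K : Subfield ℂ} {n : ℕ} (hn : 0 < n) {G X D P₀ P₁ : Type} [Group G] [MulAction G X] [FC G X]
    [MulAction G D] [MulAction G P₀] [MulAction G P₁] {δ : X →[G] D} {p₀ : D →[G] P₀} {p₁ : D →[G] P₁}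
    (hB : Bit δ p₀ p₁) (r₀ : ∀ x, RanksIn K (MulAction.stabilizer G (p₀ (δ x))) n)
    (r₁ : ∀ x, RanksIn K (MulAction.stabilizer G (p₁ (δ x))) n)
    (s₀ : ∀ x, SSP K _ (dst p₀ (δ x))) (s₁ : ∀ x, SSP K _ (dst p₁ (δ x)))
    {M₀ M₁ : Submodule ℂ (L2 X)} (h₀ : Md G M₀) (h₁ : Md G M₁) (l₀ : Loc (p₀.comp δ) M₀) (l₁ : Loc (p₁.comp δ) M₁)
    (q₀ : ∀ x, Rat K (MulAction.stabilizer G (p₀ (δ x))) (loc (p₀.comp δ) (p₀ (δ x)) M₀))
    (q₁ : ∀ x, Rat K (MulAction.stabilizer G (p₁ (δ x))) (loc (p₁.comp δ) (p₁ (δ x)) M₁)) :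
    ∃ z : ℤ, vd G (M₀ ⊓ M₁) = z / n := by
  have hS0 : SideOK K n δ p₀ M₀ := ⟨r₀, s₀, h₀, l₀, q₀⟩
  have hS1 : SideOK K n δ p₁ M₁ := ⟨r₁, s₁, h₁, l₁, q₁⟩
  have hn' : (0 : ℝ) < n := by exact_mod_cast hn
  have hRd : ∀ x : X, RanksIn K (MulAction.stabilizer G (δ x)) n := by
    intro x
    have hle : MulAction.stabilizer G (δ x) ≤ MulAction.stabilizer G (p₀ (δ x)) := by
      intro g hg
      rw [MulAction.mem_stabilizer_iff] at hg ⊢
      rw [← map_smul, hg]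
    exact ranksIn_of_injective (Subgroup.inclusion hle) (Subgroup.inclusion_injective hle) (r₀ x)
  obtain ⟨Z, hZ, hZl, hle⟩ := cut_formula hB h₀ h₁ l₀ l₁
  set v := vd G (M₀ ⊓ M₁) with hv
  set F : ℝ := (⌊(n : ℝ) * v⌋ : ℝ) / n with hF
  have hFv : F ≤ v := by
    rw [hF, div_le_iff₀ hn', mul_comm]
    exact Int.floor_le _
  have key : ∀ N : ℕ, 0 < N → v ≤ F + rk G X / N := by
    intro N hN
    have hN' : (0 : ℝ) < N := by exact_mod_cast hN
    have hfam := fun i : ℕ => exists_family hn δ hRd ((i : ℝ) / N) hZ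
    choose Y hY hYl hT using hfam
    have a0 := hS0.le_avg hn hZ hZl hN hY hYl hT
    have a1 := hS1.le_avg hn hZ hZl hN hY hYl hT
    have a2 := hS0.avg_le hn hZ hZl hN hY hYl hT
    have hphi : ∀ i, vd G (M₀ ⊓ Y i) + vd G (M₁ ⊓ Y i) - vd G (Y i) ≤ F := by
      intro i
      obtain ⟨z0, hz0⟩ := hS0.integral hn hZ hZl (hY i) (hYl i) (hT i)
      obtain ⟨z1, hz1⟩ := hS1.integral hn hZ hZl (hY i) (hYl i) (hT i)
      obtain ⟨z2, hz2⟩ := (hS0.top hn).integral hn hZ hZl (hY i) (hYl i) (hT i)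
      rw [top_inf_eq] at hz2
      have h1 := cut_le h₀ h₁ (hY i)
      rw [← hv] at h1
      have h2 : vd G (M₀ ⊓ Y i) + vd G (M₁ ⊓ Y i) - vd G (Y i) = ((z0 + z1 - z2 : ℤ) : ℝ) / n := by
        rw [hz0, hz1, hz2]
        push_cast
        ring
      rw [h2] at h1 ⊢
      rw [hF]
      gcongr
      rw [Int.le_floor, ← div_le_iff₀' hn']
      exact h1
    have e1 : ∑ i ∈ Finset.range N, vd G (Y (i + 1)) =
        ∑ i ∈ Finset.range N, vd G (Y i) + vd G (Y N) - vd G (Y 0) := by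
      have h1 := Finset.sum_range_succ (fun i => vd G (Y i)) N
      have h2 := Finset.sum_range_succ' (fun i => vd G (Y i)) N
      linarith
    have e2 : ∑ i ∈ Finset.range N, (vd G (M₀ ⊓ Y i) + vd G (M₁ ⊓ Y i) - vd G (Y i)) ≤ N * F := by
      have h1 := Finset.sum_le_card_nsmul (Finset.range N) _ F fun i _ => hphi i
      simpa using h1
    rw [Finset.sum_sub_distrib, Finset.sum_add_distrib] at e2
    have e3 : vd G (Y 0) ≤ rk G X := by
      rw [← vd_top (H := G) (X := X)]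
      exact vd_mono le_top
    have e4 : 0 ≤ vd G (Y N) := vd_nonneg _
    rw [le_div_iff₀ hN'] at a0 a1
    rw [div_le_iff₀ hN'] at a2
    have e5 : v * N ≤ F * N + rk G X := by
      nlinarith
    have e6 : F + (rk G X : ℝ) / N = (F * N + rk G X) / N := by
      field_simp
    rw [e6, le_div_iff₀ hN']
    exact e5
  have hvF : v ≤ F := by
    refine le_of_forall_pos_le_add fun ε hε => ?_
    obtain ⟨N, hN⟩ := exists_nat_gt ((rk G X : ℝ) / ε)
    have hN0 : 0 < N := by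
      have h1 : (0 : ℝ) ≤ (rk G X : ℝ) / ε := by positivity
      have h2 : (0 : ℝ) < N := lt_of_le_of_lt h1 hN
      exact_mod_cast h2
    have hN' : (0 : ℝ) < N := by exact_mod_cast hN0
    refine (key N hN0).trans ?_
    have h3 : (rk G X : ℝ) / N ≤ ε := by
      rw [div_lt_iff₀ hε] at hN
      rw [div_le_iff₀ hN', mul_comm]
      exact hN.le
    linarith
  exact ⟨⌊(n : ℝ) * v⌋, le_antisymm hvF hFv⟩

end ATY
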