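import Pool.Agent.ATY.FRDefs

/-!
# The class of groups with the two properties
-/

set_option autoImplicit false

namespace ATY
open Pool.WeakAtiyah

/-- The two properties of a group `A`: the von Neumann ranks over all groups `Psi A Q` are in `(1/n) ℤ`, and induction
from all subgroups preserves the largest maxima. -/
structure Gd (n : ℕ) (A : Type) [Group A] : Prop where
  rk : ∀ (Q : Type) [MulAction A Q], RanksIn ⊤ (Psi A Q) n
  ssp : ∀ C : Subgroup A, SSP ⊤ A C

end ATY
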