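import Pool.Agent.ATY.Perp
import Pool.Agent.ATY.L

/-!
# Crossing sets (project HIER, row H1)
-/

set_option autoImplicit false

open scoped ComplexConjugate InnerProductSpace
open Filter Topology

namespace ATY
open Singer Pool.WeakAtiyah

namespace HOne

/-- a function with finite support -/
lemma exists_fs {F : Type} (c : F → ℂ) (hc : {f | c f ≠ 0}.Finite) : ∃ v : L2 F, ∀ f, v f = c f := by
  classical
  refine ⟨∑ f ∈ hc.toFinset, c f • dl f, fun f => ?_⟩
  rw [lp.coeFn_sum, Finset.sum_apply]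
  simp only [lp.coeFn_smul, Pi.smul_apply, smul_eq_mul]
  by_cases hf : c f = 0
  · rw [hf, Finset.sum_eq_zero]
    intro f' hf'
    have hne : f ≠ f' := by
      rintro rfl
      exact hc.mem_toFinset.1 hf' hf
    rw [dl_apply_ne hne, mul_zero]
  · rw [Finset.sum_eq_single_of_mem f (hc.mem_toFinset.2 hf)]
    · rw [dl_apply_self, mul_one]
    · intro f' _ hne
      rw [dl_apply_ne (fun h => hne h.symm), mul_zero]

lemma eval_adj {X Y : Type} (T : L2 X →L[ℂ] L2 Y) (z : L2 X) (y : Y) :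
    T z y = ⟪ContinuousLinearMap.adjoint T (dl y), z⟫_ℂ := by
  rw [ContinuousLinearMap.adjoint_inner_left, inner_dl_left]

/-- equality of entries -/
lemma entry_eq {X Y Y' : Type} {T : L2 X →L[ℂ] L2 Y} {T' : L2 X →L[ℂ] L2 Y'} {y : Y} {y' : Y'}
    (h : ∀ x, T (dl x) y = T' (dl x) y') (z : L2 X) : T z y = T' z y' := by
  rw [eval_adj, eval_adj]
  congr 1
  ext x
  rw [adj_apply, adj_apply, h]

lemma entry_zero {X Y : Type} {T : L2 X →L[ℂ] L2 Y} {y : Y} (h : ∀ x, T (dl x) y = 0) (z : L2 X) : T z y = 0 := by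
  have h1 := entry_eq (T := T) (T' := (0 : L2 X →L[ℂ] L2 Y)) (y := y) (y' := y) (fun x => by
    rw [h x]
    rfl) z
  rw [h1]
  rfl

lemma cu_dl {X : Type} (R : Set X) (x : X) [Decidable (x ∈ R)] : cu R (dl x) = if x ∈ R then dl x else 0 := by
  classical
  ext x'
  rw [cu_apply]
  by_cases hx : x ∈ R
  · rw [if_pos hx]
    by_cases hx' : x' = x
    · subst hx'
      rw [if_pos hx]
    · rw [dl_apply_ne hx']
      split_ifs <;> rfl
  · rw [if_neg hx]
    by_cases hx' : x' = x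
    · subst hx'
      rw [if_neg hx]
      rfl
    · rw [dl_apply_ne hx']
      split_ifs <;> rfl

/-- finitely many orbits upstairs -/
lemma fc_of_fib {H F Y : Type} [Group H] [MulAction H F] [MulAction H Y] [hY : FC H Y] (e : F →[H] Y)
    (hfin : ∀ y, {f | e f = y}.Finite) : FC H F where
  free h f hf := hY.free h (e f) (by rw [← map_smul, hf])
  fin := by
    have h1 : Finite (MulAction.orbitRel.Quotient H Y) := hY.fin
    have h2 : ∀ y : Y, Finite {f // e f = y} := fun y => (hfin y).to_subtype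
    refine Finite.of_surjective (fun p : Σ o : MulAction.orbitRel.Quotient H Y, {f // e f = o.out} =>
      (Quotient.mk (MulAction.orbitRel H F) p.2.1 : MulAction.orbitRel.Quotient H F)) ?_
    intro o
    induction o using Quotient.inductionOn with
    | h f =>
      obtain ⟨g, hg⟩ := AA.rel_out (G := H) (e f)
      refine ⟨⟨Quotient.mk _ (e f), ⟨g⁻¹ • f, ?_⟩⟩, ?_⟩
      · rw [map_smul, inv_smul_eq_iff]
        exact hg.symm
      · exact Quotient.sound ⟨g⁻¹, rfl⟩

end HOne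

open HOne

/-- **Crossing sets.** -/
theorem exists_cut {H X Y B : Type} [Group H] [MulAction H X] [FC H X] [MulAction H Y] [FC H Y] [MulAction H B]
    {S : L2 X →L[ℂ] L2 Y} (hS : KOp ⊤ H S) (R1 : B → Set X) (R2 : B → Set Y)
    (e1 : ∀ (h : H) (b : B) (x : X), h • x ∈ R1 (h • b) ↔ x ∈ R1 b)
    (e2 : ∀ (h : H) (b : B) (y : Y), h • y ∈ R2 (h • b) ↔ y ∈ R2 b)
    (hfin : ∀ x y, S (dl x) y ≠ 0 → {b | ¬ (x ∈ R1 b ↔ y ∈ R2 b)}.Finite) :
    ∃ (F : Type) (_ : MulAction H F) (_ : FC H F) (g : F →[H] B) (e : F →[H] Y)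
      (N : L2 X →L[ℂ] L2 F) (M : L2 Y →L[ℂ] L2 F), KOp ⊤ H N ∧ KOp ⊤ H M ∧
      (∀ f, ∃ x, S (dl x) (e f) ≠ 0 ∧ ¬ (x ∈ R1 (g f) ↔ e f ∈ R2 (g f))) ∧
      ∀ (b : B) (S' : Set Y) (z : L2 X) (u : L2 Y),
        ⟪cu {f | g f = b ∧ e f ∈ S'} (N z), M u⟫_ℂ = ⟪cu S' (S (cu (R1 b) z) - cu (R2 b) (S z)), u⟫_ℂ := by
  classical
  have hSe : ∀ (h : H) (x : X) (y : Y), S (dl (h • x)) (h • y) = S (dl x) y := by
    intro h x y
    rw [← la_dl, hS.equi, la_apply, inv_smul_smul]
  have hrow : ∀ y, {x | S (dl x) y ≠ 0}.Finite := by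
    intro y
    refine (hS.adj.fs y).subset fun x hx => ?_
    show ContinuousLinearMap.adjoint S (dl y) x ≠ 0
    rw [adj_apply]
    exact fun h => hx ((map_eq_zero (starRingEnd ℂ)).1 h)
  -- the set
  let cr : B → Y → Prop := fun b y => ∃ x, S (dl x) y ≠ 0 ∧ ¬ (x ∈ R1 b ↔ y ∈ R2 b)
  have hcr : ∀ (h : H) (b : B) (y : Y), cr b y → cr (h • b) (h • y) := by
    rintro h b y ⟨x, h1, h2⟩
    refine ⟨h • x, ?_, ?_⟩
    · rw [hSe]
      exact h1
    · rw [e1, e2]
      exact h2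
  let F : Type := {f : B × Y // cr f.1 f.2}
  let act : MulAction H F :=
    { smul := fun h f => ⟨(h • f.1.1, h • f.1.2), hcr h _ _ f.2⟩
      one_smul := fun f => Subtype.ext (Prod.ext (one_smul H f.1.1) (one_smul H f.1.2))
      mul_smul := fun h k f => Subtype.ext (Prod.ext (mul_smul h k f.1.1) (mul_smul h k f.1.2)) }
  let g : F →[H] B := ⟨fun f => f.1.1, fun _ _ => rfl⟩
  let e : F →[H] Y := ⟨fun f => f.1.2, fun _ _ => rfl⟩
  have hg : ∀ f, g f = f.1.1 := fun _ => rfl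
  have he : ∀ f, e f = f.1.2 := fun _ => rfl
  have hfib : ∀ y, {f | e f = y}.Finite := by
    intro y
    have h1 : {b | cr b y}.Finite := by
      refine ((hrow y).biUnion fun x hx => hfin x y hx).subset ?_
      rintro b ⟨x, h1, h2⟩
      exact Set.mem_biUnion h1 h2
    refine Set.Finite.of_finite_image (f := fun f : F => f.1.1) (h1.subset ?_) ?_
    · rintro _ ⟨f, hf, rfl⟩
      have hf' : f.1.2 = y := hf
      show cr f.1.1 y
      rw [← hf']
      exact f.2
    · intro f hf f' hf' hff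
      have h2 : f.1.2 = y := hf
      have h3 : f'.1.2 = y := hf'
      exact Subtype.ext (Prod.ext hff (h2.trans h3.symm))
  have hFC : FC H F := fc_of_fib e hfib
  -- the operator `N`
  let cN : X → F → ℂ := fun x f =>
    ((if x ∈ R1 f.1.1 then 1 else 0) - (if f.1.2 ∈ R2 f.1.1 then 1 else 0)) * S (dl x) f.1.2
  have hcN : ∀ x, {f | cN x f ≠ 0}.Finite := by
    intro x
    refine ((hS.fs x).biUnion fun y _ => hfib y).subset fun f hf => ?_
    refine Set.mem_biUnion (x := f.1.2) ?_ rfl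
    exact fun h => hf (by
      show _ * S (dl x) f.1.2 = 0
      rw [h, mul_zero])
  choose vN hvN using fun x => exists_fs (cN x) (hcN x)
  obtain ⟨N, hN, hNv⟩ := exists_kop (K := ⊤) (H := H) vN
    (by
      intro h x
      ext f
      rw [la_apply, hvN, hvN]
      show ((if h • x ∈ R1 f.1.1 then 1 else 0) - (if f.1.2 ∈ R2 f.1.1 then 1 else 0)) * S (dl (h • x)) f.1.2 =
        ((if x ∈ R1 (h⁻¹ • f.1.1) then 1 else 0) - (if h⁻¹ • f.1.2 ∈ R2 (h⁻¹ • f.1.1) then 1 else 0)) *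
          S (dl x) (h⁻¹ • f.1.2)
      have h1 : h • x ∈ R1 f.1.1 ↔ x ∈ R1 (h⁻¹ • f.1.1) := by
        rw [← e1 h (h⁻¹ • f.1.1) x, smul_inv_smul]
      have h2 : f.1.2 ∈ R2 f.1.1 ↔ h⁻¹ • f.1.2 ∈ R2 (h⁻¹ • f.1.1) := (e2 h⁻¹ f.1.1 f.1.2).symm
      have h3 : S (dl (h • x)) f.1.2 = S (dl x) (h⁻¹ • f.1.2) := by
        rw [← hSe h x (h⁻¹ • f.1.2), smul_inv_smul]
      rw [h3]
      simp only [h1, h2])
    (by
      intro x
      refine (hcN x).subset fun f hf => ?_
      have hf' : vN x f ≠ 0 := hf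
      rw [hvN] at hf'
      exact hf')
    (fun _ _ => trivial)
  -- the operator `M`
  let cM : Y → F → ℂ := fun y f => if f.1.2 = y then 1 else 0
  have hcM : ∀ y, {f | cM y f ≠ 0}.Finite := by
    intro y
    refine (hfib y).subset fun f hf => ?_
    by_contra h
    exact hf (if_neg h)
  choose vM hvM using fun y => exists_fs (cM y) (hcM y)
  obtain ⟨M, hM, hMv⟩ := exists_kop (K := ⊤) (H := H) vM
    (by
      intro h y
      ext f
      rw [la_apply, hvM, hvM]
      show (if f.1.2 = h • y then (1 : ℂ) else 0) = if h⁻¹ • f.1.2 = y then 1 else 0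
      have h1 : f.1.2 = h • y ↔ h⁻¹ • f.1.2 = y := inv_smul_eq_iff.symm
      simp only [h1])
    (by
      intro y
      refine (hcM y).subset fun f hf => ?_
      have hf' : vM y f ≠ 0 := hf
      rw [hvM] at hf'
      exact hf')
    (fun _ _ => trivial)
  have hMe : ∀ (u : L2 Y) (f : F), M u f = u f.1.2 := by
    intro u f
    refine entry_eq (T := M) (T' := (1 : L2 Y →L[ℂ] L2 Y)) (y := f) (y' := f.1.2) (fun y => ?_) u
    rw [hMv, hvM]
    show (if f.1.2 = y then (1 : ℂ) else 0) = dl y f.1.2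
    by_cases h : f.1.2 = y
    · rw [if_pos h, h, dl_apply_self]
    · rw [if_neg h, dl_apply_ne h]
  -- the difference
  have hT : ∀ (b : B) (x : X) (y : Y), (S.comp (cu (R1 b)) - (cu (R2 b)).comp S) (dl x) y =
      ((if x ∈ R1 b then 1 else 0) - (if y ∈ R2 b then 1 else 0)) * S (dl x) y := by
    intro b x y
    show S (cu (R1 b) (dl x)) y - cu (R2 b) (S (dl x)) y = _
    rw [cu_dl, cu_apply]
    by_cases hx : x ∈ R1 b
    · rw [if_pos hx, if_pos hx]
      split_ifs <;> ring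
    · rw [if_neg hx, if_neg hx, map_zero]
      show (0 : ℂ) - _ = _
      split_ifs <;> ring
  have hNe : ∀ (z : L2 X) (f : F), N z f = (S (cu (R1 f.1.1) z) - cu (R2 f.1.1) (S z)) f.1.2 := by
    intro z f
    refine entry_eq (T := N) (T' := S.comp (cu (R1 f.1.1)) - (cu (R2 f.1.1)).comp S) (y := f) (y' := f.1.2) (fun x => ?_) z
    rw [hNv, hvN, hT]
  have hzero : ∀ (b : B) (z : L2 X) (y : Y), ¬ cr b y → (S (cu (R1 b) z) - cu (R2 b) (S z)) y = 0 := by
    intro b z y hy
    refine entry_zero (T := S.comp (cu (R1 b)) - (cu (R2 b)).comp S) (fun x => ?_) z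
    rw [hT]
    by_cases h1 : S (dl x) y = 0
    · rw [h1, mul_zero]
    · have h2 : x ∈ R1 b ↔ y ∈ R2 b := by
        by_contra h3
        exact hy ⟨x, h1, h3⟩
      simp only [h2, sub_self, zero_mul]
  refine ⟨F, act, hFC, g, e, N, M, hN, hM, fun f => f.2, fun b S' z u => ?_⟩
  rw [inner_eq, inner_eq]
  let jF : {y // cr b y} → F := fun y => ⟨(b, y.1), y.2⟩
  have hjF : Function.Injective jF := by
    intro y y' h
    exact Subtype.ext (congrArg (fun f : F => f.1.2) h)
  have hjY : Function.Injective (Subtype.val : {y // cr b y} → Y) := Subtype.val_injective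
  have h1 : Function.support (fun f : F => conj (cu {f | g f = b ∧ e f ∈ S'} (N z) f) * M u f) ⊆ Set.range jF := by
    intro f hf
    have h2 : f ∈ {f | g f = b ∧ e f ∈ S'} := by
      by_contra h3
      apply hf
      show conj (cu {f | g f = b ∧ e f ∈ S'} (N z) f) * M u f = 0
      rw [cu_apply, if_neg h3, map_zero, zero_mul]
    have h4 : f.1.1 = b := h2.1
    have h5 : cr b f.1.2 := by
      rw [← h4]
      exact f.2
    exact ⟨⟨f.1.2, h5⟩, Subtype.ext (Prod.ext h4.symm rfl)⟩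
  have h2 : Function.support (fun y : Y => conj (cu S' (S (cu (R1 b) z) - cu (R2 b) (S z)) y) * u y) ⊆
      Set.range (Subtype.val : {y // cr b y} → Y) := by
    intro y hy
    by_cases h3 : cr b y
    · exact ⟨⟨y, h3⟩, rfl⟩
    exfalso
    apply hy
    show conj (cu S' (S (cu (R1 b) z) - cu (R2 b) (S z)) y) * u y = 0
    have h4 : cu S' (S (cu (R1 b) z) - cu (R2 b) (S z)) y = 0 := by
      rw [cu_apply]
      split_ifs
      · exact hzero b z y h3
      · rfl
    rw [h4, map_zero, zero_mul]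
  rw [← hjF.tsum_eq h1, ← hjY.tsum_eq h2]
  refine tsum_congr fun y => ?_
  rw [cu_apply, cu_apply, hMe]
  have h3 : jF y ∈ {f | g f = b ∧ e f ∈ S'} ↔ y.1 ∈ S' := by
    constructor
    · exact fun h => h.2
    · exact fun h => ⟨rfl, h⟩
  by_cases hy : y.1 ∈ S'
  · rw [if_pos (h3.2 hy), if_pos hy, hNe]
  · rw [if_neg (fun h => hy (h3.1 h)), if_neg hy]

end ATY
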