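import Pool.Agent.ATY.HDefs
import Pool.Agent.ATY.CPhi

/-!
# Extensions by kernels which act on trees (rows H9a, H9b of the project HIER)

* `PF.psi`: if the kernel of `r : L →* A` acts trivially on `Q`, then `Psi L Q → L → A` is again as in `PF`, with the
  Cayley tree of the free group on the letters as an additional tree;
* `PF.sub`: subgroups.
-/

set_option autoImplicit false

open scoped ComplexConjugate InnerProductSpace

namespace ATY
open Singer Singer.HT Pool.WeakAtiyah

/-- row H9b. a subgroup `S` of `L` which is mapped to the subgroup `A'` -/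
theorem PF.sub {L A I : Type} [Group L] [Group A] {r : L →* A} {W : I → Type} [∀ i, MulAction L (W i)]
    {B : ∀ i, SimpleGraph (W i)} (h : PF r W B) {S A' : Type} [Group S] [Group A'] (j : S →* L) (hj : Function.Injective j)
    (i : A' →* A) (hi : Function.Injective i) (r' : S →* A') (hr : ∀ s, i (r' s) = r (j s)) :
    ∃ (_ : ∀ i, MulAction S (W i)), PF r' W B := by
  have hk : ∀ s, r' s = 1 → r (j s) = 1 := fun s hs => by rw [← hr, hs, map_one]
  refine ⟨fun i => MulAction.compHom (W i) j, ?_⟩
  letI : ∀ i, MulAction S (W i) := fun i => MulAction.compHom (W i) j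
  exact
    { tree := h.tree
      adj := fun i g v w hvw => h.adj i (j g) v w hvw
      noinv := fun i g v w hvw hg => h.noinv i (j g) v w hvw hg
      triv := fun i g hg v hv w => h.triv i (j g) (hk g hg) v hv w
      free := fun g hg hw => hj ((h.free (j g) (hk g hg) fun i w => hw i w).trans (map_one j).symm) }

/-- the sets of vertices for `PF.psi` -/
def WP (I : Type) (W : I → Type) (Q : Type) : Option I → Type
  | none => CV Q
  | some i => W i

/-- the actions for `PF.psi` -/
noncomputable def WPact {L I : Type} [Group L] (W : I → Type) [∀ i, MulAction L (W i)] (Q : Type) [MulAction L Q] :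
    ∀ i, MulAction (Psi L Q) (WP I W Q i)
  | none => cvAct
  | some i => MulAction.compHom (W i) (SemidirectProduct.rightHom : Psi L Q →* L)

/-- the trees for `PF.psi` -/
noncomputable def WPtree {I : Type} {W : I → Type} (B : ∀ i, SimpleGraph (W i)) (Q : Type) :
    ∀ i, SimpleGraph (WP I W Q i)
  | none => CT Q
  | some i => B i

/-- row H9a. `Psi L Q → L → A` if the kernel of `r` acts trivially on `Q`. -/
theorem PF.psi {L A I : Type} [Group L] [Group A] {r : L →* A} {W : I → Type} [∀ i, MulAction L (W i)]
    {B : ∀ i, SimpleGraph (W i)} (h : PF r W B) (Q : Type) [MulAction L Q]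
    (hQ : ∀ g : L, r g = 1 → ∀ q : Q, g • q = q) :
    ∃ (W' : Option I → Type) (_ : ∀ i, MulAction (Psi L Q) (W' i)) (B' : ∀ i, SimpleGraph (W' i)),
      PF (r.comp (SemidirectProduct.rightHom : Psi L Q →* L)) W' B' := by
  have hphi : ∀ g : L, r g = 1 → ∀ v : FreeGroup (Q × ℤ), phiA L Q g v = v := by
    intro g hg v
    have h1 : (phiA L Q g).toMonoidHom = MonoidHom.id _ := by
      apply FreeGroup.ext_hom
      rintro ⟨q, k⟩
      show phiA L Q g (FreeGroup.of (q, k)) = FreeGroup.of (q, k)
      rw [phiA_of, hQ g hg q]
    exact congrArg (fun f : FreeGroup (Q × ℤ) →* FreeGroup (Q × ℤ) => f v) h1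
  have hleft : ∀ g : Psi L Q, r g.right = 1 → ∀ v : CV Q, g • v = v → g.left = 1 := by
    intro g hg v hv
    have h1 : phiA L Q g.right (show FreeGroup (Q × ℤ) from v) * g.left⁻¹ = (show FreeGroup (Q × ℤ) from v) := hv
    rw [hphi g.right hg] at h1
    exact inv_eq_one.1 (mul_eq_left.1 h1)
  refine ⟨WP I W Q, WPact W Q, WPtree B Q, ?_⟩
  letI := WPact (L := L) W Q
  exact
    { tree := fun i => by
        cases i with
        | none => exact ct_tree
        | some i => exact h.tree i
      adj := fun i g v w hvw => by
        cases i with
        | none => exact ct_smul g v w hvw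
        | some i => exact h.adj i g.right v w hvw
      noinv := fun i g v w hvw hg => by
        cases i with
        | none => exact ct_noinv g v w hvw hg
        | some i => exact h.noinv i g.right v w hvw hg
      triv := fun i g hg v hv w => by
        cases i with
        | none =>
          have h1 : g.left = 1 := hleft g hg v hv
          show phiA L Q g.right (show FreeGroup (Q × ℤ) from w) * g.left⁻¹ = (show FreeGroup (Q × ℤ) from w)
          rw [h1, hphi g.right hg, inv_one, mul_one]
        | some i => exact h.triv i g.right hg v hv w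
      free := fun g hg hw => by
        have h1 : g.left = 1 := hleft g hg (1 : FreeGroup (Q × ℤ)) (hw none (1 : FreeGroup (Q × ℤ)))
        have h2 : g.right = 1 := h.free g.right hg fun i w => hw (some i) w
        exact SemidirectProduct.ext h1 h2 }

end ATY
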