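import Pool.Agent.ATY.CPhi
import Pool.Agent.ATY.E5

/-!
# The quotient `A ⧸ C` is enough for `SSP` (row H9c)
-/

set_option autoImplicit false
set_option linter.unusedSectionVars false

open scoped ComplexConjugate InnerProductSpace
open Filter Topology

namespace ATY
open Singer Singer.HT Pool.WeakAtiyah

/-- the proof of `ssp_of_psi` for one set `Q` -/
lemma top_of_psi {n : ℕ} (hn : 0 < n) {A : Type} [Group A] {X Q : Type} [MulAction A X] [FC A X] [MulAction A Q]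
    (hR : RanksIn ⊤ (Psi A Q) n) (a : X →[A] Q) (q : Q) (ho : ∀ x, a x ∈ MulAction.orbit A q)
    (H : ∀ Y : Submodule ℂ (L2 X), Md A Y → Loc a Y → Rat ⊤ (Psi A Q) (hat Q Y) →
      Rat ⊤ (MulAction.stabilizer A q) (loc a q Y)) {t : ℝ} {Z Y : Submodule ℂ (L2 X)} (hZ : Md A Z) (lZ : Loc a Z)
    (hY : Md A Y) (lY : Loc a Y)
    (h : IsTop (MulAction.stabilizer A q) (Rat ⊤ (MulAction.stabilizer A q)) t (loc a q Z) (loc a q Y)) :
    IsTop A (Rat ⊤ A) t Z Y := by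
  obtain ⟨X', hX'⟩ := exists_isTop hn hR t (Md.hat (Q := Q) hZ)
  obtain ⟨Y₁, hY₁, lY₁, rfl⟩ := top_hat a hZ lZ hX'
  have hr₁ : Rat ⊤ (MulAction.stabilizer A q) (loc a q Y₁) := H Y₁ hY₁ lY₁ hX'.mem
  have hRY : Rat ⊤ A Y := rat_of_loc ho hY lY h.mem
  obtain ⟨m, hm0, hm⟩ := exists_mult (G := A) q ho
  have h1 : hf A t Z Y₁ ≤ hf A t Z Y := by
    rw [hf_loc hm t hZ lZ hY₁ lY₁, hf_loc hm t hZ lZ hY lY]
    exact mul_le_mul_of_nonneg_left (h.le _ hr₁) hm0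
  have h2 : hf A t Z Y ≤ hf A t Z Y₁ := by
    rw [← hf_hat (Q := Q) hZ hY t, ← hf_hat (Q := Q) hZ hY₁ t]
    exact hX'.le _ hRY.hat
  have h3 : Y ≤ Y₁ := by
    rw [← hat_le_iff (Q := Q)]
    refine hX'.top _ hRY.hat ?_
    rw [hf_hat (Q := Q) hZ hY t, hf_hat (Q := Q) hZ hY₁ t]
    exact h1
  have h4 : Y₁ ≤ Y := by
    by_cases hm1 : m = 0
    · have e1 : vd A Y₁ ≤ vd A Y := by
        rw [hm _ hY₁ lY₁, hm _ hY lY, hm1, zero_mul, zero_mul]
      rw [eq_of_vd_le hY hY₁ h3 e1]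
    · have hm2 : 0 < m := lt_of_le_of_ne hm0 (Ne.symm hm1)
      refine le_of_loc_le_orbit ho hY₁ lY₁ hY lY (h.top _ hr₁ ?_)
      have h5 := h2
      rw [hf_loc hm t hZ lZ hY₁ lY₁, hf_loc hm t hZ lZ hY lY] at h5
      exact le_of_mul_le_mul_left h5 hm2
  have h5 : Y₁ = Y := le_antisymm h4 h3
  subst h5
  refine ⟨hRY, fun W hW => ?_, fun W hW hle => ?_⟩
  · rw [← hf_hat (Q := Q) hZ hW.md t, ← hf_hat (Q := Q) hZ hY t]
    exact hX'.le _ hW.hat
  · rw [← hat_le_iff (Q := Q)]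
    refine hX'.top _ hW.hat ?_
    rw [hf_hat (Q := Q) hZ hW.md t, hf_hat (Q := Q) hZ hY t]
    exact hle

/-- a map to one orbit is a map to the quotient by the stabiliser -/
lemma exists_toQuot {A X Q : Type} [Group A] [MulAction A X] [MulAction A Q] (a : X →[A] Q) {q : Q} {C : Subgroup A}
    (hst : MulAction.stabilizer A q = C) (ho : ∀ x, a x ∈ MulAction.orbit A q) :
    ∃ a' : X →[A] A ⧸ C, ∀ (x : X) (g : A), a' x = (g : A ⧸ C) ↔ a x = g • q := by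
  choose γ hγ using ho
  have hγ' : ∀ x, γ x • q = a x := hγ
  have key : ∀ g g' : A, ((g : A ⧸ C) = (g' : A ⧸ C)) ↔ g • q = g' • q := by
    intro g g'
    rw [QuotientGroup.eq, ← hst, MulAction.mem_stabilizer_iff, mul_smul, inv_smul_eq_iff]
    exact eq_comm
  refine ⟨⟨fun x => (γ x : A ⧸ C), fun g x => ?_⟩, fun x g => ?_⟩
  · show ((γ (g • x) : A) : A ⧸ C) = ((g * γ x : A) : A ⧸ C)
    rw [key, hγ', mul_smul, hγ', map_smul]
  · show ((γ x : A) : A ⧸ C) = (g : A ⧸ C) ↔ _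
    rw [key, hγ']

/-- row H9c. the quotient `A ⧸ C` is enough for `SSP` -/
theorem ssp_of_quot {n : ℕ} (hn : 0 < n) {A : Type} [Group A] (C : Subgroup A) (hR : RanksIn ⊤ (Psi A (A ⧸ C)) n)
    (H : ∀ (X : Type) [MulAction A X] [FC A X] (a : X →[A] A ⧸ C), ∀ Y : Submodule ℂ (L2 X), Md A Y → Loc a Y →
      Rat ⊤ (Psi A (A ⧸ C)) (hat (A ⧸ C) Y) →
      Rat ⊤ (MulAction.stabilizer A ((1 : A) : A ⧸ C)) (loc a ((1 : A) : A ⧸ C) Y)) : SSP ⊤ A C := by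
  intro X Q _ _ _ a q hFC hst ho t Z Y hZ lZ hY lY h
  obtain ⟨a', ha'⟩ := exists_toQuot a hst ho
  have ho' : ∀ x, a' x ∈ MulAction.orbit A ((1 : A) : A ⧸ C) := by
    intro x
    obtain ⟨g, hg⟩ := QuotientGroup.mk_surjective (a' x)
    refine ⟨g, ?_⟩
    show ((g * 1 : A) : A ⧸ C) = a' x
    rw [mul_one]
    exact hg
  have hl : ∀ W : Submodule ℂ (L2 X), Loc a W → Loc a' W := by
    intro W hW c f hf
    obtain ⟨g, rfl⟩ := QuotientGroup.mk_surjective c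
    have h1 : {x | a' x = (g : A ⧸ C)} = {x | a x = g • q} := by
      ext x
      exact ha' x g
    have h2 : cu {x | a' x = (g : A ⧸ C)} f ∈ W := by
      rw [h1]
      exact hW _ _ hf
    exact h2
  have ha1 : ∀ x : X, a' x = ((1 : A) : A ⧸ C) ↔ a x = q := by
    intro x
    rw [ha', one_smul]
  have hs1 : ∀ g : A, g • q = q ↔ g • ((1 : A) : A ⧸ C) = ((1 : A) : A ⧸ C) := by
    intro g
    have h1 : g • ((1 : A) : A ⧸ C) = ((1 : A) : A ⧸ C) ↔ g ∈ C := smul_c1_iff C g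
    rw [h1, ← hst]
    exact Iff.rfl
  let β : MulAction.stabilizer A q ≃* MulAction.stabilizer A ((1 : A) : A ⧸ C) :=
    { toFun := fun g => ⟨g.1, (hs1 g.1).1 g.2⟩
      invFun := fun g => ⟨g.1, (hs1 g.1).2 g.2⟩
      left_inv := fun _ => rfl
      right_inv := fun _ => rfl
      map_mul' := fun _ _ => rfl }
  let e : Fib a q ≃ Fib a' ((1 : A) : A ⧸ C) :=
    { toFun := fun x => ⟨x.1, (ha1 x.1).2 x.2⟩
      invFun := fun x => ⟨x.1, (ha1 x.1).1 x.2⟩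
      left_inv := fun _ => rfl
      right_inv := fun _ => rfl }
  have h1 := IsTop.equiv β e (fun _ _ => rfl) (hZ.loc (a := a) q) h
  have hm : ∀ W : Submodule ℂ (L2 X), (loc a q W).map (push e e.injective : L2 (Fib a q) →ₗ[ℂ] L2 (Fib a' ((1 : A) : A ⧸ C))) =
      loc a' ((1 : A) : A ⧸ C) W := fun W => map_comap_trans (fi_inj a q) (fi_inj a' _) e (fun _ => rfl) W
  rw [hm, hm] at h1
  exact top_of_psi hn hR a' ((1 : A) : A ⧸ C) ho' (H X a') hZ (hl Z lZ) hY (hl Y lY) h1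

end ATY
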