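import Pool.Agent.ATY.H8
import Pool.Agent.ATY.H9
import Pool.Agent.ATY.H9c

/-!
# The class `Good` is closed under actions on trees
-/

set_option autoImplicit false

open scoped ComplexConjugate InnerProductSpace

namespace ATY
open Singer Singer.HT Pool.WeakAtiyah

/-- the two properties for a group `S` with an injective homomorphism to `L` and a homomorphism to a good group -/
lemma Good.apply {n : ℕ} {L A I : Type} [Group L] [Group A] [Finite I] {r : L →* A} {W : I → Type}
    [∀ i, MulAction L (W i)] {B : ∀ i, SimpleGraph (W i)} (h : PF r W B) {S A' : Type} [Group S] [Group A']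
    (hG : Good n A') (j : S →* L) (hj : Function.Injective j)
    (i : A' →* A) (hi : Function.Injective i) (r' : S →* A') (hr : ∀ s, i (r' s) = r (j s)) :
    RanksIn ⊤ S n ∧ ∀ (D : Subgroup S) (U : Subgroup L), r.ker ≤ U → (∀ s, s ∈ D ↔ j s ∈ U) → SSP ⊤ S D := by
  obtain ⟨act, h'⟩ := h.sub j hj i hi r' hr
  refine ⟨hG.rk S I r' W B h', fun D U hU hD => ?_⟩
  have h1 : D = ((U.map r).comap i).comap r' := by
    ext s
    rw [hD, Subgroup.mem_comap, Subgroup.mem_comap, hr]
    have h2 : (U.map r).comap r = U := Subgroup.comap_map_eq_self hU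
    have h3 : j s ∈ (U.map r).comap r ↔ j s ∈ U := by rw [h2]
    exact h3.symm
  rw [h1]
  exact hG.ssp S I r' W B h' _

section tree
variable {n : ℕ} {G V : Type} [Group G] [MulAction G V] {T : SimpleGraph V}

/-- the properties of an extension of a group acting on a tree -/
theorem Good.tree_aux (hn : 0 < n) (hT : T.IsTree) (hA : ∀ (g : G) (v w : V), T.Adj v w → T.Adj (g • v) (g • w))
    (hI : ∀ (g : G) (v w : V), T.Adj v w → g • v = w → g • w ≠ v)
    (hG : ∀ v : V, Good n (MulAction.stabilizer G v))
    {L I : Type} [Group L] [Finite I] {r : L →* G} {W : I → Type} [∀ i, MulAction L (W i)]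
    {B : ∀ i, SimpleGraph (W i)} (h : PF r W B) :
    RanksIn ⊤ L n ∧ (∀ v : V, SSP ⊤ L ((MulAction.stabilizer G v).comap r)) ∧
      ∀ v w : V, T.Adj v w → SSP ⊤ L ((MulAction.stabilizer G v ⊓ MulAction.stabilizer G w).comap r) := by
  let act : MulAction L V := MulAction.compHom V r
  have hs : ∀ (g : L) (v : V), g • v = r g • v := fun g v => rfl
  have hst : ∀ v : V, MulAction.stabilizer L v = (MulAction.stabilizer G v).comap r := fun v => rfl
  have key : ∀ v : V, RanksIn ⊤ (MulAction.stabilizer L v) n ∧ ∀ (D : Subgroup (MulAction.stabilizer L v)) (U : Subgroup L),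
      r.ker ≤ U → (∀ s, s ∈ D ↔ (s : L) ∈ U) → SSP ⊤ (MulAction.stabilizer L v) D := by
    intro v
    exact Good.apply h (hG v) (MulAction.stabilizer L v).subtype Subtype.val_injective
      (MulAction.stabilizer G v).subtype Subtype.val_injective
      { toFun := fun g => ⟨r g.1, g.2⟩
        map_one' := Subtype.ext (map_one r)
        map_mul' := fun x y => Subtype.ext (map_mul r x.1 y.1) } (fun s => rfl)
  have hker : ∀ v : V, r.ker ≤ MulAction.stabilizer L v := by
    intro v g hg
    rw [MulAction.mem_stabilizer_iff, hs, MonoidHom.mem_ker.1 hg, one_smul]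
  have hS : ∀ v w : V, T.Adj v w → SSP ⊤ (MulAction.stabilizer L v)
      ((MulAction.stabilizer L w).subgroupOf (MulAction.stabilizer L v)) := by
    intro v w _
    exact (key v).2 _ (MulAction.stabilizer L w) (hker w) (fun s => Iff.rfl)
  have hR : ∀ v : V, RanksIn ⊤ (MulAction.stabilizer L v) n := fun v => (key v).1
  have hA' : ∀ (g : L) (v w : V), T.Adj v w → T.Adj (g • v) (g • w) := fun g v w => hA (r g) v w
  have hI' : ∀ (g : L) (v w : V), T.Adj v w → g • v = w → g • w ≠ v := fun g v w => hI (r g) v w
  have hV : ∀ v : V, SSP ⊤ L (MulAction.stabilizer L v) := fun v => ssp_vertex hn hT hA' hI' hS hR v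
  refine ⟨tree_main hn hT hA' hI' hS hR, hV, fun v w hvw => ?_⟩
  refine ssp_trans (MulAction.stabilizer L v) _ (fun g hg => hg.1) (hV v) ?_
  refine (key v).2 _ (MulAction.stabilizer L w) (hker w) (fun s => ?_)
  constructor
  · intro h1
    exact h1.2
  · intro h1
    exact ⟨s.2, h1⟩

theorem Good.tree (hn : 0 < n) (hT : T.IsTree) (hA : ∀ (g : G) (v w : V), T.Adj v w → T.Adj (g • v) (g • w))
    (hI : ∀ (g : G) (v w : V), T.Adj v w → g • v = w → g • w ≠ v)
    (hG : ∀ v : V, Good n (MulAction.stabilizer G v)) : Good n G where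
  rk L I _ _ r W _ B h := (Good.tree_aux hn hT hA hI hG h).1
  ssp L I _ _ r W _ B h C := by
    let act : MulAction L V := MulAction.compHom V r
    have hs : ∀ (g : L) (v : V), g • v = r g • v := fun g v => rfl
    let Q : Type := L ⧸ C.comap r
    have hQ : ∀ g : L, r g = 1 → ∀ q : Q, g • q = q := by
      intro g hg q
      induction q using QuotientGroup.induction_on with
      | H x =>
        show ((g * x : L) : L ⧸ C.comap r) = (x : L ⧸ C.comap r)
        rw [QuotientGroup.eq, Subgroup.mem_comap, map_mul, map_inv, map_mul, hg, one_mul, inv_mul_cancel]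
        exact C.one_mem
    obtain ⟨W', act', B', h'⟩ := h.psi Q hQ
    obtain ⟨hR, hV, hE⟩ := Good.tree_aux hn hT hA hI hG h'
    let q₀ : Q := ((1 : L) : L ⧸ C.comap r)
    have hkerQ : ∀ q : Q, r.ker ≤ MulAction.stabilizer L q := fun q g hg => hQ g hg q
    refine ssp_of_quot hn _ hR ?_
    intro X _ _ a Y hY lY hr
    refine des hn hT (fun g v w => hA (r g) v w) a q₀ hR (fun v w hvw => ?_) (fun v => ?_) hY lY hr
    · have e1 : MulAction.stabilizer (Psi L Q) ((v, w) : VL V × VL V) =
          (MulAction.stabilizer G v ⊓ MulAction.stabilizer G w).comap (r.comp (SemidirectProduct.rightHom : Psi L Q →* L)) := by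
        ext g
        constructor
        · intro h1
          exact ⟨congrArg Prod.fst h1, congrArg Prod.snd h1⟩
        · intro h1
          exact Prod.ext h1.1 h1.2
      rw [e1]
      exact hE v w hvw
    · -- the stabiliser of `v`
      let P : Subgroup (Psi L Q) := (MulAction.stabilizer G v).comap (r.comp (SemidirectProduct.rightHom : Psi L Q →* L))
      have hPm : ∀ g : Psi L Q, g ∈ P ↔ r g.right • v = v := fun g => Iff.rfl
      let D : Subgroup (Psi L Q) := MulAction.stabilizer (Psi L Q) ((v, hp 1 q₀) : VL V × HX Q Q)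
      have hDm : ∀ g : Psi L Q, g ∈ D ↔ (r g.right • v = v ∧ g.left = 1 ∧ g.right • q₀ = q₀) := by
        intro g
        constructor
        · intro h1
          have h2 := congrArg Prod.snd h1
          have h3 : g.left * phiA L Q g.right 1 = 1 := congrArg Prod.fst h2
          rw [map_one, mul_one] at h3
          exact ⟨congrArg Prod.fst h1, h3, congrArg (fun z : HX Q Q => z.2) h2⟩
        · rintro ⟨h1, h2, h3⟩
          refine Prod.ext h1 (Prod.ext ?_ h3)
          show g.left * phiA L Q g.right 1 = 1
          rw [map_one, mul_one, h2]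
      refine ssp_trans P D (fun g hg => ((hDm g).1 hg).1) (hV v) ?_
      -- the action of `P` on the Cayley tree
      let rP : ∀ w : CV Q, MulAction.stabilizer P w →* MulAction.stabilizer G v := fun w =>
        { toFun := fun g => ⟨r g.1.1.right, g.1.2⟩
          map_one' := Subtype.ext (by
            show r (1 : Psi L Q).right = 1
            rw [SemidirectProduct.one_right, map_one])
          map_mul' := fun x y => Subtype.ext (by
            show r (x.1.1 * y.1.1 : Psi L Q).right = r x.1.1.right * r y.1.1.right
            rw [SemidirectProduct.mul_right, map_mul]) }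
      let jP : ∀ w : CV Q, MulAction.stabilizer P w →* L := fun w =>
        { toFun := fun g => g.1.1.right
          map_one' := rfl
          map_mul' := fun x y => rfl }
      have hfix : ∀ (w : CV Q) (g : MulAction.stabilizer P w),
          phiA L Q g.1.1.right (show FreeGroup (Q × ℤ) from w) * g.1.1.left⁻¹ = (show FreeGroup (Q × ℤ) from w) :=
        fun w g => g.2
      have hjP : ∀ w : CV Q, Function.Injective (jP w) := by
        intro w x y hxy
        have hxy' : x.1.1.right = y.1.1.right := hxy
        apply Subtype.ext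
        apply Subtype.ext
        refine SemidirectProduct.ext ?_ hxy'
        have h1 := hfix w x
        have h2 := hfix w y
        rw [hxy'] at h1
        exact inv_injective (mul_left_cancel (h1.trans h2.symm))
      have key : ∀ w : CV Q, RanksIn ⊤ (MulAction.stabilizer P w) n ∧
          ∀ (D' : Subgroup (MulAction.stabilizer P w)) (U : Subgroup L),
            r.ker ≤ U → (∀ s, s ∈ D' ↔ s.1.1.right ∈ U) → SSP ⊤ (MulAction.stabilizer P w) D' := fun w =>
        Good.apply h (hG v) (jP w) (hjP w) (MulAction.stabilizer G v).subtype Subtype.val_injective (rP w) (fun s => rfl)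
      have hS : ∀ w w' : CV Q, (CT Q).Adj w w' → SSP ⊤ (MulAction.stabilizer P w)
          ((MulAction.stabilizer P w').subgroupOf (MulAction.stabilizer P w)) := by
        intro w w' hw
        obtain ⟨p, hp'⟩ := (ct_adj w w').1 hw
        refine (key w).2 _ (MulAction.stabilizer L p.1.1) (hkerQ p.1.1) (fun s => ?_)
        have h1 := cvE_mem (A := L) hp' s.1.1.right
        rw [h1]
        have h2 : (cvE (A := L) w s.1.1.right : Psi L Q) = s.1.1 := by
          have h3 := (cvE (A := L) w).right_inv ⟨s.1.1, s.2⟩
          exact congrArg Subtype.val h3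
        rw [h2]
        exact Iff.rfl
      let o : CV Q := (1 : FreeGroup (Q × ℤ))
      have hom : ∀ g : P, g ∈ MulAction.stabilizer P o ↔ g.1.left = 1 := by
        intro g
        rw [MulAction.mem_stabilizer_iff]
        have h3 : g • o = (phiA L Q g.1.right 1 * g.1.left⁻¹ : FreeGroup (Q × ℤ)) := rfl
        rw [h3, map_one, one_mul]
        exact inv_eq_one (α := FreeGroup (Q × ℤ))
      have hO : SSP ⊤ P (MulAction.stabilizer P o) :=
        ssp_vertex hn ct_tree (fun g v w h => ct_smul g.1 v w h) (fun g v w h h1 => ct_noinv g.1 v w h h1) hS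
          (fun w => (key w).1) o
      refine ssp_trans (MulAction.stabilizer P o) _ (fun g hg => (hom g).2 ((hDm g.1).1 hg).2.1) hO ?_
      refine (key o).2 _ (MulAction.stabilizer L q₀) (hkerQ q₀) (fun s => ?_)
      constructor
      · intro h1
        exact ((hDm s.1.1).1 h1).2.2
      · intro h1
        exact (hDm s.1.1).2 ⟨s.1.2, (hom s.1).1 s.2, h1⟩

end tree

end ATY
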