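import Pool.Agent.ATY.HDefs
import Pool.Agent.ATY.F2
import Pool.Agent.ATY.FT
import Pool.Agent.ATY.Triv

/-!
# Groups with hierarchies: the trivial group, divisors, subgroups
-/

set_option autoImplicit false

open scoped ComplexConjugate InnerProductSpace

namespace ATY
open Singer Pool.WeakAtiyah

theorem Good.triv (A : Type) [Group A] [Subsingleton A] : Good 1 A := by
  have hrk : ∀ (L I : Type) [Group L] [Finite I] (r : L →* A) (W : I → Type) [∀ i, MulAction L (W i)]
      (B : ∀ i, SimpleGraph (W i)), PF r W B → RanksIn ⊤ L 1 := by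
    intro L I _ _ r W _ B h
    obtain ⟨k, ⟨e⟩⟩ := Finite.exists_equiv_fin I
    refine trees_main one_pos k (V := fun j => W (e.symm j)) (T := fun j => B (e.symm j))
      (fun j => h.tree _) (fun j => h.adj _) (fun j => h.noinv _) ?_ ?_
    · intro j v w _
      refine (Set.finite_singleton w).subset ?_
      rintro _ ⟨g, rfl⟩
      exact h.triv _ (g : L) (Subsingleton.elim _ _) v g.2 w
    · intro v
      have hs : Subsingleton (⨅ j, MulAction.stabilizer L (v j) : Subgroup L) := by
        refine ⟨fun a b => ?_⟩
        have key : ∀ g : (⨅ j, MulAction.stabilizer L (v j) : Subgroup L), (g : L) = 1 := by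
          intro g
          refine h.free (g : L) (Subsingleton.elim _ _) fun i w => ?_
          have h1 := (Subgroup.mem_iInf.1 g.2) (e i)
          have h2 : (g : L) • v (e i) = v (e i) := h1
          have h3 := h.triv (e.symm (e i)) (g : L) (Subsingleton.elim _ _) (v (e i)) h2
          rw [e.symm_apply_apply] at h3
          exact h3 w
        exact Subtype.ext ((key a).trans (key b).symm)
      exact ranksIn_triv _ _
  refine ⟨hrk, fun L I _ _ r W _ B h C => ?_⟩
  have hC : C.comap r = ⊤ := by
    rw [Subsingleton.elim C ⊤, Subgroup.comap_top]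
  rw [hC]
  exact ssp_of_finiteIndex one_pos (hrk L I r W B h) ⊤

theorem Good.dvd {A : Type} [Group A] {m n : ℕ} (hn : 0 < n) (hmn : m ∣ n) (h : Good m A) : Good n A :=
  ⟨fun L I _ _ r W _ B hP => ranksIn_of_dvd hn hmn (h.rk L I r W B hP), h.ssp⟩

theorem Good.of_injective {A A' : Type} [Group A] [Group A'] {n : ℕ} (h : Good n A) (f : A' →* A)
    (hf : Function.Injective f) : Good n A' := by
  have key : ∀ (L I : Type) [Group L] (r : L →* A') (W : I → Type) [∀ i, MulAction L (W i)]
      (B : ∀ i, SimpleGraph (W i)), PF r W B → PF (f.comp r) W B := by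
    intro L I _ r W _ B hP
    have h1 : ∀ g : L, (f.comp r) g = 1 → r g = 1 := fun g hg => hf (by rw [map_one]; exact hg)
    exact ⟨hP.tree, hP.adj, hP.noinv, fun i g hg => hP.triv i g (h1 g hg),
      fun g hg => hP.free g (h1 g hg)⟩
  refine ⟨fun L I _ _ r W _ B hP => h.rk L I _ W B (key L I r W B hP),
    fun L I _ _ r W _ B hP C => ?_⟩
  have h2 := h.ssp L I _ W B (key L I r W B hP) (C.map f)
  have h3 : (C.map f).comap (f.comp r) = C.comap r := by
    rw [← Subgroup.comap_comap, Subgroup.comap_map_eq_self_of_injective hf]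
  rwa [h3] at h2

theorem Good.ranks {A : Type} [Group A] {n : ℕ} (h : Good n A) : RanksIn ⊤ A n := by
  refine h.rk A Empty (MonoidHom.id A) (fun _ => PUnit) (fun _ => ⊥) ⟨fun i => i.elim, fun i => i.elim,
    fun i => i.elim, fun i => i.elim, fun g hg _ => hg⟩

end ATY
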