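import Pool.Agent.ATY.X2
import Pool.Agent.ATY.H9c
import Pool.Agent.ATY.H9

/-!
# Directed unions (row H12)
-/

set_option autoImplicit false
set_option linter.unusedSectionVars false

open scoped ComplexConjugate InnerProductSpace
open Filter Topology

namespace ATY
open Singer Singer.HT Pool.WeakAtiyah

/-- the homomorphism to a subgroup of the target -/
def comapHom {L A : Type} [Group L] [Group A] (r : L →* A) (B : Subgroup A) : B.comap r →* B where
  toFun g := ⟨r g.1, g.2⟩
  map_one' := Subtype.ext (map_one r)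
  map_mul' g h := Subtype.ext (map_mul r g.1 h.1)

/-- **directed unions** -/
theorem Good.union {A : Type} [Group A] {n : ℕ} (hn : 0 < n)
    (h : ∀ S : Finset A, ∃ B : Subgroup A, (∀ g ∈ S, g ∈ B) ∧ Good n B) : Good n A := by
  classical
  have hsub : ∀ (L I : Type) [Group L] [Finite I] (r : L →* A) (W : I → Type) [∀ i, MulAction L (W i)]
      (T : ∀ i, SimpleGraph (W i)), PF r W T → ∀ S : Finset L, ∃ N : Subgroup L, (∀ g ∈ S, g ∈ N) ∧ RanksIn ⊤ N n ∧
        ∀ C : Subgroup A, SSP ⊤ N ((C.comap r).subgroupOf N) := by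
    intro L I _ _ r W _ T hP S
    obtain ⟨B, hSB, hB⟩ := h (S.image r)
    obtain ⟨act, hPB⟩ := hP.sub (B.comap r).subtype Subtype.val_injective B.subtype Subtype.val_injective
      (comapHom r B) fun s => rfl
    refine ⟨B.comap r, fun g hg => hSB _ (Finset.mem_image_of_mem r hg), hB.rk _ I (comapHom r B) W T hPB, ?_⟩
    intro C
    exact hB.ssp _ I (comapHom r B) W T hPB (C.subgroupOf B)
  have hrk : ∀ (L I : Type) [Group L] [Finite I] (r : L →* A) (W : I → Type) [∀ i, MulAction L (W i)]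
      (T : ∀ i, SimpleGraph (W i)), PF r W T → RanksIn ⊤ L n := by
    intro L I _ _ r W _ T hP
    refine ranksIn_union fun S => ?_
    obtain ⟨N, h1, h2, -⟩ := hsub L I r W T hP S
    exact ⟨N, h1, h2⟩
  refine ⟨hrk, ?_⟩
  intro L I _ _ r W _ T hP C
  -- the action of the kernel on the quotient
  have hst : ∀ q : L ⧸ C.comap r, ∃ C' : Subgroup A, MulAction.stabilizer L q = C'.comap r := by
    intro q
    obtain ⟨g, rfl⟩ := QuotientGroup.mk_surjective q
    refine ⟨C.map (MulAut.conj (r g)).toMonoidHom, ?_⟩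
    ext x
    rw [MulAction.mem_stabilizer_iff, Subgroup.mem_comap, Subgroup.mem_map]
    have h1 : x • ((g : L) : L ⧸ C.comap r) = ((x * g : L) : L ⧸ C.comap r) := rfl
    rw [h1, eq_comm, QuotientGroup.eq, Subgroup.mem_comap, map_mul, map_inv, map_mul]
    constructor
    · intro h2
      refine ⟨_, h2, ?_⟩
      show (MulAut.conj (r g)) ((r g)⁻¹ * (r x * r g)) = r x
      rw [MulAut.conj_apply]
      group
    · rintro ⟨c, hc, h2⟩
      have h3 : r g * c * (r g)⁻¹ = r x := by
        rw [← MulAut.conj_apply]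
        exact h2
      rw [← h3]
      have h4 : (r g)⁻¹ * (r g * c * (r g)⁻¹ * r g) = c := by group
      rw [h4]
      exact hc
  have hQ : ∀ g : L, r g = 1 → ∀ q : L ⧸ C.comap r, g • q = q := by
    intro g hg q
    obtain ⟨C', hC'⟩ := hst q
    have h1 : g ∈ MulAction.stabilizer L q := by
      rw [hC', Subgroup.mem_comap, hg]
      exact C'.one_mem
    exact h1
  obtain ⟨W', act', T', hP'⟩ := hP.psi (L ⧸ C.comap r) hQ
  have hR : RanksIn ⊤ (Psi L (L ⧸ C.comap r)) n := hrk _ (Option I) _ W' T' hP'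
  refine ssp_of_quot hn (C.comap r) hR ?_
  intro X _ _ a Y hY lY hr
  refine rat_of_hat_union' hn (fun S => ?_) a _ (fun x => ?_) hY lY hr
  · obtain ⟨N, h1, h2, h3⟩ := hsub L I r W T hP S
    refine ⟨N, h1, h2, fun q => ?_⟩
    obtain ⟨C', hC'⟩ := hst q
    have h4 := h3 C'
    rw [← hC'] at h4
    exact h4
  · obtain ⟨g, hg⟩ := QuotientGroup.mk_surjective (a x)
    refine ⟨g, ?_⟩
    show ((g * 1 : L) : L ⧸ C.comap r) = a x
    rw [mul_one]
    exact hg

end ATY
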