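import Pool.Agent.ATY.HDefs
import Pool.Agent.ATY.Cls

/-!
# Row H13: overgroups of finite index
-/

set_option autoImplicit false

open scoped ComplexConjugate InnerProductSpace
open Filter Topology

namespace ATY
open Singer Pool.WeakAtiyah

/-- if the maxima are induced from the intersections of a normal subgroup `F` of finite index with the conjugates of `C`
to `F`, they are induced from `C` to the group -/
theorem ssp_of_normal_conj {K : Subfield ℂ} {A : Type} [Group A] {n : ℕ} (hn : 0 < n) (hR : RanksIn K A n)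
    (F : Subgroup A) [F.Normal] [F.FiniteIndex] (C : Subgroup A)
    (hF : ∀ g : A, SSP K F ((C.map (MulAut.conj g).toMonoidHom).subgroupOf F)) : SSP K A C := by
  intro X Q _ _ _ a q _ hC horb t Z Y hZ lZ hY lY hT
  subst hC
  obtain ⟨YA, hYA⟩ := exists_isTop (H := A) hn hR t hZ
  rcases isEmpty_or_nonempty X with hX | ⟨⟨x₀⟩⟩
  · have hs : Subsingleton (L2 X) := ⟨fun f g => by
      ext x
      exact (hX.false x).elim⟩
    have h1 : Y = YA := by
      ext f
      rw [Subsingleton.elim f 0]
      simp only [Submodule.zero_mem]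
    rw [h1]
    exact hYA
  have hRB : ∀ B : Subgroup A, RanksIn K B n := fun B =>
    ranksIn_of_injective B.subtype (Subgroup.subtype_injective _) hR
  have hRF : ∀ B : Subgroup F, RanksIn K B n := fun B =>
    ranksIn_of_injective B.subtype (Subgroup.subtype_injective _) (hRB F)
  have hFT : IsTop F (Rat K F) t Z YA := IsTop.res hn hR hZ hYA F
  have hZF : Md F Z := ⟨fun h f hf => hZ.inv (h : A) f hf, hZ.cl⟩
  have hYF : Md F Y := ⟨fun h f hf => hY.inv (h : A) f hf, hY.cl⟩
  let δ : X →[F] Q := ⟨a, fun h x => map_smul a (h : A) x⟩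
  let p : Q →[F] Tv Unit := ⟨fun _ => (), fun _ _ => rfl⟩
  have key : ∀ x : X, IsTop (MulAction.stabilizer F (δ x)) (Rat K (MulAction.stabilizer F (δ x))) t
      (loc δ (δ x) Z) (loc δ (δ x) Y) := by
    intro x
    obtain ⟨g, hg⟩ := horb x
    have hg' : a x = g • q := hg.symm
    have h1 := IsTop.equiv (MulAction.stabilizerEquivStabilizer hg') (fibE a g hg') (fibE_smul a g hg')
      (hZ.loc (a := a) q) hT
    rw [map_fibE a g hg' hZ, map_fibE a g hg' hY] at h1
    have h2 := IsTop.res hn (hRB _) (hZ.loc (a := a) (a x)) h1 (F.subgroupOf (MulAction.stabilizer A (a x)))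
    let α : F.subgroupOf (MulAction.stabilizer A (a x)) ≃* MulAction.stabilizer F (δ x) :=
      { toFun := fun h => ⟨⟨h.1.1, h.2⟩, h.1.2⟩
        invFun := fun h => ⟨⟨h.1.1, h.2⟩, h.1.2⟩
        left_inv := fun _ => rfl
        right_inv := fun _ => rfl
        map_mul' := fun _ _ => rfl }
    let e : Fib a (a x) ≃ Fib δ (δ x) :=
      { toFun := fun y => ⟨y.1, y.2⟩
        invFun := fun y => ⟨y.1, y.2⟩
        left_inv := fun _ => rfl
        right_inv := fun _ => rfl }
    have hZN : Md (F.subgroupOf (MulAction.stabilizer A (a x))) (loc a (a x) Z) :=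
      ⟨fun h f hf => (hZ.loc (a := a) (a x)).inv (h : MulAction.stabilizer A (a x)) f hf, (hZ.loc (a := a) (a x)).cl⟩
    have h3 := IsTop.equiv α e (fun _ _ => rfl) hZN h2
    have hm : ∀ W : Submodule ℂ (L2 X), (loc a (a x) W).map
        (push e e.injective : L2 (Fib a (a x)) →ₗ[ℂ] L2 (Fib δ (δ x))) = loc δ (δ x) W := fun W =>
      map_comap_trans (fi_inj a (a x)) (fi_inj δ (δ x)) e (fun _ => rfl) W
    rw [hm, hm] at h3
    exact h3
  have hS : ∀ x : X, SSP K _ (dst p (δ x)) := by
    intro x
    obtain ⟨g, hg⟩ := horb x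
    refine ssp_equiv (tvE F (p (δ x))).symm ?_ (hF g)
    intro f
    have h1 : (tvE F (p (δ x))).symm f ∈ dst p (δ x) ↔ (f : A) • a x = a x := Iff.rfl
    rw [h1, Subgroup.mem_subgroupOf, Subgroup.mem_map_equiv, MulAction.mem_stabilizer_iff, ← hg]
    have h2 : (MulAut.conj g).symm (f : A) = g⁻¹ * f * g := by simp
    rw [h2]
    show (g⁻¹ * f * g) • q = q ↔ (f : A) • g • q = g • q
    rw [mul_smul, mul_smul, inv_smul_eq_iff]
  have h1 := node hn δ p (fun x => hRF _) hS t hZF lZ hYF lY key x₀
  let e : Fib (p.comp δ) (p (δ x₀)) ≃ X :=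
    { toFun := fun y => y.1
      invFun := fun y => ⟨y, rfl⟩
      left_inv := fun _ => rfl
      right_inv := fun _ => rfl }
  have h2 := IsTop.equiv (tvE F (p (δ x₀))) e (fun _ _ => rfl) (hZF.loc (a := p.comp δ) (p (δ x₀))) h1
  have hm : ∀ W : Submodule ℂ (L2 X), (loc (p.comp δ) (p (δ x₀)) W).map
      (push e e.injective : L2 (Fib (p.comp δ) (p (δ x₀))) →ₗ[ℂ] L2 X) = W := fun W =>
    (map_comap_trans (fi_inj (p.comp δ) (p (δ x₀))) Function.injective_id e (fun _ => rfl) W).trans (comap_push_id W)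
  rw [hm, hm] at h2
  have h3 : YA = Y := hFT.unique h2
  rw [← h3]
  exact hYA

/-- a homomorphism to a conjugate of the target, restricted to a subgroup -/
lemma PF.conj_sub {L A I : Type} [Group L] [Group A] {r : L →* A} {W : I → Type} [∀ i, MulAction L (W i)]
    {B : ∀ i, SimpleGraph (W i)} (h : PF r W B) (M : Subgroup L) (N : Subgroup A) (g : A) (r' : M →* N)
    (hr : ∀ m : M, (r' m : A) = g⁻¹ * r m * g) : PF r' W B where
  tree := h.tree
  adj i m v w hvw := h.adj i (m : L) v w hvw
  noinv i m v w hvw := h.noinv i (m : L) v w hvw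
  triv i m hm v hv w := by
    refine h.triv i (m : L) ?_ v hv w
    have h1 := hr m
    rw [hm, Subgroup.coe_one] at h1
    have h2 : g⁻¹ * r m * g = 1 := h1.symm
    calc r m = g * (g⁻¹ * r m * g) * g⁻¹ := by group
      _ = 1 := by rw [h2]; group
  free m hm hv := by
    apply Subtype.ext
    refine h.free (m : L) ?_ hv
    have h1 := hr m
    rw [hm, Subgroup.coe_one] at h1
    have h2 : g⁻¹ * r m * g = 1 := h1.symm
    calc r m = g * (g⁻¹ * r m * g) * g⁻¹ := by group
      _ = 1 := by rw [h2]; group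

/-- ranks: all orbits of a finite set -/
theorem ranksIn_of_orbits {K : Subfield ℂ} {L S : Type} [Group L] [MulAction L S] [Finite S] {n : ℕ} (hn : 0 < n)
    [Nonempty S] (h : ∀ s : S, RanksIn K (MulAction.stabilizer L s) n) : RanksIn K L (n * Nat.card S) := by
  classical
  have hidx : ∀ s : S, (MulAction.stabilizer L s).index = Nat.card (MulAction.orbit L s) := by
    intro s
    rw [MulAction.index_stabilizer]
    exact (Nat.card_coe_set_eq (MulAction.orbit L s)).symm
  have hpos : ∀ s : S, Nat.card (MulAction.orbit L s) ≠ 0 := by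
    intro s
    have h1 : Nonempty (MulAction.orbit L s) := ⟨⟨s, MulAction.mem_orbit_self s⟩⟩
    exact Nat.card_ne_zero.2 ⟨h1, inferInstance⟩
  have hr : ∀ s : S, RanksIn K L (n * Nat.card (MulAction.orbit L s)) := by
    intro s
    have h1 : (MulAction.stabilizer L s).FiniteIndex := ⟨by rw [hidx]; exact hpos s⟩
    have h2 := ranksIn_of_finiteIndex hn (MulAction.stabilizer L s) (h s)
    rwa [hidx] at h2
  have hΩ : Finite (MulAction.orbitRel.Quotient L S) := Quotient.finite _
  have hF : Fintype (MulAction.orbitRel.Quotient L S) := Fintype.ofFinite _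
  have hcard : Nat.card S = ∑ ω : MulAction.orbitRel.Quotient L S, Nat.card (MulAction.orbit L ω.out) := by
    rw [Nat.card_congr (MulAction.selfEquivSigmaOrbits L S), Nat.card_sigma]
  intro ι κ _ _ M
  have hz : ∀ s : S, ∃ z : ℤ, rank M * (n * Nat.card (MulAction.orbit L s) : ℕ) = z := by
    intro s
    obtain ⟨z, hz⟩ := hr s ι κ M
    refine ⟨z, ?_⟩
    rw [hz]
    have h1 : ((n * Nat.card (MulAction.orbit L s) : ℕ) : ℝ) ≠ 0 := Nat.cast_ne_zero.2 (Nat.mul_ne_zero hn.ne' (hpos s))
    field_simp
  choose z hz using hz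
  refine ⟨∑ ω : MulAction.orbitRel.Quotient L S, z ω.out, ?_⟩
  have h1 : rank M * (n * Nat.card S : ℕ) = ((∑ ω : MulAction.orbitRel.Quotient L S, z ω.out : ℤ) : ℝ) := by
    rw [hcard, Finset.mul_sum]
    push_cast
    rw [Finset.mul_sum]
    refine Finset.sum_congr rfl fun ω _ => ?_
    rw [← hz]
    push_cast
    rfl
  have h2 : ((n * Nat.card S : ℕ) : ℝ) ≠ 0 := Nat.cast_ne_zero.2 (Nat.mul_ne_zero hn.ne' (Nat.card_ne_zero.2 ⟨inferInstance, inferInstance⟩))
  rw [eq_div_iff h2]
  exact h1

/-- overgroups of finite index -/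
theorem Good.of_finiteIndex {A : Type} [Group A] {n : ℕ} (hn : 0 < n) (N : Subgroup A) [N.FiniteIndex]
    (h : Good n N) : Good (n * N.index) A := by
  have hrk : ∀ (L I : Type) [Group L] [Finite I] (r : L →* A) (W : I → Type) [∀ i, MulAction L (W i)]
      (B : ∀ i, SimpleGraph (W i)), PF r W B → RanksIn ⊤ L (n * N.index) := by
    intro L I _ _ r W _ B hPF
    let _ : MulAction L (A ⧸ N) := MulAction.compHom _ r
    have hfin : Finite (A ⧸ N) := Subgroup.finite_quotient_of_finiteIndex
    have h1 : ∀ s : A ⧸ N, RanksIn ⊤ (MulAction.stabilizer L s) n := by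
      intro s
      obtain ⟨g, rfl⟩ := QuotientGroup.mk_surjective s
      have hm : ∀ m : MulAction.stabilizer L (QuotientGroup.mk g : A ⧸ N), g⁻¹ * r m * g ∈ N := by
        intro m
        have h2 : r (m : L) • (QuotientGroup.mk g : A ⧸ N) = QuotientGroup.mk g := m.2
        have h3 : (QuotientGroup.mk (r (m : L) * g) : A ⧸ N) = QuotientGroup.mk g := h2
        have h4 := QuotientGroup.eq.1 h3.symm
        rwa [← mul_assoc] at h4
      let r' : MulAction.stabilizer L (QuotientGroup.mk g : A ⧸ N) →* N :=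
        { toFun := fun m => ⟨g⁻¹ * r m * g, hm m⟩
          map_one' := by
            apply Subtype.ext
            show g⁻¹ * r 1 * g = 1
            rw [map_one]
            group
          map_mul' := fun x y => by
            apply Subtype.ext
            show g⁻¹ * r (x * y) * g = (g⁻¹ * r x * g) * (g⁻¹ * r y * g)
            rw [map_mul]
            group }
      exact h.rk _ I r' W B (hPF.conj_sub _ N g r' (fun _ => rfl))
    exact ranksIn_of_orbits hn h1
  refine ⟨hrk, ?_⟩
  intro L I _ _ r W _ B hPF C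
  have hR : RanksIn ⊤ L (n * N.index) := hrk L I r W B hPF
  have hn' : 0 < n * N.index := Nat.mul_pos hn (Nat.pos_of_ne_zero Subgroup.FiniteIndex.index_ne_zero)
  have hcore : N.normalCore.FiniteIndex := Subgroup.finiteIndex_normalCore N
  have hF : (N.normalCore.comap r).FiniteIndex := ⟨by
    rw [Subgroup.index_comap]
    exact Subgroup.FiniteIndex.index_ne_zero (H := N.normalCore.subgroupOf r.range)⟩
  refine ssp_of_normal_conj hn' hR (N.normalCore.comap r) (C.comap r) (fun g => ?_)
  let r' : N.normalCore.comap r →* N :=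
    { toFun := fun m => ⟨r m, Subgroup.normalCore_le N m.2⟩
      map_one' := Subtype.ext (map_one r)
      map_mul' := fun x y => Subtype.ext (map_mul r (x : L) (y : L)) }
  have h3 := h.ssp _ I r' W B (hPF.conj_sub _ N 1 r' (fun m => by
    show r m = 1⁻¹ * r m * 1
    group)) ((C.map (MulAut.conj (r g)).toMonoidHom).subgroupOf N)
  have h4 : ((C.comap r).map (MulAut.conj g).toMonoidHom).subgroupOf (N.normalCore.comap r) =
      ((C.map (MulAut.conj (r g)).toMonoidHom).subgroupOf N).comap r' := by
    ext m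
    rw [Subgroup.mem_subgroupOf, Subgroup.mem_map_equiv, Subgroup.mem_comap, Subgroup.mem_comap,
      Subgroup.mem_subgroupOf, Subgroup.mem_map_equiv]
    have h5 : (MulAut.conj g).symm (m : L) = g⁻¹ * m * g := by simp
    have h6 : (MulAut.conj (r g)).symm ((r' m : N) : A) = (r g)⁻¹ * r m * r g := by
      show (MulAut.conj (r g)).symm (r m) = _
      simp
    rw [h5, h6, map_mul, map_mul, map_inv]
  rw [h4]
  exact h3

end ATY
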