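import Pool.Agent.ATY.H10
import Pool.Agent.ATY.H11
import Pool.Agent.ATY.H12
import Pool.Agent.ATY.H13

/-!
# The class of groups with a hierarchy
-/

set_option autoImplicit false

namespace ATY
open Pool.WeakAtiyah

/-- the ranks over the group algebra over a subfield are ranks over the complex group algebra -/
theorem ranksIn_of_top {K : Subfield ℂ} {G : Type} [Group G] {n : ℕ} (h : RanksIn ⊤ G n) : RanksIn K G n := by
  intro ι κ _ _ A
  let φ : K →+* (⊤ : Subfield ℂ) := Subfield.inclusion le_top
  have hφ : Function.Injective φ := φ.injective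
  let A' : Matrix ι κ (MonoidAlgebra (⊤ : Subfield ℂ) G) := fun i j => MonoidAlgebra.mapRingHom G φ (A i j)
  have hc : ∀ i j (g : G), (A' i j).coeff g = φ ((A i j).coeff g) := by
    intro i j g
    simp [A']
  have hsupp : ∀ i j, (A' i j).coeff.support = (A i j).coeff.support := by
    intro i j
    ext g
    rw [Finsupp.mem_support_iff, Finsupp.mem_support_iff, hc, map_ne_zero_iff φ hφ]
  have himg : image A' = image A := by
    unfold image
    congr 1
    ext f
    refine exists_congr fun y => forall_congr' fun g => forall_congr' fun j => ?_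
    have h1 : ∑ i, ∑ h ∈ (A' i j).coeff.support, ((A' i j).coeff h : ℂ) * y (g * h⁻¹, i) =
        ∑ i, ∑ h ∈ (A i j).coeff.support, ((A i j).coeff h : ℂ) * y (g * h⁻¹, i) := by
      refine Finset.sum_congr rfl fun i _ => ?_
      rw [hsupp]
      refine Finset.sum_congr rfl fun h _ => ?_
      rw [hc]
      rfl
    rw [h1]
  obtain ⟨z, hz⟩ := h ι κ A'
  classical
  have key : ∀ S S' : Submodule ℂ (Row G κ), S = S' →
      ∑ j, (S.topologicalClosure.starProjection (lp.single 2 ((1 : G), j) (1 : ℂ)) ((1 : G), j)).re =
      ∑ j, (S'.topologicalClosure.starProjection (lp.single 2 ((1 : G), j) (1 : ℂ)) ((1 : G), j)).re := by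
    rintro S _ rfl
    rfl
  have h2 : rank A = rank A' := by
    unfold rank
    convert key _ _ himg.symm
  exact ⟨z, h2.trans hz⟩

end ATY
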