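import Pool.Agent.ATY.S
import Pool.Agent.ATY.L
import Pool.Agent.ATY.C

/-!
# Local operators (project HIER, row H2)

* `exists_glueOp`: operators over the stabilisers of representatives of the orbits of `P` define a local operator;
* `exists_local`: a decomposed subspace with rational pieces is given by a local operator.
-/

set_option autoImplicit false

open scoped ComplexConjugate InnerProductSpace
open Filter Topology

namespace ATY
open Singer Pool.WeakAtiyah

namespace HTwo

lemma push_sub_la {H X X' : Type*} [Group H] {N : Subgroup H} [MulAction H X] [MulAction N X'] {j : X' → X}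
    (hj : Function.Injective j) (he : ∀ (h : N) x, j (h • x) = (h : H) • j x) (h : N) (f : L2 X') :
    push j hj (la h f) = la (h : H) (push j hj f) := by
  ext x
  by_cases hx : x ∈ Set.range j
  · obtain ⟨y, rfl⟩ := hx
    have h1 : (h : H)⁻¹ • j y = j (h⁻¹ • y) := by
      rw [he]
      rfl
    rw [push_apply, la_apply, la_apply, h1, push_apply]
  · rw [push_apply_of_notMem _ _ _ hx, la_apply, push_apply_of_notMem]
    rintro ⟨y, hy⟩
    refine hx ⟨h • y, ?_⟩
    rw [he, hy, smul_inv_smul]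

/-- operators over the stabilisers of representatives of the orbits of `P` define a local operator -/
theorem exists_glueOp {K : Subfield ℂ} {H X Z P I : Type} [Group H] [MulAction H X] [FC H X] [MulAction H Z] [FC H Z]
    [MulAction H P] (a : X →[H] P) (c : Z →[H] P) (q : I → P) (hq : ∀ i j (g : H), g • q i = q j → i = j)
    {A B : I → Type} [∀ i, MulAction (MulAction.stabilizer H (q i)) (A i)]
    [∀ i, MulAction (MulAction.stabilizer H (q i)) (B i)]
    (jx : ∀ i, A i → X) (jxi : ∀ i, Function.Injective (jx i))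
    (jxe : ∀ i (h : MulAction.stabilizer H (q i)) y, jx i (h • y) = (h : H) • jx i y)
    (hjx : ∀ i y, a (jx i y) = q i) (cov : ∀ x, ∃ (i : I) (g : H) (y : A i), g • jx i y = x)
    (jz : ∀ i, B i → Z) (jzi : ∀ i, Function.Injective (jz i))
    (jze : ∀ i (h : MulAction.stabilizer H (q i)) y, jz i (h • y) = (h : H) • jz i y)
    (hjz : ∀ i y, c (jz i y) = q i)
    (T : ∀ i, L2 (A i) →L[ℂ] L2 (B i)) (hT : ∀ i, KOp K (MulAction.stabilizer H (q i)) (T i)) :
    ∃ S : L2 X →L[ℂ] L2 Z, KOp K H S ∧ (∀ x z, S (dl x) z ≠ 0 → a x = c z) ∧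
      ∀ i (f : L2 (A i)), S (push (jx i) (jxi i) f) = push (jz i) (jzi i) (T i f) := by
  classical
  choose ix gx yx hx using cov
  let col : X → L2 Z := fun x => la (gx x) (push (jz (ix x)) (jzi (ix x)) (T (ix x) (dl (yx x))))
  have key0 : ∀ (x : X) (i i' : I) (g g' : H) (y : A i) (y' : A i'), g • jx i y = x → g' • jx i' y' = x →
      la g' (push (jz i') (jzi i') (T i' (dl y'))) = la g (push (jz i) (jzi i) (T i (dl y))) := by
    intro x i i' g g' y y' hy h3
    have h1 : (g⁻¹ * g') • q i' = q i := by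
      rw [← hjx i' y', ← map_smul, mul_smul, h3, ← hy, inv_smul_smul, hjx]
    have h2 : i' = i := hq _ _ _ h1
    subst h2
    have h4 : y = (⟨g⁻¹ * g', h1⟩ : MulAction.stabilizer H (q i')) • y' := by
      apply jxi
      rw [jxe]
      show jx i' y = (g⁻¹ * g') • jx i' y'
      rw [mul_smul, h3, ← hy, inv_smul_smul]
    rw [h4, ← la_dl, (hT i').equi, push_sub_la (jzi i') (jze i'), la_la]
    show _ = la (g * (g⁻¹ * g')) _
    rw [mul_inv_cancel_left]
  have key : ∀ (x : X) (i : I) (g : H) (y : A i), g • jx i y = x → col x = la g (push (jz i) (jzi i) (T i (dl y))) :=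
    fun x i g y hy => key0 x i (ix x) g (gx x) y (yx x) hy (hx x)
  have hsupp : ∀ (x : X) (z : Z), col x z ≠ 0 → ∃ y, T (ix x) (dl (yx x)) y ≠ 0 ∧ gx x • jz (ix x) y = z := by
    intro x z hz
    have h1 : push (jz (ix x)) (jzi (ix x)) (T (ix x) (dl (yx x))) ((gx x)⁻¹ • z) ≠ 0 := hz
    by_cases h2 : (gx x)⁻¹ • z ∈ Set.range (jz (ix x))
    · obtain ⟨y, hy⟩ := h2
      refine ⟨y, ?_, ?_⟩
      · rw [← hy, push_apply] at h1
        exact h1
      · rw [hy, smul_inv_smul]
    · exact absurd (push_apply_of_notMem _ _ _ h2) h1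
  have he : ∀ (h : H) x, col (h • x) = la h (col x) := by
    intro h x
    rw [key (h • x) (ix x) (h * gx x) (yx x) (by rw [mul_smul, hx])]
    show _ = la h (la (gx x) _)
    rw [la_la]
  have hf : ∀ x, {z | col x z ≠ 0}.Finite := by
    intro x
    refine (((hT (ix x)).fs (yx x)).image fun y => gx x • jz (ix x) y).subset fun z hz => ?_
    obtain ⟨y, h1, h2⟩ := hsupp x z hz
    exact ⟨y, h1, h2⟩
  have hv : ∀ x z, col x z ∈ K := by
    intro x z
    by_cases hz : col x z = 0
    · rw [hz]
      exact K.zero_mem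
    · obtain ⟨y, h1, h2⟩ := hsupp x z hz
      have h3 : col x z = T (ix x) (dl (yx x)) y := by
        show push (jz (ix x)) (jzi (ix x)) (T (ix x) (dl (yx x))) ((gx x)⁻¹ • z) = _
        rw [← h2, inv_smul_smul, push_apply]
      rw [h3]
      exact (hT (ix x)).val _ _
  obtain ⟨S, hS, hcol⟩ := exists_kop col he hf hv
  refine ⟨S, hS, fun x z hz => ?_, fun i f => ?_⟩
  · rw [hcol] at hz
    obtain ⟨y, -, h2⟩ := hsupp x z hz
    rw [← h2, map_smul, hjz, ← hjx (ix x) (yx x), ← map_smul, hx]
  · have h1 : S.comp (push (jx i) (jxi i)) = (push (jz i) (jzi i)).comp (T i) := by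
      apply eq_of_dl
      intro y
      rw [ContinuousLinearMap.comp_apply, ContinuousLinearMap.comp_apply, push_dl, hcol,
        key (jx i y) i 1 y (one_smul _ _), la_one]
    exact congrArg (fun F : L2 (A i) →L[ℂ] L2 Z => F f) h1

/-- representatives of the orbits of `P` that meet the image of `X` -/
theorem exists_orbit_reps {H X P : Type} [Group H] [MulAction H X] [FC H X] [MulAction H P] (a : X →[H] P) :
    ∃ (I : Type) (_ : Fintype I) (q : I → P), (∀ i j (g : H), g • q i = q j → i = j) ∧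
      ∀ x, ∃ (i : I) (g : H), g • q i = a x := by
  classical
  have hfin : Finite (MulAction.orbitRel.Quotient H X) := FC.fin
  set S : Set P := Set.range fun o : MulAction.orbitRel.Quotient H X =>
    (Quotient.mk (MulAction.orbitRel H P) (a o.out)).out with hS
  have hSf : S.Finite := Set.finite_range _
  have hout : ∀ q ∈ S, (Quotient.mk (MulAction.orbitRel H P) q).out = q := by
    rintro _ ⟨o, rfl⟩
    show (Quotient.mk (MulAction.orbitRel H P) (Quotient.mk (MulAction.orbitRel H P) (a o.out)).out).out = _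
    rw [Quotient.out_eq]
  refine ⟨S, hSf.fintype, Subtype.val, ?_, ?_⟩
  · rintro ⟨q, hq⟩ ⟨q', hq'⟩ g h
    apply Subtype.ext
    show q = q'
    rw [← hout q hq, ← hout q' hq']
    congr 1
    refine AA.mk_eq g⁻¹ ?_
    rw [← (show g • q = q' from h), inv_smul_smul]
  · intro x
    obtain ⟨g, hg⟩ := AA.rel_out (G := H) x
    obtain ⟨k, hk⟩ := AA.rel_out (G := H) (a (Quotient.mk (MulAction.orbitRel H X) x).out)
    refine ⟨⟨_, ⟨Quotient.mk _ x, rfl⟩⟩, g * k, ?_⟩
    show (g * k) • (Quotient.mk (MulAction.orbitRel H P) (a (Quotient.mk (MulAction.orbitRel H X) x).out)).out = a x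
    rw [mul_smul, hk, ← map_smul, hg]

end HTwo

open HTwo

/-- the map of `H × Fin r` to `P` with the values `q i` at `(1, i)` -/
def frMap {H P : Type} [Group H] [MulAction H P] {ι : Type} (q : ι → P) : Fr H ι →[H] P where
  toFun x := x.1 • q x.2
  map_smul' h x := by
    show (h * x.1) • q x.2 = h • x.1 • q x.2
    rw [mul_smul]

lemma frMap_apply {H P : Type} [Group H] [MulAction H P] {ι : Type} (q : ι → P) (x : Fr H ι) : frMap q x = x.1 • q x.2 := rfl

/-- the map of a sum -/
def sumMap {H X Y P : Type} [Group H] [MulAction H X] [MulAction H Y] [MulAction H P] (a : X →[H] P) (b : Y →[H] P) :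
    X ⊕ Y →[H] P where
  toFun := Sum.elim a b
  map_smul' h x := by
    rcases x with x | x
    · exact map_smul a h x
    · exact map_smul b h x

/-- A decomposed subspace with rational pieces is given by a local operator. -/
theorem exists_local {H X P : Type} [Group H] [MulAction H X] [FC H X] [MulAction H P] (a : X →[H] P)
    {W : Submodule ℂ (L2 X)} (hW : Md H W) (lW : Loc a W)
    (qW : ∀ q, Rat ⊤ (MulAction.stabilizer H q) (loc a q W)) :
    ∃ (r s : ℕ) (b : Fr H (Fin r) →[H] P) (c : Fr H (Fin s) →[H] P)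
      (S : L2 (X ⊕ Fr H (Fin r)) →L[ℂ] L2 (Fr H (Fin s))), KOp ⊤ H S ∧
      (∀ x y, S (dl x) y ≠ 0 → Sum.elim a b x = c y) ∧ W = im (pl X (Fr H (Fin r))) (kr S) := by
  classical
  obtain ⟨I, hI, q, hq, hcov⟩ := exists_orbit_reps a
  choose m n T hT hTW using fun i => (qW (q i)).exists_form
  let ε : (Σ i : I, Fin (m i)) ≃ Fin (Fintype.card (Σ i : I, Fin (m i))) := Fintype.equivFin _
  let η : (Σ i : I, Fin (n i)) ≃ Fin (Fintype.card (Σ i : I, Fin (n i))) := Fintype.equivFin _
  set r := Fintype.card (Σ i : I, Fin (m i))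
  set s := Fintype.card (Σ i : I, Fin (n i))
  let b : Fr H (Fin r) →[H] P := frMap fun j => q (ε.symm j).1
  let c : Fr H (Fin s) →[H] P := frMap fun j => q (η.symm j).1
  have hb : ∀ x, b x = x.1 • q (ε.symm x.2).1 := fun _ => rfl
  have hc : ∀ x, c x = x.1 • q (η.symm x.2).1 := fun _ => rfl
  let jx : ∀ i, Fib a (q i) ⊕ Fr (MulAction.stabilizer H (q i)) (Fin (m i)) → X ⊕ Fr H (Fin r) := fun i =>
    Sum.map (fi a (q i)) (fun y => (((y.1 : MulAction.stabilizer H (q i)) : H), ε ⟨i, y.2⟩))
  let jz : ∀ i, Fr (MulAction.stabilizer H (q i)) (Fin (n i)) → Fr H (Fin s) := fun i y =>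
    (((y.1 : MulAction.stabilizer H (q i)) : H), η ⟨i, y.2⟩)
  have jxi : ∀ i, Function.Injective (jx i) := by
    intro i
    refine Sum.map_injective.2 ⟨fi_inj a (q i), ?_⟩
    rintro ⟨h, j⟩ ⟨h', j'⟩ e
    have e1 : (h : H) = (h' : H) := congrArg Prod.fst e
    have e2 : ε ⟨i, j⟩ = ε ⟨i, j'⟩ := congrArg Prod.snd e
    have e3 := ε.injective e2
    have e4 : j = j' := eq_of_heq (Sigma.mk.inj e3).2
    rw [e4, Subtype.ext e1]
  have jzi : ∀ i, Function.Injective (jz i) := by
    rintro i ⟨h, j⟩ ⟨h', j'⟩ e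
    have e1 : (h : H) = (h' : H) := congrArg Prod.fst e
    have e2 : η ⟨i, j⟩ = η ⟨i, j'⟩ := congrArg Prod.snd e
    have e3 := η.injective e2
    have e4 : j = j' := eq_of_heq (Sigma.mk.inj e3).2
    rw [e4, Subtype.ext e1]
  have jxe : ∀ i (h : MulAction.stabilizer H (q i)) y, jx i (h • y) = (h : H) • jx i y := by
    intro i h y
    rcases y with y | y <;> rfl
  have jze : ∀ i (h : MulAction.stabilizer H (q i)) y, jz i (h • y) = (h : H) • jz i y := fun _ _ _ => rfl
  have hjx : ∀ i y, sumMap a b (jx i y) = q i := by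
    intro i y
    rcases y with y | y
    · exact y.2
    · show ((y.1 : MulAction.stabilizer H (q i)) : H) • q (ε.symm (ε ⟨i, y.2⟩)).1 = q i
      rw [Equiv.symm_apply_apply]
      exact y.1.2
  have hjz : ∀ i y, c (jz i y) = q i := by
    intro i y
    rw [hc]
    show ((y.1 : MulAction.stabilizer H (q i)) : H) • q (η.symm (η ⟨i, y.2⟩)).1 = q i
    rw [Equiv.symm_apply_apply]
    exact y.1.2
  -- the fibre over `q i`
  have hran : ∀ i x, sumMap a b x = q i → x ∈ Set.range (jx i) := by
    intro i x hx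
    rcases x with x | x
    · exact ⟨Sum.inl ⟨x, hx⟩, rfl⟩
    · have h1 : x.1 • q (ε.symm x.2).1 = q i := hx
      have h2 : (ε.symm x.2).1 = i := hq _ _ _ h1
      have h3 : ∃ j : Fin (m i), ε ⟨i, j⟩ = x.2 := by
        subst h2
        exact ⟨(ε.symm x.2).2, by rw [Sigma.eta, Equiv.apply_symm_apply]⟩
      obtain ⟨j, hj⟩ := h3
      rw [h2] at h1
      refine ⟨Sum.inr ((⟨x.1, h1⟩, j) : Fr (MulAction.stabilizer H (q i)) (Fin (m i))), ?_⟩
      show (Sum.inr ((x.1, ε ⟨i, j⟩) : Fr H (Fin r)) : X ⊕ Fr H (Fin r)) = Sum.inr x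
      rw [hj]
      rfl
  have hcov2 : ∀ x : X ⊕ Fr H (Fin r), ∃ (i : I) (g : H), g • q i = sumMap a b x := by
    intro x
    rcases x with x | x
    · exact hcov x
    · exact ⟨(ε.symm x.2).1, x.1, rfl⟩
  have cov : ∀ x, ∃ (i : I) (g : H) (y : _), g • jx i y = x := by
    intro x
    obtain ⟨i, g, hg⟩ := hcov2 x
    obtain ⟨y, hy⟩ := hran i (g⁻¹ • x) (by rw [map_smul, ← hg, inv_smul_smul])
    exact ⟨i, g, y, by rw [hy, smul_inv_smul]⟩
  obtain ⟨S, hS, hloc, hcomp⟩ := exists_glueOp (sumMap a b) c q hq jx jxi jxe hjx cov jz jzi jze hjz T hT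
  have hrange : ∀ i, Set.range (jx i) = {x | sumMap a b x = q i} := by
    intro i
    ext x
    constructor
    · rintro ⟨y, rfl⟩
      exact hjx i y
    · exact hran i x
  have hpl : ∀ i (z : L2 (Fib a (q i) ⊕ Fr (MulAction.stabilizer H (q i)) (Fin (m i)))),
      pl X (Fr H (Fin r)) (push (jx i) (jxi i) z) = push (fi a (q i)) (fi_inj a (q i)) (pl _ _ z) := by
    intro i z
    ext x
    by_cases hx : x ∈ Set.range (fi a (q i))
    · obtain ⟨y, rfl⟩ := hx
      rw [push_apply]
      exact push_apply (jx i) (jxi i) z (Sum.inl y)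
    · rw [push_apply_of_notMem _ _ _ hx]
      refine push_apply_of_notMem (jx i) (jxi i) z (y := Sum.inl x) ?_
      rintro ⟨y, hy⟩
      rcases y with y | y
      · exact hx ⟨y, Sum.inl.inj hy⟩
      · exact absurd (show (Sum.inr _ : X ⊕ Fr H (Fin r)) = Sum.inl x from hy) Sum.inr_ne_inl
  have hkS : Md H (kr S) := md_kr hS.equi
  have lkS : Loc (sumMap a b) (kr S) := (kr_loc hS (sumMap a b) c hloc).1
  have hV : Md H (im (pl X (Fr H (Fin r))) (kr S)) := Md.im (kop_pl (K := ⊤)).equi hkS
  refine ⟨r, s, b, c, S, hS, hloc, le_antisymm ?_ ?_⟩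
  · intro f hf
    have h1 : ∀ p, cu {x | a x = p} f ∈ im (pl X (Fr H (Fin r))) (kr S) := by
      intro p
      by_cases hp : ∃ x, a x = p
      · obtain ⟨x, hx⟩ := hp
        obtain ⟨i, g, hg⟩ := hcov x
        have hp2 : p = g • q i := by rw [hg, hx]
        rw [hp2, cu_la]
        refine hV.inv g _ ?_
        have h2 : la g⁻¹ f ∈ W := hW.inv _ _ hf
        have h3 : cu {x | a x = q i} (la g⁻¹ f) =
            push (fi a (q i)) (fi_inj a (q i)) (pull (fi a (q i)) (fi_inj a (q i)) (la g⁻¹ f)) := by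
          rw [push_pull_eq_cu, range_fi]
        have h4 : pull (fi a (q i)) (fi_inj a (q i)) (la g⁻¹ f) ∈ loc a (q i) W := by
          show push (fi a (q i)) (fi_inj a (q i)) (pull (fi a (q i)) (fi_inj a (q i)) (la g⁻¹ f)) ∈ W
          rw [← h3]
          exact lW (q i) _ h2
        rw [h3]
        rw [hTW i] at h4
        have h5 : im (pl _ _) (kr (T i)) ≤ (im (pl X (Fr H (Fin r))) (kr S)).comap
            (push (fi a (q i)) (fi_inj a (q i)) : L2 (Fib a (q i)) →ₗ[ℂ] L2 X) := by
          refine im_le (hV.cl.preimage (push (fi a (q i)) (fi_inj a (q i))).continuous) fun z hz => ?_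
          show push (fi a (q i)) (fi_inj a (q i)) (pl _ _ z) ∈ im (pl X (Fr H (Fin r))) (kr S)
          rw [← hpl]
          refine map_le_im ⟨_, ?_, rfl⟩
          show S (push (jx i) (jxi i) z) = 0
          rw [hcomp, mem_kr.1 hz, map_zero]
        exact h5 h4
      · have h2 : cu {x | a x = p} f = 0 := by
          ext x
          rw [cu_apply, if_neg]
          · rfl
          · exact fun hx => hp ⟨x, hx⟩
        rw [h2]
        exact Submodule.zero_mem _
    have h2 := ATY.mem_of_pieces a hV.cl (f := f) Set.univ fun p _ => h1 p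
    have h3 : cu {x | a x ∈ (Set.univ : Set P)} f = f := by
      ext x
      rw [cu_apply, if_pos]
      exact Set.mem_univ _
    rwa [h3] at h2
  · refine im_le hW.cl fun z hz => ?_
    have h1 : ∀ p, cu {x | a x = p} (pl X (Fr H (Fin r)) z) ∈ W := by
      intro p
      have e0 : cu {x | a x = p} (pl X (Fr H (Fin r)) z) = pl X (Fr H (Fin r)) (cu {x | sumMap a b x = p} z) := by
        ext x
        rw [cu_apply]
        show _ = cu {x | sumMap a b x = p} z (Sum.inl x)
        rw [cu_apply]
        rfl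
      by_cases hp : ∃ x, a x = p
      · obtain ⟨x, hx⟩ := hp
        obtain ⟨i, g, hg⟩ := hcov x
        have hp2 : p = g • q i := by rw [hg, hx]
        rw [e0, hp2, cu_la, (kop_pl (K := ⊤)).equi]
        refine hW.inv g _ ?_
        have h2 : cu {x | sumMap a b x = q i} (la g⁻¹ z) ∈ kr S := lkS _ _ (hkS.inv _ _ hz)
        have h3 : cu {x | sumMap a b x = q i} (la g⁻¹ z) =
            push (jx i) (jxi i) (pull (jx i) (jxi i) (la g⁻¹ z)) := by
          rw [push_pull_eq_cu, hrange]
        rw [h3] at h2 ⊢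
        rw [hpl]
        have h4 : T i (pull (jx i) (jxi i) (la g⁻¹ z)) = 0 := by
          have h5 : S (push (jx i) (jxi i) (pull (jx i) (jxi i) (la g⁻¹ z))) = 0 := h2
          rw [hcomp] at h5
          have h6 := pull_push (jz i) (jzi i) (T i (pull (jx i) (jxi i) (la g⁻¹ z)))
          rw [h5, map_zero] at h6
          exact h6.symm
        have h5 : pl _ _ (pull (jx i) (jxi i) (la g⁻¹ z)) ∈ loc a (q i) W := by
          rw [hTW i]
          exact map_le_im ⟨_, h4, rfl⟩
        exact h5
      · have h2 : cu {x | a x = p} (pl X (Fr H (Fin r)) z) = 0 := by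
          ext x
          rw [cu_apply, if_neg]
          · rfl
          · exact fun hx => hp ⟨x, hx⟩
        rw [h2]
        exact Submodule.zero_mem _
    have h2 := ATY.mem_of_pieces a hW.cl (f := pl X (Fr H (Fin r)) z) Set.univ fun p _ => h1 p
    have h3 : cu {x | a x ∈ (Set.univ : Set P)} (pl X (Fr H (Fin r)) z) = pl X (Fr H (Fin r)) z := by
      ext x
      rw [cu_apply, if_pos]
      exact Set.mem_univ _
    rwa [h3] at h2

end ATY
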