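import Pool.Agent.ATY.FRDefs
import Pool.Agent.ATY.A2

/-!
# Groups with hierarchies: definitions

* `VL V`: the `A`-set `V` as a `Psi A Q`-set;
* `hlf T d`: the half tree of the dart `d = (v, w)` which contains `w` (empty if `v`, `w` are not adjacent);
* `PF r B`: the kernel of `r : L →* A` acts on each of the trees `B i` through a free action, and only the identity acts
  trivially on all the trees;
* `Good n A`: for all such `r : L →* A` the ranks over `ℂ[L]` are in `(1/n) ℤ` and induction from the preimages of the
  subgroups of `A` to `L` preserves the largest maxima.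
-/

set_option autoImplicit false

open scoped ComplexConjugate InnerProductSpace

namespace ATY
open Singer Singer.HT Pool.WeakAtiyah

/-- an `A`-set as a `Psi A Q`-set -/
def VL (V : Type) : Type := V

noncomputable instance instVL (A Q V : Type) [Group A] [MulAction A Q] [MulAction A V] : MulAction (Psi A Q) (VL V) where
  smul g v := (g.right • (show V from v) : V)
  one_smul v := by
    show ((1 : Psi A Q).right • (show V from v) : V) = v
    rw [SemidirectProduct.one_right, one_smul]
  mul_smul g h v := by
    show ((g * h).right • (show V from v) : V) = g.right • (h.right • (show V from v) : V)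
    rw [SemidirectProduct.mul_right, mul_smul]

lemma vl_smul {A Q V : Type} [Group A] [MulAction A Q] [MulAction A V] (g : Psi A Q) (v : V) :
    (g • (show VL V from v) : VL V) = (g.right • v : V) := rfl

/-- the half tree of the dart `d = (v, w)` which contains `w`; empty if `v` and `w` are not adjacent -/
def hlf {V : Type} (T : SimpleGraph V) (d : V × V) : Set V := {u | T.Adj d.1 d.2 ∧ u ∈ half T d.2 d.1}

/-- the action of `Psi A Q` on the free group `FreeGroup (Q × ℤ)` (the set `HX Q PUnit`) -/
abbrev NU (Q : Type) : Type := HX Q PUnit

/-- the kernel of `r` acts on each of the trees `B i` through a free action and only the identity of the kernel acts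
trivially on all of them -/
structure PF {L A I : Type} [Group L] [Group A] (r : L →* A) (W : I → Type) [∀ i, MulAction L (W i)]
    (B : ∀ i, SimpleGraph (W i)) : Prop where
  tree : ∀ i, (B i).IsTree
  adj : ∀ i (g : L) (v w : W i), (B i).Adj v w → (B i).Adj (g • v) (g • w)
  noinv : ∀ i (g : L) (v w : W i), (B i).Adj v w → g • v = w → g • w ≠ v
  triv : ∀ i (g : L), r g = 1 → ∀ v : W i, g • v = v → ∀ w : W i, g • w = w
  free : ∀ g : L, r g = 1 → (∀ i (w : W i), g • w = w) → g = 1

/-- the two properties for all extensions of subgroups of `A` by kernels as in `PF` -/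
structure Good (n : ℕ) (A : Type) [Group A] : Prop where
  rk : ∀ (L I : Type) [Group L] [Finite I] (r : L →* A) (W : I → Type) [∀ i, MulAction L (W i)]
    (B : ∀ i, SimpleGraph (W i)), PF r W B → RanksIn ⊤ L n
  ssp : ∀ (L I : Type) [Group L] [Finite I] (r : L →* A) (W : I → Type) [∀ i, MulAction L (W i)]
    (B : ∀ i, SimpleGraph (W i)), PF r W B → ∀ C : Subgroup A, SSP ⊤ L (C.comap r)

end ATY
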