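import Pool.Agent.ATY.R2
import Pool.Agent.ATY.FRA

/-!
# Orthogonal complements of rational subspaces over the complex numbers (row PERP)
-/

set_option autoImplicit false

open scoped ComplexConjugate InnerProductSpace
open Filter Topology

namespace ATY
open Singer Pool.WeakAtiyah

section perp
variable {H : Type} [Group H] {X Y : Type} [MulAction H X] [MulAction H Y]

lemma adj_apply (T : L2 X →L[ℂ] L2 Y) (y : Y) (x : X) :
    ContinuousLinearMap.adjoint T (dl y) x = conj (T (dl x) y) := by
  rw [← inner_dl_left x, ContinuousLinearMap.adjoint_inner_right, inner_dl_right]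

/-- the adjoint of an operator with an equivariant matrix -/
theorem KOp.adj [FC H X] [FC H Y] {T : L2 X →L[ℂ] L2 Y} (hT : KOp ⊤ H T) :
    KOp ⊤ H (ContinuousLinearMap.adjoint T) where
  equi := fun h f => adjoint_equi T hT.equi h f
  fs y := by
    have hY : FC H Y := inferInstance
    have h1 : ∀ i : Fin (rk H X), {g : H | T (dl ((co H X).symm (1, i))) (g⁻¹ • y) ≠ 0}.Finite := by
      intro i
      refine Set.Finite.of_finite_image ((hT.fs ((co H X).symm (1, i))).subset ?_) (f := fun g : H => g⁻¹ • y) ?_
      · rintro _ ⟨g, hg, rfl⟩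
        exact hg
      · intro g _ g' _ hgg
        have h2 : g⁻¹ • y = g'⁻¹ • y := hgg
        have h3 : (g' * g⁻¹) • y = y := by
          rw [mul_smul, h2, smul_inv_smul]
        have h4 := hY.free _ _ h3
        rw [mul_inv_eq_one] at h4
        exact h4.symm
    refine (Set.finite_iUnion fun i : Fin (rk H X) => (h1 i).image fun g : H => g • (co H X).symm (1, i)).subset ?_
    intro x hx
    have h2 : ContinuousLinearMap.adjoint T (dl y) x ≠ 0 := hx
    rw [adj_apply] at h2
    have h3 : T (dl x) y ≠ 0 := fun h => h2 (by rw [h, map_zero])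
    have h4 : (co H X x).1 • (co H X).symm (1, (co H X x).2) = x := by
      rw [← AA.co_symm, mul_one]
      exact (co H X).symm_apply_apply x
    rw [← h4, ← la_dl, hT.equi, la_apply] at h3
    exact Set.mem_iUnion.2 ⟨(co H X x).2, (co H X x).1, h3, h4⟩
  val _ _ := trivial

/-- the orthogonal complement of a rational subspace is rational -/
theorem Rat.perp [FC H X] {W : Submodule ℂ (L2 X)} (hW : Rat ⊤ H W) : Rat ⊤ H Wᗮ := by
  obtain ⟨a, b, T, hT, rfl⟩ := hW.exists_form
  have h1 : (ATY.im (pl X (Fr H (Fin a))) (kr T))ᗮ =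
      (ATY.im (ContinuousLinearMap.adjoint T) ⊤).comap (il X (Fr H (Fin a)) : L2 X →ₗ[ℂ] L2 (X ⊕ Fr H (Fin a))) := by
    have h2 : ATY.im (ContinuousLinearMap.adjoint T) ⊤ = (kr T)ᗮ := by
      have h3 := ContinuousLinearMap.orthogonal_ker T
      rw [show (kr T)ᗮ = T.kerᗮ from rfl, h3]
      unfold ATY.im
      rw [Submodule.map_top]
    rw [h2]
    ext f
    rw [Submodule.mem_comap, Submodule.mem_orthogonal, Submodule.mem_orthogonal]
    constructor
    · intro h u hu
      have h3 := h (pl X (Fr H (Fin a)) u) (map_le_im (Submodule.mem_map_of_mem hu))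
      exact (AA.inner_pull _ _ _ _).symm.trans h3
    · intro h u hu
      have h3 : ATY.im (pl X (Fr H (Fin a))) (kr T) ≤ (Submodule.span ℂ {f})ᗮ := by
        refine im_le (Submodule.isClosed_orthogonal _) ?_
        intro v hv
        rw [Submodule.mem_orthogonal_singleton_iff_inner_left]
        exact (AA.inner_pull _ _ _ _).trans (h v hv)
      have h4 := h3 hu
      rw [Submodule.mem_orthogonal_singleton_iff_inner_left] at h4
      exact h4
  rw [h1]
  exact ((rat_top (H := H) (X := Fr H (Fin b))).im hT.adj).comap kop_il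

end perp
end ATY
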