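import Pool.Agent.ATY.H1
import Pool.Agent.ATY.H2
import Pool.Agent.ATY.HDefs
import Pool.Agent.ATY.Perp
import Pool.Agent.ATY.CPhi

/-!
# Systems (row H3)
-/

set_option autoImplicit false
set_option linter.unusedSectionVars false

open scoped ComplexConjugate InnerProductSpace
open Filter Topology

namespace ATY
open Singer Singer.HT Pool.WeakAtiyah

namespace Sys

/-- an identity between inner products extends to the closures -/
lemma pair_closure {X Y Z Z₁ Z₂ : Type} {T : L2 X →L[ℂ] L2 Z} {T' : L2 Y →L[ℂ] L2 Z} {V : Submodule ℂ (L2 X)}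
    {V' : Submodule ℂ (L2 Y)} (A B : L2 Z →L[ℂ] L2 Z₁) (A' B' : L2 Z →L[ℂ] L2 Z₂)
    (h : ∀ z ∈ V, ∀ u ∈ V', ⟪A (T z), B (T' u)⟫_ℂ = ⟪A' (T z), B' (T' u)⟫_ℂ) :
    ∀ σ ∈ im T V, ∀ τ ∈ im T' V', ⟪A σ, B τ⟫_ℂ = ⟪A' σ, B' τ⟫_ℂ := by
  intro σ hσ τ hτ
  have hcl : IsClosed {w : L2 Z × L2 Z | ⟪A w.1, B w.2⟫_ℂ = ⟪A' w.1, B' w.2⟫_ℂ} := by
    refine isClosed_eq ?_ ?_
    · exact Continuous.inner (A.continuous.comp continuous_fst) (B.continuous.comp continuous_snd)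
    · exact Continuous.inner (A'.continuous.comp continuous_fst) (B'.continuous.comp continuous_snd)
  have hsub : ((V.map (T : L2 X →ₗ[ℂ] L2 Z) : Set (L2 Z)) ×ˢ (V'.map (T' : L2 Y →ₗ[ℂ] L2 Z) : Set (L2 Z))) ⊆
      {w : L2 Z × L2 Z | ⟪A w.1, B w.2⟫_ℂ = ⟪A' w.1, B' w.2⟫_ℂ} := by
    rintro ⟨w1, w2⟩ ⟨⟨z, hz, rfl⟩, ⟨u, hu, rfl⟩⟩
    exact h z hz u hu
  have h1 := closure_minimal hsub hcl
  rw [closure_prod_eq] at h1
  exact h1 (show (σ, τ) ∈ _ from ⟨hσ, hτ⟩)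

open Classical in
/-- an operator commutes with the restriction to a clean set -/
lemma cu_comm {X Y : Type} {S : L2 X →L[ℂ] L2 Y} {E : Set X} {E' : Set Y}
    (h : ∀ x y, S (dl x) y ≠ 0 → (x ∈ E ↔ y ∈ E')) (f : L2 X) : cu E' (S f) = S (cu E f) := by
  have h1 : (cu E').comp S = S.comp (cu E) := by
    refine eq_of_dl fun x => ?_
    show cu E' (S (dl x)) = S (cu E (dl x))
    have h2 : cu E (dl x) = if x ∈ E then dl x else 0 := by
      ext y
      by_cases hx : x ∈ E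
      · rw [if_pos hx, cu_apply]
        by_cases hy : y ∈ E
        · rw [if_pos hy]
        · rw [if_neg hy, dl_apply_ne]
          rintro rfl
          exact hy hx
      · rw [if_neg hx, cu_apply]
        by_cases hy : y ∈ E
        · rw [if_pos hy, dl_apply_ne]
          · rfl
          · rintro rfl
            exact hx hy
        · rw [if_neg hy]
          rfl
    rw [h2]
    ext y
    rw [cu_apply]
    by_cases hx : x ∈ E
    · rw [if_pos hx]
      by_cases hy : y ∈ E'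
      · rw [if_pos hy]
      · rw [if_neg hy]
        by_contra hc
        exact hy ((h x y (Ne.symm hc)).1 hx)
    · rw [if_neg hx, map_zero]
      by_cases hy : y ∈ E'
      · rw [if_pos hy]
        by_contra hc
        exact hx ((h x y hc).2 hy)
      · rw [if_neg hy]
        rfl
  exact congrArg (fun U : L2 X →L[ℂ] L2 Y => U f) h1

/-- image of an image -/
lemma im_im {X Y Z : Type} (T : L2 X →L[ℂ] L2 Y) (T' : L2 Y →L[ℂ] L2 Z) (V : Submodule ℂ (L2 X)) :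
    im T' (im T V) = im (T'.comp T) V := by
  unfold ATY.im
  rw [show ((V.map (T : L2 X →ₗ[ℂ] L2 Y)).topologicalClosure.map (T' : L2 Y →ₗ[ℂ] L2 Z)).topologicalClosure =
    im T' (V.map (T : L2 X →ₗ[ℂ] L2 Y)).topologicalClosure from rfl, im_closure]
  unfold ATY.im
  congr 1
  rw [← Submodule.map_comp]
  rfl

/-- orthogonal complements are invariant -/
lemma md_orth {H X : Type} [Group H] [MulAction H X] {W : Submodule ℂ (L2 X)} (hW : Md H W) : Md H Wᗮ where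
  inv h f hf := by
    rw [Submodule.mem_orthogonal] at hf ⊢
    intro w hw
    have h1 := hf (la h⁻¹ w) (hW.inv _ _ hw)
    rwa [AA.inner_la, inv_inv] at h1
  cl := Submodule.isClosed_orthogonal _

end Sys

open Sys

/-- row H3 -/
theorem exists_sys {H X P Pos B : Type} [Group H] [MulAction H X] [FC H X] [MulAction H P] [MulAction H Pos]
    [MulAction H B] [Nonempty Pos] (a : X →[H] P) (p : X →[H] Pos) (R : B → Set Pos)
    (hR : ∀ (h : H) (b : B) (x : Pos), h • x ∈ R (h • b) ↔ x ∈ R b)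
    (hfin : ∀ x y : Pos, {b | ¬ (x ∈ R b ↔ y ∈ R b)}.Finite)
    {W : Submodule ℂ (L2 X)} (hW : Md H W) (lW : Loc a W) (qW : ∀ q, Rat ⊤ (MulAction.stabilizer H q) (loc a q W)) :
    ∃ (F : Type) (_ : MulAction H F) (_ : FC H F) (g : F →[H] P × B) (t : F →[H] Pos) (D : Set (Pos × Pos))
      (S₁ S₂ : Submodule ℂ (L2 (X ⊕ F))), D.Finite ∧ Rat ⊤ H S₁ ∧ Rat ⊤ H S₂ ∧ im (pl X F) S₁ = W ∧
      im (pl X F) S₂ = Wᗮ ∧ (∀ f, ∃ x y : Pos, ¬ (x ∈ R (g f).2 ↔ y ∈ R (g f).2)) ∧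
      ∀ (q : P) (b : B) (S' : Set Pos),
        (∀ (h : H), ∀ d ∈ D, (h • d.1 ∈ S' ↔ h • d.2 ∈ S')) → ∀ σ ∈ S₁, ∀ τ ∈ S₂,
        ⟪cu {f | g f = (q, b) ∧ t f ∈ S'} (pr X F σ), pr X F τ⟫_ℂ =
          ⟪cu {x | a x = q ∧ p x ∈ R b ∧ p x ∈ S'} (pl X F σ), pl X F τ⟫_ℂ := by
  classical
  obtain ⟨r, s, b', c, S, hS, hloc, hWS⟩ := exists_local a hW lW qW
  obtain ⟨x₀⟩ := (inferInstance : Nonempty Pos)
  -- positions
  let pA : Fr H (Fin r) →[H] Pos := frMap fun _ => x₀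
  let pZ : Fr H (Fin s) →[H] Pos := frMap fun _ => x₀
  let p1 : X ⊕ Fr H (Fin r) → Pos := Sum.elim p pA
  let a1 : X ⊕ Fr H (Fin r) → P := Sum.elim a b'
  have p1s : ∀ (h : H) x, p1 (h • x) = h • p1 x := by
    intro h x
    rcases x with x | x
    · exact map_smul p h x
    · exact map_smul pA h x
  have a1s : ∀ (h : H) x, a1 (h • x) = h • a1 x := by
    intro h x
    rcases x with x | x
    · exact map_smul a h x
    · exact map_smul b' h x
  -- crossings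
  obtain ⟨F, instF, fcF, g, e, N, M, hN, hM, hcross, hpair⟩ := exists_cut (B := P × B) hS
    (fun d => {x | a1 x = d.1 ∧ p1 x ∈ R d.2}) (fun d => {z | c z = d.1 ∧ pZ z ∈ R d.2})
    (fun h d x => by
      show a1 (h • x) = h • d.1 ∧ p1 (h • x) ∈ R (h • d.2) ↔ a1 x = d.1 ∧ p1 x ∈ R d.2
      rw [a1s, p1s, hR, smul_left_cancel_iff])
    (fun h d z => by
      show c (h • z) = h • d.1 ∧ pZ (h • z) ∈ R (h • d.2) ↔ c z = d.1 ∧ pZ z ∈ R d.2
      rw [map_smul, map_smul, hR, smul_left_cancel_iff])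
    (fun x z hxz => by
      have h1 : a1 x = c z := hloc x z hxz
      refine (((Set.finite_singleton (c z)).prod (hfin (p1 x) (pZ z)))).subset ?_
      rintro ⟨q, b⟩ hd
      have hd' : ¬ ((a1 x = q ∧ p1 x ∈ R b) ↔ (c z = q ∧ pZ z ∈ R b)) := hd
      rw [h1] at hd'
      by_cases hq : c z = q
      · refine ⟨hq.symm, ?_⟩
        show ¬ (p1 x ∈ R b ↔ pZ z ∈ R b)
        intro h2
        exact hd' (by rw [h2])
      · exact absurd (by simp only [hq, false_and]) hd')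
  let t : F →[H] Pos := pZ.comp e
  -- the entries
  let xi : Fin (rk H (X ⊕ Fr H (Fin r))) → X ⊕ Fr H (Fin r) := fun i => (co H (X ⊕ Fr H (Fin r))).symm (1, i)
  let D : Set (Pos × Pos) := ⋃ i, (fun z => (p1 (xi i), pZ z)) '' {z | S (dl (xi i)) z ≠ 0}
  have hD : D.Finite := Set.finite_iUnion fun i => (hS.fs (xi i)).image _
  have hclean : ∀ S' : Set Pos, (∀ (h : H), ∀ d ∈ D, (h • d.1 ∈ S' ↔ h • d.2 ∈ S')) →
      ∀ x z, S (dl x) z ≠ 0 → (p1 x ∈ S' ↔ pZ z ∈ S') := by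
    intro S' hS' x z hxz
    let i := (co H (X ⊕ Fr H (Fin r)) x).2
    let h := (co H (X ⊕ Fr H (Fin r)) x).1
    have hx : h • xi i = x := by
      show (co H (X ⊕ Fr H (Fin r)) x).1 • (co H (X ⊕ Fr H (Fin r))).symm (1, (co H (X ⊕ Fr H (Fin r)) x).2) = x
      rw [← AA.co_symm, mul_one]
      exact (co H (X ⊕ Fr H (Fin r))).symm_apply_apply x
    have h1 : S (dl (xi i)) (h⁻¹ • z) ≠ 0 := by
      rw [← hx, ← la_dl, hS.equi, la_apply] at hxz
      exact hxz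
    have h2 : (p1 (xi i), pZ (h⁻¹ • z)) ∈ D := Set.mem_iUnion.2 ⟨i, h⁻¹ • z, h1, rfl⟩
    have h3 := hS' h _ h2
    have h4 : h • pZ (h⁻¹ • z) = pZ z := by rw [map_smul, smul_inv_smul]
    have h5 : h • p1 (xi i) = p1 x := by rw [← p1s, hx]
    rw [← h4, ← h5]
    exact h3
  -- the subspaces
  let Sa : L2 (Fr H (Fin s)) →L[ℂ] L2 (X ⊕ Fr H (Fin r)) := ContinuousLinearMap.adjoint S
  have hSa : KOp ⊤ H Sa := hS.adj
  let U₁ : L2 (X ⊕ Fr H (Fin r)) →L[ℂ] L2 (X ⊕ F) := (il X F).comp (pl X (Fr H (Fin r))) + (ir X F).comp N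
  let U₂ : L2 (Fr H (Fin s)) →L[ℂ] L2 (X ⊕ F) := (il X F).comp ((pl X (Fr H (Fin r))).comp Sa) + (ir X F).comp M
  have hU₁ : KOp ⊤ H U₁ := (kop_il.comp kop_pl).add (kop_ir.comp hN)
  have hU₂ : KOp ⊤ H U₂ := (kop_il.comp (kop_pl.comp hSa)).add (kop_ir.comp hM)
  have hkr : KOp ⊤ H ((pr X (Fr H (Fin r))).comp Sa) := kop_pr.comp hSa
  have pl1 : ∀ z, pl X F (U₁ z) = pl X (Fr H (Fin r)) z := fun z => by
    show pl X F (il X F (pl X (Fr H (Fin r)) z) + ir X F (N z)) = _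
    rw [map_add, pl_il, pl_ir, add_zero]
  have pr1 : ∀ z, pr X F (U₁ z) = N z := fun z => by
    show pr X F (il X F (pl X (Fr H (Fin r)) z) + ir X F (N z)) = _
    rw [map_add, pr_il, pr_ir, zero_add]
  have pl2 : ∀ u, pl X F (U₂ u) = pl X (Fr H (Fin r)) (Sa u) := fun u => by
    show pl X F (il X F (pl X (Fr H (Fin r)) (Sa u)) + ir X F (M u)) = _
    rw [map_add, pl_il, pl_ir, add_zero]
  have pr2 : ∀ u, pr X F (U₂ u) = M u := fun u => by
    show pr X F (il X F (pl X (Fr H (Fin r)) (Sa u)) + ir X F (M u)) = _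
    rw [map_add, pr_il, pr_ir, zero_add]
  -- orthogonality
  have horth : ∀ z u, ⟪z, Sa u⟫_ℂ = ⟪S z, u⟫_ℂ := fun z u => ContinuousLinearMap.adjoint_inner_right S z u
  have hsplit : ∀ z w : L2 (X ⊕ Fr H (Fin r)), pr X (Fr H (Fin r)) w = 0 →
      ⟪z, w⟫_ℂ = ⟪pl X (Fr H (Fin r)) z, pl X (Fr H (Fin r)) w⟫_ℂ := by
    intro z w hw
    have h1 : il X (Fr H (Fin r)) (pl X (Fr H (Fin r)) w) = w := by
      have h2 := il_add_ir w
      rwa [hw, map_zero, add_zero] at h2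
    conv_lhs => rw [← h1]
    exact (AA.inner_pull _ _ _ _).symm
  refine ⟨F, instF, fcF, g, t, D, im U₁ (kr S), im U₂ (kr ((pr X (Fr H (Fin r))).comp Sa)), hD, (rat_kr hS).im hU₁,
    (rat_kr hkr).im hU₂, ?_, ?_, ?_, ?_⟩
  · -- `im pl S₁ = W`
    rw [im_im, hWS]
    congr 1
    ext1 z
    exact pl1 z
  · -- `im pl S₂ = Wᗮ`
    rw [im_im]
    apply le_antisymm
    · refine im_le (Submodule.isClosed_orthogonal _) ?_
      intro u hu
      have hu' : pr X (Fr H (Fin r)) (Sa u) = 0 := hu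
      show pl X F (U₂ u) ∈ Wᗮ
      rw [pl2, Submodule.mem_orthogonal]
      intro w hw
      have h1 : W ≤ (Submodule.span ℂ {pl X (Fr H (Fin r)) (Sa u)})ᗮ := by
        rw [hWS]
        refine im_le (Submodule.isClosed_orthogonal _) ?_
        intro z hz
        have hz' : S z = 0 := hz
        show pl X (Fr H (Fin r)) z ∈ _
        rw [Submodule.mem_orthogonal_singleton_iff_inner_left, ← hsplit z (Sa u) hu', horth, hz', inner_zero_left]
      have h2 := h1 hw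
      rwa [Submodule.mem_orthogonal_singleton_iff_inner_left] at h2
    · have hWp : Md H Wᗮ := md_orth hW
      have h1 := dense_pullback (H := H) (S := il X (Fr H (Fin r))) (T := Sa) (kop_il (K := ⊤)).equi hSa.equi
        (V := Wᗮ) hWp (W := ⊤) md_top (by
          rintro _ ⟨y, hy, rfl⟩
          have h2 : ATY.im Sa ⊤ = (kr S)ᗮ := by
            have h3 := ContinuousLinearMap.orthogonal_ker S
            rw [show (kr S)ᗮ = S.kerᗮ from rfl, h3]
            unfold ATY.im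
            rw [Submodule.map_top]
          show il X (Fr H (Fin r)) y ∈ ATY.im Sa ⊤
          rw [h2, Submodule.mem_orthogonal]
          intro z hz
          have h3 : ⟪z, il X (Fr H (Fin r)) y⟫_ℂ = ⟪pl X (Fr H (Fin r)) z, y⟫_ℂ := (AA.inner_pull _ _ _ _).symm
          rw [h3]
          refine (Submodule.mem_orthogonal _ _).1 hy _ ?_
          rw [hWS]
          exact map_le_im (Submodule.mem_map_of_mem hz))
      rw [← h1]
      refine Submodule.topologicalClosure_mono ?_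
      rintro y ⟨hy, u, -, hu⟩
      have hu' : Sa u = il X (Fr H (Fin r)) y := hu
      refine ⟨u, ?_, ?_⟩
      · show pr X (Fr H (Fin r)) (Sa u) = 0
        rw [hu', pr_il]
      · show pl X F (U₂ u) = y
        rw [pl2, hu', pl_il]
  · -- crossings
    intro f
    obtain ⟨x, hx, hx'⟩ := hcross f
    refine ⟨p1 x, pZ (e f), ?_⟩
    have h1 : a1 x = c (e f) := hloc x _ hx
    have hx2 : ¬ ((a1 x = (g f).1 ∧ p1 x ∈ R (g f).2) ↔ (c (e f) = (g f).1 ∧ pZ (e f) ∈ R (g f).2)) := hx'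
    intro h2
    apply hx2
    rw [h1, h2]
  · -- the pairing
    intro q b S' hS'
    have hcl := hclean S' hS'
    refine pair_closure (T := U₁) (T' := U₂) ((cu {f | g f = (q, b) ∧ t f ∈ S'}).comp (pr X F)) (pr X F)
      ((cu {x | a x = q ∧ p x ∈ R b ∧ p x ∈ S'}).comp (pl X F)) (pl X F) ?_
    intro z hz u hu
    have hz' : S z = 0 := hz
    have hu' : pr X (Fr H (Fin r)) (Sa u) = 0 := hu
    show ⟪cu {f | g f = (q, b) ∧ t f ∈ S'} (pr X F (U₁ z)), pr X F (U₂ u)⟫_ℂ =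
      ⟪cu {x | a x = q ∧ p x ∈ R b ∧ p x ∈ S'} (pl X F (U₁ z)), pl X F (U₂ u)⟫_ℂ
    rw [pl1, pl2, pr1, pr2]
    have h1 := hpair (q, b) {z | pZ z ∈ S'} z u
    have h2 : cu {f | g f = (q, b) ∧ e f ∈ {z | pZ z ∈ S'}} (N z) = cu {f | g f = (q, b) ∧ t f ∈ S'} (N z) := rfl
    rw [h2] at h1
    rw [h1, hz', map_zero, sub_zero]
    rw [cu_comm (S := S) (E := {x | p1 x ∈ S'}) (E' := {z | pZ z ∈ S'}) hcl, ← horth, hsplit _ _ hu']
    congr 1
    ext x
    rw [cu_apply]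
    have e0 : pl X (Fr H (Fin r)) (cu {x | p1 x ∈ S'} (cu {x | a1 x = (q, b).1 ∧ p1 x ∈ R (q, b).2} z)) x =
      cu {x | p1 x ∈ S'} (cu {x | a1 x = q ∧ p1 x ∈ R b} z) (Sum.inl x) := rfl
    rw [e0, cu_apply, cu_apply, show pl X (Fr H (Fin r)) z x = z (Sum.inl x) from rfl]
    have e1 : (Sum.inl x : X ⊕ Fr H (Fin r)) ∈ {x | p1 x ∈ S'} ↔ p x ∈ S' := Iff.rfl
    have e2 : (Sum.inl x : X ⊕ Fr H (Fin r)) ∈ {x | a1 x = q ∧ p1 x ∈ R b} ↔ a x = q ∧ p x ∈ R b := Iff.rfl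
    by_cases h3 : p x ∈ S'
    · rw [if_pos (e1.2 h3)]
      by_cases h4 : a x = q ∧ p x ∈ R b
      · rw [if_pos (e2.2 h4), if_pos (show x ∈ {x | a x = q ∧ p x ∈ R b ∧ p x ∈ S'} from ⟨h4.1, h4.2, h3⟩)]
      · rw [if_neg (fun h5 => h4 (e2.1 h5)), if_neg (fun h5 : x ∈ {x | a x = q ∧ p x ∈ R b ∧ p x ∈ S'} => h4 ⟨h5.1, h5.2.1⟩)]
    · rw [if_neg (fun h5 => h3 (e1.1 h5)), if_neg (fun h5 : x ∈ {x | a x = q ∧ p x ∈ R b ∧ p x ∈ S'} => h3 h5.2.2)]

end ATY
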