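import Pool.Agent.ATY.HDefs
import Pool.Agent.ATY.TR

/-!
# Half trees of darts
-/

set_option autoImplicit false

namespace ATY
open Singer Singer.HT

theorem hlf_fin {V : Type} {T : SimpleGraph V} (hT : T.IsTree) (u u' : V) :
    {d | ¬ (u ∈ hlf T d ↔ u' ∈ hlf T d)}.Finite := by
  have h1 := (half_sep_finite hT u u').image Prod.swap
  have h2 := (half_sep_finite hT u' u).image Prod.swap
  refine (h1.union h2).subset ?_
  rintro ⟨v, w⟩ hd
  have hd' : ¬ (u ∈ hlf T (v, w) ↔ u' ∈ hlf T (v, w)) := hd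
  by_cases h3 : T.Adj v w
  · by_cases h4 : u ∈ half T w v
    · by_cases h5 : u' ∈ half T w v
      · exact absurd ⟨fun _ => ⟨h3, h5⟩, fun _ => ⟨h3, h4⟩⟩ hd'
      · exact Or.inl ⟨(w, v), ⟨h3.symm, h4, h5⟩, rfl⟩
    · by_cases h5 : u' ∈ half T w v
      · exact Or.inr ⟨(w, v), ⟨h3.symm, h5, h4⟩, rfl⟩
      · exact absurd ⟨fun h => absurd h.2 h4, fun h => absurd h.2 h5⟩ hd'
  · exact absurd ⟨fun h => absurd h.1 h3, fun h => absurd h.1 h3⟩ hd'

theorem hlf_smul {G V : Type} [Group G] [MulAction G V] {T : SimpleGraph V}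
    (hA : ∀ (g : G) (v w : V), T.Adj v w → T.Adj (g • v) (g • w)) (g : G) (d : V × V) (u : V) :
    g • u ∈ hlf T (g • d) ↔ u ∈ hlf T d := by
  have h1 : T.Adj (g • d.1) (g • d.2) ↔ T.Adj d.1 d.2 := Acts.iff (Γ := G) hA g d.1 d.2
  have h2 : g • u ∈ half T (g • d.2) (g • d.1) ↔ u ∈ half T d.2 d.1 := Acts.half_iff (Γ := G) hA g
  exact and_congr h1 h2

theorem hlf_unique {V : Type} {T : SimpleGraph V} (hT : T.IsTree) {v u : V} (h : u ≠ v) :
    ∃! w, u ∈ hlf T (v, w) := half_exists_unique hT h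

theorem hlf_rev {V : Type} {T : SimpleGraph V} (hT : T.IsTree) {v w u : V} (h : T.Adj v w) :
    u ∈ hlf T (w, v) ↔ u ∉ hlf T (v, w) := by
  have h1 := half_iff hT h u
  constructor
  · rintro ⟨_, h2⟩ ⟨_, h3⟩
    exact h1.1 h2 h3
  · intro h2
    exact ⟨h.symm, h1.2 fun h3 => h2 ⟨h, h3⟩⟩

theorem hlf_self {V : Type} {T : SimpleGraph V} (hT : T.IsTree) (v w : V) : v ∉ hlf T (v, w) := by
  rintro ⟨h1, h2⟩
  exact notMem_half hT h1.symm h2

end ATY
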