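import Pool.Agent.ATY.HDefs
import Pool.Agent.ATY.CPhi
import Pool.Agent.ATY.H4b

/-!
# The sets `R (ν, q)` in the free group, and half trees

* `exists_sep`: for a finite set `D` of pairs of elements of `FreeGroup (Q × ℤ)` there is `M` such that the sets
  `R (ν, q) = {μ | the reduced word of ν⁻¹ μ begins with ((q, M), true)}` do not separate the translates of the pairs in `D`;
* `hlf_step`: one edge (for `hlf_fin`, `hlf_smul`, `hlf_unique`, `hlf_rev`, `hlf_self` see H4b.lean).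
-/

set_option autoImplicit false

namespace ATY
open Singer Singer.HT Pool.WeakAtiyah

section halves
variable {V : Type} {T : SimpleGraph V}

lemma hlf_step {a b : V} (h : T.Adj a b) (d : V × V) (h1 : d ≠ (a, b)) (h2 : d ≠ (b, a)) :
    a ∈ hlf T d ↔ b ∈ hlf T d := by
  refine and_congr Iff.rfl (half_step' h ?_ ?_)
  · rintro ⟨e1, e2⟩
    exact h2 (Prod.ext e2.symm e1.symm)
  · rintro ⟨e1, e2⟩
    exact h1 (Prod.ext e1.symm e2.symm)

end halves

section sep
variable {A Q : Type} [Group A] [MulAction A Q]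

/-- the vertex `μ⁻¹` of the Cayley tree -/
noncomputable def cvi (μ : FreeGroup (Q × ℤ)) : CV Q := (μ⁻¹ : FreeGroup (Q × ℤ))

lemma cvi_inj {μ ν : FreeGroup (Q × ℤ)} (h : cvi μ = cvi ν) : μ = ν := inv_injective h

/-- the dart from `ν` to `ν (q, M)` -/
noncomputable def drt (M : ℤ) (b : HX Q Q) : CV Q × CV Q := (cvi b.1, cvi (b.1 * FreeGroup.of (b.2, M)))

/-- the half tree of the edge between `ν` and `ν (q, M)` -/
def Rsep (M : ℤ) (b : HX Q Q) : Set (NU Q) := {x | cvi x.1 ∈ hlf (CT Q) (drt M b)}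

/-- the edges of the Cayley tree -/
lemma ct_adj_of (μ : FreeGroup (Q × ℤ)) (p : Q × ℤ) : (CT Q).Adj (cvi μ) (cvi (μ * FreeGroup.of p)) := by
  refine (ct_adj _ _).2 ⟨(p, false), ?_⟩
  show (μ * FreeGroup.of p)⁻¹ = FreeGroup.mk [(p, false)] * μ⁻¹
  rw [mul_inv_rev]
  rfl

lemma cvi_smul (g : Psi A Q) (μ : FreeGroup (Q × ℤ)) : g • cvi μ = cvi (g.left * phiA A Q g.right μ) := by
  show phiA A Q g.right μ⁻¹ * g.left⁻¹ = (g.left * phiA A Q g.right μ)⁻¹
  rw [mul_inv_rev, map_inv]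

lemma drt_smul (M : ℤ) (g : Psi A Q) (b : HX Q Q) : drt M (g • b) = g • drt M b := by
  refine Prod.ext (cvi_smul g b.1).symm ?_
  refine Eq.trans ?_ (cvi_smul g _).symm
  rw [map_mul, phiA_of, ← mul_assoc]
  rfl

lemma drt_inj (M : ℤ) {b c : HX Q Q} (h : drt M b = drt M c) : b = c := by
  have e1 : b.1 = c.1 := cvi_inj (congrArg Prod.fst h)
  have e2 : b.1 * FreeGroup.of (b.2, M) = c.1 * FreeGroup.of (c.2, M) := cvi_inj (congrArg Prod.snd h)
  rw [e1] at e2
  exact Prod.ext e1 (congrArg Prod.fst (FreeGroup.of_injective (mul_left_cancel e2)))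

lemma of_mul_of_ne (p p' : Q × ℤ) : FreeGroup.of p * FreeGroup.of p' ≠ (1 : FreeGroup (Q × ℤ)) := by
  intro h
  have h1 := congrArg (fun x => Multiplicative.toAdd (degF Q x)) h
  have h2 : ∀ p : Q × ℤ, degF Q (FreeGroup.of p) = Multiplicative.ofAdd 1 := fun p => by
    unfold degF
    rw [FreeGroup.lift_apply_of]
  simp only [map_mul, h2, map_one, toAdd_mul, toAdd_ofAdd, toAdd_one] at h1
  norm_num at h1

/-- moving along an edge which is not the edge of `b` -/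
lemma rsep_step {M : ℤ} {b : HX Q Q} {μ : FreeGroup (Q × ℤ)} {p : Q × ℤ} (h : ¬ (μ = b.1 ∧ p = (b.2, M))) :
    (hp μ PUnit.unit : NU Q) ∈ Rsep M b ↔ (hp (μ * FreeGroup.of p) PUnit.unit : NU Q) ∈ Rsep M b := by
  refine hlf_step (ct_adj_of μ p) _ ?_ ?_
  · intro e
    have e3 : b.1 = μ := cvi_inj (congrArg Prod.fst e)
    have e4 : b.1 * FreeGroup.of (b.2, M) = μ * FreeGroup.of p := cvi_inj (congrArg Prod.snd e)
    rw [e3] at e4
    exact h ⟨e3.symm, (FreeGroup.of_injective (mul_left_cancel e4)).symm⟩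
  · intro e
    have e3 : b.1 = μ * FreeGroup.of p := cvi_inj (congrArg Prod.fst e)
    have e4 : b.1 * FreeGroup.of (b.2, M) = μ := cvi_inj (congrArg Prod.snd e)
    rw [e3, mul_assoc] at e4
    exact of_mul_of_ne _ _ (mul_eq_left.1 e4)

/-- words without the number `M` -/
def SMv (Q : Type) (M : ℤ) : Subgroup (FreeGroup (Q × ℤ)) := Subgroup.closure {x | ∃ p : Q × ℤ, p.2 ≠ M ∧ x = FreeGroup.of p}

lemma smv_phi {M : ℤ} (a : A) {w : FreeGroup (Q × ℤ)} (h : w ∈ SMv Q M) : phiA A Q a w ∈ SMv Q M := by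
  have h1 : SMv Q M ≤ (SMv Q M).comap (phiA A Q a).toMonoidHom := by
    conv_lhs => unfold SMv
    rw [Subgroup.closure_le]
    rintro x ⟨⟨q, k⟩, hp, rfl⟩
    show phiA A Q a (FreeGroup.of (q, k)) ∈ SMv Q M
    rw [phiA_of]
    exact Subgroup.subset_closure ⟨(a • q, k), hp, rfl⟩
  exact h1 h

lemma smv_rs {M : ℤ} (b : HX Q Q) {w : FreeGroup (Q × ℤ)} (h : w ∈ SMv Q M) (μ : FreeGroup (Q × ℤ)) :
    (hp μ PUnit.unit : NU Q) ∈ Rsep M b ↔ (hp (μ * w) PUnit.unit : NU Q) ∈ Rsep M b := by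
  unfold SMv at h
  induction h using Subgroup.closure_induction generalizing μ with
  | mem x hx =>
    obtain ⟨p, hp', rfl⟩ := hx
    refine rsep_step ?_
    rintro ⟨-, e⟩
    exact hp' (congrArg Prod.snd e)
  | one => rw [mul_one]
  | mul x y _ _ hx hy => rw [hx μ, hy (μ * x), mul_assoc]
  | inv x _ hx =>
    have h1 := hx (μ * x⁻¹)
    rw [inv_mul_cancel_right] at h1
    exact h1.symm

lemma smv_fin (w : FreeGroup (Q × ℤ)) : {M : ℤ | w ∉ SMv Q M}.Finite := by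
  induction w using FreeGroup.induction_on with
  | C1 => exact Set.finite_empty.subset fun M hM => hM (one_mem _)
  | of p =>
    refine (Set.finite_singleton p.2).subset fun M hM => ?_
    by_contra h
    exact hM (Subgroup.subset_closure ⟨p, fun e => h e.symm, rfl⟩)
  | inv_of p hp => exact hp.subset fun M hM h => hM (inv_mem h)
  | mul x y hx hy =>
    refine (hx.union hy).subset fun M hM => ?_
    by_contra h
    rw [Set.mem_union, not_or] at h
    exact hM (mul_mem (not_not.1 h.1) (not_not.1 h.2))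

theorem exists_sep {A Q : Type} [Group A] [MulAction A Q] (D : Set (NU Q × NU Q)) (hD : D.Finite) :
    ∃ (M : ℤ) (R : HX Q Q → Set (NU Q)),
      (∀ (g : Psi A Q) (b : HX Q Q) (x : NU Q), g • x ∈ R (g • b) ↔ x ∈ R b) ∧
      (∀ x y : NU Q, {b | ¬ (x ∈ R b ↔ y ∈ R b)}.Finite) ∧
      (∀ (b : HX Q Q) (g : Psi A Q), ∀ d ∈ D, (g • d.1 ∈ R b ↔ g • d.2 ∈ R b)) ∧
      (∀ (ν μ : FreeGroup (Q × ℤ)) (q q' : Q), (hp (μ * FreeGroup.of (q', M)) PUnit.unit : NU Q) ∈ R (hp ν q) ↔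
        (hp μ PUnit.unit : NU Q) ∈ R (hp ν q) ∨ (μ = ν ∧ q' = q)) ∧
      (∀ (ν : FreeGroup (Q × ℤ)) (q : Q), (hp ν PUnit.unit : NU Q) ∉ R (hp ν q)) := by
  have h1 : (⋃ d ∈ D, {M : ℤ | (d.1.1⁻¹ * d.2.1 : FreeGroup (Q × ℤ)) ∉ SMv Q M}).Finite :=
    hD.biUnion fun d _ => smv_fin _
  obtain ⟨M, hM⟩ := h1.exists_notMem
  have hM' : ∀ d ∈ D, (d.1.1⁻¹ * d.2.1 : FreeGroup (Q × ℤ)) ∈ SMv Q M := by
    intro d hd
    by_contra h
    exact hM (Set.mem_biUnion hd h)
  refine ⟨M, Rsep M, ?_, ?_, ?_, ?_, ?_⟩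
  · intro g b x
    have h2 := hlf_smul (T := CT Q) (fun (g : Psi A Q) v w h => ct_smul g v w h) g (drt M b) (cvi x.1)
    rw [← drt_smul, cvi_smul] at h2
    exact h2
  · intro x y
    exact ((hlf_fin (ct_tree (Q := Q)) (cvi x.1) (cvi y.1)).preimage
      (f := fun b : HX Q Q => drt M b) fun b _ c _ e => drt_inj M e)
  · intro b g d hd
    have h2 := smv_rs b (smv_phi g.right (hM' d hd)) (g.left * phiA A Q g.right d.1.1)
    have h3 : g.left * phiA A Q g.right d.1.1 * phiA A Q g.right (d.1.1⁻¹ * d.2.1) = g.left * phiA A Q g.right d.2.1 := by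
      rw [mul_assoc, ← map_mul, mul_inv_cancel_left]
    rw [h3] at h2
    exact h2
  · intro ν μ q q'
    by_cases h : μ = ν ∧ q' = q
    · obtain ⟨rfl, rfl⟩ := h
      exact ⟨fun _ => Or.inr ⟨rfl, rfl⟩, fun _ => ⟨ct_adj_of _ _, mem_half_self _ _⟩⟩
    · rw [← rsep_step (M := M) (b := hp ν q) (μ := μ) (p := (q', M))]
      · exact (or_iff_left h).symm
      · rintro ⟨e1, e2⟩
        exact h ⟨e1, congrArg Prod.fst e2⟩
  · intro ν q
    exact hlf_self ct_tree _ _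

end sep

end ATY
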