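import Pool.Agent.ATY.Perp

/-!
# Groups which map onto the integers: heights and windows (rows LINE1, LINE2)

`χ : G →* ℤ`, `ht : X → ℤ` equivariant; `Win ht a b`: the points of height between `a` and `b`, a free set over the
kernel of `χ`. The part of a rational subspace in a window is rational over the kernel (`line_rat`), and a rational
subspace is generated by its part in a window (`line_gen`).
-/

set_option autoImplicit false

open scoped ComplexConjugate InnerProductSpace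
open Filter Topology

namespace ATY
open Singer Pool.WeakAtiyah

section zl
variable {G : Type} [Group G]

/-- the integers with the action by translations -/
def Zl (_χ : G →* Multiplicative ℤ) : Type := ℤ

instance zlAct (χ : G →* Multiplicative ℤ) : MulAction G (Zl χ) where
  smul g k := (Multiplicative.toAdd (χ g) + (show ℤ from k) : ℤ)
  one_smul k := by
    show (Multiplicative.toAdd (χ 1) + (show ℤ from k) : ℤ) = k
    rw [map_one, toAdd_one, zero_add]
  mul_smul g h k := by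
    show (Multiplicative.toAdd (χ (g * h)) + (show ℤ from k) : ℤ) =
      Multiplicative.toAdd (χ g) + (Multiplicative.toAdd (χ h) + (show ℤ from k))
    rw [map_mul, toAdd_mul, add_assoc]

variable {χ : G →* Multiplicative ℤ} {X Y : Type} [MulAction G X] [MulAction G Y]

/-- the height -/
def hgt (ht : X →[G] Zl χ) (x : X) : ℤ := ht x

lemma hgt_smul (ht : X →[G] Zl χ) (g : G) (x : X) : hgt ht (g • x) = Multiplicative.toAdd (χ g) + hgt ht x :=
  map_smul ht g x

lemma hgt_ker (ht : X →[G] Zl χ) (g : χ.ker) (x : X) : hgt ht ((g : G) • x) = hgt ht x := by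
  have h1 : χ (g : G) = 1 := g.2
  rw [hgt_smul, h1, toAdd_one, zero_add]

/-- the window -/
def Win (ht : X →[G] Zl χ) (a b : ℤ) : Type := {x : X // a ≤ hgt ht x ∧ hgt ht x ≤ b}

instance winAct (ht : X →[G] Zl χ) (a b : ℤ) : MulAction χ.ker (Win ht a b) where
  smul g x := ⟨(g : G) • x.1, by
    rw [hgt_ker]
    exact x.2⟩
  one_smul x := Subtype.ext (one_smul G x.1)
  mul_smul g h x := Subtype.ext (mul_smul (g : G) (h : G) x.1)

/-- the inclusion of the window -/
def wi (ht : X →[G] Zl χ) (a b : ℤ) (x : Win ht a b) : X := x.1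

lemma wi_inj (ht : X →[G] Zl χ) (a b : ℤ) : Function.Injective (wi ht a b) := Subtype.val_injective

lemma wi_smul (ht : X →[G] Zl χ) (a b : ℤ) (g : χ.ker) (x : Win ht a b) : wi ht a b (g • x) = (g : G) • wi ht a b x := rfl

/-- the base points of the orbits -/
noncomputable def bp (G X : Type) [Group G] [MulAction G X] [FC G X] (i : Fin (rk G X)) : X := (co G X).symm (1, i)

lemma exists_bp [FC G X] (x : X) : ∃ (g : G) (i : Fin (rk G X)), g • bp G X i = x := by
  refine ⟨(co G X x).1, (co G X x).2, ?_⟩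
  unfold bp
  rw [← AA.co_symm, mul_one]
  exact (co G X).symm_apply_apply x

lemma bp_inj [FC G X] {g h : G} {i j : Fin (rk G X)} (hgh : g • bp G X i = h • bp G X j) : g = h ∧ i = j := by
  have h1 := congrArg (co G X) hgh
  unfold bp at h1
  rw [co_smul, co_smul, Equiv.apply_symm_apply, Equiv.apply_symm_apply, mul_one, mul_one] at h1
  exact ⟨congrArg Prod.fst h1, congrArg Prod.snd h1⟩

instance winFC [hFC : FC G X] (ht : X →[G] Zl χ) (a b : ℤ) : FC χ.ker (Win ht a b) where
  free g x hx := by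
    have h1 : (g : G) • x.1 = x.1 := congrArg Subtype.val hx
    exact Subtype.ext (hFC.free _ _ h1)
  fin := by
    classical
    -- the map (orbit, height)
    let F : Win ht a b → Fin (rk G X) × (Set.Icc a b) := fun x => ((co G X x.1).2, ⟨hgt ht x.1, x.2⟩)
    have hF : ∀ x y : Win ht a b, F x = F y → ∃ g : χ.ker, g • x = y := by
      intro x y hxy
      have h1 : (co G X x.1).2 = (co G X y.1).2 := congrArg Prod.fst hxy
      have h2 : hgt ht x.1 = hgt ht y.1 := congrArg (fun p : Fin (rk G X) × (Set.Icc a b) => (p.2 : ℤ)) hxy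
      let g : G := (co G X y.1).1 * (co G X x.1).1⁻¹
      have h3 : g • x.1 = y.1 := by
        apply (co G X).injective
        rw [co_smul]
        refine Prod.ext ?_ h1
        show (co G X y.1).1 * (co G X x.1).1⁻¹ * (co G X x.1).1 = _
        rw [inv_mul_cancel_right]
      have h4 : g ∈ χ.ker := by
        have h5 := hgt_smul ht g x.1
        rw [h3, h2] at h5
        have h6 : Multiplicative.toAdd (χ g) = 0 := by linarith
        rw [MonoidHom.mem_ker]
        exact h6
      exact ⟨⟨g, h4⟩, Subtype.ext h3⟩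
    have hfin : Finite (Fin (rk G X) × (Set.Icc a b)) := inferInstance
    refine Finite.of_injective (fun o : MulAction.orbitRel.Quotient χ.ker (Win ht a b) => F (Quotient.out o)) ?_
    intro o o' hoo
    obtain ⟨g, hg⟩ := hF _ _ hoo
    rw [← Quotient.out_eq o, ← Quotient.out_eq o']
    refine (Quotient.sound ?_).symm
    exact ⟨g, hg⟩

end zl

section dens
variable {X Y : Type}

/-- the density and inclusions -/
lemma dn_push_le {p : Y → X} (hp : Function.Injective p) {V : Submodule ℂ (L2 Y)} {W : Submodule ℂ (L2 X)}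
    (h : ∀ f ∈ V, push p hp f ∈ W) (y : Y) : AA.dn V y ≤ AA.dn W (p y) := by
  unfold AA.dn
  have h1 : ∀ f ∈ V.topologicalClosure, push p hp f ∈ W.topologicalClosure := by
    intro f hf
    have h2 : V.topologicalClosure ≤ W.topologicalClosure.comap (push p hp : L2 Y →ₗ[ℂ] L2 X) :=
      Submodule.topologicalClosure_minimal _ (fun g hg => Submodule.le_topologicalClosure _ (h g hg))
        ((Submodule.isClosed_topologicalClosure W).preimage (push p hp).continuous)
    exact h2 hf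
  have h2 : ⟪AA.pj V (dl y), dl y⟫_ℂ = ⟪AA.pj V (dl y), AA.pj V (dl y)⟫_ℂ := by
    have h3 := AA.sub_pj_mem V (dl y)
    rw [← Submodule.orthogonal_closure] at h3
    have h4 := (Submodule.mem_orthogonal _ _).1 h3 _ (AA.pj_mem V (dl y))
    rw [inner_sub_right, sub_eq_zero] at h4
    exact h4
  have h3 : ⟪push p hp (AA.pj V (dl y)), dl (p y)⟫_ℂ = ⟪push p hp (AA.pj V (dl y)), AA.pj W (dl (p y))⟫_ℂ := by
    have h5 := AA.sub_pj_mem W (dl (p y))
    rw [← Submodule.orthogonal_closure] at h5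
    have h4 := (Submodule.mem_orthogonal _ _).1 h5 _ (h1 _ (AA.pj_mem V (dl y)))
    rw [inner_sub_right, sub_eq_zero] at h4
    exact h4
  have h4 : ⟪push p hp (AA.pj V (dl y)), dl (p y)⟫_ℂ = ⟪AA.pj V (dl y), dl y⟫_ℂ := by
    rw [AA.inner_push, ← AA.push_dl p hp, pull_push]
  have h5 : ‖AA.pj V (dl y)‖ ^ 2 ≤ ‖AA.pj V (dl y)‖ * ‖AA.pj W (dl (p y))‖ := by
    have h6 : (‖AA.pj V (dl y)‖ ^ 2 : ℝ) = ‖⟪AA.pj V (dl y), AA.pj V (dl y)⟫_ℂ‖ := by
      rw [inner_self_eq_norm_sq_to_K, norm_pow]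
      simp
    rw [h6, ← h2, ← h4, h3]
    have h7 := norm_inner_le_norm (𝕜 := ℂ) (push p hp (AA.pj V (dl y))) (AA.pj W (dl (p y)))
    rwa [norm_push] at h7
  rcases eq_or_lt_of_le (norm_nonneg (AA.pj V (dl y))) with h6 | h6
  · rw [← h6]
    have h7 : (0 : ℝ) ^ 2 = 0 := by norm_num
    rw [h7]
    exact sq_nonneg _
  · have h7 : ‖AA.pj V (dl y)‖ ≤ ‖AA.pj W (dl (p y))‖ := by
      rw [sq] at h5
      exact le_of_mul_le_mul_left h5 h6
    gcongr

end dens

section count
variable {G : Type} [Group G] {χ : G →* Multiplicative ℤ} {X : Type} [MulAction G X] [FC G X]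

lemma chi_zpow {s : G} (hs : χ s = Multiplicative.ofAdd 1) (z : ℤ) : Multiplicative.toAdd (χ (s ^ z)) = z := by
  rw [map_zpow, hs, toAdd_zpow, toAdd_ofAdd, smul_eq_mul, mul_one]

/-- the representatives of the orbits in the window -/
noncomputable def wpt (ht : X →[G] Zl χ) {s : G} (hs : χ s = Multiplicative.ofAdd 1) {a b : ℤ} {m : ℕ}
    (hm : b + 1 = a + m) (p : Fin (rk G X) × Fin m) : Win ht a b :=
  ⟨s ^ (a + (p.2 : ℕ) - hgt ht (bp G X p.1)) • bp G X p.1, by
    have h1 := p.2.2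
    rw [hgt_smul, chi_zpow hs]
    constructor
    · linarith [(Nat.cast_nonneg ((p.2 : ℕ)) : (0 : ℤ) ≤ _)]
    · have h2 : ((p.2 : ℕ) : ℤ) + 1 ≤ m := by exact_mod_cast h1
      linarith⟩

lemma wpt_bijective (ht : X →[G] Zl χ) {s : G} (hs : χ s = Multiplicative.ofAdd 1) {a b : ℤ} {m : ℕ}
    (hm : b + 1 = a + m) : Function.Bijective fun p : χ.ker × (Fin (rk G X) × Fin m) => p.1 • wpt ht hs hm p.2 := by
  constructor
  · rintro ⟨g, i, k⟩ ⟨g', i', k'⟩ h
    have h1 : (g : G) • s ^ (a + (k : ℕ) - hgt ht (bp G X i)) • bp G X i =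
        (g' : G) • s ^ (a + (k' : ℕ) - hgt ht (bp G X i')) • bp G X i' := congrArg Subtype.val h
    rw [← mul_smul, ← mul_smul] at h1
    obtain ⟨h2, h3⟩ := bp_inj h1
    subst h3
    have h4 := congrArg (fun g => Multiplicative.toAdd (χ g)) h2
    have hg : χ (g : G) = 1 := g.2
    have hg' : χ (g' : G) = 1 := g'.2
    simp only [map_mul, toAdd_mul, hg, hg', toAdd_one, zero_add, chi_zpow hs] at h4
    have h5 : (k : ℕ) = k' := by
      have : ((k : ℕ) : ℤ) = ((k' : ℕ) : ℤ) := by linarith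
      exact_mod_cast this
    have h6 : k = k' := Fin.ext h5
    subst h6
    have h7 : g = g' := Subtype.ext (mul_right_cancel h2)
    rw [h7]
  · rintro ⟨x, hx1, hx2⟩
    obtain ⟨g, i, rfl⟩ := exists_bp (G := G) x
    rw [hgt_smul] at hx1 hx2
    obtain ⟨k, hk⟩ := Int.eq_ofNat_of_zero_le (show 0 ≤ Multiplicative.toAdd (χ g) + hgt ht (bp G X i) - a by linarith)
    have hk2 : k < m := by
      have : (k : ℤ) < m := by linarith
      exact_mod_cast this
    have h1 : a + ((⟨k, hk2⟩ : Fin m) : ℕ) - hgt ht (bp G X i) = Multiplicative.toAdd (χ g) := by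
      show a + (k : ℤ) - _ = _
      linarith
    refine ⟨(⟨g * (s ^ Multiplicative.toAdd (χ g))⁻¹, ?_⟩, i, ⟨k, hk2⟩), ?_⟩
    · rw [MonoidHom.mem_ker, map_mul, map_inv]
      have h2 : χ (s ^ Multiplicative.toAdd (χ g)) = χ g := by
        apply Multiplicative.toAdd.injective
        exact chi_zpow hs _
      rw [h2, mul_inv_cancel]
    · apply Subtype.ext
      show (g * (s ^ Multiplicative.toAdd (χ g))⁻¹) • s ^ (a + ((⟨k, hk2⟩ : Fin m) : ℕ) - hgt ht (bp G X i)) • bp G X i = _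
      rw [h1, ← mul_smul, inv_mul_cancel_right]

lemma vd_win_eq (ht : X →[G] Zl χ) {s : G} (hs : χ s = Multiplicative.ofAdd 1) {a b : ℤ} {m : ℕ}
    (hm : b + 1 = a + m) {V : Submodule ℂ (L2 (Win ht a b))} (hV : Md χ.ker V) :
    vd χ.ker V = ∑ p : Fin (rk G X) × Fin m, AA.dn V (wpt ht hs hm p) :=
  AA.vd_eq_sum _ (wpt_bijective ht hs hm) hV

lemma sum_wpt (ht : X →[G] Zl χ) {s : G} (hs : χ s = Multiplicative.ofAdd 1) {a b : ℤ} {m : ℕ}
    (hm : b + 1 = a + m) {W : Submodule ℂ (L2 X)} (hW : Md G W) :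
    ∑ p : Fin (rk G X) × Fin m, AA.dn W (wpt ht hs hm p).1 = m * vd G W := by
  have h1 : ∀ p : Fin (rk G X) × Fin m, AA.dn W (wpt ht hs hm p).1 = AA.dn W (bp G X p.1) := fun p =>
    AA.dn_smul hW _ _
  rw [Finset.sum_congr rfl fun p _ => h1 p, Fintype.sum_prod_type, AA.vd_eq_dn, Finset.mul_sum]
  refine Finset.sum_congr rfl fun i _ => ?_
  show ∑ _y : Fin m, AA.dn W (bp G X i) = m * AA.dn W (bp G X i)
  rw [Finset.sum_const, Finset.card_univ, Fintype.card_fin, nsmul_eq_mul]

/-- the dimension of a subspace of the window -/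
lemma vd_win_le (ht : X →[G] Zl χ) {s : G} (hs : χ s = Multiplicative.ofAdd 1) {a b : ℤ} {m : ℕ}
    (hm : b + 1 = a + m) {V : Submodule ℂ (L2 (Win ht a b))} (hV : Md χ.ker V) {W : Submodule ℂ (L2 X)} (hW : Md G W)
    (h : ∀ f ∈ V, push (wi ht a b) (wi_inj ht a b) f ∈ W) : vd χ.ker V ≤ m * vd G W := by
  rw [vd_win_eq ht hs hm hV, ← sum_wpt ht hs hm hW]
  exact Finset.sum_le_sum fun p _ => dn_push_le (wi_inj ht a b) h _

/-- the dimension of the window -/
lemma vd_win_top (ht : X →[G] Zl χ) {s : G} (hs : χ s = Multiplicative.ofAdd 1) {a b : ℤ} {m : ℕ}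
    (hm : b + 1 = a + m) : vd χ.ker (⊤ : Submodule ℂ (L2 (Win ht a b))) = m * vd G (⊤ : Submodule ℂ (L2 X)) := by
  rw [vd_win_eq ht hs hm md_top, ← sum_wpt ht hs hm md_top]
  refine Finset.sum_congr rfl fun p _ => ?_
  have h1 : ∀ {Z : Type} (z : Z), AA.dn (⊤ : Submodule ℂ (L2 Z)) z = ‖(dl z : L2 Z)‖ ^ 2 := by
    intro Z z
    unfold AA.dn
    congr 2
    refine AA.pj_unique ?_ ?_
    · exact Submodule.le_topologicalClosure _ Submodule.mem_top
    · rw [sub_self]
      exact Submodule.zero_mem _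
  have h2 : ∀ {Z : Type} (z : Z), ‖(dl z : L2 Z)‖ = 1 := by
    intro Z z
    classical
    unfold dl
    rw [lp.norm_single (by norm_num)]
    simp
  rw [h1, h1, h2, h2]

end count

section ops
variable {G : Type} [Group G] {χ : G →* Multiplicative ℤ} {X Y : Type} [MulAction G X] [MulAction G Y]

/-- operators move the height by a bounded amount -/
lemma exists_spread [FC G X] {T : L2 X →L[ℂ] L2 Y} (hT : KOp ⊤ G T) (hx : X →[G] Zl χ) (hy : Y →[G] Zl χ) :
    ∃ r : ℕ, ∀ x y, T (dl x) y ≠ 0 → hgt hx x - r ≤ hgt hy y ∧ hgt hy y ≤ hgt hx x + r := by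
  classical
  let S : Finset ℕ := Finset.univ.biUnion fun i : Fin (rk G X) =>
    (hT.fs (bp G X i)).toFinset.image fun y => (hgt hy y - hgt hx (bp G X i)).natAbs
  refine ⟨S.sup id, ?_⟩
  intro x y hxy
  obtain ⟨g, i, rfl⟩ := exists_bp (G := G) x
  rw [← la_dl, hT.equi, la_apply] at hxy
  have h1 : (hgt hy (g⁻¹ • y) - hgt hx (bp G X i)).natAbs ∈ S := by
    refine Finset.mem_biUnion.2 ⟨i, Finset.mem_univ _, Finset.mem_image.2 ⟨g⁻¹ • y, ?_, rfl⟩⟩
    rw [Set.Finite.mem_toFinset]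
    exact hxy
  have h2 : (hgt hy (g⁻¹ • y) - hgt hx (bp G X i)).natAbs ≤ S.sup id := Finset.le_sup (f := id) h1
  have h3 : hgt hy (g⁻¹ • y) - hgt hx (bp G X i) = hgt hy y - hgt hx (g • bp G X i) := by
    rw [hgt_smul, hgt_smul, map_inv, toAdd_inv]
    ring
  rw [h3] at h2
  have h4 : |hgt hy y - hgt hx (g • bp G X i)| ≤ (S.sup id : ℕ) := by
    rw [Int.abs_eq_natAbs]
    exact_mod_cast h2
  rw [abs_le] at h4
  constructor
  · linarith [h4.1]
  · linarith [h4.2]

/-- the restriction of an operator to windows -/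
noncomputable def wop (hx : X →[G] Zl χ) (hy : Y →[G] Zl χ) (a b a' b' : ℤ) (T : L2 X →L[ℂ] L2 Y) :
    L2 (Win hx a b) →L[ℂ] L2 (Win hy a' b') :=
  (pull (wi hy a' b') (wi_inj hy a' b')).comp (T.comp (push (wi hx a b) (wi_inj hx a b)))

lemma kop_wop (hx : X →[G] Zl χ) (hy : Y →[G] Zl χ) (a b a' b' : ℤ) {T : L2 X →L[ℂ] L2 Y} (hT : KOp ⊤ G T) :
    KOp ⊤ χ.ker (wop hx hy a b a' b' T) :=
  KOp.comp (kop_pull (H := χ.ker) (wi_inj hy a' b') fun _ _ => rfl)
    (KOp.comp (hT.subgroup χ.ker) (kop_push (H := χ.ker) (wi_inj hx a b) fun _ _ => rfl))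

/-- functions supported in the window -/
lemma push_pull_win (ht : X →[G] Zl χ) {a b : ℤ} {f : L2 X} (hf : ∀ x, f x ≠ 0 → a ≤ hgt ht x ∧ hgt ht x ≤ b) :
    push (wi ht a b) (wi_inj ht a b) (pull (wi ht a b) (wi_inj ht a b) f) = f := by
  ext x
  by_cases hx : a ≤ hgt ht x ∧ hgt ht x ≤ b
  · exact push_apply (wi ht a b) (wi_inj ht a b) (pull (wi ht a b) (wi_inj ht a b) f) ⟨x, hx⟩
  · rw [push_apply_of_notMem]
    · by_contra h
      exact hx (hf x (Ne.symm h))
    · rintro ⟨y, rfl⟩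
      exact hx y.2

lemma push_win_supp (ht : X →[G] Zl χ) {a b : ℤ} (f : L2 (Win ht a b)) (x : X)
    (hx : push (wi ht a b) (wi_inj ht a b) f x ≠ 0) : a ≤ hgt ht x ∧ hgt ht x ≤ b := by
  by_contra h
  refine hx (push_apply_of_notMem _ _ _ ?_)
  rintro ⟨y, rfl⟩
  exact h y.2

/-- the image of a function supported in a window -/
lemma supp_image {T : L2 X →L[ℂ] L2 Y} {hx : X →[G] Zl χ} {hy : Y →[G] Zl χ} {r : ℕ}
    (hr : ∀ x y, T (dl x) y ≠ 0 → hgt hx x - r ≤ hgt hy y ∧ hgt hy y ≤ hgt hx x + r) {a b : ℤ}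
    (f : L2 (Win hx a b)) (y : Y) (h : T (push (wi hx a b) (wi_inj hx a b) f) y ≠ 0) :
    a - r ≤ hgt hy y ∧ hgt hy y ≤ b + r := by
  by_contra hc
  have h1 : ((cu ({z | a - r ≤ hgt hy z ∧ hgt hy z ≤ b + r}ᶜ) : L2 Y →L[ℂ] L2 Y).comp
      (T.comp (push (wi hx a b) (wi_inj hx a b)))) = 0 := by
    apply eq_of_dl
    intro x
    ext z
    show cu _ (T (push (wi hx a b) (wi_inj hx a b) (dl x))) z = 0
    rw [push_dl, cu_apply]
    split_ifs with h2
    · by_contra h3
      have h4 := hr _ _ h3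
      have h5 := x.2
      refine h2 ⟨?_, ?_⟩
      · have h6 : hgt hx (wi hx a b x) = hgt hx x.1 := rfl
        linarith [h4.1, h5.1]
      · have h6 : hgt hx (wi hx a b x) = hgt hx x.1 := rfl
        linarith [h4.2, h5.2]
    · rfl
  have h2 := congrArg (fun S : L2 (Win hx a b) →L[ℂ] L2 Y => S f y) h1
  have h3 : cu ({z | a - r ≤ hgt hy z ∧ hgt hy z ≤ b + r}ᶜ) (T (push (wi hx a b) (wi_inj hx a b) f)) y = 0 := h2
  have h4 : y ∈ ({z | a - r ≤ hgt hy z ∧ hgt hy z ≤ b + r}ᶜ : Set Y) := hc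
  rw [cu_apply, if_pos h4] at h3
  exact h h3

lemma push_wop {T : L2 X →L[ℂ] L2 Y} {hx : X →[G] Zl χ} {hy : Y →[G] Zl χ} {r : ℕ}
    (hr : ∀ x y, T (dl x) y ≠ 0 → hgt hx x - r ≤ hgt hy y ∧ hgt hy y ≤ hgt hx x + r) {a b : ℤ}
    (f : L2 (Win hx a b)) : push (wi hy (a - r) (b + r)) (wi_inj hy (a - r) (b + r)) (wop hx hy a b (a - r) (b + r) T f) =
      T (push (wi hx a b) (wi_inj hx a b) f) :=
  push_pull_win hy (supp_image hr f)

lemma mem_kr_wop {T : L2 X →L[ℂ] L2 Y} {hx : X →[G] Zl χ} {hy : Y →[G] Zl χ} {r : ℕ}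
    (hr : ∀ x y, T (dl x) y ≠ 0 → hgt hx x - r ≤ hgt hy y ∧ hgt hy y ≤ hgt hx x + r) {a b : ℤ}
    (f : L2 (Win hx a b)) : f ∈ kr (wop hx hy a b (a - r) (b + r) T) ↔ push (wi hx a b) (wi_inj hx a b) f ∈ kr T := by
  rw [mem_kr, mem_kr, ← push_wop hr]
  constructor
  · intro h
    rw [h, map_zero]
  · intro h
    exact AA.push_injective _ _ (by rw [h, map_zero])

end ops

section gen
variable {G : Type} [Group G] {χ : G →* Multiplicative ℤ} {X : Type} [MulAction G X] [FC G X]

/-- the map from the induced set of the window -/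
lemma exists_spanOp (ht : X →[G] Zl χ) (a b : ℤ) : ∃ U : L2 (Ind χ.ker (Win ht a b)) →L[ℂ] L2 X, KOp ⊤ G U ∧
    ∀ (c : G ⧸ χ.ker) (f : L2 (Win ht a b)), U (hs χ.ker c f) = la (Quotient.out c) (push (wi ht a b) (wi_inj ht a b) f) := by
  obtain ⟨U, hU, hUv⟩ := exists_kop (K := ⊤) (H := G) (X := Ind χ.ker (Win ht a b)) (Y := X)
    (fun x => dl (Quotient.out x.1 • wi ht a b x.2))
    (by
      intro g x
      show dl (Quotient.out (g • x.1) • wi ht a b (cyc χ.ker g x.1 • x.2)) = la g (dl (Quotient.out x.1 • wi ht a b x.2))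
      rw [la_dl, wi_smul, ← mul_smul, ← mul_smul, out_mul_cyc])
    (fun x => dl_mem_fs _) (fun _ _ => trivial)
  refine ⟨U, hU, ?_⟩
  intro c f
  have h1 : U.comp (hs χ.ker c) = (la (Quotient.out c) : L2 X →L[ℂ] L2 X).comp (push (wi ht a b) (wi_inj ht a b)) := by
    apply eq_of_dl
    intro x
    show U (hs χ.ker c (dl x)) = la (Quotient.out c) (push (wi ht a b) (wi_inj ht a b) (dl x))
    rw [hs_dl, hUv, push_dl, la_dl]
    rfl
  exact congrArg (fun S : L2 (Win ht a b) →L[ℂ] L2 X => S f) h1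

/-- the subspace generated by a rational subspace of the window is rational -/
lemma exists_gen (ht : X →[G] Zl χ) (a b : ℤ) {V : Submodule ℂ (L2 (Win ht a b))} (hV : Rat ⊤ χ.ker V) :
    ∃ W : Submodule ℂ (L2 X), Rat ⊤ G W ∧ (∀ f ∈ V, push (wi ht a b) (wi_inj ht a b) f ∈ W) ∧
      ∀ W' : Submodule ℂ (L2 X), Md G W' → (∀ f ∈ V, push (wi ht a b) (wi_inj ht a b) f ∈ W') → W ≤ W' := by
  obtain ⟨U, hU, hUv⟩ := exists_spanOp ht a b
  have hr : Rat ⊤ G (im U (indSub χ.ker V)) := (rat_indSub χ.ker hV).im hU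
  refine ⟨im U (indSub χ.ker V), hr, ?_, ?_⟩
  · intro f hf
    let c : G ⧸ χ.ker := ((1 : G) : G ⧸ χ.ker)
    have h1 : hs χ.ker c f ∈ indSub χ.ker V := by
      rw [mem_indSub]
      intro c'
      by_cases h : c' = c
      · rw [h, sh_hs]
        exact hf
      · rw [sh_hs_ne _ h]
        exact Submodule.zero_mem _
    have h2 : U (hs χ.ker c f) ∈ im U (indSub χ.ker V) := map_le_im (Submodule.mem_map_of_mem h1)
    rw [hUv] at h2
    have h3 := hr.md.inv (Quotient.out c)⁻¹ _ h2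
    rwa [AA.la_inv_la] at h3
  · intro W' hW' h
    refine im_le hW'.cl ?_
    intro f hf
    have h1 : f ∈ W'.comap (U : L2 (Ind χ.ker (Win ht a b)) →ₗ[ℂ] L2 X) := by
      refine mem_of_sheets χ.ker (hW'.cl.preimage U.continuous) ?_
      intro c
      show U (hs χ.ker c (sh χ.ker c f)) ∈ W'
      rw [hUv]
      exact hW'.inv _ _ (h _ ((mem_indSub χ.ker).1 hf c))
    exact h1

/-- a kernel is generated by its part in a window -/
theorem line_gen_kr {Y : Type} [MulAction G Y] [FC G Y] {n : ℕ} (hn : 0 < n) (hR : RanksIn ⊤ G n) {s : G} (hs : χ s = Multiplicative.ofAdd 1)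
    (hx : X →[G] Zl χ) (hy : Y →[G] Zl χ) {T : L2 X →L[ℂ] L2 Y} (hT : KOp ⊤ G T) :
    ∃ L : ℕ, ∀ V : Submodule ℂ (L2 X), Md G V →
      (∀ f ∈ kr T, (∀ x, f x ≠ 0 → 0 ≤ hgt hx x ∧ hgt hx x ≤ L) → f ∈ V) → kr T ≤ V := by
  obtain ⟨r, hr⟩ := exists_spread hT hx hy
  set c : ℝ := vd G (im T ⊤) with hc
  obtain ⟨L, hL⟩ := exists_nat_gt (2 * r * c * n)
  refine ⟨L, ?_⟩
  intro V hV h
  -- the restricted operator
  set S := wop hx hy 0 L (0 - r) (L + r) T with hS
  have hSk : KOp ⊤ χ.ker S := kop_wop hx hy _ _ _ _ hT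
  have hkS : Rat ⊤ χ.ker (kr S) := rat_kr hSk
  obtain ⟨W, hW, hW1, hW2⟩ := exists_gen hx 0 L hkS
  have hkT : Rat ⊤ G (kr T) := rat_kr hT
  have h1 : W ≤ kr T := hW2 _ hkT.md fun f hf => (mem_kr_wop hr f).1 hf
  have h2 : W ≤ V := hW2 _ hV fun f hf => h _ ((mem_kr_wop hr f).1 hf) (push_win_supp hx f)
  -- dimensions
  have h3 : vd χ.ker (kr S) ≤ ((L + 1 : ℕ) : ℝ) * vd G W :=
    vd_win_le hx hs (by push_cast; ring) hkS.md hW.md hW1
  have h4 : vd χ.ker (im S ⊤) + vd χ.ker (⊤ ⊓ kr S) = vd χ.ker (⊤ : Submodule ℂ (L2 (Win hx 0 L))) :=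
    vd_im_add hSk.equi md_top
  have h5 : vd G (im T ⊤) + vd G (⊤ ⊓ kr T) = vd G (⊤ : Submodule ℂ (L2 X)) := vd_im_add hT.equi md_top
  rw [top_inf_eq] at h4 h5
  have h6 : vd χ.ker (⊤ : Submodule ℂ (L2 (Win hx 0 L))) = ((L + 1 : ℕ) : ℝ) * vd G (⊤ : Submodule ℂ (L2 X)) :=
    vd_win_top hx hs (by push_cast; ring)
  have hiT : Md G (im T ⊤) := md_top.im hT.equi
  have h7 : vd χ.ker (im S ⊤) ≤ ((L + 1 + 2 * r : ℕ) : ℝ) * c := by
    refine vd_win_le hy hs (by push_cast; ring) (md_top.im hSk.equi) hiT ?_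
    have h8 : im S ⊤ ≤ (im T ⊤).comap (push (wi hy (0 - r) (L + r)) (wi_inj hy (0 - r) (L + r)) :
        L2 (Win hy (0 - r) (L + r)) →ₗ[ℂ] L2 Y) := by
      refine im_le (hiT.cl.preimage (push (wi hy (0 - r) (L + r)) (wi_inj hy (0 - r) (L + r))).continuous) ?_
      intro f _
      show push (wi hy (0 - r) (L + r)) (wi_inj hy (0 - r) (L + r)) (wop hx hy 0 L (0 - r) (L + r) T f) ∈ im T ⊤
      rw [push_wop hr]
      exact map_le_im (Submodule.mem_map_of_mem Submodule.mem_top)
    exact fun f hf => h8 hf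
  have h8 : vd G (kr T) - 1 / n < vd G W := by
    have hn' : (0 : ℝ) < n := Nat.cast_pos.2 hn
    have h9 : ((L + 1 : ℕ) : ℝ) * vd G (kr T) - 2 * r * c ≤ ((L + 1 : ℕ) : ℝ) * vd G W := by
      push_cast at h3 h4 h6 h7 ⊢
      rw [← h5] at h6
      linarith
    have h10 : 2 * r * c * n < ((L + 1 : ℕ) : ℝ) := by
      push_cast
      linarith
    have h11 : (0 : ℝ) < ((L + 1 : ℕ) : ℝ) := by positivity
    have h12 : 2 * r * c < ((L + 1 : ℕ) : ℝ) * (1 / n) := by
      rw [mul_one_div, lt_div_iff₀ hn']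
      exact h10
    have h13 : ((L + 1 : ℕ) : ℝ) * (vd G (kr T) - 1 / n) < ((L + 1 : ℕ) : ℝ) * vd G W := by
      rw [mul_sub]
      linarith
    exact lt_of_mul_lt_mul_left h13 h11.le
  obtain ⟨z, hz⟩ := hW.vd_eq hn hR
  obtain ⟨w, hw⟩ := hkT.vd_eq hn hR
  have h9 : vd G (kr T) ≤ vd G W := by
    have hn' : (0 : ℝ) < n := Nat.cast_pos.2 hn
    rw [hz, hw] at h8 ⊢
    have h10 : (w : ℝ) < z + 1 := by
      rw [← sub_div, div_lt_div_iff_of_pos_right hn'] at h8
      linarith
    have h11 : w < z + 1 := by exact_mod_cast h10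
    have h12 : w ≤ z := by omega
    gcongr
  rw [← eq_of_vd_le hW.md hkT.md h1 h9]
  exact h2

/-- the height on the free set -/
def htFr (χ : G →* Multiplicative ℤ) (a : ℕ) : Fr G (Fin a) →[G] Zl χ where
  toFun y := (Multiplicative.toAdd (χ y.1) : ℤ)
  map_smul' g y := by
    show (Multiplicative.toAdd (χ (g * y.1)) : ℤ) = Multiplicative.toAdd (χ g) + Multiplicative.toAdd (χ y.1)
    rw [map_mul, toAdd_mul]

/-- the height on the direct sum -/
def htSum (ht : X →[G] Zl χ) (a : ℕ) : X ⊕ Fr G (Fin a) →[G] Zl χ where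
  toFun x := Sum.elim (fun x => ht x) (fun y => htFr χ a y) x
  map_smul' g x := by
    cases x with
    | inl x => exact map_smul ht g x
    | inr y => exact map_smul (htFr χ a) g y

/-- a rational subspace is generated by its part in a window -/
theorem line_gen {n : ℕ} (hn : 0 < n) (hR : RanksIn ⊤ G n) {s : G} (hs : χ s = Multiplicative.ofAdd 1)
    (ht : X →[G] Zl χ) {W : Submodule ℂ (L2 X)} (hW : Rat ⊤ G W) :
    ∃ L : ℕ, ∀ V : Submodule ℂ (L2 X), Md G V →
      (∀ f ∈ W, (∀ x, f x ≠ 0 → 0 ≤ hgt ht x ∧ hgt ht x ≤ L) → f ∈ V) → W ≤ V := by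
  obtain ⟨a, b, T, hT, rfl⟩ := hW.exists_form
  obtain ⟨L, hL⟩ := line_gen_kr hn hR hs (htSum ht a) (htFr χ b) hT
  refine ⟨L, fun V hV h => im_le hV.cl ?_⟩
  have h1 : kr T ≤ V.comap (pl X (Fr G (Fin a)) : L2 (X ⊕ Fr G (Fin a)) →ₗ[ℂ] L2 X) := by
    refine hL _ (hV.comap (kop_pl (K := ⊤) (H := G)).equi) ?_
    intro f hf hs'
    exact h _ (map_le_im (Submodule.mem_map_of_mem hf)) fun x hx => hs' (Sum.inl x) hx
  exact fun f hf => h1 hf

/-- the part of a rational subspace in a window is rational over the kernel -/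
theorem line_rat {n : ℕ} (hn : 0 < n) (hR : RanksIn ⊤ G n) {s : G} (hs : χ s = Multiplicative.ofAdd 1)
    (ht : X →[G] Zl χ) {W : Submodule ℂ (L2 X)} (hW : Rat ⊤ G W) (a b : ℤ) :
    Rat ⊤ χ.ker (W.comap (push (wi ht a b) (wi_inj ht a b) : L2 (Win ht a b) →ₗ[ℂ] L2 X)) := by
  obtain ⟨p, q, T, hT, hWT⟩ := hW.perp.exists_form
  obtain ⟨L, hL⟩ := line_gen_kr hn hR hs (htSum ht p) (htFr χ q) hT
  obtain ⟨r, hr⟩ := exists_spread hT (htSum ht p) (htFr χ q)
  -- the kernel in the larger window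
  set S := wop (htSum ht p) (htFr χ q) (a - L) (b + L) (a - L - r) (b + L + r) T with hS
  have hkS : Rat ⊤ χ.ker (kr S) := rat_kr (kop_wop _ _ _ _ _ _ hT)
  -- the first component on windows
  let i : Win ht (a - L) (b + L) → Win (htSum ht p) (a - L) (b + L) := fun x => ⟨Sum.inl x.1, x.2⟩
  have hi : Function.Injective i := fun x y hxy =>
    Subtype.ext (Sum.inl_injective (congrArg Subtype.val hxy))
  have hki : KOp ⊤ χ.ker (pull i hi) := kop_pull hi fun _ _ => rfl
  -- the larger window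
  let D : L2 (Win ht a b) →L[ℂ] L2 (Win ht (a - L) (b + L)) :=
    (pull (wi ht (a - L) (b + L)) (wi_inj ht (a - L) (b + L))).comp (push (wi ht a b) (wi_inj ht a b))
  have hD : KOp ⊤ χ.ker D := (kop_pull (H := χ.ker) (wi_inj ht (a - L) (b + L)) fun _ _ => rfl).comp
    (kop_push (H := χ.ker) (wi_inj ht a b) fun _ _ => rfl)
  have hpD : ∀ f : L2 (Win ht a b), push (wi ht (a - L) (b + L)) (wi_inj ht (a - L) (b + L)) (D f) =
      push (wi ht a b) (wi_inj ht a b) f := by
    intro f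
    refine push_pull_win ht fun x hx => ?_
    have h1 := push_win_supp ht f x hx
    constructor
    · linarith [h1.1, (Nat.cast_nonneg L : (0 : ℤ) ≤ L)]
    · linarith [h1.2, (Nat.cast_nonneg L : (0 : ℤ) ≤ L)]
  have hpl : ∀ u : L2 (Win (htSum ht p) (a - L) (b + L)),
      pl X (Fr G (Fin p)) (push (wi (htSum ht p) (a - L) (b + L)) (wi_inj _ _ _) u) =
        push (wi ht (a - L) (b + L)) (wi_inj ht (a - L) (b + L)) (pull i hi u) := by
    intro u
    ext x
    show push (wi (htSum ht p) (a - L) (b + L)) (wi_inj _ _ _) u (Sum.inl x) = _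
    by_cases hx : a - L ≤ hgt ht x ∧ hgt ht x ≤ b + L
    · have h1 := push_apply (wi ht (a - L) (b + L)) (wi_inj ht (a - L) (b + L)) (pull i hi u) ⟨x, hx⟩
      have h2 := push_apply (wi (htSum ht p) (a - L) (b + L)) (wi_inj _ _ _) u (i ⟨x, hx⟩)
      exact h2.trans h1.symm
    · rw [push_apply_of_notMem (wi ht (a - L) (b + L)), push_apply_of_notMem]
      · rintro ⟨y, hy⟩
        exact hx (by
          have h1 := y.2
          have h2 : y.1 = Sum.inl x := hy
          rw [h2] at h1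
          exact h1)
      · rintro ⟨y, hy⟩
        exact hx (by
          have h1 := y.2
          have h2 : y.1 = x := hy
          rw [h2] at h1
          exact h1)
  have key : W.comap (push (wi ht a b) (wi_inj ht a b) : L2 (Win ht a b) →ₗ[ℂ] L2 X) =
      ((im (pull i hi) (kr S))ᗮ).comap (D : L2 (Win ht a b) →ₗ[ℂ] L2 (Win ht (a - L) (b + L))) := by
    ext f
    rw [Submodule.mem_comap, Submodule.mem_comap]
    constructor
    · intro hf
      have hf' : push (wi ht a b) (wi_inj ht a b) f ∈ W := hf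
      rw [Submodule.mem_orthogonal]
      have h1 : im (pull i hi) (kr S) ≤ (Submodule.span ℂ {D f})ᗮ := by
        refine im_le (Submodule.isClosed_orthogonal _) ?_
        intro u hu
        rw [Submodule.mem_orthogonal_singleton_iff_inner_left]
        have h2 : push (wi (htSum ht p) (a - L) (b + L)) (wi_inj _ _ _) u ∈ kr T := (mem_kr_wop hr u).1 hu
        have h3 : pl X (Fr G (Fin p)) (push (wi (htSum ht p) (a - L) (b + L)) (wi_inj _ _ _) u) ∈ Wᗮ := by
          rw [hWT]
          exact map_le_im (Submodule.mem_map_of_mem h2)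
        rw [hpl] at h3
        have h4 := (Submodule.mem_orthogonal' _ _).1 h3 _ hf'
        rw [← hpD f, AA.inner_push, pull_push] at h4
        exact h4
      intro u hu
      have h2 := h1 hu
      rw [Submodule.mem_orthogonal_singleton_iff_inner_left] at h2
      exact h2
    · intro hf
      rw [Submodule.mem_orthogonal] at hf
      show push (wi ht a b) (wi_inj ht a b) f ∈ W
      set v := push (wi ht a b) (wi_inj ht a b) f with hv
      -- the subspace of all functions whose translates are orthogonal to `v`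
      let V : Submodule ℂ (L2 X) := ⨅ g : G, ((Submodule.span ℂ {v})ᗮ).comap ((la g : L2 X →L[ℂ] L2 X) : L2 X →ₗ[ℂ] L2 X)
      have hV : ∀ u : L2 X, u ∈ V ↔ ∀ g : G, ⟪la g u, v⟫_ℂ = 0 := by
        intro u
        rw [Submodule.mem_iInf]
        refine forall_congr' fun g => ?_
        rw [Submodule.mem_comap, Submodule.mem_orthogonal_singleton_iff_inner_left]
        rfl
      have hVM : Md G V := by
        constructor
        · intro h u hu
          rw [hV] at hu ⊢
          intro g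
          rw [AA.la_la]
          exact hu _
        · have h1 : (V : Set (L2 X)) = ⋂ g : G, (fun u => la g u) ⁻¹' ((Submodule.span ℂ {v})ᗮ : Submodule ℂ (L2 X)) := by
            ext u
            rw [Set.mem_iInter]
            show u ∈ V ↔ _
            rw [Submodule.mem_iInf]
            rfl
          rw [h1]
          exact isClosed_iInter fun g => (Submodule.isClosed_orthogonal _).preimage (la g).continuous
      have h1 : kr T ≤ V.comap (pl X (Fr G (Fin p)) : L2 (X ⊕ Fr G (Fin p)) →ₗ[ℂ] L2 X) := by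
        refine hL _ (hVM.comap (kop_pl (K := ⊤) (H := G)).equi) ?_
        intro h hh hsup
        show pl X (Fr G (Fin p)) h ∈ V
        rw [hV]
        intro g
        have h2 : la g (pl X (Fr G (Fin p)) h) = pl X (Fr G (Fin p)) (la g h) := ((kop_pl (K := ⊤) (H := G)).equi g h).symm
        rw [h2]
        have h3 : la g h ∈ kr T := (rat_kr hT).md.inv g h hh
        have h4 : ∀ x, la g h x ≠ 0 → Multiplicative.toAdd (χ g) ≤ hgt (htSum ht p) x ∧
            hgt (htSum ht p) x ≤ Multiplicative.toAdd (χ g) + L := by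
          intro x hx
          have h5 := hsup (g⁻¹ • x) hx
          rw [hgt_smul, map_inv, toAdd_inv] at h5
          constructor
          · linarith [h5.1]
          · linarith [h5.2]
        by_cases hc : a - L ≤ Multiplicative.toAdd (χ g) ∧ Multiplicative.toAdd (χ g) ≤ b
        · have h5 : push (wi (htSum ht p) (a - L) (b + L)) (wi_inj _ _ _)
              (pull (wi (htSum ht p) (a - L) (b + L)) (wi_inj _ _ _) (la g h)) = la g h := by
            refine push_pull_win _ fun x hx => ?_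
            have h6 := h4 x hx
            constructor
            · linarith [hc.1, h6.1]
            · linarith [hc.2, h6.2]
          have h6 : pull (wi (htSum ht p) (a - L) (b + L)) (wi_inj _ _ _) (la g h) ∈ kr S := by
            rw [mem_kr_wop hr, h5]
            exact h3
          have h7 := hf _ (map_le_im (Submodule.mem_map_of_mem h6))
          rw [← h5, hpl, hv, ← hpD f, AA.inner_push, pull_push]
          exact h7
        · -- disjoint supports
          rw [hv, ← AA.inner_pull]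
          have h5 : pull (wi ht a b) (wi_inj ht a b) (pl X (Fr G (Fin p)) (la g h)) = 0 := by
            ext x
            show la g h (Sum.inl x.1) = 0
            by_contra h6
            have h7 := h4 _ h6
            have h8 := x.2
            refine hc ⟨?_, ?_⟩
            · have h9 : hgt (htSum ht p) (Sum.inl x.1) = hgt ht x.1 := rfl
              linarith [h7.2, h8.1]
            · have h9 : hgt (htSum ht p) (Sum.inl x.1) = hgt ht x.1 := rfl
              linarith [h7.1, h8.2]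
          rw [h5, inner_zero_left]
      have h2 : Wᗮ ≤ V := by
        rw [hWT]
        exact im_le hVM.cl fun u hu => h1 hu
      have h3 : v ∈ Wᗮᗮ := by
        rw [Submodule.mem_orthogonal]
        intro u hu
        have h4 := (hV u).1 (h2 hu) 1
        rwa [AA.la_one] at h4
      rw [Submodule.orthogonal_orthogonal_eq_closure, hW.md.cleq] at h3
      exact h3
  rw [key]
  exact ((hkS.im hki).perp).comap hD

end gen

end ATY
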