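import Pool.Agent.ATY.CPhi
import Pool.Agent.ATY.Line
import Pool.Agent.ATY.Gd
import Pool.Agent.ATY.E5

/-!
# Extensions by the integers (row X1)

If the kernel of a homomorphism to the integers has the two properties `Gd n`, then so has the group.
-/

set_option autoImplicit false

open scoped ComplexConjugate InnerProductSpace
open Filter Topology

namespace ATY
open Singer Singer.HT Pool.WeakAtiyah

section induced
variable {G X Q : Type} [Group G] [MulAction G X] [MulAction G Q]

/-- the module with a given part over `q` -/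
lemma exists_induced (a : X →[G] Q) (q : Q) {W : Submodule ℂ (L2 (Fib a q))} (hW : Md (MulAction.stabilizer G q) W) :
    ∃ Y : Submodule ℂ (L2 X), Md G Y ∧ Loc a Y ∧ loc a q Y = W := by
  classical
  let Y : Submodule ℂ (L2 X) := ⨅ g : G, W.comap
    (((pull (fi a q) (fi_inj a q)).comp (la g : L2 X →L[ℂ] L2 X) : L2 X →L[ℂ] L2 (Fib a q)) : L2 X →ₗ[ℂ] L2 (Fib a q))
  have hY : ∀ f : L2 X, f ∈ Y ↔ ∀ g : G, pull (fi a q) (fi_inj a q) (la g f) ∈ W := by
    intro f
    rw [Submodule.mem_iInf]
    rfl
  refine ⟨Y, ⟨?_, ?_⟩, ?_, ?_⟩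
  · intro h f hf
    rw [hY] at hf ⊢
    intro g
    rw [AA.la_la]
    exact hf _
  · have h1 : (Y : Set (L2 X)) = ⋂ g : G, (fun f => pull (fi a q) (fi_inj a q) (la g f)) ⁻¹' (W : Set (L2 (Fib a q))) := by
      ext f
      rw [Set.mem_iInter]
      exact hY f
    rw [h1]
    exact isClosed_iInter fun g => hW.cl.preimage ((pull (fi a q) (fi_inj a q)).continuous.comp (la g).continuous)
  · intro q' f hf
    rw [hY] at hf ⊢
    intro g
    by_cases hq : g • q' = q
    · have h1 : pull (fi a q) (fi_inj a q) (la g (cu {x | a x = q'} f)) = pull (fi a q) (fi_inj a q) (la g f) := by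
        ext x
        show cu {x | a x = q'} f (g⁻¹ • x.1) = f (g⁻¹ • x.1)
        have h2 : g⁻¹ • x.1 ∈ {x | a x = q'} := by
          show a (g⁻¹ • x.1) = q'
          rw [map_smul, x.2, ← hq, inv_smul_smul]
        rw [cu_apply, if_pos h2]
      rw [h1]
      exact hf g
    · have h1 : pull (fi a q) (fi_inj a q) (la g (cu {x | a x = q'} f)) = 0 := by
        ext x
        show cu {x | a x = q'} f (g⁻¹ • x.1) = 0
        have h2 : g⁻¹ • x.1 ∉ {x | a x = q'} := by
          intro h3
          have h4 : a (g⁻¹ • x.1) = q' := h3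
          rw [map_smul, x.2] at h4
          exact hq (by rw [← h4, smul_inv_smul])
        rw [cu_apply, if_neg h2]
      rw [h1]
      exact W.zero_mem
  · ext w
    rw [mem_loc, hY]
    constructor
    · intro h
      have h1 := h 1
      rwa [AA.la_one, pull_push] at h1
    · intro hw g
      by_cases hg : g • q = q
      · have h1 : pull (fi a q) (fi_inj a q) (la g (push (fi a q) (fi_inj a q) w)) =
            la (⟨g, hg⟩ : MulAction.stabilizer G q) w := by
          ext x
          show push (fi a q) (fi_inj a q) w (g⁻¹ • x.1) = w ((⟨g, hg⟩ : MulAction.stabilizer G q)⁻¹ • x)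
          exact push_apply (fi a q) (fi_inj a q) w ((⟨g, hg⟩ : MulAction.stabilizer G q)⁻¹ • x)
        rw [h1]
        exact hW.inv _ _ hw
      · have h1 : pull (fi a q) (fi_inj a q) (la g (push (fi a q) (fi_inj a q) w)) = 0 := by
          ext x
          show push (fi a q) (fi_inj a q) w (g⁻¹ • x.1) = 0
          refine push_apply_of_notMem _ _ _ ?_
          rintro ⟨y, hy⟩
          have h2 : y.1 = g⁻¹ • x.1 := hy
          have h3 := y.2
          rw [h2, map_smul, x.2] at h3
          exact hg (by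
            conv_lhs => rw [← h3]
            rw [smul_inv_smul])
        rw [h1]
        exact W.zero_mem

end induced

section kernel
variable {A : Type} [Group A] (χ : A →* Multiplicative ℤ) (Q : Type) [MulAction A Q]

/-- the homomorphism of the semidirect product -/
noncomputable def chiR : Psi A Q →* Multiplicative ℤ := χ.comp SemidirectProduct.rightHom

lemma chiR_apply (g : Psi A Q) : chiR χ Q g = χ g.right := rfl

/-- its kernel -/
noncomputable def kerE : (chiR χ Q).ker ≃* Psi χ.ker Q where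
  toFun g := ⟨g.1.left, ⟨g.1.right, g.2⟩⟩
  invFun g := ⟨⟨g.left, g.right.1⟩, g.right.2⟩
  left_inv _ := rfl
  right_inv _ := rfl
  map_mul' _ _ := rfl

/-- the group of integers is free -/
theorem isFreeGroup_int : IsFreeGroup (Multiplicative ℤ) := by
  refine IsFreeGroup.ofMulEquiv (G := FreeGroup Unit) ?_
  exact
    { toFun := FreeGroup.lift fun _ => Multiplicative.ofAdd 1
      invFun := fun k => FreeGroup.of () ^ Multiplicative.toAdd k
      left_inv := by
        have h1 : ((zpowersHom (FreeGroup Unit) (FreeGroup.of ())).comp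
            (FreeGroup.lift fun _ => Multiplicative.ofAdd 1) : FreeGroup Unit →* FreeGroup Unit) = MonoidHom.id _ := by
          apply FreeGroup.ext_hom
          intro u
          simp
        intro x
        exact congrArg (fun f : FreeGroup Unit →* FreeGroup Unit => f x) h1
      right_inv := by
        intro k
        have h1 : (Multiplicative.ofAdd 1 : Multiplicative ℤ) ^ Multiplicative.toAdd k = k := by
          rw [← ofAdd_zsmul, smul_eq_mul, mul_one, ofAdd_toAdd]
        simpa using h1
      map_mul' := map_mul _ }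

/-- ranks -/
lemma ranks_psi_ext {n : ℕ} (hn : 0 < n) (h : RanksIn ⊤ (Psi χ.ker Q) n) : RanksIn ⊤ (Psi A Q) n := by
  have hf : IsFreeGroup (Multiplicative ℤ) := isFreeGroup_int
  obtain ⟨V, act, T, o, hT, hA, hI, hfr⟩ := exists_cayley (Multiplicative ℤ)
  refine Lam.ranksIn_ext hn (chiR χ Q) hT hA hI hfr ?_
  exact ranksIn_of_injective (kerE χ Q).toMonoidHom (kerE χ Q).injective h

end kernel

section core
variable {A : Type} [Group A] {χ : A →* Multiplicative ℤ}

/-- rationality of the part over a point whose stabiliser maps onto the integers -/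
theorem rat_of_hat_line {n : ℕ} (hn : 0 < n) (hN : Gd n χ.ker) {X Q : Type} [MulAction A X] [FC A X] [MulAction A Q]
    (a : X →[A] Q) (q : Q) (ho : ∀ x, a x ∈ MulAction.orbit A q) {s : A} (hsq : s • q = q)
    (hs : χ s = Multiplicative.ofAdd 1) {Y : Submodule ℂ (L2 X)} (hY : Md A Y) (lY : Loc a Y)
    (hr : Rat ⊤ (Psi A Q) (hat Q Y)) : Rat ⊤ (MulAction.stabilizer A q) (loc a q Y) := by
  have hRN : RanksIn ⊤ χ.ker n :=
    ranksIn_of_injective (SemidirectProduct.inr : χ.ker →* Psi χ.ker Q) SemidirectProduct.inr_injective (hN.rk Q)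
  have hR : RanksIn ⊤ (Psi A Q) n := ranks_psi_ext χ Q hn (hN.rk Q)
  obtain ⟨ht⟩ := exists_equivariant (A := A) (X := X) (V := Zl χ) (0 : ℤ)
  let ht' : HX Q X →[Psi A Q] Zl (chiR χ Q) := ⟨fun p => ht p.2, fun g p => map_smul ht g.right p.2⟩
  have hs' : chiR χ Q (SemidirectProduct.inr s) = Multiplicative.ofAdd 1 := hs
  obtain ⟨L, hL⟩ := line_gen hn hR hs' ht' hr
  have h1 := line_rat hn hR hs' ht' hr 0 L
  -- the window over the kernel
  set Y₀ : Submodule ℂ (L2 (Win ht 0 L)) := Y.comap (push (wi ht 0 L) (wi_inj ht 0 L) : L2 (Win ht 0 L) →ₗ[ℂ] L2 X) with hY₀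
  let e : Win ht' 0 L ≃ HX Q (Win ht 0 L) :=
    { toFun := fun p => hp p.1.1 ⟨p.1.2, p.2⟩
      invFun := fun p => ⟨hp p.1 p.2.1, p.2.2⟩
      left_inv := fun _ => rfl
      right_inv := fun _ => rfl }
  have h2 := h1.equiv (kerE χ Q) e (fun _ _ => rfl)
  have h3 : ((hat Q Y).comap (push (wi ht' 0 L) (wi_inj ht' 0 L) : L2 (Win ht' 0 L) →ₗ[ℂ] L2 (HX Q X))).map
      (push e e.injective : L2 (Win ht' 0 L) →ₗ[ℂ] L2 (HX Q (Win ht 0 L))) = hat Q Y₀ := by
    ext f
    rw [mem_map_push, Submodule.mem_comap, mem_hat, mem_hat]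
    refine forall_congr' fun ν => ?_
    show sl ν (push (wi ht' 0 L) (wi_inj ht' 0 L) (pull e e.injective f)) ∈ Y ↔ _
    rw [hY₀, Submodule.mem_comap]
    have h4 : sl ν (push (wi ht' 0 L) (wi_inj ht' 0 L) (pull e e.injective f)) =
        push (wi ht 0 L) (wi_inj ht 0 L) (sl ν f) := by
      ext x
      rw [sl_apply]
      by_cases hx : 0 ≤ hgt ht x ∧ hgt ht x ≤ L
      · have h5 := push_apply (wi ht' 0 L) (wi_inj ht' 0 L) (pull e e.injective f) (⟨hp ν x, hx⟩ : Win ht' 0 L)
        have h6 := push_apply (wi ht 0 L) (wi_inj ht 0 L) (sl ν f) (⟨x, hx⟩ : Win ht 0 L)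
        exact h5.trans h6.symm
      · rw [push_apply_of_notMem, push_apply_of_notMem]
        · rintro ⟨y, hy⟩
          have h5 : y.1 = x := hy
          have h6 := y.2
          rw [h5] at h6
          exact hx h6
        · rintro ⟨y, hy⟩
          have h5 : y.1 = hp ν x := hy
          have h6 := y.2
          rw [h5] at h6
          exact hx h6
    rw [h4]
    rfl
  rw [h3] at h2
  -- descent to the kernel
  let a₀ : Win ht 0 L →[χ.ker] Q := ⟨fun x => a x.1, fun g x => map_smul a (g : A) x.1⟩
  have hN' : ∀ q' ∈ MulAction.orbit A q, ∃ g : χ.ker, (g : A) • q = q' := by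
    rintro _ ⟨b, rfl⟩
    have hb : b * (s ^ Multiplicative.toAdd (χ b))⁻¹ ∈ χ.ker := by
      rw [MonoidHom.mem_ker, map_mul, map_inv, map_zpow, hs, ← ofAdd_zsmul, smul_eq_mul, mul_one, ofAdd_toAdd,
        mul_inv_cancel]
    refine ⟨⟨_, hb⟩, ?_⟩
    have hsz : (s ^ Multiplicative.toAdd (χ b))⁻¹ • q = q := by
      have h5 : s ∈ MulAction.stabilizer A q := hsq
      exact Subgroup.inv_mem _ (Subgroup.zpow_mem _ h5 _)
    show (b * (s ^ Multiplicative.toAdd (χ b))⁻¹) • q = b • q
    rw [mul_smul, hsz]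
  have ho₀ : ∀ x, a₀ x ∈ MulAction.orbit χ.ker q := by
    intro x
    obtain ⟨g, hg⟩ := hN' _ (ho x.1)
    exact ⟨g, hg⟩
  have hY₀m : Md χ.ker Y₀ := by
    have hYk : Md χ.ker Y := ⟨fun g f hf => hY.inv (g : A) f hf, hY.cl⟩
    exact hYk.comap (T := push (wi ht 0 L) (wi_inj ht 0 L)) (kop_push (K := ⊤) (H := χ.ker) (wi_inj ht 0 L) fun _ _ => rfl).equi
  have hY₀l : Loc a₀ Y₀ := by
    intro q' f hf
    have hf' : push (wi ht 0 L) (wi_inj ht 0 L) f ∈ Y := hf
    show push (wi ht 0 L) (wi_inj ht 0 L) (cu {x | a₀ x = q'} f) ∈ Y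
    have h5 : push (wi ht 0 L) (wi_inj ht 0 L) (cu {x | a₀ x = q'} f) =
        cu {x | a x = q'} (push (wi ht 0 L) (wi_inj ht 0 L) f) := by
      ext x
      rw [cu_apply]
      by_cases hx : x ∈ Set.range (wi ht 0 L)
      · obtain ⟨y, rfl⟩ := hx
        rw [push_apply, push_apply, cu_apply]
        rfl
      · rw [push_apply_of_notMem _ _ _ hx, push_apply_of_notMem _ _ _ hx]
        split_ifs <;> rfl
    rw [h5]
    exact lY _ _ hf'
  have h4 : Rat ⊤ (MulAction.stabilizer χ.ker q) (loc a₀ q Y₀) :=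
    rat_of_hat hn a₀ q ho₀ hRN (fun q' => hN.ssp _) hY₀m hY₀l h2
  -- the window of the fibre
  let C := MulAction.stabilizer A q
  let χC : C →* Multiplicative ℤ := χ.comp C.subtype
  let htC : Fib a q →[C] Zl χC := ⟨fun x => ht x.1, fun g x => map_smul ht (g : A) x.1⟩
  let α : MulAction.stabilizer χ.ker q ≃* χC.ker :=
    { toFun := fun g => ⟨⟨g.1.1, g.2⟩, g.1.2⟩
      invFun := fun g => ⟨⟨g.1.1, g.2⟩, g.1.2⟩
      left_inv := fun _ => rfl
      right_inv := fun _ => rfl
      map_mul' := fun _ _ => rfl }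
  let e₂ : Fib a₀ q ≃ Win htC 0 L :=
    { toFun := fun x => ⟨⟨x.1.1, x.2⟩, x.1.2⟩
      invFun := fun x => ⟨⟨x.1.1, x.2⟩, x.1.2⟩
      left_inv := fun _ => rfl
      right_inv := fun _ => rfl }
  have h5 := h4.equiv α e₂ (fun _ _ => rfl)
  set V : Submodule ℂ (L2 (Win htC 0 L)) :=
    (loc a q Y).comap (push (wi htC 0 L) (wi_inj htC 0 L) : L2 (Win htC 0 L) →ₗ[ℂ] L2 (Fib a q)) with hV
  have h6 : (loc a₀ q Y₀).map (push e₂ e₂.injective : L2 (Fib a₀ q) →ₗ[ℂ] L2 (Win htC 0 L)) = V := by
    ext f
    rw [mem_map_push, mem_loc, hY₀, hV, Submodule.mem_comap, Submodule.mem_comap, mem_loc]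
    show push (wi ht 0 L) (wi_inj ht 0 L) (push (fi a₀ q) (fi_inj a₀ q) (pull e₂ e₂.injective f)) ∈ Y ↔
      push (fi a q) (fi_inj a q) (push (wi htC 0 L) (wi_inj htC 0 L) f) ∈ Y
    have h7 : push (wi ht 0 L) (wi_inj ht 0 L) (push (fi a₀ q) (fi_inj a₀ q) (pull e₂ e₂.injective f)) =
        push (fi a q) (fi_inj a q) (push (wi htC 0 L) (wi_inj htC 0 L) f) := by
      rw [push_push, push_push]
      exact push_pull_trans ((wi_inj ht 0 L).comp (fi_inj a₀ q)) ((fi_inj a q).comp (wi_inj htC 0 L)) e₂
        (fun _ => rfl) f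
    rw [h7]
  rw [h6] at h5
  obtain ⟨W, hW, hW1, hW2⟩ := exists_gen htC 0 L h5
  have h7 : W ≤ loc a q Y := hW2 _ (hY.loc q) fun f hf => hf
  have h8 : loc a q Y ≤ W := by
    obtain ⟨Y₂, hY₂, lY₂, hq₂⟩ := exists_induced a q hW.md
    have h9 : hat Q Y ≤ hat Q Y₂ := by
      refine hL _ hY₂.hat fun f hf hsup => ?_
      rw [mem_hat] at hf ⊢
      intro ν
      refine UU.mem_of_fib a hY₂.cl _ fun q' => ?_
      by_cases hq' : q' ∈ MulAction.orbit A q
      swap
      · have h10 : cu {x | a x = q'} (sl ν f) = 0 := by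
          ext x
          rw [cu_apply, if_neg]
          · rfl
          · intro h11
            have h12 : a x = q' := h11
            exact hq' (h12 ▸ ho x)
        rw [h10]
        exact Y₂.zero_mem
      obtain ⟨g, hg⟩ := hN' q' hq'
      set v := cu {x | a x = q'} (sl ν f) with hv
      have hvY : v ∈ Y := lY _ _ (hf ν)
      have hv' : la (g : A)⁻¹ v ∈ Y := hY.inv _ _ hvY
      -- the translate is in the fibre
      set w : L2 (Fib a q) := pull (fi a q) (fi_inj a q) (la (g : A)⁻¹ v) with hw
      have h10 : push (fi a q) (fi_inj a q) w = la (g : A)⁻¹ v := by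
        rw [hw, push_pull_fi]
        ext x
        rw [cu_apply]
        split_ifs with hx
        · rfl
        · rw [la_apply, inv_inv, hv, cu_apply, if_neg]
          intro h11
          have h12 : a ((g : A) • x) = q' := h11
          rw [map_smul, ← hg] at h12
          exact hx (MulAction.injective (g : A) h12)
      have h11 : w ∈ loc a q Y := by
        rw [mem_loc, h10]
        exact hv'
      have h12 : ∀ x, w x ≠ 0 → 0 ≤ hgt htC x ∧ hgt htC x ≤ L := by
        intro x hx
        have h13 : v ((g : A) • x.1) ≠ 0 := by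
          have h14 : w x = la (g : A)⁻¹ v x.1 := rfl
          rw [h14, la_apply, inv_inv] at hx
          exact hx
        have h14 : f (hp ν ((g : A) • x.1)) ≠ 0 := by
          intro h15
          apply h13
          rw [hv, cu_apply]
          split_ifs
          · exact h15
          · rfl
        have h15 := hsup _ h14
        have h16 : hgt ht' (hp ν ((g : A) • x.1)) = hgt ht ((g : A) • x.1) := rfl
        rw [h16, hgt_ker] at h15
        exact h15
      have h13 := push_pull_win htC h12
      have h14 : w ∈ W := by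
        rw [← h13]
        refine hW1 _ ?_
        rw [hV, Submodule.mem_comap]
        show push (wi htC 0 L) (wi_inj htC 0 L) (pull (wi htC 0 L) (wi_inj htC 0 L) w) ∈ loc a q Y
        rw [h13]
        exact h11
      rw [← hq₂, mem_loc, h10] at h14
      have h15 := hY₂.inv (g : A) _ h14
      rwa [AA.la_la_inv] at h15
    have h10 : Y ≤ Y₂ := hat_le_iff.1 h9
    have h11 : loc a q Y ≤ loc a q Y₂ := fun f hf => h10 hf
    rwa [hq₂] at h11
  rw [le_antisymm h8 h7]
  exact hW

/-- a subgroup which contains an element of height one -/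
theorem ssp_line_core {n : ℕ} (hn : 0 < n) (hN : Gd n χ.ker) (C : Subgroup A) {s : A} (hsC : s ∈ C)
    (hs : χ s = Multiplicative.ofAdd 1) : SSP ⊤ A C := by
  refine ssp_of_psi hn C (fun Q _ => ranks_psi_ext χ Q hn (hN.rk Q)) ?_
  intro X Q _ _ _ a q hst ho Y hY lY hr
  refine rat_of_hat_line hn hN a q ho (s := s) ?_ hs hY lY hr
  rw [← hst] at hsC
  exact hsC

end core

/-- isomorphic groups -/
theorem Gd.congr {n : ℕ} {A A' : Type} [Group A] [Group A'] (α : A ≃* A') (h : Gd n A) : Gd n A' where
  rk Q _ := by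
    let act : MulAction A Q := MulAction.compHom Q α.toMonoidHom
    have hφ : ∀ (b : A') (ν : FreeGroup (Q × ℤ)), phiA A Q (α.symm b) ν = phiA A' Q b ν := by
      intro b ν
      rw [phiA_apply, phiA_apply]
      have h1 : (fun p : Q × ℤ => (α.symm b • p.1, p.2)) = fun p : Q × ℤ => (b • p.1, p.2) := by
        funext p
        refine Prod.ext ?_ rfl
        show α (α.symm b) • p.1 = b • p.1
        rw [MulEquiv.apply_symm_apply]
      rw [h1]
    let f : Psi A' Q →* Psi A Q :=
      { toFun := fun g => ⟨g.left, α.symm g.right⟩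
        map_one' := by
          refine SemidirectProduct.ext rfl ?_
          exact map_one α.symm
        map_mul' := fun g g' => by
          refine SemidirectProduct.ext ?_ ?_
          · show g.left * phiA A' Q g.right g'.left = g.left * phiA A Q (α.symm g.right) g'.left
            rw [hφ]
          · exact map_mul α.symm g.right g'.right }
    refine ranksIn_of_injective f ?_ (h.rk Q)
    intro g g' hgg
    have h1 := congrArg SemidirectProduct.left hgg
    have h2 := congrArg SemidirectProduct.right hgg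
    exact SemidirectProduct.ext h1 (α.symm.injective h2)
  ssp C := ssp_equiv α (C := C.comap α.toMonoidHom) (fun _ => Iff.rfl) (h.ssp _)

/-- ranks -/
lemma Gd.ranksIn {n : ℕ} {A : Type} [Group A] (h : Gd n A) : RanksIn ⊤ A n := by
  let act : MulAction A Unit :=
    { smul := fun _ u => u
      one_smul := fun _ => rfl
      mul_smul := fun _ _ _ => rfl }
  exact ranksIn_of_injective (SemidirectProduct.inr : A →* Psi A Unit) SemidirectProduct.inr_injective (h.rk Unit)

section ext
variable {A : Type} [Group A]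

/-- the kernel of a homomorphism to the integers -/
theorem ssp_ker (χ : A →* Multiplicative ℤ) {n : ℕ} (hn : 0 < n) (hR : RanksIn ⊤ χ.ker n) : SSP ⊤ A χ.ker := by
  have hf : IsFreeGroup (Multiplicative ℤ) := isFreeGroup_int
  obtain ⟨V, act, T, o, hT, hA, hI, hfr⟩ := exists_cayley (Multiplicative ℤ)
  let act' : MulAction A V := MulAction.compHom V χ
  have hst : ∀ v : V, MulAction.stabilizer A v = χ.ker := by
    intro v
    ext g
    constructor
    · intro hg
      exact hfr _ _ hg
    · intro hg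
      show χ g • v = v
      rw [MonoidHom.mem_ker.1 hg, one_smul]
  have hRv : ∀ v : V, RanksIn ⊤ (MulAction.stabilizer A v) n := by
    intro v
    rw [hst v]
    exact hR
  have h1 : SSP ⊤ A (MulAction.stabilizer A o) := by
    refine ssp_vertex hn hT (fun g v w h => hA (χ g) v w h) (fun g v w h h1 => hI (χ g) v w h h1) ?_ hRv o
    intro v w _
    have h2 : (MulAction.stabilizer A w).subgroupOf (MulAction.stabilizer A v) = ⊤ := by
      rw [hst v, hst w]
      exact Subgroup.subgroupOf_self _
    rw [h2]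
    exact ssp_of_finiteIndex hn (hRv v) ⊤
  rw [hst o] at h1
  exact h1

/-- **extensions by the integers** -/
theorem Gd.ext (χ : A →* Multiplicative ℤ) {n : ℕ} (hn : 0 < n) (h : Gd n χ.ker) : Gd n A where
  rk Q _ := ranks_psi_ext χ Q hn (h.rk Q)
  ssp C := by
    have hRA : RanksIn ⊤ A n := by
      let act : MulAction A Unit :=
        { smul := fun _ u => u
          one_smul := fun _ => rfl
          mul_smul := fun _ _ _ => rfl }
      exact ranksIn_of_injective (SemidirectProduct.inr : A →* Psi A Unit) SemidirectProduct.inr_injective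
        (ranks_psi_ext χ Unit hn (h.rk Unit))
    by_cases hC : C ≤ χ.ker
    · exact ssp_trans χ.ker C hC (ssp_ker χ hn h.ranksIn) (h.ssp _)
    -- the heights of the subgroup
    have hC' : ∃ c ∈ C, Multiplicative.toAdd (χ c) ≠ 0 := by
      by_contra hc
      push Not at hc
      exact hC fun g hg => MonoidHom.mem_ker.2 (Multiplicative.toAdd.injective (hc g hg))
    let H : AddSubgroup ℤ :=
      { carrier := {k | ∃ c ∈ C, Multiplicative.toAdd (χ c) = k}
        zero_mem' := ⟨1, C.one_mem, by rw [map_one, toAdd_one]⟩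
        add_mem' := by
          rintro _ _ ⟨c, hc, rfl⟩ ⟨d, hd, rfl⟩
          exact ⟨c * d, C.mul_mem hc hd, by rw [map_mul, toAdd_mul]⟩
        neg_mem' := by
          rintro _ ⟨c, hc, rfl⟩
          exact ⟨c⁻¹, C.inv_mem hc, by rw [map_inv, toAdd_inv]⟩ }
    obtain ⟨m, hm⟩ := Int.subgroup_cyclic H
    have hH : ∀ k : ℤ, k ∈ H ↔ m ∣ k := by
      intro k
      rw [hm, AddSubgroup.mem_closure_singleton]
      constructor
      · rintro ⟨z, hz⟩
        exact ⟨z, by rw [← hz, smul_eq_mul, mul_comm]⟩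
      · rintro ⟨z, hz⟩
        exact ⟨z, by rw [hz, smul_eq_mul, mul_comm]⟩
    have hm0 : m ≠ 0 := by
      rintro rfl
      obtain ⟨c, hc, hc0⟩ := hC'
      exact hc0 (zero_dvd_iff.1 ((hH _).1 ⟨c, hc, rfl⟩))
    obtain ⟨s, hsC, hs⟩ : ∃ c ∈ C, Multiplicative.toAdd (χ c) = m := (hH m).2 dvd_rfl
    -- the subgroup generated by `C` and the kernel
    have : NeZero m.natAbs := ⟨Int.natAbs_ne_zero.2 hm0⟩
    let f : A →* Multiplicative (ZMod m.natAbs) := (AddMonoidHom.toMultiplicative (Int.castAddHom (ZMod m.natAbs))).comp χ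
    have hf : ∀ b : A, b ∈ f.ker ↔ m ∣ Multiplicative.toAdd (χ b) := by
      intro b
      rw [MonoidHom.mem_ker]
      have h1 : f b = Multiplicative.ofAdd ((Multiplicative.toAdd (χ b) : ℤ) : ZMod m.natAbs) := rfl
      rw [h1, ofAdd_eq_one, ZMod.intCast_zmod_eq_zero_iff_dvd, Int.natAbs_dvd]
    have hfin : f.ker.FiniteIndex := by
      have : Finite f.range := inferInstance
      exact Subgroup.finiteIndex_ker f
    have hCB : C ≤ f.ker := fun c hc => (hf c).2 ((hH _).1 ⟨c, hc, rfl⟩)
    let χ' : f.ker →* Multiplicative ℤ :=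
      { toFun := fun b => Multiplicative.ofAdd (Multiplicative.toAdd (χ b) / m)
        map_one' := by
          show Multiplicative.ofAdd (Multiplicative.toAdd (χ 1) / m) = 1
          rw [map_one, toAdd_one, Int.zero_ediv, ofAdd_zero]
        map_mul' := fun b c => by
          show Multiplicative.ofAdd (Multiplicative.toAdd (χ (b * c)) / m) =
            Multiplicative.ofAdd (Multiplicative.toAdd (χ b) / m) * Multiplicative.ofAdd (Multiplicative.toAdd (χ c) / m)
          rw [map_mul, toAdd_mul, Int.add_ediv_of_dvd_left ((hf _).1 b.2), ofAdd_add] }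
    have hker : ∀ b : f.ker, b ∈ χ'.ker ↔ (b : A) ∈ χ.ker := by
      intro b
      rw [MonoidHom.mem_ker, MonoidHom.mem_ker]
      have h1 : χ' b = Multiplicative.ofAdd (Multiplicative.toAdd (χ b) / m) := rfl
      rw [h1, ofAdd_eq_one]
      obtain ⟨z, hz⟩ := (hf _).1 b.2
      constructor
      · intro h2
        rw [hz, Int.mul_ediv_cancel_left _ hm0] at h2
        rw [h2, mul_zero] at hz
        exact Multiplicative.toAdd.injective hz
      · intro h2
        rw [h2, toAdd_one, Int.zero_ediv]
    have hle : ∀ b ∈ χ.ker, b ∈ f.ker := by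
      intro b hb
      rw [hf, MonoidHom.mem_ker.1 hb, toAdd_one]
      exact dvd_zero m
    let α : χ.ker ≃* χ'.ker :=
      { toFun := fun b => ⟨⟨b.1, hle _ b.2⟩, (hker _).2 b.2⟩
        invFun := fun b => ⟨b.1.1, (hker _).1 b.2⟩
        left_inv := fun _ => rfl
        right_inv := fun _ => rfl
        map_mul' := fun _ _ => rfl }
    have hG : Gd n χ'.ker := Gd.congr α h
    refine ssp_trans f.ker C hCB (ssp_of_finiteIndex hn hRA f.ker) ?_
    refine ssp_line_core hn hG (C.subgroupOf f.ker) (s := ⟨s, hCB hsC⟩) hsC ?_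
    show Multiplicative.ofAdd (Multiplicative.toAdd (χ s) / m) = Multiplicative.ofAdd 1
    rw [hs, Int.ediv_self hm0]

end ext

end ATY
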