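import Pool.Agent.ATY.Hull
import Pool.Agent.ATY.Perp
import Pool.Agent.ATY.X1

/-!
# Fibres of rational subspaces (row H5, INT)

`X → Q` a map of `G`-sets, `q ∈ Q`, `W ≤ ℓ²(X)` rational over `G`. If the ranks over the stabiliser of `q` are in
`(1/n) ℤ` and induction from the stabiliser of `q` to `G` preserves the largest maxima, then
* `rat_loc_fib`: the part of `W` over `q` is rational over the stabiliser of `q`;
* `rat_im_fib`: the closure of the projection of `W` to the fibre over `q` is rational over the stabiliser of `q`.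
-/

set_option autoImplicit false
set_option linter.unusedSectionVars false

open scoped ComplexConjugate InnerProductSpace
open Filter Topology

namespace ATY
open Singer Pool.WeakAtiyah

section orb
variable {K : Subfield ℂ} {G : Type} [Group G] {X Q : Type} [MulAction G X] [FC G X] [MulAction G Q]

/-- the fibre over a point, one orbit -/
theorem rat_fib_orb {n : ℕ} (hn : 0 < n) {a : X →[G] Q} {q : Q} (ho : ∀ x, a x ∈ MulAction.orbit G q)
    (hR : RanksIn K (MulAction.stabilizer G q) n) (hS : SSP K G (MulAction.stabilizer G q))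
    {W : Submodule ℂ (L2 X)} (hW : Rat K G W) : Rat K (MulAction.stabilizer G q) (loc a q W) := by
  classical
  have hU : Md (MulAction.stabilizer G q) (loc a q W) := hW.md.loc q
  obtain ⟨Z, hZ, lZ, hZU⟩ := exists_induced a q hU
  -- `Z ≤ W`
  have hZW : Z ≤ W := by
    intro f hf
    have h1 : cu {x | a x ∈ (Set.univ : Set Q)} f = f := by
      ext x
      have hx : x ∈ {x | a x ∈ (Set.univ : Set Q)} := trivial
      rw [cu_apply, if_pos hx]
    rw [← h1]
    refine mem_of_pieces a hW.md.cl Set.univ fun q' _ => ?_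
    by_cases hq : q' ∈ MulAction.orbit G q
    · obtain ⟨g, hg⟩ := hq
      have hg' : g • q = q' := hg
      have h2 : cu {x | a x = q'} f ∈ Z := lZ q' f hf
      have h3 : la g⁻¹ (cu {x | a x = q'} f) ∈ Z := hZ.inv _ _ h2
      have h4 : push (fi a q) (fi_inj a q) (pull (fi a q) (fi_inj a q) (la g⁻¹ (cu {x | a x = q'} f))) =
          la g⁻¹ (cu {x | a x = q'} f) := by
        ext x
        by_cases hx : a x = q
        · exact push_apply (fi a q) (fi_inj a q) _ (⟨x, hx⟩ : Fib a q)
        · rw [push_apply_of_notMem]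
          · show (0 : ℂ) = cu {x | a x = q'} f (g⁻¹⁻¹ • x)
            rw [cu_apply, if_neg]
            intro h5
            have h6 : a (g⁻¹⁻¹ • x) = q' := h5
            rw [inv_inv, map_smul, ← hg'] at h6
            exact hx (MulAction.injective g h6)
          · rintro ⟨y, hy⟩
            exact hx (by rw [← hy]; exact y.2)
      have h5 : pull (fi a q) (fi_inj a q) (la g⁻¹ (cu {x | a x = q'} f)) ∈ loc a q Z := by
        rw [mem_loc, h4]
        exact h3
      rw [hZU, mem_loc, h4] at h5
      have h6 := hW.md.inv g _ h5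
      rwa [AA.la_la, mul_inv_cancel, AA.la_one] at h6
    · have h2 : cu {x | a x = q'} f = 0 := by
        ext x
        rw [cu_apply, if_neg]
        · rfl
        · intro h3
          have h4 : a x = q' := h3
          exact hq (h4 ▸ ho x)
      rw [h2]
      exact W.zero_mem
  -- the maxima are in `W`
  have key : ∀ t : ℝ, 0 < t → ∃ V : Submodule ℂ (L2 (Fib a q)), V ≤ loc a q W ∧
      IsTop (MulAction.stabilizer G q) (Rat K (MulAction.stabilizer G q)) t (loc a q W) V := by
    intro t ht
    obtain ⟨Y, hY, lY, hT⟩ := exists_ltop hn ho hR t hZ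
    have hT' := hS X Q a q rfl ho t Z Y hZ lZ hY lY hT
    have hV : Rat K G (Y ⊓ W) := hT'.mem.inf hW
    have h1 := hT'.le _ hV
    have h2 : Z ⊓ (Y ⊓ W) = Z ⊓ Y := by
      rw [← inf_assoc]
      exact inf_eq_left.2 (inf_le_left.trans hZW)
    unfold hf at h1
    rw [h2] at h1
    have h3 : vd G Y ≤ vd G (Y ⊓ W) := by
      have h4 : t * vd G Y ≤ t * vd G (Y ⊓ W) := by linarith
      exact le_of_mul_le_mul_left h4 ht
    have h4 : Y ⊓ W = Y := eq_of_vd_le hV.md hY inf_le_left h3
    have h5 : Y ≤ W := inf_eq_left.1 h4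
    refine ⟨loc a q Y, Submodule.comap_mono h5, ?_⟩
    rw [← hZU]
    exact hT
  -- dimensions
  set u := vd (MulAction.stabilizer G q) (loc a q W) with hu
  set r := vd (MulAction.stabilizer G q) (⊤ : Submodule ℂ (L2 (Fib a q))) with hr
  have hr0 : 0 ≤ r := vd_nonneg _
  have hn' : (0 : ℝ) < n := by exact_mod_cast hn
  set ε : ℝ := u - ((⌈(n : ℝ) * u⌉ : ℝ) - 1) / n with hε
  have hε0 : 0 < ε := by
    have h1 : (⌈(n : ℝ) * u⌉ : ℝ) < n * u + 1 := Int.ceil_lt_add_one _
    have h2 : ((⌈(n : ℝ) * u⌉ : ℝ) - 1) / n < u := by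
      rw [div_lt_iff₀ hn']
      linarith
    linarith
  set t : ℝ := min (1 / 2) (ε / (2 * (r + 1))) with ht
  have hden : 0 < 2 * (r + 1) := by positivity
  have ht0 : 0 < t := lt_min (by norm_num) (by positivity)
  have ht1 : t ≤ 1 / 2 := min_le_left _ _
  have ht2 : t * r < ε := by
    have h1 : t * r ≤ ε / (2 * (r + 1)) * r := mul_le_mul_of_nonneg_right (min_le_right _ _) hr0
    have h2 : ε / (2 * (r + 1)) * r ≤ ε / 2 := by
      rw [div_mul_eq_mul_div, div_le_div_iff₀ hden (by norm_num)]
      nlinarith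
    linarith
  obtain ⟨V, hVU, hV⟩ := key t ht0
  have h1 := hV.le _ rat_top
  unfold hf at h1
  rw [inf_top_eq, inf_eq_right.2 hVU, ← hu, ← hr] at h1
  have hV0 := vd_nonneg (H := MulAction.stabilizer G q) V
  have h2 : u - ε < vd (MulAction.stabilizer G q) V := by nlinarith
  obtain ⟨z, hz⟩ := hV.mem.vd_eq hn hR
  have h3 : (⌈(n : ℝ) * u⌉ : ℝ) - 1 < z := by
    have h4 : u - ε = ((⌈(n : ℝ) * u⌉ : ℝ) - 1) / n := by
      rw [hε]
      ring
    rw [h4, hz] at h2
    exact (div_lt_div_iff_of_pos_right hn').1 h2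
  have h4 : ⌈(n : ℝ) * u⌉ ≤ z := by
    have h5 : ((⌈(n : ℝ) * u⌉ - 1 : ℤ) : ℝ) < (z : ℝ) := by
      push_cast
      exact h3
    have h6 : ⌈(n : ℝ) * u⌉ - 1 < z := by exact_mod_cast h5
    omega
  have h5 : u ≤ vd (MulAction.stabilizer G q) V := by
    rw [hz, le_div_iff₀ hn', mul_comm]
    exact (Int.le_ceil _).trans (by exact_mod_cast h4)
  have h6 : V = loc a q W := eq_of_vd_le hV.mem.md hU hVU h5
  rw [← h6]
  exact hV.mem

/-- the points over one orbit -/
def Ov (a : X →[G] Q) (q : Q) : Type := {x : X // a x ∈ MulAction.orbit G q}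

instance ovAct (a : X →[G] Q) (q : Q) : MulAction G (Ov a q) where
  smul g x := ⟨g • x.1, by
    rw [map_smul]
    exact MulAction.mem_orbit_of_mem_orbit g x.2⟩
  one_smul x := Subtype.ext (one_smul G x.1)
  mul_smul g h x := Subtype.ext (mul_smul g h x.1)

lemma ov_smul (a : X →[G] Q) (q : Q) (g : G) (x : Ov a q) : (g • x).1 = g • x.1 := rfl

instance ovFC (a : X →[G] Q) (q : Q) : FC G (Ov a q) where
  free g x hx := FC.free g x.1 (congrArg Subtype.val hx)
  fin := by
    have := FC.fin (H := G) (X := X)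
    refine Finite.of_injective (fun z : MulAction.orbitRel.Quotient G (Ov a q) => Quotient.map' (s₂ := MulAction.orbitRel G X)
      (fun x : Ov a q => x.1) (fun x y hxy => ?_) z) ?_
    · obtain ⟨g, hg⟩ := (hxy : x ∈ MulAction.orbit G y)
      exact ⟨g, congrArg Subtype.val hg⟩
    · intro z z' h
      induction z using Quotient.inductionOn' with
      | h x =>
        induction z' using Quotient.inductionOn' with
        | h y =>
          refine Quotient.sound' ?_
          obtain ⟨g, hg⟩ := (Quotient.exact' h : x.1 ∈ MulAction.orbit G y.1)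
          exact ⟨g, Subtype.ext hg⟩

/-- the part over one orbit -/
def ova (a : X →[G] Q) (q : Q) : Ov a q →[G] Q := ⟨fun x => a x.1, fun g x => map_smul a g x.1⟩

/-- **the part of a rational subspace over a point is rational over the stabiliser** -/
theorem rat_fib {n : ℕ} (hn : 0 < n) {a : X →[G] Q} {q : Q}
    (hR : RanksIn K (MulAction.stabilizer G q) n) (hS : SSP K G (MulAction.stabilizer G q))
    {W : Submodule ℂ (L2 X)} (hW : Rat K G W) : Rat K (MulAction.stabilizer G q) (loc a q W) := by
  classical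
  let j : Ov a q → X := fun x => x.1
  have hj : Function.Injective j := Subtype.val_injective
  have h1 : Rat K G (W.comap ((push j hj : L2 (Ov a q) →L[ℂ] L2 X) : L2 (Ov a q) →ₗ[ℂ] L2 X)) :=
    hW.comap (kop_push hj fun _ _ => rfl)
  have h2 := rat_fib_orb hn (a := ova a q) (q := q) (fun x => x.2) hR hS h1
  let e : Fib (ova a q) q ≃ Fib a q :=
    { toFun := fun x => ⟨x.1.1, x.2⟩
      invFun := fun x => ⟨⟨x.1, by rw [x.2]; exact MulAction.mem_orbit_self q⟩, x.2⟩
      left_inv := fun _ => rfl
      right_inv := fun _ => rfl }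
  have h3 := h2.equiv (MulEquiv.refl _) e fun _ _ => rfl
  have h4 : (loc (ova a q) q (W.comap ((push j hj : L2 (Ov a q) →L[ℂ] L2 X) : L2 (Ov a q) →ₗ[ℂ] L2 X))).map
      (push e e.injective : L2 (Fib (ova a q) q) →ₗ[ℂ] L2 (Fib a q)) = loc a q W := by
    ext f
    rw [mem_map_push, mem_loc, mem_loc]
    have h5 : (push j hj : L2 (Ov a q) →L[ℂ] L2 X) (push (fi (ova a q) q) (fi_inj _ _) (pull e e.injective f)) =
        push (fi a q) (fi_inj a q) f := by
      ext x
      by_cases hx : a x = q
      · have e1 : (push j hj : L2 (Ov a q) →L[ℂ] L2 X) (push (fi (ova a q) q) (fi_inj _ _) (pull e e.injective f))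
            (j (fi (ova a q) q (e.symm ⟨x, hx⟩))) = pull e e.injective f (e.symm ⟨x, hx⟩) := by
          rw [push_apply j hj]
          exact push_apply (fi (ova a q) q) (fi_inj _ _) _ _
        have e2 : push (fi a q) (fi_inj a q) f (fi a q ⟨x, hx⟩) = f ⟨x, hx⟩ := push_apply _ _ _ _
        exact e1.trans e2.symm
      · rw [push_apply_of_notMem (fi a q) (fi_inj a q) f]
        · by_cases hx' : x ∈ Set.range j
          · obtain ⟨y, rfl⟩ := hx'
            rw [push_apply j hj, push_apply_of_notMem]
            rintro ⟨z, hz⟩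
            exact hx (by rw [← hz]; exact z.2)
          · rw [push_apply_of_notMem j hj _ hx']
        · rintro ⟨z, hz⟩
          exact hx (by rw [← hz]; exact z.2)
    rw [← h5]
    rfl
  rw [h4] at h3
  exact h3

end orb

section proj
variable {G : Type} [Group G] {X Q : Type} [MulAction G X] [FC G X] [MulAction G Q]

/-- the orthogonal complement of the projection to the fibre -/
lemma orth_im_fib (a : X →[G] Q) (q : Q) (W : Submodule ℂ (L2 X)) :
    (im (pull (fi a q) (fi_inj a q)) W)ᗮ = loc a q Wᗮ := by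
  ext f
  rw [mem_loc, Submodule.mem_orthogonal, Submodule.mem_orthogonal]
  have h0 : ∀ u : L2 X, ⟪u, push (fi a q) (fi_inj a q) f⟫_ℂ = ⟪pull (fi a q) (fi_inj a q) u, f⟫_ℂ := fun u =>
    (AA.inner_pull _ _ _ _).symm
  constructor
  · intro h u hu
    rw [h0]
    exact h _ (map_le_im (Submodule.mem_map_of_mem hu))
  · intro h
    have h1 : im (pull (fi a q) (fi_inj a q)) W ≤ (Submodule.span ℂ {f})ᗮ := by
      refine im_le (Submodule.isClosed_orthogonal _) ?_
      intro v hv
      rw [Submodule.mem_orthogonal_singleton_iff_inner_left, ← h0]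
      exact h v hv
    intro u hu
    have h2 := h1 hu
    rwa [Submodule.mem_orthogonal_singleton_iff_inner_left] at h2

/-- **the closure of the projection of a rational subspace to a fibre is rational over the stabiliser** -/
theorem rat_proj {n : ℕ} (hn : 0 < n) {a : X →[G] Q} {q : Q}
    (hR : RanksIn ⊤ (MulAction.stabilizer G q) n) (hS : SSP ⊤ G (MulAction.stabilizer G q))
    {W : Submodule ℂ (L2 X)} (hW : Rat ⊤ G W) :
    Rat ⊤ (MulAction.stabilizer G q) (im (pull (fi a q) (fi_inj a q)) W) := by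
  have h1 := (rat_fib hn (a := a) hR hS hW.perp).perp
  rw [← orth_im_fib] at h1
  have h2 : (im (pull (fi a q) (fi_inj a q)) W)ᗮᗮ = im (pull (fi a q) (fi_inj a q)) W := by
    have : CompleteSpace (im (pull (fi a q) (fi_inj a q)) W) :=
      (isClosed_im (T := (pull (fi a q) (fi_inj a q) : L2 X →L[ℂ] L2 (Fib a q))) (W := W)).completeSpace_coe
    exact Submodule.orthogonal_orthogonal _
  rw [h2] at h1
  exact h1

/-- row H5: the part over a point -/
theorem rat_loc_fib {n : ℕ} (hn : 0 < n) {G X P : Type} [Group G] [MulAction G X] [FC G X] [MulAction G P]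
    (a : X →[G] P) (p : P) (hR : RanksIn ⊤ G n) (hS : SSP ⊤ G (MulAction.stabilizer G p)) {W : Submodule ℂ (L2 X)}
    (hW : Rat ⊤ G W) : Rat ⊤ (MulAction.stabilizer G p) (loc a p W) :=
  rat_fib hn (ranksIn_of_injective (MulAction.stabilizer G p).subtype Subtype.val_injective hR) hS hW

/-- row H5: the projection to the fibre over a point -/
theorem rat_im_fib {n : ℕ} (hn : 0 < n) {G X P : Type} [Group G] [MulAction G X] [FC G X] [MulAction G P]
    (a : X →[G] P) (p : P) (hR : RanksIn ⊤ G n) (hS : SSP ⊤ G (MulAction.stabilizer G p)) {W : Submodule ℂ (L2 X)}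
    (hW : Rat ⊤ G W) : Rat ⊤ (MulAction.stabilizer G p) (im (pull (fi a p) (fi_inj a p)) W) :=
  rat_proj hn (ranksIn_of_injective (MulAction.stabilizer G p).subtype Subtype.val_injective hR) hS hW

end proj

end ATY
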