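import Pool.Agent.ATY.HDec
import Pool.Agent.ATY.HDefs
import Pool.Agent.ATY.CPhi
import Pool.Agent.ATY.Hat

/-!
# Tools for the double pairing (row H6)

* `rh M a`: the unitary `(ν, x) ↦ (ν t, x)` of `ℓ²(HX Q X)`, `t` the letter with the number `M` of the point `a x`;
* `dblG ρ S`: the pairs of elements of `S` over `x` and `ρ x`; `im_pl_dblG`: density;
* `jn κ G S`: fibre products; `im_pl_jn`: density.
-/

set_option autoImplicit false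
set_option linter.unusedSectionVars false

open scoped ComplexConjugate InnerProductSpace
open Filter Topology

namespace ATY
open Singer Singer.HT Pool.WeakAtiyah

namespace Hank

section rho
variable {A Q X : Type} [Group A] [MulAction A Q] [MulAction A X]

/-- multiplication by the letter of the point -/
noncomputable def rhE (M : ℤ) (a : X → Q) : HX Q X ≃ HX Q X where
  toFun p := hp (p.1 * FreeGroup.of (a p.2, M)) p.2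
  invFun p := hp (p.1 * (FreeGroup.of (a p.2, M))⁻¹) p.2
  left_inv p := Prod.ext (mul_inv_cancel_right p.1 (FreeGroup.of (a p.2, M))) rfl
  right_inv p := Prod.ext (inv_mul_cancel_right p.1 (FreeGroup.of (a p.2, M))) rfl

lemma rhE_smul (M : ℤ) (a : X →[A] Q) (g : Psi A Q) (p : HX Q X) : rhE M a (g • p) = g • rhE M a p := by
  refine Prod.ext ?_ rfl
  show g.left * phiA A Q g.right p.1 * FreeGroup.of (a (g.right • p.2), M) =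
    g.left * phiA A Q g.right (p.1 * FreeGroup.of (a p.2, M))
  rw [map_mul, phiA_of, map_smul, mul_assoc]

/-- the unitary -/
noncomputable def rh (M : ℤ) (a : X → Q) : L2 (HX Q X) →L[ℂ] L2 (HX Q X) := push (rhE M a) (rhE M a).injective

lemma kop_rh (M : ℤ) (a : X →[A] Q) : KOp ⊤ (Psi A Q) (rh M a) := kop_push _ (rhE_smul M a)

lemma inner_rh (M : ℤ) (a : X → Q) (f g : L2 (HX Q X)) : ⟪rh M a f, rh M a g⟫_ℂ = ⟪f, g⟫_ℂ := by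
  unfold rh
  rw [AA.inner_push, pull_push]

lemma cu_rh (M : ℤ) (a : X → Q) (S : Set (HX Q X)) (f : L2 (HX Q X)) :
    cu S (rh M a f) = rh M a (cu (rhE M a ⁻¹' S) f) := (push_cu (rhE M a).injective S f).symm

lemma rh_mem_hat (M : ℤ) (a : X →[A] Q) {W : Submodule ℂ (L2 X)} (hW : IsClosed (W : Set (L2 X))) (lW : Loc a W)
    {f : L2 (HX Q X)} (hf : f ∈ hat Q W) : rh M a f ∈ hat Q W := by
  rw [mem_hat] at hf ⊢
  intro ν
  refine UU.mem_of_fib a hW _ fun q => ?_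
  have h1 : cu {x | a x = q} (sl ν (rh M a f)) = cu {x | a x = q} (sl (ν * (FreeGroup.of (q, M))⁻¹) f) := by
    ext x
    rw [cu_apply, cu_apply]
    by_cases hx : x ∈ {x | a x = q}
    · rw [if_pos hx, if_pos hx, sl_apply, sl_apply]
      have hx' : a x = q := hx
      have h2 : rh M a f (hp ν x) = f ((rhE M a).symm (hp ν x)) := push_equiv_apply _ _ _
      rw [h2]
      show f (hp (ν * (FreeGroup.of (a x, M))⁻¹) x) = _
      rw [hx']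
    · rw [if_neg hx, if_neg hx]
  rw [h1]
  exact lW q _ (hf _)

lemma loc_orth {a : X →[A] Q} {W : Submodule ℂ (L2 X)} (lW : Loc a W) : Loc a Wᗮ := by
  intro q f hf
  rw [Submodule.mem_orthogonal] at hf ⊢
  intro w hw
  rw [inner_cu]
  exact hf _ (lW q w hw)

lemma rh_mem_hat_orth (M : ℤ) (a : X →[A] Q) {W : Submodule ℂ (L2 X)} (lW : Loc a W)
    {f : L2 (HX Q X)} (hf : f ∈ (hat Q W)ᗮ) : rh M a f ∈ (hat Q W)ᗮ := by
  have h1 : ∀ u : L2 (HX Q X), u ∈ (hat Q W)ᗮ ↔ u ∈ hat Q Wᗮ := fun u =>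
    HA.mem_hat_orthogonal.trans mem_hat.symm
  rw [h1] at hf ⊢
  exact rh_mem_hat M a (Submodule.isClosed_orthogonal _) (loc_orth lW) hf

end rho

section dbl
variable {H X E : Type} [Group H] [MulAction H X] [MulAction H E]

/-- `(x, (e, e')) ↦ (x, e)` -/
noncomputable def t1 (X E : Type) : L2 (X ⊕ (E ⊕ E)) →L[ℂ] L2 (X ⊕ E) :=
  (il X E).comp (pl X (E ⊕ E)) + (ir X E).comp ((pl E E).comp (pr X (E ⊕ E)))

/-- `(x, (e, e')) ↦ (ρ x, e')` -/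
noncomputable def t2 (E : Type) (ρ : L2 X →L[ℂ] L2 X) : L2 (X ⊕ (E ⊕ E)) →L[ℂ] L2 (X ⊕ E) :=
  (il X E).comp (ρ.comp (pl X (E ⊕ E))) + (ir X E).comp ((pr E E).comp (pr X (E ⊕ E)))

lemma t1_apply (u : L2 (X ⊕ (E ⊕ E))) : t1 X E u = il X E (pl X (E ⊕ E) u) + ir X E (pl E E (pr X (E ⊕ E) u)) := rfl

lemma t2_apply (ρ : L2 X →L[ℂ] L2 X) (u : L2 (X ⊕ (E ⊕ E))) :
    t2 E ρ u = il X E (ρ (pl X (E ⊕ E) u)) + ir X E (pr E E (pr X (E ⊕ E) u)) := rfl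

lemma pl_t1 (u : L2 (X ⊕ (E ⊕ E))) : pl X E (t1 X E u) = pl X (E ⊕ E) u := by
  rw [t1_apply, map_add, pl_il, pl_ir, add_zero]

lemma pr_t1 (u : L2 (X ⊕ (E ⊕ E))) : pr X E (t1 X E u) = pl E E (pr X (E ⊕ E) u) := by
  rw [t1_apply, map_add, pr_il, pr_ir, zero_add]

lemma pl_t2 (ρ : L2 X →L[ℂ] L2 X) (u : L2 (X ⊕ (E ⊕ E))) : pl X E (t2 E ρ u) = ρ (pl X (E ⊕ E) u) := by
  rw [t2_apply, map_add, pl_il, pl_ir, add_zero]

lemma pr_t2 (ρ : L2 X →L[ℂ] L2 X) (u : L2 (X ⊕ (E ⊕ E))) : pr X E (t2 E ρ u) = pr E E (pr X (E ⊕ E) u) := by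
  rw [t2_apply, map_add, pr_il, pr_ir, zero_add]

lemma kop_t1 : KOp ⊤ H (t1 X E) := (kop_il.comp kop_pl).add (kop_ir.comp (kop_pl.comp kop_pr))

lemma kop_t2 {ρ : L2 X →L[ℂ] L2 X} (hρ : KOp ⊤ H ρ) : KOp ⊤ H (t2 E ρ) :=
  (kop_il.comp (hρ.comp kop_pl)).add (kop_ir.comp (kop_pr.comp kop_pr))

/-- the triples `(x, e, e')` with `(x, e) ∈ S`, `(ρ x, e') ∈ S` -/
noncomputable def dblG (ρ : L2 X →L[ℂ] L2 X) (S : Submodule ℂ (L2 (X ⊕ E))) : Submodule ℂ (L2 (X ⊕ (E ⊕ E))) :=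
  S.comap (t1 X E : L2 (X ⊕ (E ⊕ E)) →ₗ[ℂ] L2 (X ⊕ E)) ⊓ S.comap (t2 E ρ : L2 (X ⊕ (E ⊕ E)) →ₗ[ℂ] L2 (X ⊕ E))

lemma mem_dblG {ρ : L2 X →L[ℂ] L2 X} {S : Submodule ℂ (L2 (X ⊕ E))} {u : L2 (X ⊕ (E ⊕ E))} :
    u ∈ dblG ρ S ↔ t1 X E u ∈ S ∧ t2 E ρ u ∈ S := Iff.rfl

variable [FC H X] [FC H E]

lemma rat_dblG {ρ : L2 X →L[ℂ] L2 X} (hρ : KOp ⊤ H ρ) {S : Submodule ℂ (L2 (X ⊕ E))} (hS : Rat ⊤ H S) :
    Rat ⊤ H (dblG ρ S) := (hS.comap kop_t1).inf (hS.comap (kop_t2 hρ))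

/-- the first components of the triples are dense -/
theorem im_pl_dblG {ρ : L2 X →L[ℂ] L2 X} (hρ : KOp ⊤ H ρ) {S : Submodule ℂ (L2 (X ⊕ E))} (hS : Md H S)
    {W : Submodule ℂ (L2 X)} (hW : im (pl X E) S = W) (hρW : ∀ f ∈ W, ρ f ∈ W) : im (pl X (E ⊕ E)) (dblG ρ S) = W := by
  have hWc : IsClosed (W : Set (L2 X)) := by
    rw [← hW]
    exact isClosed_im
  apply le_antisymm
  · refine im_le hWc fun u hu => ?_
    show pl X (E ⊕ E) u ∈ W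
    rw [← pl_t1, ← hW]
    exact map_le_im (Submodule.mem_map_of_mem (mem_dblG.1 hu).1)
  · have h1 := dense_pullback (H := H) (S := ρ.comp (pl X E)) (T := pl X E) (hρ.comp (kop_pl (K := ⊤) (H := H))).equi
      (kop_pl (K := ⊤) (H := H)).equi (V := S) hS (W := S) hS (by
        rintro _ ⟨σ, hσ, rfl⟩
        rw [hW]
        refine hρW _ ?_
        rw [← hW]
        exact map_le_im (Submodule.mem_map_of_mem hσ))
    rw [← hW]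
    conv_lhs => rw [← h1]
    rw [im_closure]
    refine im_le isClosed_im fun σ hσ => ?_
    obtain ⟨hσS, τ, hτ, hτσ⟩ := hσ
    have h2 : pl X E τ = ρ (pl X E σ) := hτσ
    set u : L2 (X ⊕ (E ⊕ E)) := il X (E ⊕ E) (pl X E σ) + ir X (E ⊕ E) (il E E (pr X E σ) + ir E E (pr X E τ)) with hu
    have e1 : pl X (E ⊕ E) u = pl X E σ := by rw [hu, map_add, pl_il, pl_ir, add_zero]
    have e2 : pr X (E ⊕ E) u = il E E (pr X E σ) + ir E E (pr X E τ) := by rw [hu, map_add, pr_il, pr_ir, zero_add]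
    have e3 : t1 X E u = σ := by
      rw [t1_apply, e1, e2, map_add, pl_il, pl_ir, add_zero]
      exact il_add_ir σ
    have e4 : t2 E ρ u = τ := by
      rw [t2_apply, e1, e2, map_add, pr_il, pr_ir, zero_add, ← h2]
      exact il_add_ir τ
    have h3 : u ∈ dblG ρ S := mem_dblG.2 ⟨by rw [e3]; exact hσS, by rw [e4]; exact hτ⟩
    have h4 := map_le_im (T := pl X (E ⊕ E)) (Submodule.mem_map_of_mem h3)
    have h5 : pl X (E ⊕ E) u ∈ im (pl X (E ⊕ E)) (dblG ρ S) := h4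
    rwa [e1] at h5

end dbl

section jn
variable {H X Z F : Type} [Group H] [MulAction H X] [MulAction H Z] [MulAction H F]

/-- `(x, (z, f)) ↦ (x, z)` -/
noncomputable def j1 (X Z F : Type) : L2 (X ⊕ (Z ⊕ F)) →L[ℂ] L2 (X ⊕ Z) :=
  (il X Z).comp (pl X (Z ⊕ F)) + (ir X Z).comp ((pl Z F).comp (pr X (Z ⊕ F)))

/-- `(x, (z, f)) ↦ (κ (x, z), f)` -/
noncomputable def j2 (F : Type) (κ : L2 (X ⊕ Z) →L[ℂ] L2 Z) : L2 (X ⊕ (Z ⊕ F)) →L[ℂ] L2 (Z ⊕ F) :=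
  (il Z F).comp (κ.comp (j1 X Z F)) + (ir Z F).comp ((pr Z F).comp (pr X (Z ⊕ F)))

/-- `(x, (z, f)) ↦ (x, f)` -/
noncomputable def j3 (X Z F : Type) : L2 (X ⊕ (Z ⊕ F)) →L[ℂ] L2 (X ⊕ F) :=
  (il X F).comp (pl X (Z ⊕ F)) + (ir X F).comp ((pr Z F).comp (pr X (Z ⊕ F)))

lemma j1_apply (u : L2 (X ⊕ (Z ⊕ F))) : j1 X Z F u = il X Z (pl X (Z ⊕ F) u) + ir X Z (pl Z F (pr X (Z ⊕ F) u)) := rfl

lemma j2_apply (κ : L2 (X ⊕ Z) →L[ℂ] L2 Z) (u : L2 (X ⊕ (Z ⊕ F))) :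
    j2 F κ u = il Z F (κ (j1 X Z F u)) + ir Z F (pr Z F (pr X (Z ⊕ F) u)) := rfl

lemma j3_apply (u : L2 (X ⊕ (Z ⊕ F))) : j3 X Z F u = il X F (pl X (Z ⊕ F) u) + ir X F (pr Z F (pr X (Z ⊕ F) u)) := rfl

lemma pl_j1 (u : L2 (X ⊕ (Z ⊕ F))) : pl X Z (j1 X Z F u) = pl X (Z ⊕ F) u := by
  rw [j1_apply, map_add, pl_il, pl_ir, add_zero]

lemma pr_j1 (u : L2 (X ⊕ (Z ⊕ F))) : pr X Z (j1 X Z F u) = pl Z F (pr X (Z ⊕ F) u) := by
  rw [j1_apply, map_add, pr_il, pr_ir, zero_add]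

lemma pl_j2 (κ : L2 (X ⊕ Z) →L[ℂ] L2 Z) (u : L2 (X ⊕ (Z ⊕ F))) : pl Z F (j2 F κ u) = κ (j1 X Z F u) := by
  rw [j2_apply, map_add, pl_il, pl_ir, add_zero]

lemma pr_j2 (κ : L2 (X ⊕ Z) →L[ℂ] L2 Z) (u : L2 (X ⊕ (Z ⊕ F))) : pr Z F (j2 F κ u) = pr Z F (pr X (Z ⊕ F) u) := by
  rw [j2_apply, map_add, pr_il, pr_ir, zero_add]

lemma pl_j3 (u : L2 (X ⊕ (Z ⊕ F))) : pl X F (j3 X Z F u) = pl X (Z ⊕ F) u := by
  rw [j3_apply, map_add, pl_il, pl_ir, add_zero]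

lemma pr_j3 (u : L2 (X ⊕ (Z ⊕ F))) : pr X F (j3 X Z F u) = pr Z F (pr X (Z ⊕ F) u) := by
  rw [j3_apply, map_add, pr_il, pr_ir, zero_add]

lemma kop_j1 : KOp ⊤ H (j1 X Z F) := (kop_il.comp kop_pl).add (kop_ir.comp (kop_pl.comp kop_pr))

lemma kop_j2 {κ : L2 (X ⊕ Z) →L[ℂ] L2 Z} (hκ : KOp ⊤ H κ) : KOp ⊤ H (j2 F κ) :=
  (kop_il.comp (hκ.comp kop_j1)).add (kop_ir.comp (kop_pr.comp kop_pr))

lemma kop_j3 : KOp ⊤ H (j3 X Z F) := (kop_il.comp kop_pl).add (kop_ir.comp (kop_pr.comp kop_pr))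

/-- the elements `(x, (z, f))` with `(x, z) ∈ G`, `(κ (x, z), f) ∈ S` -/
noncomputable def jn (κ : L2 (X ⊕ Z) →L[ℂ] L2 Z) (G : Submodule ℂ (L2 (X ⊕ Z))) (S : Submodule ℂ (L2 (Z ⊕ F))) :
    Submodule ℂ (L2 (X ⊕ (Z ⊕ F))) :=
  G.comap (j1 X Z F : L2 (X ⊕ (Z ⊕ F)) →ₗ[ℂ] L2 (X ⊕ Z)) ⊓ S.comap (j2 F κ : L2 (X ⊕ (Z ⊕ F)) →ₗ[ℂ] L2 (Z ⊕ F))

lemma mem_jn {κ : L2 (X ⊕ Z) →L[ℂ] L2 Z} {G : Submodule ℂ (L2 (X ⊕ Z))} {S : Submodule ℂ (L2 (Z ⊕ F))}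
    {u : L2 (X ⊕ (Z ⊕ F))} : u ∈ jn κ G S ↔ j1 X Z F u ∈ G ∧ j2 F κ u ∈ S := Iff.rfl

variable [FC H X] [FC H Z] [FC H F]

lemma rat_jn {κ : L2 (X ⊕ Z) →L[ℂ] L2 Z} (hκ : KOp ⊤ H κ) {G : Submodule ℂ (L2 (X ⊕ Z))} (hG : Rat ⊤ H G)
    {S : Submodule ℂ (L2 (Z ⊕ F))} (hS : Rat ⊤ H S) : Rat ⊤ H (jn κ G S) :=
  (hG.comap kop_j1).inf (hS.comap (kop_j2 hκ))

/-- the first components are dense -/
theorem im_pl_jn {κ : L2 (X ⊕ Z) →L[ℂ] L2 Z} (hκ : KOp ⊤ H κ) {G : Submodule ℂ (L2 (X ⊕ Z))} (hG : Md H G)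
    {S : Submodule ℂ (L2 (Z ⊕ F))} (hS : Md H S) (h : ∀ σ ∈ G, κ σ ∈ im (pl Z F) S) :
    im (pl X F) (im (j3 X Z F) (jn κ G S)) = im (pl X Z) G := by
  apply le_antisymm
  · refine im_le isClosed_im ?_
    intro w hw
    have h1 : im (j3 X Z F) (jn κ G S) ≤ (im (pl X Z) G).comap (pl X F : L2 (X ⊕ F) →ₗ[ℂ] L2 X) := by
      refine im_le (isClosed_im.preimage (pl X F).continuous) fun u hu => ?_
      have h2 : pl X F (j3 X Z F u) ∈ im (pl X Z) G := by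
        rw [pl_j3, ← pl_j1]
        exact map_le_im (Submodule.mem_map_of_mem (mem_jn.1 hu).1)
      exact h2
    exact h1 hw
  · have h1 := dense_pullback (H := H) (S := κ) (T := pl Z F) hκ.equi (kop_pl (K := ⊤) (H := H)).equi (V := G) hG
      (W := S) hS (by
        rintro _ ⟨σ, hσ, rfl⟩
        exact h σ hσ)
    conv_lhs => rw [← h1]
    rw [im_closure]
    refine im_le isClosed_im fun σ hσ => ?_
    obtain ⟨hσG, τ, hτ, hτσ⟩ := hσ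
    have h2 : pl Z F τ = κ σ := hτσ
    set u : L2 (X ⊕ (Z ⊕ F)) := il X (Z ⊕ F) (pl X Z σ) + ir X (Z ⊕ F) (il Z F (pr X Z σ) + ir Z F (pr Z F τ)) with hu
    have e1 : pl X (Z ⊕ F) u = pl X Z σ := by rw [hu, map_add, pl_il, pl_ir, add_zero]
    have e2 : pr X (Z ⊕ F) u = il Z F (pr X Z σ) + ir Z F (pr Z F τ) := by rw [hu, map_add, pr_il, pr_ir, zero_add]
    have e3 : j1 X Z F u = σ := by
      rw [j1_apply, e1, e2, map_add, pl_il, pl_ir, add_zero]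
      exact il_add_ir σ
    have e4 : j2 F κ u = τ := by
      rw [j2_apply, e3, e2, map_add, pr_il, pr_ir, zero_add, ← h2]
      exact il_add_ir τ
    have h3 : u ∈ jn κ G S := mem_jn.2 ⟨by rw [e3]; exact hσG, by rw [e4]; exact hτ⟩
    have h4 : j3 X Z F u ∈ im (j3 X Z F) (jn κ G S) := map_le_im (Submodule.mem_map_of_mem h3)
    have h5 : pl X F (j3 X Z F u) ∈ im (pl X F) (im (j3 X Z F) (jn κ G S)) := map_le_im (Submodule.mem_map_of_mem h4)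
    rwa [pl_j3, e1] at h5

end jn

end Hank

end ATY
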