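import Pool.Agent.ATY.H3
import Pool.Agent.ATY.H4
import Pool.Agent.ATY.H6a

/-!
# The double pairing (row H6)

`exists_hank`: for a decomposed module `Y` with `hat Q Y` rational over `Psi A Q` there are rational `S₁`, `S₂` with dense
projections to `hat Q Y` and its complement such that the part of the second components over the dart `d` and over the point
`b` of `FreeGroup (Q × ℤ) × Q` computes the pairing of the parts of the first components over `b` and the half tree of `d`.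
-/

set_option autoImplicit false
set_option linter.unusedSectionVars false

open scoped ComplexConjugate InnerProductSpace
open Filter Topology

namespace ATY
open Singer Singer.HT Pool.WeakAtiyah

namespace Hank
open Sys

/-- the whole set as a fibre over the point -/
lemma rat_punit {H X : Type} [Group H] [MulAction H X] [FC H X] (a : X →[H] PUnit.{1}) (q : PUnit.{1}) {W : Submodule ℂ (L2 X)}
    (hW : Rat ⊤ H W) : Rat ⊤ (MulAction.stabilizer H q) (loc a q W) := by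
  let α : H ≃* MulAction.stabilizer H q :=
    { toFun := fun g => ⟨g, rfl⟩
      invFun := fun g => g.1
      left_inv := fun _ => rfl
      right_inv := fun _ => rfl
      map_mul' := fun _ _ => rfl }
  let e : X ≃ Fib a q :=
    { toFun := fun x => ⟨x, rfl⟩
      invFun := fun x => x.1
      left_inv := fun _ => rfl
      right_inv := fun _ => rfl }
  have h1 := hW.equiv α e fun _ _ => rfl
  have h2 : W.map (push e e.injective : L2 X →ₗ[ℂ] L2 (Fib a q)) = loc a q W := by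
    ext f
    rw [mem_map_push, mem_loc]
    have h3 : push (fi a q) (fi_inj a q) f = pull e e.injective f := by
      ext x
      exact push_apply (fi a q) (fi_inj a q) f ⟨x, rfl⟩
    rw [h3]
  rwa [h2] at h1

section one
variable {A V Q X : Type} [Group A] [MulAction A V] {T : SimpleGraph V} [MulAction A Q] [MulAction A X] [FC A X]

/-- part (i): the half trees of `T` -/
theorem hank_one (hT : T.IsTree) (hA : ∀ (g : A) (v w : V), T.Adj v w → T.Adj (g • v) (g • w)) (δ : X →[A] V)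
    {Y : Submodule ℂ (L2 X)} (h : Rat ⊤ (Psi A Q) (hat Q Y)) :
    ∃ (E : Type) (_ : MulAction (Psi A Q) E) (_ : FC (Psi A Q) E) (gE : E →[Psi A Q] VL V × VL V)
      (tE : E →[Psi A Q] NU Q) (D : Set (NU Q × NU Q)) (S₁ S₂ : Submodule ℂ (L2 (HX Q X ⊕ E))), D.Finite ∧
      Rat ⊤ (Psi A Q) S₁ ∧ Rat ⊤ (Psi A Q) S₂ ∧ im (pl (HX Q X) E) S₁ = hat Q Y ∧ im (pl (HX Q X) E) S₂ = (hat Q Y)ᗮ ∧
      (∀ e, T.Adj (gE e).1 (gE e).2) ∧
      ∀ (d : VL V × VL V) (S' : Set (NU Q)), (∀ (g : Psi A Q), ∀ p ∈ D, (g • p.1 ∈ S' ↔ g • p.2 ∈ S')) →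
        ∀ σ ∈ S₁, ∀ τ ∈ S₂, ⟪cu {e | gE e = d ∧ tE e ∈ S'} (pr (HX Q X) E σ), pr (HX Q X) E τ⟫_ℂ =
          ⟪cu {x : HX Q X | δ x.2 ∈ hlf T d ∧ (hp x.1 PUnit.unit : NU Q) ∈ S'} (pl (HX Q X) E σ), pl (HX Q X) E τ⟫_ℂ := by
  classical
  let a0 : HX Q X →[Psi A Q] PUnit.{1} := ⟨fun _ => PUnit.unit, fun _ _ => rfl⟩
  let p0 : HX Q X →[Psi A Q] VL V × NU Q := ⟨fun x => (δ x.2, hp x.1 PUnit.unit), fun g x => by
    refine Prod.ext ?_ rfl
    exact map_smul δ g.right x.2⟩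
  let R0 : VL V × VL V → Set (VL V × NU Q) := fun d => {p | p.1 ∈ hlf T d}
  obtain ⟨v₀⟩ := hT.connected.nonempty
  have : Nonempty (VL V × NU Q) := ⟨(v₀, hp 1 PUnit.unit)⟩
  obtain ⟨E, instE, fcE, g, t, D, S₁, S₂, hD, hS₁, hS₂, h1, h2, h3, h4⟩ := exists_sys (H := Psi A Q) a0 p0 R0
    (fun g d x => hlf_smul hA g.right d x.1) (fun x y => hlf_fin hT x.1 y.1) h.md
    (fun q f hf => by
      have h5 : cu {x | a0 x = q} f = f := by
        ext x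
        have hx : x ∈ {x | a0 x = q} := rfl
        rw [cu_apply, if_pos hx]
      rw [h5]
      exact hf) (fun q => rat_punit a0 q h)
  refine ⟨E, instE, fcE, ⟨fun e => (g e).2, fun x e => congrArg Prod.snd (map_smul g x e)⟩,
    ⟨fun e => (t e).2, fun x e => congrArg Prod.snd (map_smul t x e)⟩, (fun p => (p.1.2, p.2.2)) '' D, S₁, S₂,
    hD.image _, hS₁, hS₂, h1, h2, ?_, ?_⟩
  · intro e
    obtain ⟨x, y, hxy⟩ := h3 e
    by_contra hc
    refine hxy ⟨fun hx => absurd hx.1 hc, fun hy => absurd hy.1 hc⟩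
  · intro d S' hS' σ hσ τ hτ
    have h5 := h4 PUnit.unit d {p | p.2 ∈ S'} (fun x p hp => hS' x (p.1.2, p.2.2) ⟨p, hp, rfl⟩) σ hσ τ hτ
    have e1 : {f | g f = (PUnit.unit, d) ∧ t f ∈ {p : VL V × NU Q | p.2 ∈ S'}} = {e | (g e).2 = d ∧ (t e).2 ∈ S'} := by
      ext e
      constructor
      · rintro ⟨e1, e2⟩
        exact ⟨congrArg Prod.snd e1, e2⟩
      · rintro ⟨e1, e2⟩
        exact ⟨Prod.ext rfl e1, e2⟩
    have e2 : {x | a0 x = PUnit.unit ∧ p0 x ∈ R0 d ∧ p0 x ∈ {p : VL V × NU Q | p.2 ∈ S'}} =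
        {x : HX Q X | δ x.2 ∈ hlf T d ∧ (hp x.1 PUnit.unit : NU Q) ∈ S'} := by
      ext x
      constructor
      · rintro ⟨-, e2, e3⟩
        exact ⟨e2, e3⟩
      · rintro ⟨e2, e3⟩
        exact ⟨rfl, e2, e3⟩
    rw [e1, e2] at h5
    exact h5

end one

section neg
variable {H X E D Pos : Type} [Group H] [MulAction H X] [MulAction H E] [MulAction H D] [MulAction H Pos]

/-- `(e, e') ↦ (-e, e')` -/
noncomputable def ng (E : Type) : L2 (E ⊕ E) →L[ℂ] L2 (E ⊕ E) := (ir E E).comp (pr E E) - (il E E).comp (pl E E)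

lemma ng_apply (z : L2 (E ⊕ E)) : ng E z = ir E E (pr E E z) - il E E (pl E E z) := rfl

lemma kop_ng : KOp ⊤ H (ng E) := (kop_ir.comp kop_pr).sub (kop_il.comp kop_pl)

lemma inner_split (z w : L2 (E ⊕ E)) : ⟪z, w⟫_ℂ = ⟪pl E E z, pl E E w⟫_ℂ + ⟪pr E E z, pr E E w⟫_ℂ := by
  conv_lhs => rw [← il_add_ir w]
  rw [inner_add_right]
  congr 1
  · exact (AA.inner_pull _ _ _ _).symm
  · exact (AA.inner_pull _ _ _ _).symm

lemma inner_ng (g : E →[H] D) (t : E →[H] Pos) (d : D) (S' : Set Pos) (z w : L2 (E ⊕ E)) :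
    ⟪cu {y | sumMap g g y = d ∧ sumMap t t y ∈ S'} z, ng E w⟫_ℂ =
      ⟪cu {e | g e = d ∧ t e ∈ S'} (pr E E z), pr E E w⟫_ℂ - ⟪cu {e | g e = d ∧ t e ∈ S'} (pl E E z), pl E E w⟫_ℂ := by
  classical
  have e1 : pl E E (cu {y | sumMap g g y = d ∧ sumMap t t y ∈ S'} z) = cu {e | g e = d ∧ t e ∈ S'} (pl E E z) := by
    ext e
    show cu {y | sumMap g g y = d ∧ sumMap t t y ∈ S'} z (Sum.inl e) = _
    rw [cu_apply, cu_apply]
    rfl
  have e2 : pr E E (cu {y | sumMap g g y = d ∧ sumMap t t y ∈ S'} z) = cu {e | g e = d ∧ t e ∈ S'} (pr E E z) := by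
    ext e
    show cu {y | sumMap g g y = d ∧ sumMap t t y ∈ S'} z (Sum.inr e) = _
    rw [cu_apply, cu_apply]
    rfl
  rw [inner_split, e1, e2, ng_apply, map_sub, map_sub, pl_ir, pl_il, pr_ir, pr_il, zero_sub, sub_zero, inner_neg_right]
  ring

end neg

/-- row H6. (HANK) -/
theorem _root_.ATY.exists_hank {n : ℕ} (hn : 0 < n) {A V Q X : Type} [Group A] [MulAction A V] {T : SimpleGraph V}
    (hT : T.IsTree)
    (hA : ∀ (g : A) (v w : V), T.Adj v w → T.Adj (g • v) (g • w)) [MulAction A Q] [MulAction A X] [FC A X]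
    (a : X →[A] Q) (δ : X →[A] V) (hR : RanksIn ⊤ (Psi A Q) n)
    (hS : ∀ v w : V, T.Adj v w → SSP ⊤ (Psi A Q) (MulAction.stabilizer (Psi A Q) ((v, w) : VL V × VL V)))
    {Y : Submodule ℂ (L2 X)} (hY : Md A Y) (lY : Loc a Y) (h : Rat ⊤ (Psi A Q) (hat Q Y)) :
    ∃ (F : Type) (_ : MulAction (Psi A Q) F) (_ : FC (Psi A Q) F) (g : F →[Psi A Q] (VL V × VL V) × HX Q Q)
      (S₁ S₂ : Submodule ℂ (L2 (HX Q X ⊕ F))), Rat ⊤ (Psi A Q) S₁ ∧ Rat ⊤ (Psi A Q) S₂ ∧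
      im (pl (HX Q X) F) S₁ = hat Q Y ∧ im (pl (HX Q X) F) S₂ = (hat Q Y)ᗮ ∧
      ∀ (d : VL V × VL V) (b : HX Q Q), ∀ σ ∈ S₁, ∀ τ ∈ S₂,
        ⟪cu {f | g f = (d, b)} (pr (HX Q X) F σ), pr (HX Q X) F τ⟫_ℂ =
          ⟪cu {x : HX Q X | δ x.2 ∈ hlf T d ∧ hatMap a x = b} (pl (HX Q X) F σ), pl (HX Q X) F τ⟫_ℂ := by
  classical
  obtain ⟨E, instE, fcE, gE, tE, D, S₁, S₂, hD, hS₁, hS₂, hp₁, hp₂, hadj, hpair⟩ := hank_one hT hA δ h
  obtain ⟨M, R, hRs, hRf, hRc, hRt, hRn⟩ := exists_sep (A := A) D hD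
  let ρ : L2 (HX Q X) →L[ℂ] L2 (HX Q X) := rh M a
  have hρ : KOp ⊤ (Psi A Q) ρ := kop_rh M a
  -- the triples
  let G₁ := dblG ρ S₁
  let G₂ := dblG ρ S₂
  have rG₁ : Rat ⊤ (Psi A Q) G₁ := rat_dblG hρ hS₁
  have rG₂ : Rat ⊤ (Psi A Q) G₂ := rat_dblG hρ hS₂
  have pG₁ : im (pl (HX Q X) (E ⊕ E)) G₁ = hat Q Y := im_pl_dblG hρ hS₁.md hp₁ fun f hf => rh_mem_hat M a hY.cl lY hf
  have pG₂ : im (pl (HX Q X) (E ⊕ E)) G₂ = (hat Q Y)ᗮ := im_pl_dblG hρ hS₂.md hp₂ fun f hf => rh_mem_hat_orth M a lY hf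
  let dE : E ⊕ E →[Psi A Q] VL V × VL V := sumMap gE gE
  let pE : E ⊕ E →[Psi A Q] NU Q := sumMap tE tE
  -- the difference of the two pairings
  have key : ∀ (d : VL V × VL V) (S' : Set (NU Q)), (∀ (g : Psi A Q), ∀ p ∈ D, (g • p.1 ∈ S' ↔ g • p.2 ∈ S')) →
      ∀ σ ∈ G₁, ∀ τ ∈ G₂,
      ⟪cu {z | dE z = d ∧ pE z ∈ S'} (pr (HX Q X) (E ⊕ E) σ), ng E (pr (HX Q X) (E ⊕ E) τ)⟫_ℂ =
        ⟪cu {x : HX Q X | δ x.2 ∈ hlf T d ∧ (hp (x.1 * FreeGroup.of (a x.2, M)) PUnit.unit : NU Q) ∈ S'}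
          (pl (HX Q X) (E ⊕ E) σ), pl (HX Q X) (E ⊕ E) τ⟫_ℂ -
        ⟪cu {x : HX Q X | δ x.2 ∈ hlf T d ∧ (hp x.1 PUnit.unit : NU Q) ∈ S'}
          (pl (HX Q X) (E ⊕ E) σ), pl (HX Q X) (E ⊕ E) τ⟫_ℂ := by
    intro d S' hS' σ hσ τ hτ
    obtain ⟨σ1, σ2⟩ := mem_dblG.1 hσ
    obtain ⟨τ1, τ2⟩ := mem_dblG.1 hτ
    have h1 := hpair d S' hS' _ σ1 _ τ1
    have h2 := hpair d S' hS' _ σ2 _ τ2
    rw [pr_t1, pr_t1, pl_t1, pl_t1] at h1
    rw [pr_t2, pr_t2, pl_t2, pl_t2] at h2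
    have h3 : ∀ (C : Set (HX Q X)) (f g : L2 (HX Q X)), ⟪cu C (ρ f), ρ g⟫_ℂ = ⟪cu (rhE M a ⁻¹' C) f, g⟫_ℂ := by
      intro C f g
      show ⟪cu C (rh M a f), rh M a g⟫_ℂ = _
      rw [cu_rh, inner_rh]
    rw [h3] at h2
    have h4 := inner_ng gE tE d S' (pr (HX Q X) (E ⊕ E) σ) (pr (HX Q X) (E ⊕ E) τ)
    rw [h1, h2] at h4
    exact h4
  -- the decomposed hull
  let S₀ := im (pr (HX Q X) (E ⊕ E)) G₁
  have rS₀ : Rat ⊤ (Psi A Q) S₀ := rG₁.im kop_pr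
  let W := dec dE S₀
  have mW : Md (Psi A Q) W := md_dec dE rS₀.md.inv
  have lW : Loc dE W := loc_of_dec dE S₀
  have qW : ∀ d, Rat ⊤ (MulAction.stabilizer (Psi A Q) d) (loc dE d W) := by
    intro d
    by_cases hd : T.Adj d.1 d.2
    · exact rat_loc_dec hn dE d hR (hS d.1 d.2 hd) rS₀
    · have h1 : loc dE d W = ⊤ := by
        rw [eq_top_iff]
        intro f _
        have h2 : f = 0 := by
          ext x
          exfalso
          have h3 := x.2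
          rcases hx : x.1 with e | e
          · rw [hx] at h3
            have h4 : gE e = d := h3
            exact hd (h4 ▸ hadj e)
          · rw [hx] at h3
            have h4 : gE e = d := h3
            exact hd (h4 ▸ hadj e)
        rw [h2]
        exact Submodule.zero_mem _
      rw [h1]
      exact rat_top
  have : Nonempty (NU Q) := ⟨hp 1 PUnit.unit⟩
  obtain ⟨F, instF, fcF, gF, tF, DF, S₃, S₄, -, hS₃, hS₄, hp₃, hp₄, -, hpairF⟩ := exists_sys (H := Psi A Q)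
    (P := VL V × VL V) (Pos := NU Q) (B := HX Q Q) dE pE R hRs hRf mW lW qW
  -- the first components are in the hull
  let κ₁ : L2 (HX Q X ⊕ (E ⊕ E)) →L[ℂ] L2 (E ⊕ E) := pr (HX Q X) (E ⊕ E)
  let κ₂ : L2 (HX Q X ⊕ (E ⊕ E)) →L[ℂ] L2 (E ⊕ E) := (ng E).comp (pr (HX Q X) (E ⊕ E))
  have hκ₁ : KOp ⊤ (Psi A Q) κ₁ := kop_pr
  have hκ₂ : KOp ⊤ (Psi A Q) κ₂ := kop_ng.comp kop_pr
  have m1 : ∀ σ ∈ G₁, κ₁ σ ∈ im (pl (E ⊕ E) F) S₃ := by
    intro σ hσ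
    rw [hp₃]
    exact le_dec dE S₀ (map_le_im (Submodule.mem_map_of_mem hσ))
  have m2 : ∀ τ ∈ G₂, κ₂ τ ∈ im (pl (E ⊕ E) F) S₄ := by
    intro τ hτ
    rw [hp₄]
    refine mem_dec_orth.2 fun d u hu => ?_
    -- the elements of the image
    have h3 : S₀ ≤ (Submodule.span ℂ {cu {z | dE z = d} (κ₂ τ)})ᗮ := by
      refine im_le (Submodule.isClosed_orthogonal _) fun σ hσ => ?_
      show pr (HX Q X) (E ⊕ E) σ ∈ (Submodule.span ℂ {cu {z | dE z = d} (κ₂ τ)})ᗮ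
      rw [Submodule.mem_orthogonal_singleton_iff_inner_left, inner_cu]
      have h4 := key d Set.univ (fun _ _ _ => Iff.rfl) σ hσ τ hτ
      have e2 : {z | dE z = d ∧ pE z ∈ (Set.univ : Set (NU Q))} = {z | dE z = d} := by
        ext z
        exact and_iff_left trivial
      have e3 : {x : HX Q X | δ x.2 ∈ hlf T d ∧ (hp (x.1 * FreeGroup.of (a x.2, M)) PUnit.unit : NU Q) ∈ (Set.univ : Set (NU Q))} =
          {x : HX Q X | δ x.2 ∈ hlf T d ∧ (hp x.1 PUnit.unit : NU Q) ∈ (Set.univ : Set (NU Q))} := by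
        ext z
        exact and_congr Iff.rfl ⟨fun _ => trivial, fun _ => trivial⟩
      rw [e3, sub_self, e2] at h4
      exact h4
    have h4 := h3 hu
    rw [Submodule.mem_orthogonal_singleton_iff_inner_left, inner_cu] at h4
    have e1 : push (fi dE d) (fi_inj dE d) (pull (fi dE d) (fi_inj dE d) u) = cu {z | dE z = d} u := push_pull_fi dE d u
    rw [← e1] at h4
    exact (AA.inner_push _ _ _ _).symm.trans h4
  refine ⟨F, instF, fcF, gF, im (j3 (HX Q X) (E ⊕ E) F) (jn κ₁ G₁ S₃), im (j3 (HX Q X) (E ⊕ E) F) (jn κ₂ G₂ S₄),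
    (rat_jn hκ₁ rG₁ hS₃).im kop_j3, (rat_jn hκ₂ rG₂ hS₄).im kop_j3, ?_, ?_, ?_⟩
  · rw [im_pl_jn hκ₁ rG₁.md hS₃.md m1, pG₁]
  · rw [im_pl_jn hκ₂ rG₂.md hS₄.md m2, pG₂]
  · intro d b
    refine pair_closure ((cu {f | gF f = (d, b)}).comp (pr (HX Q X) F)) (pr (HX Q X) F)
      ((cu {x : HX Q X | δ x.2 ∈ hlf T d ∧ hatMap a x = b}).comp (pl (HX Q X) F)) (pl (HX Q X) F) ?_
    intro θ hθ θ' hθ'
    show ⟪cu {f | gF f = (d, b)} (pr (HX Q X) F (j3 (HX Q X) (E ⊕ E) F θ)), pr (HX Q X) F (j3 (HX Q X) (E ⊕ E) F θ')⟫_ℂ =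
      ⟪cu {x : HX Q X | δ x.2 ∈ hlf T d ∧ hatMap a x = b} (pl (HX Q X) F (j3 (HX Q X) (E ⊕ E) F θ)),
        pl (HX Q X) F (j3 (HX Q X) (E ⊕ E) F θ')⟫_ℂ
    obtain ⟨g1, s1⟩ := mem_jn.1 hθ
    obtain ⟨g2, s2⟩ := mem_jn.1 hθ'
    have h1 := hpairF d b Set.univ (fun _ _ _ => Iff.rfl) _ s1 _ s2
    rw [pr_j2, pr_j2, pl_j2, pl_j2] at h1
    have h2 := key d (R b) (fun g p hp => hRc b g p hp) _ g1 _ g2
    rw [pl_j1, pl_j1] at h2
    rw [pr_j3, pr_j3, pl_j3, pl_j3]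
    have e1 : {f | gF f = (d, b) ∧ tF f ∈ (Set.univ : Set (NU Q))} = {f | gF f = (d, b)} := by
      ext f
      exact and_iff_left trivial
    have e2 : {x | dE x = d ∧ pE x ∈ R b ∧ pE x ∈ (Set.univ : Set (NU Q))} = {z | dE z = d ∧ pE z ∈ R b} := by
      ext f
      exact and_congr Iff.rfl (and_iff_left trivial)
    rw [e1, e2] at h1
    rw [h1]
    refine h2.trans ?_
    rw [← inner_sub_left]
    congr 1
    ext x
    have e3 : ∀ u v : L2 (HX Q X), (u - v : L2 (HX Q X)) x = u x - v x := fun _ _ => rfl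
    rw [e3, cu_apply, cu_apply, cu_apply]
    have hb : b = hp b.1 b.2 := rfl
    have e4 : (hp (x.1 * FreeGroup.of (a x.2, M)) PUnit.unit : NU Q) ∈ R b ↔
        (hp x.1 PUnit.unit : NU Q) ∈ R b ∨ hatMap a x = b := by
      have h5 := hRt b.1 x.1 b.2 (a x.2)
      rw [← hb] at h5
      rw [h5]
      refine or_congr Iff.rfl ?_
      constructor
      · rintro ⟨e5, e6⟩
        exact Prod.ext e5 e6
      · intro e5
        exact ⟨congrArg Prod.fst e5, congrArg Prod.snd e5⟩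
    have e5 : hatMap a x = b → (hp x.1 PUnit.unit : NU Q) ∉ R b := by
      intro e6
      have h5 := hRn b.1 b.2
      rw [← hb] at h5
      have e7 : x.1 = b.1 := congrArg Prod.fst e6
      rw [e7]
      exact h5
    by_cases hx : δ x.2 ∈ hlf T d
    · by_cases hy : (hp x.1 PUnit.unit : NU Q) ∈ R b
      · have hz : ¬ hatMap a x = b := fun e6 => e5 e6 hy
        rw [if_pos (show x ∈ {x : HX Q X | δ x.2 ∈ hlf T d ∧ (hp (x.1 * FreeGroup.of (a x.2, M)) PUnit.unit : NU Q) ∈ R b}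
          from ⟨hx, e4.2 (Or.inl hy)⟩),
          if_pos (show x ∈ {x : HX Q X | δ x.2 ∈ hlf T d ∧ (hp x.1 PUnit.unit : NU Q) ∈ R b} from ⟨hx, hy⟩),
          if_neg (fun h6 : x ∈ {x : HX Q X | δ x.2 ∈ hlf T d ∧ hatMap a x = b} => hz h6.2), sub_self]
      · rw [if_neg (fun h6 : x ∈ {x : HX Q X | δ x.2 ∈ hlf T d ∧ (hp x.1 PUnit.unit : NU Q) ∈ R b} => hy h6.2), sub_zero]
        by_cases hz : hatMap a x = b
        · rw [if_pos (show x ∈ {x : HX Q X | δ x.2 ∈ hlf T d ∧ (hp (x.1 * FreeGroup.of (a x.2, M)) PUnit.unit : NU Q) ∈ R b}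
            from ⟨hx, e4.2 (Or.inr hz)⟩), if_pos (show x ∈ {x : HX Q X | δ x.2 ∈ hlf T d ∧ hatMap a x = b} from ⟨hx, hz⟩)]
        · rw [if_neg (fun h6 : x ∈ {x : HX Q X | δ x.2 ∈ hlf T d ∧ (hp (x.1 * FreeGroup.of (a x.2, M)) PUnit.unit : NU Q) ∈ R b} =>
            (e4.1 h6.2).elim hy hz), if_neg (fun h6 : x ∈ {x : HX Q X | δ x.2 ∈ hlf T d ∧ hatMap a x = b} => hz h6.2)]
    · rw [if_neg (fun h6 : x ∈ {x : HX Q X | δ x.2 ∈ hlf T d ∧ (hp (x.1 * FreeGroup.of (a x.2, M)) PUnit.unit : NU Q) ∈ R b} =>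
          hx h6.1), if_neg (fun h6 : x ∈ {x : HX Q X | δ x.2 ∈ hlf T d ∧ (hp x.1 PUnit.unit : NU Q) ∈ R b} => hx h6.1),
          if_neg (fun h6 : x ∈ {x : HX Q X | δ x.2 ∈ hlf T d ∧ hatMap a x = b} => hx h6.1), sub_zero]

end Hank

end ATY
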