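import Pool.Agent.ATY.H5

/-!
# The decomposed hull of a subspace

`X → P` a map of `G`-sets, `S` an invariant subspace of `ℓ²(X)`: `dec a S` is the largest decomposed subspace with the
pieces `im (pull (fi a q)) S`, the closures of the projections of `S` to the fibres.
-/

set_option autoImplicit false
set_option linter.unusedSectionVars false

open scoped ComplexConjugate InnerProductSpace
open Filter Topology

namespace ATY
open Singer Pool.WeakAtiyah

section dec
variable {G X P : Type} [Group G] [MulAction G X] [MulAction G P]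

/-- the decomposed hull -/
noncomputable def dec (a : X →[G] P) (S : Submodule ℂ (L2 X)) : Submodule ℂ (L2 X) :=
  ⨅ q : P, (im (pull (fi a q) (fi_inj a q)) S).comap ((pull (fi a q) (fi_inj a q) : L2 X →L[ℂ] L2 (Fib a q)) : L2 X →ₗ[ℂ] L2 (Fib a q))

lemma mem_dec {a : X →[G] P} {S : Submodule ℂ (L2 X)} {f : L2 X} :
    f ∈ dec a S ↔ ∀ q, pull (fi a q) (fi_inj a q) f ∈ im (pull (fi a q) (fi_inj a q)) S := by
  unfold dec
  rw [Submodule.mem_iInf]
  rfl

lemma le_dec (a : X →[G] P) (S : Submodule ℂ (L2 X)) : S ≤ dec a S := fun _ hf =>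
  mem_dec.2 fun _ => map_le_im (Submodule.mem_map_of_mem hf)

lemma pull_fi_push_ne {a : X →[G] P} {q q' : P} (h : q' ≠ q) (w : L2 (Fib a q)) :
    pull (fi a q') (fi_inj a q') (push (fi a q) (fi_inj a q) w) = 0 := by
  ext x
  show push (fi a q) (fi_inj a q) w x.1 = 0
  refine push_apply_of_notMem _ _ _ ?_
  rintro ⟨y, hy⟩
  have h1 : y.1 = x.1 := hy
  exact h (by rw [← x.2, ← h1]; exact y.2)

/-- the pieces of the hull -/
theorem loc_dec (a : X →[G] P) (S : Submodule ℂ (L2 X)) (q : P) : loc a q (dec a S) = im (pull (fi a q) (fi_inj a q)) S := by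
  ext w
  rw [mem_loc, mem_dec]
  constructor
  · intro h
    have h1 := h q
    rwa [pull_push] at h1
  · intro hw q'
    by_cases hq : q' = q
    · subst hq
      rw [pull_push]
      exact hw
    · rw [pull_fi_push_ne hq]
      exact Submodule.zero_mem _

lemma pull_cu_self {a : X →[G] P} (q : P) (f : L2 X) :
    pull (fi a q) (fi_inj a q) (cu {x | a x = q} f) = pull (fi a q) (fi_inj a q) f := by
  ext x
  show cu {x | a x = q} f x.1 = f x.1
  have h1 : x.1 ∈ {x | a x = q} := x.2
  rw [cu_apply, if_pos h1]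

lemma pull_cu_ne {a : X →[G] P} {q q' : P} (h : q' ≠ q) (f : L2 X) :
    pull (fi a q') (fi_inj a q') (cu {x | a x = q} f) = 0 := by
  ext x
  show cu {x | a x = q} f x.1 = 0
  rw [cu_apply, if_neg]
  intro h1
  have h2 : a x.1 = q := h1
  exact h (by rw [← h2]; exact x.2.symm)

theorem loc_of_dec (a : X →[G] P) (S : Submodule ℂ (L2 X)) : Loc a (dec a S) := by
  intro q f hf
  rw [mem_dec] at hf ⊢
  intro q'
  by_cases hq : q' = q
  · subst hq
    rw [pull_cu_self]
    exact hf _
  · rw [pull_cu_ne hq]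
    exact Submodule.zero_mem _

/-- translation of a fibre -/
lemma pull_la_im {a : X →[G] P} {S : Submodule ℂ (L2 X)} (hS : ∀ (g : G), ∀ f ∈ S, la g f ∈ S) (g : G) (q : P) {f : L2 X}
    (hf : pull (fi a (g⁻¹ • q)) (fi_inj a (g⁻¹ • q)) f ∈ im (pull (fi a (g⁻¹ • q)) (fi_inj a (g⁻¹ • q))) S) :
    pull (fi a q) (fi_inj a q) (la g f) ∈ im (pull (fi a q) (fi_inj a q)) S := by
  -- the isomorphism of the fibres
  have hm : ∀ x : Fib a q, a (g⁻¹ • x.1) = g⁻¹ • q := fun x => by rw [map_smul, x.2]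
  let e : Fib a q → Fib a (g⁻¹ • q) := fun x => ⟨g⁻¹ • x.1, hm x⟩
  have he : Function.Injective e := fun x y hxy =>
    Subtype.ext (MulAction.injective g⁻¹ (congrArg (fun z : Fib a (g⁻¹ • q) => z.1) hxy))
  have hpe : ∀ u : L2 X, pull (fi a q) (fi_inj a q) (la g u) = pull e he (pull (fi a (g⁻¹ • q)) (fi_inj a (g⁻¹ • q)) u) :=
    fun u => rfl
  rw [hpe]
  have h1 : im (pull (fi a (g⁻¹ • q)) (fi_inj a (g⁻¹ • q))) S ≤ (im (pull (fi a q) (fi_inj a q)) S).comap
      ((pull e he : L2 (Fib a (g⁻¹ • q)) →L[ℂ] L2 (Fib a q)) : L2 (Fib a (g⁻¹ • q)) →ₗ[ℂ] L2 (Fib a q)) := by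
    refine im_le (isClosed_im.preimage (pull e he).continuous) fun u hu => ?_
    have h2 : pull (fi a q) (fi_inj a q) (la g u) ∈ im (pull (fi a q) (fi_inj a q)) S :=
      map_le_im (Submodule.mem_map_of_mem (hS g u hu))
    rw [hpe] at h2
    exact h2
  exact h1 hf

theorem md_dec (a : X →[G] P) {S : Submodule ℂ (L2 X)} (hS : ∀ (g : G), ∀ f ∈ S, la g f ∈ S) : Md G (dec a S) where
  inv g f hf := by
    rw [mem_dec] at hf ⊢
    intro q
    exact pull_la_im hS g q (hf _)
  cl := by
    have h1 : (dec a S : Set (L2 X)) = ⋂ q, (pull (fi a q) (fi_inj a q) : L2 X → L2 (Fib a q)) ⁻¹'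
        (im (pull (fi a q) (fi_inj a q)) S : Set (L2 (Fib a q))) := by
      ext f
      rw [Set.mem_iInter]
      exact mem_dec
    rw [h1]
    exact isClosed_iInter fun q => isClosed_im.preimage (pull (fi a q) (fi_inj a q) : L2 X →L[ℂ] L2 (Fib a q)).continuous

/-- the orthogonal complement of the hull -/
theorem mem_dec_orth {a : X →[G] P} {S : Submodule ℂ (L2 X)} {f : L2 X} :
    f ∈ (dec a S)ᗮ ↔ ∀ q, ∀ u ∈ S, ⟪pull (fi a q) (fi_inj a q) u, pull (fi a q) (fi_inj a q) f⟫_ℂ = 0 := by
  classical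
  have hcl : IsClosed (dec a S : Set (L2 X)) := by
    have h1 : (dec a S : Set (L2 X)) = ⋂ q, (pull (fi a q) (fi_inj a q) : L2 X → L2 (Fib a q)) ⁻¹'
        (im (pull (fi a q) (fi_inj a q)) S : Set (L2 (Fib a q))) := by
      ext f
      rw [Set.mem_iInter]
      exact mem_dec
    rw [h1]
    exact isClosed_iInter fun q => isClosed_im.preimage (pull (fi a q) (fi_inj a q) : L2 X →L[ℂ] L2 (Fib a q)).continuous
  constructor
  · intro hf q u hu
    rw [Submodule.mem_orthogonal] at hf
    have h1 : cu {x | a x = q} u ∈ dec a S := loc_of_dec a S q u (le_dec a S hu)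
    have h2 := hf _ h1
    have h3 : push (fi a q) (fi_inj a q) (pull (fi a q) (fi_inj a q) u) = cu {x | a x = q} u := push_pull_fi a q u
    rw [← h3] at h2
    have h4 : ⟪push (fi a q) (fi_inj a q) (pull (fi a q) (fi_inj a q) u), f⟫_ℂ =
        ⟪pull (fi a q) (fi_inj a q) u, pull (fi a q) (fi_inj a q) f⟫_ℂ := AA.inner_push _ _ _ _
    rwa [h4] at h2
  · intro h
    rw [Submodule.mem_orthogonal]
    intro w hw
    -- the set of all `w` with `⟪w, f⟫ = 0` is closed and contains the pieces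
    have h1 : w ∈ (Submodule.span ℂ {f})ᗮ := by
      refine UU.mem_of_fib a (Submodule.isClosed_orthogonal _) w fun q => ?_
      rw [Submodule.mem_orthogonal_singleton_iff_inner_left]
      have h3 : push (fi a q) (fi_inj a q) (pull (fi a q) (fi_inj a q) w) = cu {x | a x = q} w := push_pull_fi a q w
      rw [← h3]
      have h4 : ⟪push (fi a q) (fi_inj a q) (pull (fi a q) (fi_inj a q) w), f⟫_ℂ =
          ⟪pull (fi a q) (fi_inj a q) w, pull (fi a q) (fi_inj a q) f⟫_ℂ := AA.inner_push _ _ _ _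
      rw [h4]
      have h5 : im (pull (fi a q) (fi_inj a q)) S ≤ (Submodule.span ℂ {pull (fi a q) (fi_inj a q) f})ᗮ := by
        refine im_le (Submodule.isClosed_orthogonal _) fun u hu => ?_
        rw [Submodule.mem_orthogonal_singleton_iff_inner_left]
        exact h q u hu
      have h6 := h5 (mem_dec.1 hw q)
      rwa [Submodule.mem_orthogonal_singleton_iff_inner_left] at h6
    rwa [Submodule.mem_orthogonal_singleton_iff_inner_left] at h1

end dec

section ratdec
variable {G X P : Type} [Group G] [MulAction G X] [FC G X] [MulAction G P]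

/-- the hull of a rational subspace has rational pieces -/
theorem rat_loc_dec {n : ℕ} (hn : 0 < n) (a : X →[G] P) (p : P) (hR : RanksIn ⊤ G n)
    (hS : SSP ⊤ G (MulAction.stabilizer G p)) {S : Submodule ℂ (L2 X)} (h : Rat ⊤ G S) :
    Rat ⊤ (MulAction.stabilizer G p) (loc a p (dec a S)) := by
  rw [loc_dec]
  exact rat_im_fib hn a p hR hS h

end ratdec

end ATY
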