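import Pool.Agent.ATY.H2
import Pool.Agent.ATY.HDec
import Pool.Agent.ATY.HDefs
import Pool.Agent.ATY.H4b

/-!
# Reconstruction (project HIER, row H7)

`recon`: if the pairings of the auxiliary parts of `S₁`, `S₂` over the darts of the tree are the pairings of the half
trees, then `Y` is the closure of the projection of the space of the `(x, f)` for which `(x, (f, f))` is in the decomposed
hull of the `(x, (f, f))`, `(x, f) ∈ S₁`, over the vertices of the tree.
-/

set_option autoImplicit false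

open scoped ComplexConjugate InnerProductSpace
open Filter Topology

namespace ATY
open Singer Singer.HT Pool.WeakAtiyah

namespace H7

section sums
variable {X Y I : Type}

lemma inner_pl_pr (f g : L2 (X ⊕ Y)) : ⟪f, g⟫_ℂ = ⟪pl X Y f, pl X Y g⟫_ℂ + ⟪pr X Y f, pr X Y g⟫_ℂ := by
  have h1 : f = il X Y (pl X Y f) + ir X Y (pr X Y f) := (il_add_ir f).symm
  have h2 : ⟪il X Y (pl X Y f) + ir X Y (pr X Y f), g⟫_ℂ = ⟪pl X Y f, pl X Y g⟫_ℂ + ⟪pr X Y f, pr X Y g⟫_ℂ := by
    rw [inner_add_left]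
    congr 1
    · exact AA.inner_push _ _ _ _
    · exact AA.inner_push _ _ _ _
  rw [← h1] at h2
  exact h2

lemma pl_cu (S : Set (X ⊕ Y)) (f : L2 (X ⊕ Y)) : pl X Y (cu S f) = cu (Sum.inl ⁻¹' S) (pl X Y f) := by
  ext x
  show cu S f (Sum.inl x) = cu (Sum.inl ⁻¹' S) (pl X Y f) x
  rw [cu_apply, cu_apply]
  rfl

lemma pr_cu (S : Set (X ⊕ Y)) (f : L2 (X ⊕ Y)) : pr X Y (cu S f) = cu (Sum.inr ⁻¹' S) (pr X Y f) := by
  ext x
  show cu S f (Sum.inr x) = cu (Sum.inr ⁻¹' S) (pr X Y f) x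
  rw [cu_apply, cu_apply]
  rfl

/-- a sum over the fibres of a map -/
lemma hasSum_fib (π : X → I) (S : Set X) (f g : L2 X) :
    HasSum (fun i => ⟪cu {x | π x = i ∧ x ∈ S} f, g⟫_ℂ) ⟪cu S f, g⟫_ℂ := by
  classical
  have h1 : HasSum (fun x => conj (cu S f x) * g x) ⟪cu S f, g⟫_ℂ := by
    rw [inner_eq]
    exact (summable_inner' (cu S f) g).hasSum
  have h2 := h1.tsum_fiberwise π
  have h3 : (fun i => ⟪cu {x | π x = i ∧ x ∈ S} f, g⟫_ℂ) =
      fun i => ∑' x : π ⁻¹' {i}, conj (cu S f x) * g x := by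
    funext i
    rw [inner_eq, tsum_subtype (π ⁻¹' {i}) (fun x => conj (cu S f x) * g x)]
    refine tsum_congr fun x => ?_
    rw [Set.indicator_apply]
    by_cases hi : π x = i
    · have e1 : x ∈ π ⁻¹' {i} := hi
      rw [if_pos e1]
      by_cases hS : x ∈ S
      · have e2 : cu {x | π x = i ∧ x ∈ S} f x = f x := by
          rw [cu_apply]
          exact if_pos ⟨hi, hS⟩
        have e3 : cu S f x = f x := by
          rw [cu_apply]
          exact if_pos hS
        rw [e2, e3]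
      · have e2 : cu {x | π x = i ∧ x ∈ S} f x = 0 := by
          rw [cu_apply]
          exact if_neg fun h => hS h.2
        have e3 : cu S f x = 0 := by
          rw [cu_apply]
          exact if_neg hS
        rw [e2, e3]
    · have e1 : x ∉ π ⁻¹' {i} := hi
      rw [if_neg e1]
      have e2 : cu {x | π x = i ∧ x ∈ S} f x = 0 := by
        rw [cu_apply]
        exact if_neg fun h => hi h.1
      rw [e2, map_zero, zero_mul]
  rw [h3]
  exact h2

lemma cu_compl (S : Set X) (f : L2 X) : cu Sᶜ f = f - cu S f := by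
  ext x
  have h1 : (f - cu S f) x = f x - cu S f x := rfl
  by_cases hx : x ∈ S
  · have e1 : cu S f x = f x := by
      rw [cu_apply]
      exact if_pos hx
    have e2 : cu Sᶜ f x = 0 := by
      rw [cu_apply]
      exact if_neg fun h => h hx
    rw [e2, h1, e1, sub_self]
  · have e1 : cu S f x = 0 := by
      rw [cu_apply]
      exact if_neg hx
    have e2 : cu Sᶜ f x = f x := by
      rw [cu_apply]
      exact if_pos hx
    rw [e2, h1, e1, sub_zero]

lemma cu_empty (f : L2 X) : cu (∅ : Set X) f = 0 := by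
  ext x
  rw [cu_apply]
  exact if_neg (Set.notMem_empty x)

end sums

section tree
variable {V X F : Type} {T : SimpleGraph V} (hT : T.IsTree) (δ : X → V) (g : F → V × V)

include hT in
/-- the half trees at `v` cover the complement of `v` -/
lemma hasSum_hlf (v : V) (f h : L2 X) :
    HasSum (fun w => ⟪cu {x | δ x ∈ hlf T (v, w)} f, h⟫_ℂ) ⟪cu {x | δ x ≠ v} f, h⟫_ℂ := by
  classical
  let π : X → V := fun x => if hx : δ x ≠ v then (hlf_unique hT hx).choose else v
  have hπ : ∀ x (hx : δ x ≠ v) (w : V), π x = w ↔ δ x ∈ hlf T (v, w) := by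
    intro x hx w
    have h1 : π x = (hlf_unique hT hx).choose := dif_pos hx
    have h2 := (hlf_unique hT hx).choose_spec
    rw [h1]
    constructor
    · rintro rfl
      exact h2.1
    · intro h3
      exact (h2.2 w h3).symm
  have h1 := hasSum_fib π {x | δ x ≠ v} f h
  have h2 : ∀ w, {x | π x = w ∧ x ∈ {x | δ x ≠ v}} = {x | δ x ∈ hlf T (v, w)} := by
    intro w
    ext x
    constructor
    · rintro ⟨h3, h4⟩
      exact (hπ x h4 w).1 h3
    · intro h3
      have h4 : δ x ≠ v := by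
        intro h5
        have h6 : δ x ∈ hlf T (v, w) := h3
        rw [h5] at h6
        exact hlf_self hT v w h6
      exact ⟨(hπ x h4 w).2 h3, h4⟩
  simp only [h2] at h1
  exact h1

variable {S₁ S₂ : Submodule ℂ (L2 (X ⊕ F))}

include hT in
/-- the sum over the darts with tail `v` -/
lemma tail_eq {σ τ : L2 (X ⊕ F)} (hid : ∀ (d : V × V),
      ⟪cu {f | g f = d} (pr X F σ), pr X F τ⟫_ℂ = ⟪cu {x | δ x ∈ hlf T d} (pl X F σ), pl X F τ⟫_ℂ) (v : V) :
    ⟪cu {f | (g f).1 = v} (pr X F σ), pr X F τ⟫_ℂ = ⟪cu {x | δ x ≠ v} (pl X F σ), pl X F τ⟫_ℂ := by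
  have h1 := hasSum_hlf hT δ v (pl X F σ) (pl X F τ)
  have h2 := hasSum_fib (fun f => (g f).2) {f | (g f).1 = v} (pr X F σ) (pr X F τ)
  have h3 : ∀ w, {f | (g f).2 = w ∧ f ∈ {f | (g f).1 = v}} = {f | g f = (v, w)} := by
    intro w
    ext f
    constructor
    · rintro ⟨h4, h5⟩
      exact Prod.ext h5 h4
    · intro h4
      have h5 : g f = (v, w) := h4
      exact ⟨congrArg Prod.snd h5, congrArg Prod.fst h5⟩
  simp only [h3, hid] at h2
  exact h2.unique h1

include hT in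
/-- the sum over the darts with head `v` -/
lemma head_eq {σ τ : L2 (X ⊕ F)} (hid : ∀ (d : V × V),
      ⟪cu {f | g f = d} (pr X F σ), pr X F τ⟫_ℂ = ⟪cu {x | δ x ∈ hlf T d} (pl X F σ), pl X F τ⟫_ℂ)
    (horth : ⟪pl X F σ, pl X F τ⟫_ℂ = 0) (v : V) :
    ⟪cu {f | (g f).2 = v} (pr X F σ), pr X F τ⟫_ℂ = - ⟪cu {x | δ x ≠ v} (pl X F σ), pl X F τ⟫_ℂ := by
  have h1 := (hasSum_hlf hT δ v (pl X F σ) (pl X F τ)).neg
  have h2 := hasSum_fib (fun f => (g f).1) {f | (g f).2 = v} (pr X F σ) (pr X F τ)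
  have h3 : ∀ w, {f | (g f).1 = w ∧ f ∈ {f | (g f).2 = v}} = {f | g f = (w, v)} := by
    intro w
    ext f
    constructor
    · rintro ⟨h4, h5⟩
      exact Prod.ext h4 h5
    · intro h4
      have h5 : g f = (w, v) := h4
      exact ⟨congrArg Prod.fst h5, congrArg Prod.snd h5⟩
  have h4 : ∀ w, ⟪cu {x | δ x ∈ hlf T (w, v)} (pl X F σ), pl X F τ⟫_ℂ =
      - ⟪cu {x | δ x ∈ hlf T (v, w)} (pl X F σ), pl X F τ⟫_ℂ := by
    intro w
    by_cases hvw : T.Adj v w
    · have h5 : {x | δ x ∈ hlf T (w, v)} = {x | δ x ∈ hlf T (v, w)}ᶜ := by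
        ext x
        exact hlf_rev hT hvw
      rw [h5, cu_compl, inner_sub_left, horth, zero_sub]
    · have h5 : {x | δ x ∈ hlf T (w, v)} = ∅ := by
        ext x
        constructor
        · intro h6
          exact absurd h6.1.symm hvw
        · intro h6
          exact absurd h6 (Set.notMem_empty x)
      have h7 : {x | δ x ∈ hlf T (v, w)} = ∅ := by
        ext x
        constructor
        · intro h6
          exact absurd h6.1 hvw
        · intro h6
          exact absurd h6 (Set.notMem_empty x)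
      rw [h5, h7, cu_empty, inner_zero_left, neg_zero]
  simp only [h3, hid, h4] at h2
  exact h2.unique h1

end tree

end H7

/-- the map of `X ⊕ (F ⊕ F)` to the vertices: `δ`, the tail, the head -/
def tri {C V X F : Type} [Group C] [MulAction C V] [MulAction C X] [MulAction C F] (δ : X →[C] V) (g : F →[C] V × V) :
    X ⊕ (F ⊕ F) →[C] V where
  toFun := Sum.elim δ (Sum.elim (fun f => (g f).1) (fun f => (g f).2))
  map_smul' c x := by
    rcases x with x | x | x
    · exact map_smul δ c x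
    · exact congrArg Prod.fst (map_smul g c x)
    · exact congrArg Prod.snd (map_smul g c x)

/-- `(x, f)` to `(x, (f, f))` -/
noncomputable def dbl (X F : Type) : L2 (X ⊕ F) →L[ℂ] L2 (X ⊕ (F ⊕ F)) :=
  (il X (F ⊕ F)).comp (pl X F) + (ir X (F ⊕ F)).comp ((il F F).comp (pr X F) + (ir F F).comp (pr X F))

namespace H7
section dbl
variable {X F : Type}

lemma dbl_apply (σ : L2 (X ⊕ F)) : dbl X F σ =
    il X (F ⊕ F) (pl X F σ) + ir X (F ⊕ F) (il F F (pr X F σ) + ir F F (pr X F σ)) := rfl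

lemma pl_dbl (σ : L2 (X ⊕ F)) : pl X (F ⊕ F) (dbl X F σ) = pl X F σ := by
  rw [dbl_apply, map_add, pl_il, pl_ir, add_zero]

lemma pr_dbl (σ : L2 (X ⊕ F)) : pr X (F ⊕ F) (dbl X F σ) = il F F (pr X F σ) + ir F F (pr X F σ) := by
  rw [dbl_apply, map_add, pr_il, pr_ir, zero_add]

lemma kop_dbl {K : Subfield ℂ} {C : Type} [Group C] [MulAction C X] [MulAction C F] [FC C X] [FC C F] :
    KOp K C (dbl X F) := by
  unfold dbl
  exact KOp.add (KOp.comp kop_il kop_pl) (KOp.comp kop_ir (KOp.add (KOp.comp kop_il kop_pr) (KOp.comp kop_ir kop_pr)))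

/-- the vector `(y, f / 2, - f / 2)` -/
noncomputable def eta (τ : L2 (X ⊕ F)) : L2 (X ⊕ (F ⊕ F)) :=
  il X (F ⊕ F) (pl X F τ) + ir X (F ⊕ F) (il F F ((1 / 2 : ℂ) • pr X F τ) + ir F F (-((1 / 2 : ℂ) • pr X F τ)))

lemma pl_eta (τ : L2 (X ⊕ F)) : pl X (F ⊕ F) (eta τ) = pl X F τ := by
  unfold eta
  rw [map_add, pl_il, pl_ir, add_zero]

lemma pr_eta (τ : L2 (X ⊕ F)) : pr X (F ⊕ F) (eta τ) =
    il F F ((1 / 2 : ℂ) • pr X F τ) + ir F F (-((1 / 2 : ℂ) • pr X F τ)) := by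
  unfold eta
  rw [map_add, pr_il, pr_ir, zero_add]

/-- the pairing of `eta` with the window over `v` -/
lemma inner_cu_dbl_eta (S : Set X) (S' S'' : Set F) (U : Set (X ⊕ (F ⊕ F)))
    (h1 : Sum.inl ⁻¹' U = S) (h2 : Sum.inl ⁻¹' (Sum.inr ⁻¹' U) = S') (h3 : Sum.inr ⁻¹' (Sum.inr ⁻¹' U) = S'')
    (σ τ : L2 (X ⊕ F)) : ⟪cu U (dbl X F σ), eta τ⟫_ℂ = ⟪cu S (pl X F σ), pl X F τ⟫_ℂ +
      ((1 / 2 : ℂ) * ⟪cu S' (pr X F σ), pr X F τ⟫_ℂ - (1 / 2 : ℂ) * ⟪cu S'' (pr X F σ), pr X F τ⟫_ℂ) := by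
  rw [inner_pl_pr, pl_cu, pr_cu, pl_dbl, pr_dbl, pl_eta, pr_eta, h1, inner_pl_pr (cu (Sum.inr ⁻¹' U) _), pl_cu, pr_cu,
    h2, h3]
  have e1 : pl F F (il F F (pr X F σ) + ir F F (pr X F σ)) = pr X F σ := by
    rw [map_add, pl_il, pl_ir, add_zero]
  have e2 : pr F F (il F F (pr X F σ) + ir F F (pr X F σ)) = pr X F σ := by
    rw [map_add, pr_il, pr_ir, zero_add]
  have e3 : pl F F (il F F ((1 / 2 : ℂ) • pr X F τ) + ir F F (-((1 / 2 : ℂ) • pr X F τ))) = (1 / 2 : ℂ) • pr X F τ := by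
    rw [map_add, pl_il, pl_ir, add_zero]
  have e4 : pr F F (il F F ((1 / 2 : ℂ) • pr X F τ) + ir F F (-((1 / 2 : ℂ) • pr X F τ))) =
      -((1 / 2 : ℂ) • pr X F τ) := by
    rw [map_add, pr_il, pr_ir, zero_add]
  rw [e1, e2, e3, e4, inner_neg_right, inner_smul_right, inner_smul_right, sub_eq_add_neg]

end dbl
end H7

open H7 in
/-- row H7. (RECON) -/
theorem recon {C V X F : Type} [Group C] [MulAction C V] {T : SimpleGraph V} (hT : T.IsTree)
    [MulAction C X] [FC C X] [MulAction C F] [FC C F] (δ : X →[C] V) (g : F →[C] V × V)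
    {Y : Submodule ℂ (L2 X)} (hY : Md C Y) {S₁ S₂ : Submodule ℂ (L2 (X ⊕ F))}
    (h1 : im (pl X F) S₁ = Y) (h2 : im (pl X F) S₂ = Yᗮ)
    (hinv : ∀ (c : C), ∀ σ ∈ S₁, la c σ ∈ S₁)
    (hid : ∀ (d : V × V), ∀ σ ∈ S₁, ∀ τ ∈ S₂,
      ⟪cu {f | g f = d} (pr X F σ), pr X F τ⟫_ℂ = ⟪cu {x | δ x ∈ hlf T d} (pl X F σ), pl X F τ⟫_ℂ)
    (hL : ∀ v : V, Rat ⊤ (MulAction.stabilizer C v)
      (im ((pull (fi (tri δ g) v) (fi_inj (tri δ g) v)).comp (dbl X F)) S₁)) : Rat ⊤ C Y := by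
  classical
  set D : Submodule ℂ (L2 (X ⊕ (F ⊕ F))) := S₁.map ((dbl X F : L2 (X ⊕ F) →L[ℂ] L2 (X ⊕ (F ⊕ F))) :
    L2 (X ⊕ F) →ₗ[ℂ] L2 (X ⊕ (F ⊕ F))) with hD
  have hDi : ∀ (c : C), ∀ u ∈ D, la c u ∈ D := by
    rintro c _ ⟨σ, hσ, rfl⟩
    refine ⟨la c σ, hinv c σ hσ, ?_⟩
    exact (kop_dbl (K := ⊤) (C := C)).equi c σ
  have hW : Md C (dec (tri δ g) D) := md_dec (tri δ g) hDi
  have lW : Loc (tri δ g) (dec (tri δ g) D) := loc_of_dec (tri δ g) D
  have qW : ∀ v, Rat ⊤ (MulAction.stabilizer C v) (loc (tri δ g) v (dec (tri δ g) D)) := by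
    intro v
    rw [loc_dec]
    have h3 : im (pull (fi (tri δ g) v) (fi_inj (tri δ g) v)) D =
        im ((pull (fi (tri δ g) v) (fi_inj (tri δ g) v)).comp (dbl X F)) S₁ := by
      unfold im
      rw [hD, ← Submodule.map_comp]
      rfl
    rw [h3]
    exact hL v
  -- the hull is rational
  have rW : Rat ⊤ C (dec (tri δ g) D) := by
    obtain ⟨r, s, b, c, S, hS, -, h3⟩ := exists_local (tri δ g) hW lW qW
    rw [h3]
    exact (rat_kr hS).im kop_pl
  have rD : Rat ⊤ C ((dec (tri δ g) D).comap ((dbl X F : L2 (X ⊕ F) →L[ℂ] L2 (X ⊕ (F ⊕ F))) :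
    L2 (X ⊕ F) →ₗ[ℂ] L2 (X ⊕ (F ⊕ F)))) := rW.comap kop_dbl
  have key : Y = im (pl X F) ((dec (tri δ g) D).comap ((dbl X F : L2 (X ⊕ F) →L[ℂ] L2 (X ⊕ (F ⊕ F))) :
    L2 (X ⊕ F) →ₗ[ℂ] L2 (X ⊕ (F ⊕ F)))) := by
    apply le_antisymm
    · rw [← h1]
      refine im_mono fun σ hσ => ?_
      exact le_dec (tri δ g) D ⟨σ, hσ, rfl⟩
    · refine im_le hY.cl fun ρ hρ => ?_
      have hρ' : dbl X F ρ ∈ dec (tri δ g) D := hρ
      -- orthogonality to `pl τ`
      have h3 : ∀ τ ∈ S₂, ⟪pl X F τ, pl X F ρ⟫_ℂ = 0 := by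
        intro τ hτ
        have h4 : eta τ ∈ (dec (tri δ g) D)ᗮ := by
          rw [mem_dec_orth]
          rintro v _ ⟨σ, hσ, rfl⟩
          have h5 : ⟪pl X F σ, pl X F τ⟫_ℂ = 0 := by
            have h6 : pl X F σ ∈ Y := by
              rw [← h1]
              exact map_le_im ⟨σ, hσ, rfl⟩
            have h7 : pl X F τ ∈ Yᗮ := by
              rw [← h2]
              exact map_le_im ⟨τ, hτ, rfl⟩
            exact (Submodule.mem_orthogonal _ _).1 h7 _ h6
          have h8 : ⟪pull (fi (tri δ g) v) (fi_inj (tri δ g) v) (dbl X F σ),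
              pull (fi (tri δ g) v) (fi_inj (tri δ g) v) (eta τ)⟫_ℂ = ⟪cu {u | tri δ g u = v} (dbl X F σ), eta τ⟫_ℂ := by
            rw [← AA.push_pull_fi, AA.inner_push]
          have h9 : ⟪cu {u | tri δ g u = v} (dbl X F σ), eta τ⟫_ℂ = 0 := by
            rw [inner_cu_dbl_eta {x | δ x = v} {f | (g f).1 = v} {f | (g f).2 = v} {u | tri δ g u = v} rfl rfl rfl,
              tail_eq hT δ g (fun d => hid d σ hσ τ hτ) v, head_eq hT δ g (fun d => hid d σ hσ τ hτ) h5 v]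
            have h10 : {x | δ x ≠ v} = {x | δ x = v}ᶜ := rfl
            rw [h10, cu_compl, inner_sub_left, h5]
            ring
          exact h8.trans h9
        have h5 := (Submodule.mem_orthogonal _ _).1 h4 _ hρ'
        have h6 : ⟪cu Set.univ (dbl X F ρ), eta τ⟫_ℂ = 0 := by
          have h7 : cu Set.univ (dbl X F ρ) = dbl X F ρ := by
            ext x
            rw [cu_apply]
            exact if_pos (Set.mem_univ x)
          rw [h7]
          exact h5
        rw [inner_cu_dbl_eta Set.univ Set.univ Set.univ Set.univ rfl rfl rfl, sub_self, add_zero] at h6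
        have h7 : cu Set.univ (pl X F ρ) = pl X F ρ := by
          ext x
          rw [cu_apply]
          exact if_pos (Set.mem_univ x)
        rw [h7] at h6
        rw [← inner_conj_symm, h6, map_zero]
      -- so it is in `Yᗮᗮ`
      have h4 : pl X F ρ ∈ Yᗮᗮ := by
        rw [← h2, Submodule.mem_orthogonal]
        intro u hu
        have h5 : im (pl X F) S₂ ≤ (Submodule.span ℂ {pl X F ρ})ᗮ := by
          refine im_le (Submodule.isClosed_orthogonal _) fun τ hτ => ?_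
          rw [Submodule.mem_orthogonal_singleton_iff_inner_left]
          exact h3 τ hτ
        have h6 := h5 hu
        rwa [Submodule.mem_orthogonal_singleton_iff_inner_left] at h6
      have h5 : Yᗮᗮ = Y.topologicalClosure := Submodule.orthogonal_orthogonal_eq_closure Y
      rw [h5, hY.cl.submodule_topologicalClosure_eq] at h4
      exact h4
  rw [key]
  exact rD.im kop_pl

end ATY
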