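import Pool.Agent.ATY.H6
import Pool.Agent.ATY.H7
import Pool.Agent.ATY.SSPF

/-!
# Descent of rationality from `Psi A Q` to the stabilisers in groups acting on trees
-/

set_option autoImplicit false

open scoped ComplexConjugate InnerProductSpace

namespace ATY
open Singer Singer.HT Pool.WeakAtiyah

/-- induced modules are decomposed -/
lemma loc_hat {A Q X : Type} [Group A] [MulAction A Q] [MulAction A X] (a : X →[A] Q) {Y : Submodule ℂ (L2 X)}
    (lY : Loc a Y) : Loc (hatMap a) (hat Q Y) := by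
  intro p f hf
  rw [mem_hat] at hf ⊢
  intro ν
  by_cases hν : ν = p.1
  · have h1 : sl ν (cu {x | hatMap a x = p} f) = cu {x | a x = p.2} (sl ν f) := by
      ext x
      rw [sl_apply, cu_apply, cu_apply]
      have h2 : (hp ν x : HX Q X) ∈ {x | hatMap a x = p} ↔ x ∈ {x | a x = p.2} := by
        constructor
        · intro h3
          exact congrArg Prod.snd h3
        · intro h3
          exact Prod.ext hν h3
      by_cases h3 : x ∈ {x | a x = p.2}
      · rw [if_pos h3, if_pos (h2.2 h3)]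
        rfl
      · rw [if_neg h3, if_neg (fun h4 => h3 (h2.1 h4))]
    rw [h1]
    exact lY _ _ (hf ν)
  · have h1 : sl ν (cu {x | hatMap a x = p} f) = 0 := by
      ext x
      rw [sl_apply, cu_apply, if_neg]
      · rfl
      · intro h3
        exact hν (congrArg Prod.fst h3)
    rw [h1]
    exact Submodule.zero_mem _

/-- from the stabiliser of `(1, q)` in `Psi A Q` to the stabiliser of `q` -/
theorem rat_hat_fib {K : Subfield ℂ} {A Q X : Type} [Group A] [MulAction A Q] [MulAction A X] [FC A X] (a : X →[A] Q)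
    (q : Q) {Y : Submodule ℂ (L2 X)}
    (h : Rat K (MulAction.stabilizer (Psi A Q) (hp 1 q : HX Q Q)) (loc (hatMap a) (hp 1 q : HX Q Q) (hat Q Y))) :
    Rat K (MulAction.stabilizer A q) (loc a q Y) := by
  have hst : ∀ g : Psi A Q, g ∈ MulAction.stabilizer (Psi A Q) (hp 1 q : HX Q Q) → g.left = 1 ∧ g.right • q = q := by
    intro g h
    rw [MulAction.mem_stabilizer_iff, hx_smul] at h
    have h2 : g.left * phiA A Q g.right 1 = 1 := congrArg Prod.fst h
    rw [map_one, mul_one] at h2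
    exact ⟨h2, congrArg Prod.snd h⟩
  have hst' : ∀ b : A, b • q = q → (SemidirectProduct.inr b : Psi A Q) ∈
      MulAction.stabilizer (Psi A Q) (hp 1 q : HX Q Q) := by
    intro b hb
    rw [MulAction.mem_stabilizer_iff, hx_smul]
    refine Prod.ext ?_ hb
    show (SemidirectProduct.inr b : Psi A Q).left * phiA A Q (SemidirectProduct.inr b : Psi A Q).right 1 = 1
    rw [map_one, mul_one, SemidirectProduct.left_inr]
  let α : MulAction.stabilizer (Psi A Q) (hp 1 q : HX Q Q) ≃* MulAction.stabilizer A q :=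
    { toFun := fun g => ⟨g.1.right, (hst g.1 g.2).2⟩
      invFun := fun b => ⟨SemidirectProduct.inr b.1, hst' b.1 b.2⟩
      left_inv := fun g => Subtype.ext (SemidirectProduct.ext (by
        show (SemidirectProduct.inr g.1.right : Psi A Q).left = g.1.left
        rw [SemidirectProduct.left_inr, (hst g.1 g.2).1]) rfl)
      right_inv := fun b => rfl
      map_mul' := fun g g' => rfl }
  let e : Fib (hatMap a) (hp 1 q : HX Q Q) ≃ Fib a q :=
    { toFun := fun p => ⟨p.1.2, congrArg Prod.snd p.2⟩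
      invFun := fun x => ⟨hp 1 x.1, Prod.ext rfl x.2⟩
      left_inv := fun p => Subtype.ext (Prod.ext (congrArg Prod.fst p.2).symm rfl)
      right_inv := fun x => rfl }
  have he : ∀ (g : MulAction.stabilizer (Psi A Q) (hp 1 q : HX Q Q)) (p : Fib (hatMap a) (hp 1 q : HX Q Q)),
      e (g • p) = α g • e p := fun _ _ => rfl
  have h2 := h.equiv α e he
  have h3 : (loc (hatMap a) (hp 1 q : HX Q Q) (hat Q Y)).map (push e e.injective : L2 (Fib (hatMap a) (hp 1 q : HX Q Q)) →ₗ[ℂ] L2 (Fib a q)) =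
      loc a q Y := by
    ext f
    rw [mem_map_push, mem_loc, mem_loc, mem_hat]
    have h4 : sl 1 (push (fi (hatMap a) (hp 1 q : HX Q Q)) (fi_inj _ _) (pull e e.injective f)) =
        push (fi a q) (fi_inj a q) f := by
      ext x
      rw [sl_apply]
      by_cases hx : a x = q
      · have h5 := push_apply (fi (hatMap a) (hp 1 q : HX Q Q)) (fi_inj _ _) (pull e e.injective f)
          (⟨hp 1 x, Prod.ext rfl hx⟩ : Fib (hatMap a) (hp 1 q : HX Q Q))
        have h6 := push_apply (fi a q) (fi_inj a q) f (⟨x, hx⟩ : Fib a q)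
        exact h5.trans h6.symm
      · rw [push_apply_of_notMem, push_apply_of_notMem]
        · rintro ⟨y, hy⟩
          apply hx
          rw [← hy]
          exact y.2
        · rintro ⟨y, hy⟩
          have h5 : y.1 = hp 1 x := hy
          have h6 := congrArg Prod.snd y.2
          rw [h5] at h6
          exact hx h6
    have h5 : ∀ ν, ν ≠ 1 →
        sl ν (push (fi (hatMap a) (hp 1 q : HX Q Q)) (fi_inj _ _) (pull e e.injective f)) = 0 := by
      intro ν hν
      ext x
      rw [sl_apply, push_apply_of_notMem]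
      · rfl
      · rintro ⟨y, hy⟩
        have h5 : y.1 = hp ν x := hy
        have h6 := congrArg Prod.fst y.2
        rw [h5] at h6
        exact hν h6
    constructor
    · intro h6
      have h7 := h6 1
      rwa [h4] at h7
    · intro h6 ν
      by_cases hν : ν = 1
      · rw [hν, h4]
        exact h6
      · rw [h5 ν hν]
        exact Submodule.zero_mem _
  rw [h3] at h2
  exact h2

section fib
variable {G X F Q : Type} [Group G] [MulAction G X] [MulAction G F] [MulAction G Q]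

/-- restriction of a pair of functions to fibres -/
noncomputable def rst (a : X →[G] Q) (b : F →[G] Q) (q : Q) : L2 (X ⊕ F) →L[ℂ] L2 (Fib a q ⊕ Fib b q) :=
  pull (Sum.map (fi a q) (fi b q)) (Sum.map_injective.2 ⟨fi_inj a q, fi_inj b q⟩)

lemma pl_rst (a : X →[G] Q) (b : F →[G] Q) (q : Q) (f : L2 (X ⊕ F)) :
    pl _ _ (rst a b q f) = pull (fi a q) (fi_inj a q) (pl X F f) := rfl

lemma pr_rst (a : X →[G] Q) (b : F →[G] Q) (q : Q) (f : L2 (X ⊕ F)) :
    pr _ _ (rst a b q f) = pull (fi b q) (fi_inj b q) (pr X F f) := rfl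

lemma rst_la (a : X →[G] Q) (b : F →[G] Q) (q : Q) (c : MulAction.stabilizer G q) (f : L2 (X ⊕ F)) :
    rst a b q (la (c : G) f) = la c (rst a b q f) := by
  ext x
  rcases x with x | x <;> rfl

/-- closure of the restriction of a decomposed closed subspace -/
lemma im_pull_fi (a : X →[G] Q) (q : Q) {W : Submodule ℂ (L2 X)} (hW : IsClosed (W : Set (L2 X))) (lW : Loc a W) :
    im (pull (fi a q) (fi_inj a q)) W = loc a q W := by
  have hcl : IsClosed ((loc a q W : Submodule ℂ (L2 (Fib a q))) : Set (L2 (Fib a q))) :=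
    hW.preimage (push (fi a q) (fi_inj a q)).continuous
  apply le_antisymm
  · refine im_le hcl fun f hf => ?_
    rw [mem_loc]
    have h1 : push (fi a q) (fi_inj a q) (pull (fi a q) (fi_inj a q) f) = cu {x | a x = q} f := by
      ext x
      rw [cu_apply]
      by_cases hx : x ∈ {x | a x = q}
      · rw [if_pos hx]
        exact push_apply (fi a q) (fi_inj a q) (pull (fi a q) (fi_inj a q) f) (⟨x, hx⟩ : Fib a q)
      · rw [if_neg hx, push_apply_of_notMem]
        rintro ⟨y, hy⟩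
        apply hx
        rw [← hy]
        exact y.2
    rw [h1]
    exact lW q f hf
  · intro f hf
    exact map_le_im ⟨push (fi a q) (fi_inj a q) f, hf, pull_push _ _ _⟩

lemma perp_loc (a : X →[G] Q) (q : Q) {W : Submodule ℂ (L2 X)} (hW : IsClosed (W : Set (L2 X))) (lW : Loc a W) :
    im (pull (fi a q) (fi_inj a q)) Wᗮ = (loc a q W)ᗮ := by
  apply le_antisymm
  · refine im_le (Submodule.isClosed_orthogonal _) fun f hf => ?_
    rw [Submodule.mem_orthogonal]
    intro u hu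
    have h1 := (Submodule.mem_orthogonal W f).1 hf _ hu
    show ⟪u, pull (fi a q) (fi_inj a q) f⟫_ℂ = 0
    rw [← h1]
    exact (inner_push_left (fi_inj a q) u f).symm
  · intro f hf
    refine map_le_im ⟨push (fi a q) (fi_inj a q) f, ?_, pull_push _ _ _⟩
    show push (fi a q) (fi_inj a q) f ∈ Wᗮ
    rw [Submodule.mem_orthogonal']
    intro u hu
    rw [inner_push_left]
    refine (Submodule.mem_orthogonal' _ _).1 hf _ ?_
    rw [← im_pull_fi a q hW lW]
    exact map_le_im ⟨u, hu, rfl⟩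

/-- inner products over subsets of fibres -/
lemma inner_cu_fib (a : X →[G] Q) (q : Q) (S : Set X) (S' : Set (Fib a q)) (hS : ∀ x : X, x ∈ S ↔ ∃ h : a x = q, (⟨x, h⟩ : Fib a q) ∈ S')
    (f g : L2 X) :
    ⟪cu S' (pull (fi a q) (fi_inj a q) f), pull (fi a q) (fi_inj a q) g⟫_ℂ = ⟪cu S f, g⟫_ℂ := by
  rw [← inner_push_left]
  congr 1
  ext x
  rw [cu_apply]
  by_cases hx : x ∈ S
  · rw [if_pos hx]
    obtain ⟨h1, h2⟩ := (hS x).1 hx
    have h3 := push_apply (fi a q) (fi_inj a q) (cu S' (pull (fi a q) (fi_inj a q) f)) (⟨x, h1⟩ : Fib a q)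
    refine h3.trans ((cu_apply S' (pull (fi a q) (fi_inj a q) f) (⟨x, h1⟩ : Fib a q)).trans ?_)
    exact if_pos h2
  · rw [if_neg hx]
    by_cases h1 : a x = q
    · have h3 := push_apply (fi a q) (fi_inj a q) (cu S' (pull (fi a q) (fi_inj a q) f)) (⟨x, h1⟩ : Fib a q)
      refine h3.trans ((cu_apply S' (pull (fi a q) (fi_inj a q) f) (⟨x, h1⟩ : Fib a q)).trans ?_)
      exact if_neg fun h2 => hx ((hS x).2 ⟨h1, h2⟩)
    · rw [push_apply_of_notMem]
      rintro ⟨y, hy⟩
      apply h1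
      rw [← hy]
      exact y.2

end fib

lemma im_map {X Y Z : Type} (T : L2 X →L[ℂ] L2 Y) (U : L2 Y →L[ℂ] L2 Z) (W : Submodule ℂ (L2 X)) :
    im U (W.map (T : L2 X →ₗ[ℂ] L2 Y)) = im (U.comp T) W := by
  unfold im
  rw [← Submodule.map_comp]
  rfl

lemma im_im' {X Y Z : Type} (T : L2 X →L[ℂ] L2 Y) (U : L2 Y →L[ℂ] L2 Z) (W : Submodule ℂ (L2 X)) :
    im U (im T W) = im (U.comp T) W := by
  rw [← im_map]
  exact im_closure

lemma dbl_inl {X F : Type} (f : L2 (X ⊕ F)) (x : X) : dbl X F f (Sum.inl x) = f (Sum.inl x) := by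
  have h1 : pl X (F ⊕ F) (dbl X F f) = pl X F f := by
    show pl X (F ⊕ F) (il X (F ⊕ F) (pl X F f) + ir X (F ⊕ F) (il F F (pr X F f) + ir F F (pr X F f))) = _
    rw [map_add, pl_il, pl_ir, add_zero]
  exact congrArg (fun u : L2 X => u x) h1

lemma dbl_inr_inl {X F : Type} (f : L2 (X ⊕ F)) (x : F) : dbl X F f (Sum.inr (Sum.inl x)) = f (Sum.inr x) := by
  have h1 : pl F F (pr X (F ⊕ F) (dbl X F f)) = pr X F f := by
    show pl F F (pr X (F ⊕ F) (il X (F ⊕ F) (pl X F f) + ir X (F ⊕ F) (il F F (pr X F f) + ir F F (pr X F f)))) = _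
    rw [map_add, pr_il, pr_ir, zero_add, map_add, pl_il, pl_ir, add_zero]
  exact congrArg (fun u : L2 F => u x) h1

lemma dbl_inr_inr {X F : Type} (f : L2 (X ⊕ F)) (x : F) : dbl X F f (Sum.inr (Sum.inr x)) = f (Sum.inr x) := by
  have h1 : pr F F (pr X (F ⊕ F) (dbl X F f)) = pr X F f := by
    show pr F F (pr X (F ⊕ F) (il X (F ⊕ F) (pl X F f) + ir X (F ⊕ F) (il F F (pr X F f) + ir F F (pr X F f)))) = _
    rw [map_add, pr_il, pr_ir, zero_add, map_add, pr_il, pr_ir, zero_add]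
  exact congrArg (fun u : L2 F => u x) h1

lemma push_eq_of_pull {X Y : Type} (e : X ≃ Y) {f : L2 X} {g : L2 Y} (h : f = pull e e.injective g) :
    push e e.injective f = g := by
  rw [h]
  exact push_pull_equiv e g

theorem des {n : ℕ} (hn : 0 < n) {A V Q X : Type} [Group A] [MulAction A V] {T : SimpleGraph V} (hT : T.IsTree)
    (hA : ∀ (g : A) (v w : V), T.Adj v w → T.Adj (g • v) (g • w)) [MulAction A Q] [MulAction A X] [FC A X]
    (a : X →[A] Q) (q : Q) (hR : RanksIn ⊤ (Psi A Q) n)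
    (hS : ∀ v w : V, T.Adj v w → SSP ⊤ (Psi A Q) (MulAction.stabilizer (Psi A Q) ((v, w) : VL V × VL V)))
    (hS' : ∀ v : V, SSP ⊤ (Psi A Q) (MulAction.stabilizer (Psi A Q) ((v, hp 1 q) : VL V × HX Q Q)))
    {Y : Submodule ℂ (L2 X)} (hY : Md A Y) (lY : Loc a Y) (h : Rat ⊤ (Psi A Q) (hat Q Y)) :
    Rat ⊤ (MulAction.stabilizer A q) (loc a q Y) := by
  obtain ⟨v₀⟩ := hT.connected.nonempty
  obtain ⟨δ⟩ := exists_equivariant (A := A) (X := X) v₀
  obtain ⟨F, actF, fcF, g, S₁, S₂, r1, r2, i1, i2, hid⟩ := exists_hank hn hT hA a δ hR hS hY lY h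
  apply rat_hat_fib a q
  let b₀ : HX Q Q := hp 1 q
  let C : Subgroup (Psi A Q) := MulAction.stabilizer (Psi A Q) b₀
  let g2 : F →[Psi A Q] HX Q Q := ⟨fun f => (g f).2, fun c f => congrArg Prod.snd (map_smul g c f)⟩
  let δ0 : Fib (hatMap a) b₀ →[C] VL V := ⟨fun x => δ x.1.2, fun c x => map_smul δ (c : Psi A Q).right x.1.2⟩
  let g0 : Fib g2 b₀ →[C] VL V × VL V := ⟨fun f => (g f.1).1, fun c f => congrArg Prod.fst (map_smul g (c : Psi A Q) f.1)⟩
  have lH : Loc (hatMap a) (hat Q Y) := loc_hat a lY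
  have cH : IsClosed ((hat Q Y : Submodule ℂ (L2 (HX Q X))) : Set (L2 (HX Q X))) := h.md.cl
  refine recon (C := C) (V := VL V) (T := T) hT (X := Fib (hatMap a) b₀) (F := Fib g2 b₀) δ0 g0 (h.md.loc _)
    (S₁ := S₁.map (rst (hatMap a) g2 b₀ : L2 (HX Q X ⊕ F) →ₗ[ℂ] L2 (Fib (hatMap a) b₀ ⊕ Fib g2 b₀)))
    (S₂ := S₂.map (rst (hatMap a) g2 b₀ : L2 (HX Q X ⊕ F) →ₗ[ℂ] L2 (Fib (hatMap a) b₀ ⊕ Fib g2 b₀))) ?_ ?_ ?_ ?_ ?_
  · rw [im_map]
    have e1 : (pl (Fib (hatMap a) b₀) (Fib g2 b₀)).comp (rst (hatMap a) g2 b₀) =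
        (pull (fi (hatMap a) b₀) (fi_inj (hatMap a) b₀)).comp (pl (HX Q X) F) := rfl
    rw [e1, ← im_im', i1]
    exact im_pull_fi _ _ cH lH
  · rw [im_map]
    have e1 : (pl (Fib (hatMap a) b₀) (Fib g2 b₀)).comp (rst (hatMap a) g2 b₀) =
        (pull (fi (hatMap a) b₀) (fi_inj (hatMap a) b₀)).comp (pl (HX Q X) F) := rfl
    rw [e1, ← im_im', i2]
    exact perp_loc _ _ cH lH
  · rintro c _ ⟨σ, hσ, rfl⟩
    refine ⟨la (c : Psi A Q) σ, r1.md.inv _ σ hσ, ?_⟩
    exact rst_la (hatMap a) g2 b₀ c σ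
  · rintro d _ ⟨σ, hσ, rfl⟩ _ ⟨τ, hτ, rfl⟩
    have h1 := hid d b₀ σ hσ τ hτ
    have h2 : ⟪cu {f | g0 f = d} (pull (fi g2 b₀) (fi_inj g2 b₀) (pr (HX Q X) F σ)),
        pull (fi g2 b₀) (fi_inj g2 b₀) (pr (HX Q X) F τ)⟫_ℂ = ⟪cu {f | g f = (d, b₀)} (pr (HX Q X) F σ), pr (HX Q X) F τ⟫_ℂ := by
      refine inner_cu_fib g2 b₀ _ _ (fun f => ?_) _ _
      constructor
      · intro h3
        exact ⟨congrArg Prod.snd h3, congrArg Prod.fst h3⟩
      · rintro ⟨h3, h4⟩
        exact Prod.ext h4 h3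
    have h3 : ⟪cu {x | δ0 x ∈ hlf T d} (pull (fi (hatMap a) b₀) (fi_inj (hatMap a) b₀) (pl (HX Q X) F σ)),
        pull (fi (hatMap a) b₀) (fi_inj (hatMap a) b₀) (pl (HX Q X) F τ)⟫_ℂ =
        ⟪cu {x : HX Q X | δ x.2 ∈ hlf T d ∧ hatMap a x = b₀} (pl (HX Q X) F σ), pl (HX Q X) F τ⟫_ℂ := by
      refine inner_cu_fib (hatMap a) b₀ _ _ (fun x => ?_) _ _
      constructor
      · rintro ⟨h3, h4⟩
        exact ⟨h4, h3⟩
      · rintro ⟨h3, h4⟩
        exact ⟨h4, h3⟩
    exact (h2.trans h1).trans h3.symm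
  · intro v
    -- the window over `(v, b₀)`
    let a3 : HX Q X ⊕ (F ⊕ F) →[Psi A Q] VL V × HX Q Q :=
      { toFun := Sum.elim (fun x => (δ x.2, hatMap a x)) (Sum.elim (fun f => ((g f).1.1, (g f).2)) (fun f => ((g f).1.2, (g f).2)))
        map_smul' := by
          intro c x
          rcases x with x | x | x
          · exact Prod.ext (map_smul δ c.right x.2) (map_smul (hatMap a) c x)
          · have h1 := map_smul g c x
            refine Prod.ext (congrArg (fun z => z.1.1) h1) ?_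
            exact congrArg (fun z => z.2) h1
          · have h1 := map_smul g c x
            refine Prod.ext (congrArg (fun z => z.1.2) h1) ?_
            exact congrArg (fun z => z.2) h1 }
    have hd : KOp ⊤ (Psi A Q) (dbl (HX Q X) F) :=
      (kop_il.comp kop_pl).add (kop_ir.comp ((kop_il.comp kop_pr).add (kop_ir.comp kop_pr)))
    have h1 := rat_im_fib hn a3 (v, b₀) hR (hS' v) (r1.im hd)
    rw [im_im'] at h1
    let α : MulAction.stabilizer (Psi A Q) ((v, b₀) : VL V × HX Q Q) ≃* MulAction.stabilizer C (v : VL V) :=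
      { toFun := fun c => ⟨⟨c.1, congrArg Prod.snd c.2⟩, congrArg Prod.fst c.2⟩
        invFun := fun c => ⟨c.1.1, Prod.ext c.2 c.1.2⟩
        left_inv := fun _ => rfl
        right_inv := fun _ => rfl
        map_mul' := fun _ _ => rfl }
    let e : Fib a3 ((v, b₀) : VL V × HX Q Q) ≃ Fib (tri δ0 g0) (v : VL V) :=
      { toFun := fun x => match x with
          | ⟨Sum.inl x, h⟩ => ⟨Sum.inl ⟨x, congrArg Prod.snd h⟩, congrArg Prod.fst h⟩
          | ⟨Sum.inr (Sum.inl x), h⟩ => ⟨Sum.inr (Sum.inl ⟨x, congrArg Prod.snd h⟩), congrArg Prod.fst h⟩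
          | ⟨Sum.inr (Sum.inr x), h⟩ => ⟨Sum.inr (Sum.inr ⟨x, congrArg Prod.snd h⟩), congrArg Prod.fst h⟩
        invFun := fun x => match x with
          | ⟨Sum.inl x, h⟩ => ⟨Sum.inl x.1, Prod.ext h x.2⟩
          | ⟨Sum.inr (Sum.inl x), h⟩ => ⟨Sum.inr (Sum.inl x.1), Prod.ext h x.2⟩
          | ⟨Sum.inr (Sum.inr x), h⟩ => ⟨Sum.inr (Sum.inr x.1), Prod.ext h x.2⟩
        left_inv := by rintro ⟨x | x | x, h⟩ <;> rfl
        right_inv := by rintro ⟨x | x | x, h⟩ <;> rfl }
    have he : ∀ (c : MulAction.stabilizer (Psi A Q) ((v, b₀) : VL V × HX Q Q)) (x : Fib a3 ((v, b₀) : VL V × HX Q Q)),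
        e (c • x) = α c • e x := by
      rintro c ⟨x | x | x, h⟩ <;> rfl
    have h2 := h1.equiv α e he
    have h3 : (im ((pull (fi a3 ((v, b₀) : VL V × HX Q Q)) (fi_inj a3 _)).comp (dbl (HX Q X) F)) S₁).map
        (push e e.injective : L2 (Fib a3 ((v, b₀) : VL V × HX Q Q)) →ₗ[ℂ] L2 (Fib (tri δ0 g0) (v : VL V))) =
        im ((pull (fi (tri δ0 g0) (v : VL V)) (fi_inj (tri δ0 g0) _)).comp (dbl (Fib (hatMap a) b₀) (Fib g2 b₀)))
          (S₁.map (rst (hatMap a) g2 b₀ : L2 (HX Q X ⊕ F) →ₗ[ℂ] L2 (Fib (hatMap a) b₀ ⊕ Fib g2 b₀))) := by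
      rw [im_map]
      have e1 : ∀ W : Submodule ℂ (L2 (Fib a3 ((v, b₀) : VL V × HX Q Q))), IsClosed (W : Set (L2 (Fib a3 ((v, b₀) : VL V × HX Q Q)))) →
          W.map (push e e.injective : L2 (Fib a3 ((v, b₀) : VL V × HX Q Q)) →ₗ[ℂ] L2 (Fib (tri δ0 g0) (v : VL V))) =
            im (push e e.injective) W := by
        intro W hW
        apply le_antisymm map_le_im
        intro f hf
        rw [mem_map_push]
        have h5 : pull e e.injective f ∈ im (pull e e.injective) (im (push e e.injective) W) := map_le_im ⟨f, hf, rfl⟩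
        rw [im_im'] at h5
        have h6 : im ((pull e e.injective).comp (push e e.injective)) W ≤ W := by
          refine im_le hW fun u hu => ?_
          have h7 : ((pull e e.injective).comp (push e e.injective)) u = u := pull_push _ _ _
          rw [h7]
          exact hu
        exact h6 h5
      rw [e1 _ isClosed_im, im_im']
      congr 1
      apply ContinuousLinearMap.ext
      intro f
      apply push_eq_of_pull
      ext x
      rcases x with ⟨x | x | x, h⟩
      · exact (dbl_inl f x).trans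
          (dbl_inl (rst (hatMap a) g2 b₀ f) (⟨x, congrArg Prod.snd h⟩ : Fib (hatMap a) b₀)).symm
      · exact (dbl_inr_inl f x).trans
          (dbl_inr_inl (rst (hatMap a) g2 b₀ f) (⟨x, congrArg Prod.snd h⟩ : Fib g2 b₀)).symm
      · exact (dbl_inr_inr f x).trans
          (dbl_inr_inr (rst (hatMap a) g2 b₀ f) (⟨x, congrArg Prod.snd h⟩ : Fib g2 b₀)).symm
    rw [h3] at h2
    exact h2

end ATY
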