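import Pool.Agent.ATY.Defs

/-!
# MP_585e9a_TREE, row HN: maximizers of supermodular functions on modular lattices with discrete dimensions

`d` is a modular strictly monotone dimension with discrete bounded values, `f` is supermodular.  For every real `t` the function
`f - t * d` has a largest maximizer (`exists_greatest`, `exists_topAt`), the largest maximizers decrease in `t` (`anti`), and
`f x` is bounded by the Riemann sums of `d (x ⊓ Y t)` (`le_avg`), `f ⊤` from below (`avg_le`).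
-/

set_option autoImplicit false

namespace ATY


/-- a modular dimension `d` with discrete bounded values and a bounded supermodular function `f` -/
structure MS {α : Type*} [Lattice α] (d f : α → ℝ) : Prop where
  dmod : ∀ x y, d (x ⊔ y) + d (x ⊓ y) = d x + d y
  inj : ∀ x y, x ≤ y → d y ≤ d x → x = y
  fsup : ∀ x y, f x + f y ≤ f (x ⊔ y) + f (x ⊓ y)
  disc : ∃ n : ℕ, 0 < n ∧ ∀ x, ∃ k : ℕ, (n : ℝ) * d x = k
  bdd : ∃ C : ℝ, ∀ x, f x ≤ C ∧ d x ≤ C

namespace MS

variable {α : Type*} [Lattice α] {d f : α → ℝ}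

/-- maximizers of `f - t * d` -/
def IsMax' (d f : α → ℝ) (t : ℝ) (y : α) : Prop := ∀ x, f x - t * d x ≤ f y - t * d y

/-- the largest maximizer of `f - t * d` -/
def IsTop' (d f : α → ℝ) (t : ℝ) (y : α) : Prop := IsMax' d f t y ∧ ∀ z, IsMax' d f t z → z ≤ y

theorem gsup (h : MS d f) (t : ℝ) (x y : α) :
    (f x - t * d x) + (f y - t * d y) ≤ (f (x ⊔ y) - t * d (x ⊔ y)) + (f (x ⊓ y) - t * d (x ⊓ y)) := by
  have h1 := h.fsup x y
  have h2 := h.dmod x y
  have h3 : t * d (x ⊔ y) + t * d (x ⊓ y) = t * d x + t * d y := by rw [← mul_add, h2, mul_add]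
  linarith

theorem isMax_sup (h : MS d f) {t : ℝ} {x y : α} (hx : IsMax' d f t x) (hy : IsMax' d f t y) : IsMax' d f t (x ⊔ y) := by
  intro z
  have h1 := h.gsup t x y
  have h2 := hx (x ⊓ y)
  have h3 := hy z
  linarith

theorem isMax_inf (h : MS d f) {t : ℝ} {x y : α} (hx : IsMax' d f t x) (hy : IsMax' d f t y) : IsMax' d f t (x ⊓ y) := by
  intro z
  have h1 := h.gsup t x y
  have h2 := hx (x ⊔ y)
  have h3 := hy z
  linarith

/-- a strictly larger element has a dimension larger by `1 / n` -/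
theorem gap (h : MS d f) {n : ℕ} (hn : 0 < n) (hk : ∀ x, ∃ k : ℕ, (n : ℝ) * d x = k) {x y : α} (hxy : x ≤ y) (hne : x ≠ y) :
    d x + 1 / n ≤ d y := by
  have hn' : (0 : ℝ) < n := by exact_mod_cast hn
  have h1 : d x < d y := by
    by_contra h1
    exact hne (h.inj x y hxy (not_lt.1 h1))
  obtain ⟨a, ha⟩ := hk x
  obtain ⟨b, hb⟩ := hk y
  have h2 : (n : ℝ) * d x < n * d y := mul_lt_mul_of_pos_left h1 hn'
  rw [ha, hb] at h2
  have h3 : a + 1 ≤ b := by exact_mod_cast h2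
  have h4 : (n : ℝ) * d x + 1 ≤ n * d y := by
    rw [ha, hb]
    exact_mod_cast h3
  have h5 : (n : ℝ) * (d x + 1 / n) ≤ n * d y := by
    rw [mul_add, mul_one_div_cancel hn'.ne']
    exact h4
  exact le_of_mul_le_mul_left h5 hn'

/-- the supremum of `f - t * d` is attained, and there is a largest maximizer -/
theorem exists_greatest [Nonempty α] (h : MS d f) (hd : ∀ x, 0 ≤ d x) (hf : ∀ x, 0 ≤ f x) (t : ℝ) : ∃ y, IsTop' d f t y := by
  classical
  obtain ⟨n, hn, hk⟩ := h.disc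
  obtain ⟨C, hC⟩ := h.bdd
  have hn' : (0 : ℝ) < n := by exact_mod_cast hn
  choose k hk using hk
  -- the dimensions
  obtain ⟨N, hN⟩ : ∃ N : ℕ, ∀ x, k x ≤ N := by
    refine ⟨⌈n * C⌉₊, fun x => ?_⟩
    have h1 : (k x : ℝ) ≤ n * C := by
      rw [← hk x]
      exact mul_le_mul_of_nonneg_left (hC x).2 hn'.le
    exact_mod_cast h1.trans (Nat.le_ceil _)
  set g : α → ℝ := fun x => f x - t * d x with hg
  have hbd : BddAbove (Set.range g) := by
    refine ⟨C + |t| * C, ?_⟩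
    rintro _ ⟨x, rfl⟩
    have h1 : -(t * d x) ≤ |t| * C := by
      have h2 : |t * d x| ≤ |t| * C := by
        rw [abs_mul, abs_of_nonneg (hd x)]
        exact mul_le_mul_of_nonneg_left (hC x).2 (abs_nonneg t)
      exact (neg_le_abs _).trans h2
    have h3 := (hC x).1
    show f x - t * d x ≤ _
    linarith
  set s : ℝ := ⨆ x, g x with hs
  have hgs : ∀ x, g x ≤ s := fun x => le_ciSup hbd x
  -- the good dimensions: those with near-maximizers of every precision
  let good : ℕ → Prop := fun m => ∀ ε : ℝ, 0 < ε → ∃ x, k x = m ∧ s - ε < g x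
  have hgood : ∃ m, m ≤ N ∧ good m := by
    by_contra hno
    push Not at hno
    have h1 : ∀ m : ℕ, m ≤ N → ∃ ε : ℝ, 0 < ε ∧ ∀ x, k x = m → g x ≤ s - ε := by
      intro m hm
      have h2 := hno m hm
      simp only [good] at h2
      push Not at h2
      exact h2
    choose! ε hε using h1
    obtain ⟨δ, hδ, hδ'⟩ : ∃ δ : ℝ, 0 < δ ∧ ∀ m ≤ N, δ ≤ ε m := by
      refine ⟨(Finset.range (N + 1)).inf' ⟨0, by simp⟩ ε, ?_, fun m hm => ?_⟩
      · rw [Finset.lt_inf'_iff]
        intro m hm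
        exact (hε m (by simpa [Nat.lt_succ_iff] using hm)).1
      · exact Finset.inf'_le _ (by simpa [Nat.lt_succ_iff] using hm)
    have h3 : s ≤ s - δ := ciSup_le fun x => by
      have h4 := (hε (k x) (hN x)).2 x rfl
      have h5 := hδ' (k x) (hN x)
      linarith
    linarith
  -- the largest good dimension
  obtain ⟨D, ⟨hDN, hD⟩, hDmax⟩ : ∃ D, (D ≤ N ∧ good D) ∧ ∀ m, m ≤ N → good m → m ≤ D := by
    have hfin : ({m | m ≤ N ∧ good m} : Set ℕ).Finite := (Set.finite_Iic N).subset fun m hm => hm.1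
    obtain ⟨D, hD, hD'⟩ := hfin.exists_maximalFor id _ hgood
    refine ⟨D, hD, fun m hm hm' => ?_⟩
    by_contra hlt
    have := hD' ⟨hm, hm'⟩ (by simpa using (not_le.1 hlt).le)
    simp only [id] at this
    omega
  -- above this dimension there is a gap
  obtain ⟨δ, hδ, hδ'⟩ : ∃ δ : ℝ, 0 < δ ∧ ∀ x, D < k x → g x ≤ s - δ := by
    have h1 : ∀ m : ℕ, D < m ∧ m ≤ N → ∃ ε : ℝ, 0 < ε ∧ ∀ x, k x = m → g x ≤ s - ε := by
      intro m hm
      have h2 : ¬ good m := fun hm' => absurd (hDmax m hm.2 hm') (not_le.2 hm.1)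
      simp only [good] at h2
      push Not at h2
      exact h2
    choose! ε hε using h1
    refine ⟨(Finset.range (N + 1)).inf' ⟨0, by simp⟩ (fun m => if D < m then ε m else 1), ?_, fun x hx => ?_⟩
    · rw [Finset.lt_inf'_iff]
      intro m hm
      split_ifs with h2
      · exact (hε m ⟨h2, by simpa [Nat.lt_succ_iff] using hm⟩).1
      · exact one_pos
    · have h3 := (hε (k x) ⟨hx, hN x⟩).2 x rfl
      have h4 : (Finset.range (N + 1)).inf' ⟨0, by simp⟩ (fun m => if D < m then ε m else 1) ≤ ε (k x) := by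
        refine (Finset.inf'_le (f := fun m => if D < m then ε m else 1) (b := k x)
          (by simpa [Nat.lt_succ_iff] using hN x)).trans ?_
        exact le_of_eq (if_pos hx)
      linarith
  -- near-maximizers of dimension `D` coincide
  have huniq : ∀ x y, k x = D → k y = D → s - δ / 2 < g x → s - δ / 2 < g y → x = y := by
    intro x y hx hy hgx hgy
    have h1 := h.gsup t x y
    have h2 : g (x ⊓ y) ≤ s := hgs _
    have h3 : s - δ < g (x ⊔ y) := by
      have : g x + g y ≤ g (x ⊔ y) + g (x ⊓ y) := h1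
      linarith
    have h4 : k (x ⊔ y) ≤ D := by
      by_contra h4
      have := hδ' _ (not_le.1 h4)
      linarith
    have key : ∀ z, z ≤ x ⊔ y → k z = D → z = x ⊔ y := by
      intro z hz hkz
      refine h.inj z _ hz ?_
      have h5 : (n : ℝ) * d (x ⊔ y) ≤ n * d z := by
        rw [hk, hk, hkz]
        exact_mod_cast h4
      exact le_of_mul_le_mul_left h5 hn'
    exact (key x le_sup_left hx).trans (key y le_sup_right hy).symm
  obtain ⟨y, hy, hgy⟩ := hD (δ / 2) (by linarith)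
  have hys : g y = s := by
    refine le_antisymm (hgs y) ?_
    by_contra hlt
    push Not at hlt
    obtain ⟨z, hz, hgz⟩ := hD (min (δ / 2) (s - g y)) (lt_min (by linarith) (by linarith))
    have h1 : s - δ / 2 < g z := by
      have := min_le_left (δ / 2) (s - g y)
      linarith
    have h2 := huniq y z hy hz hgy h1
    have h3 := min_le_right (δ / 2) (s - g y)
    rw [← h2] at hgz
    linarith
  have hmax : IsMax' d f t y := fun x => by
    have := hgs x
    rw [← hys] at this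
    exact this
  refine ⟨y, hmax, fun z hz => ?_⟩
  have h1 := h.isMax_sup hmax hz
  have h2 : g (y ⊔ z) = s := le_antisymm (hgs _) (by rw [← hys]; exact h1 y)
  have h3 : k (y ⊔ z) ≤ D := by
    by_contra h4
    have := hδ' _ (not_le.1 h4)
    linarith
  have h4 : y = y ⊔ z := by
    refine h.inj y _ le_sup_left ?_
    have h5 : (n : ℝ) * d (y ⊔ z) ≤ n * d y := by
      rw [hk, hk, hy]
      exact_mod_cast h3
    exact le_of_mul_le_mul_left h5 hn'
  rw [h4]
  exact le_sup_right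

/-- the largest maximizers decrease in `t` -/
theorem anti (h : MS d f) {t t' : ℝ} (ht : t ≤ t') {y y' : α} (hy : IsTop' d f t y) (hy' : IsMax' d f t' y') : y' ≤ y := by
  have hmono : d (y ⊓ y') ≤ d y' := by
    obtain ⟨n, hn, hk⟩ := h.disc
    by_cases he : y ⊓ y' = y'
    · rw [he]
    · have h0 := h.gap hn hk inf_le_right he
      have : (0 : ℝ) ≤ 1 / n := by positivity
      linarith
  have h1 := h.gsup t y y'
  have h2 := hy' (y ⊓ y')
  have h3 : f (y ⊓ y') - t * d (y ⊓ y') ≤ f y' - t * d y' := by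
    nlinarith
  have h4 : IsMax' d f t (y ⊔ y') := by
    intro x
    have h5 := hy.1 x
    linarith
  exact le_sup_right.trans (hy.2 _ h4)

/-- the basic inequality -/
theorem star (h : MS d f) {t : ℝ} {y : α} (hy : IsMax' d f t y) (x : α) :
    f x - f (x ⊓ y) ≤ t * (d x - d (x ⊓ y)) := by
  have h1 := h.gsup t x y
  have h2 := hy (x ⊔ y)
  linarith

/-- the upper bound by a Riemann sum -/
theorem le_sum (h : MS d f) (N : ℕ) (hN : 0 < N) (Y : ℕ → α) (hY : ∀ j ≤ N, IsMax' d f ((j : ℝ) / N) (Y j))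
    (hanti : ∀ j < N, Y (j + 1) ≤ Y j) (x : α) (h0 : x ≤ Y 0) (hfin : f (x ⊓ Y N) ≤ d (x ⊓ Y N)) :
    f x ≤ (∑ j ∈ Finset.range N, d (x ⊓ Y j)) / N := by
  have hN' : (0 : ℝ) < N := by exact_mod_cast hN
  have key : ∀ m ≤ N, N * (f x - f (x ⊓ Y m)) ≤ (∑ j ∈ Finset.range m, d (x ⊓ Y j)) - m * d (x ⊓ Y m) := by
    intro m
    induction m with
    | zero =>
      intro _
      rw [inf_eq_left.2 h0]
      simp
    | succ m ih =>
      intro hm
      have h1 := ih (by omega)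
      have h2 := h.star (hY (m + 1) hm) (x ⊓ Y m)
      have h3 : x ⊓ Y m ⊓ Y (m + 1) = x ⊓ Y (m + 1) := by
        rw [inf_assoc, inf_eq_right.2 (hanti m (by omega))]
      rw [h3] at h2
      have h4 : (N : ℝ) * (f (x ⊓ Y m) - f (x ⊓ Y (m + 1))) ≤ (m + 1) * (d (x ⊓ Y m) - d (x ⊓ Y (m + 1))) := by
        have h5 := mul_le_mul_of_nonneg_left h2 hN'.le
        rw [← mul_assoc, mul_div_cancel₀ _ hN'.ne'] at h5
        push_cast at h5
        exact h5
      rw [Finset.sum_range_succ]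
      push_cast
      linarith
  have h1 := key N le_rfl
  rw [le_div_iff₀ hN']
  nlinarith

/-- the lower bound by a Riemann sum -/
theorem sum_le (N : ℕ) (hN : 0 < N) (Y : ℕ → α) (hY : ∀ j ≤ N, IsMax' d f ((j : ℝ) / N) (Y j))
    (h0 : f (Y N) ≥ d (Y N)) : (∑ j ∈ Finset.range N, d (Y (j + 1))) / N ≤ f (Y 0) := by
  have hN' : (0 : ℝ) < N := by exact_mod_cast hN
  have key : ∀ m ≤ N, (∑ j ∈ Finset.range m, d (Y (j + 1))) - m * d (Y m) ≤ N * (f (Y 0) - f (Y m)) := by
    intro m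
    induction m with
    | zero =>
      intro _
      simp
    | succ m ih =>
      intro hm
      have h1 := ih (by omega)
      have h2 := hY m (by omega) (Y (m + 1))
      have h4 : (m : ℝ) * (d (Y m) - d (Y (m + 1))) ≤ N * (f (Y m) - f (Y (m + 1))) := by
        have h5 : (m : ℝ) / N * (d (Y m) - d (Y (m + 1))) ≤ f (Y m) - f (Y (m + 1)) := by linarith
        have h6 := mul_le_mul_of_nonneg_left h5 hN'.le
        rw [← mul_assoc, mul_div_cancel₀ _ hN'.ne'] at h6
        exact h6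
      rw [Finset.sum_range_succ]
      push_cast
      linarith
  have h1 := key N le_rfl
  rw [div_le_iff₀ hN']
  nlinarith

end MS


section HN
variable {α : Type*} [Lattice α] [BoundedOrder α]

theorem mono_of_strict {d : α → ℝ} (hs : ∀ a b, a < b → d a < d b) {a b : α} (h : a ≤ b) : d a ≤ d b := by
  rcases h.eq_or_lt with h | h
  · rw [h]
  · exact (hs a b h).le

theorem ms_of {n : ℕ} (hn : 0 < n) {d f : α → ℝ} (hd : ∀ a b, d (a ⊔ b) + d (a ⊓ b) = d a + d b)
    (hs : ∀ a b, a < b → d a < d b) (hz : ∀ a, ∃ z : ℤ, d a = z / n)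
    (hf : ∀ a b, f a + f b ≤ f (a ⊔ b) + f (a ⊓ b)) (h1 : ∀ a, f a ≤ d a) (hb : d ⊥ = 0) : MS d f where
  dmod := hd
  inj x y hxy h := by
    rcases hxy.eq_or_lt with h' | h'
    · exact h'
    · exact absurd (hs x y h') (not_lt.2 h)
  fsup := hf
  disc := by
    refine ⟨n, hn, fun x => ?_⟩
    have hn' : (0 : ℝ) < n := by exact_mod_cast hn
    obtain ⟨z, hzx⟩ := hz x
    have h2 : 0 ≤ d x := by
      rw [← hb]
      exact mono_of_strict hs bot_le
    have h3 : (0 : ℝ) ≤ z := by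
      rw [hzx] at h2
      have := mul_nonneg hn'.le h2
      rwa [mul_div_cancel₀ _ hn'.ne'] at this
    have h4 : 0 ≤ z := by exact_mod_cast h3
    refine ⟨z.toNat, ?_⟩
    rw [hzx, mul_div_cancel₀ _ hn'.ne']
    have h5 : ((z.toNat : ℤ) : ℝ) = (z : ℝ) := by rw [Int.toNat_of_nonneg h4]
    rw [← h5]
    norm_cast
  bdd := ⟨d ⊤, fun x => ⟨(h1 x).trans (mono_of_strict hs le_top), mono_of_strict hs le_top⟩⟩

theorem exists_topAt {n : ℕ} (hn : 0 < n) {d f : α → ℝ} (hd : ∀ a b, d (a ⊔ b) + d (a ⊓ b) = d a + d b)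
    (hs : ∀ a b, a < b → d a < d b) (hz : ∀ a, ∃ z : ℤ, d a = z / n)
    (hf : ∀ a b, f a + f b ≤ f (a ⊔ b) + f (a ⊓ b)) (h0 : ∀ a, 0 ≤ f a) (h1 : ∀ a, f a ≤ d a) (hb : d ⊥ = 0)
    (t : ℝ) : ∃ y, TopAt d f t y := by
  have hne : Nonempty α := ⟨⊥⟩
  obtain ⟨y, hy, hy'⟩ := (ms_of hn hd hs hz hf h1 hb).exists_greatest
    (fun x => by rw [← hb]; exact mono_of_strict hs bot_le) (fun x => h0 x) t
  exact ⟨y, hy, fun a ha => hy' a fun x => (hy x).trans ha⟩

theorem TopAt.isTop' {d f : α → ℝ} {t : ℝ} {y : α} (h : TopAt d f t y) : MS.IsTop' d f t y :=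
  ⟨h.1, fun z hz => h.2 z (hz y)⟩

theorem TopAt.unique {d f : α → ℝ} {t : ℝ} {y y' : α} (h : TopAt d f t y) (h' : TopAt d f t y') : y = y' :=
  le_antisymm (h'.2 y (h.1 y')) (h.2 y' (h'.1 y))

theorem TopAt.anti {n : ℕ} (hn : 0 < n) {d f : α → ℝ} (hd : ∀ a b, d (a ⊔ b) + d (a ⊓ b) = d a + d b)
    (hs : ∀ a b, a < b → d a < d b) (hz : ∀ a, ∃ z : ℤ, d a = z / n)
    (hf : ∀ a b, f a + f b ≤ f (a ⊔ b) + f (a ⊓ b)) (h1 : ∀ a, f a ≤ d a) (hb : d ⊥ = 0) {s t : ℝ} (hst : s ≤ t)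
    {y y' : α} (h : TopAt d f s y) (h' : TopAt d f t y') : y' ≤ y :=
  (ms_of hn hd hs hz hf h1 hb).anti hst h.isTop' h'.1

theorem TopAt.le_avg {n : ℕ} (hn : 0 < n) {d f : α → ℝ} (hd : ∀ a b, d (a ⊔ b) + d (a ⊓ b) = d a + d b)
    (hs : ∀ a b, a < b → d a < d b) (hz : ∀ a, ∃ z : ℤ, d a = z / n)
    (hf : ∀ a b, f a + f b ≤ f (a ⊔ b) + f (a ⊓ b)) (h0 : ∀ a, 0 ≤ f a) (h1 : ∀ a, f a ≤ d a) (hb : d ⊥ = 0)
    {N : ℕ} (hN : 0 < N) (y : ℕ → α) (hy : ∀ i ≤ N, TopAt d f ((i : ℝ) / N) (y i)) (m : α) :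
    f m ≤ (∑ i ∈ Finset.range N, d (m ⊓ y i)) / N := by
  have hN' : (0 : ℝ) < N := by exact_mod_cast hN
  have h := ms_of hn hd hs hz hf h1 hb
  have hanti : ∀ j < N, y (j + 1) ≤ y j := fun j hj =>
    h.anti (by
      rw [Nat.cast_add, Nat.cast_one]
      gcongr
      linarith) (hy j hj.le).isTop' (hy (j + 1) hj).1
  have h2 := h.star (hy 0 (Nat.zero_le _)).1 m
  rw [Nat.cast_zero, zero_div, zero_mul] at h2
  have h3 := h.le_sum N hN y (fun j hj => (hy j hj).1) hanti (m ⊓ y 0) inf_le_right (h1 _)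
  have h4 : ∀ j, j ≤ N → y j ≤ y 0 := by
    intro j
    induction j with
    | zero => intro _; exact le_rfl
    | succ j ih => intro hj; exact (hanti j hj).trans (ih (by omega))
  have h5 : ∑ j ∈ Finset.range N, d (m ⊓ y 0 ⊓ y j) = ∑ i ∈ Finset.range N, d (m ⊓ y i) :=
    Finset.sum_congr rfl fun j hj => by
      rw [inf_assoc, inf_eq_right.2 (h4 j (Finset.mem_range.1 hj).le)]
  rw [h5] at h3
  linarith

/-- the lower bound; `f` must be bounded by `f ⊤` -/
theorem TopAt.avg_le {n : ℕ} (hn : 0 < n) {d f : α → ℝ} (hd : ∀ a b, d (a ⊔ b) + d (a ⊓ b) = d a + d b)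
    (hs : ∀ a b, a < b → d a < d b) (hz : ∀ a, ∃ z : ℤ, d a = z / n)
    (hf : ∀ a b, f a + f b ≤ f (a ⊔ b) + f (a ⊓ b)) (h0 : ∀ a, 0 ≤ f a) (h1 : ∀ a, f a ≤ d a) (hb : d ⊥ = 0)
    (hm : ∀ a, f a ≤ f ⊤)
    {N : ℕ} (hN : 0 < N) (y : ℕ → α) (hy : ∀ i ≤ N, TopAt d f ((i : ℝ) / N) (y i)) :
    (∑ i ∈ Finset.range N, d (y (i + 1))) / N ≤ f ⊤ := by
  have hN' : (0 : ℝ) < N := by exact_mod_cast hN
  have h := ms_of hn hd hs hz hf h1 hb
  have h2 := (hy N le_rfl).1 ⊥
  rw [div_self hN'.ne', one_mul, one_mul, hb] at h2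
  have h3 := h0 ⊥
  exact (MS.sum_le N hN y (fun j hj => (hy j hj).1) (by linarith)).trans (hm _)

end HN

end ATY
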