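import Pool.Agent.ATY.E3b

/-!
# Rational induced modules have rational pieces (row HULL)

If the maxima of modules induced from `C` to `A` are induced (`SSP K A C`) and the module induced from the closed
`C`-invariant subspace `Y` is rational over `A`, then `Y` is rational over `C`: the largest maximum for `Z = ind Y`
and `0 < t < 1` is `ind Y` itself.
-/

set_option autoImplicit false

open scoped ComplexConjugate InnerProductSpace
open Filter Topology

namespace ATY
open Singer Pool.WeakAtiyah

section hull
variable {K : Subfield ℂ} {H X : Type} [Group H] [MulAction H X] [FC H X]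

/-- a rational subspace is its own largest maximum for `0 < t < 1` -/
lemma isTop_self {t : ℝ} (ht0 : 0 < t) (ht : t < 1) {Y : Submodule ℂ (L2 X)} (hY : Rat K H Y) :
    IsTop H (Rat K H) t Y Y := by
  have hself : hf H t Y Y = (1 - t) * vd H Y := by
    unfold hf
    rw [inf_idem]
    ring
  have hle : ∀ V, hf H t Y V ≤ (1 - t) * vd H (Y ⊓ V) := by
    intro V
    unfold hf
    have h1 : vd H (Y ⊓ V) ≤ vd H V := vd_mono inf_le_right
    nlinarith
  refine ⟨hY, fun V _ => ?_, fun V hV h => ?_⟩
  · rw [hself]
    exact (hle V).trans (mul_le_mul_of_nonneg_left (vd_mono inf_le_left) (by linarith))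
  · -- equality forces `V ≤ Y`
    rw [hself] at h
    have h1 : vd H Y ≤ vd H (Y ⊓ V) := by
      have h2 := h.trans (hle V)
      exact le_of_mul_le_mul_left h2 (by linarith)
    have h3 : Y ⊓ V = Y := eq_of_vd_le (hY.md.inf hV.md) hY.md inf_le_left h1
    have h4 : vd H V ≤ vd H Y := by
      unfold hf at h
      rw [h3] at h
      nlinarith
    have h5 : Y ≤ V := inf_eq_left.1 h3
    exact (eq_of_vd_le hY.md hV.md h5 h4).ge

end hull

section orb
variable {K : Subfield ℂ} {A : Type} [Group A] {X Q : Type} [MulAction A X] [FC A X] [MulAction A Q]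

/-- (H1) if `Y` is decomposed over one orbit with the stabiliser `C`, `SSP K A C` holds and `Y` is rational over `A`,
then its piece is rational over `C` -/
theorem rat_loc_of_rat {n : ℕ} (hn : 0 < n) {a : X →[A] Q} {q : Q} (ho : ∀ x, a x ∈ MulAction.orbit A q)
    (hR : RanksIn K (MulAction.stabilizer A q) n) (hS : SSP K A (MulAction.stabilizer A q))
    {Y : Submodule ℂ (L2 X)} (lY : Loc a Y) (hY : Rat K A Y) :
    Rat K (MulAction.stabilizer A q) (loc a q Y) := by
  obtain ⟨W, hW, lW, hT⟩ := exists_ltop (K := K) hn ho hR (1 / 2) hY.md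
  have h1 : IsTop A (Rat K A) (1 / 2) Y W := hS X Q a q rfl ho (1 / 2) Y W hY.md lY hW lW hT
  have h2 : W = Y := h1.unique (isTop_self (by norm_num) (by norm_num) hY)
  rw [← h2]
  exact hT.mem

end orb

end ATY
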