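import Pool.Agent.ATY.R2
import Pool.Agent.ATY.HN

/-!
# Largest maxima of `vd (Z ⊓ Y) - t * vd Y` over the rational subspaces `Y`
-/

set_option autoImplicit false

open scoped ComplexConjugate InnerProductSpace
open Filter Topology

namespace ATY
open Singer Pool.WeakAtiyah

section M
variable {K : Subfield ℂ} {H : Type} [Group H] {X : Type} [MulAction H X] [FC H X] {n : ℕ}

/-- the rational subspaces -/
def RS (K : Subfield ℂ) (H : Type) [Group H] (X : Type) [MulAction H X] : Type := {W : Submodule ℂ (L2 X) // Rat K H W}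

noncomputable instance : PartialOrder (RS K H X) := Subtype.partialOrder _

noncomputable instance : Lattice (RS K H X) where
  sup V W := ⟨(V.1 ⊔ W.1).topologicalClosure, V.2.sup W.2⟩
  inf V W := ⟨V.1 ⊓ W.1, V.2.inf W.2⟩
  le_sup_left V W := le_sup_left.trans (Submodule.le_topologicalClosure (V.1 ⊔ W.1))
  le_sup_right V W := le_sup_right.trans (Submodule.le_topologicalClosure (V.1 ⊔ W.1))
  sup_le V W U h1 h2 := Submodule.topologicalClosure_minimal _ (sup_le (a := V.1) (b := W.1) (c := U.1) h1 h2) U.2.md.cl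
  inf_le_left V W := show V.1 ⊓ W.1 ≤ V.1 from inf_le_left
  inf_le_right V W := show V.1 ⊓ W.1 ≤ W.1 from inf_le_right
  le_inf U V W h1 h2 := show U.1 ≤ V.1 ⊓ W.1 from le_inf h1 h2

noncomputable instance : BoundedOrder (RS K H X) where
  top := ⟨⊤, rat_top⟩
  le_top V := show V.1 ≤ ⊤ from le_top
  bot := ⟨⊥, rat_bot⟩
  bot_le V := show ⊥ ≤ V.1 from bot_le

/-- the dimension -/
noncomputable def rd (V : RS K H X) : ℝ := vd H V.1

/-- the dimension of the intersection with `Z` -/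
noncomputable def rf (Z : Submodule ℂ (L2 X)) (V : RS K H X) : ℝ := vd H (Z ⊓ V.1)

lemma rd_mod (a b : RS K H X) : rd (a ⊔ b) + rd (a ⊓ b) = rd a + rd b := vd_sup_add_inf a.2.md b.2.md

lemma rd_strict (a b : RS K H X) (h : a < b) : rd a < rd b := by
  by_contra hcon
  have h1 : a.1 ≤ b.1 := h.le
  exact h.ne (Subtype.ext (eq_of_vd_le a.2.md b.2.md h1 (not_lt.1 hcon)))

lemma rf_super {Z : Submodule ℂ (L2 X)} (hZ : Md H Z) (a b : RS K H X) : rf Z a + rf Z b ≤ rf Z (a ⊔ b) + rf Z (a ⊓ b) := by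
  have h1 := vd_sup_add_inf (hZ.inf a.2.md) (hZ.inf b.2.md)
  have h2 : ((Z ⊓ a.1) ⊔ (Z ⊓ b.1)).topologicalClosure ≤ Z ⊓ (a.1 ⊔ b.1).topologicalClosure := by
    refine Submodule.topologicalClosure_minimal _ (sup_le ?_ ?_) (hZ.inf (a.2.sup b.2).md).cl
    · exact inf_le_inf_left _ (le_sup_left.trans (Submodule.le_topologicalClosure _))
    · exact inf_le_inf_left _ (le_sup_right.trans (Submodule.le_topologicalClosure _))
  have h3 : (Z ⊓ a.1) ⊓ (Z ⊓ b.1) = Z ⊓ (a.1 ⊓ b.1) := by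
    rw [inf_inf_inf_comm, inf_idem]
  have h4 : vd H ((Z ⊓ a.1) ⊔ (Z ⊓ b.1)).topologicalClosure ≤ vd H (Z ⊓ (a.1 ⊔ b.1).topologicalClosure) := vd_mono h2
  rw [h3] at h1
  have h5 : rf Z (a ⊔ b) = vd H (Z ⊓ (a.1 ⊔ b.1).topologicalClosure) := rfl
  have h6 : rf Z (a ⊓ b) = vd H (Z ⊓ (a.1 ⊓ b.1)) := rfl
  have h7 : rf Z a = vd H (Z ⊓ a.1) := rfl
  have h8 : rf Z b = vd H (Z ⊓ b.1) := rfl
  rw [h5, h6, h7, h8]
  linarith

lemma rf_nonneg {Z : Submodule ℂ (L2 X)} (a : RS K H X) : 0 ≤ rf Z a := vd_nonneg _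

lemma rf_le {Z : Submodule ℂ (L2 X)} (a : RS K H X) : rf Z a ≤ rd a := vd_mono inf_le_right

lemma rd_bot : rd (⊥ : RS K H X) = 0 := vd_bot

lemma isTop_iff {t : ℝ} {Z : Submodule ℂ (L2 X)} {y : RS K H X} : IsTop H (Rat K H) t Z y.1 ↔ TopAt rd (rf Z) t y := by
  constructor
  · intro h
    exact ⟨fun a => h.le a.1 a.2, fun a ha => h.top a.1 a.2 ha⟩
  · intro h
    exact ⟨y.2, fun Y' hY' => h.1 ⟨Y', hY'⟩, fun Y' hY' hh => h.2 ⟨Y', hY'⟩ hh⟩

theorem exists_isTop (hn : 0 < n) (hR : RanksIn K H n) (t : ℝ) {Z : Submodule ℂ (L2 X)} (hZ : Md H Z) :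
    ∃ Y, IsTop H (Rat K H) t Z Y := by
  obtain ⟨y, hy⟩ := exists_topAt (α := RS K H X) hn rd_mod rd_strict (fun a => a.2.vd_eq hn hR) (rf_super hZ)
    rf_nonneg rf_le rd_bot t
  exact ⟨y.1, isTop_iff.2 hy⟩

theorem IsTop.unique {t : ℝ} {Z Y Y' : Submodule ℂ (L2 X)} (h : IsTop H (Rat K H) t Z Y)
    (h' : IsTop H (Rat K H) t Z Y') : Y = Y' :=
  le_antisymm (h'.top Y h.mem (h.le Y' h'.mem)) (h.top Y' h'.mem (h'.le Y h.mem))

theorem IsTop.le_avg (hn : 0 < n) (hR : RanksIn K H n) {Z : Submodule ℂ (L2 X)} (hZ : Md H Z) {N : ℕ} (hN : 0 < N)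
    {Y : ℕ → Submodule ℂ (L2 X)} (hY : ∀ i ≤ N, IsTop H (Rat K H) ((i : ℝ) / N) Z (Y i)) {M : Submodule ℂ (L2 X)}
    (hM : Rat K H M) : vd H (M ⊓ Z) ≤ (∑ i ∈ Finset.range N, vd H (M ⊓ Y i)) / N := by
  classical
  let y : ℕ → RS K H X := fun i => if h : i ≤ N then ⟨Y i, (hY i h).mem⟩ else ⊥
  have hy : ∀ i (h : i ≤ N), y i = ⟨Y i, (hY i h).mem⟩ := fun i h => dif_pos h
  have h1 := TopAt.le_avg (α := RS K H X) hn rd_mod rd_strict (fun a => a.2.vd_eq hn hR) (rf_super hZ)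
    rf_nonneg rf_le rd_bot hN y (fun i hi => by
      rw [hy i hi]
      exact isTop_iff.1 (hY i hi)) ⟨M, hM⟩
  have h2 : rf Z (⟨M, hM⟩ : RS K H X) = vd H (M ⊓ Z) := by
    show vd H (Z ⊓ M) = _
    rw [inf_comm]
  rw [h2] at h1
  refine h1.trans (le_of_eq ?_)
  congr 1
  refine Finset.sum_congr rfl fun i hi => ?_
  rw [hy i (Finset.mem_range.1 hi).le]
  rfl

theorem IsTop.avg_le (hn : 0 < n) (hR : RanksIn K H n) {Z : Submodule ℂ (L2 X)} (hZ : Md H Z) {N : ℕ} (hN : 0 < N)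
    {Y : ℕ → Submodule ℂ (L2 X)} (hY : ∀ i ≤ N, IsTop H (Rat K H) ((i : ℝ) / N) Z (Y i)) :
    (∑ i ∈ Finset.range N, vd H (Y (i + 1))) / N ≤ vd H Z := by
  classical
  let y : ℕ → RS K H X := fun i => if h : i ≤ N then ⟨Y i, (hY i h).mem⟩ else ⊥
  have hy : ∀ i (h : i ≤ N), y i = ⟨Y i, (hY i h).mem⟩ := fun i h => dif_pos h
  have h1 := TopAt.avg_le (α := RS K H X) hn rd_mod rd_strict (fun a => a.2.vd_eq hn hR) (rf_super hZ)
    rf_nonneg rf_le rd_bot (fun a => vd_mono (inf_le_inf_left _ le_top)) hN y (fun i hi => by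
      rw [hy i hi]
      exact isTop_iff.1 (hY i hi))
  have h2 : rf Z (⊤ : RS K H X) = vd H Z := by
    show vd H (Z ⊓ ⊤) = _
    rw [inf_top_eq]
  rw [h2] at h1
  refine le_trans (le_of_eq ?_) h1
  congr 1
  refine Finset.sum_congr rfl fun i hi => ?_
  rw [hy (i + 1) (Finset.mem_range.1 hi)]
  rfl

lemma map_push_inf {X' : Type} (e : X ≃ X') (V W : Submodule ℂ (L2 X)) :
    (V ⊓ W).map (push e e.injective : L2 X →ₗ[ℂ] L2 X') =
      V.map (push e e.injective : L2 X →ₗ[ℂ] L2 X') ⊓ W.map (push e e.injective : L2 X →ₗ[ℂ] L2 X') :=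
  Submodule.map_inf _ (Function.LeftInverse.injective (g := pull e e.injective) fun f => pull_push e e.injective f)

lemma map_push_symm {X' : Type} (e : X ≃ X') (V : Submodule ℂ (L2 X')) :
    (V.map (push e.symm e.symm.injective : L2 X' →ₗ[ℂ] L2 X)).map (push e e.injective : L2 X →ₗ[ℂ] L2 X') = V := by
  ext f
  constructor
  · rintro ⟨_, ⟨g, hg, rfl⟩, rfl⟩
    have : push e e.injective (push e.symm e.symm.injective g) = g := by
      ext x
      rw [push_equiv_apply, push_equiv_apply, Equiv.symm_symm, Equiv.apply_symm_apply]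
    show push e e.injective (push e.symm e.symm.injective g) ∈ V
    rw [this]; exact hg
  · intro hf
    refine ⟨push e.symm e.symm.injective f, ⟨f, hf, rfl⟩, ?_⟩
    show push e e.injective (push e.symm e.symm.injective f) = f
    ext x
    rw [push_equiv_apply, push_equiv_apply, Equiv.symm_symm, Equiv.apply_symm_apply]

theorem IsTop.equiv {H' X' : Type} [Group H'] [MulAction H' X'] [FC H' X'] (α : H ≃* H') (e : X ≃ X')
    (he : ∀ (h : H) (x : X), e (h • x) = α h • e x) {t : ℝ} {Z Y : Submodule ℂ (L2 X)} (hZ : Md H Z)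
    (h : IsTop H (Rat K H) t Z Y) : IsTop H' (Rat K H') t (Z.map (push e e.injective : L2 X →ₗ[ℂ] L2 X'))
      (Y.map (push e e.injective : L2 X →ₗ[ℂ] L2 X')) := by
  have he' : ∀ (h : H') (x : X'), e.symm (h • x) = α.symm h • e.symm x := by
    intro h x
    rw [Equiv.symm_apply_eq, he, MulEquiv.apply_symm_apply, Equiv.apply_symm_apply]
  have hhf : ∀ V : Submodule ℂ (L2 X), Md H V → hf H' t (Z.map (push e e.injective : L2 X →ₗ[ℂ] L2 X'))
      (V.map (push e e.injective : L2 X →ₗ[ℂ] L2 X')) = hf H t Z V := by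
    intro V hV
    unfold hf
    rw [← map_push_inf, vd_equiv α e he (hZ.inf hV), vd_equiv α e he hV]
  have hback : ∀ Y' : Submodule ℂ (L2 X'), Rat K H' Y' → ∃ V, Rat K H V ∧
      V.map (push e e.injective : L2 X →ₗ[ℂ] L2 X') = Y' := fun Y' hY' =>
    ⟨_, hY'.equiv α.symm e.symm he', map_push_symm e Y'⟩
  refine ⟨h.mem.equiv α e he, ?_, ?_⟩
  · intro Y' hY'
    obtain ⟨V, hV, rfl⟩ := hback Y' hY'
    rw [hhf V hV.md, hhf Y h.mem.md]
    exact h.le V hV
  · intro Y' hY' hle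
    obtain ⟨V, hV, rfl⟩ := hback Y' hY'
    rw [hhf V hV.md, hhf Y h.mem.md] at hle
    exact Submodule.map_mono (h.top V hV hle)

/-- the largest maximum inherits a decomposition -/
theorem IsTop.cu {t : ℝ} {Z Y : Submodule ℂ (L2 X)} (hZ : Md H Z) (h : IsTop H (Rat K H) t Z Y) {S : Set X}
    (hS : ∀ (h : H), ∀ x ∈ S, h • x ∈ S) (hc : ∀ f ∈ Z, cu S f ∈ Z) : ∀ f ∈ Y, cu S f ∈ Y := by
  classical
  set T : L2 X →L[ℂ] L2 X := 1 - ATY.cu S with hT
  have hTK : KOp K H T := kop_id.sub (kop_cu hS)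
  have hTa : ∀ f, T f = f - ATY.cu S f := fun f => rfl
  have hTcu : ∀ f x, T f x = if x ∈ S then 0 else f x := by
    intro f x
    rw [hTa]
    show f x - ATY.cu S f x = _
    rw [cu_apply]
    split_ifs <;> simp
  -- the two parts are independent
  have hdisj : ∀ V : Submodule ℂ (L2 X), (V ⊓ kr T) ⊓ im T V = ⊥ := by
    intro V
    rw [eq_bot_iff]
    rintro f ⟨⟨_, hf1⟩, hf2⟩
    have h1 : im T V ≤ kr (ATY.cu S : L2 X →L[ℂ] L2 X) := by
      refine im_le (md_kr (H := H) (kop_cu (K := K) hS).equi).cl ?_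
      intro g _
      rw [mem_kr]
      ext x
      show ATY.cu S (T g) x = 0
      rw [cu_apply, hTcu]
      split_ifs <;> rfl
    have h2 : ATY.cu S f = 0 := mem_kr.1 (h1 hf2)
    have h3 : T f = 0 := mem_kr.1 hf1
    rw [hTa, h2, sub_zero] at h3
    rw [Submodule.mem_bot]; exact h3
  have hsum : ∀ V : Submodule ℂ (L2 X), Md H V → vd H ((V ⊓ kr T) ⊔ im T V).topologicalClosure = vd H V := by
    intro V hV
    have h1 := vd_sup_add_inf (hV.inf (md_kr hTK.equi)) (Md.im hTK.equi hV)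
    rw [hdisj, vd_bot, add_zero] at h1
    have h2 := vd_im_add hTK.equi hV
    linarith
  set Y1 : Submodule ℂ (L2 X) := ((Y ⊓ kr T) ⊔ im T Y).topologicalClosure with hY1
  have hrat : Rat K H Y1 := (h.mem.inf (rat_kr hTK)).sup (h.mem.im hTK)
  have hZim : im T (Z ⊓ Y) ≤ Z := by
    refine im_le hZ.cl ?_
    intro f hf
    show T f ∈ Z
    rw [hTa]
    exact sub_mem hf.1 (hc f hf.1)
  have hle : ((Z ⊓ Y) ⊓ kr T ⊔ im T (Z ⊓ Y)).topologicalClosure ≤ Z ⊓ Y1 := by
    refine Submodule.topologicalClosure_minimal _ (sup_le ?_ ?_) (hZ.inf hrat.md).cl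
    · refine le_inf (inf_le_left.trans inf_le_left) ?_
      refine le_trans ?_ (Submodule.le_topologicalClosure _)
      exact le_trans (inf_le_inf_right _ inf_le_right) le_sup_left
    · refine le_inf hZim ?_
      refine le_trans ?_ (Submodule.le_topologicalClosure _)
      exact le_trans (im_mono inf_le_right) le_sup_right
  have h1 : hf H t Z Y ≤ hf H t Z Y1 := by
    unfold hf
    have h2 := vd_mono (H := H) hle
    rw [hsum _ (hZ.inf h.mem.md)] at h2
    have h3 : vd H Y1 = vd H Y := hsum Y h.mem.md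
    rw [h3]
    linarith
  have h2 := h.top Y1 hrat h1
  intro f hf
  have h3 : T f ∈ Y := h2 (Submodule.le_topologicalClosure _ (Submodule.mem_sup_right (map_le_im ⟨f, hf, rfl⟩)))
  have h4 : ATY.cu S f = f - T f := by rw [hTa, sub_sub_cancel]
  rw [h4]
  exact sub_mem hf h3

/-- normal subgroups of finite index have the same maxima -/
theorem IsTop.res (hn : 0 < n) (hR : RanksIn K H n) {t : ℝ} {Z Y : Submodule ℂ (L2 X)} (hZ : Md H Z)
    (h : IsTop H (Rat K H) t Z Y) (N : Subgroup H) [N.Normal] [N.FiniteIndex] : IsTop N (Rat K N) t Z Y := by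
  have hRN : RanksIn K N n := ranksIn_of_injective N.subtype N.subtype_injective hR
  have hZN : Md N Z := ⟨fun h f hf => hZ.inv h.1 f hf, hZ.cl⟩
  obtain ⟨Y', hY'⟩ := exists_isTop (K := K) (H := N) hn hRN t hZN
  -- invariance
  have hinv : ∀ (g : H), ∀ f ∈ Y', la g f ∈ Y' := by
    intro g f hf
    let α : N ≃* N := MulAut.conjNormal g
    let e : X ≃ X := MulAction.toPerm g
    have he : ∀ (m : N) (x : X), e (m • x) = α m • e x := by
      intro m x
      show g • ((m : H) • x) = ((α m : N) : H) • (g • x)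
      rw [MulAut.conjNormal_apply, smul_smul, smul_smul]
      congr 1
      group
    have hpush : ∀ f : L2 X, push e e.injective f = la g f := by
      intro f
      ext x
      rw [push_equiv_apply]
      rfl
    have h1 := IsTop.equiv α e he hZN hY'
    have h2 : Z.map (push e e.injective : L2 X →ₗ[ℂ] L2 X) = Z := by
      ext f
      constructor
      · rintro ⟨u, hu, rfl⟩
        show push e e.injective u ∈ Z
        rw [hpush]; exact hZ.inv g u hu
      · intro hf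
        refine ⟨la g⁻¹ f, hZ.inv g⁻¹ f hf, ?_⟩
        show push e e.injective (la g⁻¹ f) = f
        rw [hpush]
        ext x
        show f (g⁻¹⁻¹ • g⁻¹ • x) = f x
        rw [inv_inv, smul_inv_smul]
    rw [h2] at h1
    have h3 := hY'.unique h1
    rw [h3]
    exact ⟨f, hf, hpush f⟩
  have hMY' : Md H Y' := ⟨hinv, hY'.mem.md.cl⟩
  have hrY' : Rat K H Y' := Rat.asc hMY' N hY'.mem
  have hidx : (0 : ℝ) < N.index := by
    exact_mod_cast Nat.pos_of_ne_zero (Subgroup.FiniteIndex.index_ne_zero (H := N))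
  have hhf : ∀ V : Submodule ℂ (L2 X), Md H V → hf N t Z V = N.index * hf H t Z V := by
    intro V hV
    unfold hf
    rw [vd_index N (hZ.inf hV), vd_index N hV]
    ring
  have hrY : Rat K N Y := h.mem.res N
  have h1 := h.le Y' hrY'
  have h2 := hY'.le Y hrY
  rw [hhf Y h.mem.md, hhf Y' hMY'] at h2
  have h3 : hf H t Z Y ≤ hf H t Z Y' := le_of_mul_le_mul_left h2 hidx
  have h4 : Y' ≤ Y := h.top Y' hrY' h3
  have h5 : Y ≤ Y' := by
    refine hY'.top Y hrY ?_
    rw [hhf Y h.mem.md, hhf Y' hMY']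
    exact mul_le_mul_of_nonneg_left h1 hidx.le
  rw [le_antisymm h5 h4]
  exact hY'

end M

end ATY
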