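import Pool.Agent.ATY.R

/-!
# Rational subspaces: ascent from a subgroup of finite index
-/

set_option autoImplicit false

open scoped ComplexConjugate InnerProductSpace
open Filter Topology

namespace ATY
open Singer Pool.WeakAtiyah

section ind
variable {H : Type} [Group H] (N : Subgroup H)

/-- the induced set `H ×_N A` -/
def Ind (A : Type) : Type := (H ⧸ N) × A

/-- the point `a` on the sheet `c` -/
def imk {A : Type} (c : H ⧸ N) (a : A) : Ind N A := (c, a)

lemma imk_inj {A : Type} (c : H ⧸ N) : Function.Injective (imk N c : A → Ind N A) := fun _ _ h => congrArg Prod.snd h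

/-- the cocycle -/
noncomputable def cyc (g : H) (c : H ⧸ N) : N :=
  ⟨(Quotient.out (g • c))⁻¹ * (g * Quotient.out c), by
    have h1 : ((Quotient.out (g • c) : H) : H ⧸ N) = ((g * Quotient.out c : H) : H ⧸ N) := by
      have h2 : ((Quotient.out c : H) : H ⧸ N) = c := Quotient.out_eq' c
      have h3 : ((g * Quotient.out c : H) : H ⧸ N) = g • ((Quotient.out c : H) : H ⧸ N) := rfl
      rw [h3, h2]
      exact Quotient.out_eq' (g • c)
    exact QuotientGroup.eq.1 h1⟩

lemma out_mul_cyc (g : H) (c : H ⧸ N) : Quotient.out (g • c) * (cyc N g c : H) = g * Quotient.out c := by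
  unfold cyc
  rw [mul_inv_cancel_left]

noncomputable instance indAct (A : Type) [MulAction N A] : MulAction H (Ind N A) where
  smul g x := (g • x.1, cyc N g x.1 • x.2)
  one_smul x := by
    refine Prod.ext (one_smul H x.1) ?_
    have h1 : cyc N 1 x.1 = 1 := by
      apply Subtype.ext
      have h2 := out_mul_cyc N 1 x.1
      rw [one_smul, one_mul] at h2
      exact mul_eq_left.1 h2
    show cyc N 1 x.1 • x.2 = x.2
    rw [h1, one_smul]
  mul_smul g h x := by
    refine Prod.ext (mul_smul g h x.1) ?_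
    show cyc N (g * h) x.1 • x.2 = cyc N g (h • x.1) • cyc N h x.1 • x.2
    rw [← mul_smul]
    congr 1
    apply Subtype.ext
    have h1 := out_mul_cyc N (g * h) x.1
    have h2 := out_mul_cyc N g (h • x.1)
    have h3 := out_mul_cyc N h x.1
    show (cyc N (g * h) x.1 : H) = (cyc N g (h • x.1) : H) * (cyc N h x.1 : H)
    rw [mul_smul] at h1
    have h4 : Quotient.out (g • h • x.1) * (cyc N (g * h) x.1 : H) =
        Quotient.out (g • h • x.1) * ((cyc N g (h • x.1) : H) * (cyc N h x.1 : H)) := by
      rw [h1, ← mul_assoc, h2, mul_assoc, mul_assoc, h3]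
    exact mul_left_cancel h4

lemma ind_smul {A : Type} [MulAction N A] (g : H) (c : H ⧸ N) (x : A) :
    g • imk N c x = imk N (g • c) (cyc N g c • x) := rfl

instance indFC (A : Type) [MulAction N A] [hA : FC N A] : FC H (Ind N A) where
  free g x hx := by
    have h1 : g • x.1 = x.1 := congrArg Prod.fst hx
    have h2 : cyc N g x.1 • x.2 = x.2 := congrArg Prod.snd hx
    have h3 := hA.free _ _ h2
    have h4 := out_mul_cyc N g x.1
    rw [h1, h3] at h4
    have h5 : Quotient.out x.1 = g * Quotient.out x.1 := by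
      have h6 : Quotient.out x.1 * ((1 : N) : H) = g * Quotient.out x.1 := h4
      rwa [Subgroup.coe_one, mul_one] at h6
    exact mul_eq_right.1 h5.symm
  fin := by
    have h1 : Finite (MulAction.orbitRel.Quotient N A) := hA.fin
    let c₀ : H ⧸ N := ((1 : H) : H ⧸ N)
    refine Finite.of_surjective (fun q : MulAction.orbitRel.Quotient N A =>
      Quotient.mk (MulAction.orbitRel H (Ind N A)) (imk N c₀ q.out)) ?_
    intro q
    induction q using Quotient.inductionOn with
    | h x =>
      obtain ⟨c, a⟩ := x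
      refine ⟨Quotient.mk (MulAction.orbitRel N A) a, Quotient.sound ?_⟩
      have h3 : (MulAction.orbitRel N A) (Quotient.mk (MulAction.orbitRel N A) a).out a :=
        @Quotient.exact A (MulAction.orbitRel N A) _ _ (Quotient.out_eq (Quotient.mk (MulAction.orbitRel N A) a))
      obtain ⟨n, hn⟩ := h3
      -- hn : n • a = out
      refine ⟨Quotient.out c₀ * n * (Quotient.out c)⁻¹, ?_⟩
      have h4 : (Quotient.out c₀ * (n : H) * (Quotient.out c)⁻¹) • c = c₀ := by
        have h5 : ((Quotient.out c : H) : H ⧸ N) = c := Quotient.out_eq' c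
        have h7 : ∀ g : H, g • c = ((g * Quotient.out c : H) : H ⧸ N) := by
          intro g
          have h8 : g • ((Quotient.out c : H) : H ⧸ N) = ((g * Quotient.out c : H) : H ⧸ N) := rfl
          rw [← h8, h5]
        rw [h7, inv_mul_cancel_right]
        have h6 : ((Quotient.out c₀ * (n : H) : H) : H ⧸ N) = ((Quotient.out c₀ : H) : H ⧸ N) :=
          (QuotientGroup.eq.2 (by rw [inv_mul_cancel_left]; exact n.2)).symm
        rw [h6]
        exact Quotient.out_eq' c₀
      have h5 : cyc N (Quotient.out c₀ * (n : H) * (Quotient.out c)⁻¹) c = n := by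
        apply Subtype.ext
        have h6 := out_mul_cyc N (Quotient.out c₀ * (n : H) * (Quotient.out c)⁻¹) c
        rw [h4, inv_mul_cancel_right] at h6
        exact mul_left_cancel h6
      show (Quotient.out c₀ * (n : H) * (Quotient.out c)⁻¹) • imk N c a = imk N c₀ _
      rw [ind_smul, h4, h5]
      exact congrArg (imk N c₀) hn

/-- the sheet `c` -/
noncomputable def sh {A : Type} (c : H ⧸ N) : L2 (Ind N A) →L[ℂ] L2 A :=
  pull (imk N c) (imk_inj N c)

/-- inclusion of the sheet `c` -/
noncomputable def hs {A : Type} (c : H ⧸ N) : L2 A →L[ℂ] L2 (Ind N A) :=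
  push (imk N c) (imk_inj N c)

lemma sh_apply {A : Type} (c : H ⧸ N) (f : L2 (Ind N A)) (a : A) : sh N c f a = f (imk N c a) := rfl

lemma sh_hs {A : Type} (c : H ⧸ N) (f : L2 A) : sh N c (hs N c f) = f := pull_push _ _ _

lemma sh_hs_ne {A : Type} {c c' : H ⧸ N} (h : c ≠ c') (f : L2 A) : sh N c (hs N c' f) = 0 := by
  ext a
  refine push_apply_of_notMem (imk N c') (imk_inj N c') f (y := imk N c a) ?_
  rintro ⟨b, hb⟩
  exact h (congrArg Prod.fst hb).symm

lemma sh_ext {A : Type} {f g : L2 (Ind N A)} (h : ∀ c, sh N c f = sh N c g) : f = g := by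
  ext x
  exact congrArg (fun u : L2 A => u x.2) (h x.1)

/-- the sheets of a translate -/
lemma sh_la {A : Type} [MulAction N A] (g : H) (c : H ⧸ N) (f : L2 (Ind N A)) :
    sh N c (la g f) = la (cyc N g⁻¹ c)⁻¹ (sh N (g⁻¹ • c) f) := by
  ext a
  rw [sh_apply, la_apply, la_apply, inv_inv, sh_apply]
  rfl

lemma hs_apply {A : Type} (c : H ⧸ N) (f : L2 A) (a : A) : hs N c f (imk N c a) = f a := push_apply _ _ _ _

/-- translates of sheets -/
lemma la_hs {A : Type} [MulAction N A] (g : H) (c : H ⧸ N) (f : L2 A) :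
    la g (hs N c f) = hs N (g • c) (la (cyc N g c) f) := by
  apply sh_ext
  intro c'
  rw [sh_la]
  by_cases h : g⁻¹ • c' = c
  · subst h
    rw [sh_hs, smul_inv_smul, sh_hs]
    have h1 : (cyc N g⁻¹ c')⁻¹ = cyc N g (g⁻¹ • c') := by
      apply Subtype.ext
      have h2 := out_mul_cyc N g⁻¹ c'
      have h3 := out_mul_cyc N g (g⁻¹ • c')
      rw [smul_inv_smul] at h3
      have h4 : Quotient.out c' * ((cyc N g (g⁻¹ • c') : H) * (cyc N g⁻¹ c' : H)) = Quotient.out c' * 1 := by
        rw [← mul_assoc, h3, mul_assoc, h2, mul_inv_cancel_left, mul_one]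
      have h5 := mul_left_cancel h4
      rw [Subgroup.coe_inv]
      exact inv_eq_of_mul_eq_one_left h5
    rw [h1]
  · rw [sh_hs_ne N h, sh_hs_ne N, map_zero]
    rintro rfl
    exact h (inv_smul_smul _ _)

open Classical in
lemma sh_dl {A : Type} (c : H ⧸ N) (x : Ind N A) : sh N c (dl x) = if c = x.1 then dl x.2 else 0 := by
  split_ifs with h
  · subst h
    ext a
    rw [sh_apply]
    unfold dl
    rw [lp.single_apply, lp.single_apply]
    by_cases ha : a = x.2
    · subst ha
      rw [show imk N x.1 x.2 = x from rfl, Pi.single_eq_same, Pi.single_eq_same]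
    · rw [Pi.single_eq_of_ne ha, Pi.single_eq_of_ne]
      intro h1
      exact ha (congrArg Prod.snd h1)
  · ext a
    rw [sh_apply]
    unfold dl
    rw [lp.single_apply, Pi.single_eq_of_ne]
    · rfl
    · intro h1
      exact h (congrArg Prod.fst h1)

lemma hs_dl {A : Type} (c : H ⧸ N) (a : A) : hs N c (dl a) = dl (imk N c a) := by
  apply sh_ext
  intro c'
  rw [sh_dl]
  split_ifs with h
  · have h' : c' = c := h
    rw [h', sh_hs]
    rfl
  · exact sh_hs_ne N h _

lemma la_dl' {A : Type*} {L : Type*} [Group L] [MulAction L A] (g : L) (a : A) : la g (dl a) = dl (g • a) := by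
  classical
  ext b
  rw [la_apply]
  unfold dl
  rw [lp.single_apply, lp.single_apply]
  by_cases h : b = g • a
  · subst h
    rw [inv_smul_smul, Pi.single_eq_same, Pi.single_eq_same]
  · rw [Pi.single_eq_of_ne h, Pi.single_eq_of_ne]
    intro h1
    exact h (by rw [← h1, smul_inv_smul])

/-- the induced operator -/
theorem exists_indOp {K : Subfield ℂ} {A B : Type} [MulAction N A] [MulAction N B] [FC N A] [FC N B]
    {T : L2 A →L[ℂ] L2 B} (hT : KOp K N T) : ∃ U : L2 (Ind N A) →L[ℂ] L2 (Ind N B), KOp K H U ∧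
      ∀ (c : H ⧸ N) (f : L2 (Ind N A)), sh N c (U f) = T (sh N c f) := by
  classical
  have hz : ∀ (c : H ⧸ N) (f : L2 B) (y : Ind N B), hs N c f y = if y.1 = c then f y.2 else 0 := by
    intro c f y
    split_ifs with h
    · subst h
      exact hs_apply N y.1 f y.2
    · refine push_apply_of_notMem (imk N c) (imk_inj N c) f ?_
      rintro ⟨b, hb⟩
      exact h (congrArg Prod.fst hb).symm
  obtain ⟨U, hU, hUv⟩ := exists_kop (K := K) (H := H) (X := Ind N A) (Y := Ind N B) (fun x => hs N x.1 (T (dl x.2)))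
    (by
      intro g x
      show hs N (g • x.1) (T (dl (cyc N g x.1 • x.2))) = la g (hs N x.1 (T (dl x.2)))
      rw [la_hs, ← hT.equi, la_dl'])
    (by
      intro x
      refine ((hT.fs x.2).image (imk N x.1)).subset ?_
      intro y hy
      have hy' : hs N x.1 (T (dl x.2)) y ≠ 0 := hy
      rw [hz] at hy'
      by_cases h : y.1 = x.1
      · rw [if_pos h] at hy'
        exact ⟨y.2, hy', Prod.ext h.symm rfl⟩
      · rw [if_neg h] at hy'
        exact absurd rfl hy')
    (by
      intro x y
      show hs N x.1 (T (dl x.2)) y ∈ K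
      rw [hz]
      split_ifs
      · exact hT.val _ _
      · exact K.zero_mem)
  refine ⟨U, hU, fun c f => ?_⟩
  have h1 : (sh N c).comp U = T.comp (sh N c) := by
    apply eq_of_dl
    intro x
    show sh N c (U (dl x)) = T (sh N c (dl x))
    rw [hUv, sh_dl]
    split_ifs with h
    · rw [h, sh_hs]
    · rw [sh_hs_ne N h, map_zero]
  exact congrArg (fun V : L2 (Ind N A) →L[ℂ] L2 B => V f) h1

/-- the induced subspace -/
def indSub {A : Type} (W : Submodule ℂ (L2 A)) : Submodule ℂ (L2 (Ind N A)) where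
  carrier := {f | ∀ c, sh N c f ∈ W}
  add_mem' {f g} hf hg c := by
    rw [map_add]
    exact W.add_mem (hf c) (hg c)
  zero_mem' c := by
    rw [map_zero]
    exact W.zero_mem
  smul_mem' t f hf c := by
    rw [map_smul]
    exact W.smul_mem t (hf c)

lemma mem_indSub {A : Type} {W : Submodule ℂ (L2 A)} {f : L2 (Ind N A)} : f ∈ indSub N W ↔ ∀ c, sh N c f ∈ W := Iff.rfl

/-- a closed subspace which contains all sheets of a function contains the function -/
lemma mem_of_sheets {A : Type} {V : Submodule ℂ (L2 (Ind N A))} (hV : IsClosed (V : Set (L2 (Ind N A))))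
    {f : L2 (Ind N A)} (h : ∀ c, hs N c (sh N c f) ∈ V) : f ∈ V := by
  have hcV : CompleteSpace V := hV.completeSpace_coe
  rw [← Submodule.orthogonal_orthogonal V, Submodule.mem_orthogonal]
  intro w hw
  have h1 : ∀ c, ⟪sh N c w, sh N c f⟫_ℂ = 0 := by
    intro c
    have h2 := (Submodule.mem_orthogonal V w).1 hw _ (h c)
    have h3 : ⟪w, hs N c (sh N c f)⟫_ℂ = 0 := by
      rw [← inner_conj_symm, h2, map_zero]
    rw [← h3, inner_eq, inner_eq]
    have h4 : ∀ x : Ind N A, x ∉ Set.range (imk N c : A → Ind N A) → conj (w x) * hs N c (sh N c f) x = 0 := by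
      intro x hx
      rw [show hs N c (sh N c f) x = 0 from push_apply_of_notMem (imk N c) (imk_inj N c) _ hx, mul_zero]
    rw [← (imk_inj (A := A) N c).tsum_eq (f := fun x => conj (w x) * hs N c (sh N c f) x)
      (fun x hx => by
        by_contra hc
        exact hx (h4 x hc))]
    refine tsum_congr fun a => ?_
    rw [hs_apply]
    rfl
  rw [inner_eq]
  have h5 := summable_inner' w f
  have h6 : Summable fun x : (H ⧸ N) × A => conj (w x) * f x := h5
  show ∑' x : (H ⧸ N) × A, conj (w x) * f x = 0
  rw [h6.tsum_prod]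
  have h7 : ∀ c : H ⧸ N, ∑' a : A, conj (w (c, a)) * f (c, a) = 0 := by
    intro c
    have h8 := h1 c
    rw [inner_eq] at h8
    exact h8
  simp_rw [h7]
  exact tsum_zero

/-- subspaces induced from rational subspaces are rational -/
theorem rat_indSub {K : Subfield ℂ} {A : Type} [MulAction N A] [FC N A] {W : Submodule ℂ (L2 A)} (hW : Rat K N W) :
    Rat K H (indSub N W) := by
  classical
  obtain ⟨a, b, T, hT, rfl⟩ := hW.exists_form
  let B : Type := Fr N (Fin a)
  let C : Type := Fr N (Fin b)
  obtain ⟨T', hT', hTv⟩ := exists_indOp N hT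
  -- the pair of functions as a function on the induced set of the union
  let e : Ind N (A ⊕ B) ≃ Ind N A ⊕ Ind N B :=
    { toFun := fun x => Sum.elim (fun y => Sum.inl (imk N x.1 y)) (fun z => Sum.inr (imk N x.1 z)) x.2
      invFun := fun x => Sum.elim (fun y => imk N y.1 (Sum.inl y.2)) (fun z => imk N z.1 (Sum.inr z.2)) x
      left_inv := by rintro ⟨c, x | y⟩ <;> rfl
      right_inv := by rintro (⟨c, x⟩ | ⟨c, y⟩) <;> rfl }
  have he : ∀ (h : H) (x : Ind N (A ⊕ B)), e (h • x) = h • e x := by
    rintro h ⟨c, x | y⟩ <;> rfl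
  let U : L2 (Ind N A ⊕ Ind N B) →L[ℂ] L2 (Ind N C) := T'.comp (pull e e.injective)
  have hU : KOp K H U := hT'.comp (kop_pull e.injective he)
  have h2 := rat_gen hU
  have hsh : ∀ (c : H ⧸ N) (f : L2 (Ind N A ⊕ Ind N B)), sh N c (pull e e.injective f) =
      il A B (sh N c (pl (Ind N A) (Ind N B) f)) + ir A B (sh N c (pr (Ind N A) (Ind N B) f)) := by
    intro c f
    apply pl_pr_ext
    · rw [map_add, pl_il, pl_ir, add_zero]
      rfl
    · rw [map_add, pr_il, pr_ir, zero_add]
      rfl
  have h3 : ATY.im (pull Sum.inl Sum.inl_injective) (kr U) = indSub N (ATY.im (pl A B) (kr T)) := by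
    apply le_antisymm
    · refine im_le ?_ fun f hf => ?_
      · have h4 : ((indSub N (ATY.im (pl A B) (kr T)) : Submodule ℂ (L2 (Ind N A))) : Set (L2 (Ind N A))) =
            ⋂ c : H ⧸ N, sh N c ⁻¹' (ATY.im (pl A B) (kr T) : Set (L2 A)) := by
          ext f
          rw [Set.mem_iInter]
          exact Iff.rfl
        rw [h4]
        exact isClosed_iInter fun c => isClosed_im.preimage (sh N c).continuous
      · intro c
        refine map_le_im ⟨sh N c (pull e e.injective f), ?_, ?_⟩
        · have h5 : T' (pull e e.injective f) = 0 := hf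
          show T (sh N c (pull e e.injective f)) = 0
          rw [← hTv, h5, map_zero]
        · show pl A B (sh N c (pull e e.injective f)) = sh N c (pl (Ind N A) (Ind N B) f)
          rw [hsh, map_add, pl_il, pl_ir, add_zero]
    · intro f hf
      refine mem_of_sheets N isClosed_im fun c => ?_
      have h4 : ATY.im (pl A B) (kr T) ≤
          (ATY.im (pull Sum.inl Sum.inl_injective) (kr U)).comap
            ((hs N c : L2 A →L[ℂ] L2 (Ind N A)) : L2 A →ₗ[ℂ] L2 (Ind N A)) := by
        refine im_le (isClosed_im.preimage (hs N c).continuous) fun g hg => ?_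
        refine map_le_im ⟨il (Ind N A) (Ind N B) (hs N c (pl A B g)) + ir (Ind N A) (Ind N B) (hs N c (pr A B g)), ?_, ?_⟩
        · show T' (pull e e.injective _) = 0
          apply sh_ext
          intro c'
          rw [hTv, hsh, map_zero, map_add (pl (Ind N A) (Ind N B)), pl_il, pl_ir, add_zero,
            map_add (pr (Ind N A) (Ind N B)), pr_il, pr_ir, zero_add]
          by_cases h : c' = c
          · subst h
            rw [sh_hs, sh_hs, il_add_ir]
            exact hg
          · rw [sh_hs_ne N h, sh_hs_ne N h, map_zero, map_zero, add_zero, map_zero]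
        · show pl (Ind N A) (Ind N B) _ = _
          rw [map_add, pl_il, pl_ir, add_zero]
          rfl
      exact h4 (hf c)
  rwa [h3] at h2

variable [N.FiniteIndex]

/-- restriction of a function on `X` to the sheets -/
theorem exists_diag (K : Subfield ℂ) {X : Type} [MulAction H X] [FC H X] [FC N X] :
    ∃ S : L2 X →L[ℂ] L2 (Ind N X), KOp K H S ∧ ∀ (c : H ⧸ N) (f : L2 X), sh N c (S f) = la (Quotient.out c)⁻¹ f := by
  classical
  haveI : Fintype (H ⧸ N) := Fintype.ofFinite _
  let S : L2 X →L[ℂ] L2 (Ind N X) := ∑ c : H ⧸ N, (hs N c).comp (la (Quotient.out c)⁻¹)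
  have hS : ∀ (c : H ⧸ N) (f : L2 X), sh N c (S f) = la (Quotient.out c)⁻¹ f := by
    intro c f
    have h1 : S f = ∑ c : H ⧸ N, hs N c (la (Quotient.out c)⁻¹ f) := by
      show (∑ c : H ⧸ N, (hs N c).comp (la (Quotient.out c)⁻¹)) f = _
      rw [sum_apply]
      rfl
    rw [h1, map_sum, Finset.sum_eq_single c]
    · rw [sh_hs]
    · intro c' _ hc'
      rw [sh_hs_ne N (Ne.symm hc')]
    · intro h
      exact absurd (Finset.mem_univ c) h
  have hv : ∀ (x : X) (y : Ind N X), S (dl x) y = if Quotient.out y.1 • y.2 = x then 1 else 0 := by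
    intro x y
    have h1 := congrArg (fun u : L2 X => u y.2) (hS y.1 (dl x))
    have h2 : S (dl x) y = la (Quotient.out y.1)⁻¹ (dl x) y.2 := h1
    rw [h2, la_apply, inv_inv]
    unfold dl
    rw [lp.single_apply]
    split_ifs with h
    · rw [h, Pi.single_eq_same]
    · rw [Pi.single_eq_of_ne h]
  refine ⟨S, ⟨?_, ?_, ?_⟩, hS⟩
  · intro g f
    apply sh_ext
    intro c
    rw [hS, sh_la, hS]
    ext x
    rw [la_apply, la_apply, la_apply, la_apply, inv_inv, inv_inv, inv_inv]
    have h1 := out_mul_cyc N g⁻¹ c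
    refine congrArg (fun u : X => f u) ?_
    show g⁻¹ • Quotient.out c • x = Quotient.out (g⁻¹ • c) • ((cyc N g⁻¹ c : N) : H) • x
    rw [← mul_smul, ← mul_smul, h1]
  · intro x
    refine (Set.finite_range (fun c : H ⧸ N => imk N c ((Quotient.out c)⁻¹ • x))).subset ?_
    intro y hy
    have hy' : S (dl x) y ≠ 0 := hy
    rw [hv] at hy'
    by_cases h : Quotient.out y.1 • y.2 = x
    · refine ⟨y.1, ?_⟩
      show imk N y.1 ((Quotient.out y.1)⁻¹ • x) = y
      rw [← h, inv_smul_smul]
      rfl
    · rw [if_neg h] at hy'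
      exact absurd rfl hy'
  · intro x y
    rw [hv]
    split_ifs
    · exact K.one_mem
    · exact K.zero_mem

end ind

/-- ascent from a subgroup of finite index -/
theorem Rat.asc {K : Subfield ℂ} {H : Type} [Group H] {X : Type} [MulAction H X] [FC H X] {W : Submodule ℂ (L2 X)}
    (hI : Md H W) (N : Subgroup H) [N.FiniteIndex] (hW : Rat K N W) : Rat K H W := by
  obtain ⟨S, hS, hSv⟩ := exists_diag N K (X := X)
  have h1 := (rat_indSub N hW).comap hS
  have h2 : (indSub N W).comap (S : L2 X →ₗ[ℂ] L2 (Ind N X)) = W := by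
    ext f
    rw [mem_comap', mem_indSub]
    constructor
    · intro h
      have h3 := h ((1 : H) : H ⧸ N)
      rw [hSv] at h3
      have h4 := hI.inv (Quotient.out ((1 : H) : H ⧸ N)) _ h3
      have h5 : la (Quotient.out ((1 : H) : H ⧸ N)) (la (Quotient.out ((1 : H) : H ⧸ N))⁻¹ f) = f := by
        ext x
        rw [la_apply, la_apply, inv_inv, smul_inv_smul]
      rwa [h5] at h4
    · intro h c
      rw [hSv]
      exact hI.inv _ _ h
  rwa [h2] at h1

end ATY
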