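import Pool.Agent.ATY.X1
import Pool.Agent.ATY.Cls
import Pool.Agent.ATY.L

/-!
# Directed unions (row X2)

If every finite subset of a group lies in a subgroup with the two properties `Gd n`, then the group has them.
-/

set_option autoImplicit false

open scoped ComplexConjugate InnerProductSpace
open Filter Topology

namespace ATY
open Singer Singer.HT Pool.WeakAtiyah

/-- ranks over directed unions -/
theorem ranksIn_union {K : Subfield ℂ} {G : Type} [Group G] {n : ℕ}
    (h : ∀ S : Finset G, ∃ B : Subgroup G, (∀ g ∈ S, g ∈ B) ∧ RanksIn K B n) : RanksIn K G n := by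
  classical
  intro ι κ _ _ M
  obtain ⟨B, hB, hR⟩ := h (Finset.univ.biUnion fun p : ι × κ => (M p.1 p.2).coeff.support)
  let M' : Matrix ι κ (MonoidAlgebra K B) := fun i l =>
    ⟨(M i l).coeff.comapDomain B.subtype ((Subgroup.subtype_injective B).injOn)⟩
  have h1 : indK B.subtype M' = M := by
    refine Matrix.ext fun i l => MonoidAlgebra.coeff_injective ?_
    have h2 : (indK B.subtype M' i l).coeff = (M' i l).coeff.mapDomain B.subtype := by simp [indK]
    have h3 : (M' i l).coeff.mapDomain B.subtype = (M i l).coeff := by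
      refine Finsupp.mapDomain_comapDomain _ (Subgroup.subtype_injective B) _ ?_
      intro g hg
      exact ⟨⟨g, hB g (Finset.mem_biUnion.2 ⟨(i, l), Finset.mem_univ _, hg⟩)⟩, rfl⟩
    exact h2.trans h3
  rw [← h1, rank_indK B.subtype (Subgroup.subtype_injective B)]
  exact hR ι κ M'

/-- the subspace generated by a rational subspace over a subgroup is rational -/
lemma exists_span {G : Type} [Group G] {X X' : Type} [MulAction G X] [FC G X] (N : Subgroup G) [MulAction N X']
    [FC N X'] {j : X' → X} (hj : Function.Injective j) (he : ∀ (g : N) x, j (g • x) = (g : G) • j x)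
    {V : Submodule ℂ (L2 X')} (hV : Rat ⊤ N V) :
    ∃ W : Submodule ℂ (L2 X), Rat ⊤ G W ∧ (∀ f ∈ V, push j hj f ∈ W) ∧
      ∀ W' : Submodule ℂ (L2 X), Md G W' → (∀ f ∈ V, push j hj f ∈ W') → W ≤ W' := by
  obtain ⟨U, hU, hUv⟩ := exists_kop (K := ⊤) (H := G) (X := Ind N X') (Y := X)
    (fun x => dl (Quotient.out x.1 • j x.2))
    (by
      intro g x
      show dl (Quotient.out (g • x.1) • j (cyc N g x.1 • x.2)) = la g (dl (Quotient.out x.1 • j x.2))
      rw [la_dl, he, ← mul_smul, ← mul_smul, out_mul_cyc])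
    (fun x => dl_mem_fs _) (fun _ _ => trivial)
  have hUh : ∀ (c : G ⧸ N) (f : L2 X'), U (hs N c f) = la (Quotient.out c) (push j hj f) := by
    intro c f
    have h1 : U.comp (hs N c) = (la (Quotient.out c) : L2 X →L[ℂ] L2 X).comp (push j hj) := by
      apply eq_of_dl
      intro x
      show U (hs N c (dl x)) = la (Quotient.out c) (push j hj (dl x))
      rw [hs_dl, hUv, push_dl, la_dl]
      rfl
    exact congrArg (fun S : L2 X' →L[ℂ] L2 X => S f) h1
  have hr : Rat ⊤ G (im U (indSub N V)) := (rat_indSub N hV).im hU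
  refine ⟨im U (indSub N V), hr, ?_, ?_⟩
  · intro f hf
    let c : G ⧸ N := ((1 : G) : G ⧸ N)
    have h1 : hs N c f ∈ indSub N V := by
      rw [mem_indSub]
      intro c'
      by_cases h : c' = c
      · rw [h, sh_hs]
        exact hf
      · rw [sh_hs_ne _ h]
        exact Submodule.zero_mem _
    have h2 : U (hs N c f) ∈ im U (indSub N V) := map_le_im (Submodule.mem_map_of_mem h1)
    rw [hUh] at h2
    have h3 := hr.md.inv (Quotient.out c)⁻¹ _ h2
    rwa [AA.la_inv_la] at h3
  · intro W' hW' h
    refine im_le hW'.cl ?_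
    intro f hf
    have h1 : f ∈ W'.comap (U : L2 (Ind N X') →ₗ[ℂ] L2 X) := by
      refine mem_of_sheets N (hW'.cl.preimage U.continuous) ?_
      intro c
      show U (hs N c (sh N c f)) ∈ W'
      rw [hUh]
      exact hW'.inv _ _ (h _ ((mem_indSub N).1 hf c))
    exact h1

/-- coordinates adapted to an equivariant map to an orbit -/
lemma exists_kappa {A X Q : Type} [Group A] [MulAction A X] [FC A X] [MulAction A Q] (a : X →[A] Q) (q : Q)
    (ho : ∀ x, a x ∈ MulAction.orbit A q) : ∃ κ : X → A, (∀ (g : A) (x : X), κ (g • x) = g * κ x) ∧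
      ∀ x, a x = κ x • q := by
  choose c hc using ho
  have hc' : ∀ x, c x • q = a x := hc
  refine ⟨fun x => (co A X x).1 * c (bp A X (co A X x).2), ?_, ?_⟩
  · intro g x
    show (co A X (g • x)).1 * c (bp A X (co A X (g • x)).2) = g * ((co A X x).1 * c (bp A X (co A X x).2))
    rw [co_smul]
    show g * (co A X x).1 * c (bp A X (co A X x).2) = _
    rw [mul_assoc]
  · intro x
    have h1 : (co A X x).1 • bp A X (co A X x).2 = x := by
      unfold bp
      rw [← AA.co_symm, mul_one]
      exact (co A X).symm_apply_apply x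
    rw [mul_smul, hc', ← map_smul, h1]

section union
variable {A : Type} [Group A]

/-- the group `Psi A Q` acts on the cosets through `A` -/
def QB (B : Subgroup A) : Type := A ⧸ B

instance qbAct (B : Subgroup A) (Q : Type) [MulAction A Q] : MulAction (Psi A Q) (QB B) where
  smul g c := g.right • (show A ⧸ B from c)
  one_smul c := by
    show (1 : Psi A Q).right • (show A ⧸ B from c) = c
    rw [SemidirectProduct.one_right, one_smul]
  mul_smul g h c := by
    show (g * h).right • (show A ⧸ B from c) = g.right • h.right • (show A ⧸ B from c)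
    rw [SemidirectProduct.mul_right, mul_smul]

/-- rationality of the part over a point: the ranks and `SSP` for the stabilisers in large subgroups are enough -/
theorem rat_of_hat_union' {n : ℕ} (hn : 0 < n) {X Q : Type} [MulAction A X] [FC A X] [MulAction A Q]
    (h : ∀ S : Finset A, ∃ B : Subgroup A, (∀ g ∈ S, g ∈ B) ∧ RanksIn ⊤ B n ∧
      ∀ q : Q, SSP ⊤ B (MulAction.stabilizer B q))
    (a : X →[A] Q) (q : Q) (ho : ∀ x, a x ∈ MulAction.orbit A q) {Y : Submodule ℂ (L2 X)} (hY : Md A Y)
    (lY : Loc a Y) (hr : Rat ⊤ (Psi A Q) (hat Q Y)) : Rat ⊤ (MulAction.stabilizer A q) (loc a q Y) := by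
  classical
  obtain ⟨κ, hκ, hκq⟩ := exists_kappa a q ho
  obtain ⟨p, m, T, hT, hYT⟩ := hr.exists_form
  -- the coordinates of the points
  let kz : HX Q X ⊕ Fr (Psi A Q) (Fin p) → A := fun z => Sum.elim (fun x => κ x.2) (fun y => y.1.right) z
  have hkz : ∀ (g : Psi A Q) z, kz (g • z) = g.right * kz z := by
    intro g z
    cases z with
    | inl x => exact hκ g.right x.2
    | inr y => rfl
  let ky : Fr (Psi A Q) (Fin m) → A := fun y => y.1.right
  have hky : ∀ (g : Psi A Q) y, ky (g • y) = g.right * ky y := fun _ _ => rfl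
  -- the finite set
  let S : Finset A := Finset.univ.biUnion fun i : Fin (rk (Psi A Q) (HX Q X ⊕ Fr (Psi A Q) (Fin p))) =>
    (hT.fs (bp _ _ i)).toFinset.image fun y => (kz (bp _ _ i))⁻¹ * ky y
  obtain ⟨B, hSB, hBr, hBs⟩ := h S
  have hspread : ∀ z y, T (dl z) y ≠ 0 → (kz z)⁻¹ * ky y ∈ B := by
    intro z y hzy
    obtain ⟨g, i, rfl⟩ := exists_bp (G := Psi A Q) z
    rw [← la_dl, hT.equi, la_apply] at hzy
    have h1 : (kz (bp _ _ i))⁻¹ * ky (g⁻¹ • y) ∈ S := by
      refine Finset.mem_biUnion.2 ⟨i, Finset.mem_univ _, Finset.mem_image.2 ⟨g⁻¹ • y, ?_, rfl⟩⟩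
      rw [Set.Finite.mem_toFinset]
      exact hzy
    have h2 : (kz (g • bp (Psi A Q) _ i))⁻¹ * ky y = (kz (bp _ _ i))⁻¹ * ky (g⁻¹ • y) := by
      rw [hkz, hky, SemidirectProduct.inv_right, mul_inv_rev, mul_assoc]
    rw [h2]
    exact hSB _ h1
  -- the blocks
  let bz : HX Q X ⊕ Fr (Psi A Q) (Fin p) →[Psi A Q] QB B := ⟨fun z => (kz z : A ⧸ B), fun g z => by
    show ((kz (g • z) : A) : A ⧸ B) = g.right • ((kz z : A) : A ⧸ B)
    rw [hkz]
    rfl⟩
  let bx : HX Q X →[Psi A Q] QB B := ⟨fun x => (κ x.2 : A ⧸ B), fun g x => by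
    show ((κ (g.right • x.2) : A) : A ⧸ B) = g.right • ((κ x.2 : A) : A ⧸ B)
    rw [hκ]
    rfl⟩
  let by' : Fr (Psi A Q) (Fin m) →[Psi A Q] QB B := ⟨fun y => (ky y : A ⧸ B), fun g y => rfl⟩
  have hT2 : ∀ z y, T (dl z) y ≠ 0 → bz z = by' y := by
    intro z y hzy
    exact QuotientGroup.eq.2 (hspread z y hzy)
  obtain ⟨lT, rT⟩ := kr_loc hT bz by' hT2
  let c : QB B := ((1 : A) : A ⧸ B)
  -- the part of the hat in the block
  have h1 : Rat ⊤ (MulAction.stabilizer (Psi A Q) c) (loc bx c (hat Q Y)) := by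
    let i : Fib bx c → Fib bz c := fun x => ⟨Sum.inl x.1, x.2⟩
    have hi : Function.Injective i := fun x y hxy => Subtype.ext (Sum.inl_injective (congrArg Subtype.val hxy))
    have hki : KOp ⊤ (MulAction.stabilizer (Psi A Q) c) (pull i hi) := kop_pull hi fun _ _ => rfl
    have h2 := (rT c).im hki
    have h3 : im (pull i hi) (loc bz c (kr T)) = loc bx c (hat Q Y) := by
      apply le_antisymm
      · refine im_le (hY.hat.loc c).cl fun u hu => ?_
        have hu' : push (fi bz c) (fi_inj bz c) u ∈ kr T := hu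
        rw [mem_loc, hYT]
        have h4 : push (fi bx c) (fi_inj bx c) (pull i hi u) = pl _ _ (push (fi bz c) (fi_inj bz c) u) := by
          ext x
          show _ = push (fi bz c) (fi_inj bz c) u (Sum.inl x)
          by_cases hx : bx x = c
          · have h5 := push_apply (fi bx c) (fi_inj bx c) (pull i hi u) ⟨x, hx⟩
            have h6 := push_apply (fi bz c) (fi_inj bz c) u (i ⟨x, hx⟩)
            exact h5.trans h6.symm
          · rw [push_apply_of_notMem, push_apply_of_notMem]
            · rintro ⟨y, hy⟩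
              have h7 : y.1 = Sum.inl x := hy
              have h8 := y.2
              rw [h7] at h8
              exact hx h8
            · rintro ⟨y, hy⟩
              have h7 : y.1 = x := hy
              have h8 := y.2
              rw [h7] at h8
              exact hx h8
        rw [h4]
        exact map_le_im (Submodule.mem_map_of_mem hu')
      · intro f hf
        have h4 : hat Q Y ≤ (im (pull i hi) (loc bz c (kr T))).comap
            (pull (fi bx c) (fi_inj bx c) : L2 (HX Q X) →ₗ[ℂ] L2 (Fib bx c)) := by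
          rw [hYT]
          refine im_le (isClosed_im.preimage (pull (fi bx c) (fi_inj bx c)).continuous) fun u hu => ?_
          have h5 : pull (fi bz c) (fi_inj bz c) u ∈ loc bz c (kr T) := by
            rw [mem_loc, push_pull_fi]
            exact lT c u hu
          exact map_le_im (Submodule.mem_map_of_mem h5)
        have h5 := h4 (mem_loc.1 hf)
        rw [Submodule.mem_comap] at h5
        have h6 : pull (fi bx c) (fi_inj bx c) (push (fi bx c) (fi_inj bx c) f) = f := pull_push _ _ _
        have h7 : pull (fi bx c) (fi_inj bx c) (push (fi bx c) (fi_inj bx c) f) ∈ im (pull i hi) (loc bz c (kr T)) := h5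
        rwa [h6] at h7
    rw [h3] at h2
    exact h2
  -- the subgroup
  let c₀ : A ⧸ B := ((1 : A) : A ⧸ B)
  let A' := MulAction.stabilizer A c₀
  have hA' : A' = B := MulAction.stabilizer_quotient B
  have hGr : RanksIn ⊤ A' n := by
    rw [hA']
    exact hBr
  have hGs : ∀ q' : Q, SSP ⊤ A' (MulAction.stabilizer A' q') := by
    rw [hA']
    exact hBs
  let b₀ : X →[A] A ⧸ B := ⟨fun x => (κ x : A ⧸ B), fun g x => by
    show ((κ (g • x) : A) : A ⧸ B) = g • ((κ x : A) : A ⧸ B)
    rw [hκ]
    rfl⟩
  have hb₀ : ∀ x, b₀ x = c₀ → κ x ∈ A' := by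
    intro x hx
    rw [hA']
    have h2 : ((κ x : A) : A ⧸ B) = ((1 : A) : A ⧸ B) := hx
    have h3 := QuotientGroup.eq.1 h2.symm
    rwa [inv_one, one_mul] at h3
  set Y' : Submodule ℂ (L2 (Fib b₀ c₀)) := loc b₀ c₀ Y with hY'
  let α₁ : MulAction.stabilizer (Psi A Q) c ≃* Psi A' Q :=
    { toFun := fun g => ⟨g.1.left, ⟨g.1.right, g.2⟩⟩
      invFun := fun g => ⟨⟨g.left, g.right.1⟩, g.right.2⟩
      left_inv := fun _ => rfl
      right_inv := fun _ => rfl
      map_mul' := fun _ _ => rfl }
  let e₁ : Fib bx c ≃ HX Q (Fib b₀ c₀) :=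
    { toFun := fun x => hp x.1.1 ⟨x.1.2, x.2⟩
      invFun := fun x => ⟨hp x.1 x.2.1, x.2.2⟩
      left_inv := fun _ => rfl
      right_inv := fun _ => rfl }
  have h2 := h1.equiv α₁ e₁ (fun _ _ => rfl)
  have h3 : (loc bx c (hat Q Y)).map (push e₁ e₁.injective : L2 (Fib bx c) →ₗ[ℂ] L2 (HX Q (Fib b₀ c₀))) = hat Q Y' := by
    ext f
    rw [mem_map_push, mem_loc, mem_hat, mem_hat]
    refine forall_congr' fun ν => ?_
    rw [hY', mem_loc]
    have h4 : sl ν (push (fi bx c) (fi_inj bx c) (pull e₁ e₁.injective f)) =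
        push (fi b₀ c₀) (fi_inj b₀ c₀) (sl ν f) := by
      ext x
      rw [sl_apply]
      by_cases hx : b₀ x = c₀
      · have h5 := push_apply (fi bx c) (fi_inj bx c) (pull e₁ e₁.injective f) (⟨hp ν x, hx⟩ : Fib bx c)
        have h6 := push_apply (fi b₀ c₀) (fi_inj b₀ c₀) (sl ν f) (⟨x, hx⟩ : Fib b₀ c₀)
        exact h5.trans h6.symm
      · rw [push_apply_of_notMem, push_apply_of_notMem]
        · rintro ⟨y, hy⟩
          have h5 : y.1 = x := hy
          have h6 := y.2
          rw [h5] at h6
          exact hx h6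
        · rintro ⟨y, hy⟩
          have h5 : y.1 = hp ν x := hy
          have h6 := y.2
          rw [h5] at h6
          exact hx h6
    rw [h4]
  rw [h3] at h2
  let a' : Fib b₀ c₀ →[A'] Q := ⟨fun x => a x.1, fun g x => map_smul a (g : A) x.1⟩
  have ho' : ∀ x, a' x ∈ MulAction.orbit A' q := fun x => ⟨⟨κ x.1, hb₀ x.1 x.2⟩, (hκq x.1).symm⟩
  have lY' : Loc a' Y' := by
    intro q' f hf
    rw [hY', mem_loc] at hf ⊢
    have h5 : push (fi b₀ c₀) (fi_inj b₀ c₀) (cu {x | a' x = q'} f) =
        cu {x | a x = q'} (push (fi b₀ c₀) (fi_inj b₀ c₀) f) := by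
      ext x
      rw [cu_apply]
      by_cases hx : x ∈ Set.range (fi b₀ c₀)
      · obtain ⟨y, rfl⟩ := hx
        rw [push_apply, push_apply, cu_apply]
        rfl
      · rw [push_apply_of_notMem _ _ _ hx, push_apply_of_notMem _ _ _ hx]
        split_ifs <;> rfl
    rw [h5]
    exact lY _ _ hf
  have h4 : Rat ⊤ (MulAction.stabilizer A' q) (loc a' q Y') :=
    rat_of_hat hn a' q ho' hGr hGs (hY.loc c₀) lY' h2
  -- the span
  let C := MulAction.stabilizer A q
  let N : Subgroup C := A'.subgroupOf C
  let α₂ : MulAction.stabilizer A' q ≃* N :=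
    { toFun := fun g => ⟨⟨g.1.1, g.2⟩, g.1.2⟩
      invFun := fun g => ⟨⟨g.1.1, g.2⟩, g.1.2⟩
      left_inv := fun _ => rfl
      right_inv := fun _ => rfl
      map_mul' := fun _ _ => rfl }
  let actN : MulAction N (Fib a' q) := MulAction.compHom (Fib a' q) α₂.symm.toMonoidHom
  have hFCN : FC N (Fib a' q) := fc_comp α₂ (fun _ _ => rfl)
  have h5 := h4.equiv α₂ (Equiv.refl (Fib a' q)) (fun _ _ => rfl)
  rw [map_push_refl] at h5
  let j : Fib a' q → Fib a q := fun x => ⟨x.1.1, x.2⟩
  have hj : Function.Injective j := fun x y hxy =>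
    Subtype.ext (Subtype.ext (congrArg (fun z : Fib a q => z.1) hxy))
  obtain ⟨W, hW, hW1, hW2⟩ := exists_span N hj (fun _ _ => rfl) h5
  have hpj : ∀ f : L2 (Fib a' q), push (fi b₀ c₀) (fi_inj b₀ c₀) (push (fi a' q) (fi_inj a' q) f) =
      push (fi a q) (fi_inj a q) (push j hj f) := by
    intro f
    rw [push_push, push_push]
    exact push_congr _ _ (fun _ => rfl) f
  have h6 : W ≤ loc a q Y := by
    refine hW2 _ (hY.loc q) fun f hf => ?_
    rw [mem_loc, ← hpj]
    exact hf
  have h7 : loc a q Y ≤ W := by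
    obtain ⟨Y₂, hY₂, lY₂, hq₂⟩ := exists_induced a q hW.md
    have h8 : hat Q Y ≤ hat Q Y₂ := by
      rw [hYT]
      refine im_le hY₂.hat.cl fun u hu => ?_
      have h9 : u ∈ (hat Q Y₂).comap (pl (HX Q X) (Fr (Psi A Q) (Fin p)) :
          L2 (HX Q X ⊕ Fr (Psi A Q) (Fin p)) →ₗ[ℂ] L2 (HX Q X)) := by
        refine UU.mem_of_fib bz (hY₂.hat.cl.preimage (pl (HX Q X) (Fr (Psi A Q) (Fin p))).continuous) u fun d => ?_
        show pl (HX Q X) (Fr (Psi A Q) (Fin p)) (cu {x | bz x = d} u) ∈ hat Q Y₂
        -- translate to the block of the subgroup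
        obtain ⟨b, hb⟩ : ∃ b : A, ((b : A) : A ⧸ B) = d := QuotientGroup.mk_surjective d
        let g : Psi A Q := SemidirectProduct.inr b
        set w := la g⁻¹ (cu {x | bz x = d} u) with hw
        have hwT : w ∈ kr T := (rat_kr hT).md.inv _ _ (lT d u hu)
        have hws : ∀ z, w z ≠ 0 → bz z = c := by
          intro z hz
          rw [hw, la_apply, inv_inv, cu_apply] at hz
          by_contra hc
          apply hz
          rw [if_neg]
          intro h10
          have h11 : bz (g • z) = d := h10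
          rw [map_smul, ← hb] at h11
          apply hc
          have h12 : g • bz z = g • c := by
            rw [h11]
            show ((b : A) : A ⧸ B) = b • ((1 : A) : A ⧸ B)
            exact (congrArg _ (mul_one b)).symm
          exact MulAction.injective g h12
        have h10 : pl (HX Q X) (Fr (Psi A Q) (Fin p)) w ∈ hat Q Y₂ := by
          have h11 : pl (HX Q X) (Fr (Psi A Q) (Fin p)) w ∈ hat Q Y := by
            rw [hYT]
            exact map_le_im (Submodule.mem_map_of_mem hwT)
          rw [mem_hat] at h11 ⊢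
          intro ν
          set v := sl ν (pl (HX Q X) (Fr (Psi A Q) (Fin p)) w) with hv
          have hvY : v ∈ Y := h11 ν
          have hvs : ∀ x, v x ≠ 0 → b₀ x = c₀ := fun x hx => hws (Sum.inl (hp ν x)) hx
          refine UU.mem_of_fib a hY₂.cl v fun q' => ?_
          by_cases hz : ∃ x, cu {x | a x = q'} v x ≠ 0
          swap
          · have h12 : cu {x | a x = q'} v = 0 := by
              ext x
              by_contra h13
              exact hz ⟨x, h13⟩
            rw [h12]
            exact Y₂.zero_mem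
          obtain ⟨x₀, hx₀⟩ := hz
          have hx₀' : a x₀ = q' ∧ v x₀ ≠ 0 := by
            rw [cu_apply] at hx₀
            split_ifs at hx₀ with h12
            · exact ⟨h12, hx₀⟩
            · exact absurd rfl hx₀
          set g' := κ x₀ with hg'
          have hg'A : g' ∈ A' := hb₀ x₀ (hvs x₀ hx₀'.2)
          set w' := la g'⁻¹ (cu {x | a x = q'} v) with hw'
          have hw'Y : w' ∈ Y := hY.inv _ _ (lY q' v hvY)
          have hw's : ∀ x, w' x ≠ 0 → a x = q ∧ b₀ x = c₀ := by
            intro x hx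
            rw [hw', la_apply, inv_inv, cu_apply] at hx
            split_ifs at hx with h12
            · have h13 : a (g' • x) = q' := h12
              rw [map_smul, ← hx₀'.1, hκq x₀] at h13
              have h14 := hvs _ hx
              rw [map_smul] at h14
              refine ⟨MulAction.injective g' h13, ?_⟩
              have h15 : g' • c₀ = c₀ := hg'A
              rw [← h15] at h14
              exact MulAction.injective g' h14
            · exact absurd rfl hx
          set w'' : L2 (Fib a' q) := pull (fun x : Fib a' q => x.1.1)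
            (fun x y hxy => Subtype.ext (Subtype.ext hxy)) w' with hw''
          have h12 : push (fi b₀ c₀) (fi_inj b₀ c₀) (push (fi a' q) (fi_inj a' q) w'') = w' := by
            rw [push_push]
            ext x
            by_cases hx : a x = q ∧ b₀ x = c₀
            · have h13 := push_apply (fi b₀ c₀ ∘ fi a' q) ((fi_inj b₀ c₀).comp (fi_inj a' q)) w''
                (⟨⟨x, hx.2⟩, hx.1⟩ : Fib a' q)
              exact h13
            · rw [push_apply_of_notMem]
              · by_contra h13
                exact hx (hw's x (Ne.symm h13))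
              · rintro ⟨y, hy⟩
                have h13 : y.1.1 = x := hy
                exact hx ⟨by rw [← h13]; exact y.2, by rw [← h13]; exact y.1.2⟩
          have h13 : w'' ∈ loc a' q Y' := by
            rw [mem_loc, hY', mem_loc, h12]
            exact hw'Y
          have h14 := hW1 _ h13
          rw [← hq₂, mem_loc, ← hpj, h12] at h14
          have h15 := hY₂.inv g' _ h14
          rwa [hw', AA.la_la_inv] at h15
        have h11 := hY₂.hat.inv g _ h10
        have h12 : la g (pl (HX Q X) (Fr (Psi A Q) (Fin p)) w) = pl (HX Q X) (Fr (Psi A Q) (Fin p)) (la g w) :=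
          ((kop_pl (K := ⊤) (H := Psi A Q)).equi g w).symm
        rw [h12, hw, AA.la_la_inv] at h11
        exact h11
      exact h9
    have h9 : Y ≤ Y₂ := hat_le_iff.1 h8
    have h10 : loc a q Y ≤ loc a q Y₂ := fun f hf => h9 hf
    rwa [hq₂] at h10
  rw [le_antisymm h7 h6]
  exact hW

/-- rationality of the part over a point -/
theorem rat_of_hat_union {n : ℕ} (hn : 0 < n)
    (h : ∀ S : Finset A, ∃ B : Subgroup A, (∀ g ∈ S, g ∈ B) ∧ Gd n B) {X Q : Type} [MulAction A X] [FC A X]
    [MulAction A Q] (a : X →[A] Q) (q : Q) (ho : ∀ x, a x ∈ MulAction.orbit A q) {Y : Submodule ℂ (L2 X)} (hY : Md A Y)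
    (lY : Loc a Y) (hr : Rat ⊤ (Psi A Q) (hat Q Y)) : Rat ⊤ (MulAction.stabilizer A q) (loc a q Y) := by
  refine rat_of_hat_union' hn (fun S => ?_) a q ho hY lY hr
  obtain ⟨B, hSB, hB⟩ := h S
  exact ⟨B, hSB, hB.ranks, fun q' => hB.ssp _⟩

/-- **directed unions** -/
theorem Gd.union {n : ℕ} (hn : 0 < n) (h : ∀ S : Finset A, ∃ B : Subgroup A, (∀ g ∈ S, g ∈ B) ∧ Gd n B) : Gd n A := by
  have hrk : ∀ (Q : Type) [MulAction A Q], RanksIn ⊤ (Psi A Q) n := by
    classical
    intro Q _
    refine ranksIn_union fun S => ?_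
    obtain ⟨B, hB, hG⟩ := h (S.image fun g => g.right)
    refine ⟨B.comap SemidirectProduct.rightHom, fun g hg => hB _ (Finset.mem_image_of_mem _ hg), ?_⟩
    let f : B.comap (SemidirectProduct.rightHom : Psi A Q →* A) →* Psi B Q :=
      { toFun := fun g => ⟨g.1.left, ⟨g.1.right, g.2⟩⟩
        map_one' := rfl
        map_mul' := fun _ _ => rfl }
    refine ranksIn_of_injective f ?_ (hG.rk Q)
    intro x y hxy
    have h1 := congrArg SemidirectProduct.left hxy
    have h2 := congrArg (fun z : Psi B Q => (z.right : A)) hxy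
    exact Subtype.ext (SemidirectProduct.ext h1 h2)
  refine ⟨hrk, fun C => ssp_of_psi hn C hrk ?_⟩
  intro X Q _ _ _ a q _ ho Y hY lY hr
  exact rat_of_hat_union hn h a q ho hY lY hr

end union

end ATY
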